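import Pool.Agent.Lib.MP_3d2757_nt.Spec

section
/-! # MP_3d2757_nt : module SRT0 (antitone rearrangement) -/
open Finset

namespace MPtg.SrtM

theorem antitone_srt {n : ℕ} (m : Fin n → ℤ) : Antitone (srt m) := by
  intro i j hij
  exact Tuple.monotone_sort m (Fin.rev_le_rev.2 hij)

theorem srt_eq_comp {n : ℕ} (m : Fin n → ℤ) :
    srt m = m ∘ (Fin.revPerm.trans (Tuple.sort m)) := by
  funext i
  rfl

/-- an antitone rearrangement is unique -/
theorem unique_antitone {n : ℕ} (m : Fin n → ℤ) (w w' : Equiv.Perm (Fin n))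
    (h : Antitone (m ∘ w)) (h' : Antitone (m ∘ w')) : m ∘ w = m ∘ w' := by
  have h1 : Monotone (m ∘ (Fin.revPerm.trans w)) := by
    intro i j hij
    exact h (Fin.rev_le_rev.2 hij)
  have h2 : Monotone (m ∘ (Fin.revPerm.trans w')) := by
    intro i j hij
    exact h' (Fin.rev_le_rev.2 hij)
  have h3 := Tuple.unique_monotone h1 h2
  funext i
  have := congrFun h3 (Fin.rev i)
  simpa using this

theorem srt_eq_of {n : ℕ} (m : Fin n → ℤ) (w : Equiv.Perm (Fin n)) (h : Antitone (m ∘ w)) :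
    srt m = m ∘ w := by
  rw [srt_eq_comp]
  refine unique_antitone m _ _ ?_ h
  rw [← srt_eq_comp]
  exact antitone_srt m

theorem srt_of_antitone {n : ℕ} (m : Fin n → ℤ) (h : Antitone m) : srt m = m := by
  have := srt_eq_of m 1 (by simpa using h)
  simpa using this

theorem srt_perm {n : ℕ} (m : Fin n → ℤ) (w : Equiv.Perm (Fin n)) : srt (m ∘ w) = srt m := by
  have h1 : Antitone ((m ∘ w) ∘ ((Fin.revPerm.trans (Tuple.sort m)).trans w.symm)) := by
    have : (m ∘ w) ∘ ((Fin.revPerm.trans (Tuple.sort m)).trans w.symm) = srt m := by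
      funext i
      simp [srt_eq_comp]
    rw [this]
    exact antitone_srt m
  rw [srt_eq_of _ _ h1]
  funext i
  simp [srt_eq_comp]

theorem sum_le_psum {n : ℕ} (m : Fin n → ℤ) (hm : Antitone m) (A : Finset (Fin n)) :
    ∑ i ∈ A, m i ≤ psum m A.card := by
  classical
  -- compare through the order embedding
  have hle : A.card ≤ n := by simpa using A.card_le_univ
  have h1 : ∑ i ∈ A, m i = ∑ i : Fin A.card, m (A.orderEmbOfFin rfl i) := by
    have := Finset.sum_image (f := m) (s := univ) (g := A.orderEmbOfFin rfl)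
      (fun a _ b _ h => (A.orderEmbOfFin rfl).injective h)
    rw [← this]
    congr 1
    simp
  have h2 : psum m A.card = ∑ i : Fin A.card, m (Fin.castLE hle i) := by
    unfold psum
    have := Finset.sum_image (f := m) (s := (univ : Finset (Fin A.card))) (g := Fin.castLE hle)
      (fun a _ b _ h => Fin.castLE_injective hle h)
    rw [← this]
    congr 1
    ext i
    simp only [mem_filter, mem_univ, true_and, mem_image]
    constructor
    · intro hi
      exact ⟨⟨i, hi⟩, rfl⟩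
    · rintro ⟨a, rfl⟩
      simp
  rw [h1, h2]
  refine Finset.sum_le_sum fun i _ => hm ?_
  -- i ≤ (order embedding) i
  have h3 : ∀ (k : ℕ) (hk : k < A.card), k ≤ (A.orderEmbOfFin rfl ⟨k, hk⟩ : Fin n).val := by
    intro k
    induction k with
    | zero => intro _; exact Nat.zero_le _
    | succ k ih =>
      intro hk
      have h4 := ih (by omega)
      have h5 : A.orderEmbOfFin rfl ⟨k, by omega⟩ < A.orderEmbOfFin rfl ⟨k + 1, hk⟩ :=
        (A.orderEmbOfFin rfl).strictMono (by simp [Fin.lt_def])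
      have h6 : (A.orderEmbOfFin rfl ⟨k, by omega⟩ : Fin n).val <
          (A.orderEmbOfFin rfl ⟨k + 1, hk⟩ : Fin n).val := h5
      omega
  exact h3 i i.2

end MPtg.SrtM

namespace MPtg

theorem specSrt0 : SpecSrt0 := by
  intro n m
  exact ⟨SrtM.antitone_srt m, ⟨_, SrtM.srt_eq_comp m⟩, SrtM.srt_of_antitone m,
    fun w => SrtM.srt_perm m w, fun h A => SrtM.sum_le_psum m h A⟩

end MPtg
end

section
/-! # MP_3d2757_nt : bubble sort of near-antitone vectors -/
open Finset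

namespace MPtg.BubM

open SrtM

variable {n : ℕ}

/-- number of strict ascents `i < j`, `m i < m j` -/
def invn (m : Fin n → ℤ) : ℕ :=
  ((univ : Finset (Fin n × Fin n)).filter (fun p => p.1 < p.2 ∧ m p.1 < m p.2)).card

/-- near-antitone -/
def NA (m : Fin n → ℤ) : Prop := ∀ i j, i < j → m j ≤ m i + 1

theorem swap_lt {a b : Fin n} (hab : a.val + 1 = b.val) {i j : Fin n} (hij : i < j)
    (hne : ¬ (i = a ∧ j = b)) : Equiv.swap a b i < Equiv.swap a b j := by
  have hab' : a ≠ b := by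
    intro h; rw [h] at hab; omega
  by_cases h1 : i = a
  · subst h1
    have h2 : j ≠ b := fun h => hne ⟨rfl, h⟩
    have h3 : j ≠ i := hij.ne'
    rw [Equiv.swap_apply_left, Equiv.swap_apply_of_ne_of_ne h3 h2]
    rw [Fin.lt_def] at hij ⊢
    have : j.val ≠ b.val := fun h => h2 (Fin.ext h)
    omega
  by_cases h2 : i = b
  · subst h2
    have h3 : j ≠ a := by
      intro h; subst h; rw [Fin.lt_def] at hij; omega
    have h4 : j ≠ i := hij.ne'
    rw [Equiv.swap_apply_right, Equiv.swap_apply_of_ne_of_ne h3 h4]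
    rw [Fin.lt_def] at hij ⊢
    omega
  rw [Equiv.swap_apply_of_ne_of_ne h1 h2]
  by_cases h3 : j = a
  · subst h3
    rw [Equiv.swap_apply_left]
    rw [Fin.lt_def] at hij ⊢
    omega
  by_cases h4 : j = b
  · subst h4
    rw [Equiv.swap_apply_right]
    rw [Fin.lt_def] at hij ⊢
    have : i.val ≠ a.val := fun h => h1 (Fin.ext h)
    omega
  rw [Equiv.swap_apply_of_ne_of_ne h3 h4]
  exact hij

theorem invn_swap (m : Fin n → ℤ) {a b : Fin n} (hab : a.val + 1 = b.val) (hm : m a < m b) :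
    invn (m ∘ Equiv.swap a b) + 1 = invn m := by
  classical
  have hlt : a < b := by rw [Fin.lt_def]; omega
  have hmem : (a, b) ∈ (univ : Finset (Fin n × Fin n)).filter
      (fun p => p.1 < p.2 ∧ m p.1 < m p.2) := by simp [hlt, hm]
  unfold invn
  rw [← Finset.card_erase_add_one hmem]
  congr 1
  refine Finset.card_bij' (fun p _ => (Equiv.swap a b p.1, Equiv.swap a b p.2))
    (fun p _ => (Equiv.swap a b p.1, Equiv.swap a b p.2)) ?_ ?_ ?_ ?_
  · rintro ⟨i, j⟩ hp
    simp only [mem_filter, mem_univ, true_and, Function.comp, mem_erase, ne_eq] at hp ⊢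
    have hne : ¬ (i = a ∧ j = b) := by
      rintro ⟨rfl, rfl⟩
      have := hp.2
      rw [Equiv.swap_apply_left, Equiv.swap_apply_right] at this
      omega
    refine ⟨?_, swap_lt hab hp.1 hne, hp.2⟩
    intro h
    rw [Prod.mk.injEq] at h
    have h1 : i = b := by
      have := congrArg (Equiv.swap a b) h.1
      simpa using this
    have h2 : j = a := by
      have := congrArg (Equiv.swap a b) h.2
      simpa using this
    rw [h1, h2, Fin.lt_def] at hp
    omega
  · rintro ⟨i, j⟩ hp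
    simp only [mem_filter, mem_univ, true_and, Function.comp, mem_erase, ne_eq,
      Prod.mk.injEq] at hp ⊢
    refine ⟨swap_lt hab hp.2.1 hp.1, ?_⟩
    simpa using hp.2.2
  · rintro ⟨i, j⟩ _
    simp
  · rintro ⟨i, j⟩ _
    simp

theorem NA_swap (m : Fin n → ℤ) (hm : NA m) {a b : Fin n} (hab : a.val + 1 = b.val)
    (h1 : m b = m a + 1) : NA (m ∘ Equiv.swap a b) := by
  intro i j hij
  by_cases hne : i = a ∧ j = b
  · obtain ⟨rfl, rfl⟩ := hne
    simp only [Function.comp, Equiv.swap_apply_left, Equiv.swap_apply_right]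
    omega
  · exact hm _ _ (swap_lt hab hij hne)

theorem tworho_swap (m : Fin n → ℤ) {a b : Fin n} (hab : a.val + 1 = b.val) (h1 : m b = m a + 1) :
    tworho (m ∘ Equiv.swap a b) = tworho m + 2 := by
  classical
  have hab' : a ≠ b := by
    intro h; rw [h] at hab; omega
  unfold tworho
  rw [← Equiv.sum_comp (Equiv.swap a b)]
  simp only [Function.comp, Equiv.swap_apply_self]
  rw [← sub_eq_iff_eq_add', ← Finset.sum_sub_distrib]
  rw [← Finset.sum_subset (Finset.subset_univ {a, b})]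
  · rw [Finset.sum_pair hab', Equiv.swap_apply_left, Equiv.swap_apply_right, h1, ← hab]
    push_cast
    ring
  · intro i _ hi
    simp only [mem_insert, mem_singleton, not_or] at hi
    rw [Equiv.swap_apply_of_ne_of_ne hi.1 hi.2]
    ring

theorem antitone_or (m : Fin n → ℤ) :
    Antitone m ∨ ∃ a b : Fin n, a.val + 1 = b.val ∧ m a < m b := by
  by_cases h : ∃ a b : Fin n, a.val + 1 = b.val ∧ m a < m b
  · exact Or.inr h
  · left
    push Not at h
    cases n with
    | zero => intro i; exact i.elim0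
    | succ n =>
      rw [Fin.antitone_iff_succ_le]
      intro i
      exact h _ _ (by simp)

/-- induction over near-antitone vectors -/
theorem bub (Q : (Fin n → ℤ) → Prop) (h0 : ∀ m, Antitone m → Q m)
    (h1 : ∀ m (a b : Fin n), NA m → a.val + 1 = b.val → m b = m a + 1 →
      Q (m ∘ Equiv.swap a b) → Q m) : ∀ m, NA m → Q m := by
  have key : ∀ k : ℕ, ∀ m, NA m → invn m = k → Q m := by
    intro k
    induction k with
    | zero =>
      intro m hm hk
      refine h0 m ?_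
      rcases antitone_or m with h | ⟨a, b, hab, h⟩
      · exact h
      · have := invn_swap m hab h
        omega
    | succ k ih =>
      intro m hm hk
      rcases antitone_or m with h | ⟨a, b, hab, h⟩
      · exact h0 m h
      · have h2 : m b = m a + 1 := by
          have := hm a b (by rw [Fin.lt_def]; omega)
          omega
        have h3 := invn_swap m hab h
        exact h1 m a b hm hab h2 (ih _ (NA_swap m hm hab h2) (by omega))
  intro m hm
  exact key _ m hm rfl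

theorem invn_antitone (m : Fin n → ℤ) (h : Antitone m) : invn m = 0 := by
  unfold invn
  rw [Finset.card_eq_zero, Finset.filter_eq_empty_iff]
  rintro ⟨i, j⟩ _ ⟨h1, h2⟩
  exact absurd h2 (not_lt.2 (h h1.le))

theorem tworho_srt (m : Fin n → ℤ) (hm : NA m) : tworho (srt m) = tworho m + 2 * invn m := by
  refine bub (fun m => tworho (srt m) = tworho m + 2 * invn m) ?_ ?_ m hm
  · intro m h
    rw [srt_of_antitone m h, invn_antitone m h]
    simp
  · intro m a b hm hab h1 ih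
    rw [srt_perm, tworho_swap m hab h1] at ih
    have := invn_swap m hab (by omega)
    rw [ih, ← this]
    push_cast
    ring

theorem NA_eps (L : Fin n → ℤ) (hL : Antitone L) (S : Finset (Fin n)) : NA (L + eps S) := by
  intro i j hij
  have := hL hij.le
  simp only [Pi.add_apply, eps]
  split_ifs <;> omega

theorem invn_eps (L : Fin n → ℤ) (hL : Antitone L) (S : Finset (Fin n)) :
    invn (L + eps S) = inv2 L S := by
  unfold invn inv2
  congr 1
  refine Finset.filter_congr ?_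
  rintro ⟨i, j⟩ _
  simp only [Pi.add_apply, eps]
  constructor
  · rintro ⟨h1, h2⟩
    have := hL h1.le
    refine ⟨h1, ?_⟩
    split_ifs at h2 with h3 h4 h4
    · omega
    · omega
    · exact ⟨h3, h4, by omega⟩
    · omega
  · rintro ⟨h1, h3, h4, h5⟩
    refine ⟨h1, ?_⟩
    rw [if_neg h3, if_pos h4, h5]
    omega

end MPtg.BubM
end

section
/-! # MP_3d2757_nt : modules STR and PIERI -/
open Finset

namespace MPtg.StrM

open BubM SrtM

variable {n : ℕ}

/-- the factor of a pair -/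
noncomputable def ph (u a b : ℂ) : ℂ := (a - u * b) / (a - b)

/-- product over pairs -/
noncomputable def DD (u : ℂ) (y : Fin n → ℂ) : ℂ :=
  ∏ p ∈ (univ : Finset (Fin n × Fin n)).filter (fun p => p.1 < p.2), ph u (y p.1) (y p.2)

theorem DD_eq (u : ℂ) (y : Fin n → ℂ) :
    ∏ i, ∏ j ∈ Ioi i, (y i - u * y j) / (y i - y j) = DD u y := by
  classical
  unfold DD
  rw [Finset.prod_filter, Fintype.prod_prod_type]
  refine Finset.prod_congr rfl fun i _ => ?_
  rw [← Finset.prod_filter]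
  dsimp only
  have : (univ.filter (fun x : Fin n => i < x)) = Finset.Ioi i := by
    ext; simp
  rw [this]
  rfl

theorem HLR_eq (u : ℂ) (L : Fin n → ℤ) (x : Fin n → ℂ) :
    HLR u L x = ∑ w : Equiv.Perm (Fin n), mon L (fun i => x (w i)) * DD u (fun i => x (w i)) := by
  unfold HLR
  refine Finset.sum_congr rfl fun w _ => ?_
  rw [← DD_eq]

/-- the product over all pairs different from `(a,b)` -/
noncomputable def DE (u : ℂ) (a b : Fin n) (y : Fin n → ℂ) : ℂ :=
  ∏ p ∈ ((univ : Finset (Fin n × Fin n)).filter (fun p => p.1 < p.2)).erase (a, b),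
    ph u (y p.1) (y p.2)

theorem DD_split (u : ℂ) {a b : Fin n} (hab : a < b) (y : Fin n → ℂ) :
    DD u y = ph u (y a) (y b) * DE u a b y := by
  unfold DD DE
  exact (Finset.mul_prod_erase _ (fun p : Fin n × Fin n => ph u (y p.1) (y p.2))
    (by simp [hab] : (a, b) ∈ _)).symm

theorem DE_swap (u : ℂ) {a b : Fin n} (hab : a.val + 1 = b.val) (y : Fin n → ℂ) :
    DE u a b (y ∘ Equiv.swap a b) = DE u a b y := by
  classical
  have hlt : a < b := by rw [Fin.lt_def]; omega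
  unfold DE
  refine Finset.prod_bij' (fun p _ => (Equiv.swap a b p.1, Equiv.swap a b p.2))
    (fun p _ => (Equiv.swap a b p.1, Equiv.swap a b p.2)) ?_ ?_ ?_ ?_ ?_
  · rintro ⟨i, j⟩ hp
    simp only [mem_filter, mem_univ, true_and, mem_erase, ne_eq, Prod.mk.injEq] at hp ⊢
    refine ⟨?_, swap_lt hab hp.2 hp.1⟩
    rintro ⟨h1, h2⟩
    have h3 : i = b := by
      have := congrArg (Equiv.swap a b) h1
      simpa using this
    have h4 : j = a := by
      have := congrArg (Equiv.swap a b) h2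
      simpa using this
    rw [h3, h4] at hp
    exact absurd hp.2 (not_lt.2 hlt.le)
  · rintro ⟨i, j⟩ hp
    simp only [mem_filter, mem_univ, true_and, mem_erase, ne_eq, Prod.mk.injEq] at hp ⊢
    refine ⟨?_, swap_lt hab hp.2 hp.1⟩
    rintro ⟨h1, h2⟩
    have h3 : i = b := by
      have := congrArg (Equiv.swap a b) h1
      simpa using this
    have h4 : j = a := by
      have := congrArg (Equiv.swap a b) h2
      simpa using this
    rw [h3, h4] at hp
    exact absurd hp.2 (not_lt.2 hlt.le)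
  · rintro ⟨i, j⟩ _
    simp
  · rintro ⟨i, j⟩ _
    simp
  · rintro ⟨i, j⟩ _
    rfl

theorem mon_split (m : Fin n → ℤ) {a b : Fin n} (hab : a ≠ b) (y : Fin n → ℂ) :
    mon m y = y a ^ m a * y b ^ m b * ∏ i ∈ (univ.erase a).erase b, y i ^ m i := by
  unfold mon
  rw [← Finset.mul_prod_erase univ _ (mem_univ a),
    ← Finset.mul_prod_erase (univ.erase a) _ (by simp [hab.symm] : b ∈ univ.erase a)]
  ring

/-- the swap rule -/
theorem hlr_swap (u : ℂ) (x : Fin n → ℂ) (hx : ∀ i, x i ≠ 0) (hinj : Function.Injective x)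
    (m : Fin n → ℤ) {a b : Fin n} (hab : a.val + 1 = b.val) (hm : m b = m a + 1) :
    HLR u m x = u * HLR u (m ∘ Equiv.swap a b) x := by
  classical
  have hne : a ≠ b := by
    intro h; rw [h] at hab; omega
  have hlt : a < b := by rw [Fin.lt_def]; omega
  set s := Equiv.swap a b with hs
  -- reindex by w ↦ w * s
  have hre : ∀ m' : Fin n → ℤ, HLR u m' x =
      ∑ w : Equiv.Perm (Fin n), mon m' (fun i => x ((w * s) i)) * DD u (fun i => x ((w * s) i)) := by
    intro m'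
    rw [HLR_eq]
    exact (Equiv.sum_comp (Equiv.mulRight s)
      (fun w => mon m' (fun i => x (w i)) * DD u (fun i => x (w i)))).symm
  have key : ∀ w : Equiv.Perm (Fin n),
      mon m (fun i => x (w i)) * DD u (fun i => x (w i)) +
        mon m (fun i => x ((w * s) i)) * DD u (fun i => x ((w * s) i)) =
      u * (mon (m ∘ s) (fun i => x (w i)) * DD u (fun i => x (w i)) +
        mon (m ∘ s) (fun i => x ((w * s) i)) * DD u (fun i => x ((w * s) i))) := by
    intro w
    set y : Fin n → ℂ := fun i => x (w i) with hy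
    have hys : (fun i => x ((w * s) i)) = y ∘ s := rfl
    rw [hys]
    have hya : y a ≠ 0 := hx _
    have hyb : y b ≠ 0 := hx _
    have hyab : y a - y b ≠ 0 := by
      rw [sub_ne_zero]
      intro h
      exact hne (w.injective (hinj h))
    have hyba : y b - y a ≠ 0 := by
      rw [← neg_sub]
      exact neg_ne_zero.2 hyab
    rw [DD_split u hlt y, DD_split u hlt (y ∘ s), DE_swap u hab y]
    rw [mon_split m hne y, mon_split m hne (y ∘ s), mon_split (m ∘ s) hne y,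
      mon_split (m ∘ s) hne (y ∘ s)]
    have hsa : s a = b := Equiv.swap_apply_left a b
    have hsb : s b = a := Equiv.swap_apply_right a b
    have hM1 : ∏ i ∈ (univ.erase a).erase b, (y ∘ s) i ^ m i =
        ∏ i ∈ (univ.erase a).erase b, y i ^ m i := by
      refine Finset.prod_congr rfl fun i hi => ?_
      simp only [mem_erase, ne_eq, mem_univ, and_true] at hi
      simp only [Function.comp, hs, Equiv.swap_apply_of_ne_of_ne hi.2 hi.1]
    have hM2 : ∏ i ∈ (univ.erase a).erase b, y i ^ (m ∘ s) i =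
        ∏ i ∈ (univ.erase a).erase b, y i ^ m i := by
      refine Finset.prod_congr rfl fun i hi => ?_
      simp only [mem_erase, ne_eq, mem_univ, and_true] at hi
      simp only [Function.comp, hs, Equiv.swap_apply_of_ne_of_ne hi.2 hi.1]
    have hM3 : ∏ i ∈ (univ.erase a).erase b, (y ∘ s) i ^ (m ∘ s) i =
        ∏ i ∈ (univ.erase a).erase b, y i ^ m i := by
      refine Finset.prod_congr rfl fun i hi => ?_
      simp only [mem_erase, ne_eq, mem_univ, and_true] at hi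
      simp only [Function.comp, hs, Equiv.swap_apply_of_ne_of_ne hi.2 hi.1]
    rw [hM1, hM2, hM3]
    simp only [Function.comp, hsa, hsb, hm]
    unfold ph
    rw [zpow_add₀ hya, zpow_add₀ hyb, zpow_one, zpow_one]
    field_simp
    ring
  have h2 : HLR u m x + HLR u m x = u * (HLR u (m ∘ s) x + HLR u (m ∘ s) x) := by
    conv_lhs => rw [HLR_eq]
    conv_lhs => rw [← HLR_eq]
    calc HLR u m x + HLR u m x =
        (∑ w : Equiv.Perm (Fin n), mon m (fun i => x (w i)) * DD u (fun i => x (w i))) +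
        ∑ w : Equiv.Perm (Fin n), mon m (fun i => x ((w * s) i)) *
          DD u (fun i => x ((w * s) i)) := by rw [← hre m, ← HLR_eq]
      _ = u * ((∑ w : Equiv.Perm (Fin n), mon (m ∘ s) (fun i => x (w i)) *
          DD u (fun i => x (w i))) +
          ∑ w : Equiv.Perm (Fin n), mon (m ∘ s) (fun i => x ((w * s) i)) *
          DD u (fun i => x ((w * s) i))) := by
          rw [← Finset.sum_add_distrib, ← Finset.sum_add_distrib, Finset.mul_sum]
          exact Finset.sum_congr rfl fun w _ => key w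
      _ = _ := by rw [← hre (m ∘ s), ← HLR_eq]
  have h3 : (2 : ℂ) ≠ 0 := two_ne_zero
  have h4 : 2 * HLR u m x = 2 * (u * HLR u (m ∘ s) x) := by linear_combination h2
  exact mul_left_cancel₀ h3 h4

theorem straight (u : ℂ) (x : Fin n → ℂ) (hx : ∀ i, x i ≠ 0) (hinj : Function.Injective x)
    (m : Fin n → ℤ) (hm : NA m) : HLR u m x = u ^ (invn m) * HLR u (srt m) x := by
  refine bub (fun m => HLR u m x = u ^ (invn m) * HLR u (srt m) x) ?_ ?_ m hm
  · intro m h
    rw [srt_of_antitone m h, invn_antitone m h]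
    simp
  · intro m a b hm hab h1 ih
    rw [srt_perm] at ih
    have h2 := invn_swap m hab (by omega)
    rw [hlr_swap u x hx hinj m hab h1, ih, ← h2, pow_succ]
    ring

theorem prod_eps (x : Fin n → ℂ) (S : Finset (Fin n)) : mon (eps S) x = ∏ i ∈ S, x i := by
  classical
  unfold mon eps
  rw [← Finset.prod_subset (Finset.subset_univ S)]
  · exact Finset.prod_congr rfl fun i hi => by rw [if_pos hi, zpow_one]
  · intro i _ hi
    rw [if_neg hi, zpow_zero]

theorem mon_add (x : Fin n → ℂ) (hx : ∀ i, x i ≠ 0) (a b : Fin n → ℤ) :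
    mon (a + b) x = mon a x * mon b x := by
  unfold mon
  rw [← Finset.prod_mul_distrib]
  exact Finset.prod_congr rfl fun i _ => by rw [Pi.add_apply, zpow_add₀ (hx i)]

theorem esy_perm (x : Fin n → ℂ) (r : ℕ) (w : Equiv.Perm (Fin n)) :
    esy (fun i => x (w i)) r = esy x r := by
  classical
  unfold esy
  refine Finset.sum_bij' (fun S _ => S.map w.toEmbedding) (fun S _ => S.map w.symm.toEmbedding)
    ?_ ?_ ?_ ?_ ?_
  · intro S hS
    rw [mem_powersetCard] at hS ⊢
    exact ⟨subset_univ _, by rw [card_map]; exact hS.2⟩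
  · intro S hS
    rw [mem_powersetCard] at hS ⊢
    exact ⟨subset_univ _, by rw [card_map]; exact hS.2⟩
  · intro S _
    ext i
    simp
  · intro S _
    ext i
    simp
  · intro S _
    rw [Finset.prod_map]
    rfl

theorem pieri0 (u : ℂ) (x : Fin n → ℂ) (hx : ∀ i, x i ≠ 0) (L : Fin n → ℤ) (r : ℕ) :
    esy x r * HLR u L x = ∑ S ∈ powersetCard r (univ : Finset (Fin n)), HLR u (L + eps S) x := by
  simp only [HLR_eq]
  rw [Finset.sum_comm, Finset.mul_sum]
  refine Finset.sum_congr rfl fun w _ => ?_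
  rw [← Finset.sum_mul, ← mul_assoc]
  congr 1
  rw [← esy_perm x r w, esy, Finset.sum_mul]
  refine Finset.sum_congr rfl fun S _ => ?_
  rw [mon_add _ (fun i => hx _), prod_eps]
  ring

end MPtg.StrM

namespace MPtg

open StrM BubM

theorem specStr : SpecStr := by
  intro n u x hx hinj L hL S
  rw [straight u x hx hinj _ (NA_eps L hL S), invn_eps L hL S]

theorem specPieri : SpecPieri := by
  intro n u x hx hinj L hL r _
  rw [pieri0 u x hx]
  exact Finset.sum_congr rfl fun S _ => specStr n u x hx hinj L hL S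

end MPtg
end

section
/-! # MP_3d2757_nt : module BLK -/
open Finset

namespace MPtg.BlkM

open StrM

theorem DD_ite {n : ℕ} (u : ℂ) (y : Fin n → ℂ) :
    DD u y = ∏ i, ∏ j, if i < j then ph u (y i) (y j) else 1 := by
  unfold DD
  rw [Finset.prod_filter, Fintype.prod_prod_type]

theorem DD_append {a b : ℕ} (u : ℂ) (z : Fin (a + b) → ℂ) :
    DD u z = DD u (fun i : Fin a => z (Fin.castAdd b i)) *
      (∏ i : Fin a, ∏ j : Fin b, ph u (z (Fin.castAdd b i)) (z (Fin.natAdd a j))) *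
      DD u (fun j : Fin b => z (Fin.natAdd a j)) := by
  simp only [DD_ite]
  rw [Fin.prod_univ_add]
  have h1 : ∀ i : Fin a, ∏ j : Fin (a + b), (if Fin.castAdd b i < j then
      ph u (z (Fin.castAdd b i)) (z j) else 1) =
      (∏ j : Fin a, if i < j then ph u (z (Fin.castAdd b i)) (z (Fin.castAdd b j)) else 1) *
      ∏ j : Fin b, ph u (z (Fin.castAdd b i)) (z (Fin.natAdd a j)) := by
    intro i
    rw [Fin.prod_univ_add]
    congr 1
    refine Finset.prod_congr rfl fun j _ => ?_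
    rw [if_pos]
    rw [Fin.lt_def, Fin.val_castAdd, Fin.val_natAdd]
    omega
  have h2 : ∀ i : Fin b, ∏ j : Fin (a + b), (if Fin.natAdd a i < j then
      ph u (z (Fin.natAdd a i)) (z j) else 1) =
      (∏ j : Fin b, if i < j then ph u (z (Fin.natAdd a i)) (z (Fin.natAdd a j)) else 1) := by
    intro i
    rw [Fin.prod_univ_add]
    have : ∏ j : Fin a, (if Fin.natAdd a i < Fin.castAdd b j then
        ph u (z (Fin.natAdd a i)) (z (Fin.castAdd b j)) else 1) = 1 := by
      refine Finset.prod_eq_one fun j _ => ?_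
      rw [if_neg]
      rw [Fin.lt_def, Fin.val_castAdd, Fin.val_natAdd]
      omega
    rw [this, one_mul]
    refine Finset.prod_congr rfl fun j _ => ?_
    simp
  simp only [h1, h2]
  rw [Finset.prod_mul_distrib]

/-- the permutation attached to a subset and two permutations -/
def wA {a b : ℕ} (p : Σ _ : {A : Finset (Fin (a + b)) // A.card = a},
    Equiv.Perm (Fin a) × Equiv.Perm (Fin b)) : Equiv.Perm (Fin (a + b)) :=
  finSumFinEquiv.symm.trans ((Equiv.sumCongr p.2.1 p.2.2).trans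
    (finSumEquivOfFinset (s := p.1.1) p.1.2
      (by rw [card_compl, Fintype.card_fin, p.1.2]; omega)))

theorem compl_card {a b : ℕ} (A : Finset (Fin (a + b))) (h : A.card = a) : Aᶜ.card = b := by
  rw [card_compl, Fintype.card_fin, h]; omega

theorem wA_left {a b : ℕ} (A : Finset (Fin (a + b))) (h : A.card = a) (v : Equiv.Perm (Fin a))
    (v' : Equiv.Perm (Fin b)) (i : Fin a) :
    wA ⟨⟨A, h⟩, (v, v')⟩ (Fin.castAdd b i) = A.orderEmbOfFin h (v i) := by
  simp [wA]

theorem wA_right {a b : ℕ} (A : Finset (Fin (a + b))) (h : A.card = a) (v : Equiv.Perm (Fin a))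
    (v' : Equiv.Perm (Fin b)) (j : Fin b) :
    wA ⟨⟨A, h⟩, (v, v')⟩ (Fin.natAdd a j) = Aᶜ.orderEmbOfFin (compl_card A h) (v' j) := by
  simp [wA]

theorem wA_bij (a b : ℕ) : Function.Bijective (wA (a := a) (b := b)) := by
  classical
  rw [Fintype.bijective_iff_injective_and_card]
  constructor
  · rintro ⟨⟨A, hA⟩, ⟨v, v'⟩⟩ ⟨⟨B, hB⟩, ⟨t, t'⟩⟩ h
    have h1 : A = B := by
      have e : ∀ (C : Finset (Fin (a + b))) (hC : C.card = a) (s : Equiv.Perm (Fin a))
          (s' : Equiv.Perm (Fin b)),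
          (univ : Finset (Fin a)).image (fun i => wA ⟨⟨C, hC⟩, (s, s')⟩ (Fin.castAdd b i)) = C := by
        intro C hC s s'
        ext x
        simp only [mem_image, mem_univ, true_and, wA_left]
        constructor
        · rintro ⟨i, rfl⟩
          exact Finset.orderEmbOfFin_mem C hC _
        · intro hx
          have : x ∈ Set.range (C.orderEmbOfFin hC) := by
            rw [Finset.range_orderEmbOfFin]
            exact hx
          obtain ⟨k, hk⟩ := this
          exact ⟨s.symm k, by simpa using hk⟩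
      rw [← e A hA v v', ← e B hB t t', h]
    subst h1
    have h2 : v = t := by
      ext i
      have := congrArg (fun w => w (Fin.castAdd b i)) h
      simp only [wA_left] at this
      rw [(A.orderEmbOfFin hA).injective this]
    have h3 : v' = t' := by
      ext i
      have := congrArg (fun w => w (Fin.natAdd a i)) h
      simp only [wA_right] at this
      rw [(Aᶜ.orderEmbOfFin (compl_card A hA)).injective this]
    rw [h2, h3]
  · rw [Fintype.card_sigma]
    simp only [Fintype.card_prod, Fintype.card_perm, Fintype.card_fin, sum_const, card_univ,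
      smul_eq_mul]
    have : Fintype.card {A : Finset (Fin (a + b)) // A.card = a} = (a + b).choose a := by
      rw [Fintype.card_finset_len, Fintype.card_fin]
    rw [this, ← mul_assoc, Nat.choose_symm_add]
    exact Nat.add_choose_mul_factorial_mul_factorial a b

theorem prod_emb {N k : ℕ} (A : Finset (Fin N)) (h : A.card = k) (v : Equiv.Perm (Fin k))
    (g : Fin N → ℂ) : ∏ i : Fin k, g (A.orderEmbOfFin h (v i)) = ∏ i ∈ A, g i := by
  classical
  rw [Equiv.prod_comp v (fun i => g (A.orderEmbOfFin h i))]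
  have h1 := Finset.prod_image (f := g) (s := (univ : Finset (Fin k))) (g := A.orderEmbOfFin h)
    (fun a _ b _ hh => (A.orderEmbOfFin h).injective hh)
  rw [← h1]
  congr 1
  ext x
  simp only [mem_image, mem_univ, true_and]
  constructor
  · rintro ⟨i, rfl⟩
    exact Finset.orderEmbOfFin_mem A h _
  · intro hx
    have : x ∈ Set.range (A.orderEmbOfFin h) := by
      rw [Finset.range_orderEmbOfFin]
      exact hx
    exact this

theorem blk (a b : ℕ) (u : ℂ) (y : Fin (a + b) → ℂ) (L : Fin a → ℤ) (L' : Fin b → ℤ) :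
    HLR u (Fin.append L L') y =
      ∑ A ∈ powersetCard a (univ : Finset (Fin (a + b))),
        (∏ i ∈ A, ∏ k ∈ Aᶜ, (y i - u * y k) / (y i - y k)) *
          HLR u L (subv A y) * HLR u L' (subv Aᶜ y) := by
  classical
  rw [HLR_eq, ← Equiv.sum_comp (Equiv.ofBijective _ (wA_bij a b)), Fintype.sum_sigma]
  have h0 : ∀ g : Finset (Fin (a + b)) → ℂ, ∑ A ∈ powersetCard a univ, g A =
      ∑ A : {A : Finset (Fin (a + b)) // A.card = a}, g A.1 := by
    intro g
    rw [← Finset.sum_subtype (powersetCard a univ) (fun A => by simp)]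
  rw [h0]
  refine Finset.sum_congr rfl fun A _ => ?_
  obtain ⟨A, hA⟩ := A
  rw [Fintype.sum_prod_type, HLR_eq, HLR_eq]
  simp only []
  rw [mul_assoc, Finset.sum_mul_sum, Finset.mul_sum]
  refine Finset.sum_congr rfl fun v _ => ?_
  rw [Finset.mul_sum]
  refine Finset.sum_congr rfl fun v' _ => ?_
  simp only [Equiv.ofBijective_apply]
  rw [DD_append]
  have e1 : mon (Fin.append L L') (fun i => y (wA ⟨⟨A, hA⟩, (v, v')⟩ i)) =
      mon L (fun i => y (A.orderEmbOfFin hA (v i))) *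
      mon L' (fun j => y (Aᶜ.orderEmbOfFin (compl_card A hA) (v' j))) := by
    unfold mon
    rw [Fin.prod_univ_add]
    simp only [Fin.append_left, Fin.append_right, wA_left, wA_right]
  rw [e1]
  simp only [wA_left, wA_right]
  have e2 : ∀ i, subv A y i = y (A.orderEmbOfFin hA i) := by
    intro i
    unfold subv
    rw [dif_pos hA]
  have e3 : ∀ i, subv Aᶜ y i = y (Aᶜ.orderEmbOfFin (compl_card A hA) i) := by
    intro i
    unfold subv
    rw [dif_pos (compl_card A hA)]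
  simp only [e2, e3]
  have e4 : ∏ i : Fin a, ∏ j : Fin b, ph u (y (A.orderEmbOfFin hA (v i)))
      (y (Aᶜ.orderEmbOfFin (compl_card A hA) (v' j))) =
      ∏ i ∈ A, ∏ k ∈ Aᶜ, (y i - u * y k) / (y i - y k) := by
    rw [prod_emb A hA v (fun i => ∏ j : Fin b, ph u (y i)
      (y (Aᶜ.orderEmbOfFin (compl_card A hA) (v' j))))]
    refine Finset.prod_congr rfl fun i _ => ?_
    rw [prod_emb Aᶜ (compl_card A hA) v' (fun k => ph u (y i) (y k))]
    rfl
  rw [e4]
  ring

end MPtg.BlkM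

namespace MPtg

theorem specBlk : SpecBlk := by
  intro a b u y _ L L'
  exact BlkM.blk a b u y L L'

end MPtg
end

section
/-! # MP_3d2757_nt, module BOUND : exponential bound near a torus -/
open Finset MeasureTheory Filter Topology

namespace MPtg

namespace BoundM

/-- annulus -/
def ann (a b : ℝ) : Set ℂ := {z | a < ‖z‖ ∧ ‖z‖ < b}

theorem isOpen_ann (a b : ℝ) : IsOpen (ann a b) :=
  (isOpen_lt continuous_const continuous_norm).inter (isOpen_lt continuous_norm continuous_const)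

theorem closure_ann {a b : ℝ} {z : ℂ} (hz : z ∈ closure (ann a b)) : a ≤ ‖z‖ ∧ ‖z‖ ≤ b := by
  have hc : IsClosed {z : ℂ | a ≤ ‖z‖ ∧ ‖z‖ ≤ b} :=
    (isClosed_le continuous_const continuous_norm).inter
      (isClosed_le continuous_norm continuous_const)
  have hs : ann a b ⊆ {z : ℂ | a ≤ ‖z‖ ∧ ‖z‖ ≤ b} := fun w hw => ⟨hw.1.le, hw.2.le⟩
  exact closure_minimal hs hc hz

theorem frontier_ann {a b : ℝ} {z : ℂ} (hz : z ∈ frontier (ann a b)) : ‖z‖ = a ∨ ‖z‖ = b := by
  have h1 := closure_ann (frontier_subset_closure hz)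
  rw [(isOpen_ann a b).frontier_eq] at hz
  by_contra h
  push Not at h
  exact hz.2 ⟨lt_of_le_of_ne h1.1 (Ne.symm h.1), lt_of_le_of_ne h1.2 h.2⟩

/-- the radii -/
theorem radii (n : ℕ) (r : Fin n → ℝ) (Q : ℝ) (hr : ∀ i, 0 < r i) (hQ : ∀ i j, r i < Q * r j) :
    ∃ ε : ℝ, 0 < ε ∧ (∀ i : Fin n, 0 < r i - ε * ((i : ℕ) + 1)) ∧
      (∀ i j : Fin n, r i + ε * ((i : ℕ) + 1) ≤ Q * (r j - ε * ((j : ℕ) + 1))) ∧
      ∀ i j : Fin n, i ≠ j →
        r i + ε * ((i : ℕ) + 1) ≠ r j + ε * ((j : ℕ) + 1) ∧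
        r i + ε * ((i : ℕ) + 1) ≠ r j - ε * ((j : ℕ) + 1) ∧
        r i - ε * ((i : ℕ) + 1) ≠ r j + ε * ((j : ℕ) + 1) ∧
        r i - ε * ((i : ℕ) + 1) ≠ r j - ε * ((j : ℕ) + 1) := by
  have hp : ∀ᶠ ε : ℝ in 𝓝[>] 0, 0 < ε := eventually_mem_nhdsWithin
  have lin : ∀ a b : ℝ, Tendsto (fun ε : ℝ => a + ε * b) (𝓝[>] 0) (𝓝 a) := by
    intro a b
    have h : Continuous fun ε : ℝ => a + ε * b := by fun_prop
    have h2 := (h.tendsto 0).mono_left (nhdsWithin_le_nhds (s := Set.Ioi 0))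
    simpa using h2
  have e1 : ∀ᶠ ε : ℝ in 𝓝[>] 0, ∀ i : Fin n, 0 < r i - ε * ((i : ℕ) + 1) := by
    rw [eventually_all]
    intro i
    have h := (lin (r i) (-((i : ℕ) + 1))).eventually_const_lt (hr i)
    filter_upwards [h] with ε h
    linarith
  have e2 : ∀ᶠ ε : ℝ in 𝓝[>] 0, ∀ i j : Fin n,
      r i + ε * ((i : ℕ) + 1) ≤ Q * (r j - ε * ((j : ℕ) + 1)) := by
    rw [eventually_all]
    intro i
    rw [eventually_all]
    intro j
    have h := (lin (Q * r j - r i) (-(Q * ((j : ℕ) + 1)) - ((i : ℕ) + 1))).eventually_const_lt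
      (sub_pos.2 (hQ i j))
    filter_upwards [h] with ε h
    linarith
  have e3 : ∀ a b c d : ℝ, (a = b → c ≠ d) → ∀ᶠ ε : ℝ in 𝓝[>] 0, a + ε * c ≠ b + ε * d := by
    intro a b c d h
    by_cases hab : a = b
    · filter_upwards [hp] with ε hε h2
      have h3 : ε * c = ε * d := by linarith
      exact h hab (mul_left_cancel₀ hε.ne' h3)
    · have h1 := (lin (a - b) (c - d)).eventually_ne (sub_ne_zero.2 hab)
      filter_upwards [h1] with ε h1 h2
      apply h1
      linarith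
  have e4 : ∀ᶠ ε : ℝ in 𝓝[>] 0, ∀ i j : Fin n, i ≠ j →
        r i + ε * ((i : ℕ) + 1) ≠ r j + ε * ((j : ℕ) + 1) ∧
        r i + ε * ((i : ℕ) + 1) ≠ r j - ε * ((j : ℕ) + 1) ∧
        r i - ε * ((i : ℕ) + 1) ≠ r j + ε * ((j : ℕ) + 1) ∧
        r i - ε * ((i : ℕ) + 1) ≠ r j - ε * ((j : ℕ) + 1) := by
    rw [eventually_all]
    intro i
    rw [eventually_all]
    intro j
    by_cases hij : i = j
    · exact Eventually.of_forall fun ε h => absurd hij h
    have hne : ((i : ℕ) : ℝ) ≠ ((j : ℕ) : ℝ) := by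
      intro h
      exact hij (Fin.ext (by exact_mod_cast h))
    have n1 : (0 : ℝ) ≤ ((i : ℕ) : ℝ) := Nat.cast_nonneg _
    have n2 : (0 : ℝ) ≤ ((j : ℕ) : ℝ) := Nat.cast_nonneg _
    have f1 := e3 (r i) (r j) ((i : ℕ) + 1) ((j : ℕ) + 1) fun _ h => hne (by linarith)
    have f2 := e3 (r i) (r j) ((i : ℕ) + 1) (-((j : ℕ) + 1)) fun _ h => by linarith
    have f3 := e3 (r i) (r j) (-((i : ℕ) + 1)) ((j : ℕ) + 1) fun _ h => by linarith
    have f4 := e3 (r i) (r j) (-((i : ℕ) + 1)) (-((j : ℕ) + 1)) fun _ h => hne (by linarith)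
    filter_upwards [f1, f2, f3, f4] with ε f1 f2 f3 f4 _
    refine ⟨f1, fun h => f2 (by linarith), fun h => f3 (by linarith), fun h => f4 (by linarith)⟩
  obtain ⟨ε, h0, h1, h2, h4⟩ := (hp.and (e1.and (e2.and e4))).exists
  exact ⟨ε, h0, h1, h2, h4⟩

theorem norm_mon {n : ℕ} {L : Fin n → ℤ} (hL : Sym L) {Q : ℝ} (y : Fin n → ℂ)
    (hy : ∀ i, y i ≠ 0) (hQ : ∀ i j, ‖y i‖ ≤ Q * ‖y j‖) : ‖mon L y‖ ≤ Q ^ len L := by
  have hpos : ∀ i, 0 < ‖y i‖ := fun i => norm_pos_iff.2 (hy i)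
  have h1 : ∀ i, ‖y i‖ ^ (L i) = ‖y i‖ ^ ((L i).toNat : ℤ) * (‖y i‖⁻¹) ^ ((-L i).toNat : ℤ) := by
    intro i
    rw [inv_zpow, ← zpow_neg, ← zpow_add₀ (hpos i).ne']
    congr 1
    omega
  have h2 : ‖mon L y‖ = ∏ i, (‖y i‖ / ‖y (Fin.rev i)‖) ^ (L i).toNat := by
    rw [mon, norm_prod]
    simp_rw [norm_zpow]
    rw [Finset.prod_congr rfl fun i _ => h1 i, Finset.prod_mul_distrib]
    have h3 : ∏ i : Fin n, (‖y i‖⁻¹) ^ ((-L i).toNat : ℤ) =
        ∏ i : Fin n, (‖y (Fin.rev i)‖⁻¹) ^ ((L i).toNat : ℤ) := by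
      rw [← Equiv.prod_comp Fin.revPerm]
      refine Finset.prod_congr rfl fun i _ => ?_
      rw [Fin.revPerm_apply, hL.2, neg_neg]
    rw [h3, ← Finset.prod_mul_distrib]
    refine Finset.prod_congr rfl fun i _ => ?_
    rw [zpow_natCast, zpow_natCast, ← mul_pow, div_eq_mul_inv]
  rw [h2, len, ← Finset.prod_pow_eq_pow_sum]
  refine Finset.prod_le_prod (fun i _ => by positivity) fun i _ => ?_
  refine pow_le_pow_left₀ (by positivity) ?_ _
  rw [div_le_iff₀ (hpos _)]
  exact hQ i _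

end BoundM

open BoundM

theorem specBound (hMax : SpecMax) (hPoly : SpecPoly) : SpecBound := by
  intro n u hu0 hu1 r Q hr hQ
  obtain ⟨ε, hε, h1, h2, h3⟩ := radii n r Q hr hQ
  set ρm : Fin n → ℝ := fun i => r i - ε * ((i : ℕ) + 1) with hρm
  set ρp : Fin n → ℝ := fun i => r i + ε * ((i : ℕ) + 1) with hρp
  have hlt : ∀ i, ρm i < ρp i := fun i => by
    have : 0 < ε * (((i : ℕ) : ℝ) + 1) := by positivity
    simp only [hρm, hρp]
    linarith
  set D : Set (Fin n → ℂ) :=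
    Set.pi Set.univ fun i => Metric.sphere (0 : ℂ) (ρm i) ∪ Metric.sphere (0 : ℂ) (ρp i) with hD
  have hDc : IsCompact D := isCompact_univ_pi fun i => (isCompact_sphere _ _).union
    (isCompact_sphere _ _)
  have hDm : ∀ y : Fin n → ℂ, y ∈ D ↔ ∀ i, ‖y i‖ = ρm i ∨ ‖y i‖ = ρp i := by
    intro y
    simp [hD, Set.mem_pi]
  have hDpos : ∀ y ∈ D, ∀ i, 0 < ‖y i‖ := by
    intro y hy i
    rcases (hDm y).1 hy i with h | h
    · rw [h]; exact h1 i
    · rw [h]; exact (h1 i).trans (hlt i)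
  have hDinj : ∀ y ∈ D, Function.Injective y := by
    intro y hy i j hij
    by_contra hne
    obtain ⟨g1, g2, g3, g4⟩ := h3 i j hne
    have hn : ‖y i‖ = ‖y j‖ := by rw [hij]
    rcases (hDm y).1 hy i with h | h <;> rcases (hDm y).1 hy j with h' | h' <;>
      rw [h, h'] at hn
    · exact g4 hn
    · exact g3 hn
    · exact g2 hn
    · exact g1 hn
  have hDQ : ∀ y ∈ D, ∀ i j, ‖y i‖ ≤ Q * ‖y j‖ := by
    intro y hy i j
    have a1 : ‖y i‖ ≤ ρp i := by
      rcases (hDm y).1 hy i with h | h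
      · rw [h]; exact (hlt i).le
      · rw [h]
    have a2 : ρm j ≤ ‖y j‖ := by
      rcases (hDm y).1 hy j with h | h
      · rw [h]
      · rw [h]; exact (hlt j).le
    have hQ0 : 0 ≤ Q := by
      have := hQ i i
      have := hr i
      by_contra hc
      push Not at hc
      nlinarith
    exact a1.trans ((h2 i j).trans (mul_le_mul_of_nonneg_left a2 hQ0))
  -- the coefficient function
  set g : (Fin n → ℂ) → ℝ := fun y => ∑ w : Equiv.Perm (Fin n),
    ∏ i, ∏ j ∈ Ioi i, ‖(y (w i) - u * y (w j)) / (y (w i) - y (w j))‖ with hg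
  have hgc : ContinuousOn g D := by
    refine continuousOn_finsetSum _ fun w _ => ?_
    refine continuousOn_finsetProd _ fun i _ => ?_
    refine continuousOn_finsetProd _ fun j hj => ?_
    refine ContinuousOn.norm (ContinuousOn.div (by fun_prop) (by fun_prop) ?_)
    intro y hy h
    have h4 := hDinj y hy (sub_eq_zero.1 h)
    have h5 : i < j := Finset.mem_Ioi.1 hj
    exact h5.ne (w.injective h4)
  obtain ⟨C, hC⟩ := hDc.exists_bound_of_continuousOn hgc
  refine ⟨C, ε, hε, ?_⟩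
  intro x hx L hL
  obtain ⟨hP1, s, c, -, hP2⟩ := hPoly n u hu0 hu1 L hL.1
  have hcl : ∀ i, x i ∈ closure (ann (ρm i) (ρp i)) := by
    intro i
    refine subset_closure ?_
    have h4 := abs_lt.1 (hx i)
    have h5 : ε ≤ ε * (((i : ℕ) : ℝ) + 1) := by
      have : (0 : ℝ) ≤ ((i : ℕ) : ℝ) := Nat.cast_nonneg _
      nlinarith
    constructor
    · simp only [hρm]; linarith
    · simp only [hρp]; linarith
  refine hMax n (fun i => ann (ρm i) (ρp i)) (RP (u : ℂ) L) (C * Q ^ len L) ?_ ?_ ?_ x hcl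
  · intro i
    have hs : ann (ρm i) (ρp i) ⊆ Metric.ball (0 : ℂ) (ρp i) := fun z hz => by
      simpa using hz.2
    exact Metric.isBounded_ball.subset hs
  · intro i y hy
    refine DifferentiableOn.diffContOnCl ?_
    have hy0 : ∀ j, y j ≠ 0 := fun j => norm_pos_iff.1 ((h1 j).trans_le (closure_ann (hy j)).1)
    have hne : ∀ z ∈ closure (ann (ρm i) (ρp i)), ∀ j, Function.update y i z j ≠ 0 := by
      intro z hz j
      by_cases hj : j = i
      · subst hj
        rw [Function.update_self]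
        exact norm_pos_iff.1 ((h1 j).trans_le (closure_ann hz).1)
      · rw [Function.update_of_ne hj]
        exact hy0 j
    have hd : DifferentiableOn ℂ
        (fun z => ∑ a ∈ s, c a * mon a (Function.update y i z)) (closure (ann (ρm i) (ρp i))) := by
      refine DifferentiableOn.fun_sum fun a _ => DifferentiableOn.const_mul ?_ _
      unfold mon
      refine DifferentiableOn.fun_finsetProd fun j _ => ?_
      by_cases hj : j = i
      · subst hj
        simp only [Function.update_self]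
        intro z hz
        have := hne z hz j
        rw [Function.update_self] at this
        exact (differentiableAt_zpow.2 (Or.inl this)).differentiableWithinAt
      · simp only [Function.update_of_ne hj]
        exact differentiableOn_const _
    exact hd.congr fun z hz => hP2 _ (hne z hz)
  · intro y hy
    have hyD : y ∈ D := (hDm y).2 fun i => frontier_ann (hy i)
    have hy0 : ∀ i, y i ≠ 0 := fun i => norm_pos_iff.1 (hDpos y hyD i)
    rw [hP1 y hy0 (hDinj y hyD), HLR]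
    have hQl : 0 ≤ Q ^ len L := by
      rcases Nat.eq_zero_or_pos n with hn | hn
      · subst hn
        simp [len]
      · have h4 := hDQ y hyD ⟨0, hn⟩ ⟨0, hn⟩
        have h5 := hDpos y hyD ⟨0, hn⟩
        have : 0 ≤ Q := by
          by_contra hc
          push Not at hc
          nlinarith
        positivity
    calc ‖∑ w : Equiv.Perm (Fin n), mon L (fun i => y (w i)) *
          ∏ i, ∏ j ∈ Ioi i, (y (w i) - u * y (w j)) / (y (w i) - y (w j))‖
        ≤ ∑ w : Equiv.Perm (Fin n), Q ^ len L *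
          ∏ i, ∏ j ∈ Ioi i, ‖(y (w i) - u * y (w j)) / (y (w i) - y (w j))‖ := by
          refine (norm_sum_le _ _).trans (Finset.sum_le_sum fun w _ => ?_)
          rw [norm_mul]
          refine mul_le_mul (norm_mon hL _ (fun i => hy0 _) fun i j => hDQ y hyD _ _) ?_
            (norm_nonneg _) hQl
          rw [norm_prod]
          refine le_of_eq (Finset.prod_congr rfl fun i _ => norm_prod _ _)
      _ = Q ^ len L * g y := by rw [hg, Finset.mul_sum]
      _ ≤ Q ^ len L * C := mul_le_mul_of_nonneg_left ((le_abs_self _).trans (hC y hyD)) hQl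
      _ = C * Q ^ len L := mul_comm _ _

end MPtg
end

section
/-!
MP_3d2757_nt, module BOX: elementary facts on boxes.
-/
open Finset

namespace MPtg
namespace BoxM

variable {E : Type} [NormedField E] (U : Unr E) {V : Type} [AddCommGroup V] [Module E V]

lemma w0 : U.ϖ ≠ 0 := norm_pos_iff.1 U.ϖpos

lemma npos (m : ℤ) : 0 < ‖U.ϖ‖ ^ m := zpow_pos U.ϖpos m

lemma norm_zpow' (m : ℤ) : ‖U.ϖ ^ m‖ = ‖U.ϖ‖ ^ m := norm_zpow _ _

lemma npow_le {m n : ℤ} : ‖U.ϖ‖ ^ m ≤ ‖U.ϖ‖ ^ n ↔ n ≤ m :=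
  zpow_le_zpow_iff_right_of_lt_one₀ U.ϖpos U.ϖlt

/-- discreteness -/
lemma lt_pow {x : E} {m : ℤ} (h : ‖x‖ < ‖U.ϖ‖ ^ m) : ‖x‖ ≤ ‖U.ϖ‖ ^ (m + 1) := by
  rcases eq_or_ne x 0 with rfl | hx
  · rw [norm_zero]; exact (npos U _).le
  · obtain ⟨k, hk⟩ := U.disc x hx
    rw [hk] at h ⊢
    rw [npow_le]
    have := (zpow_lt_zpow_iff_right_of_lt_one₀ U.ϖpos U.ϖlt).1 h
    omega

lemma lt_one {x : E} (h : ‖x‖ < 1) : ‖x‖ ≤ ‖U.ϖ‖ := by
  have := lt_pow U (x := x) (m := 0) (by simpa using h)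
  simpa using this

include U in
lemma norm_sub_le' (x y : E) {r : ℝ} (hx : ‖x‖ ≤ r) (hy : ‖y‖ ≤ r) : ‖x - y‖ ≤ r := by
  rw [sub_eq_add_neg]
  exact (U.ultra _ _).trans (max_le hx (by rwa [norm_neg]))

include U in
lemma norm_add_le' (x y : E) {r : ℝ} (hx : ‖x‖ ≤ r) (hy : ‖y‖ ≤ r) : ‖x + y‖ ≤ r :=
  (U.ultra _ _).trans (max_le hx hy)

include U in
lemma norm_sum_le' {ι : Type*} (s : Finset ι) (f : ι → E) {r : ℝ} (hr : 0 ≤ r)
    (hf : ∀ i ∈ s, ‖f i‖ ≤ r) : ‖∑ i ∈ s, f i‖ ≤ r := by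
  classical
  induction s using Finset.induction_on with
  | empty => simpa using hr
  | insert a s ha ih =>
    rw [Finset.sum_insert ha]
    exact norm_add_le' U _ _ (hf a (mem_insert_self _ _))
      (ih fun i hi => hf i (mem_insert_of_mem hi))

lemma mem_box {k : ℕ} {b : Fin k → V} {L : Fin k → ℤ} {v : V} :
    v ∈ box U b L ↔ ∃ c : Fin k → E, (∀ i, ‖c i‖ ≤ ‖U.ϖ‖ ^ (L i)) ∧ v = ∑ i, c i • b i := Iff.rfl

lemma mem_sc {j : ℤ} {M : AddSubgroup V} {v : V} :
    v ∈ sc U j M ↔ ∃ w ∈ M, U.ϖ ^ j • w = v := Iff.rfl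

lemma smul_mem {k : ℕ} {b : Fin k → V} {L : Fin k → ℤ} {x : E} {v : V} (hx : ‖x‖ ≤ 1)
    (hv : v ∈ box U b L) : x • v ∈ box U b L := by
  obtain ⟨c, hc, rfl⟩ := hv
  refine ⟨fun i => x * c i, fun i => ?_, ?_⟩
  · rw [norm_mul]
    calc ‖x‖ * ‖c i‖ ≤ 1 * ‖U.ϖ‖ ^ (L i) := mul_le_mul hx (hc i) (norm_nonneg _) zero_le_one
      _ = _ := one_mul _
  · rw [smul_sum]
    simp only [mul_smul]

lemma sc_box {k : ℕ} (b : Fin k → V) (L : Fin k → ℤ) (j : ℤ) :
    sc U j (box U b L) = box U b (fun i => L i + j) := by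
  ext v
  rw [mem_sc]
  constructor
  · rintro ⟨w, ⟨c, hc, rfl⟩, rfl⟩
    refine ⟨fun i => U.ϖ ^ j * c i, fun i => ?_, ?_⟩
    · rw [norm_mul, norm_zpow', zpow_add₀ U.ϖpos.ne', mul_comm]
      exact mul_le_mul_of_nonneg_right (hc i) (npos U j).le
    · rw [smul_sum]; simp only [mul_smul]
  · rintro ⟨c, hc, rfl⟩
    refine ⟨∑ i, (U.ϖ ^ (-j) * c i) • b i, ⟨_, fun i => ?_, rfl⟩, ?_⟩
    · rw [norm_mul, norm_zpow']
      calc ‖U.ϖ‖ ^ (-j) * ‖c i‖ ≤ ‖U.ϖ‖ ^ (-j) * ‖U.ϖ‖ ^ (L i + j) :=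
            mul_le_mul_of_nonneg_left (hc i) (npos U _).le
        _ = ‖U.ϖ‖ ^ (L i) := by
            rw [← zpow_add₀ U.ϖpos.ne']; congr 1; ring
    · rw [smul_sum]
      refine sum_congr rfl fun i _ => ?_
      rw [← mul_smul, ← mul_assoc, ← zpow_add₀ (w0 U), add_neg_cancel, zpow_zero, one_mul]

lemma coeff_eq {k : ℕ} {b : Fin k → V} (hb : LinearIndependent E b) {c d : Fin k → E}
    (h : ∑ i, c i • b i = ∑ i, d i • b i) : c = d := by
  funext i
  have h1 : ∑ i, (c i - d i) • b i = 0 := by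
    simp only [sub_smul]
    rw [sum_sub_distrib, h, sub_self]
  have := Fintype.linearIndependent_iff.1 hb _ h1 i
  exact sub_eq_zero.1 this

lemma mem_box_iff {k : ℕ} {b : Fin k → V} (hb : LinearIndependent E b) {L : Fin k → ℤ}
    {c : Fin k → E} : (∑ i, c i • b i) ∈ box U b L ↔ ∀ i, ‖c i‖ ≤ ‖U.ϖ‖ ^ (L i) := by
  constructor
  · rintro ⟨d, hd, he⟩
    rw [coeff_eq hb he]
    exact hd
  · exact fun h => ⟨c, h, rfl⟩

lemma single_mem {k : ℕ} (b : Fin k → V) (L : Fin k → ℤ) (i : Fin k) {x : E}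
    (hx : ‖x‖ ≤ ‖U.ϖ‖ ^ (L i)) : x • b i ∈ box U b L := by
  refine ⟨Pi.single i x, fun j => ?_, ?_⟩
  · rcases eq_or_ne j i with rfl | h
    · simpa using hx
    · rw [Pi.single_eq_of_ne h, norm_zero]; exact (npos U _).le
  · rw [Finset.sum_eq_single i]
    · simp
    · intro j _ h; rw [Pi.single_eq_of_ne h, zero_smul]
    · simp

lemma box_le {k : ℕ} {b : Fin k → V} (hb : LinearIndependent E b) (L L' : Fin k → ℤ) :
    box U b L ≤ box U b L' ↔ ∀ i, L' i ≤ L i := by
  constructor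
  · intro h i
    have h1 : (U.ϖ ^ (L i)) • b i ∈ box U b L := single_mem U b L i (by rw [norm_zpow'])
    obtain ⟨d, hd, he⟩ := h h1
    have h2 : (U.ϖ ^ (L i)) • b i = ∑ j, (Pi.single i (U.ϖ ^ (L i)) : Fin k → E) j • b j := by
      rw [Finset.sum_eq_single i]
      · simp
      · intro j _ h; rw [Pi.single_eq_of_ne h, zero_smul]
      · simp
    rw [h2] at he
    have h3 := coeff_eq hb he
    have h4 := hd i
    rw [← h3, Pi.single_eq_same, norm_zpow', npow_le] at h4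
    exact h4
  · rintro h v ⟨c, hc, rfl⟩
    exact ⟨c, fun i => (hc i).trans ((npow_le U).2 (h i)), rfl⟩

lemma box_inf {k : ℕ} {b : Fin k → V} (hb : LinearIndependent E b) (L L' : Fin k → ℤ) :
    box U b L ⊓ box U b L' = box U b (fun i => max (L i) (L' i)) := by
  ext v
  rw [AddSubgroup.mem_inf]
  constructor
  · rintro ⟨⟨c, hc, rfl⟩, h2⟩
    rw [mem_box_iff U hb] at h2 ⊢
    intro i
    rcases le_total (L i) (L' i) with h | h
    · rw [max_eq_right h]; exact h2 i
    · rw [max_eq_left h]; exact hc i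
  · rintro ⟨c, hc, rfl⟩
    exact ⟨⟨c, fun i => (hc i).trans ((npow_le U).2 (le_max_left _ _)), rfl⟩,
      ⟨c, fun i => (hc i).trans ((npow_le U).2 (le_max_right _ _)), rfl⟩⟩

lemma box_sup {k : ℕ} (b : Fin k → V) (L L' : Fin k → ℤ) :
    box U b L ⊔ box U b L' = box U b (fun i => min (L i) (L' i)) := by
  apply le_antisymm
  · apply sup_le
    · rintro v ⟨c, hc, rfl⟩
      exact ⟨c, fun i => (hc i).trans ((npow_le U).2 (min_le_left _ _)), rfl⟩
    · rintro v ⟨c, hc, rfl⟩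
      exact ⟨c, fun i => (hc i).trans ((npow_le U).2 (min_le_right _ _)), rfl⟩
  · rintro v ⟨c, hc, rfl⟩
    refine sum_mem fun i _ => ?_
    rcases le_total (L i) (L' i) with h | h
    · apply AddSubgroup.mem_sup_left
      apply single_mem
      have := hc i
      simp only [min_eq_left h] at this
      exact this
    · apply AddSubgroup.mem_sup_right
      apply single_mem
      have := hc i
      simp only [min_eq_right h] at this
      exact this

lemma span_box {k : ℕ} (b : Fin k → V) (L : Fin k → ℤ) :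
    Submodule.span E (box U b L : Set V) = Submodule.span E (Set.range b) := by
  apply le_antisymm
  · rw [Submodule.span_le]
    rintro v ⟨c, -, rfl⟩
    exact Submodule.sum_mem _ fun i _ =>
      Submodule.smul_mem _ _ (Submodule.subset_span (Set.mem_range_self i))
  · rw [Submodule.span_le]
    rintro _ ⟨i, rfl⟩
    have h1 : (U.ϖ ^ (L i)) • b i ∈ (box U b L : Set V) :=
      single_mem U b L i (by rw [norm_zpow'])
    have h2 := Submodule.smul_mem (Submodule.span E (box U b L : Set V)) (U.ϖ ^ (-(L i)))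
      (Submodule.subset_span h1)
    rw [← mul_smul, ← zpow_add₀ (w0 U), neg_add_cancel, zpow_zero, one_smul] at h2
    exact h2

/-- sums over an updated family -/
lemma sum_update {k : ℕ} (b : Fin k → V) (i₀ : Fin k) (v : V) (a : Fin k → E) :
    ∑ i, a i • Function.update b i₀ v i = ∑ i, (Function.update a i₀ 0 i) • b i + a i₀ • v := by
  rw [← Finset.add_sum_erase univ _ (mem_univ i₀), ← Finset.add_sum_erase univ
    (fun i => (Function.update a i₀ 0 i) • b i) (mem_univ i₀)]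
  rw [Function.update_self, Function.update_self, zero_smul, zero_add, add_comm]
  congr 1
  refine sum_congr rfl fun i hi => ?_
  rw [Function.update_of_ne (ne_of_mem_erase hi), Function.update_of_ne (ne_of_mem_erase hi)]

lemma sum_update' {k : ℕ} (b : Fin k → V) (i₀ : Fin k) (v : V) (c : Fin k → E)
    (hv : v = ∑ i, c i • b i) (a : Fin k → E) :
    ∑ i, a i • Function.update b i₀ v i =
      ∑ i, (Function.update a i₀ 0 i + a i₀ * c i) • b i := by
  rw [sum_update, hv, smul_sum, ← sum_add_distrib]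
  refine sum_congr rfl fun i _ => ?_
  rw [add_smul, mul_smul]

lemma exchange {k : ℕ} (b : Fin k → V) (v : V) (i₀ : Fin k) (c : Fin k → E)
    (hb : LinearIndependent E b) (hv : v = ∑ i, c i • b i) (hc : ∀ i, ‖c i‖ ≤ 1)
    (hc0 : ‖c i₀‖ = 1) : LinearIndependent E (Function.update b i₀ v) ∧
      box U (Function.update b i₀ v) 0 = box U b 0 := by
  have hne : c i₀ ≠ 0 := by
    intro h; rw [h, norm_zero] at hc0; exact zero_ne_one hc0
  constructor
  · rw [Fintype.linearIndependent_iff]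
    intro a ha
    rw [sum_update' b i₀ v c hv a] at ha
    have h1 := Fintype.linearIndependent_iff.1 hb _ ha
    have h2 := h1 i₀
    rw [Function.update_self, zero_add] at h2
    have h3 : a i₀ = 0 := (mul_eq_zero.1 h2).resolve_right hne
    intro i
    rcases eq_or_ne i i₀ with rfl | hi
    · exact h3
    · have := h1 i
      rw [Function.update_of_ne hi, h3, zero_mul, add_zero] at this
      exact this
  · ext w
    constructor
    · rintro ⟨a, ha, rfl⟩
      rw [sum_update' b i₀ v c hv a]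
      refine ⟨_, fun i => ?_, rfl⟩
      simp only [Pi.zero_apply, zpow_zero] at ha ⊢
      apply norm_add_le' U
      · rcases eq_or_ne i i₀ with rfl | hi
        · rw [Function.update_self, norm_zero]; exact zero_le_one
        · rw [Function.update_of_ne hi]; exact ha i
      · rw [norm_mul]
        exact mul_le_one₀ (ha i₀) (norm_nonneg _) (hc i)
    · rintro ⟨d, hd, rfl⟩
      simp only [Pi.zero_apply, zpow_zero] at hd
      have hq : ‖d i₀ / c i₀‖ ≤ 1 := by rw [norm_div, hc0, div_one]; exact hd i₀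
      refine ⟨fun i => if i = i₀ then d i₀ / c i₀ else d i - d i₀ / c i₀ * c i, fun i => ?_, ?_⟩
      · simp only [Pi.zero_apply, zpow_zero]
        split_ifs with h
        · exact hq
        · apply norm_sub_le' U _ _ (hd i)
          rw [norm_mul]
          exact mul_le_one₀ hq (norm_nonneg _) (hc i)
      · rw [sum_update' b i₀ v c hv]
        refine sum_congr rfl fun i _ => ?_
        congr 1
        rcases eq_or_ne i i₀ with rfl | hi
        · rw [Function.update_self, if_pos rfl, zero_add, div_mul_cancel₀ _ hne]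
        · rw [Function.update_of_ne hi, if_neg hi, if_pos rfl]
          ring

/-- representatives of `ϖ^m O / ϖ^(m+d) O` -/
lemma exists_reps (d : ℕ) : ∀ m : ℤ, ∃ R : Finset E, R.card = U.q ^ (2 * d) ∧
    (∀ r ∈ R, ‖r‖ ≤ ‖U.ϖ‖ ^ m) ∧
    ∀ x : E, ‖x‖ ≤ ‖U.ϖ‖ ^ m → ∃! r, r ∈ R ∧ ‖x - r‖ ≤ ‖U.ϖ‖ ^ (m + d) := by
  classical
  induction d with
  | zero =>
    intro m
    refine ⟨{0}, by simp, fun r hr => ?_, fun x hx => ⟨0, ⟨by simp, by simpa using hx⟩, ?_⟩⟩
    · rw [mem_singleton.1 hr, norm_zero]; exact (npos U _).le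
    · rintro y ⟨hy, -⟩; exact mem_singleton.1 hy
  | succ d ih =>
    intro m
    obtain ⟨R, hR1, hR2, hR3⟩ := ih (m + 1)
    have hkey : ∀ r s : E, r ∈ U.rep → s ∈ U.rep → ∀ y z : E, y ∈ R → z ∈ R →
        ‖(r * U.ϖ ^ m + y) - (s * U.ϖ ^ m + z)‖ ≤ ‖U.ϖ‖ ^ (m + ((d + 1 : ℕ) : ℤ)) →
        r = s ∧ y = z := by
      intro r s hr hs y z hy hz h
      have hyz : ‖y - z‖ ≤ ‖U.ϖ‖ ^ (m + 1) := norm_sub_le' U _ _ (hR2 y hy) (hR2 z hz)
      have h1 : ‖(r - s) * U.ϖ ^ m‖ ≤ ‖U.ϖ‖ ^ (m + 1) := by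
        have e : (r - s) * U.ϖ ^ m = ((r * U.ϖ ^ m + y) - (s * U.ϖ ^ m + z)) - (y - z) := by ring
        rw [e]
        apply norm_sub_le' U _ _ (h.trans ((npow_le U).2 (by push_cast; omega))) hyz
      have h2 : ‖r - s‖ < 1 := by
        rw [norm_mul, norm_zpow', zpow_add₀ U.ϖpos.ne', zpow_one, mul_comm] at h1
        have := le_of_mul_le_mul_left h1 (npos U m)
        exact lt_of_le_of_lt this U.ϖlt
      have h3 : r = s := by
        obtain ⟨u, -, hu⟩ := U.rep_ex r (U.rep_int r hr)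
        rw [hu s ⟨hs, h2⟩]
        exact hu r ⟨hr, by simp⟩
      subst h3
      refine ⟨rfl, ?_⟩
      have h4 : ‖y - z‖ ≤ ‖U.ϖ‖ ^ (m + 1 + d) := by
        have e : (r * U.ϖ ^ m + y) - (r * U.ϖ ^ m + z) = y - z := by ring
        rw [e] at h
        refine h.trans ((npow_le U).2 (by push_cast; omega))
      obtain ⟨u, -, hu⟩ := hR3 y (hR2 y hy)
      rw [hu z ⟨hz, h4⟩]
      exact hu y ⟨hy, by rw [sub_self, norm_zero]; exact (npos U _).le⟩
    refine ⟨(U.rep ×ˢ R).image (fun p => p.1 * U.ϖ ^ m + p.2), ?_, ?_, ?_⟩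
    · rw [card_image_of_injOn, card_product, U.rep_card, hR1]
      · ring
      · rintro ⟨r, y⟩ hp ⟨s, z⟩ hp' he
        simp only [coe_product, Set.mem_prod, mem_coe] at hp hp'
        simp only at he
        have := hkey r s hp.1 hp'.1 y z hp.2 hp'.2 (by
          rw [he, sub_self, norm_zero]; exact (npos U _).le)
        rw [this.1, this.2]
    · intro r hr
      rw [mem_image] at hr
      obtain ⟨⟨s, y⟩, hp, rfl⟩ := hr
      rw [mem_product] at hp
      apply norm_add_le' U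
      · rw [norm_mul, norm_zpow']
        calc ‖s‖ * ‖U.ϖ‖ ^ m ≤ 1 * ‖U.ϖ‖ ^ m :=
              mul_le_mul_of_nonneg_right (U.rep_int s hp.1) (npos U m).le
          _ = _ := one_mul _
      · exact (hR2 y hp.2).trans ((npow_le U).2 (by omega))
    · intro x hx
      have h1 : ‖x * U.ϖ ^ (-m)‖ ≤ 1 := by
        rw [norm_mul, norm_zpow']
        calc ‖x‖ * ‖U.ϖ‖ ^ (-m) ≤ ‖U.ϖ‖ ^ m * ‖U.ϖ‖ ^ (-m) :=
              mul_le_mul_of_nonneg_right hx (npos U _).le
          _ = 1 := by rw [← zpow_add₀ U.ϖpos.ne', add_neg_cancel, zpow_zero]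
      obtain ⟨r, ⟨hr, hr1⟩, -⟩ := U.rep_ex _ h1
      have h2 : ‖x - r * U.ϖ ^ m‖ ≤ ‖U.ϖ‖ ^ (m + 1) := by
        have e : x - r * U.ϖ ^ m = (x * U.ϖ ^ (-m) - r) * U.ϖ ^ m := by
          rw [sub_mul, mul_assoc, ← zpow_add₀ (w0 U), neg_add_cancel, zpow_zero, mul_one]
        rw [e, norm_mul, norm_zpow', zpow_add₀ U.ϖpos.ne', zpow_one, mul_comm (‖U.ϖ‖ ^ m)]
        exact mul_le_mul_of_nonneg_right (lt_one U hr1) (npos U m).le
      obtain ⟨y, ⟨hy, hy1⟩, -⟩ := hR3 _ h2
      refine ⟨r * U.ϖ ^ m + y, ⟨mem_image.2 ⟨(r, y), mem_product.2 ⟨hr, hy⟩, rfl⟩, ?_⟩, ?_⟩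
      · have e : x - (r * U.ϖ ^ m + y) = x - r * U.ϖ ^ m - y := by ring
        rw [e]
        refine hy1.trans ((npow_le U).2 (by push_cast; omega))
      · rintro z ⟨hz, hz1⟩
        rw [mem_image] at hz
        obtain ⟨⟨s, z'⟩, hp, rfl⟩ := hz
        rw [mem_product] at hp
        have e1 : ‖x - (r * U.ϖ ^ m + y)‖ ≤ ‖U.ϖ‖ ^ (m + ((d + 1 : ℕ) : ℤ)) := by
          have e : x - (r * U.ϖ ^ m + y) = x - r * U.ϖ ^ m - y := by ring
          rw [e]
          refine hy1.trans ((npow_le U).2 (by push_cast; omega))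
        have e2 := norm_sub_le' U _ _ e1 hz1
        have e3 : (x - (r * U.ϖ ^ m + y)) - (x - (s * U.ϖ ^ m + z')) =
            (s * U.ϖ ^ m + z') - (r * U.ϖ ^ m + y) := by ring
        rw [e3] at e2
        have := hkey s r hp.1 hr z' y hp.2 hy e2
        show s * U.ϖ ^ m + z' = r * U.ϖ ^ m + y
        rw [this.1, this.2]

lemma ncls_box {k : ℕ} {b : Fin k → V} (hb : LinearIndependent E b) (L L' : Fin k → ℤ)
    (hL : ∀ i, L i ≤ L' i) :
    ncls (box U b L') (box U b L : Set V) = U.q ^ (2 * (∑ i, (L' i - L i)).toNat) := by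
  classical
  choose R hR1 hR2 hR3 using fun i => exists_reps U (L' i - L i).toNat (L i)
  have hLL : ∀ i, L i + ((L' i - L i).toNat : ℤ) = L' i := by
    intro i; rw [Int.toNat_of_nonneg (by linarith [hL i])]; ring
  set P : Finset (Fin k → E) := Fintype.piFinset R with hP
  have hcard : P.card = U.q ^ (2 * (∑ i, (L' i - L i)).toNat) := by
    rw [hP, Fintype.card_piFinset]
    simp only [hR1]
    rw [prod_pow_eq_pow_sum, ← mul_sum]
    congr 2
    zify
    rw [Int.toNat_of_nonneg (sum_nonneg fun i _ => by linarith [hL i])]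
    refine sum_congr rfl fun i _ => ?_
    rw [Int.toNat_of_nonneg (by linarith [hL i])]
  have himg : (QuotientAddGroup.mk : V → V ⧸ box U b L') '' (box U b L : Set V) =
      ((P.image fun c => (QuotientAddGroup.mk (∑ i, c i • b i) : V ⧸ box U b L')) :
        Set (V ⧸ box U b L')) := by
    ext y
    simp only [coe_image, Set.mem_image, SetLike.mem_coe]
    constructor
    · rintro ⟨v, ⟨c, hc, rfl⟩, rfl⟩
      choose r hr hr' using fun i => hR3 i (c i) (hc i)
      refine ⟨r, Fintype.mem_piFinset.2 fun i => (hr i).1, ?_⟩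
      rw [QuotientAddGroup.eq]
      have e : -(∑ i, r i • b i) + ∑ i, c i • b i = ∑ i, (c i - r i) • b i := by
        simp only [sub_smul, sum_sub_distrib]; abel
      rw [e]
      refine ⟨_, fun i => ?_, rfl⟩
      have := (hr i).2
      rwa [hLL i] at this
    · rintro ⟨c, hc, rfl⟩
      exact ⟨_, ⟨c, fun i => hR2 i _ (Fintype.mem_piFinset.1 hc i), rfl⟩, rfl⟩
  rw [ncls, himg, Set.ncard_coe_finset, card_image_of_injOn, hcard]
  intro c hc d hd he
  simp only at he
  rw [QuotientAddGroup.eq] at he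
  have e : -(∑ i, c i • b i) + ∑ i, d i • b i = ∑ i, (d i - c i) • b i := by
    simp only [sub_smul, sum_sub_distrib]; abel
  rw [e, mem_box_iff U hb] at he
  funext i
  have hci := Fintype.mem_piFinset.1 (mem_coe.1 hc) i
  have hdi := Fintype.mem_piFinset.1 (mem_coe.1 hd) i
  obtain ⟨u, -, hu⟩ := hR3 i (d i) (hR2 i _ hdi)
  rw [hu (c i) ⟨hci, by rw [hLL i]; exact he i⟩]
  exact (hu (d i) ⟨hdi, by rw [sub_self, norm_zero]; exact (npos U _).le⟩).symm

end BoxM

/-- module BOX -/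
theorem specBox : SpecBox := by
  intro E _ U V _ _ k b
  refine ⟨fun L x v hx hv => BoxM.smul_mem U hx hv, fun L j => BoxM.sc_box U b L j,
    fun hb L L' => BoxM.box_le U hb L L', fun hb L L' => BoxM.box_inf U hb L L',
    fun L L' => BoxM.box_sup U b L L', fun hb L L' h => BoxM.ncls_box U hb L L' h,
    fun L => BoxM.span_box U b L, fun v i₀ c hb hv hc hc0 => BoxM.exchange U b v i₀ c hb hv hc hc0⟩

end MPtg
end

section
/-!
# MP_3d2757_nt : the group `KS E n = GL_n(O)` (base file for CARTAN, GELF, SAT)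
-/
open Finset

namespace MPtg
namespace KSM

variable {E : Type} [NormedField E] (U : Unr E) {n : ℕ}

include U in
lemma mul_entry {A B : Matrix (Fin n) (Fin n) E} {r : ℝ} (hr : 0 ≤ r)
    (hA : ∀ i j, ‖A i j‖ ≤ 1) (hB : ∀ i j, ‖B i j‖ ≤ r) (i j : Fin n) : ‖(A * B) i j‖ ≤ r := by
  rw [Matrix.mul_apply]
  apply BoxM.norm_sum_le' U _ _ hr
  intro k _
  rw [norm_mul]
  calc ‖A i k‖ * ‖B k j‖ ≤ 1 * r := mul_le_mul (hA i k) (hB k j) (norm_nonneg _) zero_le_one
    _ = r := one_mul _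

include U in
lemma entry_mul {A B : Matrix (Fin n) (Fin n) E} {r : ℝ} (hr : 0 ≤ r)
    (hA : ∀ i j, ‖A i j‖ ≤ r) (hB : ∀ i j, ‖B i j‖ ≤ 1) (i j : Fin n) : ‖(A * B) i j‖ ≤ r := by
  rw [Matrix.mul_apply]
  apply BoxM.norm_sum_le' U _ _ hr
  intro k _
  rw [norm_mul]
  calc ‖A i k‖ * ‖B k j‖ ≤ r * 1 := mul_le_mul (hA i k) (hB k j) (norm_nonneg _) hr
    _ = r := mul_one _

omit U in
lemma one_entry (i j : Fin n) : ‖(1 : Matrix (Fin n) (Fin n) E) i j‖ ≤ 1 := by
  rw [Matrix.one_apply]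
  split_ifs <;> simp

omit U in
lemma one_mem : (1 : GL (Fin n) E) ∈ KS E n := by
  refine ⟨fun i j => ?_, fun i j => ?_⟩
  · exact one_entry i j
  · rw [inv_one]; exact one_entry i j

omit U in
lemma inv_mem {g : GL (Fin n) E} (hg : g ∈ KS E n) : g⁻¹ ∈ KS E n := by
  refine ⟨hg.2, ?_⟩
  rw [inv_inv]; exact hg.1

include U in
lemma mul_mem {g h : GL (Fin n) E} (hg : g ∈ KS E n) (hh : h ∈ KS E n) : g * h ∈ KS E n := by
  refine ⟨fun i j => ?_, fun i j => ?_⟩
  · rw [Units.val_mul]; exact mul_entry U zero_le_one hg.1 hh.1 i j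
  · rw [mul_inv_rev, Units.val_mul]; exact mul_entry U zero_le_one hh.2 hg.2 i j

/-- `GL_n(O)` as a subgroup -/
def KG : Subgroup (GL (Fin n) E) where
  carrier := KS E n
  mul_mem' := fun hg hh => mul_mem U hg hh
  one_mem' := one_mem
  inv_mem' := fun hg => inv_mem hg

/-- transposition -/
def tr (g : GL (Fin n) E) : GL (Fin n) E where
  val := (g : Matrix (Fin n) (Fin n) E).transpose
  inv := ((g⁻¹ : GL (Fin n) E) : Matrix (Fin n) (Fin n) E).transpose
  val_inv := by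
    rw [← Matrix.transpose_mul, ← Units.val_mul, inv_mul_cancel]
    simp
  inv_val := by
    rw [← Matrix.transpose_mul, ← Units.val_mul, mul_inv_cancel]
    simp

lemma tr_val (g : GL (Fin n) E) :
    (tr g : Matrix (Fin n) (Fin n) E) = (g : Matrix (Fin n) (Fin n) E).transpose := rfl

lemma tr_inv_val (g : GL (Fin n) E) :
    (((tr g)⁻¹ : GL (Fin n) E) : Matrix (Fin n) (Fin n) E) =
      ((g⁻¹ : GL (Fin n) E) : Matrix (Fin n) (Fin n) E).transpose := rfl

lemma tr_mul (g h : GL (Fin n) E) : tr (g * h) = tr h * tr g := by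
  apply Units.ext
  rw [tr_val, Units.val_mul, Units.val_mul, tr_val, tr_val, Matrix.transpose_mul]

lemma tr_tr (g : GL (Fin n) E) : tr (tr g) = g := by
  apply Units.ext
  rw [tr_val, tr_val, Matrix.transpose_transpose]

lemma tr_mem {g : GL (Fin n) E} (hg : g ∈ KS E n) : tr g ∈ KS E n :=
  ⟨fun i j => hg.1 j i, fun i j => hg.2 j i⟩

lemma tr_dg (ϖ : Eˣ) (L : Fin n → ℤ) : tr (dg ϖ L) = dg ϖ L := by
  apply Units.ext
  rw [tr_val]
  exact Matrix.diagonal_transpose _

/-- permutation matrix -/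
def pm (σ : Equiv.Perm (Fin n)) : GL (Fin n) E where
  val := Matrix.of fun i j => if σ i = j then 1 else 0
  inv := Matrix.of fun i j => if σ j = i then 1 else 0
  val_inv := by
    ext i j
    rw [Matrix.mul_apply, Matrix.one_apply]
    simp [Finset.sum_ite_eq, eq_comm]
  inv_val := by
    ext i j
    rw [Matrix.mul_apply, Matrix.one_apply]
    rw [Finset.sum_eq_single (σ.symm i)]
    · simp
    · intro k _ hk
      have : σ k ≠ i := by
        intro h; apply hk; rw [← h]; simp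
      simp [this]
    · intro h; exact absurd (Finset.mem_univ _) h

lemma pm_val (σ : Equiv.Perm (Fin n)) (i j : Fin n) :
    (pm σ : GL (Fin n) E).val i j = if σ i = j then 1 else 0 := rfl

lemma pm_inv_val (σ : Equiv.Perm (Fin n)) (i j : Fin n) :
    ((pm σ : GL (Fin n) E)⁻¹).val i j = if σ j = i then 1 else 0 := rfl

lemma pm_mem (σ : Equiv.Perm (Fin n)) : (pm σ : GL (Fin n) E) ∈ KS E n := by
  refine ⟨fun i j => ?_, fun i j => ?_⟩
  · rw [pm_val]; split_ifs <;> simp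
  · rw [pm_inv_val]; split_ifs <;> simp

lemma pm_mul (σ : Equiv.Perm (Fin n)) (A : Matrix (Fin n) (Fin n) E) (i j : Fin n) :
    ((pm σ : GL (Fin n) E).val * A) i j = A (σ i) j := by
  rw [Matrix.mul_apply]
  simp [pm_val]

lemma mul_pm_inv (σ : Equiv.Perm (Fin n)) (A : Matrix (Fin n) (Fin n) E) (i j : Fin n) :
    (A * ((pm σ : GL (Fin n) E)⁻¹).val) i j = A i (σ j) := by
  rw [Matrix.mul_apply]
  simp [pm_inv_val]

lemma dg_val (ϖ : Eˣ) (L : Fin n → ℤ) (i j : Fin n) :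
    (dg ϖ L : GL (Fin n) E).val i j = if i = j then ((ϖ ^ (L i) : Eˣ) : E) else 0 := by
  show Matrix.diagonal _ i j = _
  rw [Matrix.diagonal_apply]

lemma pm_conj (ϖ : Eˣ) (L : Fin n → ℤ) (σ : Equiv.Perm (Fin n)) :
    (pm σ : GL (Fin n) E) * dg ϖ L * (pm σ)⁻¹ = dg ϖ (fun i => L (σ i)) := by
  apply Units.ext
  ext i j
  rw [Units.val_mul, mul_pm_inv, Units.val_mul, pm_mul, dg_val, dg_val]
  simp

/-- elementary matrix: subtract `c i` times row `i0` from row `i` -/
def elM (i0 : Fin n) (c : Fin n → E) : Matrix (Fin n) (Fin n) E :=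
  Matrix.of fun i j => (if i = j then 1 else 0) - (if j = i0 then c i else 0)

lemma elM_mul (i0 : Fin n) (c : Fin n → E) (A : Matrix (Fin n) (Fin n) E)
    (i j : Fin n) : (elM i0 c * A) i j = A i j - c i * A i0 j := by
  rw [Matrix.mul_apply]
  simp only [elM, Matrix.of_apply, sub_mul, ite_mul, one_mul, zero_mul,
      Finset.sum_sub_distrib, Finset.sum_ite_eq, Finset.sum_ite_eq', Finset.mem_univ, if_true]

lemma elM_inv (i0 : Fin n) (c : Fin n → E) (hc : c i0 = 0) :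
    elM i0 c * elM i0 (fun i => - c i) = 1 := by
  ext i j
  rw [elM_mul, Matrix.one_apply]
  simp only [elM, Matrix.of_apply, hc, neg_zero]
  by_cases hj : j = i0
  · subst hj; simp
  · simp [hj, Ne.symm hj]

/-- elementary matrix as an element of the group -/
def el (i0 : Fin n) (c : Fin n → E) (hc : c i0 = 0) : GL (Fin n) E where
  val := elM i0 c
  inv := elM i0 (fun i => - c i)
  val_inv := elM_inv i0 c hc
  inv_val := by
    have := elM_inv i0 (fun i => - c i) (by simp [hc])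
    simpa using this

lemma el_val (i0 : Fin n) (c : Fin n → E) (hc : c i0 = 0) (i j : Fin n) :
    (el i0 c hc).val i j = (if i = j then 1 else 0) - (if j = i0 then c i else 0) := rfl

lemma el_inv_val (i0 : Fin n) (c : Fin n → E) (hc : c i0 = 0) (i j : Fin n) :
    ((el i0 c hc)⁻¹).val i j = (if i = j then 1 else 0) - (if j = i0 then - c i else 0) := rfl

lemma el_mem (i0 : Fin n) (c : Fin n → E) (hc : c i0 = 0) (h1 : ∀ i, ‖c i‖ ≤ 1) :
    el i0 c hc ∈ KS E n := by
  refine ⟨fun i j => ?_, fun i j => ?_⟩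
  · rw [el_val]
    by_cases hj : j = i0
    · subst hj
      by_cases hi : i = j
      · subst hi; simp [hc]
      · simp [hi, h1 i]
    · simp only [hj, if_false, sub_zero]
      split_ifs <;> simp
  · rw [el_inv_val]
    by_cases hj : j = i0
    · subst hj
      by_cases hi : i = j
      · subst hi; simp [hc]
      · simp [hi, h1 i]
    · simp only [hj, if_false, sub_zero]
      split_ifs <;> simp

lemma el_mul (i0 : Fin n) (c : Fin n → E) (hc : c i0 = 0) (A : Matrix (Fin n) (Fin n) E)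
    (i j : Fin n) : ((el i0 c hc).val * A) i j = A i j - c i * A i0 j :=
  elM_mul i0 c A i j

/-- the transposed elementary matrix: subtract `d j` times column `i0` from column `j` -/
lemma mul_tr_el (i0 : Fin n) (d : Fin n → E) (hd : d i0 = 0) (A : Matrix (Fin n) (Fin n) E)
    (i j : Fin n) : (A * (tr (el i0 d hd)).val) i j = A i j - A i i0 * d j := by
  rw [tr_val, Matrix.mul_apply]
  simp only [Matrix.transpose_apply, el_val, mul_sub, mul_ite, mul_one, mul_zero,
      Finset.sum_sub_distrib, Finset.sum_ite_eq, Finset.sum_ite_eq', Finset.mem_univ, if_true]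

end KSM
end MPtg
end

section
/-!
# MP_3d2757_nt, module CARTAN: Cartan decomposition of `GL_n`
-/
open Finset

namespace MPtg
namespace KSM

variable {E : Type} [NormedField E] (U : Unr E) {n : ℕ}

/-- same double coset -/
def Rel (g g' : GL (Fin n) E) : Prop := ∃ k₁ ∈ KS E n, ∃ k₂ ∈ KS E n, g = k₁ * g' * k₂

lemma Rel.refl (g : GL (Fin n) E) : Rel g g := ⟨1, one_mem, 1, one_mem, by simp⟩

include U in
lemma Rel.trans {g g' g'' : GL (Fin n) E} (h : Rel g g') (h' : Rel g' g'') : Rel g g'' := by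
  obtain ⟨a, ha, b, hb, rfl⟩ := h
  obtain ⟨c, hc, d, hd, rfl⟩ := h'
  exact ⟨a * c, mul_mem U ha hc, d * b, mul_mem U hd hb, by group⟩

lemma Rel.mul_right {g k : GL (Fin n) E} (hk : k ∈ KS E n) : Rel g (g * k) :=
  ⟨1, one_mem, k⁻¹, inv_mem hk, by group⟩

lemma Rel.mul_left {g k : GL (Fin n) E} (hk : k ∈ KS E n) : Rel g (k * g) :=
  ⟨k⁻¹, inv_mem hk, 1, one_mem, by group⟩

/-- rows and columns in `S` are cleared -/
def Clr (S : Finset (Fin n)) (g : GL (Fin n) E) : Prop :=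
  ∀ i ∈ S, ∀ j, j ≠ i → g.val i j = 0 ∧ g.val j i = 0

lemma step (S : Finset (Fin n)) (hS : S ≠ univ) (g : GL (Fin n) E) (hg : Clr S g) :
    ∃ i0 ∉ S, ∃ g' : GL (Fin n) E,
      (∃ k₁ ∈ KS E n, ∃ k₂ ∈ KS E n, ∃ k₃ ∈ KS E n, g' = k₁ * (g * k₂) * k₃) ∧
        Clr (insert i0 S) g' := by
  classical
  obtain ⟨s0, hs0⟩ : ∃ s, s ∉ S := by
    by_contra h
    push Not at h
    exact hS (Finset.eq_univ_iff_forall.2 h)
  obtain ⟨⟨i0, j0⟩, hp, hmax⟩ := Finset.exists_max_image (Sᶜ ×ˢ Sᶜ) (fun p => ‖g.val p.1 p.2‖)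
    ⟨(s0, s0), by simp [hs0]⟩
  rw [Finset.mem_product, Finset.mem_compl, Finset.mem_compl] at hp
  obtain ⟨hi0, hj0⟩ := hp
  simp only at hi0 hj0
  have hm : ∀ i j, i ∉ S → j ∉ S → ‖g.val i j‖ ≤ ‖g.val i0 j0‖ := by
    intro i j hi hj
    exact hmax (i, j) (by simp [hi, hj])
  have hne : g.val i0 j0 ≠ 0 := by
    intro h0
    have hz : ∀ j, g.val i0 j = 0 := by
      intro j
      by_cases hj : j ∈ S
      · exact (hg j hj i0 (fun h => hi0 (h ▸ hj))).2
      · have := hm i0 j hi0 hj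
        rw [h0, norm_zero] at this
        exact norm_le_zero_iff.1 this
    have h1 : (g.val * (g⁻¹).val) i0 i0 = 1 := by
      rw [← Units.val_mul, mul_inv_cancel, Units.val_one, Matrix.one_apply_eq]
    rw [Matrix.mul_apply, Finset.sum_eq_zero] at h1
    · exact zero_ne_one h1
    · intro k _
      rw [hz k, zero_mul]
  -- step 1: swap columns
  set τ : Equiv.Perm (Fin n) := Equiv.swap i0 j0 with hτ
  have hτi : ∀ i ∈ S, τ i = i := by
    intro i hi
    apply Equiv.swap_apply_of_ne_of_ne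
    · exact fun h => hi0 (h ▸ hi)
    · exact fun h => hj0 (h ▸ hi)
  let g1 : GL (Fin n) E := g * (pm τ)⁻¹
  have hg1 : ∀ i j, g1.val i j = g.val i (τ j) := by
    intro i j
    show (g * (pm τ)⁻¹).val i j = _
    rw [Units.val_mul, mul_pm_inv]
  have hc1 : Clr S g1 := by
    intro i hi j hj
    refine ⟨?_, ?_⟩
    · rw [hg1]
      apply (hg i hi (τ j) _).1
      intro h
      apply hj
      have := τ.injective (h.trans (hτi i hi).symm)
      exact this
    · rw [hg1, hτi i hi]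
      exact (hg i hi j hj).2
  set a : E := g1.val i0 i0 with ha
  have ha' : a = g.val i0 j0 := by rw [ha, hg1, hτ, Equiv.swap_apply_left]
  have ha0 : a ≠ 0 := by rw [ha']; exact hne
  have hτS : ∀ j, j ∉ S → τ j ∉ S := by
    intro j hj h
    apply hj
    have h2 := hτi _ h
    have h3 : τ j = j := τ.injective h2
    rwa [h3] at h
  have hb1 : ∀ i j, i ∉ S → j ∉ S → ‖g1.val i j‖ ≤ ‖a‖ := by
    intro i j hi hj
    rw [hg1, ha']
    exact hm _ _ hi (hτS j hj)
  -- step 2: clear column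
  let c : Fin n → E := fun i => if i = i0 then 0 else g1.val i i0 / a
  have hc0 : c i0 = 0 := by simp [c]
  have hcS : ∀ i ∈ S, c i = 0 := by
    intro i hi
    have hne' : i0 ≠ i := fun h => hi0 (h ▸ hi)
    simp only [c]
    rw [if_neg hne'.symm, (hc1 i hi i0 hne').1, zero_div]
  have hcn : ∀ i, ‖c i‖ ≤ 1 := by
    intro i
    by_cases hi : i ∈ S
    · rw [hcS i hi]; simp
    · simp only [c]
      split_ifs with h
      · simp
      · rw [norm_div]
        exact div_le_one_of_le₀ (hb1 i i0 hi hi0) (norm_nonneg _)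
  let g2 : GL (Fin n) E := el i0 c hc0 * g1
  have hg2 : ∀ i j, g2.val i j = g1.val i j - c i * g1.val i0 j := by
    intro i j
    show (el i0 c hc0 * g1).val i j = _
    rw [Units.val_mul, el_mul]
  have hcol : ∀ i, i ≠ i0 → g2.val i i0 = 0 := by
    intro i hi
    rw [hg2]
    simp only [c]
    rw [if_neg hi, ← ha, div_mul_cancel₀ _ ha0, sub_self]
  have hrow2 : ∀ j, g2.val i0 j = g1.val i0 j := by
    intro j
    rw [hg2, hc0, zero_mul, sub_zero]
  -- step 3: clear row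
  let d : Fin n → E := fun j => if j = i0 then 0 else g1.val i0 j / a
  have hd0 : d i0 = 0 := by simp [d]
  have hdS : ∀ j ∈ S, d j = 0 := by
    intro j hj
    have hne' : i0 ≠ j := fun h => hi0 (h ▸ hj)
    simp only [d]
    rw [if_neg hne'.symm, (hc1 j hj i0 hne').2, zero_div]
  have hdn : ∀ i, ‖d i‖ ≤ 1 := by
    intro i
    by_cases hi : i ∈ S
    · rw [hdS i hi]; simp
    · simp only [d]
      split_ifs with h
      · simp
      · rw [norm_div]
        exact div_le_one_of_le₀ (hb1 i0 i hi0 hi) (norm_nonneg _)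
  let g3 : GL (Fin n) E := g2 * tr (el i0 d hd0)
  have hg3 : ∀ i j, g3.val i j = g2.val i j - g2.val i i0 * d j := by
    intro i j
    show (g2 * tr (el i0 d hd0)).val i j = _
    rw [Units.val_mul, mul_tr_el]
  have hg3' : ∀ i j, i ≠ i0 → g3.val i j = g2.val i j := by
    intro i j hi
    rw [hg3, hcol i hi, zero_mul, sub_zero]
  have hrow3 : ∀ j, j ≠ i0 → g3.val i0 j = 0 := by
    intro j hj
    rw [hg3, hrow2, hrow2]
    simp only [d]
    rw [if_neg hj, ← ha, mul_div_cancel₀ _ ha0, sub_self]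
  refine ⟨i0, hi0, g3, ⟨el i0 c hc0, el_mem _ _ _ hcn, (pm τ)⁻¹, inv_mem (pm_mem τ),
    tr (el i0 d hd0), tr_mem (el_mem _ _ _ hdn), rfl⟩, ?_⟩
  intro i hi j hj
  rw [Finset.mem_insert] at hi
  rcases hi with rfl | hi
  · exact ⟨hrow3 j hj, by rw [hg3' j _ hj]; exact hcol j hj⟩
  · have hii : i ≠ i0 := fun h => hi0 (h ▸ hi)
    refine ⟨?_, ?_⟩
    · rw [hg3' i j hii, hg2, (hc1 i hi j hj).1, hcS i hi, zero_mul, sub_zero]
    · by_cases hjj : j = i0
      · subst hjj; exact hrow3 i hii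
      · rw [hg3' j i hjj, hg2, (hc1 i hi j hj).2, (hc1 i hi i0 (Ne.symm hii)).2, mul_zero, sub_zero]

include U in
lemma clear (m : ℕ) : ∀ (S : Finset (Fin n)) (g : GL (Fin n) E), n - S.card = m → Clr S g →
    ∃ g', Rel g g' ∧ Clr univ g' := by
  induction m with
  | zero =>
    intro S g hm hg
    have : S = univ := by
      apply Finset.eq_univ_of_card
      rw [Fintype.card_fin]
      have := S.card_le_univ
      rw [Fintype.card_fin] at this
      omega
    subst this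
    exact ⟨g, Rel.refl g, hg⟩
  | succ m ih =>
    intro S g hm hg
    have hS : S ≠ univ := by
      rintro rfl
      rw [Finset.card_univ, Fintype.card_fin] at hm
      omega
    obtain ⟨i0, hi0, g', ⟨k₁, h1, k₂, h2, k₃, h3, rfl⟩, hc⟩ := step S hS g hg
    obtain ⟨g'', hr, hcl⟩ := ih (insert i0 S) _ (by rw [Finset.card_insert_of_notMem hi0]; omega) hc
    refine ⟨g'', ?_, hcl⟩
    apply Rel.trans U (Rel.mul_right h2)
    apply Rel.trans U (Rel.mul_left h1)
    apply Rel.trans U (Rel.mul_right h3)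
    exact hr

/-- diagonal unit matrix -/
def du (u : Fin n → Eˣ) : GL (Fin n) E where
  val := Matrix.diagonal fun i => ((u i : Eˣ) : E)
  inv := Matrix.diagonal fun i => (((u i)⁻¹ : Eˣ) : E)
  val_inv := by rw [Matrix.diagonal_mul_diagonal, ← Matrix.diagonal_one]; simp
  inv_val := by rw [Matrix.diagonal_mul_diagonal, ← Matrix.diagonal_one]; simp

lemma du_mem (u : Fin n → Eˣ) (hu : ∀ i, ‖((u i : Eˣ) : E)‖ = 1) : du u ∈ KS E n := by
  refine ⟨fun i j => ?_, fun i j => ?_⟩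
  · show ‖Matrix.diagonal _ i j‖ ≤ 1
    rw [Matrix.diagonal_apply]
    split_ifs
    · exact (hu i).le
    · simp
  · show ‖Matrix.diagonal _ i j‖ ≤ 1
    rw [Matrix.diagonal_apply]
    split_ifs
    · rw [Units.val_inv_eq_inv_val, norm_inv, hu i, inv_one]
    · simp

lemma w_val : ((U.w : Eˣ) : E) = U.ϖ := rfl

lemma diag_case (g : GL (Fin n) E) (hg : Clr univ g) :
    ∃ L : Fin n → ℤ, Rel g (dg U.w L) := by
  have hne : ∀ i, g.val i i ≠ 0 := by
    intro i h0
    have h1 : (g.val * (g⁻¹).val) i i = 1 := by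
      rw [← Units.val_mul, mul_inv_cancel, Units.val_one, Matrix.one_apply_eq]
    rw [Matrix.mul_apply, Finset.sum_eq_zero] at h1
    · exact zero_ne_one h1
    · intro k _
      by_cases hk : k = i
      · rw [hk, h0, zero_mul]
      · rw [(hg i (mem_univ i) k hk).1, zero_mul]
  have hL : ∀ i, ∃ k : ℤ, ‖g.val i i‖ = ‖U.ϖ‖ ^ k := fun i => U.disc _ (hne i)
  choose L hL using hL
  refine ⟨L, ?_⟩
  let u : Fin n → Eˣ := fun i => Units.mk0 (g.val i i) (hne i) * (U.w ^ (L i))⁻¹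
  have hu : ∀ i, ‖((u i : Eˣ) : E)‖ = 1 := by
    intro i
    show ‖((Units.mk0 (g.val i i) (hne i) * (U.w ^ (L i))⁻¹ : Eˣ) : E)‖ = 1
    rw [Units.val_mul, norm_mul, Units.val_mk0, Units.val_inv_eq_inv_val, norm_inv,
      Units.val_zpow_eq_zpow_val, norm_zpow, w_val, hL i]
    exact mul_inv_cancel₀ (zpow_pos U.ϖpos _).ne'
  refine ⟨du u, du_mem u hu, 1, one_mem, ?_⟩
  rw [mul_one]
  apply Units.ext
  ext i j
  rw [Units.val_mul, show (du u : GL (Fin n) E).val = Matrix.diagonal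
    (fun i => ((u i : Eˣ) : E)) from rfl, Matrix.diagonal_mul, dg_val]
  by_cases hij : i = j
  · subst hij
    rw [if_pos rfl]
    show g.val i i = ((Units.mk0 (g.val i i) (hne i) * (U.w ^ (L i))⁻¹ : Eˣ) : E) *
      ((U.w ^ (L i) : Eˣ) : E)
    rw [← Units.val_mul, inv_mul_cancel_right, Units.val_mk0]
  · rw [if_neg hij, mul_zero]
    exact (hg i (mem_univ i) j (Ne.symm hij)).1

lemma sort_case (L : Fin n → ℤ) : ∃ L' : Fin n → ℤ, Antitone L' ∧
    Rel (dg U.w L : GL (Fin n) E) (dg U.w L') := by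
  let σ : Equiv.Perm (Fin n) := Fin.revPerm.trans (Tuple.sort L)
  refine ⟨fun i => L (σ i), ?_, (pm σ)⁻¹, inv_mem (pm_mem σ), pm σ, pm_mem σ, ?_⟩
  · intro i j hij
    exact Tuple.monotone_sort L (Fin.rev_le_rev.2 hij)
  · rw [← pm_conj]; group

end KSM

theorem specCartan : SpecCartan := by
  intro E _ U n g
  obtain ⟨g', h1, h2⟩ := KSM.clear U (n - (∅ : Finset (Fin n)).card) ∅ g rfl
    (by intro i hi; exact absurd hi (Finset.notMem_empty i))
  obtain ⟨L, h3⟩ := KSM.diag_case U g' h2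
  obtain ⟨L', hL', h4⟩ := KSM.sort_case U L
  obtain ⟨k₁, hk₁, k₂, hk₂, h⟩ := h1.trans U (h3.trans U h4)
  exact ⟨k₁, hk₁, k₂, hk₂, L', hL', h⟩

end MPtg
end

section
/-!
MP_3d2757_nt, module SDL: self-dual lattices.
-/
open Finset

namespace MPtg
namespace SdlM

open BoxM

variable {E : Type} [NormedField E] (U : Unr E) {V : Type} [AddCommGroup V] [Module E V]
  (h : SkF U V)

/-! ### the form -/

lemma add_right (a b c : V) : h.h a (b + c) = h.h a b + h.h a c := by
  rw [h.skew (b + c) a, h.add, map_add, neg_add, ← h.skew b a, ← h.skew c a]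

lemma smul_right (x : E) (a b : V) : h.h a (x • b) = U.σ x * h.h a b := by
  rw [h.skew (x • b) a, h.smul, map_mul, ← mul_neg, ← h.skew b a]

lemma zero_left (a : V) : h.h 0 a = 0 := by
  have := h.smul 0 0 a
  rwa [zero_smul, zero_mul] at this

lemma zero_right (a : V) : h.h a 0 = 0 := by
  rw [h.skew 0 a, zero_left, map_zero, neg_zero]

lemma neg_left (a b : V) : h.h (-a) b = - h.h a b := by
  rw [← neg_one_smul E a, h.smul, neg_one_mul]

lemma neg_right (a b : V) : h.h a (-b) = - h.h a b := by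
  rw [h.skew (-b) a, neg_left, map_neg, ← h.skew b a]

lemma sub_left (a b c : V) : h.h (a - b) c = h.h a c - h.h b c := by
  rw [sub_eq_add_neg, h.add, neg_left, sub_eq_add_neg]

lemma sub_right (a b c : V) : h.h a (b - c) = h.h a b - h.h a c := by
  rw [sub_eq_add_neg, add_right, neg_right, sub_eq_add_neg]

lemma sum_left {ι : Type*} (s : Finset ι) (f : ι → V) (a : V) :
    h.h (∑ i ∈ s, f i) a = ∑ i ∈ s, h.h (f i) a := by
  classical
  induction s using Finset.induction_on with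
  | empty => simp [zero_left]
  | insert i s hi ih => rw [sum_insert hi, sum_insert hi, h.add, ih]

lemma sum_right {ι : Type*} (s : Finset ι) (f : ι → V) (a : V) :
    h.h a (∑ i ∈ s, f i) = ∑ i ∈ s, h.h a (f i) := by
  classical
  induction s using Finset.induction_on with
  | empty => simp [zero_right]
  | insert i s hi ih => rw [sum_insert hi, sum_insert hi, add_right, ih]

lemma norm_comm (a b : V) : ‖h.h a b‖ = ‖h.h b a‖ := by
  rw [h.skew b a, norm_neg, U.σn]

/-! ### the ring of integers -/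

/-- ring of integers -/
def OO : Subring E where
  carrier := {x | ‖x‖ ≤ 1}
  mul_mem' := by
    intro a b ha hb
    simp only [Set.mem_ofPred_eq] at ha hb ⊢
    rw [norm_mul]
    exact mul_le_one₀ ha (norm_nonneg _) hb
  one_mem' := by simp
  add_mem' := by
    intro a b ha hb
    exact norm_add_le' U _ _ ha hb
  zero_mem' := by simp
  neg_mem' := by
    intro a ha
    simpa using ha

lemma mem_OO {x : E} : x ∈ OO U ↔ ‖x‖ ≤ 1 := Iff.rfl

include U in
lemma det_mem {k : ℕ} (A : Matrix (Fin k) (Fin k) E) (hA : ∀ i j, ‖A i j‖ ≤ 1) : ‖A.det‖ ≤ 1 := by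
  rw [← mem_OO U, Matrix.det_apply]
  refine Subring.sum_mem _ fun σ _ => ?_
  rw [Units.smul_def]
  exact Subring.zsmul_mem _ (Subring.prod_mem _ fun i _ => hA _ _) _

include U in
lemma adj_mem {k : ℕ} (A : Matrix (Fin k) (Fin k) E) (hA : ∀ i j, ‖A i j‖ ≤ 1) (i j : Fin k) :
    ‖A.adjugate i j‖ ≤ 1 := by
  rw [Matrix.adjugate_apply]
  apply det_mem U
  intro a b
  rw [Matrix.updateRow_apply]
  split_ifs with h1
  · rcases eq_or_ne b i with rfl | hb
    · simp
    · rw [Pi.single_eq_of_ne hb]; simp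
  · exact hA a b

/-! ### main facts -/

lemma mem_box0 {k : ℕ} {b : Fin k → V} {v : V} :
    v ∈ box U b 0 ↔ ∃ c : Fin k → E, (∀ i, ‖c i‖ ≤ 1) ∧ v = ∑ i, c i • b i := by
  constructor
  · rintro ⟨c, hc, rfl⟩
    exact ⟨c, fun i => by simpa using hc i, rfl⟩
  · rintro ⟨c, hc, rfl⟩
    exact ⟨c, fun i => by simpa using hc i, rfl⟩

/-- Gram matrix -/
noncomputable def gram {k : ℕ} (b : Fin k → V) : Matrix (Fin k) (Fin k) E :=
  Matrix.of fun i j => h.h (b i) (b j)

lemma gram_apply {k : ℕ} (b : Fin k → V) (i j : Fin k) : gram U h b i j = h.h (b i) (b j) := rfl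

lemma vecMul_gram {k : ℕ} (b : Fin k → V) (x : Fin k → E) (j : Fin k) :
    Matrix.vecMul x (gram U h b) j = h.h (∑ i, x i • b i) (b j) := by
  rw [sum_left]
  simp only [Matrix.vecMul, dotProduct, gram_apply, h.smul]

lemma SDB_li {k : ℕ} {b : Fin k → V} (hb : SDB U h b) : LinearIndependent E b := by
  rw [Fintype.linearIndependent_iff]
  intro x hx
  have hdet : (gram U h b).det ≠ 0 := by
    intro h0
    have := hb.2
    change ‖(gram U h b).det‖ = 1 at this
    rw [h0, norm_zero] at this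
    exact zero_ne_one this
  have : Matrix.vecMul x (gram U h b) = 0 := by
    funext j
    rw [vecMul_gram, hx, zero_left]; rfl
  have h0 := Matrix.eq_zero_of_vecMul_eq_zero hdet this
  intro i
  rw [h0]; rfl

lemma coeff_int {k : ℕ} {b : Fin k → V} (hb : SDB U h b) (x : Fin k → E)
    (hx : ∀ j, ‖h.h (∑ i, x i • b i) (b j)‖ ≤ 1) (i : Fin k) : ‖x i‖ ≤ 1 := by
  set G := gram U h b with hG
  have hdet : ‖G.det‖ = 1 := hb.2
  have e1 : Matrix.vecMul (Matrix.vecMul x G) G.adjugate = G.det • x := by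
    rw [Matrix.vecMul_vecMul, Matrix.mul_adjugate, Matrix.vecMul_smul, Matrix.vecMul_one]
  have e2 : ‖(Matrix.vecMul (Matrix.vecMul x G) G.adjugate) i‖ ≤ 1 := by
    rw [Matrix.vecMul, dotProduct]
    refine norm_sum_le' U _ _ zero_le_one fun j _ => ?_
    rw [norm_mul]
    refine mul_le_one₀ ?_ (norm_nonneg _) (adj_mem U G hb.1 j i)
    rw [hG, vecMul_gram]
    exact hx j
  rw [e1, Pi.smul_apply, smul_eq_mul, norm_mul, hdet, one_mul] at e2
  exact e2

lemma integral {k : ℕ} {b : Fin k → V} (hb : SDB U h b) {v w : V} (hv : v ∈ box U b 0)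
    (hw : w ∈ box U b 0) : ‖h.h v w‖ ≤ 1 := by
  rw [mem_box0] at hv hw
  obtain ⟨c, hc, rfl⟩ := hv
  obtain ⟨d, hd, rfl⟩ := hw
  rw [sum_left]
  refine norm_sum_le' U _ _ zero_le_one fun i _ => ?_
  rw [sum_right]
  refine norm_sum_le' U _ _ zero_le_one fun j _ => ?_
  rw [h.smul, smul_right, norm_mul, norm_mul, U.σn]
  exact mul_le_one₀ (hc i) (by positivity) (mul_le_one₀ (hd j) (norm_nonneg _) (hb.1 i j))

lemma basis_mem {k : ℕ} (b : Fin k → V) (i : Fin k) : b i ∈ box U b 0 := by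
  have := single_mem U b 0 i (x := 1) (by simp)
  rwa [one_smul] at this

lemma dual {k : ℕ} {b : Fin k → V} (hb : SDB U h b) {v : V}
    (hv : v ∈ Submodule.span E (box U b 0 : Set V)) (hw : ∀ w ∈ box U b 0, ‖h.h v w‖ ≤ 1) :
    v ∈ box U b 0 := by
  rw [span_box, Submodule.mem_span_range_iff_exists_fun] at hv
  obtain ⟨x, rfl⟩ := hv
  rw [mem_box0]
  exact ⟨x, fun i => coeff_int U h hb x (fun j => hw _ (basis_mem U b j)) i, rfl⟩

/-- Gram matrix of a transformed family -/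
lemma gram_trans {k : ℕ} (b b' : Fin k → V) (P : Matrix (Fin k) (Fin k) E)
    (hP : ∀ i, b i = ∑ j, P i j • b' j) :
    gram U h b = P * gram U h b' * (P.map U.σ).transpose := by
  ext i j
  rw [gram_apply, hP i, hP j, Matrix.mul_apply, sum_right]
  refine sum_congr rfl fun l _ => ?_
  rw [smul_right, Matrix.transpose_apply, Matrix.map_apply, mul_comm]
  congr 1
  rw [sum_left, Matrix.mul_apply]
  refine sum_congr rfl fun m _ => ?_
  rw [h.smul]; rfl

lemma SDB_of_box {k : ℕ} {b b' : Fin k → V} (hb' : SDB U h b') (hb : LinearIndependent E b)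
    (hbox : box U b' 0 = box U b 0) : SDB U h b := by
  have h1 : ∀ i, ∃ P : Fin k → E, (∀ j, ‖P j‖ ≤ 1) ∧ b i = ∑ j, P j • b' j := fun i => by
    have := basis_mem U b i
    rw [← hbox, mem_box0] at this
    exact this
  have h2 : ∀ i, ∃ P : Fin k → E, (∀ j, ‖P j‖ ≤ 1) ∧ b' i = ∑ j, P j • b j := fun i => by
    have := basis_mem U b' i
    rw [hbox, mem_box0] at this
    exact this
  choose P hP1 hP2 using h1
  choose Q hQ1 hQ2 using h2
  have hPQ : (Matrix.of P) * (Matrix.of Q) = 1 := by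
    ext i j
    have e : ∑ l, (∑ m, P i m * Q m l) • b l = ∑ l, (Pi.single i (1 : E) : Fin k → E) l • b l := by
      have e1 : ∑ l, (Pi.single i (1 : E) : Fin k → E) l • b l = b i := by
        rw [Finset.sum_eq_single i]
        · simp
        · intro j _ h; rw [Pi.single_eq_of_ne h, zero_smul]
        · simp
      rw [e1]
      simp only [sum_smul]
      rw [sum_comm]
      conv_rhs => rw [hP2 i]
      refine sum_congr rfl fun m _ => ?_
      rw [hQ2 m, smul_sum]
      simp only [mul_smul]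
    have := congrFun (coeff_eq hb e) j
    rw [Matrix.mul_apply]
    simp only [Matrix.of_apply]
    rw [this, Matrix.one_apply, Pi.single_apply]
    simp only [eq_comm]
  refine ⟨fun i j => ?_, ?_⟩
  · apply integral U h hb' <;> rw [hbox] <;> exact basis_mem U b _
  · change ‖(gram U h b).det‖ = 1
    rw [gram_trans U h b b' (Matrix.of P) hP2, Matrix.det_mul, Matrix.det_mul,
      Matrix.det_transpose]
    have d1 : ‖(Matrix.of P).det‖ = 1 := by
      have e1 := det_mem U (Matrix.of P) hP1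
      have e2 := det_mem U (Matrix.of Q) hQ1
      have e3 := congrArg (fun A => ‖Matrix.det A‖) hPQ
      simp only [Matrix.det_mul, Matrix.det_one, norm_mul, norm_one] at e3
      nlinarith [norm_nonneg (Matrix.of P).det, norm_nonneg (Matrix.of Q).det]
    have d2 : ‖((Matrix.of P).map U.σ).det‖ = 1 := by
      have : ((Matrix.of P).map U.σ).det = U.σ (Matrix.of P).det := by
        rw [RingEquiv.map_det]; rfl
      rw [this, U.σn, d1]
    have d3 : ‖(gram U h b').det‖ = 1 := hb'.2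
    rw [norm_mul, norm_mul, d1, d2, d3]
    norm_num

lemma exists_unit {k : ℕ} {b : Fin k → V} (hb : SDB U h b) {v : V}
    (hv : v ∈ Prim U (box U b 0)) : ∃ w ∈ box U b 0, ‖h.h v w‖ = 1 := by
  by_contra hcon
  push Not at hcon
  have h1 : ∀ w ∈ box U b 0, ‖h.h v w‖ ≤ ‖U.ϖ‖ := fun w hw =>
    lt_one U (lt_of_le_of_ne (integral U h hb hv.1 hw) (hcon w hw))
  have h2 : U.ϖ⁻¹ • v ∈ box U b 0 := by
    apply dual U h hb
    · exact Submodule.smul_mem _ _ (Submodule.subset_span hv.1)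
    · intro w hw
      rw [h.smul, norm_mul, norm_inv, inv_mul_le_iff₀ U.ϖpos, mul_one]
      exact h1 w hw
  apply hv.2 _ h2
  rw [← mul_smul, mul_inv_cancel₀ (w0 U), one_smul]

lemma exists_one {k : ℕ} {b : Fin k → V} (hb : SDB U h b) {v : V}
    (hv : v ∈ Prim U (box U b 0)) : ∃ w ∈ box U b 0, h.h v w = 1 := by
  obtain ⟨w, hw, hn⟩ := exists_unit U h hb hv
  have hne : h.h v w ≠ 0 := by
    intro h0; rw [h0, norm_zero] at hn; exact zero_ne_one hn
  refine ⟨(U.σ (h.h v w))⁻¹ • w, smul_mem U ?_ hw, ?_⟩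
  · rw [norm_inv, U.σn, hn, inv_one]
  · rw [smul_right, map_inv₀, U.σσ, inv_mul_cancel₀ hne]

end SdlM

open SdlM in
/-- module SDL -/
theorem specSdl : SpecSdl := by
  intro E _ U V _ _ h k M hM
  obtain ⟨b, hb, rfl⟩ := hM
  exact ⟨fun v hv w hw => integral U h hb hv hw, fun v hv hw => dual U h hb hv hw,
    fun b' hb' => SDB_li U h hb', fun b' hb' he => SDB_of_box U h hb hb' he,
    fun v hv => exists_one U h hb hv⟩

end MPtg
end

section
/-!
MP_3d2757_nt, modules PLANE and SPLIT.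
-/
open Finset

namespace MPtg
namespace PlaneM

open BoxM SdlM

variable {E : Type} [NormedField E] (U : Unr E) {V : Type} [AddCommGroup V] [Module E V]
  (h : SkF U V)

lemma hb_zero {α : Type} {k : ℕ} (f e : α) (b : Fin k → α) : hb f e b 0 = f := rfl

lemma hb_last {α : Type} {k : ℕ} (f e : α) (b : Fin k → α) :
    hb f e b (Fin.last (k + 1)) = e := by
  have : (Fin.last (k + 1) : Fin (k + 2)) = (Fin.last k).succ := rfl
  rw [this, hb, Fin.cons_succ, Fin.snoc_last]

lemma hb_mid {α : Type} {k : ℕ} (f e : α) (b : Fin k → α) (i : Fin k) :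
    hb f e b i.castSucc.succ = b i := by
  rw [hb, Fin.cons_succ, Fin.snoc_castSucc]

lemma sum_hb {k : ℕ} (g : Fin (k + 2) → V) :
    ∑ i, g i = g 0 + (∑ j : Fin k, g j.castSucc.succ) + g (Fin.last (k + 1)) := by
  rw [Fin.sum_univ_succ, Fin.sum_univ_castSucc, ← add_assoc]
  rfl

lemma sum_smul_hb {k : ℕ} (c : Fin (k + 2) → E) (f e : V) (b : Fin k → V) :
    ∑ i, c i • hb f e b i =
      c 0 • f + (∑ j : Fin k, c j.castSucc.succ • b j) + c (Fin.last (k + 1)) • e := by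
  rw [sum_hb, hb_zero, hb_last]
  simp only [hb_mid]

lemma forall_hb {k : ℕ} {P : Fin (k + 2) → Prop} :
    (∀ i, P i) ↔ P 0 ∧ (∀ j : Fin k, P j.castSucc.succ) ∧ P (Fin.last (k + 1)) := by
  constructor
  · exact fun h => ⟨h _, fun j => h _, h _⟩
  · rintro ⟨h0, h1, h2⟩ i
    refine Fin.cases h0 (fun j => ?_) i
    refine Fin.lastCases h2 (fun l => h1 l) j

/-- membership in a box with a hyperbolic plane -/
lemma mem_hb {k : ℕ} (b : Fin k → V) (e f : V) (a : ℤ) (L : Fin k → ℤ) (v : V) :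
    v ∈ box U (hb f e b) (ha a L) ↔ ∃ (x y : E) (w : V), ‖x‖ ≤ ‖U.ϖ‖ ^ (-a) ∧
      ‖y‖ ≤ ‖U.ϖ‖ ^ a ∧ w ∈ box U b L ∧ v = x • e + y • f + w := by
  constructor
  · rintro ⟨c, hc, rfl⟩
    rw [forall_hb] at hc
    obtain ⟨h0, h1, h2⟩ := hc
    refine ⟨c (Fin.last (k + 1)), c 0, ∑ j : Fin k, c j.castSucc.succ • b j, ?_, ?_,
      ⟨_, fun i => ?_, rfl⟩, ?_⟩
    · rwa [ha, hb_last] at h2
    · rwa [ha, hb_zero] at h0
    · have := h1 i
      rwa [ha, hb_mid] at this
    · rw [sum_smul_hb]; abel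
  · rintro ⟨x, y, w, hx, hy, ⟨c, hc, rfl⟩, rfl⟩
    refine ⟨hb y x c, ?_, ?_⟩
    · rw [forall_hb]
      refine ⟨?_, fun i => ?_, ?_⟩
      · rw [ha, hb_zero, hb_zero]; exact hy
      · rw [ha, hb_mid, hb_mid]; exact hc i
      · rw [ha, hb_last, hb_last]; exact hx
    · rw [sum_smul_hb, hb_zero, hb_last]
      simp only [hb_mid]
      abel

section
variable {U h} {k : ℕ} {b : Fin k → V} {e f : V}
  (hbe : ∀ i, h.h (b i) e = 0 ∧ h.h (b i) f = 0) (he : h.h e e = 0) (hf : h.h f f = 0)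
  (hef : h.h e f = 1)
include hbe he hf hef

omit hbe he hf in
lemma fe : h.h f e = -1 := by rw [h.skew e f, hef, map_one]

omit he hf hef in
lemma ort (c : Fin k → E) : h.h (∑ i, c i • b i) e = 0 ∧ h.h (∑ i, c i • b i) f = 0 := by
  constructor
  · rw [sum_left]
    exact sum_eq_zero fun i _ => by rw [h.smul, (hbe i).1, mul_zero]
  · rw [sum_left]
    exact sum_eq_zero fun i _ => by rw [h.smul, (hbe i).2, mul_zero]

lemma pair_e (x y : E) (c : Fin k → E) : h.h (x • e + y • f + ∑ i, c i • b i) e = -y := by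
  rw [h.add, h.add, h.smul, h.smul, he, fe hef, (ort hbe c).1]
  ring

lemma pair_f (x y : E) (c : Fin k → E) : h.h (x • e + y • f + ∑ i, c i • b i) f = x := by
  rw [h.add, h.add, h.smul, h.smul, hf, hef, (ort hbe c).2]
  ring

lemma li (hb0 : LinearIndependent E b) : LinearIndependent E (hb f e b) := by
  rw [Fintype.linearIndependent_iff]
  intro c hc
  rw [sum_smul_hb] at hc
  have hc' : c (Fin.last (k + 1)) • e + c 0 • f + ∑ j : Fin k, c j.castSucc.succ • b j = 0 := by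
    rw [← hc]; abel
  have h1 := pair_e hbe he hf hef (c (Fin.last (k + 1))) (c 0) (fun j => c j.castSucc.succ)
  have h2 := pair_f hbe he hf hef (c (Fin.last (k + 1))) (c 0) (fun j => c j.castSucc.succ)
  rw [hc', zero_left] at h1 h2
  have h3 : c 0 = 0 := by
    have := h1.symm
    rwa [neg_eq_zero] at this
  rw [h3, ← h2, zero_smul, zero_smul, zero_add, zero_add] at hc'
  have h4 := Fintype.linearIndependent_iff.1 hb0 _ hc'
  rw [forall_hb]
  exact ⟨h3, h4, h2.symm⟩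

variable (U) in
/-- the norm of the Gram determinant -/
lemma norm_det : ‖(gram U h (hb f e b)).det‖ = ‖(gram U h b).det‖ := by
  set A := gram U h (hb f e b) with hA
  have hfe := fe hef
  have hb1 : ∀ j, h.h f (b j) = 0 := fun j => by
    rw [h.skew (b j) f, (hbe j).2, map_zero, neg_zero]
  have hb2 : ∀ j, h.h e (b j) = 0 := fun j => by
    rw [h.skew (b j) e, (hbe j).1, map_zero, neg_zero]
  have e1 : A.det = (-1) ^ (k + 1) * (-1) * (A.submatrix Fin.succ Fin.castSucc).det := by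
    rw [Matrix.det_succ_row_zero, Fin.sum_univ_succ, Fin.sum_univ_castSucc]
    have z0 : A 0 0 = 0 := by rw [hA, gram_apply, hb_zero, hf]
    have z1 : ∀ j : Fin k, A 0 j.castSucc.succ = 0 := fun j => by
      rw [hA, gram_apply, hb_zero, hb_mid, hb1]
    have z2 : A 0 (Fin.last k).succ = -1 := by
      change A 0 (Fin.last (k + 1)) = -1
      rw [hA, gram_apply, hb_zero, hb_last, hfe]
    rw [z0, z2]
    simp only [z1, mul_zero, zero_mul, sum_const_zero, zero_add]
    congr 2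
    ext i j
    simp only [Matrix.submatrix_apply]
    congr 1
    have : (Fin.last k).succ = Fin.last (k + 1) := rfl
    rw [this, Fin.succAbove_last]
  have e2 : (A.submatrix Fin.succ Fin.castSucc).det =
      (-1) ^ k * (gram U h b).det := by
    rw [Matrix.det_succ_row _ (Fin.last k), Fin.sum_univ_succ]
    have z0 : (A.submatrix Fin.succ Fin.castSucc) (Fin.last k) 0 = 1 := by
      change A (Fin.last (k + 1)) 0 = 1
      rw [hA, gram_apply, hb_zero, hb_last, hef]
    have z1 : ∀ j : Fin k, (A.submatrix Fin.succ Fin.castSucc) (Fin.last k) j.succ = 0 := by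
      intro j
      change A (Fin.last (k + 1)) j.succ.castSucc = 0
      have : j.succ.castSucc = j.castSucc.succ := rfl
      rw [this, hA, gram_apply, hb_last, hb_mid, hb2]
    rw [z0]
    simp only [z1, mul_zero, zero_mul, sum_const_zero, add_zero, mul_one]
    have z2 : ((A.submatrix Fin.succ Fin.castSucc).submatrix (Fin.last k).succAbove
        (Fin.succAbove 0)) = gram U h b := by
      ext i j
      simp only [Matrix.submatrix_apply, Fin.succAbove_last, Fin.succAbove_zero]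
      have : j.succ.castSucc = j.castSucc.succ := rfl
      rw [this, hA, gram_apply, hb_mid, hb_mid, gram_apply]
    rw [z2]
    simp
  rw [e1, e2, norm_mul, norm_mul, norm_mul, norm_pow, norm_pow, norm_neg, norm_one, one_pow,
    one_pow]
  ring

variable (U) in
lemma sdb_iff : SDB U h b ↔ SDB U h (hb f e b) := by
  have hfe := fe hef
  have hb1 : ∀ j, h.h f (b j) = 0 := fun j => by
    rw [h.skew (b j) f, (hbe j).2, map_zero, neg_zero]
  have hb2 : ∀ j, h.h e (b j) = 0 := fun j => by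
    rw [h.skew (b j) e, (hbe j).1, map_zero, neg_zero]
  have hdet := norm_det U hbe he hf hef
  constructor
  · rintro ⟨h1, h2⟩
    refine ⟨?_, ?_⟩
    · rw [forall_hb]
      refine ⟨?_, fun i => ?_, ?_⟩ <;> rw [forall_hb]
      · refine ⟨?_, fun j => ?_, ?_⟩
        · rw [hb_zero, hf]; simp
        · rw [hb_zero, hb_mid, hb1]; simp
        · rw [hb_zero, hb_last, hfe]; simp
      · refine ⟨?_, fun j => ?_, ?_⟩
        · rw [hb_zero, hb_mid, (hbe i).2]; simp
        · rw [hb_mid, hb_mid]; exact h1 i j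
        · rw [hb_mid, hb_last, (hbe i).1]; simp
      · refine ⟨?_, fun j => ?_, ?_⟩
        · rw [hb_zero, hb_last, hef]; simp
        · rw [hb_last, hb_mid, hb2]; simp
        · rw [hb_last, he]; simp
    · exact hdet.trans h2
  · rintro ⟨h1, h2⟩
    refine ⟨fun i j => ?_, hdet.symm.trans h2⟩
    have := h1 i.castSucc.succ j.castSucc.succ
    rwa [hb_mid, hb_mid] at this

end

end PlaneM

open BoxM SdlM PlaneM in
/-- module PLANE -/
theorem specPlane : SpecPlane := by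
  intro E _ U V _ _ h k b e f hb0 hbe he hf hef
  refine ⟨li hbe he hf hef hb0, sdb_iff U hbe he hf hef, fun a L v => mem_hb U b e f a L v,
    fun a L v => ?_, fun a L => ?_, fun L L' c hbc a => ?_⟩
  · constructor
    · intro hv
      refine ⟨(mem_hb U b e f a L v).2 ⟨0, 0, v, ?_, ?_, hv, by simp⟩, ?_⟩
      · rw [norm_zero]; exact (npos U _).le
      · rw [norm_zero]; exact (npos U _).le
      · obtain ⟨c, -, rfl⟩ := hv
        exact ort hbe c
    · rintro ⟨hv, h1, h2⟩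
      obtain ⟨x, y, w, -, -, hw, rfl⟩ := (mem_hb U b e f a L v).1 hv
      obtain ⟨c, hc, rfl⟩ := hw
      rw [pair_e hbe he hf hef, neg_eq_zero] at h1
      rw [pair_f hbe he hf hef] at h2
      rw [h1, h2, zero_smul, zero_smul, zero_add, zero_add]
      exact ⟨c, hc, rfl⟩
  · ext v
    rw [mem_hb, mem_hb]
    constructor
    · rintro ⟨x, y, w, hx, hy, hw, rfl⟩
      rw [neg_zero, zpow_zero] at hx
      rw [zpow_zero] at hy
      refine ⟨x * U.ϖ ^ (-a), y * U.ϖ ^ a, w, ?_, ?_, hw, by rw [mul_smul, mul_smul]⟩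
      · rw [norm_mul, norm_zpow']
        calc ‖x‖ * _ ≤ 1 * ‖U.ϖ‖ ^ (-a) := mul_le_mul_of_nonneg_right hx (npos U _).le
          _ = _ := one_mul _
      · rw [norm_mul, norm_zpow']
        calc ‖y‖ * _ ≤ 1 * ‖U.ϖ‖ ^ a := mul_le_mul_of_nonneg_right hy (npos U _).le
          _ = _ := one_mul _
    · rintro ⟨x, y, w, hx, hy, hw, rfl⟩
      refine ⟨x * U.ϖ ^ a, y * U.ϖ ^ (-a), w, ?_, ?_, hw, ?_⟩
      · rw [norm_mul, norm_zpow', neg_zero, zpow_zero]
        calc ‖x‖ * _ ≤ ‖U.ϖ‖ ^ (-a) * ‖U.ϖ‖ ^ a := mul_le_mul_of_nonneg_right hx (npos U _).le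
          _ = 1 := by rw [← zpow_add₀ U.ϖpos.ne', neg_add_cancel, zpow_zero]
      · rw [norm_mul, norm_zpow', zpow_zero]
        calc ‖y‖ * _ ≤ ‖U.ϖ‖ ^ a * ‖U.ϖ‖ ^ (-a) := mul_le_mul_of_nonneg_right hy (npos U _).le
          _ = 1 := by rw [← zpow_add₀ U.ϖpos.ne', add_neg_cancel, zpow_zero]
      · rw [← mul_smul, ← mul_smul, mul_assoc, mul_assoc, ← zpow_add₀ (w0 U),
          ← zpow_add₀ (w0 U), neg_add_cancel, add_neg_cancel, zpow_zero, mul_one, mul_one]
  · ext v
    rw [mem_hb, mem_hb]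
    simp only [hbc]

namespace PlaneM

open BoxM SdlM

variable {E : Type} [NormedField E] (U : Unr E) {V : Type} [AddCommGroup V] [Module E V]

lemma box_reindex {k : ℕ} (b : Fin k → V) (L : Fin k → ℤ) (π : Equiv.Perm (Fin k)) :
    box U (b ∘ π) (L ∘ π) = box U b L := by
  ext v
  constructor
  · rintro ⟨c, hc, rfl⟩
    refine ⟨c ∘ π.symm, fun i => ?_, ?_⟩
    · have := hc (π.symm i)
      simpa using this
    · rw [← Equiv.sum_comp π (fun i => (c ∘ π.symm) i • b i)]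
      simp
  · rintro ⟨c, hc, rfl⟩
    refine ⟨c ∘ π, fun i => hc (π i), ?_⟩
    rw [← Equiv.sum_comp π (fun i => c i • b i)]
    rfl

lemma exists_perm {k : ℕ} (i₀ i₁ : Fin (k + 2)) (hne : i₀ ≠ i₁) :
    ∃ π : Equiv.Perm (Fin (k + 2)), π 0 = i₁ ∧ π (Fin.last (k + 1)) = i₀ := by
  set s := Equiv.swap (0 : Fin (k + 2)) i₁ with hs
  set j := s.symm i₀ with hj
  have hs0 : s 0 = i₁ := Equiv.swap_apply_left _ _
  have hj0 : (0 : Fin (k + 2)) ≠ j := by
    intro h0
    apply hne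
    rw [← hs0, h0, hj, Equiv.apply_symm_apply]
  have hl : (0 : Fin (k + 2)) ≠ Fin.last (k + 1) := by
    rw [Ne, Fin.ext_iff]; simp
  refine ⟨(Equiv.swap (Fin.last (k + 1)) j).trans s, ?_, ?_⟩
  · rw [Equiv.trans_apply, Equiv.swap_apply_of_ne_of_ne hl hj0, hs0]
  · rw [Equiv.trans_apply, Equiv.swap_apply_left, hj, Equiv.apply_symm_apply]

lemma eq_hb {α : Type} {k : ℕ} (b : Fin (k + 2) → α) :
    b = hb (b 0) (b (Fin.last (k + 1))) (fun j => b j.castSucc.succ) := by
  funext i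
  revert i
  rw [forall_hb]
  exact ⟨rfl, fun j => by rw [hb_mid], by rw [hb_last]⟩

/-- a primitive vector of a lattice which is part of a pair with `h e f = 1` -/
lemma exists_unit_coeff (h : SkF U V) {k : ℕ} {b : Fin k → V} (hb : SDB U h b) {e f : V}
    {c : Fin k → E} (hc : ∀ i, ‖c i‖ ≤ 1) (he : e = ∑ i, c i • b i) (hf : f ∈ box U b 0)
    (hef : h.h e f = 1) : ∃ i, ‖c i‖ = 1 := by
  by_contra hcon
  push Not at hcon
  have : ‖h.h e f‖ ≤ ‖U.ϖ‖ := by
    rw [he, sum_left]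
    refine norm_sum_le' U _ _ U.ϖpos.le fun i _ => ?_
    rw [h.smul, norm_mul]
    calc ‖c i‖ * _ ≤ ‖U.ϖ‖ * 1 := mul_le_mul (lt_one U (lt_of_le_of_ne (hc i) (hcon i)))
          (integral U h hb (basis_mem U b i) hf) (norm_nonneg _) U.ϖpos.le
      _ = _ := mul_one _
  rw [hef, norm_one] at this
  exact absurd this (not_le.2 U.ϖlt)

end PlaneM

open BoxM SdlM PlaneM in
/-- module SPLIT -/
theorem specSplit : SpecSplit := by
  intro E _ U V _ _ h k M hM e heM f hfM he hf hef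
  obtain ⟨b, hb, rfl⟩ := hM
  have hfe : h.h f e = -1 := by rw [h.skew e f, hef, map_one]
  -- first exchange
  obtain ⟨c, hc, hce⟩ := (mem_box0 U).1 heM
  obtain ⟨i₀, hi₀⟩ := exists_unit_coeff U h hb hc hce hfM hef
  obtain ⟨hli1, hbox1⟩ := exchange U b e i₀ c (SDB_li U h hb) hce hc hi₀
  set b1 := Function.update b i₀ e with hb1
  have hS1 : SDB U h b1 := SDB_of_box U h hb hli1 hbox1.symm
  have hb1i : b1 i₀ = e := Function.update_self _ _ _
  -- second exchange
  rw [← hbox1] at hfM heM ⊢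
  obtain ⟨d, hd, hdf⟩ := (mem_box0 U).1 hfM
  have : ∃ i₁, i₁ ≠ i₀ ∧ ‖d i₁‖ = 1 := by
    by_contra hcon
    push Not at hcon
    have h1 : ‖h.h f e‖ ≤ ‖U.ϖ‖ := by
      rw [hdf, sum_left]
      refine norm_sum_le' U _ _ U.ϖpos.le fun i _ => ?_
      rw [h.smul, norm_mul]
      rcases eq_or_ne i i₀ with rfl | hi
      · rw [hb1i, he, norm_zero, mul_zero]; exact U.ϖpos.le
      · calc ‖d i‖ * _ ≤ ‖U.ϖ‖ * 1 := mul_le_mul (lt_one U (lt_of_le_of_ne (hd i) (hcon i hi)))
              (integral U h hS1 (basis_mem U b1 i) heM) (norm_nonneg _) U.ϖpos.le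
          _ = _ := mul_one _
    rw [hfe, norm_neg, norm_one] at h1
    exact absurd h1 (not_le.2 U.ϖlt)
  obtain ⟨i₁, hi10, hi₁⟩ := this
  obtain ⟨hli2, hbox2⟩ := exchange U b1 f i₁ d hli1 hdf hd hi₁
  set b2 := Function.update b1 i₁ f with hb2
  have hb2e : b2 i₀ = e := by rw [hb2, Function.update_of_ne hi10.symm, hb1i]
  have hb2f : b2 i₁ = f := Function.update_self _ _ _
  rw [← hbox2] at hfM heM ⊢
  -- dimension at least two
  obtain ⟨k', rfl⟩ : ∃ k', k = k' + 2 := by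
    have h1 := i₀.isLt
    have h2 := i₁.isLt
    have h3 : (i₀ : ℕ) ≠ i₁ := fun h => hi10 (Fin.ext h.symm)
    exact ⟨k - 2, by omega⟩
  refine ⟨k', rfl, ?_⟩
  obtain ⟨π, hπ0, hπl⟩ := exists_perm i₀ i₁ hi10.symm
  set b3 := b2 ∘ π with hb3
  have hli3 : LinearIndependent E b3 := hli2.comp _ π.injective
  have hbox3 : box U b3 0 = box U b2 0 := by
    have := box_reindex U b2 0 π
    exact this
  have h30 : b3 0 = f := by rw [hb3, Function.comp_apply, hπ0, hb2f]
  have h3l : b3 (Fin.last (k' + 1)) = e := by rw [hb3, Function.comp_apply, hπl, hb2e]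
  set b4 : Fin k' → V := fun j => b3 j.castSucc.succ with hb4
  have h34 : b3 = MPtg.hb f e b4 := by
    rw [eq_hb b3, h30, h3l]
  set b5 : Fin k' → V := fun j => b4 j - h.h (b4 j) f • e + h.h (b4 j) e • f with hb5
  have hort : ∀ i, h.h (b5 i) e = 0 ∧ h.h (b5 i) f = 0 := by
    intro i
    constructor
    · rw [hb5]
      simp only [h.add, sub_left, h.smul, he, hfe]
      ring
    · rw [hb5]
      simp only [h.add, sub_left, h.smul, hf, hef]
      ring
  have hS3 : SDB U h b3 := by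
    refine SDB_of_box U h hb hli3 ?_
    rw [hbox3, hbox2, hbox1]
  have hM3 : ∀ i, ‖h.h (b4 i) e‖ ≤ 1 ∧ ‖h.h (b4 i) f‖ ≤ 1 := by
    intro i
    rw [← hbox3] at hfM heM
    exact ⟨integral U h hS3 (basis_mem U b3 _) heM, integral U h hS3 (basis_mem U b3 _) hfM⟩
  have hsum : ∀ c : Fin k' → E, ∑ j, c j • b5 j =
      ∑ j, c j • b4 j - (∑ j, c j * h.h (b4 j) f) • e + (∑ j, c j * h.h (b4 j) e) • f := by
    intro c
    rw [hb5]
    simp only [smul_add, smul_sub, sum_add_distrib, sum_sub_distrib, sum_smul, mul_smul]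
  have hli5 : LinearIndependent E b5 := by
    rw [Fintype.linearIndependent_iff]
    intro c hc0
    rw [hsum] at hc0
    have h1 : ∑ i, (MPtg.hb (∑ j, c j * h.h (b4 j) e) (-(∑ j, c j * h.h (b4 j) f)) c) i • b3 i
        = 0 := by
      rw [h34, sum_smul_hb, hb_zero, hb_last]
      simp only [hb_mid]
      rw [← hc0, neg_smul]
      abel
    have h2 := Fintype.linearIndependent_iff.1 hli3 _ h1
    intro i
    have := h2 i.castSucc.succ
    rwa [hb_mid] at this
  have hbox5 : box U (MPtg.hb f e b5) 0 = box U b3 0 := by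
    rw [h34]
    have hL : (0 : Fin (k' + 2) → ℤ) = ha 0 (0 : Fin k' → ℤ) := by
      funext i; revert i
      rw [forall_hb]
      refine ⟨?_, fun j => ?_, ?_⟩
      · rw [ha, hb_zero]; rfl
      · rw [ha, hb_mid]; rfl
      · rw [ha, hb_last]; rfl
    rw [hL]
    ext v
    rw [mem_hb, mem_hb]
    simp only [neg_zero, zpow_zero]
    constructor
    · rintro ⟨x, y, w, hx, hy, hw, rfl⟩
      obtain ⟨c, hc, rfl⟩ := (mem_box0 U).1 hw
      refine ⟨x - ∑ j, c j * h.h (b4 j) f, y + ∑ j, c j * h.h (b4 j) e, ∑ j, c j • b4 j, ?_, ?_,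
        (mem_box0 U).2 ⟨c, hc, rfl⟩, ?_⟩
      · refine norm_sub_le' U _ _ hx (norm_sum_le' U _ _ zero_le_one fun j _ => ?_)
        rw [norm_mul]; exact mul_le_one₀ (hc j) (norm_nonneg _) (hM3 j).2
      · refine norm_add_le' U _ _ hy (norm_sum_le' U _ _ zero_le_one fun j _ => ?_)
        rw [norm_mul]; exact mul_le_one₀ (hc j) (norm_nonneg _) (hM3 j).1
      · rw [hsum, sub_smul, add_smul]; abel
    · rintro ⟨x, y, w, hx, hy, hw, rfl⟩
      obtain ⟨c, hc, rfl⟩ := (mem_box0 U).1 hw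
      refine ⟨x + ∑ j, c j * h.h (b4 j) f, y - ∑ j, c j * h.h (b4 j) e, ∑ j, c j • b5 j, ?_, ?_,
        (mem_box0 U).2 ⟨c, hc, rfl⟩, ?_⟩
      · refine norm_add_le' U _ _ hx (norm_sum_le' U _ _ zero_le_one fun j _ => ?_)
        rw [norm_mul]; exact mul_le_one₀ (hc j) (norm_nonneg _) (hM3 j).2
      · refine norm_sub_le' U _ _ hy (norm_sum_le' U _ _ zero_le_one fun j _ => ?_)
        rw [norm_mul]; exact mul_le_one₀ (hc j) (norm_nonneg _) (hM3 j).1
      · rw [hsum, sub_smul, add_smul]; abel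
  have hli6 := li hort he hf hef hli5
  have hS6 : SDB U h (MPtg.hb f e b5) := SDB_of_box U h hS3 hli6 hbox5.symm
  exact ⟨b5, (sdb_iff U hort he hf hef).2 hS6, hort, by rw [hbox5, hbox3]⟩

end MPtg
end

section
/-!
MP_3d2757_nt, modules HYP and TRANS.
-/
open Finset

namespace MPtg
namespace HypM

open BoxM SdlM PlaneM

variable {E : Type} [NormedField E] (U : Unr E) {V : Type} [AddCommGroup V] [Module E V]
  (h : SkF U V)

lemma σ_zpow (a : ℤ) : U.σ (U.ϖ ^ a) = U.ϖ ^ a := by rw [map_zpow₀, U.σϖ]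

lemma ha_zero_zero {k : ℕ} : ha 0 (0 : Fin k → ℤ) = 0 := by
  funext i; revert i
  rw [forall_hb]
  refine ⟨?_, fun j => ?_, ?_⟩
  · rw [ha, hb_zero]; rfl
  · rw [ha, hb_mid]; rfl
  · rw [ha, hb_last]; rfl

lemma rev_mid {k : ℕ} (j : Fin k) :
    Fin.rev (j.castSucc.succ) = (Fin.rev j).castSucc.succ := by
  rw [Fin.ext_iff, Fin.val_rev, Fin.val_succ, Fin.val_succ, Fin.val_castSucc, Fin.val_castSucc,
    Fin.val_rev]
  omega

lemma rev_zero' {k : ℕ} : Fin.rev (0 : Fin (k + 2)) = Fin.last (k + 1) := by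
  rw [Fin.ext_iff, Fin.val_rev]; simp

lemma rev_last' {k : ℕ} : Fin.rev (Fin.last (k + 1)) = (0 : Fin (k + 2)) := by
  rw [← rev_zero', Fin.rev_rev]

lemma sym_ha {k : ℕ} {a : ℤ} {Λ : Fin k → ℤ} (hΛ : Sym Λ) (ha0 : 0 ≤ a) (hle : ∀ i, Λ i ≤ a) :
    Sym (ha a Λ) := by
  have hge : ∀ i, -a ≤ Λ i := fun i => by
    have := hle (Fin.rev i); rw [hΛ.2] at this; linarith
  constructor
  · intro i
    revert i
    rw [forall_hb]
    refine ⟨?_, fun i => ?_, ?_⟩ <;> intro j <;> revert j <;> rw [forall_hb]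
    · refine ⟨fun _ => le_refl _, fun j _ => ?_, fun _ => ?_⟩
      · rw [ha, hb_zero, hb_mid]; exact hle j
      · rw [ha, hb_zero, hb_last]; linarith
    · refine ⟨fun hlt => ?_, fun j hij => ?_, fun _ => ?_⟩
      · exfalso
        rw [Fin.le_def, Fin.val_succ] at hlt
        simp at hlt
      · rw [ha, hb_mid, hb_mid]
        apply hΛ.1
        rw [Fin.le_def] at hij ⊢
        simpa using hij
      · rw [ha, hb_mid, hb_last]; exact hge i
    · refine ⟨fun hlt => ?_, fun j hij => ?_, fun _ => le_refl _⟩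
      · exfalso
        rw [Fin.le_def, Fin.val_last] at hlt
        simp at hlt
      · exfalso
        rw [Fin.le_def, Fin.val_last, Fin.val_succ, Fin.val_castSucc] at hij
        have := j.isLt
        omega
  · rw [forall_hb]
    refine ⟨?_, fun j => ?_, ?_⟩
    · rw [rev_zero', ha, hb_last, hb_zero]
    · rw [rev_mid, ha, hb_mid, hb_mid, hΛ.2]
    · rw [rev_last', ha, hb_last, hb_zero, neg_neg]

variable {h} in
lemma mem_span_b {k : ℕ} {b : Fin k → V} {e f : V}
    (hbe : ∀ i, h.h (b i) e = 0 ∧ h.h (b i) f = 0) (he : h.h e e = 0) (hf : h.h f f = 0)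
    (hef : h.h e f = 1) (v : V) : v ∈ Submodule.span E (Set.range b) ↔
      v ∈ Submodule.span E (Set.range (hb f e b)) ∧ h.h v e = 0 ∧ h.h v f = 0 := by
  rw [Submodule.mem_span_range_iff_exists_fun, Submodule.mem_span_range_iff_exists_fun]
  constructor
  · rintro ⟨c, rfl⟩
    refine ⟨⟨hb 0 0 c, ?_⟩, ort hbe c⟩
    rw [sum_smul_hb, hb_zero, hb_last]
    simp only [hb_mid, zero_smul, zero_add, add_zero]
  · rintro ⟨⟨c, rfl⟩, h1, h2⟩
    rw [sum_smul_hb] at h1 h2 ⊢
    have e1 : c 0 • f + ∑ j : Fin k, c j.castSucc.succ • b j + c (Fin.last (k + 1)) • e =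
        c (Fin.last (k + 1)) • e + c 0 • f + ∑ j : Fin k, c j.castSucc.succ • b j := by abel
    rw [e1] at h1 h2 ⊢
    rw [pair_e hbe he hf hef, neg_eq_zero] at h1
    rw [pair_f hbe he hf hef] at h2
    rw [h1, h2, zero_smul, zero_smul, zero_add, zero_add]
    exact ⟨_, rfl⟩

lemma exists_scale {k : ℕ} (b : Fin k → V) (M : AddSubgroup V) {c : ℕ} (b' : Fin c → V)
    (hM : M = box U b' 0)
    (hsp : ∀ i, b i ∈ Submodule.span E (M : Set V)) :
    ∃ a : ℕ, ∀ v ∈ box U b 0, (U.ϖ ^ a) • v ∈ M := by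
  have h1 : ∀ i, ∃ a : ℕ, ∀ n : ℕ, a ≤ n → (U.ϖ ^ n) • b i ∈ M := by
    intro i
    have := hsp i
    rw [hM, span_box, Submodule.mem_span_range_iff_exists_fun] at this
    obtain ⟨x, hx⟩ := this
    have h2 : ∀ j, ∃ a : ℕ, ∀ n : ℕ, a ≤ n → ‖U.ϖ ^ n * x j‖ ≤ 1 := by
      intro j
      rcases eq_or_ne (x j) 0 with h0 | h0
      · exact ⟨0, fun n _ => by rw [h0]; simp⟩
      · obtain ⟨m, hm⟩ := U.disc _ h0
        refine ⟨(-m).toNat, fun n hn => ?_⟩
        rw [norm_mul, norm_pow, hm, ← zpow_natCast, ← zpow_add₀ U.ϖpos.ne']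
        have : (1 : ℝ) = ‖U.ϖ‖ ^ (0 : ℤ) := by simp
        rw [this, npow_le]
        omega
    choose a ha using h2
    refine ⟨univ.sup a, fun n hn => ?_⟩
    rw [hM, mem_box0]
    refine ⟨fun j => U.ϖ ^ n * x j, fun j => ha j n ((le_sup (mem_univ j)).trans hn), ?_⟩
    rw [← hx, smul_sum]
    simp only [mul_smul]
  choose a ha using h1
  refine ⟨univ.sup a, fun v hv => ?_⟩
  obtain ⟨c, hc, rfl⟩ := (mem_box0 U).1 hv
  rw [smul_sum]
  refine sum_mem fun i _ => ?_
  rw [← mul_smul, mul_comm, mul_smul, hM]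
  refine smul_mem U (hc i) ?_
  rw [← hM]
  exact ha i _ (le_sup (mem_univ i))

lemma isotropic_pow {e f : V} (a : ℤ) (he : h.h e e = 0) (hf : h.h f f = 0) (hef : h.h e f = 1) :
    h.h ((U.ϖ ^ (-a)) • e) ((U.ϖ ^ (-a)) • e) = 0 ∧ h.h ((U.ϖ ^ a) • f) ((U.ϖ ^ a) • f) = 0 ∧
      h.h ((U.ϖ ^ (-a)) • e) ((U.ϖ ^ a) • f) = 1 := by
  refine ⟨?_, ?_, ?_⟩
  · rw [h.smul, smul_right, he]; ring
  · rw [h.smul, smul_right, hf]; ring
  · rw [h.smul, smul_right, hef, σ_zpow, mul_one, ← zpow_add₀ (w0 U), neg_add_cancel, zpow_zero]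

lemma ort_pow {e f v : V} (a : ℤ) : h.h v ((U.ϖ ^ (-a)) • e) = 0 ∧ h.h v ((U.ϖ ^ a) • f) = 0 ↔
    h.h v e = 0 ∧ h.h v f = 0 := by
  rw [smul_right, smul_right, σ_zpow, σ_zpow]
  have h1 : U.ϖ ^ (-a) ≠ 0 := zpow_ne_zero _ (w0 U)
  have h2 : U.ϖ ^ a ≠ 0 := zpow_ne_zero _ (w0 U)
  simp only [mul_eq_zero, h1, h2, false_or]

variable {h} in
/-- the inner lattice of a lattice containing a hyperbolic plane, in position `a` -/
lemma box_mem_inner {k : ℕ} {b : Fin k → V} {e f : V}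
    (hbe : ∀ i, h.h (b i) e = 0 ∧ h.h (b i) f = 0) (he : h.h e e = 0) (hf : h.h f f = 0)
    (hef : h.h e f = 1) (a : ℤ) (L : Fin k → ℤ) (v : V) : v ∈ box U b L ↔
      (v ∈ box U (hb f e b) (ha a L) ∧ h.h v e = 0 ∧ h.h v f = 0) := by
  constructor
  · intro hv
    refine ⟨(mem_hb U b e f a L v).2 ⟨0, 0, v, ?_, ?_, hv, by simp⟩, ?_⟩
    · rw [norm_zero]; exact (npos U _).le
    · rw [norm_zero]; exact (npos U _).le
    · obtain ⟨c, -, rfl⟩ := hv
      exact ort hbe c
  · rintro ⟨hv, h1, h2⟩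
    obtain ⟨x, y, w, -, -, hw, rfl⟩ := (mem_hb U b e f a L v).1 hv
    obtain ⟨c, hc, rfl⟩ := hw
    rw [pair_e hbe he hf hef, neg_eq_zero] at h1
    rw [pair_f hbe he hf hef] at h2
    rw [h1, h2, zero_smul, zero_smul, zero_add, zero_add]
    exact ⟨c, hc, rfl⟩

variable {h} in
/-- gluing: from positions of the inner lattices to positions of the lattices -/
lemma glue (hPl : SpecPlane) {k : ℕ} {b c b' : Fin k → V} {e f : V} {Λ : Fin k → ℤ}
    (a : ℤ) (ha1 : 0 ≤ a) (hb0 : SDB U h b) (hc0 : SDB U h c)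
    (hbe : ∀ i, h.h (b i) e = 0 ∧ h.h (b i) f = 0) (hce : ∀ i, h.h (c i) e = 0 ∧ h.h (c i) f = 0)
    (he : h.h e e = 0) (hf : h.h f f = 0) (hef : h.h e f = 1) {M L : AddSubgroup V}
    (hM : M = box U (hb f e b) 0) (hL : L = box U (hb ((U.ϖ ^ a) • f) ((U.ϖ ^ (-a)) • e) c) 0)
    (haL : ∀ l ∈ L, (U.ϖ ^ a) • l ∈ M)
    (hΛ : Sym Λ) (hb' : SDB U h b') (h1 : box U b 0 = box U b' 0) (h2 : box U c 0 = box U b' Λ) :
    (∀ i, h.h (b' i) e = 0 ∧ h.h (b' i) f = 0) ∧ Sym (ha a Λ) ∧ SDB U h (hb f e b') ∧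
      M = box U (hb f e b') 0 ∧ L = box U (hb f e b') (ha a Λ) := by
  have hb'e : ∀ i, h.h (b' i) e = 0 ∧ h.h (b' i) f = 0 := by
    intro i
    have : b' i ∈ box U b 0 := by rw [h1]; exact basis_mem U b' i
    exact ((box_mem_inner U hbe he hf hef 0 0 _).1 this).2
  have hli' := SDB_li U h hb'
  have P' := hPl E U V h k b' e f hli' hb'e he hf hef
  have P := hPl E U V h k b e f (SDB_li U h hb0) hbe he hf hef
  obtain ⟨i1, i2, i3⟩ := isotropic_pow U h a he hf hef
  have hce' : ∀ i, h.h (c i) ((U.ϖ ^ (-a)) • e) = 0 ∧ h.h (c i) ((U.ϖ ^ a) • f) = 0 :=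
    fun i => (ort_pow U h a).2 (hce i)
  have PL := hPl E U V h k c _ _ (SDB_li U h hc0) hce' i1 i2 i3
  have hM' : M = box U (hb f e b') 0 := by
    rw [hM, ← ha_zero_zero]
    exact P.2.2.2.2.2 0 0 b' h1 0
  have hL' : L = box U (hb f e b') (ha a Λ) := by
    rw [hL, ← ha_zero_zero, PL.2.2.2.2.2 0 Λ b' h2 0, P'.2.2.2.2.1 a Λ]
  -- the bound on the exponents
  have hge : ∀ i, -a ≤ Λ i := by
    have hle : box U b' (fun i => Λ i + a) ≤ box U b' 0 := by
      intro v hv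
      rw [← sc_box] at hv
      obtain ⟨w, hw, rfl⟩ := hv
      change (U.ϖ ^ a) • w ∈ box U b' 0
      have hwL : w ∈ L := by
        rw [hL']
        exact ((box_mem_inner U hb'e he hf hef a Λ _).1 hw).1
      have hwo := ((box_mem_inner U hb'e he hf hef a Λ _).1 hw).2
      have := haL w hwL
      rw [hM', ← ha_zero_zero] at this
      rw [box_mem_inner U hb'e he hf hef 0 0]
      refine ⟨this, ?_, ?_⟩
      · rw [h.smul, hwo.1, mul_zero]
      · rw [h.smul, hwo.2, mul_zero]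
    intro i
    have := (box_le U hli' _ _).1 hle i
    simp only [Pi.zero_apply] at this
    linarith
  have hle : ∀ i, Λ i ≤ a := fun i => by
    have := hge (Fin.rev i); rw [hΛ.2] at this; linarith
  exact ⟨hb'e, sym_ha hΛ ha1 hle, (sdb_iff U hb'e he hf hef).1 hb', hM', hL'⟩

variable {h} in
lemma hypB_hb {k : ℕ} {b : Fin k → V} {e f : V} {Λ : Fin k → ℤ} {a : ℤ} (ha0 : 0 ≤ a)
    (hbe : ∀ i, h.h (b i) e = 0 ∧ h.h (b i) f = 0)
    (he : h.h e e = 0) (hf : h.h f f = 0) (hef : h.h e f = 1) (hH : HypB U h b Λ) :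
    HypB U h (hb f e b) (ha a Λ) := by
  have hb1 : ∀ j, h.h f (b j) = 0 := fun j => by
    rw [h.skew (b j) f, (hbe j).2, map_zero, neg_zero]
  have hb2 : ∀ j, h.h e (b j) = 0 := fun j => by
    rw [h.skew (b j) e, (hbe j).1, map_zero, neg_zero]
  constructor
  · rw [forall_hb]
    refine ⟨?_, fun i => ?_, ?_⟩ <;> rw [forall_hb]
    · rw [rev_zero']
      refine ⟨fun _ _ => ?_, fun j _ _ => ?_, fun _ hj => absurd rfl hj⟩
      · rw [hb_zero, hf]
      · rw [hb_zero, hb_mid, hb1]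
    · rw [rev_mid]
      refine ⟨fun _ _ => ?_, fun j hi hj => ?_, fun _ _ => ?_⟩
      · rw [hb_zero, hb_mid, (hbe i).2]
      · rw [hb_mid, hb_mid]
        rw [ha, hb_mid] at hi
        apply hH.1 i j hi
        rintro rfl
        exact hj rfl
      · rw [hb_last, hb_mid, (hbe i).1]
    · rw [rev_last']
      refine ⟨fun _ hj => absurd rfl hj, fun j _ _ => ?_, fun _ _ => ?_⟩
      · rw [hb_last, hb_mid, hb2]
      · rw [hb_last, he]
  · rw [forall_hb]
    refine ⟨fun _ => ?_, fun i hi => ?_, fun hi => ?_⟩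
    · rw [rev_zero', hb_last, hb_zero, hef]
    · rw [rev_mid, hb_mid, hb_mid]
      rw [ha, hb_mid] at hi
      exact hH.2 i hi
    · exfalso
      rw [ha, hb_last] at hi
      linarith

end HypM

open BoxM SdlM PlaneM HypM in
/-- module HYP -/
theorem specHyp (hHp : SpecHpair) : SpecHyp := by
  intro E _ U V _ _ h k
  induction k using Nat.strong_induction_on with
  | _ k ih =>
  intro M L hM hL hsp
  have SM := specSdl E U V h k M hM
  have SL := specSdl E U V h k L hL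
  by_cases hML : M = L
  · obtain ⟨b, hb, hMb⟩ := hM
    refine ⟨b, 0, ⟨fun _ _ _ => le_refl _, fun _ => by simp⟩, hb, ⟨fun i j hi => ?_, fun i hi => ?_⟩,
      hMb, hML ▸ hMb⟩
    · exact absurd rfl hi
    · exact absurd hi (lt_irrefl _)
  -- `L` is not contained in `M`
  have hLM : ¬ L ≤ M := by
    intro hle
    apply hML
    refine le_antisymm (fun v hv => ?_) hle
    apply SL.2.1 v
    · rw [← hsp]; exact Submodule.subset_span hv
    · intro w hw
      exact SM.1 v hv w (hle hw)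
  -- the exponent
  have hex : ∃ a : ℕ, ∀ v ∈ L, (U.ϖ ^ a) • v ∈ M := by
    obtain ⟨b, hb, hMb⟩ := hM
    obtain ⟨c, hc, hLc⟩ := hL
    rw [hLc]
    apply exists_scale U c M b hMb
    intro i
    rw [hsp]
    apply Submodule.subset_span
    rw [hLc]
    exact basis_mem U c i
  classical
  set a := Nat.find hex with ha
  have ha1 : ∀ v ∈ L, (U.ϖ ^ a) • v ∈ M := Nat.find_spec hex
  have ha0 : 1 ≤ a := by
    rw [Nat.one_le_iff_ne_zero]
    intro h0
    rw [h0] at ha1
    apply hLM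
    intro v hv
    have := ha1 v hv
    rwa [pow_zero, one_smul] at this
  obtain ⟨l, hl, hl2⟩ : ∃ l ∈ L, (U.ϖ ^ (a - 1)) • l ∉ M := by
    have := Nat.find_min hex (m := a - 1) (by omega)
    push Not at this
    exact this
  have hMa : ∀ v ∈ M, (U.ϖ ^ a) • v ∈ L := by
    intro v hv
    apply SL.2.1
    · rw [← hsp]; exact Submodule.smul_mem _ _ (Submodule.subset_span hv)
    · intro w hw
      have : h.h ((U.ϖ ^ a) • v) w = h.h v ((U.ϖ ^ a) • w) := by
        rw [h.smul, smul_right, map_pow, U.σϖ]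
      rw [this]
      exact SM.1 v hv _ (ha1 w hw)
  set e0 := (U.ϖ ^ a) • l with he0
  have he0M : e0 ∈ M := ha1 l hl
  have hprim : e0 ∈ Prim U M := by
    refine ⟨he0M, fun w hw he => hl2 ?_⟩
    have : (U.ϖ ^ (a - 1)) • l = w := by
      have h1 : U.ϖ⁻¹ • e0 = w := by
        rw [he, ← mul_smul, inv_mul_cancel₀ (w0 U), one_smul]
      rw [← h1, he0, ← mul_smul]
      congr 1
      obtain ⟨a', ha'⟩ : ∃ a', a = a' + 1 := ⟨a - 1, by omega⟩
      rw [ha', Nat.add_sub_cancel, pow_succ', ← mul_assoc, inv_mul_cancel₀ (w0 U), one_mul]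
    rw [this]; exact hw
  have hn : ‖h.h e0 e0‖ ≤ ‖U.ϖ‖ ^ (2 * a) := by
    rw [he0, h.smul, smul_right, map_pow, U.σϖ, norm_mul, norm_mul, norm_pow]
    calc ‖U.ϖ‖ ^ a * (‖U.ϖ‖ ^ a * ‖h.h l l‖) ≤ ‖U.ϖ‖ ^ a * (‖U.ϖ‖ ^ a * 1) := by
          have := SL.1 l hl l hl
          have := U.ϖpos
          gcongr
      _ = _ := by ring
  obtain ⟨w, hw, hpe, hee⟩ := (hHp E U V h k M hM).2.2 e0 hprim (2 * a) (by omega) hn
  set e := e0 + (U.ϖ ^ (2 * a)) • w with he
  obtain ⟨f, hf, hff, hef⟩ := (hHp E U V h k M hM).2.1 e hpe hee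
  have heL : (U.ϖ ^ (-(a : ℤ))) • e ∈ L := by
    have : (U.ϖ ^ (-(a : ℤ))) • e = l + (U.ϖ ^ a) • w := by
      rw [he, he0, smul_add, ← mul_smul, ← mul_smul, ← zpow_natCast, ← zpow_natCast,
        ← zpow_add₀ (w0 U), ← zpow_add₀ (w0 U), neg_add_cancel, zpow_zero, one_smul]
      congr 3
      push_cast; ring
    rw [this]
    exact add_mem hl (hMa w hw)
  have hfL : (U.ϖ ^ (a : ℤ)) • f ∈ L := by
    rw [zpow_natCast]; exact hMa f hf
  obtain ⟨i1, i2, i3⟩ := isotropic_pow U h (a : ℤ) hee hff hef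
  obtain ⟨k', hk', b, hb, hbe, hMb⟩ := specSplit E U V h k M hM e hpe.1 f hf hee hff hef
  obtain ⟨k'', hk'', c, hc, hce, hLc⟩ := specSplit E U V h k L hL _ heL _ hfL i1 i2 i3
  obtain rfl : k'' = k' := by omega
  have hce' : ∀ i, h.h (c i) e = 0 ∧ h.h (c i) f = 0 := fun i => (ort_pow U h (a : ℤ)).1 (hce i)
  have hspan : Submodule.span E (box U b 0 : Set V) = Submodule.span E (box U c 0 : Set V) := by
    rw [span_box, span_box]
    ext v
    rw [mem_span_b U hbe hee hff hef, mem_span_b U hce i1 i2 i3, ort_pow]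
    have : Submodule.span E (Set.range (MPtg.hb f e b)) =
        Submodule.span E (Set.range (MPtg.hb ((U.ϖ ^ (a : ℤ)) • f) ((U.ϖ ^ (-(a : ℤ))) • e) c)) := by
      rw [hMb, hLc, span_box, span_box] at hsp
      exact hsp
    rw [this]
  obtain ⟨b', Λ, hΛ, hb', hH, h1, h2⟩ := ih k'' (by omega) (box U b 0) (box U c 0)
    ⟨b, hb, rfl⟩ ⟨c, hc, rfl⟩ hspan
  have haL : ∀ l ∈ L, (U.ϖ ^ (a : ℤ)) • l ∈ M := by
    intro l hl; rw [zpow_natCast]; exact ha1 l hl
  obtain ⟨g1, g2, g3, g4, g5⟩ := glue U specPlane (a : ℤ) (by positivity) hb hc hbe hce' hee hff hef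
    hMb hLc haL hΛ hb' h1 h2
  subst hk'
  exact ⟨_, _, g2, g3, hypB_hb U (by positivity) g1 hee hff hef hH, g4, g5⟩

open BoxM SdlM PlaneM HypM in
/-- module TRANS -/
theorem specTrans (hHy : SpecHyp) : SpecTrans := by
  intro E _ U V _ _ h k M L hM hL hMs hLs
  obtain ⟨b, Λ, hΛ, hb, hH, hMb, hLb⟩ := hHy E U V h k M L hM hL (by rw [hMs, hLs])
  have hli := SDB_li U h hb
  have hsp : ⊤ ≤ Submodule.span E (Set.range b) := by
    rw [← span_box U b 0, ← hMb, hMs]
  set B := Module.Basis.mk hli hsp with hB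
  have hBi : ∀ i, B i = b i := fun i => by rw [hB, Module.Basis.mk_apply]
  set B' := B.unitsSMul (fun i => U.w ^ (Λ i)) with hB'
  have hB'i : ∀ i, B' i = (U.ϖ ^ (Λ i)) • b i := fun i => by
    rw [hB', Module.Basis.unitsSMul_apply, hBi, Units.smul_def, Units.val_zpow_eq_zpow_val]
    rfl
  set g := B.equiv B' (Equiv.refl _) with hg
  have hgi : ∀ i, g (b i) = (U.ϖ ^ (Λ i)) • b i := fun i => by
    rw [← hBi i, hg, Module.Basis.equiv_apply, Equiv.refl_apply, hB'i, hBi]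
  have hrep : ∀ v : V, ∃ c : Fin k → E, v = ∑ i, c i • b i := fun v => by
    have : v ∈ Submodule.span E (Set.range b) := hsp trivial
    rw [Submodule.mem_span_range_iff_exists_fun] at this
    obtain ⟨c, hc⟩ := this
    exact ⟨c, hc.symm⟩
  have hgs : ∀ c : Fin k → E, g (∑ i, c i • b i) = ∑ i, (c i * U.ϖ ^ (Λ i)) • b i := fun c => by
    rw [map_sum]
    refine sum_congr rfl fun i _ => ?_
    rw [map_smul, hgi, mul_smul]
  refine ⟨g, ?_, fun v => ?_⟩
  · intro v w
    obtain ⟨c, rfl⟩ := hrep v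
    obtain ⟨d, rfl⟩ := hrep w
    rw [hgs, hgs, sum_left, sum_left]
    refine sum_congr rfl fun i _ => ?_
    rw [sum_right, sum_right]
    refine sum_congr rfl fun j _ => ?_
    rw [h.smul, h.smul, smul_right, smul_right, map_mul, σ_zpow]
    by_cases hij : h.h (b i) (b j) = 0
    · rw [hij]; ring
    · have hs : Λ i + Λ j = 0 := by
        by_cases hi : Λ i = 0
        · have hj : Λ j = 0 := by
            by_contra hj
            have h1 : i = Fin.rev j := by
              by_contra hne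
              apply hij
              rw [h.skew (b j) (b i), hH.1 j i hj hne, map_zero, neg_zero]
            rw [h1, hΛ.2] at hi
            exact hj (neg_eq_zero.1 hi)
          rw [hi, hj]; rfl
        · have h1 : j = Fin.rev i := by
            by_contra hne
            exact hij (hH.1 i j hi hne)
          rw [h1, hΛ.2]; ring
      have hs' : U.ϖ ^ (Λ i) * U.ϖ ^ (Λ j) = 1 := by
        rw [← zpow_add₀ (w0 U), hs, zpow_zero]
      calc c i * U.ϖ ^ (Λ i) * (U.σ (d j) * U.ϖ ^ (Λ j) * h.h (b i) (b j)) =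
          (U.ϖ ^ (Λ i) * U.ϖ ^ (Λ j)) * (c i * (U.σ (d j) * h.h (b i) (b j))) := by ring
        _ = _ := by rw [hs', one_mul]
  · obtain ⟨c, rfl⟩ := hrep v
    rw [hgs, hMb, hLb, mem_box_iff U hli, mem_box_iff U hli]
    refine forall_congr' fun i => ?_
    rw [norm_mul, norm_zpow', Pi.zero_apply, zpow_zero]
    constructor
    · intro h1
      calc ‖c i‖ * ‖U.ϖ‖ ^ (Λ i) ≤ 1 * ‖U.ϖ‖ ^ (Λ i) := mul_le_mul_of_nonneg_right h1 (npos U _).le
        _ = _ := one_mul _
    · intro h1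
      by_contra h2
      push Not at h2
      have : 1 * ‖U.ϖ‖ ^ (Λ i) < ‖c i‖ * ‖U.ϖ‖ ^ (Λ i) := mul_lt_mul_of_pos_right h2 (npos U _)
      rw [one_mul] at this
      exact absurd h1 (not_le.2 this)

end MPtg
end

section
/-!
MP_3d2757_nt, module UNIQ: uniqueness of the position.
-/
open Finset

namespace MPtg
namespace UniqM

open BoxM

variable {E : Type} [NormedField E] (U : Unr E) {V : Type} [AddCommGroup V] [Module E V]

lemma sc_mono {M M' : AddSubgroup V} (j : ℤ) (h : M = M') : sc U j M = sc U j M' := by rw [h]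

/-- the number of classes of `M` modulo `M ⊓ ϖ^(-j) L` -/
lemma count {k : ℕ} {b : Fin k → V} (hb : LinearIndependent E b) (Λ : Fin k → ℤ) (j : ℤ) :
    ncls (box U b 0 ⊓ sc U (-j) (box U b Λ)) (box U b 0 : Set V) =
      U.q ^ (2 * (∑ i, max 0 (Λ i - j)).toNat) := by
  rw [sc_box, box_inf U hb, ncls_box U hb]
  · congr 3
    refine sum_congr rfl fun i _ => ?_
    simp only [Pi.zero_apply, sub_zero]
    rfl
  · intro i
    simp only [Pi.zero_apply]
    exact le_max_left _ _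

lemma card_gt {k : ℕ} (Λ : Fin k → ℤ) (j : ℤ) :
    (((univ : Finset (Fin k)).filter fun i => j < Λ i).card : ℤ) =
      ∑ i, max 0 (Λ i - j) - ∑ i, max 0 (Λ i - (j + 1)) := by
  rw [← sum_sub_distrib, card_filter]
  push_cast
  refine sum_congr rfl fun i _ => ?_
  split_ifs with h
  · rw [max_eq_right (by omega), max_eq_right (by omega)]; ring
  · rw [max_eq_left (by omega), max_eq_left (by omega)]; ring

lemma eq_of_card {k : ℕ} {Λ Λ' : Fin k → ℤ} (h1 : Antitone Λ) (h2 : Antitone Λ')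
    (hc : ∀ j : ℤ, ((univ : Finset (Fin k)).filter fun i => j < Λ i).card =
      ((univ : Finset (Fin k)).filter fun i => j < Λ' i).card) (i : Fin k) : Λ i ≤ Λ' i := by
  by_contra hlt
  push Not at hlt
  have a1 : (Iic i).card ≤ ((univ : Finset (Fin k)).filter fun l => Λ' i < Λ l).card := by
    apply card_le_card
    intro l hl
    rw [mem_filter]
    exact ⟨mem_univ _, lt_of_lt_of_le hlt (h1 (mem_Iic.1 hl))⟩
  have a2 : ((univ : Finset (Fin k)).filter fun l => Λ' i < Λ' l).card ≤ (Iio i).card := by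
    apply card_le_card
    intro l hl
    rw [mem_filter] at hl
    rw [mem_Iio]
    by_contra hil
    exact absurd hl.2 (not_lt.2 (h2 (not_lt.1 hil)))
  rw [hc] at a1
  have := a1.trans a2
  rw [Fin.card_Iic, Fin.card_Iio] at this
  omega

end UniqM

open BoxM UniqM in
/-- module UNIQ -/
theorem specUniq : SpecUniq := by
  intro E _ U V _ _ k b b' Λ Λ' hb hb' h1 h2 h0 hL
  have hq : 2 ≤ U.q := by have := U.q3; omega
  have key : ∀ j : ℤ, ∑ i, max 0 (Λ i - j) = ∑ i, max 0 (Λ' i - j) := by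
    intro j
    have e1 := count U hb Λ j
    have e2 := count U hb' Λ' j
    rw [h0, hL] at e1
    rw [e1] at e2
    have e3 := Nat.pow_right_injective hq e2
    have p1 : 0 ≤ ∑ i, max 0 (Λ i - j) := sum_nonneg fun i _ => le_max_left _ _
    have p2 : 0 ≤ ∑ i, max 0 (Λ' i - j) := sum_nonneg fun i _ => le_max_left _ _
    omega
  have hc : ∀ j : ℤ, ((univ : Finset (Fin k)).filter fun i => j < Λ i).card =
      ((univ : Finset (Fin k)).filter fun i => j < Λ' i).card := by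
    intro j
    zify
    rw [card_gt, card_gt, key, key]
  funext i
  exact le_antisymm (eq_of_card h1 h2 hc i) (eq_of_card h2 h1 (fun j => (hc j).symm) i)

end MPtg
end

section
/-!
MP_3d2757_nt, module CNTB: lattices through a given isotropic line.
-/
open Finset

namespace MPtg
namespace CntBM

open BoxM SdlM PlaneM HypM

variable {E : Type} [NormedField E] (U : Unr E) {V : Type} [AddCommGroup V] [Module E V]
  (h : SkF U V)

/-- the orthogonal complement of `e`, `f` inside `L` -/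
def perp (e f : V) (L : AddSubgroup V) : AddSubgroup V where
  carrier := {v | v ∈ L ∧ h.h v e = 0 ∧ h.h v f = 0}
  add_mem' := by
    rintro a b ⟨h1, h2, h3⟩ ⟨h4, h5, h6⟩
    refine ⟨add_mem h1 h4, ?_, ?_⟩
    · rw [h.add, h2, h5, add_zero]
    · rw [h.add, h3, h6, add_zero]
  zero_mem' := ⟨zero_mem _, zero_left U h _, zero_left U h _⟩
  neg_mem' := by
    rintro a ⟨h1, h2, h3⟩
    refine ⟨neg_mem h1, ?_, ?_⟩
    · rw [neg_left, h2, neg_zero]
    · rw [neg_left, h3, neg_zero]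

lemma mem_perp {e f v : V} {L : AddSubgroup V} :
    v ∈ perp U h e f L ↔ v ∈ L ∧ h.h v e = 0 ∧ h.h v f = 0 := Iff.rfl

lemma ha_inn {k : ℕ} {Λ : Fin (k + 2) → ℤ} (hΛ : Sym Λ) : ha (Λ 0) (inn Λ) = Λ := by
  have h1 : Λ (Fin.last (k + 1)) = - Λ 0 := by rw [← rev_zero', hΛ.2]
  rw [ha, ← h1]
  exact (eq_hb Λ).symm

lemma inn_ha {k : ℕ} (a : ℤ) (Λ : Fin k → ℤ) : inn (ha a Λ) = Λ := by
  funext j
  rw [inn, ha, hb_mid]

lemma sym_inn {k : ℕ} {Λ : Fin (k + 2) → ℤ} (hΛ : Sym Λ) : Sym (inn Λ) := by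
  constructor
  · intro i j hij
    apply hΛ.1
    rw [Fin.le_def] at hij ⊢
    simpa using hij
  · intro i
    have := hΛ.2 i.castSucc.succ
    rw [rev_mid] at this
    exact this

lemma le_first {k : ℕ} {Λ : Fin (k + 2) → ℤ} (hΛ : Sym Λ) (i : Fin (k + 2)) :
    Λ i ≤ Λ 0 ∧ - Λ 0 ≤ Λ i := by
  refine ⟨hΛ.1 (Fin.zero_le i), ?_⟩
  have h1 : Λ (Fin.last (k + 1)) = - Λ 0 := by rw [← rev_zero', hΛ.2]
  rw [← h1]
  exact hΛ.1 (Fin.le_last i)

variable {h} in
/-- structure of the lattices of the first set -/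
lemma structure_of {k : ℕ} {b : Fin k → V} {e f : V} (hb0 : SDB U h b)
    (hbe : ∀ i, h.h (b i) e = 0 ∧ h.h (b i) f = 0) (he : h.h e e = 0) (hf : h.h f f = 0)
    (hef : h.h e f = 1) {Λ : Fin (k + 2) → ℤ} (hΛ : Sym Λ)
    {L : AddSubgroup V} (hL : SD U h L (k + 2)) (hpos : Pos U (box U (hb f e b) 0) L Λ)
    (heL : (U.ϖ ^ (- Λ 0)) • e ∈ L) :
    ∃ c : Fin k → V, SDB U h c ∧ (∀ i, h.h (c i) e = 0 ∧ h.h (c i) f = 0) ∧
      L = box U (hb ((U.ϖ ^ (Λ 0)) • f) ((U.ϖ ^ (-(Λ 0))) • e) c) 0 ∧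
      perp U h e f L = box U c 0 ∧
      Submodule.span E (box U b 0 : Set V) = Submodule.span E (box U c 0 : Set V) ∧
      (∀ l ∈ L, (U.ϖ ^ (Λ 0)) • l ∈ box U (hb f e b) 0) := by
  obtain ⟨B, hB, hMB, hLB⟩ := hpos
  have hML : ∀ v ∈ box U (hb f e b) 0, (U.ϖ ^ (Λ 0)) • v ∈ L := by
    intro v hv
    rw [hMB] at hv
    rw [hLB]
    obtain ⟨c, hc, rfl⟩ := hv
    refine ⟨fun i => U.ϖ ^ (Λ 0) * c i, fun i => ?_, ?_⟩
    · rw [norm_mul, norm_zpow']
      have h1 := hc i
      rw [Pi.zero_apply, zpow_zero] at h1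
      calc ‖U.ϖ‖ ^ (Λ 0) * ‖c i‖ ≤ ‖U.ϖ‖ ^ (Λ 0) * 1 :=
            mul_le_mul_of_nonneg_left h1 (npos U _).le
        _ ≤ _ := by rw [mul_one, npow_le]; exact (le_first hΛ i).1
    · rw [smul_sum]; simp only [mul_smul]
  have hLM : ∀ v ∈ L, (U.ϖ ^ (Λ 0)) • v ∈ box U (hb f e b) 0 := by
    intro v hv
    rw [hLB] at hv
    rw [hMB]
    obtain ⟨c, hc, rfl⟩ := hv
    refine ⟨fun i => U.ϖ ^ (Λ 0) * c i, fun i => ?_, ?_⟩
    · rw [norm_mul, norm_zpow', Pi.zero_apply]
      calc ‖U.ϖ‖ ^ (Λ 0) * ‖c i‖ ≤ ‖U.ϖ‖ ^ (Λ 0) * ‖U.ϖ‖ ^ (Λ i) :=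
            mul_le_mul_of_nonneg_left (hc i) (npos U _).le
        _ ≤ _ := by
            rw [← zpow_add₀ U.ϖpos.ne', npow_le]
            linarith [(le_first hΛ i).2]
    · rw [smul_sum]; simp only [mul_smul]
  have hfM : f ∈ box U (hb f e b) 0 := by
    have := basis_mem U (hb f e b) 0
    rwa [hb_zero] at this
  obtain ⟨i1, i2, i3⟩ := isotropic_pow U h (Λ 0) he hf hef
  obtain ⟨k', hk', c, hc, hce, hLc⟩ :=
    specSplit E U V h (k + 2) L hL _ heL _ (hML f hfM) i1 i2 i3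
  obtain rfl : k' = k := by omega
  have hce' : ∀ i, h.h (c i) e = 0 ∧ h.h (c i) f = 0 := fun i => (ort_pow U h (Λ 0)).1 (hce i)
  have hspL : Submodule.span E (box U (hb f e b) 0 : Set V) = Submodule.span E (L : Set V) := by
    rw [hMB, hLB, span_box, span_box]
  refine ⟨c, hc, hce', hLc, ?_, ?_, hLM⟩
  · ext v
    rw [mem_perp, box_mem_inner U hce i1 i2 i3 0 0 v, ha_zero_zero, ← hLc, ort_pow]
  · rw [span_box, span_box]
    ext v
    rw [mem_span_b U hbe he hf hef, mem_span_b U hce i1 i2 i3, ort_pow]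
    have : Submodule.span E (Set.range (MPtg.hb f e b)) =
        Submodule.span E (Set.range (MPtg.hb ((U.ϖ ^ (Λ 0)) • f) ((U.ϖ ^ (-(Λ 0))) • e) c)) := by
      rw [hLc, span_box, span_box] at hspL
      exact hspL
    rw [this]

end CntBM

open BoxM SdlM PlaneM HypM CntBM in
/-- module CNTB -/
theorem specCntB (hHy : SpecHyp) : SpecCntB := by
  intro E _ U V _ _ h k b e f hb0 hbe he hf hef Λ hΛ hΛ1
  have hΛ0 : 0 ≤ Λ 0 := by linarith
  refine ⟨perp U h e f, ?_, ?_, ?_⟩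
  · -- maps to
    rintro L ⟨hL, hpos, heL⟩
    obtain ⟨c, hc, hce, hLc, hpL, hsp, hLM⟩ := structure_of U hb0 hbe he hf hef hΛ hL hpos heL
    obtain ⟨b', Λ', hΛ', hb', -, h1, h2⟩ := hHy E U V h k (box U b 0) (box U c 0)
      ⟨b, hb0, rfl⟩ ⟨c, hc, rfl⟩ hsp
    obtain ⟨g1, g2, g3, g4, g5⟩ := glue U specPlane (Λ 0) hΛ0 hb0 hc hbe hce he hf hef
      rfl hLc hLM hΛ' hb' h1 h2
    have hli := SDB_li U h hb'
    have hli2 := SDB_li U h g3
    obtain ⟨B, hB, hMB, hLB⟩ := hpos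
    have huniq : ha (Λ 0) Λ' = Λ := specUniq E U V (k + 2) (hb f e b') B _ _ hli2 hB g2.1 hΛ.1
      (by rw [← g4, hMB]) (by rw [← g5, hLB])
    refine ⟨?_, ?_⟩
    · rw [hpL]; exact ⟨c, hc, rfl⟩
    · refine ⟨b', hli, h1, ?_⟩
      rw [hpL, h2, ← huniq, inn_ha]
  · -- injective
    rintro L1 ⟨hL1, hpos1, heL1⟩ L2 ⟨hL2, hpos2, heL2⟩ heq
    obtain ⟨c1, -, -, hLc1, hpL1, -, -⟩ := structure_of U hb0 hbe he hf hef hΛ hL1 hpos1 heL1
    obtain ⟨c2, -, -, hLc2, hpL2, -, -⟩ := structure_of U hb0 hbe he hf hef hΛ hL2 hpos2 heL2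
    have : box U c1 0 = box U c2 0 := by rw [← hpL1, ← hpL2, heq]
    rw [hLc1, hLc2, ← ha_zero_zero]
    ext v
    rw [mem_hb, mem_hb]
    simp only [this]
  · -- surjective
    rintro L1 ⟨⟨d, hd, hL1d⟩, ⟨b', hb', hbb', hL1b⟩⟩
    have hb'e : ∀ i, h.h (b' i) e = 0 ∧ h.h (b' i) f = 0 := by
      intro i
      have : b' i ∈ box U b 0 := by rw [hbb']; exact basis_mem U b' i
      exact ((box_mem_inner U hbe he hf hef 0 0 _).1 this).2
    have hde : ∀ i, h.h (d i) e = 0 ∧ h.h (d i) f = 0 := by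
      intro i
      have : d i ∈ box U b' (inn Λ) := by rw [← hL1b, hL1d]; exact basis_mem U d i
      exact ((box_mem_inner U hb'e he hf hef 0 _ _).1 this).2
    have P' := specPlane E U V h k b' e f hb' hb'e he hf hef
    have P := specPlane E U V h k b e f (SDB_li U h hb0) hbe he hf hef
    obtain ⟨i1, i2, i3⟩ := isotropic_pow U h (Λ 0) he hf hef
    have hde' : ∀ i, h.h (d i) ((U.ϖ ^ (-(Λ 0))) • e) = 0 ∧ h.h (d i) ((U.ϖ ^ (Λ 0)) • f) = 0 :=
      fun i => (ort_pow U h (Λ 0)).2 (hde i)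
    have hb'e' : ∀ i, h.h (b' i) ((U.ϖ ^ (-(Λ 0))) • e) = 0 ∧ h.h (b' i) ((U.ϖ ^ (Λ 0)) • f) = 0 :=
      fun i => (ort_pow U h (Λ 0)).2 (hb'e i)
    have PL := specPlane E U V h k b' _ _ hb' hb'e' i1 i2 i3
    set L := box U (hb f e b') Λ with hLdef
    have hLd : L = box U (hb ((U.ϖ ^ (Λ 0)) • f) ((U.ϖ ^ (-(Λ 0))) • e) d) 0 := by
      rw [hLdef, ← ha_inn hΛ, ← P'.2.2.2.2.1 (Λ 0) (inn Λ)]
      have h0 : (ha (Λ 0) (inn Λ)) 0 = Λ 0 := rfl
      rw [h0, PL.2.2.2.2.2 (inn Λ) 0 d (by rw [← hL1b, hL1d]) 0, ha_zero_zero]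
    refine ⟨L, ⟨?_, ?_, ?_⟩, ?_⟩
    · exact ⟨_, (sdb_iff U hde' i1 i2 i3).1 hd, hLd⟩
    · refine ⟨hb f e b', P'.1, ?_, rfl⟩
      have := P.2.2.2.2.2 0 0 b' hbb' 0
      rwa [ha_zero_zero] at this
    · rw [hLd]
      have := basis_mem U (hb ((U.ϖ ^ (Λ 0)) • f) ((U.ϖ ^ (-(Λ 0))) • e) d) (Fin.last (k + 1))
      rwa [hb_last] at this
    · ext v
      rw [mem_perp, hL1b, box_mem_inner U hb'e he hf hef (Λ 0) (inn Λ), ha_inn hΛ]

end MPtg
end

section
/-!
MP_3d2757_nt, module CNT: number of self-dual lattices in a given position.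
-/
open Finset

namespace MPtg
namespace CntM

open BoxM SdlM PlaneM HypM CntBM

variable {E : Type} [NormedField E] (U : Unr E) {V : Type} [AddCommGroup V] [Module E V]
  (h : SkF U V)

lemma pos_sub {k : ℕ} {M L : AddSubgroup V} {Λ : Fin (k + 2) → ℤ} (hΛ : Sym Λ)
    (hpos : Pos U M L Λ) : ∀ v ∈ M, (U.ϖ ^ (Λ 0)) • v ∈ L := by
  obtain ⟨B, hB, hMB, hLB⟩ := hpos
  intro v hv
  rw [hMB] at hv
  rw [hLB]
  obtain ⟨c, hc, rfl⟩ := hv
  refine ⟨fun i => U.ϖ ^ (Λ 0) * c i, fun i => ?_, ?_⟩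
  · rw [norm_mul, norm_zpow']
    have h1 := hc i
    rw [Pi.zero_apply, zpow_zero] at h1
    calc ‖U.ϖ‖ ^ (Λ 0) * ‖c i‖ ≤ ‖U.ϖ‖ ^ (Λ 0) * 1 :=
          mul_le_mul_of_nonneg_left h1 (npos U _).le
      _ ≤ _ := by rw [mul_one, npow_le]; exact (le_first hΛ i).1
  · rw [smul_sum]; simp only [mul_smul]

/-- the set to be counted -/
def SS (k : ℕ) (M : AddSubgroup V) (Λ : Fin k → ℤ) : Set (AddSubgroup V) :=
  {L | SD U h L k ∧ Pos U M L Λ}

lemma SS_zero {k : ℕ} {M : AddSubgroup V} (hM : SD U h M k) : SS U h k M 0 = {M} := by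
  ext L
  rw [Set.mem_singleton_iff]
  constructor
  · rintro ⟨-, b, -, h1, h2⟩
    rw [h1, h2]
  · rintro rfl
    obtain ⟨b, hb, hMb⟩ := hM
    exact ⟨⟨b, hb, hMb⟩, ⟨b, SDB_li U h hb, hMb, hMb⟩⟩

lemma AA_zero (t : ℝ) : ∀ k : ℕ, AA t k 0 = 1
  | 0 => rfl
  | 1 => rfl
  | (m + 2) => by rw [AA]; simp

lemma tworho_zero {k : ℕ} : tworho (0 : Fin k → ℤ) = 0 := by simp [tworho]

lemma zero_of_first {k : ℕ} {Λ : Fin (k + 2) → ℤ} (hΛ : Sym Λ) (h0 : Λ 0 = 0) : Λ = 0 := by
  funext i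
  have := le_first hΛ i
  rw [h0] at this
  rw [Pi.zero_apply]
  linarith [this.1, this.2]

lemma first_nonneg {k : ℕ} {Λ : Fin (k + 2) → ℤ} (hΛ : Sym Λ) : 0 ≤ Λ 0 := by
  have := le_first hΛ 0
  linarith [this.1, this.2]

lemma tworho_inn {m : ℕ} {Λ : Fin (m + 2) → ℤ} (hΛ : Sym Λ) :
    tworho Λ = tworho (inn Λ) + 2 * Λ 0 * (m + 1) := by
  have h1 : Λ (Fin.last (m + 1)) = - Λ 0 := by rw [← rev_zero', hΛ.2]
  rw [tworho, sum_hb, h1, tworho]
  have h2 : ∀ j : Fin m, (((m + 2 : ℕ) : ℤ) - 1 - 2 * ((j.castSucc.succ : Fin (m + 2)) : ℕ)) *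
      Λ j.castSucc.succ = ((m : ℤ) - 1 - 2 * (j : ℕ)) * inn Λ j := by
    intro j
    rw [inn, Fin.val_succ, Fin.val_castSucc]
    push_cast
    ring
  simp only [h2, Fin.val_last, Fin.val_zero]
  push_cast
  ring

variable {h} in
/-- the lattices through a given primitive class -/
lemma fibre (hHp : SpecHpair) (hCb : SpecCntB) {m : ℕ} {M : AddSubgroup V} (hM : SD U h M (m + 2))
    {Λ : Fin (m + 2) → ℤ} (hΛ : Sym Λ) (a : ℕ) (ha1 : 1 ≤ a) (haΛ : Λ 0 = a) {v : V}
    (hv : v ∈ Prim U M) (hvv : ‖h.h v v‖ ≤ ‖U.ϖ‖ ^ (2 * a)) :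
    ∃ M' : AddSubgroup V, SD U h M' m ∧ ∃ F : AddSubgroup V → AddSubgroup V,
      Set.BijOn F {L | L ∈ SS U h (m + 2) M Λ ∧
        (QuotientAddGroup.mk v : V ⧸ sc U ((2 * a : ℕ) : ℤ) M) ∈
          (QuotientAddGroup.mk : V → V ⧸ sc U ((2 * a : ℕ) : ℤ) M) ''
            {v | v ∈ Prim U M ∧ (U.ϖ ^ (-(a : ℤ))) • v ∈ L}}
        (SS U h m M' (inn Λ)) := by
  obtain ⟨w, hw, hpe, hee⟩ := (hHp E U V h _ M hM).2.2 v hv (2 * a) (by omega) hvv
  set e := v + (U.ϖ ^ (2 * a)) • w with he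
  obtain ⟨f, hf, hff, hef⟩ := (hHp E U V h _ M hM).2.1 e hpe hee
  obtain ⟨k', hk', b, hb, hbe, hMb⟩ := specSplit E U V h _ M hM e hpe.1 f hf hee hff hef
  obtain rfl : k' = m := by omega
  obtain ⟨F, hF⟩ := hCb E U V h k' b e f hb hbe hee hff hef Λ hΛ (by rw [haΛ]; exact_mod_cast ha1)
  refine ⟨box U b 0, ⟨b, hb, rfl⟩, F, ?_⟩
  have hset : {L | L ∈ SS U h (k' + 2) M Λ ∧
        (QuotientAddGroup.mk v : V ⧸ sc U ((2 * a : ℕ) : ℤ) M) ∈
          (QuotientAddGroup.mk : V → V ⧸ sc U ((2 * a : ℕ) : ℤ) M) ''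
            {v | v ∈ Prim U M ∧ (U.ϖ ^ (-(a : ℤ))) • v ∈ L}} =
      {L | SD U h L (k' + 2) ∧ Pos U (box U (MPtg.hb f e b) 0) L Λ ∧ (U.ϖ ^ (- Λ 0)) • e ∈ L} := by
    ext L
    rw [← hMb, haΛ]
    simp only [Set.mem_ofPred_eq, SS, and_assoc]
    refine and_congr_right fun hL => and_congr_right fun hpos => ?_
    have hML := pos_sub U hΛ hpos
    rw [haΛ] at hML
    constructor
    · rintro ⟨v', ⟨hv', hv'L⟩, heq⟩
      rw [QuotientAddGroup.eq] at heq
      obtain ⟨u, hu, hu'⟩ := heq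
      change (U.ϖ ^ ((2 * a : ℕ) : ℤ)) • u = -v' + v at hu'
      have e1 : e = v' + (U.ϖ ^ (2 * a)) • (u + w) := by
        rw [smul_add, ← zpow_natCast, hu', he, zpow_natCast]; abel
      have e2 : (U.ϖ ^ (-(a : ℤ))) • e =
          (U.ϖ ^ (-(a : ℤ))) • v' + (U.ϖ ^ (a : ℤ)) • (u + w) := by
        rw [e1, smul_add, ← mul_smul, ← zpow_natCast, ← zpow_add₀ (w0 U)]
        congr 3
        push_cast; ring
      rw [e2]
      exact add_mem hv'L (hML _ (add_mem hu hw))
    · intro heL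
      refine ⟨e, ⟨hpe, heL⟩, ?_⟩
      rw [QuotientAddGroup.eq]
      refine ⟨-w, neg_mem hw, ?_⟩
      change (U.ϖ ^ ((2 * a : ℕ) : ℤ)) • (-w) = -e + v
      rw [he, zpow_natCast, smul_neg]
      abel
  rw [hset]
  exact hF

/-- the real computation -/
lemma calc_aux (Q α β A' X tw : ℝ) (m a r : ℕ) (hQ : 1 < Q) (ha : 1 ≤ a) (hr : 1 ≤ r) (C0 : ℝ)
    (hC : C0 = (Q ^ (m + 2) * α) * (Q ^ (m + 1) * β))
    (hX : X * (Q ^ (2 * a * (m + 2)) * (Q ^ (2 * r) - 1)) =
      C0 * Q ^ ((2 * (m + 1) + 1) * (2 * a - 1)) * (tw * A') * Q ^ (2 * r)) :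
    X = (tw * Q ^ (2 * a * (m + 1))) * (α * β / (1 - (Q⁻¹) ^ (2 * r)) * A') := by
  have hQ0 : 0 < Q := by linarith
  have h1 : 1 < Q ^ (2 * r) := one_lt_pow₀ hQ (by omega)
  have hD : Q ^ (2 * a * (m + 2)) * (Q ^ (2 * r) - 1) ≠ 0 := by
    have : Q ^ (2 * r) - 1 ≠ 0 := by linarith
    positivity
  apply mul_right_cancel₀ hD
  rw [hX, hC]
  have h2 : Q ^ (2 * r) - 1 = Q ^ (2 * r) * (1 - (Q⁻¹) ^ (2 * r)) := by
    rw [mul_sub, mul_one, ← mul_pow, mul_inv_cancel₀ hQ0.ne', one_pow]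
  have h3 : 1 - (Q⁻¹) ^ (2 * r) ≠ 0 := by
    intro h0
    rw [h0, mul_zero] at h2
    linarith
  rw [h2]
  set T := 1 - (Q⁻¹) ^ (2 * r) with hT
  have h4 : Q ^ (m + 2) * Q ^ (m + 1) * Q ^ ((2 * (m + 1) + 1) * (2 * a - 1)) =
      Q ^ (2 * a * (m + 1)) * Q ^ (2 * a * (m + 2)) := by
    rw [← pow_add, ← pow_add, ← pow_add]
    congr 1
    obtain ⟨a', rfl⟩ : ∃ a', a = a' + 1 := ⟨a - 1, by omega⟩
    have : 2 * (a' + 1) - 1 = 2 * a' + 1 := by omega
    rw [this]; ring
  calc Q ^ (m + 2) * α * (Q ^ (m + 1) * β) * Q ^ ((2 * (m + 1) + 1) * (2 * a - 1)) * (tw * A') *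
        Q ^ (2 * r)
      = (Q ^ (m + 2) * Q ^ (m + 1) * Q ^ ((2 * (m + 1) + 1) * (2 * a - 1))) *
        (α * β * tw * A' * Q ^ (2 * r)) := by ring
    _ = (Q ^ (2 * a * (m + 1)) * Q ^ (2 * a * (m + 2))) * (α * β * tw * A' * Q ^ (2 * r)) := by
        rw [h4]
    _ = _ := by field_simp

end CntM

open BoxM SdlM PlaneM HypM CntBM CntM in
/-- module CNT -/
theorem specCnt (hHp : SpecHpair) (hCb : SpecCntB) (hC0 : SpecCnt0) (hCl : SpecCntL)
    (hCp : SpecCntP) : SpecCnt := by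
  intro E _ U V _ _ h k
  induction k using Nat.strong_induction_on with
  | _ k ih =>
  intro M hM Λ hΛ
  have hq3 := U.q3
  change (SS U h k M Λ).Finite ∧ (((SS U h k M Λ).ncard : ℕ) : ℝ) = _
  by_cases h0 : Λ = 0
  · subst h0
    rw [SS_zero U h hM]
    refine ⟨Set.finite_singleton _, ?_⟩
    rw [Set.ncard_singleton, tworho_zero, AA_zero]; simp
  obtain ⟨m, rfl⟩ : ∃ m, k = m + 2 := by
    match k, Λ, hΛ, h0 with
    | 0, Λ, _, h0 => exact absurd (Subsingleton.elim _ _) h0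
    | 1, Λ, hΛ, h0 =>
      exfalso
      apply h0
      funext i
      have h1 := hΛ.2 i
      have h2 : Fin.rev i = i := Subsingleton.elim _ _
      rw [h2] at h1
      rw [Pi.zero_apply]; omega
    | m + 2, _, _, _ => exact ⟨m, rfl⟩
  have hpos0 : 0 < Λ 0 := by
    rcases lt_or_eq_of_le (first_nonneg hΛ) with h1 | h1
    · exact h1
    · exact absurd (zero_of_first hΛ h1.symm) h0
  obtain ⟨a, haΛ⟩ : ∃ a : ℕ, Λ 0 = a := ⟨(Λ 0).toNat, by omega⟩
  have ha1 : 1 ≤ a := by omega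
  set S := SS U h (m + 2) M Λ with hS
  set mk : V → V ⧸ sc U ((2 * a : ℕ) : ℤ) M := QuotientAddGroup.mk with hmk
  set C : Set (V ⧸ sc U ((2 * a : ℕ) : ℤ) M) :=
    mk '' {v : V | v ∈ Prim U M ∧ ‖h.h v v‖ ≤ ‖U.ϖ‖ ^ (2 * a)} with hC
  set R : AddSubgroup V → (V ⧸ sc U ((2 * a : ℕ) : ℤ) M) → Prop := fun L c =>
    c ∈ mk '' {v | v ∈ Prim U M ∧ (U.ϖ ^ (-(a : ℤ))) • v ∈ L} with hR
  set C0 := ncls (sc U 1 M) {v : V | v ∈ Prim U M ∧ ‖h.h v v‖ < 1} with hC0d
  have hCcard : C.ncard = C0 * U.q ^ ((2 * (m + 1) + 1) * (2 * a - 1)) :=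
    hCl E U V h (m + 1) M hM (2 * a) (by omega)
  have hC0card : ((C0 : ℕ) : ℤ) =
      ((U.q : ℤ) ^ (m + 2) - (-1) ^ (m + 2)) * ((U.q : ℤ) ^ (m + 1) - (-1) ^ (m + 1)) :=
    hC0 E U V h (m + 1) M hM
  have hC0pos : 0 < C0 := by
    have hz : ∀ n : ℕ, 1 ≤ n → (0 : ℤ) < (U.q : ℤ) ^ n - (-1) ^ n := by
      intro n hn
      have h1 : (1 : ℤ) < (U.q : ℤ) ^ n := one_lt_pow₀ (by exact_mod_cast (by omega : 1 < U.q))
        (by omega)
      rcases neg_one_pow_eq_or ℤ n with h2 | h2 <;> rw [h2] <;> linarith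
    have : (0 : ℤ) < (C0 : ℤ) := by
      rw [hC0card]
      exact mul_pos (hz _ (by omega)) (hz _ (by omega))
    exact_mod_cast this
  have hCfin : C.Finite := by
    apply Set.finite_of_ncard_pos
    rw [hCcard]
    positivity
  -- automatic integrality
  have hauto : ∀ L ∈ S, ∀ v : V, v ∈ Prim U M → (U.ϖ ^ (-(a : ℤ))) • v ∈ L →
      ‖h.h v v‖ ≤ ‖U.ϖ‖ ^ (2 * a) := by
    intro L hL v _ hvL
    have h1 := (specSdl E U V h _ L hL.1).1 _ hvL _ hvL
    rw [h.smul, smul_right, σ_zpow, norm_mul, norm_mul, norm_zpow'] at h1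
    have h2 : ‖h.h v v‖ = ‖U.ϖ‖ ^ (2 * a) *
        (‖U.ϖ‖ ^ (-(a : ℤ)) * (‖U.ϖ‖ ^ (-(a : ℤ)) * ‖h.h v v‖)) := by
      rw [← mul_assoc, ← mul_assoc, ← zpow_natCast, ← zpow_add₀ U.ϖpos.ne',
        ← zpow_add₀ U.ϖpos.ne']
      push_cast
      rw [show (2 * (a : ℤ) + -(a : ℤ) + -(a : ℤ)) = 0 by ring, zpow_zero, one_mul]
    rw [h2]
    have h3 : 0 ≤ ‖U.ϖ‖ ^ (2 * a) := by positivity
    calc _ ≤ ‖U.ϖ‖ ^ (2 * a) * 1 := mul_le_mul_of_nonneg_left h1 h3
      _ = _ := mul_one _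
  set r := (univ.filter (fun i => Λ i = Λ 0)).card with hr
  have hr1 : 1 ≤ r := by
    rw [hr, Nat.one_le_iff_ne_zero, card_ne_zero]
    exact ⟨0, by simp⟩
  -- classes of one lattice
  have hcl : ∀ L ∈ S, {c | c ∈ C ∧ R L c}.ncard * U.q ^ (2 * r) =
      U.q ^ (2 * a * (m + 2)) * (U.q ^ (2 * r) - 1) := by
    intro L hL
    have : {c | c ∈ C ∧ R L c} = mk '' {v | v ∈ Prim U M ∧ (U.ϖ ^ (-(a : ℤ))) • v ∈ L} := by
      ext c
      constructor
      · exact fun h1 => h1.2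
      · rintro ⟨v, ⟨hv1, hv2⟩, rfl⟩
        exact ⟨⟨v, ⟨hv1, hauto L hL v hv1 hv2⟩, rfl⟩, ⟨v, ⟨hv1, hv2⟩, rfl⟩⟩
    rw [this]
    exact hCp E U V m M L Λ a hΛ ha1 haΛ hL.2
  -- lattices of one class
  have hlat : ∀ c ∈ C, {L | L ∈ S ∧ R L c}.Finite ∧ (({L | L ∈ S ∧ R L c}.ncard : ℕ) : ℝ) =
      (U.q : ℝ) ^ (tworho (inn Λ)) * AA ((U.q : ℝ)⁻¹) m (inn Λ) := by
    rintro c ⟨v, ⟨hv1, hv2⟩, rfl⟩
    obtain ⟨M', hM', F, hF⟩ := fibre U hHp hCb hM hΛ a ha1 haΛ hv1 hv2
    obtain ⟨i1, i2⟩ := ih m (by omega) M' hM' (inn Λ) (sym_inn hΛ)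
    change (SS U h m M' (inn Λ)).Finite at i1
    change (((SS U h m M' (inn Λ)).ncard : ℕ) : ℝ) = _ at i2
    refine ⟨?_, ?_⟩
    · exact Set.Finite.of_finite_image (by rw [hF.image_eq]; exact i1) hF.injOn
    · rw [← i2, ← hF.image_eq, hF.injOn.ncard_image]
  -- finiteness
  have hSfin : S.Finite := by
    refine (hCfin.biUnion fun c hc => (hlat c hc).1).subset ?_
    intro L hL
    have h1 := hcl L hL
    have h2 : {c | c ∈ C ∧ R L c}.Nonempty := by
      by_contra hne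
      rw [Set.not_nonempty_iff_eq_empty] at hne
      rw [hne, Set.ncard_empty, zero_mul] at h1
      have h3 : 1 < U.q ^ (2 * r) := Nat.one_lt_pow (by omega) (by omega)
      have h4 : 0 < U.q ^ (2 * a * (m + 2)) * (U.q ^ (2 * r) - 1) :=
        Nat.mul_pos (Nat.pow_pos (by omega)) (by omega)
      omega
    obtain ⟨c, hc, hRc⟩ := h2
    exact Set.mem_biUnion hc ⟨hL, hRc⟩
  refine ⟨hSfin, ?_⟩
  -- double counting
  classical
  have hdc := Finset.sum_card_bipartiteAbove_eq_sum_card_bipartiteBelow (s := hSfin.toFinset)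
    (t := hCfin.toFinset) R
  have hab : ∀ L ∈ hSfin.toFinset, ((bipartiteAbove R hCfin.toFinset L).card : ℝ) *
      (U.q : ℝ) ^ (2 * r) = (U.q : ℝ) ^ (2 * a * (m + 2)) * ((U.q : ℝ) ^ (2 * r) - 1) := by
    intro L hL
    have h1 := hcl L (hSfin.mem_toFinset.1 hL)
    have h2 : {c | c ∈ C ∧ R L c}.ncard = (bipartiteAbove R hCfin.toFinset L).card := by
      rw [← Set.ncard_coe_finset]
      congr 1
      ext c
      simp [bipartiteAbove]
    rw [h2] at h1
    have h3 : 1 ≤ U.q ^ (2 * r) := Nat.one_le_pow _ _ (by omega)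
    have h4 := congrArg (fun n : ℕ => (n : ℝ)) h1
    push_cast [Nat.cast_sub h3] at h4
    exact h4
  have hbe : ∀ c ∈ hCfin.toFinset, ((bipartiteBelow R hSfin.toFinset c).card : ℝ) =
      (U.q : ℝ) ^ (tworho (inn Λ)) * AA ((U.q : ℝ)⁻¹) m (inn Λ) := by
    intro c hc
    rw [← (hlat c (hCfin.mem_toFinset.1 hc)).2]
    congr 1
    rw [← Set.ncard_coe_finset]
    congr 1
    ext L
    simp [bipartiteBelow]
  have hmain : ((S.ncard : ℕ) : ℝ) *
      ((U.q : ℝ) ^ (2 * a * (m + 2)) * ((U.q : ℝ) ^ (2 * r) - 1)) =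
      ((C.ncard : ℕ) : ℝ) * ((U.q : ℝ) ^ (tworho (inn Λ)) * AA ((U.q : ℝ)⁻¹) m (inn Λ)) *
        (U.q : ℝ) ^ (2 * r) := by
    have e1 : S.ncard = hSfin.toFinset.card := Set.ncard_eq_toFinset_card S hSfin
    have e2 : C.ncard = hCfin.toFinset.card := Set.ncard_eq_toFinset_card C hCfin
    rw [e1, e2]
    calc (hSfin.toFinset.card : ℝ) * ((U.q : ℝ) ^ (2 * a * (m + 2)) * ((U.q : ℝ) ^ (2 * r) - 1))
        = ∑ L ∈ hSfin.toFinset, ((bipartiteAbove R hCfin.toFinset L).card : ℝ) *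
            (U.q : ℝ) ^ (2 * r) := by
          rw [sum_congr rfl hab, sum_const, nsmul_eq_mul]
      _ = ((∑ L ∈ hSfin.toFinset, (bipartiteAbove R hCfin.toFinset L).card : ℕ) : ℝ) *
            (U.q : ℝ) ^ (2 * r) := by
          push_cast
          rw [sum_mul]
      _ = ((∑ c ∈ hCfin.toFinset, (bipartiteBelow R hSfin.toFinset c).card : ℕ) : ℝ) *
            (U.q : ℝ) ^ (2 * r) := by rw [hdc]
      _ = (∑ c ∈ hCfin.toFinset, ((bipartiteBelow R hSfin.toFinset c).card : ℝ)) *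
            (U.q : ℝ) ^ (2 * r) := by push_cast; rfl
      _ = _ := by rw [sum_congr rfl hbe, sum_const, nsmul_eq_mul]
  -- conclusion
  have hQ : (1 : ℝ) < (U.q : ℝ) := by exact_mod_cast (by omega : 1 < U.q)
  have hQ0 : (U.q : ℝ) ≠ 0 := by positivity
  have hC0R : (C0 : ℝ) = ((U.q : ℝ) ^ (m + 2) * (1 - (-((U.q : ℝ)⁻¹)) ^ (m + 2))) *
      ((U.q : ℝ) ^ (m + 1) * (1 - (-((U.q : ℝ)⁻¹)) ^ (m + 1))) := by
    have h1 := congrArg (fun n : ℤ => (n : ℝ)) hC0card
    push_cast at h1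
    have h2 : ∀ n : ℕ, (U.q : ℝ) ^ n * (1 - (-((U.q : ℝ)⁻¹)) ^ n) = (U.q : ℝ) ^ n - (-1) ^ n := by
      intro n
      rw [mul_sub, mul_one, ← mul_pow, mul_neg, mul_inv_cancel₀ hQ0]
    rw [h1, h2, h2]
  rw [hCcard] at hmain
  push_cast at hmain
  have hfin := calc_aux (U.q : ℝ) _ _ (AA ((U.q : ℝ)⁻¹) m (inn Λ)) ((S.ncard : ℕ) : ℝ)
    ((U.q : ℝ) ^ (tworho (inn Λ))) m a r hQ ha1 hr1 (C0 : ℝ) hC0R hmain
  rw [hfin, tworho_inn hΛ, zpow_add₀ hQ0, haΛ]
  have hAA : AA ((U.q : ℝ)⁻¹) (m + 2) Λ = (1 - (-((U.q : ℝ)⁻¹)) ^ (m + 2)) *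
      (1 - (-((U.q : ℝ)⁻¹)) ^ (m + 1)) / (1 - ((U.q : ℝ)⁻¹) ^ (2 * r)) *
        AA ((U.q : ℝ)⁻¹) m (inn Λ) := by
    rw [AA, if_neg hpos0.ne']
    rfl
  rw [hAA]
  congr 2

end MPtg
end
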