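import Pool.Agent.Lib.MP_3d2757_nt.Max

/-!
# COMPL: completeness of the Hall-Littlewood polynomials
-/

open Finset MeasureTheory

namespace MPtg

namespace ComplM

/-- equal elementary symmetric functions imply equality up to a permutation -/
theorem perm_of_esy {n : ℕ} (x y : Fin n → ℂ) (h : ∀ r ≤ n, esy x r = esy y r) :
    ∃ w : Equiv.Perm (Fin n), ∀ i, y (w i) = x i := by
  classical
  have hc : ∀ z : Fin n → ℂ, Multiset.card ((univ : Finset (Fin n)).val.map z) = n := by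
    intro z
    simp
  have he : ∀ (z : Fin n → ℂ) (r : ℕ), ((univ : Finset (Fin n)).val.map z).esymm r = esy z r := by
    intro z r
    rw [Finset.esymm_map_val]
    rfl
  have h1 : (((univ : Finset (Fin n)).val.map x).map fun t => Polynomial.X - Polynomial.C t).prod =
      (((univ : Finset (Fin n)).val.map y).map fun t => Polynomial.X - Polynomial.C t).prod := by
    rw [Multiset.prod_X_sub_X_eq_sum_esymm, Multiset.prod_X_sub_X_eq_sum_esymm, hc, hc]
    refine Finset.sum_congr rfl fun r hr => ?_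
    rw [Finset.mem_range] at hr
    rw [he, he, h r (by omega)]
  have h2 : (univ : Finset (Fin n)).val.map x = (univ : Finset (Fin n)).val.map y := by
    rw [← Polynomial.roots_multiset_prod_X_sub_C ((univ : Finset (Fin n)).val.map x), h1,
      Polynomial.roots_multiset_prod_X_sub_C]
  have h3 : ∀ c : ℂ, Nonempty ({i : Fin n // x i = c} ≃ {i : Fin n // y i = c}) := by
    intro c
    have h4 := congrArg (Multiset.count c) h2
    rw [Multiset.count_map, Multiset.count_map] at h4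
    have h5 : (univ.filter fun i : Fin n => c = x i).card =
        (univ.filter fun i : Fin n => c = y i).card := h4
    refine ⟨Fintype.equivOfCardEq ?_⟩
    rw [Fintype.card_subtype, Fintype.card_subtype]
    simpa only [eq_comm] using h5
  refine ⟨Equiv.ofFiberEquiv (f := x) (g := y) fun c => (h3 c).some, fun i => ?_⟩
  exact Equiv.ofFiberEquiv_map (f := x) (g := y) (fun c => (h3 c).some) i

/-- the span of the functions `RP_L(1/x)` on the torus -/
noncomputable def W (n : ℕ) (u : ℝ) : Submodule ℂ ((Fin n → UnitAddCircle) → ℂ) :=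
  Submodule.span ℂ {g | ∃ L : Fin n → ℤ, Antitone L ∧
    g = fun θ => RP (u : ℂ) L (fun i => (ze θ i)⁻¹)}

theorem ze_inv_ne {n : ℕ} (θ : Fin n → UnitAddCircle) (i : Fin n) : (ze θ i)⁻¹ ≠ 0 :=
  inv_ne_zero (TriM.ze_ne θ i)

/-- a multiplier of `W` -/
def Mul (n : ℕ) (u : ℝ) (φ : (Fin n → UnitAddCircle) → ℂ) : Prop :=
  ∀ g ∈ W n u, (fun θ => φ θ * g θ) ∈ W n u

theorem Mul.of_gen {n : ℕ} {u : ℝ} {φ : (Fin n → UnitAddCircle) → ℂ}
    (h : ∀ L : Fin n → ℤ, Antitone L →
      (fun θ => φ θ * RP (u : ℂ) L (fun i => (ze θ i)⁻¹)) ∈ W n u) : Mul n u φ := by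
  intro g hg
  induction hg using Submodule.span_induction with
  | mem g hg =>
    obtain ⟨L, hL, rfl⟩ := hg
    exact h L hL
  | zero =>
    have : (fun θ => φ θ * (0 : (Fin n → UnitAddCircle) → ℂ) θ) = 0 := by
      funext θ
      simp
    rw [this]
    exact Submodule.zero_mem _
  | add g g' _ _ h1 h2 =>
    have : (fun θ => φ θ * (g + g') θ) = (fun θ => φ θ * g θ) + fun θ => φ θ * g' θ := by
      funext θ
      simp [mul_add]
    rw [this]
    exact Submodule.add_mem _ h1 h2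
  | smul c g _ h1 =>
    have : (fun θ => φ θ * (c • g) θ) = c • fun θ => φ θ * g θ := by
      funext θ
      simp only [Pi.smul_apply, smul_eq_mul]
      ring
    rw [this]
    exact Submodule.smul_mem _ _ h1

theorem Mul.mul {n : ℕ} {u : ℝ} {φ ψ : (Fin n → UnitAddCircle) → ℂ} (h1 : Mul n u φ)
    (h2 : Mul n u ψ) : Mul n u (fun θ => φ θ * ψ θ) := by
  intro g hg
  have := h1 _ (h2 g hg)
  have e : (fun θ => φ θ * ψ θ * g θ) = fun θ => φ θ * (ψ θ * g θ) := by
    funext θ
    ring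
  rw [e]
  exact this

theorem Mul.add {n : ℕ} {u : ℝ} {φ ψ : (Fin n → UnitAddCircle) → ℂ} (h1 : Mul n u φ)
    (h2 : Mul n u ψ) : Mul n u (fun θ => φ θ + ψ θ) := by
  intro g hg
  have := Submodule.add_mem _ (h1 g hg) (h2 g hg)
  have e : (fun θ => (φ θ + ψ θ) * g θ) = (fun θ => φ θ * g θ) + fun θ => ψ θ * g θ := by
    funext θ
    simp [add_mul]
  rw [e]
  exact this

theorem Mul.const {n : ℕ} {u : ℝ} (c : ℂ) : Mul n u (fun _ => c) := fun _ hg =>
  Submodule.smul_mem _ c hg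

theorem mul_e (hS : SpecSrt0) (hR : SpecRpp) {n : ℕ} (u : ℝ) (h0 : 0 < u) (h1 : u < 1) (r : ℕ)
    (hr : r ≤ n) : Mul n u (fun θ => esy (fun i => (ze θ i)⁻¹) r) := by
  refine Mul.of_gen fun L hL => ?_
  have h := (hR n u h0 h1).2.2.2 L hL
  have e : (fun θ : Fin n → UnitAddCircle => esy (fun i => (ze θ i)⁻¹) r *
      RP (u : ℂ) L (fun i => (ze θ i)⁻¹)) =
      ∑ S ∈ powersetCard r (univ : Finset (Fin n)), ((u : ℂ) ^ (inv2 L S)) •
        fun θ : Fin n → UnitAddCircle => RP (u : ℂ) (srt (L + eps S)) (fun i => (ze θ i)⁻¹) := by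
    funext θ
    rw [h _ (ze_inv_ne θ) r hr, Finset.sum_apply]
    rfl
  rw [e]
  refine Submodule.sum_mem _ fun S _ => Submodule.smul_mem _ _ (Submodule.subset_span ?_)
  exact ⟨_, (hS n (L + eps S)).1, rfl⟩

theorem psc {n : ℕ} : powersetCard n (univ : Finset (Fin n)) = {univ} := by
  have := Finset.powersetCard_self (univ : Finset (Fin n))
  rw [Finset.card_univ, Fintype.card_fin] at this
  exact this

theorem esy_top {n : ℕ} (x : Fin n → ℂ) : esy x n = ∏ i, x i := by
  unfold esy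
  rw [psc, Finset.sum_singleton]

/-- multiplication by the inverse of `e_n` -/
theorem mul_inv (hS : SpecSrt0) (hR : SpecRpp) {n : ℕ} (u : ℝ) (h0 : 0 < u) (h1 : u < 1) :
    Mul n u (fun θ => ∏ i, ze θ i) := by
  refine Mul.of_gen fun L hL => ?_
  set L' : Fin n → ℤ := fun i => L i - 1 with hL'
  have hL'a : Antitone L' := fun i j hij => sub_le_sub_right (hL hij) 1
  have h := (hR n u h0 h1).2.2.2 L' hL'a
  have e : (fun θ : Fin n → UnitAddCircle => (∏ i, ze θ i) *
      RP (u : ℂ) L (fun i => (ze θ i)⁻¹)) =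
      fun θ : Fin n → UnitAddCircle => RP (u : ℂ) L' (fun i => (ze θ i)⁻¹) := by
    funext θ
    have h2 := h _ (ze_inv_ne θ) n le_rfl
    have h3 : powersetCard n (univ : Finset (Fin n)) = {univ} := psc
    have h4 : L' + eps univ = L := by
      funext i
      simp [hL', eps]
    have h5 : inv2 L' univ = 0 := by
      unfold inv2
      rw [Finset.card_eq_zero, Finset.filter_eq_empty_iff]
      intro p _ hp
      exact hp.2.1 (Finset.mem_univ _)
    rw [esy_top, h3, Finset.sum_singleton, h4, h5, pow_zero, one_mul, (hS n L).2.2.1 hL] at h2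
    rw [← h2, ← mul_assoc, ← Finset.prod_mul_distrib]
    have h6 : ∀ i, ze θ i * (ze θ i)⁻¹ = 1 := fun i => mul_inv_cancel₀ (TriM.ze_ne θ i)
    simp only [h6, Finset.prod_const_one, one_mul]
  rw [e]
  exact Submodule.subset_span ⟨L', hL'a, rfl⟩

theorem esy_inv {n : ℕ} (x : Fin n → ℂ) (hx : ∀ i, x i ≠ 0) (r : ℕ) (hr : r ≤ n) :
    esy x r = (∏ i, x i) * esy (fun i => (x i)⁻¹) (n - r) := by
  classical
  unfold esy
  rw [Finset.mul_sum]
  refine Finset.sum_bij' (fun S _ => Sᶜ) (fun S _ => Sᶜ) ?_ ?_ ?_ ?_ ?_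
  · intro S hS
    rw [Finset.mem_powersetCard] at hS ⊢
    refine ⟨Finset.subset_univ _, ?_⟩
    rw [Finset.card_compl, Fintype.card_fin, hS.2]
  · intro S hS
    rw [Finset.mem_powersetCard] at hS ⊢
    refine ⟨Finset.subset_univ _, ?_⟩
    rw [Finset.card_compl, Fintype.card_fin, hS.2]
    omega
  · intro S _
    exact compl_compl S
  · intro S _
    exact compl_compl S
  · intro S _
    rw [← Finset.prod_mul_prod_compl S, mul_assoc, ← Finset.prod_mul_distrib]
    have h6 : ∀ i, x i * (x i)⁻¹ = 1 := fun i => mul_inv_cancel₀ (hx i)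
    simp only [h6, Finset.prod_const_one, mul_one]

theorem mul_conj (hS : SpecSrt0) (hR : SpecRpp) {n : ℕ} (u : ℝ) (h0 : 0 < u) (h1 : u < 1) (r : ℕ)
    (hr : r ≤ n) : Mul n u (fun θ => esy (ze θ) r) := by
  have h := (mul_inv hS hR u h0 h1).mul (mul_e hS hR u h0 h1 (n - r) (Nat.sub_le n r))
  have e : (fun θ : Fin n → UnitAddCircle => esy (ze θ) r) = fun θ =>
      (∏ i, ze θ i) * esy (fun i => (ze θ i)⁻¹) (n - r) := by
    funext θ
    exact esy_inv _ (TriM.ze_ne θ) r hr
  rw [e]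
  exact h

theorem vv_ne (n : ℕ) (u : ℝ) (h0 : 0 < u) : vv n (u : ℂ) ≠ 0 := by
  unfold vv
  refine Finset.prod_ne_zero_iff.2 fun k _ => ?_
  have : (0 : ℝ) < ∑ l ∈ range (k + 1), u ^ l :=
    Finset.sum_pos (fun l _ => pow_pos h0 l) ⟨0, by simp⟩
  have h2 : ((∑ l ∈ range (k + 1), u ^ l : ℝ) : ℂ) ≠ 0 := by
    exact_mod_cast this.ne'
  push_cast at h2
  exact h2

theorem one_mem (hR : SpecRpp) {n : ℕ} (u : ℝ) (h0 : 0 < u) (h1 : u < 1) :
    (fun _ => 1 : (Fin n → UnitAddCircle) → ℂ) ∈ W n u := by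
  have h := (hR n u h0 h1).1
  have e : (fun _ => 1 : (Fin n → UnitAddCircle) → ℂ) = (vv n (u : ℂ))⁻¹ •
      fun θ : Fin n → UnitAddCircle => RP (u : ℂ) 0 (fun i => (ze θ i)⁻¹) := by
    funext θ
    rw [Pi.smul_apply, h _ (ze_inv_ne θ), smul_eq_mul, inv_mul_cancel₀ (vv_ne n u h0)]
  rw [e]
  exact Submodule.smul_mem _ _ (Submodule.subset_span ⟨0, fun _ _ _ => le_rfl, rfl⟩)

/-! ### the quotient by the symmetric group -/

/-- the elementary symmetric functions of `1/x` -/
noncomputable def E {n : ℕ} (θ : Fin n → UnitAddCircle) : Fin n → ℂ :=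
  fun r => esy (fun i => (ze θ i)⁻¹) (r + 1)

theorem cont_esy {n : ℕ} (r : ℕ) : Continuous fun x : Fin n → ℂ => esy x r := by
  unfold esy
  fun_prop

theorem cont_zinv (n : ℕ) : Continuous fun θ : Fin n → UnitAddCircle => fun i => (ze θ i)⁻¹ :=
  continuous_pi fun i => (TriM.cont_zei i).inv₀ fun θ => TriM.ze_ne θ i

theorem cont_E (n : ℕ) : Continuous (E : (Fin n → UnitAddCircle) → (Fin n → ℂ)) :=
  continuous_pi fun r => (cont_esy (r + 1)).comp (cont_zinv n)

theorem conj_ze {n : ℕ} (θ : Fin n → UnitAddCircle) (i : Fin n) :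
    (starRingEnd ℂ) ((ze θ i)⁻¹) = ze θ i := by
  have h := TbM.norm_ze n θ i
  rw [Complex.inv_def, Complex.normSq_eq_norm_sq, h]
  simp

theorem conj_esy {n : ℕ} (θ : Fin n → UnitAddCircle) (r : ℕ) :
    (starRingEnd ℂ) (esy (fun i => (ze θ i)⁻¹) r) = esy (ze θ) r := by
  unfold esy
  rw [map_sum]
  refine Finset.sum_congr rfl fun S _ => ?_
  rw [map_prod]
  exact Finset.prod_congr rfl fun i _ => conj_ze θ i

/-- the quotient map -/
noncomputable def Eq' (n : ℕ) : C(Fin n → UnitAddCircle, Set.range (E (n := n))) :=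
  ⟨Set.rangeFactorization E, (cont_E n).subtype_mk _⟩

theorem quot (n : ℕ) : Topology.IsQuotientMap (Eq' n) :=
  Topology.IsQuotientMap.of_surjective_continuous Set.rangeFactorization_surjective
    (Eq' n).continuous

instance comp (n : ℕ) : CompactSpace (Set.range (E (n := n))) :=
  isCompact_iff_compactSpace.1 (isCompact_range (cont_E n))

theorem Eq'_val {n : ℕ} (θ : Fin n → UnitAddCircle) (r : Fin n) :
    (Eq' n θ : Fin n → ℂ) r = esy (fun i => (ze θ i)⁻¹) (r + 1) := rfl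

/-- the subalgebra of multipliers -/
noncomputable def A (n : ℕ) (u : ℝ) : StarSubalgebra ℂ C(Set.range (E (n := n)), ℂ) where
  carrier := {φ | Mul n u (fun θ => φ (Eq' n θ)) ∧ Mul n u (fun θ => (star φ) (Eq' n θ))}
  mul_mem' := by
    rintro φ ψ ⟨h1, h2⟩ ⟨h3, h4⟩
    refine ⟨h1.mul h3, ?_⟩
    have := h2.mul h4
    have e : (fun θ => (star (φ * ψ)) (Eq' n θ)) = fun θ => (star φ) (Eq' n θ) *
        (star ψ) (Eq' n θ) := by
      funext θ
      simp
    rw [e]
    exact this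
  add_mem' := by
    rintro φ ψ ⟨h1, h2⟩ ⟨h3, h4⟩
    refine ⟨h1.add h3, ?_⟩
    have := h2.add h4
    have e : (fun θ => (star (φ + ψ)) (Eq' n θ)) = fun θ => (star φ) (Eq' n θ) +
        (star ψ) (Eq' n θ) := by
      funext θ
      simp
    rw [e]
    exact this
  algebraMap_mem' := fun c => ⟨Mul.const c, Mul.const (star c)⟩
  star_mem' := by
    rintro φ ⟨h1, h2⟩
    refine ⟨h2, ?_⟩
    rw [star_star]
    exact h1

/-- the coordinates -/
noncomputable def co (n : ℕ) (r : Fin n) : C(Set.range (E (n := n)), ℂ) :=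
  ⟨fun k => (k : Fin n → ℂ) r, (continuous_apply r).comp continuous_subtype_val⟩

theorem co_mem (hS : SpecSrt0) (hR : SpecRpp) {n : ℕ} (u : ℝ) (h0 : 0 < u) (h1 : u < 1)
    (r : Fin n) : co n r ∈ A n u := by
  refine ⟨mul_e hS hR u h0 h1 (r + 1) r.2, ?_⟩
  have h := mul_conj hS hR u h0 h1 (n := n) (r + 1) r.2
  have e : (fun θ : Fin n → UnitAddCircle => (star (co n r)) (Eq' n θ)) =
      fun θ => esy (ze θ) (r + 1) := by
    funext θ
    rw [← conj_esy]
    rfl
  rw [e]
  exact h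

theorem dense (hS : SpecSrt0) (hR : SpecRpp) {n : ℕ} (u : ℝ) (h0 : 0 < u) (h1 : u < 1) :
    (A n u).topologicalClosure = ⊤ := by
  refine ContinuousMap.starSubalgebra_topologicalClosure_eq_top_of_separatesPoints _ ?_
  intro k k' hk
  have : ∃ r, (k : Fin n → ℂ) r ≠ (k' : Fin n → ℂ) r := by
    by_contra h
    push Not at h
    exact hk (Subtype.ext (funext h))
  obtain ⟨r, hr⟩ := this
  exact ⟨_, ⟨co n r, co_mem hS hR u h0 h1 r, rfl⟩, hr⟩

/-! ### the weight -/

/-- `kD` on the circle -/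
noncomputable def kd (u : ℝ) (z : ℂ) : ℝ :=
  Complex.normSq (1 - z) / Complex.normSq (1 - (u : ℂ) * z)

theorem kD_eq (u : ℝ) (z : ℂ) (hz : ‖z‖ = 1) : kD (u : ℂ) z = (kd u z : ℂ) := by
  have hzi : z⁻¹ = (starRingEnd ℂ) z := by
    rw [Complex.inv_def, Complex.normSq_eq_norm_sq, hz]
    simp
  unfold kD kd
  rw [hzi, Complex.ofReal_div, ← Complex.mul_conj, ← Complex.mul_conj]
  simp

theorem kd_pos (u : ℝ) (h0 : 0 < u) (h1 : u < 1) (z : ℂ) (hz : ‖z‖ = 1) :
    0 ≤ kd u z ∧ (z ≠ 1 → 0 < kd u z) := by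
  have hd : 0 < Complex.normSq (1 - (u : ℂ) * z) := by
    rw [Complex.normSq_pos]
    intro h
    have h2 : ‖(u : ℂ) * z‖ = 1 := by rw [← sub_eq_zero.1 h, norm_one]
    rw [norm_mul, hz, mul_one, Complex.norm_real, Real.norm_eq_abs, abs_of_pos h0] at h2
    linarith
  refine ⟨div_nonneg (Complex.normSq_nonneg _) hd.le, fun hz1 => div_pos ?_ hd⟩
  rw [Complex.normSq_pos]
  exact sub_ne_zero.2 (Ne.symm hz1)

/-- the real weight -/
noncomputable def dd (u : ℝ) {n : ℕ} (x : Fin n → ℂ) : ℝ := ∏ i, ∏ j ∈ Ioi i, kd u (x i / x j)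

theorem prd_dd (u : ℝ) {n : ℕ} (x : Fin n → ℂ) (hx : ∀ i, ‖x i‖ = 1) :
    prd (kD (u : ℂ)) x = (dd u x : ℂ) := by
  unfold prd dd
  push_cast
  refine Finset.prod_congr rfl fun i _ => Finset.prod_congr rfl fun j _ => ?_
  exact kD_eq u _ (by rw [norm_div, hx, hx, div_one])

theorem dd_nonneg (u : ℝ) (h0 : 0 < u) (h1 : u < 1) {n : ℕ} (x : Fin n → ℂ)
    (hx : ∀ i, ‖x i‖ = 1) : 0 ≤ dd u x :=
  Finset.prod_nonneg fun i _ => Finset.prod_nonneg fun j _ =>
    (kd_pos u h0 h1 _ (by rw [norm_div, hx, hx, div_one])).1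

theorem dd_pos (u : ℝ) (h0 : 0 < u) (h1 : u < 1) {n : ℕ} (x : Fin n → ℂ)
    (hx : ∀ i, ‖x i‖ = 1) (hinj : Function.Injective x) : 0 < dd u x := by
  refine Finset.prod_pos fun i _ => Finset.prod_pos fun j hj => ?_
  refine (kd_pos u h0 h1 _ (by rw [norm_div, hx, hx, div_one])).2 fun h => ?_
  rw [div_eq_one_iff_eq (OrtM.ne_of_norm hx j)] at h
  rw [Finset.mem_Ioi] at hj
  exact hj.ne (hinj h)

theorem kD_cont (u : ℝ) (h0 : 0 < u) (h1 : u < 1) :
    ContinuousOn (kD (u : ℂ)) (Metric.sphere 0 1) := by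
  intro z hz
  have hz' : ‖z‖ = 1 := mem_sphere_zero_iff_norm.1 hz
  have hz0 : z ≠ 0 := by
    rintro rfl
    rw [norm_zero] at hz'
    exact zero_ne_one hz'
  have hu := OrtM.norm_u u h0 h1
  unfold kD
  refine ContinuousAt.continuousWithinAt (ContinuousAt.div ?_ ?_ ?_)
  · exact (by fun_prop : ContinuousAt (fun z : ℂ => 1 - z) z).mul
      (continuousAt_const.sub (continuousAt_inv₀ hz0))
  · exact (by fun_prop : ContinuousAt (fun z : ℂ => 1 - (u : ℂ) * z) z).mul
      (continuousAt_const.sub (continuousAt_const.mul (continuousAt_inv₀ hz0)))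
  · refine mul_ne_zero ?_ ?_
    · intro h
      have h2 : ‖(u : ℂ) * z‖ = 1 := by rw [← sub_eq_zero.1 h, norm_one]
      rw [norm_mul, hz', mul_one] at h2
      exact absurd h2 hu.ne
    · intro h
      have h2 : ‖(u : ℂ) * z⁻¹‖ = 1 := by rw [← sub_eq_zero.1 h, norm_one]
      rw [norm_mul, norm_inv, hz', inv_one, mul_one] at h2
      exact absurd h2 hu.ne

theorem compl (hS : SpecSrt0) (hR : SpecRpp) : SpecCompl := by
  intro n u h0 h1 H hH hsym hort
  have := TbM.prob n
  have hD : Continuous fun θ : Fin n → UnitAddCircle => prd (kD (u : ℂ)) (ze θ) :=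
    TriM.cont_prd _ (kD_cont u h0 h1)
  -- integrals against `W`
  have hint : ∀ g : (Fin n → UnitAddCircle) → ℂ, Continuous g → Integrable g (muT n) := by
    intro g hg
    obtain ⟨C, hC⟩ := (isCompact_univ (X := Fin n → UnitAddCircle)).exists_bound_of_continuousOn
      hg.continuousOn
    exact Integrable.of_bound hg.aestronglyMeasurable C
      (Filter.Eventually.of_forall fun θ => hC θ (Set.mem_univ _))
  have hW : ∀ g ∈ W n u, Continuous g ∧
      ∫ θ, H θ * g θ * prd (kD (u : ℂ)) (ze θ) ∂(muT n) = 0 := by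
    intro g hg
    induction hg using Submodule.span_induction with
    | mem g hg =>
      obtain ⟨L, hL, rfl⟩ := hg
      exact ⟨OrtM.cont_of_inv _ ((hR n u h0 h1).2.1 L hL), hort L hL⟩
    | zero =>
      refine ⟨continuous_const, ?_⟩
      simp
    | add g g' _ _ h1 h2 =>
      refine ⟨h1.1.add h2.1, ?_⟩
      have e : (fun θ => H θ * (g + g') θ * prd (kD (u : ℂ)) (ze θ)) = fun θ =>
          H θ * g θ * prd (kD (u : ℂ)) (ze θ) + H θ * g' θ * prd (kD (u : ℂ)) (ze θ) := by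
        funext θ
        simp only [Pi.add_apply]
        ring
      rw [e]
      have e2 := integral_add
        (hint (fun θ => H θ * g θ * prd (kD (u : ℂ)) (ze θ)) ((hH.mul h1.1).mul hD))
        (hint (fun θ => H θ * g' θ * prd (kD (u : ℂ)) (ze θ)) ((hH.mul h2.1).mul hD))
      rw [h1.2, h2.2, add_zero] at e2
      exact e2
    | smul c g _ h1 =>
      refine ⟨h1.1.const_smul c, ?_⟩
      have e : (fun θ => H θ * (c • g) θ * prd (kD (u : ℂ)) (ze θ)) = fun θ =>
          c * (H θ * g θ * prd (kD (u : ℂ)) (ze θ)) := by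
        funext θ
        simp only [Pi.smul_apply, smul_eq_mul]
        ring
      rw [e, integral_const_mul, h1.2, mul_zero]
  -- `H` factors through the quotient
  have hfac : Function.FactorsThrough (⟨H, hH⟩ : C(Fin n → UnitAddCircle, ℂ)) (Eq' n) := by
    intro θ θ' hθ
    have h2 : ∀ r ≤ n, esy (fun i => (ze θ i)⁻¹) r = esy (fun i => (ze θ' i)⁻¹) r := by
      intro r hr
      cases r with
      | zero => simp [esy]
      | succ r =>
        have := congrArg (fun k : Set.range (E (n := n)) => (k : Fin n → ℂ) ⟨r, hr⟩) hθ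
        exact this
    obtain ⟨w, hw⟩ := perm_of_esy _ _ h2
    have h3 : (fun i => θ' (w i)) = θ := by
      funext i
      have h4 : ze θ' (w i) = ze θ i := inv_injective (hw i)
      unfold ze at h4
      exact AddCircle.injective_toCircle one_ne_zero (Circle.ext h4)
    show H θ = H θ'
    rw [← h3]
    exact hsym w θ'
  set h : C(Set.range (E (n := n)), ℂ) := (quot n).lift ⟨H, hH⟩ hfac with hh
  have hlift : ∀ θ, h (Eq' n θ) = H θ := by
    intro θ
    have := (quot n).lift_comp ⟨H, hH⟩ hfac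
    exact congrArg (fun f : C(Fin n → UnitAddCircle, ℂ) => f θ) this
  obtain ⟨B, hB⟩ := (isCompact_univ (X := Fin n → UnitAddCircle)).exists_bound_of_continuousOn
    (hH.mul hD).continuousOn
  have hB0 : 0 ≤ B := (norm_nonneg _).trans (hB 0 (Set.mem_univ _))
  -- the norm of `H`
  have key : ∫ θ, H θ * (starRingEnd ℂ) (H θ) * prd (kD (u : ℂ)) (ze θ) ∂(muT n) = 0 := by
    rw [← norm_le_zero_iff]
    refine le_of_forall_pos_le_add fun ε hε => ?_
    have hmem : star h ∈ (A n u).topologicalClosure := by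
      rw [dense hS hR u h0 h1]
      trivial
    have hcl : star h ∈ closure ((A n u : StarSubalgebra ℂ C(Set.range (E (n := n)), ℂ)) :
        Set C(Set.range (E (n := n)), ℂ)) := hmem
    obtain ⟨φ, hφ, hφd⟩ := Metric.mem_closure_iff.1 hcl (ε / (B + 1)) (by positivity)
    have h2 := hφ.1 _ (one_mem hR u h0 h1)
    simp only [mul_one] at h2
    obtain ⟨hc, h3⟩ := hW _ h2
    have hcH : Continuous fun θ => (starRingEnd ℂ) (H θ) := Complex.continuous_conj.comp hH
    have e : ∫ θ, H θ * (starRingEnd ℂ) (H θ) * prd (kD (u : ℂ)) (ze θ) ∂(muT n) =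
        ∫ θ, (H θ * prd (kD (u : ℂ)) (ze θ)) * ((starRingEnd ℂ) (H θ) - φ (Eq' n θ)) ∂(muT n) := by
      have h4 : (fun θ => (H θ * prd (kD (u : ℂ)) (ze θ)) *
          ((starRingEnd ℂ) (H θ) - φ (Eq' n θ))) = fun θ =>
          H θ * (starRingEnd ℂ) (H θ) * prd (kD (u : ℂ)) (ze θ) -
            H θ * φ (Eq' n θ) * prd (kD (u : ℂ)) (ze θ) := by
        funext θ
        ring
      have e2 := integral_sub
        (hint (fun θ => H θ * (starRingEnd ℂ) (H θ) * prd (kD (u : ℂ)) (ze θ))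
          ((hH.mul hcH).mul hD))
        (hint (fun θ => H θ * φ (Eq' n θ) * prd (kD (u : ℂ)) (ze θ)) ((hH.mul hc).mul hD))
      rw [h3, sub_zero] at e2
      rw [h4]
      exact e2.symm
    rw [e, zero_add]
    have h5 : ∀ θ, ‖(H θ * prd (kD (u : ℂ)) (ze θ)) *
        ((starRingEnd ℂ) (H θ) - φ (Eq' n θ))‖ ≤ ε := by
      intro θ
      have h6 : ‖(starRingEnd ℂ) (H θ) - φ (Eq' n θ)‖ ≤ ε / (B + 1) := by
        have h7 := ContinuousMap.dist_apply_le_dist (f := star h) (g := φ) (Eq' n θ)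
        have h8 : (star h) (Eq' n θ) = (starRingEnd ℂ) (H θ) := by
          rw [← hlift θ]
          rfl
        rw [h8, dist_eq_norm] at h7
        exact h7.trans hφd.le
      rw [norm_mul]
      calc ‖H θ * prd (kD (u : ℂ)) (ze θ)‖ * ‖(starRingEnd ℂ) (H θ) - φ (Eq' n θ)‖
          ≤ B * (ε / (B + 1)) := mul_le_mul (hB θ (Set.mem_univ _)) h6 (norm_nonneg _) hB0
        _ = ε * (B / (B + 1)) := by ring
        _ ≤ ε * 1 := by
          refine mul_le_mul_of_nonneg_left ?_ hε.le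
          rw [div_le_one (by positivity)]
          linarith
        _ = ε := mul_one ε
    have h9 := norm_integral_le_of_norm_le_const (μ := muT n)
      (Filter.Eventually.of_forall h5)
    simpa using h9
  have key2 : ∫ θ, (‖H θ‖ ^ 2 * dd u (ze θ) : ℝ) ∂(muT n) = 0 := by
    have h2 : (fun θ => H θ * (starRingEnd ℂ) (H θ) * prd (kD (u : ℂ)) (ze θ)) =
        fun θ => ((‖H θ‖ ^ 2 * dd u (ze θ) : ℝ) : ℂ) := by
      funext θ
      rw [Complex.mul_conj, Complex.normSq_eq_norm_sq, prd_dd u _ (TbM.norm_ze n θ)]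
      push_cast
      rfl
    rw [h2] at key
    have h5 := integral_ofReal (𝕜 := ℂ) (μ := muT n) (f := fun θ => ‖H θ‖ ^ 2 * dd u (ze θ))
    have h6 : ((∫ θ, (‖H θ‖ ^ 2 * dd u (ze θ) : ℝ) ∂(muT n) : ℝ) : ℂ) = 0 := h5.symm.trans key
    exact_mod_cast h6
  have hcd : Continuous fun θ : Fin n → UnitAddCircle => (‖H θ‖ ^ 2 * dd u (ze θ) : ℝ) := by
    have h3 : (fun θ : Fin n → UnitAddCircle => dd u (ze θ)) =
        fun θ => (prd (kD (u : ℂ)) (ze θ)).re := by
      funext θ
      rw [prd_dd u _ (TbM.norm_ze n θ), Complex.ofReal_re]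
    have h4 : Continuous fun θ : Fin n → UnitAddCircle => dd u (ze θ) := by
      rw [h3]
      exact Complex.continuous_re.comp hD
    exact (hH.norm.pow 2).mul h4
  have hnn : ∀ θ : Fin n → UnitAddCircle, 0 ≤ ‖H θ‖ ^ 2 * dd u (ze θ) := fun θ =>
    mul_nonneg (by positivity) (dd_nonneg u h0 h1 _ (TbM.norm_ze n θ))
  have hi : Integrable (fun θ : Fin n → UnitAddCircle => (‖H θ‖ ^ 2 * dd u (ze θ) : ℝ))
      (muT n) := by
    obtain ⟨C, hC⟩ := (isCompact_univ (X := Fin n → UnitAddCircle)).exists_bound_of_continuousOn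
      hcd.continuousOn
    exact Integrable.of_bound hcd.aestronglyMeasurable C
      (Filter.Eventually.of_forall fun θ => hC θ (Set.mem_univ _))
  have h3 := (integral_eq_zero_iff_of_nonneg hnn hi).1 key2
  have h4 : H =ᵐ[muT n] fun _ => 0 := by
    filter_upwards [h3, TbM.ae_inj n] with θ hθ hinj
    have h5 := dd_pos u h0 h1 _ (TbM.norm_ze n θ) hinj
    have h6 : ‖H θ‖ ^ 2 * dd u (ze θ) = 0 := hθ
    have h7 : ‖H θ‖ ^ 2 = 0 := (mul_eq_zero.1 h6).resolve_right h5.ne'
    exact norm_eq_zero.1 (pow_eq_zero_iff (two_ne_zero)|>.1 h7)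
  have hopen : (muT n).IsOpenPosMeasure := by unfold muT; infer_instance
  have h5 := (Continuous.ae_eq_iff_eq (muT n) hH continuous_const).1 h4
  intro θ
  exact congrFun h5 θ

end ComplM

/-- COMPL -/
theorem specCompl (hS : SpecSrt0) (hR : SpecRpp) : SpecCompl := ComplM.compl hS hR

end MPtg
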