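import Pool.Agent.Lib.MP_3d2757_nt.Torid

/-!
# CONT: the expansion in the whole domain of convergence
-/

open Finset MeasureTheory

namespace MPtg

namespace ContM

/-- a curve through `x` which meets the torus -/
noncomputable def X {n : ℕ} (x : Fin n → ℂ) (s : ℂ) : Fin n → ℂ :=
  fun i => x i / (‖x i‖ : ℂ) * Complex.exp (s * (Real.log ‖x i‖ : ℂ))

theorem norm_X {n : ℕ} (x : Fin n → ℂ) (hx : ∀ i, x i ≠ 0) (s : ℂ) (i : Fin n) :
    ‖X x s i‖ = Real.exp (s.re * Real.log ‖x i‖) := by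
  have h : ‖x i‖ ≠ 0 := norm_ne_zero_iff.2 (hx i)
  unfold X
  rw [norm_mul, norm_div, Complex.norm_real, norm_norm, div_self h, one_mul, Complex.norm_exp]
  simp

theorem X_ne {n : ℕ} (x : Fin n → ℂ) (hx : ∀ i, x i ≠ 0) (s : ℂ) (i : Fin n) : X x s i ≠ 0 := by
  rw [← norm_ne_zero_iff, norm_X x hx]
  exact (Real.exp_pos _).ne'

theorem X_one {n : ℕ} (x : Fin n → ℂ) (hx : ∀ i, x i ≠ 0) : X x 1 = x := by
  funext i
  have h : 0 < ‖x i‖ := norm_pos_iff.2 (hx i)
  have h2 : (‖x i‖ : ℂ) ≠ 0 := by exact_mod_cast h.ne'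
  unfold X
  rw [one_mul, ← Complex.ofReal_exp, Real.exp_log h, div_mul_cancel₀ _ h2]

theorem X_diff {n : ℕ} (x : Fin n → ℂ) (i : Fin n) : Differentiable ℂ fun s => X x s i := by
  unfold X
  fun_prop

theorem mon_diff {n : ℕ} (x : Fin n → ℂ) (hx : ∀ i, x i ≠ 0) (a : Fin n → ℤ) :
    Differentiable ℂ fun s => mon a (X x s) := by
  unfold mon
  refine Differentiable.fun_finsetProd fun i _ s => ?_
  exact (X_diff x i s).zpow (Or.inl (X_ne x hx s i))

theorem RP_diff (hP : SpecPoly) {n : ℕ} (u : ℝ) (h0 : 0 < u) (h1 : u < 1) (L : Fin n → ℤ)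
    (hL : Antitone L) (x : Fin n → ℂ) (hx : ∀ i, x i ≠ 0) :
    Differentiable ℂ fun s => RP (u : ℂ) L (X x s) := by
  obtain ⟨S, c, _, h⟩ := (hP n u h0 h1 L hL).2
  have e : (fun s => RP (u : ℂ) L (X x s)) = fun s => ∑ a ∈ S, c a * mon a (X x s) := by
    funext s
    exact h _ (X_ne x hx s)
  rw [e]
  exact Differentiable.fun_sum fun a _ => (mon_diff x hx a).const_mul (c a)

/-- the domain -/
def S (t : ℝ) {n : ℕ} (x : Fin n → ℂ) : Set ℂ :=
  {s | ∀ i j : Fin n, s.re * Real.log ‖x i‖ + Real.log t < s.re * Real.log ‖x j‖}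

theorem mem_S (t : ℝ) (h0 : 0 < t) {n : ℕ} (x : Fin n → ℂ) (hx : ∀ i, x i ≠ 0) (s : ℂ) :
    s ∈ S t x ↔ ∀ i j, ‖X x s i‖ * t < ‖X x s j‖ := by
  refine forall_congr' fun i => forall_congr' fun j => ?_
  rw [norm_X x hx, norm_X x hx, ← Real.exp_lt_exp, Real.exp_add, Real.exp_log h0]

theorem S_open (t : ℝ) {n : ℕ} (x : Fin n → ℂ) : IsOpen (S t x) := by
  have : S t x = ⋂ i : Fin n, ⋂ j : Fin n,
      {s : ℂ | s.re * Real.log ‖x i‖ + Real.log t < s.re * Real.log ‖x j‖} := by
    ext s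
    simp [S]
  rw [this]
  refine isOpen_iInter_of_finite fun i => isOpen_iInter_of_finite fun j => ?_
  exact isOpen_lt (by fun_prop) (by fun_prop)

theorem S_convex (t : ℝ) {n : ℕ} (x : Fin n → ℂ) : Convex ℝ (S t x) := by
  intro s hs s' hs' a b ha hb hab i j
  have h1 := hs i j
  have h2 := hs' i j
  have e : (a • s + b • s').re = a * s.re + b * s'.re := by simp
  rw [e]
  rcases ha.eq_or_lt with rfl | ha
  · rw [zero_add] at hab
    subst hab
    simpa using h2
  · have h3 := mul_lt_mul_of_pos_left h1 ha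
    have h4 := mul_le_mul_of_nonneg_left h2.le hb
    have h5 : Real.log t = a * Real.log t + b * Real.log t := by rw [← add_mul, hab, one_mul]
    nlinarith

theorem GG_diff (t : ℝ) (h0 : 0 < t) {n : ℕ} (x : Fin n → ℂ) (hx : ∀ i, x i ≠ 0) (s : ℂ)
    (hs : s ∈ S t x) : DifferentiableAt ℂ (fun s => GG t (X x s)) s := by
  rw [mem_S t h0 x hx] at hs
  unfold GG
  refine DifferentiableAt.fun_finsetProd fun i _ => DifferentiableAt.fun_finsetProd fun j _ => ?_
  have hd : DifferentiableAt ℂ (fun s => X x s i / X x s j) s :=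
    (X_diff x i s).div (X_diff x j s) (X_ne x hx s j)
  refine DifferentiableAt.div ((differentiableAt_const _).sub (hd.const_mul _))
    ((differentiableAt_const _).add (hd.const_mul _)) ?_
  intro h
  have h2 : (t : ℂ) * (X x s i / X x s j) = -1 := by
    linear_combination h
  have h3 : ‖(t : ℂ) * (X x s i / X x s j)‖ = 1 := by rw [h2, norm_neg, norm_one]
  have hj : 0 < ‖X x s j‖ := norm_pos_iff.2 (X_ne x hx s j)
  rw [norm_mul, norm_div, Complex.norm_real, Real.norm_eq_abs, abs_of_pos h0, ← mul_div_assoc,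
    div_eq_one_iff_eq hj.ne', mul_comm] at h3
  exact absurd h3 (hs i j).ne

theorem cont (hP : SpecPoly) (hTo : SpecTorid) (hB : SpecBound) (hSu : SpecSumLen)
    (hAb : SpecAb) : SpecCont := by
  intro n t h0 h1 x hx hxt
  have hu0 : 0 < t ^ 2 := by positivity
  have hu1 : t ^ 2 < 1 := by nlinarith
  have hsummable : ∀ y : Fin n → ℂ, (∀ i, y i ≠ 0) → (∀ i j, ‖y i‖ * t < ‖y j‖) →
      Summable (fun L : {L : Fin n → ℤ // Sym L} =>
        ‖ToridM.co t L.1 * RP (((t ^ 2 : ℝ)) : ℂ) L.1 y‖) := by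
    intro y hy hyt
    obtain ⟨C, s, η, hs0, hs1, hη, hb⟩ := ToridM.term_bound hB hAb n t h0 h1 (fun i => ‖y i‖)
      (fun i => norm_pos_iff.2 (hy i)) hyt
    refine Summable.of_nonneg_of_le (fun _ => norm_nonneg _) (fun L => ?_)
      ((hSu n s hs0 hs1).mul_left C)
    exact hb y (fun i => by rw [sub_self, abs_zero]; exact hη) L.1 L.2
  refine ⟨hsummable x hx hxt, ?_⟩
  set F : ℂ → ℂ := fun s => ∑' L : {L : Fin n → ℤ // Sym L},
    ToridM.co t L.1 * RP (((t ^ 2 : ℝ)) : ℂ) L.1 (X x s) with hF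
  have hFd : DifferentiableOn ℂ F (S t x) := by
    intro s₀ hs₀
    have hs₀' := (mem_S t h0 x hx s₀).1 hs₀
    obtain ⟨C, q, η, hq0, hq1, hη, hb⟩ := ToridM.term_bound hB hAb n t h0 h1
      (fun i => ‖X x s₀ i‖) (fun i => norm_pos_iff.2 (X_ne x hx s₀ i)) hs₀'
    set V : Set ℂ := {s | ∀ i : Fin n, |‖X x s i‖ - ‖X x s₀ i‖| < η} with hV
    have hVo : IsOpen V := by
      have : V = ⋂ i : Fin n, {s : ℂ | |‖X x s i‖ - ‖X x s₀ i‖| < η} := by
        ext s
        simp [hV]
      rw [this]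
      refine isOpen_iInter_of_finite fun i => ?_
      have hc : Continuous fun s => X x s i := (X_diff x i).continuous
      exact isOpen_lt (by fun_prop) (by fun_prop)
    have hVs : s₀ ∈ V := fun i => by rw [sub_self, abs_zero]; exact hη
    have h2 := Complex.differentiableOn_tsum_of_summable_norm
      (F := fun (L : {L : Fin n → ℤ // Sym L}) (s : ℂ) =>
        ToridM.co t L.1 * RP (((t ^ 2 : ℝ)) : ℂ) L.1 (X x s))
      ((hSu n q hq0 hq1).mul_left C)
      (fun L => ((RP_diff hP (t ^ 2) hu0 hu1 L.1 L.2.1 x hx).const_mul _).differentiableOn)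
      hVo (fun L s hs => hb (X x s) hs L.1 L.2)
    exact ((h2 s₀ hVs).differentiableAt (hVo.mem_nhds hVs)).differentiableWithinAt
  set v : ℂ := vv n (-(t : ℂ)) with hv
  have hGd : DifferentiableOn ℂ (fun s => v * GG t (X x s)) (S t x) := fun s hs =>
    ((GG_diff t h0 x hx s hs).const_mul v).differentiableWithinAt
  have h0S : (0 : ℂ) ∈ S t x := fun i j => by
    simp only [Complex.zero_re, zero_mul, zero_add]
    exact Real.log_neg h0 h1
  have h1S : (1 : ℂ) ∈ S t x := by
    rw [mem_S t h0 x hx, X_one x hx]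
    exact hxt
  have heq : ∀ s : ℂ, s.re = 0 → F s = v * GG t (X x s) := by
    intro s hs
    have h2 := hTo n t h0 h1 (X x s) fun i => by
      rw [norm_X x hx, hs, zero_mul, Real.exp_zero]
    exact h2.tsum_eq
  have hfreq : ∃ᶠ z in nhdsWithin (0 : ℂ) {0}ᶜ, F z = v * GG t (X x z) := by
    have h2 : Filter.Tendsto (fun k : ℕ => (((1 / ((k : ℝ) + 1) : ℝ) : ℂ) * Complex.I))
        Filter.atTop (nhdsWithin (0 : ℂ) {0}ᶜ) := by
      rw [tendsto_nhdsWithin_iff]
      constructor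
      · have h3 : Filter.Tendsto (fun k : ℕ => (1 / ((k : ℝ) + 1) : ℝ)) Filter.atTop (nhds 0) :=
          tendsto_one_div_add_atTop_nhds_zero_nat
        have h4 : Filter.Tendsto (fun r : ℝ => (r : ℂ) * Complex.I) (nhds 0) (nhds 0) := by
          have : Continuous fun r : ℝ => (r : ℂ) * Complex.I := by fun_prop
          have h5 := this.tendsto 0
          simpa using h5
        exact h4.comp h3
      · refine Filter.Eventually.of_forall fun k => ?_
        simp only [Set.mem_compl_iff, Set.mem_singleton_iff]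
        refine mul_ne_zero ?_ Complex.I_ne_zero
        have : (1 / ((k : ℝ) + 1) : ℝ) ≠ 0 := by positivity
        exact_mod_cast this
    refine h2.frequently (Filter.Frequently.of_forall fun k => heq _ ?_)
    simp
  have hmain := AnalyticOnNhd.eqOn_of_preconnected_of_frequently_eq
    (hFd.analyticOnNhd (S_open t x)) (hGd.analyticOnNhd (S_open t x))
    (S_convex t x).isPreconnected h0S hfreq
  have h3 := hmain h1S
  simp only [hF, X_one x hx] at h3
  have h4 := (Summable.of_norm (hsummable x hx hxt)).hasSum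
  rw [h3] at h4
  exact h4

end ContM

/-- CONT -/
theorem specCont (hP : SpecPoly) (hTo : SpecTorid) (hB : SpecBound) (hSu : SpecSumLen)
    (hAb : SpecAb) : SpecCont := ContM.cont hP hTo hB hSu hAb

end MPtg
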