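import Mathlib

/-!
# MP_3d2757_nt : internal definitions

Part 1: Hall-Littlewood sums.  Part 2: torus integrals.  Part 3: unramified quadratic extension
and lattices.  Part 4: Heisenberg and Weil data.  Part 5: `GL_n` and Hecke data.
-/

open Finset

namespace MPtg

/-! ## Part 1 -/

/-- characteristic vector of a set of indices -/
def eps {n : ℕ} (S : Finset (Fin n)) : Fin n → ℤ := fun i => if i ∈ S then 1 else 0

/-- the vector `(1^r, 0^{n-r})` -/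
def om (n r : ℕ) : Fin n → ℤ := fun i => if (i : ℕ) < r then 1 else 0

/-- pairing with the sum of positive roots -/
def tworho {n : ℕ} (L : Fin n → ℤ) : ℤ := ∑ i : Fin n, ((n : ℤ) - 1 - 2 * (i : ℤ)) * L i

/-- number of pairs `i < j`, `i ∈ S`, `j ∉ S` -/
def inv1 {n : ℕ} (S : Finset (Fin n)) : ℕ :=
  ((univ : Finset (Fin n × Fin n)).filter (fun p => p.1 < p.2 ∧ p.1 ∈ S ∧ p.2 ∉ S)).card

/-- number of pairs `i < j`, `i ∉ S`, `j ∈ S`, `L i = L j` -/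
def inv2 {n : ℕ} (L : Fin n → ℤ) (S : Finset (Fin n)) : ℕ :=
  ((univ : Finset (Fin n × Fin n)).filter
    (fun p => p.1 < p.2 ∧ p.1 ∉ S ∧ p.2 ∈ S ∧ L p.1 = L p.2)).card

/-- the antitone rearrangement -/
def srt {n : ℕ} (m : Fin n → ℤ) : Fin n → ℤ := fun i => m (Tuple.sort m (Fin.rev i))

/-- elementary symmetric function -/
noncomputable def esy {n : ℕ} (x : Fin n → ℂ) (r : ℕ) : ℂ :=
  ∑ S ∈ powersetCard r (univ : Finset (Fin n)), ∏ i ∈ S, x i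

/-- monomial -/
noncomputable def mon {n : ℕ} (a : Fin n → ℤ) (x : Fin n → ℂ) : ℂ := ∏ i, x i ^ a i

/-- Hall-Littlewood sum (not normalised) -/
noncomputable def HLR {n : ℕ} (u : ℂ) (L : Fin n → ℤ) (x : Fin n → ℂ) : ℂ :=
  ∑ w : Equiv.Perm (Fin n), mon L (fun i => x (w i)) *
    ∏ i, ∏ j ∈ Ioi i, (x (w i) - u * x (w j)) / (x (w i) - x (w j))

/-- `v_n(u) = ∏_{k=1}^n (1 + u + ... + u^{k-1})` -/
noncomputable def vv (n : ℕ) (u : ℂ) : ℂ := ∏ k ∈ range n, ∑ l ∈ range (k + 1), u ^ l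

/-- `v_L(u)`: product over `i` of `[#{j ≤ i : L j = L i}]_u` -/
noncomputable def vL {n : ℕ} (L : Fin n → ℤ) (u : ℂ) : ℂ :=
  ∏ i : Fin n, ∑ l ∈ range ((univ.filter (fun j : Fin n => j ≤ i ∧ L j = L i)).card), u ^ l

/-- antitone and skew-symmetric under reversal -/
def Sym {n : ℕ} (L : Fin n → ℤ) : Prop := Antitone L ∧ ∀ i, L (Fin.rev i) = - L i

/-- sum of the positive parts -/
def len {n : ℕ} (L : Fin n → ℤ) : ℕ := ∑ i, (L i).toNat

/-- the recursive factor `A_n(L)` (`t = 1/q`) -/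
noncomputable def AA (t : ℝ) : (n : ℕ) → (Fin n → ℤ) → ℝ
  | 0, _ => 1
  | 1, _ => 1
  | (m + 2), L => if L 0 = 0 then 1 else
      (1 - (-t) ^ (m + 2)) * (1 - (-t) ^ (m + 1)) /
        (1 - t ^ (2 * (univ.filter (fun i : Fin (m + 2) => L i = L 0)).card)) *
        AA t m (fun i => L i.castSucc.succ)

/-- the spherical recursion (eigenfunction of the Hecke algebra of `GL_n`, residue field `q^2`) -/
def IsSph {n : ℕ} (q : ℕ) (x : Fin n → ℂ) (P : (Fin n → ℤ) → ℂ) : Prop :=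
  P 0 = 1 ∧ ∀ L, Antitone L → ∀ r ≤ n,
    ∑ S ∈ powersetCard r (univ : Finset (Fin n)), (q : ℂ) ^ (2 * inv1 S) * P (srt (L + eps S)) =
      (q : ℂ) ^ (r * (n - r)) * esy x r * P L

/-- Laurent polynomial functions -/
def IsLP {n : ℕ} (f : (Fin n → ℂ) → ℂ) : Prop :=
  ∃ (s : Finset (Fin n → ℤ)) (c : (Fin n → ℤ) → ℂ),
    ∀ x, (∀ i, x i ≠ 0) → f x = ∑ a ∈ s, c a * mon a x

open Classical in
/-- the Laurent polynomial which agrees with `HLR u L` at points with distinct nonzero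
coordinates -/
noncomputable def RP {n : ℕ} (u : ℂ) (L : Fin n → ℤ) : (Fin n → ℂ) → ℂ :=
  if h : ∃ f : (Fin n → ℂ) → ℂ, IsLP f ∧
      ∀ x, (∀ i, x i ≠ 0) → Function.Injective x → f x = HLR u L x
  then h.choose else 0

/-! ## Part 2 -/

/-- the point of `(ℂ^×)^n` of an element of the torus -/
noncomputable def ze {n : ℕ} (θ : Fin n → UnitAddCircle) : Fin n → ℂ :=
  fun i => (AddCircle.toCircle (θ i) : ℂ)

/-- normalised Haar measure of the torus -/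
noncomputable def muT (n : ℕ) : MeasureTheory.Measure (Fin n → UnitAddCircle) :=
  MeasureTheory.Measure.pi (fun _ => AddCircle.haarAddCircle)

/-- torus integral of a function of `n` complex variables -/
noncomputable def tint {n : ℕ} (f : (Fin n → ℂ) → ℂ) : ℂ := ∫ θ, f (ze θ) ∂(muT n)

/-- `∏_{i<j} k(x_i/x_j)` -/
noncomputable def prd {n : ℕ} (k : ℂ → ℂ) (x : Fin n → ℂ) : ℂ :=
  ∏ i, ∏ j ∈ Ioi i, k (x i / x j)

/-- `(1-z)/(1-uz)` -/
noncomputable def kA (u z : ℂ) : ℂ := (1 - z) / (1 - u * z)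

/-- `(1-z)(1-1/z)/((1-uz)(1-u/z))` -/
noncomputable def kD (u z : ℂ) : ℂ := (1 - z) * (1 - z⁻¹) / ((1 - u * z) * (1 - u * z⁻¹))

/-- `(z-u)(1-z)/((z-u')(1-u'z))` -/
noncomputable def kK (u u' z : ℂ) : ℂ := (z - u) * (1 - z) / ((z - u') * (1 - u' * z))

/-- the integral `∫ x^a ∏_{i<j} h(x_i/x_j)`, `h(z) = (z-t^2)(1-z)/((z+t)(1+tz))` -/
noncomputable def Jint {n : ℕ} (t : ℝ) (a : Fin n → ℤ) : ℂ :=
  tint (fun x : Fin n → ℂ => mon a x * prd (kK ((t : ℂ) ^ 2) (-(t : ℂ))) x)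

/-- `∏_{i ≠ j} (1 - t^2 x_i/x_j)/(1 + t x_i/x_j)` -/
noncomputable def GG {n : ℕ} (t : ℝ) (x : Fin n → ℂ) : ℂ :=
  ∏ i, ∏ j ∈ univ.erase i, (1 - (t : ℂ) ^ 2 * (x i / x j)) / (1 + (t : ℂ) * (x i / x j))

/-! ## Part 3 -/

/-- An unramified quadratic extension of nonarchimedean local fields, seen from the big field:
`σ` the involution, `ϖ` a uniformizer fixed by `σ`, `q` the cardinality of the residue field of
the fixed field. -/
structure Unr (E : Type) [NormedField E] where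
  σ : E ≃+* E
  σσ : ∀ x, σ (σ x) = x
  σn : ∀ x, ‖σ x‖ = ‖x‖
  ϖ : E
  ϖpos : 0 < ‖ϖ‖
  ϖlt : ‖ϖ‖ < 1
  σϖ : σ ϖ = ϖ
  ultra : ∀ x y : E, ‖x + y‖ ≤ max ‖x‖ ‖y‖
  disc : ∀ x : E, x ≠ 0 → ∃ k : ℤ, ‖x‖ = ‖ϖ‖ ^ k
  two : ‖(2 : E)‖ = 1
  q : ℕ
  q3 : 3 ≤ q
  /-- representatives of the residue classes of the ring of integers -/
  rep : Finset E
  rep_zero : (0 : E) ∈ rep
  rep_card : rep.card = q ^ 2
  rep_int : ∀ r ∈ rep, ‖r‖ ≤ 1
  rep_ex : ∀ x : E, ‖x‖ ≤ 1 → ∃! r, r ∈ rep ∧ ‖x - r‖ < 1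
  /-- representatives of the residue classes of the `σ`-fixed integers -/
  rep0 : Finset E
  rep0_zero : (0 : E) ∈ rep0
  rep0_card : rep0.card = q
  rep0_int : ∀ r ∈ rep0, σ r = r ∧ ‖r‖ ≤ 1
  rep0_ex : ∀ x : E, σ x = x → ‖x‖ ≤ 1 → ∃! r, r ∈ rep0 ∧ ‖x - r‖ < 1
  /-- units of the fixed field are norms of units -/
  nrm : ∀ c : E, σ c = c → ‖c‖ = 1 → ∃ a : E, ‖a‖ = 1 ∧ c = a * σ a
  /-- square roots of principal units -/
  sq : ∀ x : E, σ x = x → ‖x - 1‖ < 1 → ∃ z : E, σ z = z ∧ z ^ 2 = x ∧ ‖z - 1‖ = ‖x - 1‖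
  δ : E
  δn : ‖δ‖ = 1
  σδ : σ δ = -δ

variable {E : Type} [NormedField E]

/-- skew-Hermitian form, linear in the first variable -/
structure SkF (U : Unr E) (V : Type) [AddCommGroup V] [Module E V] where
  h : V → V → E
  add : ∀ a b c, h (a + b) c = h a c + h b c
  smul : ∀ (x : E) (a b : V), h (x • a) b = x * h a b
  skew : ∀ a b, h b a = - U.σ (h a b)

variable {V : Type} [AddCommGroup V] [Module E V]

/-- `{∑ c_i b_i : |c_i| ≤ |ϖ|^{L_i}}` -/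
def box (U : Unr E) {k : ℕ} (b : Fin k → V) (L : Fin k → ℤ) : AddSubgroup V where
  carrier := {v | ∃ c : Fin k → E, (∀ i, ‖c i‖ ≤ ‖U.ϖ‖ ^ (L i)) ∧ v = ∑ i, c i • b i}
  add_mem' := by
    rintro a b' ⟨c, hc, rfl⟩ ⟨d, hd, rfl⟩
    refine ⟨fun i => c i + d i, fun i => (U.ultra _ _).trans (max_le (hc i) (hd i)), ?_⟩
    simp [add_smul, Finset.sum_add_distrib]
  zero_mem' := by
    refine ⟨fun _ => 0, fun i => ?_, by simp⟩
    simpa using (zpow_pos U.ϖpos (L i)).le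
  neg_mem' := by
    rintro a ⟨c, hc, rfl⟩
    refine ⟨fun i => - c i, fun i => by simpa using hc i, by simp⟩

/-- unimodular family: integral Gram matrix with unit determinant -/
def SDB (U : Unr E) (h : SkF U V) {k : ℕ} (b : Fin k → V) : Prop :=
  (∀ i j, ‖h.h (b i) (b j)‖ ≤ 1) ∧ ‖(Matrix.of fun i j => h.h (b i) (b j)).det‖ = 1

/-- self-dual lattice of rank `k` (in its `E`-span) -/
def SD (U : Unr E) (h : SkF U V) (M : AddSubgroup V) (k : ℕ) : Prop :=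
  ∃ b : Fin k → V, SDB U h b ∧ M = box U b 0

/-- `L` is in position `Λ` with respect to `M` -/
def Pos (U : Unr E) {k : ℕ} (M L : AddSubgroup V) (Λ : Fin k → ℤ) : Prop :=
  ∃ b : Fin k → V, LinearIndependent E b ∧ M = box U b 0 ∧ L = box U b Λ

/-- hyperbolic shape of the Gram matrix outside the block `Λ_i = 0` -/
def HypB (U : Unr E) (h : SkF U V) {k : ℕ} (b : Fin k → V) (Λ : Fin k → ℤ) : Prop :=
  (∀ i j, Λ i ≠ 0 → j ≠ Fin.rev i → h.h (b i) (b j) = 0) ∧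
    ∀ i, 0 < Λ i → h.h (b (Fin.rev i)) (b i) = 1

/-- number of classes modulo the subgroup `H` met by the set `S` -/
noncomputable def ncls (H : AddSubgroup V) (S : Set V) : ℕ :=
  Set.ncard ((QuotientAddGroup.mk : V → V ⧸ H) '' S)

/-- primitive vectors of the lattice `M`: in `M`, not in `ϖ M` -/
def Prim (U : Unr E) (M : AddSubgroup V) : Set V :=
  {v | v ∈ M ∧ ∀ w ∈ M, v ≠ U.ϖ • w}

/-- `ϖ^j M` -/
def sc (U : Unr E) (j : ℤ) (M : AddSubgroup V) : AddSubgroup V :=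
  M.map (DistribSMul.toAddMonoidHom V (U.ϖ ^ j))

/-! ## Part 4 -/

/-- isometry group of the form -/
def Iso (U : Unr E) (h : SkF U V) : Subgroup (V ≃ₗ[E] V) where
  carrier := {g | ∀ v w, h.h (g v) (g w) = h.h v w}
  mul_mem' := by
    intro a b ha hb v w
    show h.h (a (b v)) (a (b w)) = _
    rw [ha, hb]
  one_mem' := fun v w => rfl
  inv_mem' := by
    intro a ha v w
    have := ha (a⁻¹ v) (a⁻¹ w)
    have e : ∀ z, a (a⁻¹ z) = z := fun z => a.apply_symm_apply z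
    rw [e, e] at this
    exact this.symm

/-- Heisenberg and Weil data: `M` is a self-dual lattice which spans `V`. -/
structure WD (U : Unr E) (h : SkF U V) (k : ℕ) (M : AddSubgroup V)
    (S : Type) [NormedAddCommGroup S] [InnerProductSpace ℂ S] [CompleteSpace S] where
  sd : SD U h M k
  full : ∀ v : V, ∃ j : ℕ, (U.ϖ ^ j) • v ∈ M
  Ψ : AddChar E Circle
  Ψσ : ∀ x, Ψ (U.σ x) = Ψ x
  Ψint : ∀ x, ‖x‖ ≤ 1 → Ψ x = 1
  Ψnt : ∃ x, U.σ x = x ∧ ‖x‖ ≤ ‖U.ϖ‖⁻¹ ∧ Ψ x ≠ 1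
  ρ : V → (S ≃ₗᵢ[ℂ] S)
  mul : ∀ v w s, ρ v (ρ w s) = (Ψ (h.h v w) : ℂ) • ρ (v + w) s
  cont : ∀ s : S, ∀ ε > 0, ∃ j : ℕ, ∀ v ∈ M, ‖ρ ((U.ϖ ^ j) • v) s - s‖ < ε
  irr : ∀ W : Submodule ℂ S, IsClosed (W : Set S) → (∀ v, ∀ s ∈ W, ρ v s ∈ W) → W = ⊥ ∨ W = ⊤
  ω : ↥(Iso U h) →* (S ≃ₗᵢ[ℂ] S)
  comp : ∀ (g : ↥(Iso U h)) v s, ω g (ρ v s) = ρ ((g : V ≃ₗ[E] V) v) (ω g s)

/-! ## Part 5 -/

/-- `GL_n` of the ring of integers, as a set -/
def KS (E : Type) [NormedField E] (n : ℕ) : Set (GL (Fin n) E) :=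
  {g | (∀ i j, ‖(g : Matrix (Fin n) (Fin n) E) i j‖ ≤ 1) ∧
    ∀ i j, ‖((g⁻¹ : GL (Fin n) E) : Matrix (Fin n) (Fin n) E) i j‖ ≤ 1}

/-- `diag(ϖ^{L_i})` -/
noncomputable def dg {E : Type} [NormedField E] (ϖ : Eˣ) {n : ℕ} (L : Fin n → ℤ) :
    GL (Fin n) E where
  val := Matrix.diagonal fun i => ((ϖ ^ (L i) : Eˣ) : E)
  inv := Matrix.diagonal fun i => ((ϖ ^ (-L i) : Eˣ) : E)
  val_inv := by
    rw [Matrix.diagonal_mul_diagonal, ← Matrix.diagonal_one]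
    congr 1
    funext i
    rw [← Units.val_mul, ← zpow_add]
    simp
  inv_val := by
    rw [Matrix.diagonal_mul_diagonal, ← Matrix.diagonal_one]
    congr 1
    funext i
    rw [← Units.val_mul, ← zpow_add]
    simp

/-- the double coset `K diag(ϖ^r, 1^{n-r}) K` -/
def Dr {E : Type} [NormedField E] (ϖ : Eˣ) (n r : ℕ) : Set (GL (Fin n) E) :=
  {g | ∃ k₁ ∈ KS E n, ∃ k₂ ∈ KS E n, g = k₁ * dg ϖ (om n r) * k₂}

/-- the uniformizer as a unit of the field -/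
def Unr.w (U : Unr E) : Eˣ := Units.mk0 U.ϖ (norm_pos_iff.1 U.ϖpos)

/-- Satake parameters of a vector `f`: the Hecke operators `K diag(ϖ^r,1^{n-r}) K` have
eigenvalues `q^{r(n-r)} e_r(x)`, i.e. `q_E^{r(n-r)/2} e_r(x)`, on `f` -/
def IsSatake {E : Type} [NormedField E] (ϖ : Eˣ) (q : ℕ) {n : ℕ} {H : Type}
    [NormedAddCommGroup H] [InnerProductSpace ℂ H] [CompleteSpace H]
    (π : GL (Fin n) E →* (H ≃ₗᵢ[ℂ] H)) [MeasurableSpace (GL (Fin n) E)]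
    (ν : MeasureTheory.Measure (GL (Fin n) E)) (f : H) (x : Fin n → ℂ) : Prop :=
  ∀ r ≤ n, ∫ g in Dr ϖ n r, π g f ∂ν = ((q : ℂ) ^ (r * (n - r)) * esy x r) • f

/-- the unipotent-diagonal coset representative `n_c d_S` of `Dr ϖ n r` as a matrix -/
def tm {E : Type} [NormedField E] (ϖ : E) {n : ℕ} (S : Finset (Fin n)) (c : Fin n → Fin n → E) :
    Matrix (Fin n) (Fin n) E :=
  Matrix.of fun i j => (if i = j then (if i ∈ S then ϖ else 1) else 0) + c i j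

/-- the finite set of the parameters `c` -/
noncomputable def cS (U : Unr E) {n : ℕ} (S : Finset (Fin n)) : Finset (Fin n → Fin n → E) :=
  Fintype.piFinset fun i => Fintype.piFinset fun j =>
    if i < j ∧ i ∈ S ∧ j ∉ S then U.rep else {0}

/-- the cardinality of the residue field of a nonarchimedean field -/
noncomputable def resCard (F : Type) [NontriviallyNormedField F] [IsUltrametricDist F] : ℕ :=
  Nat.card (IsLocalRing.ResidueField (@Valued.integer F _ NNReal _ NormedField.toValued))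

end MPtg
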