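import Pool.Agent.Lib.MP_3d2757_nt.Cont

/-!
# DIV: divergence outside the domain of convergence
-/

open Finset MeasureTheory

namespace MPtg

namespace DivM

/-! ### the exponents `(m^a, 0^c, (-m)^a)` -/

/-- the exponent -/
def Lm (a c : ℕ) (m : ℕ) : Fin (a + (c + a)) → ℤ :=
  Fin.append (fun _ => (m : ℤ)) (Fin.append (fun _ => 0) (fun _ => -(m : ℤ)))

theorem Lm_apply (a c m : ℕ) (i : Fin (a + (c + a))) :
    Lm a c m i = if (i : ℕ) < a then (m : ℤ) else if (i : ℕ) < a + c then 0 else -(m : ℤ) := by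
  unfold Lm
  refine Fin.addCases (fun i => ?_) (fun i => ?_) i
  · rw [Fin.append_left, Fin.val_castAdd, if_pos i.2]
  · rw [Fin.append_right, Fin.val_natAdd, if_neg (by omega)]
    refine Fin.addCases (fun i => ?_) (fun i => ?_) i
    · rw [Fin.append_left, Fin.val_castAdd, if_pos (by omega)]
    · rw [Fin.append_right, Fin.val_natAdd, if_neg (by omega)]

theorem Lm_sym (a c m : ℕ) : Sym (Lm a c m) := by
  constructor
  · intro i j hij
    have hij' : (i : ℕ) ≤ j := hij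
    rw [Lm_apply, Lm_apply]
    split_ifs <;> omega
  · intro i
    have hi := i.2
    rw [Lm_apply, Lm_apply, Fin.val_rev]
    split_ifs <;> omega

theorem Lm_len (a c m : ℕ) : len (Lm a c m) = a * m := by
  unfold len Lm
  rw [Fin.sum_univ_add, Fin.sum_univ_add]
  simp

theorem Lm_inj (a c : ℕ) (ha : 1 ≤ a) : Function.Injective (Lm a c) := by
  intro m m' h
  have := congrFun h ⟨0, by omega⟩
  rw [Lm_apply, Lm_apply, if_pos (by show 0 < a; omega), if_pos (by show 0 < a; omega)] at this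
  exact_mod_cast this

/-! ### the formula for distinct coordinates -/

theorem hlr_const {k : ℕ} (u : ℂ) (m : ℤ) (z : Fin k → ℂ) :
    HLR u (fun _ => m) z = (∏ i, z i) ^ m * HLR u 0 z := by
  unfold HLR
  rw [Finset.mul_sum]
  refine Finset.sum_congr rfl fun w _ => ?_
  have e1 : mon (fun _ : Fin k => m) (fun i => z (w i)) = (∏ i, z i) ^ m := by
    unfold mon
    rw [Finset.prod_zpow, Equiv.prod_comp w z]
  have e2 : mon (0 : Fin k → ℤ) (fun i => z (w i)) = 1 := by simp [mon]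
  rw [e1, e2, one_mul]

theorem subv_eq {N k : ℕ} (A : Finset (Fin N)) (h : A.card = k) (y : Fin N → ℂ) (i : Fin k) :
    subv A y i = y (A.orderEmbOfFin h i) := by
  unfold subv
  rw [dif_pos h]

theorem subv_prod {N k : ℕ} (A : Finset (Fin N)) (h : A.card = k) (y : Fin N → ℂ) :
    ∏ i, subv (k := k) A y i = ∏ i ∈ A, y i := by
  simp only [subv_eq A h]
  conv_rhs => rw [← Finset.map_orderEmbOfFin_univ A h, Finset.prod_map]
  rfl

theorem subv_inj {N k : ℕ} (A : Finset (Fin N)) (h : A.card = k) (y : Fin N → ℂ)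
    (hy : Function.Injective y) : Function.Injective (subv (k := k) A y) := by
  intro i j hij
  rw [subv_eq A h, subv_eq A h] at hij
  exact (A.orderEmbOfFin h).injective (hy hij)

theorem subv_ne {N k : ℕ} (A : Finset (Fin N)) (h : A.card = k) (y : Fin N → ℂ)
    (hy : ∀ i, y i ≠ 0) (i : Fin k) : subv (k := k) A y i ≠ 0 := by
  rw [subv_eq A h]
  exact hy _

theorem subv_diff {N k : ℕ} (A : Finset (Fin N)) (i : Fin k) :
    Differentiable ℂ fun y : Fin N → ℂ => subv (k := k) A y i := by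
  unfold subv
  split_ifs <;> fun_prop

variable {a c : ℕ}

/-- the coordinates outside of `A` -/
noncomputable def zz (A : Finset (Fin (a + (c + a)))) (y : Fin (a + (c + a)) → ℂ) :
    Fin (c + a) → ℂ := subv Aᶜ y

/-- the coefficient -/
noncomputable def KK (u : ℂ) (A : Finset (Fin (a + (c + a)))) (C : Finset (Fin (c + a)))
    (y : Fin (a + (c + a)) → ℂ) : ℂ :=
  (∏ i ∈ A, ∏ k ∈ Aᶜ, (y i - u * y k) / (y i - y k)) * vv a u *
    ((∏ i ∈ C, ∏ k ∈ Cᶜ, (zz A y i - u * zz A y k) / (zz A y i - zz A y k)) * vv c u * vv a u)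

/-- the base of the power -/
noncomputable def lam (A : Finset (Fin (a + (c + a)))) (C : Finset (Fin (c + a)))
    (y : Fin (a + (c + a)) → ℂ) : ℂ := (∏ i ∈ A, y i) / ∏ j ∈ Cᶜ, zz A y j

theorem card_compl_A {A : Finset (Fin (a + (c + a)))} (h : A.card = a) : Aᶜ.card = c + a := by
  rw [Finset.card_compl, Fintype.card_fin, h]
  omega

theorem card_compl_C {C : Finset (Fin (c + a))} (h : C.card = c) : Cᶜ.card = a := by
  rw [Finset.card_compl, Fintype.card_fin, h]
  omega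

theorem formula (hBlk : SpecBlk) (hHL : SpecHL0) (u : ℂ) (hu : u ≠ 1)
    (y : Fin (a + (c + a)) → ℂ) (hy0 : ∀ i, y i ≠ 0) (hy : Function.Injective y) (m : ℕ) :
    HLR u (Lm a c m) y = ∑ A ∈ powersetCard a (univ : Finset (Fin (a + (c + a)))),
      ∑ C ∈ powersetCard c (univ : Finset (Fin (c + a))), KK u A C y * lam A C y ^ m := by
  unfold Lm
  rw [hBlk a (c + a) u y hy]
  refine Finset.sum_congr rfl fun A hA => ?_
  rw [Finset.mem_powersetCard] at hA
  have hAc := card_compl_A hA.2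
  have e1 : HLR u (fun _ : Fin a => (m : ℤ)) (subv A y) = (∏ i ∈ A, y i) ^ m * vv a u := by
    rw [hlr_const, subv_prod A hA.2, hHL a u hu _ (subv_ne A hA.2 y hy0) (subv_inj A hA.2 y hy),
      zpow_natCast]
  have hz0 : ∀ i, zz A y i ≠ 0 := subv_ne Aᶜ hAc y hy0
  have hzi : Function.Injective (zz A y) := subv_inj Aᶜ hAc y hy
  have e2 : HLR u (Fin.append (fun _ : Fin c => (0 : ℤ)) (fun _ : Fin a => -(m : ℤ)))
      (subv Aᶜ y) = ∑ C ∈ powersetCard c (univ : Finset (Fin (c + a))),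
        (∏ i ∈ C, ∏ k ∈ Cᶜ, (zz A y i - u * zz A y k) / (zz A y i - zz A y k)) * vv c u *
          ((∏ j ∈ Cᶜ, zz A y j)⁻¹ ^ m * vv a u) := by
    have h := hBlk c a u (zz A y) hzi (fun _ => 0) (fun _ => -(m : ℤ))
    refine h.trans ?_
    refine Finset.sum_congr rfl fun C hC => ?_
    rw [Finset.mem_powersetCard] at hC
    have hCc := card_compl_C hC.2
    have e3 : HLR u (fun _ : Fin c => (0 : ℤ)) (subv C (zz A y)) = vv c u :=
      hHL c u hu _ (subv_ne C hC.2 _ hz0) (subv_inj C hC.2 _ hzi)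
    have e4 : HLR u (fun _ : Fin a => -(m : ℤ)) (subv Cᶜ (zz A y)) =
        (∏ j ∈ Cᶜ, zz A y j)⁻¹ ^ m * vv a u := by
      rw [hlr_const, subv_prod Cᶜ hCc, hHL a u hu _ (subv_ne Cᶜ hCc _ hz0)
        (subv_inj Cᶜ hCc _ hzi), zpow_neg, zpow_natCast, inv_pow]
    rw [e3, e4]
  rw [e1, e2, Finset.mul_sum]
  refine Finset.sum_congr rfl fun C _ => ?_
  unfold KK lam
  rw [div_eq_mul_inv, mul_pow]
  ring

/-! ### regularity -/

theorem zz_diff (A : Finset (Fin (a + (c + a)))) (j : Fin (c + a)) :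
    Differentiable ℂ fun y : Fin (a + (c + a)) → ℂ => zz A y j := subv_diff Aᶜ j

theorem coord_diff {N : ℕ} (i : Fin N) : Differentiable ℂ fun y : Fin N → ℂ => y i := by
  fun_prop

theorem prod_diffAt {V ι : Type} [NormedAddCommGroup V] [NormedSpace ℂ V] (s : Finset ι)
    (f : ι → V → ℂ) (y : V) (h : ∀ i ∈ s, DifferentiableAt ℂ (f i) y) :
    DifferentiableAt ℂ (fun y => ∏ i ∈ s, f i y) y := by
  classical
  induction s using Finset.induction_on with
  | empty => simp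
  | insert i s hi ih =>
    simp only [Finset.prod_insert hi]
    exact (h i (Finset.mem_insert_self i s)).mul
      (ih fun j hj => h j (Finset.mem_insert_of_mem hj))

theorem div_diffAt {V : Type} [NormedAddCommGroup V] [NormedSpace ℂ V]
    (f g : V → ℂ) (y : V) (hf : DifferentiableAt ℂ f y) (hg : DifferentiableAt ℂ g y)
    (h : g y ≠ 0) : DifferentiableAt ℂ (fun y => f y / g y) y := by
  simp only [div_eq_mul_inv]
  exact hf.mul ((differentiableAt_inv h).comp y hg)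

theorem KK_diffAt (u : ℂ) (A : Finset (Fin (a + (c + a)))) (C : Finset (Fin (c + a)))
    (y : Fin (a + (c + a)) → ℂ) (h1 : ∀ i ∈ A, ∀ k ∈ Aᶜ, y i ≠ y k)
    (h2 : ∀ i ∈ C, ∀ k ∈ Cᶜ, zz A y i ≠ zz A y k) : DifferentiableAt ℂ (KK u A C) y := by
  unfold KK
  refine DifferentiableAt.mul (DifferentiableAt.mul_const ?_ _)
    (DifferentiableAt.mul_const (DifferentiableAt.mul_const ?_ _) _)
  · refine prod_diffAt _ _ _ fun i hi => prod_diffAt _ _ _ fun k hk => ?_
    exact div_diffAt _ _ y ((coord_diff i y).sub ((coord_diff k y).const_mul u))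
      ((coord_diff i y).sub (coord_diff k y)) (sub_ne_zero.2 (h1 i hi k hk))
  · refine prod_diffAt _ _ _ fun i hi => prod_diffAt _ _ _ fun k hk => ?_
    exact div_diffAt _ _ y ((zz_diff A i y).sub ((zz_diff A k y).const_mul u))
      ((zz_diff A i y).sub (zz_diff A k y)) (sub_ne_zero.2 (h2 i hi k hk))

theorem lam_diffAt (A : Finset (Fin (a + (c + a)))) (hA : A.card = a) (C : Finset (Fin (c + a)))
    (y : Fin (a + (c + a)) → ℂ) (hy : ∀ i, y i ≠ 0) : DifferentiableAt ℂ (lam A C) y := by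
  unfold lam
  refine div_diffAt _ _ y ?_ ?_ ?_
  · exact prod_diffAt _ _ _ fun i _ => coord_diff i y
  · exact prod_diffAt _ _ _ fun i _ => zz_diff A i y
  · exact Finset.prod_ne_zero_iff.2 fun j _ => subv_ne Aᶜ (card_compl_A hA) y hy j

theorem mon_diffAt {N : ℕ} (b : Fin N → ℤ) (y : Fin N → ℂ) (hy : ∀ i, y i ≠ 0) :
    DifferentiableAt ℂ (mon b) y := by
  unfold mon
  refine prod_diffAt _ _ _ fun i _ => ?_
  have h1 : DifferentiableAt ℂ (fun z : ℂ => z ^ b i) (y i) :=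
    differentiableAt_zpow.2 (Or.inl (hy i))
  exact h1.comp y (coord_diff i y)

theorem RP_diffAt (hP : SpecPoly) {N : ℕ} (u : ℝ) (h0 : 0 < u) (h1 : u < 1) (L : Fin N → ℤ)
    (hL : Antitone L) (y : Fin N → ℂ) (hy : ∀ i, y i ≠ 0) :
    DifferentiableAt ℂ (RP (u : ℂ) L) y := by
  obtain ⟨S, c, _, h⟩ := (hP N u h0 h1 L hL).2
  have e : RP (u : ℂ) L =ᶠ[nhds y] fun y => ∑ b ∈ S, c b * mon b y := by
    have ho : IsOpen {x : Fin N → ℂ | ∀ i, x i ≠ 0} := by
      have : {x : Fin N → ℂ | ∀ i, x i ≠ 0} = ⋂ i, {x | x i ≠ 0} := by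
        ext x
        simp
      rw [this]
      exact isOpen_iInter_of_finite fun i => isOpen_ne_fun (continuous_apply i) continuous_const
    filter_upwards [ho.mem_nhds hy] with z hz
    exact h z hz
  rw [e.differentiableAt_iff]
  exact DifferentiableAt.fun_sum fun b _ => (mon_diffAt b y hy).const_mul (c b)

/-! ### the main estimate -/

theorem norm_lam (A : Finset (Fin (a + (c + a)))) (hA : A.card = a) (C : Finset (Fin (c + a)))
    (y : Fin (a + (c + a)) → ℂ) :
    ‖lam A C y‖ = (∏ i ∈ A, ‖y i‖) /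
      ∏ j ∈ Cᶜ, ‖y (Aᶜ.orderEmbOfFin (card_compl_A hA) j)‖ := by
  unfold lam
  rw [norm_div, norm_prod, norm_prod]
  congr 1
  refine Finset.prod_congr rfl fun j _ => ?_
  unfold zz
  rw [subv_eq Aᶜ (card_compl_A hA)]

/-- the data at the point `x` -/
structure Data (a c : ℕ) (x : Fin (a + (c + a)) → ℂ) (R : ℝ) (A B : Finset (Fin (a + (c + a)))) :
    Prop where
  ne : ∀ i, x i ≠ 0
  R1 : 1 < R
  cA : A.card = a
  cB : B.card = a
  a1 : 1 ≤ a
  hA : ∀ i ∈ A, ‖x i‖ = R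
  hB : ∀ i ∈ B, ‖x i‖ = R⁻¹
  hA' : ∀ i, i ∉ A → ‖x i‖ < R
  hB' : ∀ i, i ∉ B → R⁻¹ < ‖x i‖

variable {x : Fin (a + (c + a)) → ℂ} {R : ℝ} {A B : Finset (Fin (a + (c + a)))}

/-- the distinguished index -/
noncomputable def C0 (A B : Finset (Fin (a + (c + a)))) (hA : A.card = a) : Finset (Fin (c + a)) :=
  univ.filter fun j => Aᶜ.orderEmbOfFin (card_compl_A hA) j ∉ B

theorem Data.disj (h : Data a c x R A B) (i : Fin (a + (c + a))) (hi : i ∈ A) : i ∉ B := by
  intro hi'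
  have h1 := h.hA i hi
  have h2 := h.hB i hi'
  have h3 : R⁻¹ < 1 := inv_lt_one_of_one_lt₀ h.R1
  have := h.R1
  linarith

theorem Data.card_C0 (h : Data a c x R A B) : (C0 A B h.cA)ᶜ.card = a := by
  have e : ((C0 A B h.cA)ᶜ).map (Aᶜ.orderEmbOfFin (card_compl_A h.cA)).toEmbedding = B := by
    ext i
    simp only [C0, Finset.mem_map, Finset.mem_compl, Finset.mem_filter, Finset.mem_univ,
      true_and, not_not]
    constructor
    · rintro ⟨j, hj, rfl⟩
      exact hj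
    · intro hi
      have hiA : i ∈ Aᶜ := by
        rw [Finset.mem_compl]
        exact fun h' => h.disj i h' hi
      rw [← Finset.map_orderEmbOfFin_univ Aᶜ (card_compl_A h.cA), Finset.mem_map] at hiA
      obtain ⟨j, _, rfl⟩ := hiA
      exact ⟨j, hi, rfl⟩
  have h2 := congrArg Finset.card e
  rw [Finset.card_map, h.cB] at h2
  exact h2

theorem Data.card_C0' (h : Data a c x R A B) : (C0 A B h.cA).card = c := by
  have h1 := h.card_C0
  rw [Finset.card_compl, Fintype.card_fin] at h1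
  have h2 := Finset.card_le_univ (C0 A B h.cA)
  rw [Fintype.card_fin] at h2
  omega

theorem Data.R0 (h : Data a c x R A B) : 0 < R := one_pos.trans h.R1

theorem Data.le_R (h : Data a c x R A B) (i : Fin (a + (c + a))) : ‖x i‖ ≤ R := by
  by_cases hi : i ∈ A
  · exact (h.hA i hi).le
  · exact (h.hA' i hi).le

theorem Data.ge_R (h : Data a c x R A B) (i : Fin (a + (c + a))) : R⁻¹ ≤ ‖x i‖ := by
  by_cases hi : i ∈ B
  · exact (h.hB i hi).ge
  · exact (h.hB' i hi).le

/-- the absolute value of the main base -/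
theorem Data.lam0 (h : Data a c x R A B) : ‖lam A (C0 A B h.cA) x‖ = R ^ (2 * a) := by
  rw [norm_lam A h.cA]
  have e1 : ∏ i ∈ A, ‖x i‖ = R ^ a := by
    rw [Finset.prod_congr rfl h.hA, Finset.prod_const, h.cA]
  have e2 : ∏ j ∈ (C0 A B h.cA)ᶜ, ‖x (Aᶜ.orderEmbOfFin (card_compl_A h.cA) j)‖ = (R⁻¹) ^ a := by
    have : ∀ j ∈ (C0 A B h.cA)ᶜ, ‖x (Aᶜ.orderEmbOfFin (card_compl_A h.cA) j)‖ = R⁻¹ := by
      intro j hj
      refine h.hB _ ?_
      simpa [C0] using hj
    rw [Finset.prod_congr rfl this, Finset.prod_const, h.card_C0]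
  rw [e1, e2, inv_pow, div_inv_eq_mul, ← pow_add]
  congr 1
  omega

/-- the other bases are smaller -/
theorem Data.lam_lt (h : Data a c x R A B) (A' : Finset (Fin (a + (c + a)))) (hA' : A'.card = a)
    (C' : Finset (Fin (c + a))) (hC' : C'.card = c) (hne : ¬ (A' = A ∧ C' = C0 A B h.cA)) :
    ‖lam A' C' x‖ < R ^ (2 * a) := by
  have hR0 := h.R0
  have hRi : 0 < R⁻¹ := inv_pos.2 hR0
  rw [norm_lam A' hA']
  have hCc := card_compl_C hC'
  have p1 : ∏ _i ∈ A', R = R ^ a := by rw [Finset.prod_const, hA']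
  have p2 : ∏ _i ∈ C'ᶜ, R⁻¹ = (R⁻¹) ^ a := by rw [Finset.prod_const, hCc]
  have e1 : ∏ i ∈ A', ‖x i‖ ≤ R ^ a := by
    rw [← p1]
    exact Finset.prod_le_prod (fun i _ => norm_nonneg _) fun i _ => h.le_R i
  have e2 : (R⁻¹) ^ a ≤ ∏ j ∈ C'ᶜ, ‖x (A'ᶜ.orderEmbOfFin (card_compl_A hA') j)‖ := by
    rw [← p2]
    exact Finset.prod_le_prod (fun i _ => hRi.le) fun i _ => h.ge_R _
  have hd : 0 < ∏ j ∈ C'ᶜ, ‖x (A'ᶜ.orderEmbOfFin (card_compl_A hA') j)‖ :=
    Finset.prod_pos fun j _ => norm_pos_iff.2 (h.ne _)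
  have hkey : (R : ℝ) ^ (2 * a) * (R⁻¹) ^ a = R ^ a := by
    rw [inv_pow, two_mul, pow_add, mul_assoc, mul_inv_cancel₀ (by positivity), mul_one]
  rw [div_lt_iff₀ hd]
  by_cases hAA : A' = A
  · subst hAA
    have hC : C' ≠ C0 A' B h.cA := fun h' => hne ⟨rfl, h'⟩
    have h3 : ∃ j ∈ C'ᶜ, A'ᶜ.orderEmbOfFin (card_compl_A hA') j ∉ B := by
      by_contra h4
      push Not at h4
      have h5 : C'ᶜ ⊆ (C0 A' B h.cA)ᶜ := by
        intro j hj
        simp only [C0, Finset.mem_compl, Finset.mem_filter, Finset.mem_univ, true_and, not_not]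
        exact h4 j hj
      have h6 := Finset.eq_of_subset_of_card_le h5 (by rw [h.card_C0, hCc])
      exact hC (compl_injective h6)
    obtain ⟨j, hj, hjB⟩ := h3
    have e3 : (R⁻¹) ^ a < ∏ j ∈ C'ᶜ, ‖x (A'ᶜ.orderEmbOfFin (card_compl_A hA') j)‖ := by
      rw [← p2]
      exact Finset.prod_lt_prod (fun i _ => hRi) (fun i _ => h.ge_R _) ⟨j, hj, h.hB' _ hjB⟩
    calc ∏ i ∈ A', ‖x i‖ ≤ R ^ a := e1
      _ = R ^ (2 * a) * (R⁻¹) ^ a := hkey.symm
      _ < _ := mul_lt_mul_of_pos_left e3 (by positivity)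
  · have h3 : ∃ i ∈ A', i ∉ A := by
      by_contra h4
      push Not at h4
      exact hAA (Finset.eq_of_subset_of_card_le h4 (by rw [hA', h.cA]))
    obtain ⟨i, hi, hiA⟩ := h3
    have e3 : ∏ i ∈ A', ‖x i‖ < R ^ a := by
      rw [← p1]
      exact Finset.prod_lt_prod (fun i _ => norm_pos_iff.2 (h.ne i)) (fun i _ => h.le_R i)
        ⟨i, hi, h.hA' i hiA⟩
    calc ∏ i ∈ A', ‖x i‖ < R ^ a := e3
      _ = R ^ (2 * a) * (R⁻¹) ^ a := hkey.symm
      _ ≤ _ := mul_le_mul_of_nonneg_left e2 (by positivity)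

/-- the main coefficient does not vanish -/
theorem Data.KK_ne (h : Data a c x R A B) (u : ℝ) (h0 : 0 < u) (h1 : u < 1) :
    KK (u : ℂ) A (C0 A B h.cA) x ≠ 0 := by
  have hfac : ∀ z w : ℂ, ‖w‖ < ‖z‖ → (z - (u : ℂ) * w) / (z - w) ≠ 0 := by
    intro z w hzw
    refine div_ne_zero ?_ ?_
    · intro h'
      have h2 : ‖z‖ = ‖(u : ℂ) * w‖ := by rw [sub_eq_zero.1 h']
      rw [norm_mul, Complex.norm_real, Real.norm_eq_abs, abs_of_pos h0] at h2
      have h3 : u * ‖w‖ ≤ ‖w‖ := by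
        have := norm_nonneg w
        nlinarith
      linarith
    · intro h'
      rw [sub_eq_zero.1 h'] at hzw
      exact lt_irrefl _ hzw
  unfold KK
  refine mul_ne_zero (mul_ne_zero ?_ (ComplM.vv_ne a u h0))
    (mul_ne_zero (mul_ne_zero ?_ (ComplM.vv_ne c u h0)) (ComplM.vv_ne a u h0))
  · refine Finset.prod_ne_zero_iff.2 fun i hi => Finset.prod_ne_zero_iff.2 fun k hk => ?_
    refine hfac _ _ ?_
    rw [h.hA i hi]
    exact h.hA' k (Finset.mem_compl.1 hk)
  · refine Finset.prod_ne_zero_iff.2 fun i hi => Finset.prod_ne_zero_iff.2 fun k hk => ?_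
    refine hfac _ _ ?_
    unfold zz
    rw [subv_eq Aᶜ (card_compl_A h.cA), subv_eq Aᶜ (card_compl_A h.cA)]
    rw [h.hB _ (by simpa [C0] using hk)]
    exact h.hB' _ (by simpa [C0] using hi)

/-- a bound below the maximum -/
theorem exists_rho {ι : Type} (s : Finset ι) (f : ι → ℝ) (M : ℝ) (hM : 0 < M)
    (h : ∀ i ∈ s, f i < M) : ∃ ρ, 0 < ρ ∧ ρ < M ∧ ∀ i ∈ s, f i < ρ := by
  classical
  induction s using Finset.induction_on with
  | empty => exact ⟨M / 2, by positivity, by linarith, by simp⟩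
  | insert i s hi ih =>
    obtain ⟨ρ, h1, h2, h3⟩ := ih fun j hj => h j (Finset.mem_insert_of_mem hj)
    obtain ⟨ρ', h4, h5⟩ := exists_between (max_lt h2 (h i (Finset.mem_insert_self i s)))
    refine ⟨ρ', h1.trans ((le_max_left _ _).trans_lt h4), h5, fun j hj => ?_⟩
    rcases Finset.mem_insert.1 hj with rfl | hj
    · exact (le_max_right _ _).trans_lt h4
    · exact (h3 j hj).trans ((le_max_left _ _).trans_lt h4)

/-- the lower bound for the polynomials at `x` -/
theorem Data.lower (hBlk : SpecBlk) (hHL : SpecHL0) (hP : SpecPoly) (hMax : SpecMax)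
    (h : Data a c x R A B) (u : ℝ) (h0 : 0 < u) (h1 : u < 1) :
    ∃ κ C ρ : ℝ, 0 < κ ∧ 0 < ρ ∧ ρ < R ^ (2 * a) ∧ ∀ m : ℕ,
      κ * (R ^ (2 * a)) ^ m - C * ρ ^ m ≤ ‖RP (u : ℂ) (Lm a c m) x‖ := by
  classical
  have hu1 : (u : ℂ) ≠ 1 := by exact_mod_cast h1.ne
  set K0 := KK (u : ℂ) A (C0 A B h.cA) with hK0
  set l0 := lam A (C0 A B h.cA) with hl0
  -- the other pairs
  set P : Finset (Finset (Fin (a + (c + a))) × Finset (Fin (c + a))) :=
    ((powersetCard a (univ : Finset (Fin (a + (c + a))))) ×ˢ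
      (powersetCard c (univ : Finset (Fin (c + a))))) with hP'
  set Q := P.erase (A, C0 A B h.cA) with hQ
  have hmem0 : (A, C0 A B h.cA) ∈ P := by
    rw [hP', Finset.mem_product, Finset.mem_powersetCard, Finset.mem_powersetCard]
    exact ⟨⟨Finset.subset_univ _, h.cA⟩, ⟨Finset.subset_univ _, h.card_C0'⟩⟩
  have hQcard : ∀ p ∈ Q, p.1.card = a ∧ p.2.card = c ∧ ¬ (p.1 = A ∧ p.2 = C0 A B h.cA) := by
    intro p hp
    rw [hQ, Finset.mem_erase, hP', Finset.mem_product, Finset.mem_powersetCard,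
      Finset.mem_powersetCard] at hp
    exact ⟨hp.2.1.2, hp.2.2.2, fun h' => hp.1 (Prod.ext h'.1 h'.2)⟩
  obtain ⟨ρ, hρ0, hρ1, hρ⟩ := exists_rho Q (fun p => ‖lam p.1 p.2 x‖) (R ^ (2 * a))
    (pow_pos h.R0 _) (fun p hp => h.lam_lt p.1 (hQcard p hp).1 p.2 (hQcard p hp).2.1
      (hQcard p hp).2.2)
  -- good neighbourhood
  have hev1 : ∀ᶠ y in nhds x, ∀ p ∈ Q, ‖lam p.1 p.2 y‖ < ρ := by
    rw [Filter.eventually_all_finset]
    intro p hp
    have hc : ContinuousAt (fun y => ‖lam p.1 p.2 y‖) x :=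
      (lam_diffAt p.1 (hQcard p hp).1 p.2 x h.ne).continuousAt.norm
    exact hc.eventually_lt continuousAt_const (hρ p hp)
  have hev2 : ∀ᶠ y in nhds x, ∀ i, y i ≠ 0 := by
    rw [Filter.eventually_all]
    intro i
    exact ((continuous_apply i).continuousAt).eventually_ne (h.ne i)
  have hev3 : ∀ᶠ y in nhds x, ∀ i k, x i ≠ x k → y i ≠ y k := by
    rw [Filter.eventually_all]
    intro i
    rw [Filter.eventually_all]
    intro k
    by_cases hik : x i = x k
    · exact Filter.Eventually.of_forall fun y h' => absurd hik h'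
    · have hc : ContinuousAt (fun y : Fin (a + (c + a)) → ℂ => y i - y k) x := by fun_prop
      filter_upwards [hc.eventually_ne (sub_ne_zero.2 hik)] with y hy _
      exact sub_ne_zero.1 hy
  obtain ⟨δ, hδ, hball⟩ := Metric.eventually_nhds_iff_ball.1 (hev1.and (hev2.and hev3))
  set N : ℝ := ((a + (c + a) : ℕ) : ℝ) with hN
  have hN0 : 0 ≤ N := Nat.cast_nonneg _
  set d : Fin (a + (c + a)) → ℝ := fun i => δ / 2 * (((i : ℕ) + 1 : ℝ) / (N + 1)) with hd
  have hn1 : (0 : ℝ) < N + 1 := by positivity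
  have hd0 : ∀ i, 0 < d i := fun i => by
    rw [hd]
    positivity
  have hdδ : ∀ i, d i ≤ δ / 2 := fun i => by
    have : (((i : ℕ) + 1 : ℝ) / (N + 1)) ≤ 1 := by
      rw [div_le_one hn1]
      have : ((i : ℕ) : ℝ) ≤ N := by rw [hN]; exact_mod_cast i.2.le
      linarith
    calc d i ≤ δ / 2 * 1 := mul_le_mul_of_nonneg_left this (by positivity)
      _ = δ / 2 := mul_one _
  have hdinj : ∀ i k, d i = d k → i = k := by
    intro i k hik
    have h2 : (((i : ℕ) + 1 : ℝ) / (N + 1)) = (((k : ℕ) + 1 : ℝ) / (N + 1)) :=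
      mul_left_cancel₀ (by positivity : δ / 2 ≠ 0) hik
    rw [div_left_inj' hn1.ne'] at h2
    have h3 : ((i : ℕ) : ℝ) = (k : ℕ) := by linarith
    exact Fin.ext (by exact_mod_cast h3)
  set Ω : Fin (a + (c + a)) → Set ℂ := fun i => Metric.ball (x i) (d i) with hΩ
  have hclos : ∀ i, closure (Ω i) = Metric.closedBall (x i) (d i) := fun i =>
    closure_ball _ (hd0 i).ne'
  have hfront : ∀ i, frontier (Ω i) = Metric.sphere (x i) (d i) := fun i =>
    frontier_ball _ (hd0 i).ne'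
  have hin : ∀ y : Fin (a + (c + a)) → ℂ, (∀ i, y i ∈ closure (Ω i)) → y ∈ Metric.ball x δ := by
    intro y hy
    rw [Metric.mem_ball, dist_pi_lt_iff hδ]
    intro i
    have := hy i
    rw [hclos, Metric.mem_closedBall] at this
    have := hdδ i
    linarith
  -- differentiability
  have hdiff : ∀ y : Fin (a + (c + a)) → ℂ, y ∈ Metric.ball x δ → ∀ m : ℕ,
      DifferentiableAt ℂ (fun y => RP (u : ℂ) (Lm a c m) y - K0 y * l0 y ^ m) y := by
    intro y hy m
    obtain ⟨hy1, hy2, hy3⟩ := hball y hy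
    refine (RP_diffAt hP u h0 h1 _ (Lm_sym a c m).1 y hy2).sub (DifferentiableAt.mul ?_ ?_)
    · refine KK_diffAt _ _ _ y (fun i hi k hk => hy3 i k fun hik => ?_) fun i hi k hk => ?_
      · have h2 := h.hA i hi
        have h3 := h.hA' k (Finset.mem_compl.1 hk)
        rw [hik] at h2
        linarith
      · unfold zz
        rw [subv_eq Aᶜ (card_compl_A h.cA), subv_eq Aᶜ (card_compl_A h.cA)]
        refine hy3 _ _ fun hik => ?_
        have h2 := h.hB (Aᶜ.orderEmbOfFin (card_compl_A h.cA) k) (by simpa [C0] using hk)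
        have h3 := h.hB' (Aᶜ.orderEmbOfFin (card_compl_A h.cA) i) (by simpa [C0] using hi)
        rw [hik] at h3
        linarith
    · exact (lam_diffAt A h.cA _ y hy2).pow m
  -- the distinguished boundary
  set T : Set (Fin (a + (c + a)) → ℂ) := Set.pi Set.univ fun i => Metric.sphere (x i) (d i) with hT
  have hTc : IsCompact T := isCompact_univ_pi fun i => isCompact_sphere _ _
  have hTin : ∀ y ∈ T, y ∈ Metric.ball x δ := fun y hy => hin y fun i => by
    rw [hclos]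
    exact Metric.sphere_subset_closedBall (hy i (Set.mem_univ i))
  have hTinj : ∀ y ∈ T, Function.Injective y := by
    intro y hy i k hik
    by_contra hne
    by_cases hx : x i = x k
    · have h2 := hy i (Set.mem_univ i)
      have h3 := hy k (Set.mem_univ k)
      rw [Metric.mem_sphere] at h2 h3
      rw [← hik, ← hx, h2] at h3
      exact hne (hdinj i k h3)
    · exact (hball y (hTin y hy)).2.2 i k hx hik
  have hKb : ∀ p ∈ Q, ∃ Cp : ℝ, ∀ y ∈ T, ‖KK (u : ℂ) p.1 p.2 y‖ ≤ Cp := by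
    intro p hp
    refine hTc.exists_bound_of_continuousOn fun y hy => ?_
    refine (KK_diffAt _ _ _ y (fun i hi k hk hik => ?_)
      fun i hi k hk hik => ?_).continuousAt.continuousWithinAt
    · exact (Finset.mem_compl.1 hk) ((hTinj y hy hik) ▸ hi)
    · have h2 := subv_inj p.1ᶜ (card_compl_A (hQcard p hp).1) y (hTinj y hy) hik
      exact (Finset.mem_compl.1 hk) (h2 ▸ hi)
  choose! Cp hCp using hKb
  set C : ℝ := ∑ p ∈ Q, |Cp p| with hC
  refine ⟨‖K0 x‖, C, ρ, norm_pos_iff.2 (h.KK_ne u h0 h1), hρ0, hρ1, fun m => ?_⟩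
  have hE : ‖RP (u : ℂ) (Lm a c m) x - K0 x * l0 x ^ m‖ ≤ C * ρ ^ m := by
    refine hMax (a + (c + a)) Ω (fun y => RP (u : ℂ) (Lm a c m) y - K0 y * l0 y ^ m) (C * ρ ^ m)
      (fun i => Metric.isBounded_ball) (fun i y hy => ?_) (fun y hy => ?_) x (fun i => ?_)
    · refine DifferentiableOn.diffContOnCl fun z hz => ?_
      have h2 : Function.update y i z ∈ Metric.ball x δ := by
        refine hin _ fun j => ?_
        by_cases hj : j = i
        · subst hj
          rw [Function.update_self]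
          exact hz
        · rw [Function.update_of_ne hj]
          exact hy j
      have h3 : DifferentiableAt ℂ (fun z : ℂ => Function.update y i z) z := by
        rw [differentiableAt_pi]
        intro j
        by_cases hj : j = i
        · subst hj
          simp only [Function.update_self]
          exact differentiableAt_id
        · simp only [Function.update_of_ne hj]
          exact differentiableAt_const _
      exact ((hdiff _ h2 m).comp z h3).differentiableWithinAt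
    · have hyT : y ∈ T := fun i _ => by
        have := hy i
        rw [hfront] at this
        exact this
      obtain ⟨hy1, hy2, hy3⟩ := hball y (hTin y hyT)
      have hyi := hTinj y hyT
      have e1 : RP (u : ℂ) (Lm a c m) y = ∑ p ∈ P, KK (u : ℂ) p.1 p.2 y * lam p.1 p.2 y ^ m := by
        rw [(hP (a + (c + a)) u h0 h1 _ (Lm_sym a c m).1).1 y hy2 hyi, formula hBlk hHL _ hu1 y hy2 hyi,
          hP', Finset.sum_product]
      have e2 : RP (u : ℂ) (Lm a c m) y - K0 y * l0 y ^ m =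
          ∑ p ∈ Q, KK (u : ℂ) p.1 p.2 y * lam p.1 p.2 y ^ m := by
        rw [e1, ← Finset.add_sum_erase P _ hmem0]
        simp only [hK0, hl0]
        ring
      rw [e2, hC, Finset.sum_mul]
      refine norm_sum_le_of_le _ fun p hp => ?_
      rw [norm_mul, norm_pow]
      exact mul_le_mul ((hCp p hp y hyT).trans (le_abs_self _))
        (pow_le_pow_left₀ (norm_nonneg _) (hy1 p hp).le m) (by positivity) (abs_nonneg _)
    · exact subset_closure (Metric.mem_ball_self (hd0 i))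
  have h2 : ‖K0 x * l0 x ^ m‖ = ‖K0 x‖ * (R ^ (2 * a)) ^ m := by
    rw [norm_mul, norm_pow, hl0, h.lam0]
  have h3 := norm_sub_norm_le (K0 x * l0 x ^ m) (RP (u : ℂ) (Lm a c m) x)
  rw [norm_sub_rev, h2] at h3
  linarith

theorem Data.not_summable (hBlk : SpecBlk) (hHL : SpecHL0) (hP : SpecPoly) (hMax : SpecMax)
    (hAb : SpecAb) (h : Data a c x R A B) (t : ℝ) (h0 : 0 < t) (h1 : t < 1)
    (hR : 1 ≤ t * R ^ 2) :
    ¬ Summable (fun L : {L : Fin (a + (c + a)) → ℤ // Sym L} =>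
      ‖ToridM.co t L.1 * RP (((t ^ 2 : ℝ)) : ℂ) L.1 x‖) := by
  intro hsum
  have hu0 : 0 < t ^ 2 := by positivity
  have hu1 : t ^ 2 < 1 := by nlinarith
  obtain ⟨κ, C, ρ, hκ, hρ0, hρ1, hlow⟩ := h.lower hBlk hHL hP hMax (t ^ 2) hu0 hu1
  obtain ⟨c₀, C₀, hc₀, hAA⟩ := hAb (a + (c + a)) t h0 h1
  set Λ : ℝ := R ^ (2 * a) with hΛ
  have hΛ0 : 0 < Λ := pow_pos h.R0 _
  have hinj : Function.Injective (fun m : ℕ =>
      (⟨Lm a c m, Lm_sym a c m⟩ : {L : Fin (a + (c + a)) → ℤ // Sym L})) := by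
    intro m m' hm
    exact Lm_inj a c h.a1 (congrArg Subtype.val hm)
  have h2 := (hsum.comp_injective hinj).tendsto_atTop_zero
  have h3 : Filter.Tendsto (fun m : ℕ => C * (ρ / Λ) ^ m) Filter.atTop (nhds 0) := by
    have h4 := tendsto_pow_atTop_nhds_zero_of_lt_one (r := ρ / Λ) (by positivity)
      ((div_lt_one hΛ0).2 hρ1)
    simpa using h4.const_mul C
  have e3 := h3.eventually_lt_const (show (0 : ℝ) < κ / 2 by positivity)
  have e2 := h2.eventually_lt_const (show (0 : ℝ) < c₀ * (κ / 2) by positivity)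
  obtain ⟨m, hm3, hm2⟩ := (e3.and e2).exists
  simp only [Function.comp_apply] at hm2
  have h5 : (1 : ℝ) ≤ t ^ (a * m) * Λ ^ m := by
    have : t ^ (a * m) * Λ ^ m = (t * R ^ 2) ^ (a * m) := by
      rw [hΛ, mul_pow, ← pow_mul, ← pow_mul]
      congr 2
      ring
    rw [this]
    exact one_le_pow₀ hR
  have h6 : κ * Λ ^ m - C * ρ ^ m = Λ ^ m * (κ - C * (ρ / Λ) ^ m) := by
    rw [div_pow]
    field_simp
  have h7 : ‖ToridM.co t (Lm a c m)‖ = AA t (a + (c + a)) (Lm a c m) * t ^ (a * m) := by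
    unfold ToridM.co
    rw [norm_mul, Complex.norm_real, Real.norm_eq_abs, abs_of_pos (hc₀.trans_le (hAA _).1),
      norm_pow, norm_neg, Complex.norm_real, Real.norm_eq_abs, abs_of_pos h0, Lm_len]
  have h8 := hlow m
  rw [h6] at h8
  have h9 : κ / 2 ≤ κ - C * (ρ / Λ) ^ m := by linarith
  rw [norm_mul, h7] at hm2
  have h10 : c₀ * (κ / 2) ≤ AA t (a + (c + a)) (Lm a c m) * t ^ (a * m) *
      ‖RP (((t ^ 2 : ℝ)) : ℂ) (Lm a c m) x‖ := by
    calc c₀ * (κ / 2) ≤ c₀ * ((t ^ (a * m) * Λ ^ m) * (κ / 2)) := by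
          refine mul_le_mul_of_nonneg_left ?_ hc₀.le
          nlinarith
      _ ≤ c₀ * ((t ^ (a * m) * Λ ^ m) * (κ - C * (ρ / Λ) ^ m)) := by
          refine mul_le_mul_of_nonneg_left (mul_le_mul_of_nonneg_left h9 (by positivity)) hc₀.le
      _ = c₀ * t ^ (a * m) * (Λ ^ m * (κ - C * (ρ / Λ) ^ m)) := by ring
      _ ≤ c₀ * t ^ (a * m) * ‖RP (((t ^ 2 : ℝ)) : ℂ) (Lm a c m) x‖ :=
          mul_le_mul_of_nonneg_left h8 (by positivity)
      _ ≤ _ := by
          refine mul_le_mul_of_nonneg_right (mul_le_mul_of_nonneg_right (hAA _).1 (by positivity))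
            (norm_nonneg _)
  linarith

theorem div (hBlk : SpecBlk) (hHL : SpecHL0) (hP : SpecPoly) (hMax : SpecMax) (hAb : SpecAb) :
    SpecDiv := by
  intro n t h0 h1 x hx hex hnot
  obtain ⟨w, hw⟩ := hex
  push Not at hnot
  obtain ⟨i0, j0, hij⟩ := hnot
  obtain ⟨i1, _, hi1⟩ := Finset.exists_max_image (univ : Finset (Fin n)) (fun i => ‖x i‖)
    ⟨i0, Finset.mem_univ _⟩
  obtain ⟨R, hRdef⟩ : ∃ R, R = ‖x i1‖ := ⟨_, rfl⟩
  rw [← hRdef] at hi1
  have hRpos : 0 < R := by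
    rw [hRdef]
    exact norm_pos_iff.2 (hx i1)
  have hmax : ∀ i, ‖x i‖ ≤ R := fun i => hi1 i (Finset.mem_univ i)
  have hnw : ∀ i, ‖x (w i)‖ = ‖x i‖⁻¹ := fun i => by
    rw [hw, norm_inv, RCLike.norm_conj]
  have hmin : ∀ i, R⁻¹ ≤ ‖x i‖ := fun i => by
    have h2 := hmax (w i)
    rw [hnw] at h2
    have h3 : 0 < ‖x i‖ := norm_pos_iff.2 (hx i)
    rw [inv_le_comm₀ hRpos h3]
    exact h2
  have hR2 : 1 ≤ t * R ^ 2 := by
    have h2 := (hmin j0).trans hij
    have h3 : R⁻¹ ≤ R * t := h2.trans (mul_le_mul_of_nonneg_right (hmax i0) h0.le)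
    have h4 := mul_le_mul_of_nonneg_left h3 hRpos.le
    rw [mul_inv_cancel₀ hRpos.ne'] at h4
    nlinarith
  have hR1 : 1 < R := by
    by_contra h2
    have h2 : R ≤ 1 := not_lt.1 h2
    have h3 : R ^ 2 ≤ 1 := by nlinarith
    nlinarith
  obtain ⟨A, hA⟩ : ∃ A : Finset (Fin n), A = univ.filter fun i => ‖x i‖ = R := ⟨_, rfl⟩
  obtain ⟨B, hB⟩ : ∃ B : Finset (Fin n), B = univ.filter fun i => ‖x i‖ = R⁻¹ := ⟨_, rfl⟩
  have hAm : ∀ i, i ∈ A ↔ ‖x i‖ = R := fun i => by rw [hA]; simp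
  have hBm : ∀ i, i ∈ B ↔ ‖x i‖ = R⁻¹ := fun i => by rw [hB]; simp
  have hcard : B.card = A.card := by
    have : A.map w.toEmbedding = B := by
      ext i
      rw [Finset.mem_map, hBm]
      constructor
      · rintro ⟨j, hj, rfl⟩
        rw [hAm] at hj
        show ‖x (w j)‖ = _
        rw [hnw, hj]
      · intro hi
        refine ⟨w.symm i, ?_, w.apply_symm_apply i⟩
        rw [hAm]
        have h2 := hnw (w.symm i)
        rw [w.apply_symm_apply, hi] at h2
        exact (inv_injective h2).symm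
    rw [← this, Finset.card_map]
  have hRR : R⁻¹ < R := (inv_lt_one_of_one_lt₀ hR1).trans hR1
  have hdisj : Disjoint A B := by
    rw [Finset.disjoint_left]
    intro i hi hi'
    rw [hAm] at hi
    rw [hBm, hi] at hi'
    exact hRR.ne' hi'
  have hle : A.card + B.card ≤ n := by
    rw [← Finset.card_union_of_disjoint hdisj]
    have := Finset.card_le_univ (A ∪ B)
    rwa [Fintype.card_fin] at this
  obtain ⟨a, ha⟩ : ∃ a, A.card = a := ⟨_, rfl⟩
  have ha1 : 1 ≤ a := by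
    rw [← ha, Nat.one_le_iff_ne_zero, ← Nat.pos_iff_ne_zero, Finset.card_pos]
    exact ⟨i1, (hAm i1).2 hRdef.symm⟩
  obtain ⟨c, hc⟩ : ∃ c, n = a + (c + a) := ⟨n - 2 * a, by omega⟩
  subst hc
  have hD : Data a c x R A B :=
    { ne := hx
      R1 := hR1
      cA := ha
      cB := hcard.trans ha
      a1 := ha1
      hA := fun i hi => (hAm i).1 hi
      hB := fun i hi => (hBm i).1 hi
      hA' := fun i hi => lt_of_le_of_ne (hmax i) fun h' => hi ((hAm i).2 h')
      hB' := fun i hi => lt_of_le_of_ne (hmin i) fun h' => hi ((hBm i).2 h'.symm) }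
  exact hD.not_summable hBlk hHL hP hMax hAb t h0 h1 hR2

end DivM

/-- DIV -/
theorem specDiv (hBlk : SpecBlk) (hHL : SpecHL0) (hP : SpecPoly) (hMax : SpecMax)
    (hAb : SpecAb) : SpecDiv := DivM.div hBlk hHL hP hMax hAb

end MPtg
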