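import Pool.Agent.Lib.MP_3d2757_nt.Cnt

/-!
# MP_3d2757_nt, module GELF: Gelfand's trick (finite averaging over `K / K_m`)
-/

open Finset

namespace MPtg
namespace KSM

variable {E : Type} [NormedField E] (U : Unr E) {n : ℕ}

include U in
lemma sub_entry {A B : Matrix (Fin n) (Fin n) E} {r : ℝ}
    (hA : ∀ i j, ‖A i j‖ ≤ r) (hB : ∀ i j, ‖B i j‖ ≤ r) (i j : Fin n) : ‖(A - B) i j‖ ≤ r := by
  rw [Matrix.sub_apply]
  exact BoxM.norm_sub_le' U _ _ (hA i j) (hB i j)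

include U in
lemma add_entry {A B : Matrix (Fin n) (Fin n) E} {r : ℝ}
    (hA : ∀ i j, ‖A i j‖ ≤ r) (hB : ∀ i j, ‖B i j‖ ≤ r) (i j : Fin n) : ‖(A + B) i j‖ ≤ r := by
  rw [Matrix.add_apply]
  exact BoxM.norm_add_le' U _ _ (hA i j) (hB i j)

/-- principal congruence subgroup -/
def Kc (m : ℕ) : Subgroup (GL (Fin n) E) where
  carrier := {g | g ∈ KS E n ∧ ∀ i j, ‖(g.val - 1) i j‖ ≤ ‖U.ϖ‖ ^ m}
  mul_mem' := by
    rintro g h ⟨hg, hg'⟩ ⟨hh, hh'⟩
    refine ⟨mul_mem U hg hh, ?_⟩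
    have : (g * h).val - 1 = (g.val - 1) * h.val + (h.val - 1) := by
      rw [Units.val_mul]; noncomm_ring
    rw [this]
    exact add_entry U (entry_mul U (by positivity) hg' hh.1) hh'
  one_mem' := by
    refine ⟨one_mem, fun i j => ?_⟩
    rw [Units.val_one, sub_self]
    simp
  inv_mem' := by
    rintro g ⟨hg, hg'⟩
    refine ⟨inv_mem hg, ?_⟩
    have : (g⁻¹).val - 1 = (g⁻¹).val * (1 - g.val) := by
      rw [mul_sub, mul_one, ← Units.val_mul, inv_mul_cancel, Units.val_one]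
    rw [this]
    apply mul_entry U (by positivity) hg.2
    intro i j
    have h2 := hg' i j
    rw [Matrix.sub_apply] at h2 ⊢
    rw [norm_sub_rev]; exact h2

lemma mem_Kc {m : ℕ} {g : GL (Fin n) E} :
    g ∈ (Kc U m : Subgroup (GL (Fin n) E)) ↔
      g ∈ KS E n ∧ ∀ i j, ‖(g.val - 1) i j‖ ≤ ‖U.ϖ‖ ^ m := Iff.rfl

lemma mem_KG {g : GL (Fin n) E} : g ∈ (KG U : Subgroup (GL (Fin n) E)) ↔ g ∈ KS E n := Iff.rfl

/-- finite approximation of the integers -/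
lemma exists_fin (m : ℕ) : ∃ R : Finset E, ∀ x : E, ‖x‖ ≤ 1 → ∃ r ∈ R, ‖x - r‖ ≤ ‖U.ϖ‖ ^ m := by
  classical
  induction m with
  | zero => exact ⟨{0}, fun x hx => ⟨0, by simp, by simpa using hx⟩⟩
  | succ m ih =>
    obtain ⟨R, hR⟩ := ih
    refine ⟨(R ×ˢ U.rep).image (fun p => p.1 + U.ϖ ^ m * p.2), fun x hx => ?_⟩
    obtain ⟨r, hr, hxr⟩ := hR x hx
    have hw : U.ϖ ^ m ≠ 0 := pow_ne_zero _ (BoxM.w0 U)
    have h1 : ‖(x - r) / U.ϖ ^ m‖ ≤ 1 := by
      rw [norm_div, norm_pow]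
      exact div_le_one_of_le₀ hxr (by positivity)
    obtain ⟨s, ⟨hs, hs'⟩, _⟩ := U.rep_ex _ h1
    refine ⟨r + U.ϖ ^ m * s, Finset.mem_image.2 ⟨(r, s), by simp [hr, hs], rfl⟩, ?_⟩
    have h2 := BoxM.lt_one U hs'
    have h3 : x - (r + U.ϖ ^ m * s) = U.ϖ ^ m * ((x - r) / U.ϖ ^ m - s) := by
      field_simp
      ring
    rw [h3, norm_mul, norm_pow, pow_succ]
    exact mul_le_mul_of_nonneg_left h2 (by positivity)

lemma inv_mul_mem_Kc {m : ℕ} {k k' : GL (Fin n) E} (hk : k ∈ KS E n) (hk' : k' ∈ KS E n)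
    (h : ∀ i j, ‖k.val i j - k'.val i j‖ ≤ ‖U.ϖ‖ ^ m) : k⁻¹ * k' ∈ Kc U m := by
  refine ⟨mul_mem U (inv_mem hk) hk', ?_⟩
  have h1 : (k⁻¹ * k').val - 1 = (k⁻¹).val * (k'.val - k.val) := by
    rw [mul_sub, Units.val_mul, ← Units.val_mul (k⁻¹) k, inv_mul_cancel, Units.val_one]
  rw [h1]
  apply mul_entry U (by positivity) hk.2
  intro i j
  rw [Matrix.sub_apply, norm_sub_rev]
  exact h i j

instance finQ (m : ℕ) :
    Finite (↥(KG U : Subgroup (GL (Fin n) E)) ⧸ (Kc U m).subgroupOf (KG U)) := by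
  obtain ⟨R, hR⟩ := exists_fin U m
  have h1 : ∀ (k : ↥(KG U : Subgroup (GL (Fin n) E))) (i j : Fin n), ∃ r : ↥R,
      ‖(k : GL (Fin n) E).val i j - r‖ ≤ ‖U.ϖ‖ ^ m := by
    intro k i j
    obtain ⟨r, hr, h⟩ := hR _ (k.2.1 i j)
    exact ⟨⟨r, hr⟩, h⟩
  choose r hr using h1
  apply Finite.of_injective (fun q : ↥(KG U : Subgroup (GL (Fin n) E)) ⧸
    (Kc U m).subgroupOf (KG U) => r q.out)
  intro q q' h
  have h' : r q.out = r q'.out := h
  rw [← QuotientGroup.out_eq' q, ← QuotientGroup.out_eq' q', QuotientGroup.eq]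
  rw [Subgroup.mem_subgroupOf]
  apply inv_mul_mem_Kc U q.out.2 q'.out.2
  intro i j
  have e : (q.out : GL (Fin n) E).val i j - (q'.out : GL (Fin n) E).val i j =
    ((q.out : GL (Fin n) E).val i j - r q.out i j) -
      ((q'.out : GL (Fin n) E).val i j - r q'.out i j) := by
    rw [h']; ring
  rw [e]
  exact BoxM.norm_sub_le' U _ _ (hr _ i j) (hr _ i j)

lemma tr_mem_Kc {m : ℕ} {k : GL (Fin n) E} (hk : k ∈ Kc U m) : tr k ∈ Kc U m := by
  refine ⟨tr_mem hk.1, fun i j => ?_⟩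
  have := hk.2 j i
  rw [Matrix.sub_apply] at this ⊢
  rw [Matrix.one_apply] at this ⊢
  rw [tr_val, Matrix.transpose_apply]
  simpa only [eq_comm] using this

lemma conj_mem_Kc {m : ℕ} {k g : GL (Fin n) E} (hk : k ∈ Kc U m) (hg : g ∈ KS E n) :
    g * k * g⁻¹ ∈ Kc U m := by
  refine ⟨mul_mem U (mul_mem U hg hk.1) (inv_mem hg), ?_⟩
  have h1 : (g * k * g⁻¹).val - 1 = g.val * (k.val - 1) * (g⁻¹).val := by
    rw [mul_sub, sub_mul, mul_one, ← Units.val_mul g g⁻¹, mul_inv_cancel, Units.val_one,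
      Units.val_mul, Units.val_mul]
  rw [h1]
  exact entry_mul U (by positivity) (mul_entry U (by positivity) hg.1 hk.2) hg.2

/-- bound of the entries by a power of the uniformizer -/
lemma exists_bd (A : Matrix (Fin n) (Fin n) E) : ∃ N : ℕ, ∀ i j, ‖A i j‖ * ‖U.ϖ‖ ^ N ≤ 1 := by
  have h1 : ∀ i j, ∃ N : ℕ, ‖A i j‖ * ‖U.ϖ‖ ^ N ≤ 1 := by
    intro i j
    have ht : Filter.Tendsto (fun N : ℕ => ‖A i j‖ * ‖U.ϖ‖ ^ N) Filter.atTop (nhds (‖A i j‖ * 0)) :=
      (tendsto_pow_atTop_nhds_zero_of_lt_one (norm_nonneg _) U.ϖlt).const_mul _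
    rw [mul_zero] at ht
    exact ((ht.eventually (ge_mem_nhds zero_lt_one)).exists)
  choose N hN using h1
  refine ⟨∑ i, ∑ j, N i j, fun i j => ?_⟩
  have h2 : N i j ≤ ∑ i, ∑ j, N i j :=
    (Finset.single_le_sum (f := fun j => N i j) (fun _ _ => Nat.zero_le _) (mem_univ j)).trans
      (Finset.single_le_sum (f := fun i => ∑ j, N i j) (fun _ _ => Nat.zero_le _) (mem_univ i))
  refine le_trans ?_ (hN i j)
  apply mul_le_mul_of_nonneg_left _ (norm_nonneg _)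
  exact pow_le_pow_of_le_one (norm_nonneg _) U.ϖlt.le h2

/-- some congruence subgroup is conjugated into `K` -/
lemma exists_conj (h : GL (Fin n) E) : ∃ m0 : ℕ, ∀ m ≥ m0, ∀ k ∈ (Kc U m : Subgroup (GL (Fin n) E)),
    h⁻¹ * k * h ∈ KS E n := by
  obtain ⟨N1, h1⟩ := exists_bd U h.val
  obtain ⟨N2, h2⟩ := exists_bd U (h⁻¹).val
  have key : ∀ X : Matrix (Fin n) (Fin n) E, (∀ i j, ‖X i j‖ ≤ ‖U.ϖ‖ ^ (N1 + N2)) →
      ∀ i j, ‖((h⁻¹).val * X * h.val) i j‖ ≤ 1 := by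
    intro X hX i j
    rw [Matrix.mul_apply]
    apply BoxM.norm_sum_le' U _ _ zero_le_one
    intro l _
    rw [Matrix.mul_apply, Finset.sum_mul]
    apply BoxM.norm_sum_le' U _ _ zero_le_one
    intro l' _
    rw [norm_mul, norm_mul]
    have e1 := h1 l j
    have e2 := h2 i l'
    have e3 := hX l' l
    calc ‖(h⁻¹).val i l'‖ * ‖X l' l‖ * ‖h.val l j‖
        ≤ ‖(h⁻¹).val i l'‖ * ‖U.ϖ‖ ^ (N1 + N2) * ‖h.val l j‖ := by gcongr
      _ = (‖(h⁻¹).val i l'‖ * ‖U.ϖ‖ ^ N2) * (‖h.val l j‖ * ‖U.ϖ‖ ^ N1) := by rw [pow_add]; ring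
      _ ≤ 1 * 1 := mul_le_mul e2 e1 (by positivity) zero_le_one
      _ = 1 := one_mul 1
  refine ⟨N1 + N2, fun m hm k hk => ?_⟩
  have hle : ‖U.ϖ‖ ^ m ≤ ‖U.ϖ‖ ^ (N1 + N2) := pow_le_pow_of_le_one (norm_nonneg _) U.ϖlt.le hm
  have main : ∀ k ∈ (Kc U m : Subgroup (GL (Fin n) E)), ∀ i j, ‖(h⁻¹ * k * h).val i j‖ ≤ 1 := by
    intro k hk i j
    have e : (h⁻¹ * k * h).val = (h⁻¹).val * (k.val - 1) * h.val + 1 := by
      rw [mul_sub, sub_mul, mul_one, ← Units.val_mul h⁻¹ h, inv_mul_cancel, Units.val_one,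
        Units.val_mul, Units.val_mul]
      abel
    rw [e]
    exact add_entry U (key _ fun i j => (hk.2 i j).trans hle) one_entry i j
  refine ⟨main k hk, fun i j => ?_⟩
  have e : (h⁻¹ * k * h)⁻¹ = h⁻¹ * k⁻¹ * h := by group
  rw [e]
  exact main _ (Subgroup.inv_mem _ hk) i j

lemma pimul {H : Type} [NormedAddCommGroup H] [InnerProductSpace ℂ H]
    (π : GL (Fin n) E →* (H ≃ₗᵢ[ℂ] H)) (g h : GL (Fin n) E) (v : H) :
    π (g * h) v = π g (π h v) := by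
  rw [map_mul]; rfl

section
variable {H : Type} [NormedAddCommGroup H] [InnerProductSpace ℂ H]
    (π : GL (Fin n) E →* (H ≃ₗᵢ[ℂ] H)) (P : H →L[ℂ] H)

include U

/-- `P ∘ π(k) = P` -/
lemma P_pi (h1 : ∀ v, ∀ k ∈ KS E n, π k (P v) = P v)
    (h3 : ∀ v w, inner ℂ (P v) w = inner ℂ v (P w)) {k : GL (Fin n) E} (hk : k ∈ KS E n) (u : H) :
    P (π k u) = P u := by
  apply ext_inner_right ℂ
  intro w
  rw [h3, h3, ← h1 w k hk, LinearIsometryEquiv.inner_map_map, h1 w k hk]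

/-- the projection as a finite average -/
lemma avg (h1 : ∀ v, ∀ k ∈ KS E n, π k (P v) = P v)
    (h2 : ∀ v, (∀ k ∈ KS E n, π k v = v) → P v = v)
    (h3 : ∀ v w, inner ℂ (P v) w = inner ℂ v (P w)) (m : ℕ)
    [Fintype (↥(KG U : Subgroup (GL (Fin n) E)) ⧸ (Kc U m).subgroupOf (KG U))]
    (u : H) (hu : ∀ k ∈ (Kc U m : Subgroup (GL (Fin n) E)), π k u = u) :
    (Fintype.card (↥(KG U : Subgroup (GL (Fin n) E)) ⧸ (Kc U m).subgroupOf (KG U)) : ℂ) • P u =
      ∑ q : ↥(KG U : Subgroup (GL (Fin n) E)) ⧸ (Kc U m).subgroupOf (KG U),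
        π (q.out : GL (Fin n) E) u := by
  set s : H := ∑ q : ↥(KG U : Subgroup (GL (Fin n) E)) ⧸ (Kc U m).subgroupOf (KG U),
        π (q.out : GL (Fin n) E) u with hs
  have hfix : ∀ k ∈ KS E n, π k s = s := by
    intro k hk
    rw [hs, map_sum]
    let k' : ↥(KG U : Subgroup (GL (Fin n) E)) := ⟨k, hk⟩
    apply Fintype.sum_equiv (MulAction.toPerm k')
    intro q
    have e1 : (QuotientGroup.mk (k' * q.out) :
        ↥(KG U : Subgroup (GL (Fin n) E)) ⧸ (Kc U m).subgroupOf (KG U)) =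
          (MulAction.toPerm k') q := by
      rw [MulAction.toPerm_apply]
      conv_rhs => rw [← QuotientGroup.out_eq' q]
      rfl
    rw [← QuotientGroup.out_eq' ((MulAction.toPerm k') q), QuotientGroup.eq,
      Subgroup.mem_subgroupOf] at e1
    have e2 := hu _ e1
    have e3 : ((((MulAction.toPerm k') q).out : ↥(KG U : Subgroup (GL (Fin n) E))) :
        GL (Fin n) E) = (k * (q.out : GL (Fin n) E)) *
          (((k' * q.out)⁻¹ * ((MulAction.toPerm k') q).out : ↥(KG U : Subgroup (GL (Fin n) E))) :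
            GL (Fin n) E) := by
      have : ((((MulAction.toPerm k') q).out : ↥(KG U : Subgroup (GL (Fin n) E)))) =
        (k' * q.out) * ((k' * q.out)⁻¹ * ((MulAction.toPerm k') q).out) := by group
      exact congrArg Subtype.val this
    rw [e3, pimul π, e2, pimul π]
  have h4 : P s = s := h2 s hfix
  rw [← h4, hs, map_sum]
  have h5 : ∀ q : ↥(KG U : Subgroup (GL (Fin n) E)) ⧸ (Kc U m).subgroupOf (KG U),
      P (π (q.out : GL (Fin n) E) u) = P u := fun q => P_pi U π P h1 h3 q.out.2 u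
  rw [Finset.sum_congr rfl (fun q _ => h5 q), Finset.sum_const, Finset.card_univ,
    ← Nat.cast_smul_eq_nsmul ℂ]

end

/-- sums over `K / K_m` are invariant under transposition -/
lemma sum_tr (m : ℕ)
    [Fintype (↥(KG U : Subgroup (GL (Fin n) E)) ⧸ (Kc U m).subgroupOf (KG U))]
    (f : GL (Fin n) E → ℂ) (hf : ∀ k ∈ KS E n, ∀ c ∈ (Kc U m : Subgroup (GL (Fin n) E)),
      f (k * c) = f k) :
    ∑ q : ↥(KG U : Subgroup (GL (Fin n) E)) ⧸ (Kc U m).subgroupOf (KG U),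
        f (tr (q.out : GL (Fin n) E)) =
    ∑ q : ↥(KG U : Subgroup (GL (Fin n) E)) ⧸ (Kc U m).subgroupOf (KG U),
        f (q.out : GL (Fin n) E) := by
  let T : ↥(KG U : Subgroup (GL (Fin n) E)) → ↥(KG U : Subgroup (GL (Fin n) E)) :=
    fun k => ⟨tr (k : GL (Fin n) E), tr_mem k.2⟩
  have key : ∀ a b : ↥(KG U : Subgroup (GL (Fin n) E)),
      a⁻¹ * b ∈ (Kc U m).subgroupOf (KG U) → (T a)⁻¹ * T b ∈ (Kc U m).subgroupOf (KG U) := by
    intro a b hab
    rw [Subgroup.mem_subgroupOf] at hab ⊢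
    have e1 : (((T a)⁻¹ * T b : ↥(KG U : Subgroup (GL (Fin n) E))) : GL (Fin n) E) =
        (tr (a : GL (Fin n) E))⁻¹ * (tr ((a⁻¹ * b : ↥(KG U : Subgroup (GL (Fin n) E))) :
          GL (Fin n) E)) * ((tr (a : GL (Fin n) E))⁻¹)⁻¹ := by
      have e2 : (b : GL (Fin n) E) = (a : GL (Fin n) E) *
          ((a⁻¹ * b : ↥(KG U : Subgroup (GL (Fin n) E))) : GL (Fin n) E) := by
        have : b = a * (a⁻¹ * b) := by group
        exact congrArg Subtype.val this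
      show (tr (a : GL (Fin n) E))⁻¹ * tr (b : GL (Fin n) E) = _
      conv_lhs => rw [e2]
      rw [tr_mul, inv_inv, ← mul_assoc]
    rw [e1]
    exact conj_mem_Kc U (tr_mem_Kc U hab) (inv_mem (tr_mem a.2))
  let F : (↥(KG U : Subgroup (GL (Fin n) E)) ⧸ (Kc U m).subgroupOf (KG U)) →
      (↥(KG U : Subgroup (GL (Fin n) E)) ⧸ (Kc U m).subgroupOf (KG U)) :=
    fun q => QuotientGroup.mk (T q.out)
  have hF : Function.Injective F := by
    intro q q' h
    have h1 : (T q.out)⁻¹ * T q'.out ∈ (Kc U m).subgroupOf (KG U) := QuotientGroup.eq.1 h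
    have h2 := key _ _ h1
    have e : ∀ a, T (T a) = a := fun a => Subtype.ext (tr_tr _)
    rw [e, e] at h2
    rw [← QuotientGroup.out_eq' q, ← QuotientGroup.out_eq' q', QuotientGroup.eq]
    exact h2
  have hFb : Function.Bijective F := Finite.injective_iff_bijective.1 hF
  apply Fintype.sum_bijective F hFb
  intro q
  have h1 : (QuotientGroup.mk ((F q).out) :
      ↥(KG U : Subgroup (GL (Fin n) E)) ⧸ (Kc U m).subgroupOf (KG U)) =
        QuotientGroup.mk (T q.out) := QuotientGroup.out_eq' _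
  have h2 : ((F q).out)⁻¹ * T q.out ∈ (Kc U m).subgroupOf (KG U) := QuotientGroup.eq.1 h1
  rw [Subgroup.mem_subgroupOf] at h2
  have e : tr (q.out : GL (Fin n) E) = ((F q).out : GL (Fin n) E) *
      ((((F q).out)⁻¹ * T q.out : ↥(KG U : Subgroup (GL (Fin n) E))) : GL (Fin n) E) := by
    have : T q.out = (F q).out * (((F q).out)⁻¹ * T q.out) := by group
    exact congrArg Subtype.val this
  rw [e]
  exact hf _ (F q).out.2 _ h2

end KSM

open KSM in
theorem specGelf : SpecGelf := by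
  intro E _ _ U n H _ _ _ π P _ h1 h2 h3 g h v
  classical
  -- reduction to diagonal matrices
  have hPk : ∀ k ∈ KS E n, ∀ u, P (π k u) = P u := fun k hk u => P_pi U π P h1 h3 hk u
  have hred : ∀ (k₁ k₂ d : GL (Fin n) E) (u : H), k₁ ∈ KS E n → k₂ ∈ KS E n →
      P (π (k₁ * d * k₂) (P u)) = P (π d (P u)) := by
    intro k₁ k₂ d u hk₁ hk₂
    rw [pimul π, pimul π,
      hPk k₁ hk₁, h1 u k₂ hk₂]
  obtain ⟨k₁, hk₁, k₂, hk₂, L, _, rfl⟩ := specCartan E U n g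
  obtain ⟨k₃, hk₃, k₄, hk₄, L', _, rfl⟩ := specCartan E U n h
  rw [hred k₁ k₂ _ _ hk₁ hk₂, hred k₃ k₄ _ _ hk₃ hk₄, hred k₃ k₄ _ _ hk₃ hk₄,
    hred k₁ k₂ _ _ hk₁ hk₂]
  set a : GL (Fin n) E := dg U.w L with ha
  set b : GL (Fin n) E := dg U.w L' with hb
  apply ext_inner_left ℂ
  intro w
  rw [← h3, ← h3]
  let A : GL (Fin n) E → ℂ := fun x => inner ℂ (P w) (π x (P v))
  have hA : ∀ (k k' x : GL (Fin n) E), k ∈ KS E n → k' ∈ KS E n → A (k * x * k') = A x := by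
    intro k k' x hk hk'
    show inner ℂ (P w) (π (k * x * k') (P v)) = inner ℂ (P w) (π x (P v))
    rw [pimul π, pimul π,
      h1 v k' hk']
    conv_lhs => rw [← h1 w k hk]
    rw [LinearIsometryEquiv.inner_map_map]
  have hAt : ∀ x, A (tr x) = A x := by
    intro x
    obtain ⟨k, hk, k', hk', M, _, rfl⟩ := specCartan E U n x
    rw [tr_mul, tr_mul, tr_dg, ← mul_assoc, hA _ _ _ (tr_mem hk') (tr_mem hk), hA _ _ _ hk hk']
  obtain ⟨m1, hm1⟩ := exists_conj U a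
  obtain ⟨m2, hm2⟩ := exists_conj U b
  set m := max m1 m2 with hm
  have := Fintype.ofFinite (↥(KG U : Subgroup (GL (Fin n) E)) ⧸ (Kc U m).subgroupOf (KG U))
  have hfixed : ∀ d : GL (Fin n) E, (∀ k ∈ (Kc U m : Subgroup (GL (Fin n) E)),
      d⁻¹ * k * d ∈ KS E n) → ∀ k ∈ (Kc U m : Subgroup (GL (Fin n) E)),
      π k (π d (P v)) = π d (P v) := by
    intro d hd k hk
    have e : k * d = d * (d⁻¹ * k * d) := by group
    rw [← pimul π, e, pimul π,
      h1 v _ (hd k hk)]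
  have ma : ∀ k ∈ (Kc U m : Subgroup (GL (Fin n) E)), a⁻¹ * k * a ∈ KS E n :=
    hm1 m (le_max_left _ _)
  have mb : ∀ k ∈ (Kc U m : Subgroup (GL (Fin n) E)), b⁻¹ * k * b ∈ KS E n :=
    hm2 m (le_max_right _ _)
  have hN : (Fintype.card (↥(KG U : Subgroup (GL (Fin n) E)) ⧸
      (Kc U m).subgroupOf (KG U)) : ℂ) ≠ 0 := by
    exact_mod_cast Fintype.card_ne_zero
  have sum_a := avg U π P h1 h2 h3 m (π a (P v)) (hfixed a ma)
  have sum_b := avg U π P h1 h2 h3 m (π b (P v)) (hfixed b mb)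
  apply mul_left_cancel₀ hN
  have left : (Fintype.card (↥(KG U : Subgroup (GL (Fin n) E)) ⧸
      (Kc U m).subgroupOf (KG U)) : ℂ) * inner ℂ (P w) (π a (P (π b (P v)))) =
      ∑ q : ↥(KG U : Subgroup (GL (Fin n) E)) ⧸ (Kc U m).subgroupOf (KG U),
        A (a * (q.out : GL (Fin n) E) * b) := by
    rw [← inner_smul_right, ← map_smul, sum_b, map_sum, inner_sum]
    apply Finset.sum_congr rfl
    intro q _
    show _ = inner ℂ (P w) (π (a * (q.out : GL (Fin n) E) * b) (P v))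
    rw [pimul π, pimul π]
  have right : (Fintype.card (↥(KG U : Subgroup (GL (Fin n) E)) ⧸
      (Kc U m).subgroupOf (KG U)) : ℂ) * inner ℂ (P w) (π b (P (π a (P v)))) =
      ∑ q : ↥(KG U : Subgroup (GL (Fin n) E)) ⧸ (Kc U m).subgroupOf (KG U),
        A (b * (q.out : GL (Fin n) E) * a) := by
    rw [← inner_smul_right, ← map_smul, sum_a, map_sum, inner_sum]
    apply Finset.sum_congr rfl
    intro q _
    show _ = inner ℂ (P w) (π (b * (q.out : GL (Fin n) E) * a) (P v))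
    rw [pimul π, pimul π]
  rw [left, right, ← sum_tr U m (fun k => A (b * k * a))]
  · apply Finset.sum_congr rfl
    intro q _
    rw [← hAt (a * (q.out : GL (Fin n) E) * b), tr_mul, tr_mul, ha, hb, tr_dg, tr_dg, mul_assoc]
  · intro k hk c hc
    have e : b * (k * c) * a = 1 * (b * k * a) * (a⁻¹ * c * a) := by group
    show A (b * (k * c) * a) = A (b * k * a)
    rw [e]
    exact hA _ _ _ one_mem (ma c hc)

end MPtg
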