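import Pool.Agent.Lib.MP_3d2757_nt.Max

section
/-!
# PF: one-variable Cauchy integral
-/
open Finset MeasureTheory

namespace MPtg

namespace PfM

/-- partial fractions -/
theorem pfrac {m : ℕ} (hm : 0 < m) (p : Fin m → ℂ) (hp : Function.Injective p) (z : ℂ)
    (hz : ∀ j, z ≠ p j) :
    (∏ j, (z - p j))⁻¹ = ∑ j, (∏ i ∈ univ.erase j, (p j - p i))⁻¹ * (z - p j)⁻¹ := by
  classical
  have hne : (univ : Finset (Fin m)).Nonempty := ⟨⟨0, hm⟩, mem_univ _⟩
  have h := Lagrange.eval_interpolate_not_at_node (s := (univ : Finset (Fin m))) (v := p)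
    (r := 1) (x := z) (fun i _ => hz i)
  rw [Lagrange.interpolate_one (hp.injOn) hne, Polynomial.eval_one, Lagrange.eval_nodal] at h
  have hpr : ∏ j, (z - p j) ≠ 0 := Finset.prod_ne_zero_iff.2 fun j _ => sub_ne_zero.2 (hz j)
  rw [eq_comm, ← mul_right_inj' hpr, mul_inv_cancel₀ hpr, h]
  congr 1
  refine Finset.sum_congr rfl fun j _ => ?_
  rw [Lagrange.nodalWeight, Finset.prod_inv_distrib, Pi.one_apply, mul_one]

theorem cavg_congr {f g : ℂ → ℂ} (h : ∀ z, ‖z‖ = 1 → f z = g z) : cavg f = cavg g := by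
  rw [TbM.cavg_eq, TbM.cavg_eq]
  refine Real.circleAverage_congr_sphere fun z hz => h z ?_
  rw [abs_one] at hz
  simpa using hz

/-- Cauchy's formula for one pole -/
theorem cavg_pole (N : ℂ → ℂ) (hN : DiffContOnCl ℂ N (Metric.ball 0 1)) (w : ℂ) (hw : ‖w‖ < 1) :
    cavg (fun z => z * (z - w)⁻¹ * N z) = N w := by
  rw [TbM.cavg_eq]
  have h := DiffContOnCl.circleAverage_smul_div (c := 0) (R := 1) (f := N) (w := w)
    (by rw [abs_one]; exact hN) (by rw [abs_one]; simpa using hw)
  rw [← h]
  congr 1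
  funext z
  rw [sub_zero, smul_eq_mul, div_eq_mul_inv]

/-- sum of the residues -/
theorem residues {m : ℕ} (N : ℂ → ℂ) (hN : DiffContOnCl ℂ N (Metric.ball 0 1)) (p : Fin m → ℂ)
    (hp : Function.Injective p) (hp1 : ∀ j, ‖p j‖ < 1) :
    cavg (fun z => z * (∏ j, (z - p j))⁻¹ * N z) =
      ∑ j, (∏ i ∈ univ.erase j, (p j - p i))⁻¹ * N (p j) := by
  rcases Nat.eq_zero_or_pos m with rfl | hm
  · simp only [Finset.univ_eq_empty, Finset.prod_empty, Finset.sum_empty, inv_one, mul_one]
    rw [TbM.cavg_zero _ (by exact (differentiable_id.diffContOnCl).smul hN)]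
    simp
  · have e : cavg (fun z => z * (∏ j, (z - p j))⁻¹ * N z) =
        cavg (fun z => ∑ j, (∏ i ∈ univ.erase j, (p j - p i))⁻¹ * (z * (z - p j)⁻¹ * N z)) := by
      refine cavg_congr fun z hz => ?_
      rw [pfrac hm p hp z (fun j h => by
        have := hp1 j
        rw [← h, hz] at this
        exact lt_irrefl _ this), Finset.mul_sum, Finset.sum_mul]
      refine Finset.sum_congr rfl fun j _ => ?_
      ring
    rw [e, TbM.cavg_eq]
    have hc : ∀ j, CircleIntegrable (fun z => z * (z - p j)⁻¹ * N z) 0 1 := by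
      intro j
      refine ContinuousOn.circleIntegrable zero_le_one ?_
      refine ContinuousOn.mul (ContinuousOn.mul continuousOn_id ?_) ?_
      · refine ContinuousOn.inv₀ (by fun_prop) fun z hz h => ?_
        have h1 := hp1 j
        rw [← sub_eq_zero.1 h] at h1
        have h2 : ‖z‖ = 1 := by simpa using hz
        rw [h2] at h1
        exact lt_irrefl _ h1
      · have := hN.continuousOn
        rw [closure_ball _ one_ne_zero] at this
        exact this.mono Metric.sphere_subset_closedBall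
    have h2 : ∀ j ∈ (univ : Finset (Fin m)), CircleIntegrable (fun z =>
        (∏ i ∈ univ.erase j, (p j - p i))⁻¹ * (z * (z - p j)⁻¹ * N z)) 0 1 := fun j _ =>
      (hc j).const_smul (a := (∏ i ∈ univ.erase j, (p j - p i))⁻¹)
    rw [Real.circleAverage_fun_sum h2]
    refine Finset.sum_congr rfl fun j _ => ?_
    have h3 := Real.circleAverage_fun_smul (𝕜 := ℂ) (a := (∏ i ∈ univ.erase j, (p j - p i))⁻¹)
      (f := fun z => z * (z - p j)⁻¹ * N z) (c := 0) (R := 1)
    simp only [smul_eq_mul] at h3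
    rw [h3, ← TbM.cavg_eq, cavg_pole N hN (p j) (hp1 j)]

/-- the numerator -/
noncomputable def NN {m : ℕ} (t : ℂ) (y : Fin m → ℂ) (a : ℕ) (z : ℂ) : ℂ :=
  z ^ a * ∏ j, ((z - t ^ 2 * y j) * (y j - z) * (y j + t * z)⁻¹)

theorem kK_eq (t z y : ℂ) (hy : y ≠ 0) (h1 : z + t * y ≠ 0) (h2 : y + t * z ≠ 0) :
    kK (t ^ 2) (-t) (z / y) = (z + t * y)⁻¹ * ((z - t ^ 2 * y) * (y - z) * (y + t * z)⁻¹) := by
  have e1 : z / y - t ^ 2 = (z - t ^ 2 * y) / y := by
    rw [sub_div, mul_div_cancel_right₀ _ hy]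
  have e2 : 1 - z / y = (y - z) / y := by
    rw [sub_div, div_self hy]
  have e3 : z / y - -t = (z + t * y) / y := by
    rw [add_div, mul_div_cancel_right₀ _ hy, sub_neg_eq_add]
  have e4 : 1 - -t * (z / y) = (y + t * z) / y := by
    rw [add_div, div_self hy]
    ring
  unfold kK
  rw [e1, e2, e3, e4]
  generalize z - t ^ 2 * y = A
  generalize y - z = B
  generalize z + t * y = C at *
  generalize y + t * z = D at *
  field_simp

end PfM

open PfM in
theorem specPf : SpecPf := by
  intro m t h0 h1 y hy hinj a ha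
  obtain ⟨b, rfl⟩ : ∃ b, a = b + 1 := ⟨a - 1, by omega⟩
  have hy0 : ∀ j, y j ≠ 0 := fun j h => by
    have := hy j
    rw [h, norm_zero] at this
    exact zero_ne_one this
  have ht0 : (t : ℂ) ≠ 0 := by exact_mod_cast h0.ne'
  have htn : ‖(t : ℂ)‖ = t := by rw [Complex.norm_real, Real.norm_of_nonneg h0.le]
  have h1t : (1 : ℂ) - t ≠ 0 := by
    rw [sub_ne_zero]
    exact_mod_cast h1.ne'
  have h1t' : (1 : ℂ) + t ≠ 0 := by
    have : (0 : ℝ) < 1 + t := by linarith
    exact_mod_cast this.ne'
  set p : Fin m → ℂ := fun j => -(t : ℂ) * y j with hp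
  have hpinj : Function.Injective p := by
    intro i j hij
    simp only [hp] at hij
    exact hinj (mul_left_cancel₀ (neg_ne_zero.2 ht0) hij)
  have hp1 : ∀ j, ‖p j‖ < 1 := by
    intro j
    simp only [hp]
    rw [norm_mul, norm_neg, htn, hy j, mul_one]
    exact h1
  -- denominators
  have hden : ∀ j (z : ℂ), ‖z‖ ≤ 1 → y j + (t : ℂ) * z ≠ 0 := by
    intro j z hz h
    have h2 : y j = -((t : ℂ) * z) := eq_neg_of_add_eq_zero_left h
    have h3 := hy j
    rw [h2, norm_neg, norm_mul, htn] at h3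
    nlinarith [norm_nonneg z]
  have hN : DiffContOnCl ℂ (NN (t : ℂ) y b) (Metric.ball 0 1) := by
    apply DifferentiableOn.diffContOnCl
    rw [closure_ball _ one_ne_zero]
    unfold NN
    refine DifferentiableOn.mul (by fun_prop) ?_
    refine DifferentiableOn.fun_finsetProd fun j _ => ?_
    refine DifferentiableOn.mul (by fun_prop) ?_
    refine DifferentiableOn.inv (by fun_prop) fun z hz => hden j z (by simpa using hz)
  have e1 : cavg (fun z => z ^ (b + 1) * ∏ j, kK ((t : ℂ) ^ 2) (-(t : ℂ)) (z / y j)) =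
      cavg (fun z => z * (∏ j, (z - p j))⁻¹ * NN (t : ℂ) y b z) := by
    refine cavg_congr fun z hz => ?_
    unfold NN
    have e2 : ∀ j, kK ((t : ℂ) ^ 2) (-(t : ℂ)) (z / y j) =
        (z - p j)⁻¹ * ((z - (t : ℂ) ^ 2 * y j) * (y j - z) * (y j + (t : ℂ) * z)⁻¹) := by
      intro j
      have hd1 := hden j z hz.le
      have hd2 : z - p j ≠ 0 := by
        intro h
        have := hp1 j
        rw [← sub_eq_zero.1 h, hz] at this
        exact lt_irrefl _ this
      have e3 : z - p j = z + (t : ℂ) * y j := by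
        simp only [hp]
        ring
      rw [e3] at hd2 ⊢
      exact kK_eq _ _ _ (hy0 j) hd2 hd1
    simp_rw [e2]
    rw [Finset.prod_mul_distrib, Finset.prod_inv_distrib]
    ring
  rw [e1, residues (NN (t : ℂ) y b) hN p hpinj hp1, Finset.mul_sum]
  refine Finset.sum_congr rfl fun j _ => ?_
  unfold NN
  have hpn := hp1 j
  have hpj : -(t : ℂ) * y j = p j := rfl
  rw [hpj, ← Finset.mul_prod_erase univ _ (Finset.mem_univ j)]
  -- the factor `j`
  have ej : (p j - (t : ℂ) ^ 2 * y j) * (y j - p j) * (y j + (t : ℂ) * p j)⁻¹ =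
      (1 + (t : ℂ)) / (1 - (t : ℂ)) * p j := by
    have h5 := hy0 j
    have h6 := hden j (p j) hpn.le
    rw [← div_eq_mul_inv, div_eq_iff h6]
    simp only [hp]
    field_simp
    ring
  rw [ej]
  have ei : ∀ i ∈ univ.erase j, kK ((t : ℂ) ^ 2) (-(t : ℂ)) (p j / y i) =
      (p j - p i)⁻¹ * ((p j - (t : ℂ) ^ 2 * y i) * (y i - p j) * (y i + (t : ℂ) * p j)⁻¹) := by
    intro i hi
    have hd1 := hden i (p j) hpn.le
    have hd2 : p j - p i ≠ 0 := by
      rw [sub_ne_zero]
      exact fun h => (Finset.ne_of_mem_erase hi) (hpinj h).symm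
    have e3 : p j - p i = p j + (t : ℂ) * y i := by
      simp only [hp]
      ring
    rw [e3] at hd2 ⊢
    exact kK_eq _ _ _ (hy0 i) hd2 hd1
  have eR : ∏ i ∈ univ.erase j, kK ((t : ℂ) ^ 2) (-(t : ℂ)) (p j / y i) =
      (∏ i ∈ univ.erase j, (p j - p i))⁻¹ * ∏ x ∈ univ.erase j,
        ((p j - (t : ℂ) ^ 2 * y x) * (y x - p j) * (y x + (t : ℂ) * p j)⁻¹) := by
    rw [Finset.prod_congr rfl ei, Finset.prod_mul_distrib, Finset.prod_inv_distrib]
  rw [eR, pow_succ]
  generalize (∏ x ∈ univ.erase j, ((p j - (t : ℂ) ^ 2 * y x) * (y x - p j) *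
    (y x + (t : ℂ) * p j)⁻¹)) = A
  generalize (∏ x ∈ univ.erase j, (p j - p x))⁻¹ = B
  ring

end MPtg
end

section
/-!
# STEP: the recursion of the integrals `Jint`
-/
open Finset MeasureTheory

set_option linter.unusedSectionVars false

namespace MPtg

namespace StepM

/-- the unit torus -/
def Tor (n : ℕ) : Set (Fin n → ℂ) := {x | ∀ i, ‖x i‖ = 1}

theorem isCompact_tor (n : ℕ) : IsCompact (Tor n) := by
  have h : Tor n = Set.pi Set.univ fun _ => Metric.sphere (0 : ℂ) 1 := by
    ext x
    simp [Tor, Set.mem_pi]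
  rw [h]
  exact isCompact_univ_pi fun _ => isCompact_sphere 0 1

theorem exists_bound {n : ℕ} {f : (Fin n → ℂ) → ℂ} (hf : ContinuousOn f (Tor n)) :
    ∃ C, ∀ x : Fin n → ℂ, (∀ i, ‖x i‖ = 1) → ‖f x‖ ≤ C := by
  obtain ⟨C, hC⟩ := (isCompact_tor n).exists_bound_of_continuousOn hf
  exact ⟨C, fun x hx => hC x hx⟩

theorem cont_ze_comp {n : ℕ} {f : (Fin n → ℂ) → ℂ} (hf : ContinuousOn f (Tor n)) :
    Continuous fun θ => f (ze θ) :=
  hf.comp_continuous (TbM.cont_ze n) fun θ => TbM.norm_ze n θ

theorem integrable {n : ℕ} {f : (Fin n → ℂ) → ℂ} (hf : ContinuousOn f (Tor n)) :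
    Integrable (fun θ => f (ze θ)) (muT n) := by
  have := TbM.prob n
  exact (cont_ze_comp hf).integrable_of_hasCompactSupport (HasCompactSupport.of_compactSpace _)

theorem tint_congr_ae {n : ℕ} {f g : (Fin n → ℂ) → ℂ}
    (h : ∀ x, (∀ i, ‖x i‖ = 1) → Function.Injective x → f x = g x) : tint f = tint g := by
  unfold tint
  refine integral_congr_ae ?_
  filter_upwards [TbM.ae_inj n] with θ hθ
  exact h _ (TbM.norm_ze n θ) hθ

theorem tint_const_mul {n : ℕ} (c : ℂ) (f : (Fin n → ℂ) → ℂ) :
    tint (fun x => c * f x) = c * tint f := by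
  unfold tint
  exact integral_const_mul _ _

theorem tint_sum {n m : ℕ} {f : Fin m → (Fin n → ℂ) → ℂ}
    (hf : ∀ j, ContinuousOn (f j) (Tor n)) :
    tint (fun x => ∑ j, f j x) = ∑ j, tint (f j) := by
  unfold tint
  exact integral_finsetSum _ fun j _ => integrable (hf j)

/-- integrals of functions which do not depend on the coordinate `j` -/
theorem tint_succAbove {m : ℕ} (j : Fin (m + 1)) (F : (Fin m → ℂ) → ℂ) :
    tint (fun y : Fin (m + 1) → ℂ => F (fun i => y (j.succAbove i))) = tint F := by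
  unfold tint
  have h := measurePreserving_piFinSuccAbove
    (fun _ : Fin (m + 1) => (AddCircle.haarAddCircle : Measure UnitAddCircle)) j
  have hp := TbM.prob m
  have e : ∀ θ : Fin (m + 1) → UnitAddCircle, F (fun i => ze θ (j.succAbove i)) =
      (fun p : UnitAddCircle × (Fin m → UnitAddCircle) => F (ze p.2))
        (MeasurableEquiv.piFinSuccAbove (fun _ => UnitAddCircle) j θ) := by
    intro θ
    rfl
  simp_rw [e]
  have h2 := h.integral_comp' (fun p : UnitAddCircle × (Fin m → UnitAddCircle) => F (ze p.2))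
  refine h2.trans ?_
  have h3 : (∫ p : UnitAddCircle × (Fin m → UnitAddCircle), F (ze p.2)
      ∂((AddCircle.haarAddCircle : Measure UnitAddCircle).prod (muT m))) =
      ∫ θ, F (ze θ) ∂(muT m) := by
    have := integral_prod_mul (μ := (AddCircle.haarAddCircle : Measure UnitAddCircle))
      (ν := muT m) (fun _ => (1 : ℂ)) (fun θ => F (ze θ))
    simpa using this
  exact h3

/-! ### products over pairs -/

theorem prd_eq {n : ℕ} (k : ℂ → ℂ) (x : Fin n → ℂ) :
    prd k x = ∏ i, ∏ j, if i < j then k (x i / x j) else 1 := by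
  unfold prd
  refine Finset.prod_congr rfl fun i _ => ?_
  rw [← Finset.prod_filter]
  refine Finset.prod_congr ?_ fun _ _ => rfl
  ext j
  simp

theorem prod_erase {m : ℕ} (j : Fin (m + 1)) (F : Fin (m + 1) → ℂ) :
    ∏ i ∈ univ.erase j, F i = ∏ i : Fin m, F (j.succAbove i) := by
  have h : univ.erase j = univ.image j.succAbove := by
    rw [Fin.image_succAbove_univ]
    ext i
    simp
  rw [h, Finset.prod_image fun a _ b _ hab => Fin.succAbove_right_injective hab]

theorem prd_succAbove {m : ℕ} (k : ℂ → ℂ) (y : Fin (m + 1) → ℂ) (j : Fin (m + 1)) :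
    prd k y = (∏ i : Fin m, if j.succAbove i < j then k (y (j.succAbove i) / y j)
      else k (y j / y (j.succAbove i))) * prd k fun i => y (j.succAbove i) := by
  rw [prd_eq, prd_eq, Fin.prod_univ_succAbove _ j, Fin.prod_univ_succAbove _ j]
  rw [if_neg (lt_irrefl j), one_mul]
  have h : ∀ i : Fin m, (∏ l, if j.succAbove i < l then k (y (j.succAbove i) / y l) else 1) =
      (if j.succAbove i < j then k (y (j.succAbove i) / y j) else 1) *
        ∏ l : Fin m, if i < l then k (y (j.succAbove i) / y (j.succAbove l)) else 1 := by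
    intro i
    rw [Fin.prod_univ_succAbove _ j]
    simp only [Fin.succAbove_lt_succAbove_iff]
  rw [Finset.prod_congr rfl fun i _ => h i, Finset.prod_mul_distrib, ← mul_assoc,
    ← Finset.prod_mul_distrib]
  congr 1
  refine Finset.prod_congr rfl fun i _ => ?_
  have hne : j.succAbove i ≠ j := Fin.succAbove_ne j i
  by_cases hlt : j.succAbove i < j
  · rw [if_pos hlt, if_pos hlt, if_neg (not_lt.2 hlt.le), one_mul]
  · rw [if_neg hlt, if_neg hlt, if_pos (lt_of_le_of_ne (not_lt.1 hlt) hne.symm), mul_one]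

theorem mon_succAbove {m : ℕ} (a : Fin (m + 1) → ℤ) (y : Fin (m + 1) → ℂ) (j : Fin (m + 1)) :
    mon a y = y j ^ a j * mon (fun i => a (j.succAbove i)) fun i => y (j.succAbove i) := by
  unfold mon
  rw [Fin.prod_univ_succAbove _ j]

/-! ### the kernels -/

/-- `(t² - z)/(1 - t² z)` -/
noncomputable def gk (t z : ℂ) : ℂ := (t ^ 2 - z) / (1 - t ^ 2 * z)

/-- shorthand -/
noncomputable def hk (t z : ℂ) : ℂ := kK (t ^ 2) (-t) z

section kernels

variable {t : ℝ} (h0 : 0 < t) (h1 : t < 1)
include h0 h1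

theorem nt : ‖(t : ℂ)‖ = t := by rw [Complex.norm_real, Real.norm_of_nonneg h0.le]

theorem ne_add {z : ℂ} (hz : ‖z‖ = 1) : z + (t : ℂ) ≠ 0 := by
  intro h
  have h2 : z = -(t : ℂ) := eq_neg_of_add_eq_zero_left h
  rw [h2, norm_neg, nt h0 h1] at hz
  exact h1.ne hz

theorem ne_mul {z : ℂ} (hz : ‖z‖ ≤ 1) : 1 + (t : ℂ) * z ≠ 0 := by
  intro h
  have h2 : (1 : ℂ) = -((t : ℂ) * z) := eq_neg_of_add_eq_zero_left h
  have h3 : ‖(1 : ℂ)‖ = ‖(t : ℂ)‖ * ‖z‖ := by
    rw [← norm_mul, ← norm_neg ((t : ℂ) * z), ← h2]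
  rw [norm_one, nt h0 h1] at h3
  nlinarith [norm_nonneg z]

theorem ne_sq {z : ℂ} (hz : ‖z‖ ≤ 1) : 1 - (t : ℂ) ^ 2 * z ≠ 0 := by
  intro h
  have h2 : (1 : ℂ) = (t : ℂ) ^ 2 * z := sub_eq_zero.1 h
  have h3 : ‖(1 : ℂ)‖ = ‖(t : ℂ)‖ ^ 2 * ‖z‖ := by
    rw [← norm_pow, ← norm_mul, ← h2]
  rw [norm_one, nt h0 h1] at h3
  nlinarith [norm_nonneg z, mul_pos h0 h0]

theorem hk_eq (z : ℂ) : hk (t : ℂ) z =
    (z - (t : ℂ) ^ 2) * (1 - z) / ((z + (t : ℂ)) * (1 + (t : ℂ) * z)) := by
  unfold hk kK
  rw [sub_neg_eq_add, neg_mul, sub_neg_eq_add]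

theorem hk_cont : ContinuousOn (hk (t : ℂ)) (Metric.sphere 0 1) := by
  have e : hk (t : ℂ) = fun z =>
      (z - (t : ℂ) ^ 2) * (1 - z) / ((z + (t : ℂ)) * (1 + (t : ℂ) * z)) :=
    funext fun z => hk_eq h0 h1 z
  rw [e]
  refine ContinuousOn.div (by fun_prop) (by fun_prop) fun z hz => ?_
  have hz1 : ‖z‖ = 1 := by simpa using hz
  exact mul_ne_zero (ne_add h0 h1 hz1) (ne_mul h0 h1 hz1.le)

theorem gk_cont : ContinuousOn (gk (t : ℂ)) (Metric.sphere 0 1) := by
  unfold gk
  refine ContinuousOn.div (by fun_prop) (by fun_prop) fun z hz => ?_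
  have hz1 : ‖z‖ = 1 := by simpa using hz
  exact ne_sq h0 h1 hz1.le

/-- product of the kernels, smaller index -/
theorem hk_inv_mul {z : ℂ} (hz : ‖z‖ = 1) (hz1 : z ≠ 1) :
    hk (t : ℂ) z⁻¹ * hk (t : ℂ) (-(t : ℂ) * z) = 1 := by
  have hz0 : z ≠ 0 := by
    intro h
    rw [h, norm_zero] at hz
    exact zero_ne_one hz
  have ht : (t : ℂ) ≠ 0 := by exact_mod_cast h0.ne'
  have e1 := ne_add h0 h1 hz
  have e2 := ne_mul h0 h1 hz.le
  have e3 := ne_sq h0 h1 hz.le
  have e4 : (1 : ℂ) - z ≠ 0 := sub_ne_zero.2 hz1.symm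
  rw [hk_eq h0 h1, hk_eq h0 h1]
  have a1 : z⁻¹ - (t : ℂ) ^ 2 = (1 - (t : ℂ) ^ 2 * z) / z := by field_simp
  have a2 : 1 - z⁻¹ = -(1 - z) / z := by field_simp; ring
  have a3 : z⁻¹ + (t : ℂ) = (1 + (t : ℂ) * z) / z := by field_simp
  have a4 : 1 + (t : ℂ) * z⁻¹ = (z + (t : ℂ)) / z := by field_simp
  have a5 : -(t : ℂ) * z - (t : ℂ) ^ 2 = -(t : ℂ) * (z + t) := by ring
  have a6 : 1 - -(t : ℂ) * z = 1 + (t : ℂ) * z := by ring
  have a7 : -(t : ℂ) * z + (t : ℂ) = (t : ℂ) * (1 - z) := by ring
  have a8 : 1 + (t : ℂ) * (-(t : ℂ) * z) = 1 - (t : ℂ) ^ 2 * z := by ring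
  rw [a1, a2, a3, a4, a5, a6, a7, a8]
  generalize z + (t : ℂ) = A at *
  generalize 1 + (t : ℂ) * z = B at *
  generalize 1 - (t : ℂ) ^ 2 * z = C at *
  generalize (1 : ℂ) - z = D at *
  field_simp

/-- product of the kernels, larger index -/
theorem hk_mul {z : ℂ} (hz : ‖z‖ = 1) (hz1 : z ≠ 1) :
    hk (t : ℂ) z * hk (t : ℂ) (-(t : ℂ) * z) = gk (t : ℂ) z := by
  have ht : (t : ℂ) ≠ 0 := by exact_mod_cast h0.ne'
  have e1 := ne_add h0 h1 hz
  have e2 := ne_mul h0 h1 hz.le
  have e3 := ne_sq h0 h1 hz.le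
  have e4 : (1 : ℂ) - z ≠ 0 := sub_ne_zero.2 hz1.symm
  rw [hk_eq h0 h1, hk_eq h0 h1]
  have a5 : -(t : ℂ) * z - (t : ℂ) ^ 2 = -(t : ℂ) * (z + t) := by ring
  have a6 : 1 - -(t : ℂ) * z = 1 + (t : ℂ) * z := by ring
  have a7 : -(t : ℂ) * z + (t : ℂ) = (t : ℂ) * (1 - z) := by ring
  have a8 : 1 + (t : ℂ) * (-(t : ℂ) * z) = 1 - (t : ℂ) ^ 2 * z := by ring
  have a9 : gk (t : ℂ) z = -(z - (t : ℂ) ^ 2) / (1 - (t : ℂ) ^ 2 * z) := by
    unfold gk
    rw [neg_sub]
  rw [a5, a6, a7, a8, a9]
  generalize z + (t : ℂ) = A at *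
  generalize 1 + (t : ℂ) * z = B at *
  generalize 1 - (t : ℂ) ^ 2 * z = C at *
  generalize (1 : ℂ) - z = D at *
  generalize z - (t : ℂ) ^ 2 = F at *
  field_simp

end kernels

theorem div_mem {n : ℕ} {x : Fin n → ℂ} (hx : x ∈ Tor n) (i j : Fin n) :
    x i / x j ∈ Metric.sphere (0 : ℂ) 1 := by
  rw [mem_sphere_zero_iff_norm, norm_div, hx i, hx j, div_one]

theorem ne0 {n : ℕ} {x : Fin n → ℂ} (hx : x ∈ Tor n) (i : Fin n) : x i ≠ 0 := by
  intro h
  have := hx i
  rw [h, norm_zero] at this
  exact zero_ne_one this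

theorem cont_div {n : ℕ} {k : ℂ → ℂ} (hk : ContinuousOn k (Metric.sphere 0 1)) (i j : Fin n) :
    ContinuousOn (fun x : Fin n → ℂ => k (x i / x j)) (Tor n) := by
  refine hk.comp (ContinuousOn.div (by fun_prop) (by fun_prop) fun x hx => ne0 hx j) ?_
  exact fun x hx => div_mem hx i j

theorem cont_prd {n : ℕ} {k : ℂ → ℂ} (hk : ContinuousOn k (Metric.sphere 0 1)) :
    ContinuousOn (fun x : Fin n → ℂ => prd k x) (Tor n) := by
  unfold prd
  exact continuousOn_finsetProd _ fun i _ => continuousOn_finsetProd _ fun j _ =>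
    cont_div hk i j

theorem cont_mon {n : ℕ} (a : Fin n → ℤ) :
    ContinuousOn (fun x : Fin n → ℂ => mon a x) (Tor n) := by
  unfold mon
  exact continuousOn_finsetProd _ fun i _ =>
    ContinuousOn.zpow₀ (by fun_prop) (a i) fun x hx => Or.inl (ne0 hx i)

theorem cont_comp_succAbove {m : ℕ} {F : (Fin m → ℂ) → ℂ} (hF : ContinuousOn F (Tor m))
    (j : Fin (m + 1)) :
    ContinuousOn (fun y : Fin (m + 1) → ℂ => F fun i => y (j.succAbove i)) (Tor (m + 1)) :=
  hF.comp (by fun_prop) fun _ hy i => hy (j.succAbove i)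

/-- the `j`-th term after the first integration, exponent `c` of the coordinate `j` -/
noncomputable def TT {m : ℕ} (t : ℂ) (b : Fin m → ℤ) (c : ℕ) (j : Fin (m + 1))
    (y : Fin (m + 1) → ℂ) : ℂ :=
  y j ^ c * (∏ i : Fin m, if j.succAbove i < j then 1 else gk t (y j / y (j.succAbove i))) *
    (mon b (fun i => y (j.succAbove i)) * prd (hk t) fun i => y (j.succAbove i))

section main

variable {t : ℝ} (h0 : 0 < t) (h1 : t < 1)
include h0 h1

theorem cont_TT {m : ℕ} (b : Fin m → ℤ) (c : ℕ) (j : Fin (m + 1)) :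
    ContinuousOn (TT (t : ℂ) b c j) (Tor (m + 1)) := by
  unfold TT
  refine ContinuousOn.mul (ContinuousOn.mul (by fun_prop) ?_) ?_
  · refine continuousOn_finsetProd _ fun i _ => ?_
    split_ifs
    · exact continuousOn_const
    · exact cont_div (gk_cont h0 h1) _ _
  · exact (cont_comp_succAbove (cont_mon b) j).mul (cont_comp_succAbove (cont_prd (hk_cont h0 h1)) j)

theorem prod_below (m j : ℕ) (hj : j ≤ m) (c : ℂ) :
    ∏ i : Fin m, (if (i : ℕ) < j then 1 else c) = c ^ (m - j) := by
  rw [Fin.prod_univ_eq_prod_range (fun i => if i < j then 1 else c) m]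
  obtain ⟨k, rfl⟩ : ∃ k, m = j + k := ⟨m - j, by omega⟩
  rw [Finset.prod_range_add]
  have e1 : ∏ i ∈ range j, (if i < j then (1 : ℂ) else c) = 1 :=
    Finset.prod_eq_one fun i hi => if_pos (Finset.mem_range.1 hi)
  have e2 : ∏ i ∈ range k, (if j + i < j then (1 : ℂ) else c) = ∏ _i ∈ range k, c :=
    Finset.prod_congr rfl fun i _ => if_neg (by omega)
  rw [e1, e2, one_mul, Finset.prod_const, Finset.card_range, Nat.add_sub_cancel_left]

/-- integration over the coordinate `j` -/
theorem tint_TT {m : ℕ} (b : Fin m → ℤ) (c : ℕ) (j : Fin (m + 1)) :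
    tint (TT (t : ℂ) b c j) =
      if c = 0 then ((t : ℂ) ^ 2) ^ (m - (j : ℕ)) * Jint t b else 0 := by
  classical
  obtain ⟨C, hC⟩ := exists_bound (cont_TT h0 h1 b c j)
  set G : (Fin (m + 1) → ℂ) → ℂ → ℂ := fun y s =>
    (s * y j) ^ c * (∏ i : Fin m, if j.succAbove i < j then 1 else
      gk (t : ℂ) (s * (y j / y (j.succAbove i)))) *
    (mon b (fun i => y (j.succAbove i)) * prd (hk (t : ℂ)) fun i => y (j.succAbove i)) with hG
  have hm := MeanM.mean (m + 1) {j} (TT (t : ℂ) b c j) C
    (cont_ze_comp (cont_TT h0 h1 b c j)).aestronglyMeasurable hC G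
    (Filter.Eventually.of_forall fun θ => ⟨by
      apply DifferentiableOn.diffContOnCl
      rw [closure_ball _ one_ne_zero]
      simp only [hG]
      refine DifferentiableOn.mul_const (DifferentiableOn.mul (by fun_prop) ?_) _
      refine DifferentiableOn.fun_finsetProd fun i _ => ?_
      split_ifs
      · exact differentiableOn_const _
      · unfold gk
        refine DifferentiableOn.div (by fun_prop) (by fun_prop) fun s hs => ?_
        refine ne_sq h0 h1 ?_
        rw [norm_mul, norm_div, TbM.norm_ze, TbM.norm_ze, div_one, mul_one]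
        simpa using hs, by
      intro s _
      simp only [hG, TT, Finset.mem_singleton, if_true, Fin.succAbove_ne, if_false, mul_div_assoc]⟩)
  rw [hm]
  by_cases hc : c = 0
  · subst hc
    rw [if_pos rfl]
    have e : ∀ x : Fin (m + 1) → ℂ, G x 0 = ((t : ℂ) ^ 2) ^ (m - (j : ℕ)) *
        (fun u : Fin m → ℂ => mon b u * prd (hk (t : ℂ)) u) (fun i => x (j.succAbove i)) := by
      intro x
      simp only [hG, pow_zero, one_mul, zero_mul]
      congr 1
      rw [← prod_below h0 h1 m j (Nat.lt_succ_iff.1 j.2)]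
      refine Finset.prod_congr rfl fun i _ => ?_
      have hiff : j.succAbove i < j ↔ (i : ℕ) < j := by
        rw [Fin.succAbove_lt_iff_castSucc_lt]
        rfl
      have hg : gk (t : ℂ) 0 = (t : ℂ) ^ 2 := by
        unfold gk
        simp
      rw [hg]
      simp only [hiff]
    simp_rw [e]
    rw [tint_const_mul]
    congr 1
    exact tint_succAbove j fun u : Fin m → ℂ => mon b u * prd (hk (t : ℂ)) u
  · rw [if_neg hc]
    have e : ∀ x : Fin (m + 1) → ℂ, G x 0 = 0 := by
      intro x
      simp only [hG, zero_mul, zero_pow hc]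
    simp_rw [e]
    unfold tint
    exact integral_zero _ _

theorem step (m : ℕ) (a : Fin (m + 2) → ℤ) (ha : 1 ≤ a 0) (hb : ∀ j, - a 0 ≤ a j) :
    Jint t a = ((1 + (t : ℂ)) / (1 - (t : ℂ))) * (-(t : ℂ)) ^ (a 0) *
      ∑ j ∈ univ.filter (fun j : Fin (m + 1) => a j.succ = - a 0),
        ((t : ℂ) ^ 2) ^ (m - (j : ℕ)) * Jint t (fun i : Fin m => a (j.succAbove i).succ) := by
  classical
  obtain ⟨n, hn⟩ : ∃ n : ℕ, a 0 = n := ⟨(a 0).toNat, by omega⟩
  have hn1 : 1 ≤ n := by omega
  set a' : Fin (m + 1) → ℤ := fun j => a j.succ with ha'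
  set c : Fin (m + 1) → ℕ := fun j => (a 0 + a j.succ).toNat with hc
  have hcz : ∀ j, (c j : ℤ) = a 0 + a j.succ := fun j => by
    have := hb j.succ
    simp only [hc]
    omega
  set f : (Fin (m + 2) → ℂ) → ℂ := fun x => mon a x * prd (hk (t : ℂ)) x with hf
  have hfc : ContinuousOn f (Tor (m + 2)) := (cont_mon a).mul (cont_prd (hk_cont h0 h1))
  have hJ : Jint t a = tint f := rfl
  rw [hJ, TbM.fub (m + 1) f (integrable hfc)]
  -- the inner integral
  have hin : tint (fun y : Fin (m + 1) → ℂ => cavg fun z => f (Fin.cons z y)) =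
      tint (fun y : Fin (m + 1) → ℂ => ((1 + (t : ℂ)) / (1 - (t : ℂ)) * (-(t : ℂ)) ^ n) *
        ∑ j, TT (t : ℂ) (fun i => a' (j.succAbove i)) (c j) j y) := by
    refine tint_congr_ae fun y hy hinj => ?_
    have hy0 := fun j => ne0 (x := y) hy j
    have e1 : ∀ z : ℂ, f (Fin.cons z y) =
        (mon a' y * prd (hk (t : ℂ)) y) * (z ^ n * ∏ j, hk (t : ℂ) (z / y j)) := by
      intro z
      simp only [hf]
      rw [mon_succAbove a _ 0, prd_succAbove _ _ 0]
      have h3 : ∀ i : Fin (m + 1), ¬ (i.succ < 0) := fun i => Fin.not_lt_zero _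
      simp only [h3, if_false, Fin.cons_zero, hn, zpow_natCast, Fin.zero_succAbove, Fin.cons_succ]
      ring
    simp_rw [e1]
    have e2 : cavg (fun z => (mon a' y * prd (hk (t : ℂ)) y) *
        (z ^ n * ∏ j, hk (t : ℂ) (z / y j))) = (mon a' y * prd (hk (t : ℂ)) y) *
        cavg (fun z => z ^ n * ∏ j, hk (t : ℂ) (z / y j)) := by
      unfold cavg
      exact integral_const_mul _ _
    rw [e2]
    have e3 := specPf (m + 1) t h0 h1 y hy hinj n hn1
    have e4 : cavg (fun z => z ^ n * ∏ j, hk (t : ℂ) (z / y j)) = ((1 + (t : ℂ)) / (1 - (t : ℂ))) *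
        ∑ j, (-(t : ℂ) * y j) ^ n *
          ∏ i ∈ univ.erase j, hk (t : ℂ) (-(t : ℂ) * y j / y i) := e3
    rw [e4, Finset.mul_sum, Finset.mul_sum, Finset.mul_sum]
    refine Finset.sum_congr rfl fun j _ => ?_
    -- one term
    rw [prod_erase j (fun i => hk (t : ℂ) (-(t : ℂ) * y j / y i)), mon_succAbove a' y j,
      prd_succAbove (hk (t : ℂ)) y j]
    have e5 : (∏ i : Fin m, if j.succAbove i < j then hk (t : ℂ) (y (j.succAbove i) / y j)
        else hk (t : ℂ) (y j / y (j.succAbove i))) *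
        ∏ i : Fin m, hk (t : ℂ) (-(t : ℂ) * y j / y (j.succAbove i)) =
        ∏ i : Fin m, if j.succAbove i < j then 1 else gk (t : ℂ) (y j / y (j.succAbove i)) := by
      rw [← Finset.prod_mul_distrib]
      refine Finset.prod_congr rfl fun i _ => ?_
      have hz : ‖y j / y (j.succAbove i)‖ = 1 := by
        rw [norm_div, hy, hy, div_one]
      have hz1 : y j / y (j.succAbove i) ≠ 1 := by
        intro h
        rw [div_eq_one_iff_eq (hy0 _)] at h
        exact Fin.succAbove_ne j i (hinj h).symm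
      rw [mul_div_assoc]
      split_ifs with hlt
      · rw [← inv_div (y j) (y (j.succAbove i))]
        exact hk_inv_mul h0 h1 hz hz1
      · exact hk_mul h0 h1 hz hz1
    have e6 : y j ^ (c j) = y j ^ n * y j ^ (a' j) := by
      rw [← zpow_natCast, hcz, zpow_add₀ (hy0 j), hn, zpow_natCast]
    unfold TT
    rw [← e5, e6, mul_pow]
    ring
  rw [hin, tint_const_mul, tint_sum fun j => cont_TT h0 h1 _ _ _]
  have e7 : (-(t : ℂ)) ^ (a 0) = (-(t : ℂ)) ^ n := by rw [hn, zpow_natCast]
  rw [e7]
  congr 1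
  rw [Finset.sum_filter]
  refine Finset.sum_congr rfl fun j _ => ?_
  rw [tint_TT h0 h1]
  have hiff : c j = 0 ↔ a j.succ = - a 0 := by
    have := hcz j
    constructor
    · intro h
      rw [h] at this
      push_cast at this
      omega
    · intro h
      have h2 : (c j : ℤ) = 0 := by rw [this]; omega
      exact_mod_cast h2
  by_cases h : a j.succ = - a 0
  · rw [if_pos (hiff.2 h), if_pos h]
  · rw [if_neg fun h' => h (hiff.1 h'), if_neg h]

end main

end StepM

theorem specStep : SpecStep := by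
  intro m t h0 h1 a ha hb
  exact StepM.step h0 h1 m a ha hb

end MPtg
end

section
/-!
# JVAL: the values of the integrals `Jint`
-/
open Finset MeasureTheory

set_option linter.unusedSectionVars false

namespace MPtg

namespace JvalM

/-- `1 + u + ... + u^{k-1}` -/
noncomputable def br (u : ℂ) (k : ℕ) : ℂ := ∑ l ∈ range k, u ^ l

theorem br_one (u : ℂ) : br u 1 = 1 := by simp [br]

theorem br_mul (u : ℂ) (k : ℕ) : (1 - u) * br u k = 1 - u ^ k := by
  unfold br
  exact mul_neg_geom_sum u k

theorem vv_succ (n : ℕ) (u : ℂ) : vv (n + 1) u = vv n u * br u (n + 1) := by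
  unfold vv br
  rw [Finset.prod_range_succ]

theorem vv_eq (n : ℕ) (u : ℂ) : vv n u = ∏ k ∈ range n, br u (k + 1) := rfl

/-! ### initial and final segments -/

theorem lower {n : ℕ} (P : Fin n → Prop) [DecidablePred P] (hP : ∀ i j, j ≤ i → P i → P j)
    (i : Fin n) : P i ↔ (i : ℕ) < (univ.filter P).card := by
  constructor
  · intro h
    have hs : Finset.Iic i ⊆ univ.filter P := fun j hj => by
      rw [Finset.mem_Iic] at hj
      exact Finset.mem_filter.2 ⟨mem_univ _, hP i j hj h⟩
    have := Finset.card_le_card hs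
    rw [Fin.card_Iic] at this
    omega
  · intro h
    by_contra hn
    have hs : univ.filter P ⊆ Finset.Iio i := fun j hj => by
      rw [Finset.mem_Iio]
      by_contra hij
      exact hn (hP j i (not_lt.1 hij) (Finset.mem_filter.1 hj).2)
    have := Finset.card_le_card hs
    rw [Fin.card_Iio] at this
    omega

theorem upper {n : ℕ} (P : Fin n → Prop) [DecidablePred P] (hP : ∀ i j, i ≤ j → P i → P j)
    (i : Fin n) : P i ↔ n - (univ.filter P).card ≤ (i : ℕ) := by
  have hi := i.2
  constructor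
  · intro h
    have hs : Finset.Ici i ⊆ univ.filter P := fun j hj => by
      rw [Finset.mem_Ici] at hj
      exact Finset.mem_filter.2 ⟨mem_univ _, hP i j hj h⟩
    have := Finset.card_le_card hs
    rw [Fin.card_Ici] at this
    omega
  · intro h
    by_contra hn
    have hs : univ.filter P ⊆ Finset.Ioi i := fun j hj => by
      rw [Finset.mem_Ioi]
      by_contra hij
      exact hn (hP j i (not_lt.1 hij) (Finset.mem_filter.1 hj).2)
    have := Finset.card_le_card hs
    rw [Fin.card_Ioi] at this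
    omega

theorem sum_upper (m r : ℕ) (hr : r ≤ m + 1) (c : ℂ) :
    ∑ j : Fin (m + 1), (if m + 1 - r ≤ (j : ℕ) then c ^ (m - (j : ℕ)) else 0) = br c r := by
  rw [Fin.sum_univ_eq_sum_range (fun j => if m + 1 - r ≤ j then c ^ (m - j) else 0) (m + 1),
    ← Finset.sum_range_reflect]
  unfold br
  have h1 : ∀ j ∈ range (m + 1), (if m + 1 - r ≤ m + 1 - 1 - j then c ^ (m - (m + 1 - 1 - j)) else 0)
      = if j < r then c ^ j else 0 := by
    intro j hj
    rw [Finset.mem_range] at hj
    have e1 : m - (m + 1 - 1 - j) = j := by omega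
    rw [e1]
    by_cases h : j < r
    · rw [if_pos h, if_pos (by omega)]
    · rw [if_neg h, if_neg (by omega)]
  rw [Finset.sum_congr rfl h1, ← Finset.sum_filter]
  refine Finset.sum_congr ?_ fun _ _ => rfl
  ext j
  simp only [Finset.mem_filter, Finset.mem_range]
  omega

/-! ### small cases -/

theorem J_zero (t : ℝ) (L : Fin 0 → ℤ) : Jint t L = 1 := by
  have := TbM.prob 0
  unfold Jint tint mon prd
  simp

theorem cavg_zpow (c : ℤ) : cavg (fun z => z ^ c) = if c = 0 then 1 else 0 := by
  rw [TbM.cavg_eq]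
  rw [Real.circleAverage_eq_circleIntegral one_ne_zero]
  have h : (∮ z in C(0, 1), (z - 0)⁻¹ • z ^ c) = ∮ z in C(0, 1), (z - 0) ^ (c - 1) := by
    refine circleIntegral.integral_congr zero_le_one fun z hz => ?_
    have hz0 : z ≠ 0 := by
      rintro rfl
      simp at hz
    simp only [sub_zero, smul_eq_mul]
    rw [zpow_sub_one₀ hz0, mul_comm]
  rw [h]
  by_cases hc : c = 0
  · subst hc
    rw [if_pos rfl]
    have e : (∮ z in C(0, 1), (z - 0 : ℂ) ^ ((0 : ℤ) - 1)) = ∮ z in C(0, 1), (z - 0 : ℂ)⁻¹ := by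
      refine circleIntegral.integral_congr zero_le_one fun z _ => ?_
      simp
    rw [e, circleIntegral.integral_sub_center_inv _ one_ne_zero, smul_eq_mul, inv_mul_cancel₀]
    simp [Real.pi_ne_zero]
  · rw [if_neg hc, circleIntegral.integral_sub_zpow_of_ne (by omega), smul_zero]

theorem J_one (t : ℝ) (L : Fin 1 → ℤ) : Jint t L = if L 0 = 0 then 1 else 0 := by
  have hc : StepM.Tor 1 = StepM.Tor 1 := rfl
  have e : Jint t L = tint (fun x : Fin 1 → ℂ => mon L x) := by
    unfold Jint
    congr 1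
    funext x
    have : prd (kK ((t : ℂ) ^ 2) (-(t : ℂ))) x = 1 := by
      rw [StepM.prd_eq]
      simp
    rw [this, mul_one]
  rw [e, TbM.fub 0 _ (StepM.integrable (StepM.cont_mon L))]
  have e2 : ∀ y : Fin 0 → ℂ, cavg (fun z => mon L (Fin.cons z y)) = if L 0 = 0 then 1 else 0 := by
    intro y
    rw [← cavg_zpow]
    congr 1
    funext z
    unfold mon
    simp
  simp_rw [e2]
  have := TbM.prob 0
  unfold tint
  simp

/-! ### the main induction -/

/-- removal of the first and the last entry -/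
def inn {m : ℕ} (L : Fin (m + 2) → ℤ) : Fin m → ℤ := fun i => L i.castSucc.succ

theorem inn_anti {m : ℕ} {L : Fin (m + 2) → ℤ} (hL : Antitone L) : Antitone (inn L) := by
  intro i j hij
  exact hL (Fin.succ_le_succ_iff.2 (Fin.castSucc_le_castSucc_iff.2 hij))

theorem rev_inn {m : ℕ} (i : Fin m) : Fin.rev (i.castSucc.succ) = (Fin.rev i).castSucc.succ := by
  ext
  simp only [Fin.val_rev, Fin.val_succ, Fin.val_castSucc]
  have := i.2
  omega

theorem last_eq (m : ℕ) : (Fin.last m).succ = Fin.last (m + 1) := rfl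

theorem sym_iff {m : ℕ} {L : Fin (m + 2) → ℤ} (hL : Antitone L) (hl : L (Fin.last (m + 1)) = - L 0) :
    Sym L ↔ Sym (inn L) := by
  constructor
  · rintro ⟨_, h⟩
    refine ⟨inn_anti hL, fun i => ?_⟩
    have := h i.castSucc.succ
    rw [rev_inn] at this
    exact this
  · rintro ⟨_, h⟩
    refine ⟨hL, fun i => ?_⟩
    refine Fin.cases ?_ (fun k => ?_) i
    · rw [Fin.rev_zero, hl]
    · refine Fin.lastCases ?_ (fun k => ?_) k
      · rw [last_eq, Fin.rev_last, hl, neg_neg]
      · have := h k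
        rw [rev_inn]
        exact this

theorem prod_split {m : ℕ} (F : Fin (m + 2) → ℂ) :
    ∏ i, F i = F 0 * (∏ k : Fin m, F k.castSucc.succ) * F (Fin.last (m + 1)) := by
  rw [Fin.prod_univ_succ, Fin.prod_univ_castSucc, last_eq, mul_assoc]

theorem sum_split {m : ℕ} (F : Fin (m + 2) → ℕ) :
    ∑ i, F i = F 0 + (∑ k : Fin m, F k.castSucc.succ) + F (Fin.last (m + 1)) := by
  rw [Fin.sum_univ_succ, Fin.sum_univ_castSucc, last_eq, ← add_assoc (F 0)]

/-- count of a predicate over `Fin (m + 2)` -/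
theorem card_split {m : ℕ} (P : Fin (m + 2) → Prop) [DecidablePred P] :
    (univ.filter P).card = (if P 0 then 1 else 0) +
      (univ.filter fun k : Fin m => P k.castSucc.succ).card +
      (if P (Fin.last (m + 1)) then 1 else 0) := by
  rw [Finset.card_filter, Finset.card_filter, sum_split]

theorem vL_eq {n : ℕ} (L : Fin n → ℤ) (u : ℂ) :
    vL L u = ∏ i : Fin n, br u ((univ.filter (fun j : Fin n => j ≤ i ∧ L j = L i)).card) := rfl

theorem len_split {m : ℕ} (L : Fin (m + 2) → ℤ) (h0 : 1 ≤ L 0)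
    (hl : L (Fin.last (m + 1)) = - L 0) : len L = (L 0).toNat + len (inn L) := by
  unfold len inn
  rw [sum_split]
  have : (L (Fin.last (m + 1))).toNat = 0 := by rw [hl]; omega
  rw [this, add_zero]

/-- `vL` of a vector with `L 0 ≥ 1`, `L last = -L 0` -/
theorem vL_split {m : ℕ} {L : Fin (m + 2) → ℤ} (hL : Antitone L) (h0 : 1 ≤ L 0)
    (hl : L (Fin.last (m + 1)) = - L 0) (u : ℂ) :
    vL L u = br u ((univ.filter fun i => L i = L 0).card) * vL (inn L) u *
      br u ((univ.filter fun i => L i = L (Fin.last (m + 1))).card) := by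
  rw [vL_eq, vL_eq, prod_split]
  have e0 : br u ((univ.filter (fun j : Fin (m + 2) => j ≤ 0 ∧ L j = L 0)).card) = 1 := by
    have : (univ.filter (fun j : Fin (m + 2) => j ≤ 0 ∧ L j = L 0)) = {0} := by
      ext j
      simp only [Finset.mem_filter, Finset.mem_univ, true_and, Finset.mem_singleton]
      constructor
      · rintro ⟨h, _⟩
        exact le_antisymm h (Fin.zero_le _)
      · rintro rfl
        exact ⟨le_rfl, rfl⟩
    rw [this, Finset.card_singleton, br_one]
  have el : (univ.filter (fun j : Fin (m + 2) => j ≤ Fin.last (m + 1) ∧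
      L j = L (Fin.last (m + 1)))) = univ.filter fun i => L i = L (Fin.last (m + 1)) := by
    ext j
    simp [Fin.le_last]
  rw [e0, el, one_mul]
  congr 1
  -- the middle part
  set r := (univ.filter fun i => L i = L 0).card with hr
  have hlow : ∀ i : Fin (m + 2), L i = L 0 ↔ (i : ℕ) < r := by
    intro i
    exact lower (fun i => L i = L 0) (fun i j hij h => le_antisymm (hL (Fin.zero_le j))
      (h ▸ hL hij)) i
  have hlast : ¬ (L (Fin.last (m + 1)) = L 0) := by
    rw [hl]
    omega
  have hrm : r ≤ m + 1 := by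
    by_contra h
    exact hlast ((hlow _).2 (by rw [Fin.val_last]; omega))
  have hr1 : 1 ≤ r := by
    have := (hlow 0).1 rfl
    rw [Fin.val_zero] at this
    omega
  -- the counting functions
  have hc : ∀ k : Fin m, (univ.filter (fun j : Fin (m + 2) => j ≤ k.castSucc.succ ∧
      L j = L k.castSucc.succ)).card =
      (univ.filter (fun j : Fin m => j ≤ k ∧ inn L j = inn L k)).card +
        (if (k : ℕ) + 1 < r then 1 else 0) := by
    intro k
    rw [card_split]
    have h1 : ¬ (Fin.last (m + 1) ≤ k.castSucc.succ ∧ L (Fin.last (m + 1)) = L k.castSucc.succ) := by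
      rintro ⟨h, _⟩
      have := Fin.le_iff_val_le_val.1 h
      simp only [Fin.val_last, Fin.val_succ, Fin.val_castSucc] at this
      have := k.2
      omega
    have h2 : (0 ≤ k.castSucc.succ ∧ L 0 = L k.castSucc.succ) ↔ (k : ℕ) + 1 < r := by
      rw [eq_comm, hlow]
      simp only [Fin.zero_le, true_and, Fin.val_succ, Fin.val_castSucc]
    rw [if_neg h1, add_zero, add_comm]
    congr 1
    · congr 1
      ext j
      simp only [Finset.mem_filter, Finset.mem_univ, true_and, Fin.succ_le_succ_iff,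
        Fin.castSucc_le_castSucc_iff]
      rfl
    · by_cases h : (k : ℕ) + 1 < r
      · rw [if_pos h, if_pos (h2.2 h)]
      · rw [if_neg h, if_neg fun h' => h (h2.1 h')]
  have hs : ∀ k : Fin m, (k : ℕ) + 1 < r →
      (univ.filter (fun j : Fin m => j ≤ k ∧ inn L j = inn L k)).card = (k : ℕ) + 1 := by
    intro k hk
    have : (univ.filter (fun j : Fin m => j ≤ k ∧ inn L j = inn L k)) = Finset.Iic k := by
      ext j
      simp only [Finset.mem_filter, Finset.mem_univ, true_and, Finset.mem_Iic, and_iff_left_iff_imp]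
      intro hj
      have h1 : L j.castSucc.succ = L 0 := by
        rw [hlow]
        simp only [Fin.val_succ, Fin.val_castSucc]
        have : (j : ℕ) ≤ k := hj
        omega
      have h2 : L k.castSucc.succ = L 0 := by
        rw [hlow]
        simpa using hk
      show L j.castSucc.succ = L k.castSucc.succ
      rw [h1, h2]
    rw [this, Fin.card_Iic]
  have f1 : (∏ k : Fin m, br u ((univ.filter (fun j : Fin (m + 2) => j ≤ k.castSucc.succ ∧
      L j = L k.castSucc.succ)).card)) =
      (∏ k : Fin m, if (k : ℕ) < r - 1 then br u ((k : ℕ) + 2) else 1) *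
        ∏ k : Fin m, (if (k : ℕ) < r - 1 then 1 else
          br u (univ.filter (fun j : Fin m => j ≤ k ∧ inn L j = inn L k)).card) := by
    rw [← Finset.prod_mul_distrib]
    refine Finset.prod_congr rfl fun k _ => ?_
    rw [hc k]
    by_cases h : (k : ℕ) + 1 < r
    · rw [if_pos h, if_pos (by omega), if_pos (by omega), hs k h, mul_one]
    · rw [if_neg h, if_neg (by omega), if_neg (by omega), one_mul, add_zero]
  have f2 : (∏ k : Fin m, br u ((univ.filter (fun j : Fin m => j ≤ k ∧ inn L j = inn L k)).card)) =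
      (∏ k : Fin m, if (k : ℕ) < r - 1 then br u ((k : ℕ) + 1) else 1) *
        ∏ k : Fin m, (if (k : ℕ) < r - 1 then 1 else
          br u (univ.filter (fun j : Fin m => j ≤ k ∧ inn L j = inn L k)).card) := by
    rw [← Finset.prod_mul_distrib]
    refine Finset.prod_congr rfl fun k _ => ?_
    by_cases h : (k : ℕ) + 1 < r
    · rw [if_pos (by omega), if_pos (by omega), hs k h, mul_one]
    · rw [if_neg (by omega), if_neg (by omega), one_mul]
  have g : ∀ F : ℕ → ℂ, (∏ k : Fin m, if (k : ℕ) < r - 1 then F k else 1) =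
      ∏ k ∈ range (r - 1), F k := by
    intro F
    rw [Fin.prod_univ_eq_prod_range (fun k => if k < r - 1 then F k else 1) m,
      ← Finset.prod_filter]
    refine Finset.prod_congr ?_ fun _ _ => rfl
    ext k
    simp only [Finset.mem_filter, Finset.mem_range]
    omega
  rw [f1, f2, g fun k => br u (k + 2), g fun k => br u (k + 1)]
  have h3 : ∏ k ∈ range (r - 1), br u (k + 2) =
      br u r * ∏ k ∈ range (r - 1), br u (k + 1) := by
    have a1 := Finset.prod_range_succ (fun k => br u (k + 1)) (r - 1)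
    have a2 := Finset.prod_range_succ' (fun k => br u (k + 1)) (r - 1)
    rw [a1] at a2
    simp only [zero_add, br_one, mul_one] at a2
    rw [Nat.sub_add_cancel hr1] at a2
    rw [mul_comm (br u r)]
    exact a2.symm
  rw [h3]
  ring

theorem vL_zero (n : ℕ) (u : ℂ) : vL (0 : Fin n → ℤ) u = vv n u := by
  rw [vL_eq, vv_eq, ← Fin.prod_univ_eq_prod_range (fun k => br u (k + 1)) n]
  refine Finset.prod_congr rfl fun i _ => ?_
  have : (univ.filter (fun j : Fin n => j ≤ i ∧ (0 : Fin n → ℤ) j = (0 : Fin n → ℤ) i)) =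
      Finset.Iic i := by
    ext j
    simp
  rw [this, Fin.card_Iic]

/-- symmetric vectors have as many entries `-L 0` as `L 0` -/
theorem card_rev {n : ℕ} {L : Fin n → ℤ} (hs : ∀ i, L (Fin.rev i) = - L i) (c : ℤ) :
    (univ.filter fun i => L i = -c).card = (univ.filter fun i => L i = c).card := by
  refine Finset.card_bij (fun i _ => Fin.rev i) ?_ ?_ ?_
  · intro i hi
    rw [Finset.mem_filter] at hi ⊢
    exact ⟨mem_univ _, by rw [hs, hi.2, neg_neg]⟩
  · intro i _ j _ h
    exact Fin.rev_injective h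
  · intro i hi
    rw [Finset.mem_filter] at hi
    exact ⟨Fin.rev i, Finset.mem_filter.2 ⟨mem_univ _, by rw [hs, hi.2]⟩, Fin.rev_rev i⟩

theorem fin_alg (A B C D E F R P Q : ℂ) (hR : R ≠ 0) (hP : P ≠ 0) (hQ : Q ≠ 0) :
    A / Q * (B / Q) * (Q / P * C * (R / (P * Q))) * (F * D * E) =
      B * A / R * F * (C * D) * (R / (P * Q) * E * (R / (P * Q))) := by
  field_simp

section main

variable {t : ℝ} (h0 : 0 < t) (h1 : t < 1)
include h0 h1

/-- STEP in the case at hand -/
theorem step' (hStep : SpecStep) {m : ℕ} {L : Fin (m + 2) → ℤ} (hL : Antitone L) (hp : 1 ≤ L 0)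
    (hb : - L 0 ≤ L (Fin.last (m + 1))) :
    Jint t L = ((1 + (t : ℂ)) / (1 - (t : ℂ))) * (-(t : ℂ)) ^ (L 0).toNat *
      (br ((t : ℂ) ^ 2) (univ.filter fun i => L i = - L 0).card * Jint t (inn L)) := by
  have h := hStep m t h0 h1 L hp (fun j => hb.trans (hL (Fin.le_last j)))
  rw [h]
  have e0 : (-(t : ℂ)) ^ (L 0) = (-(t : ℂ)) ^ (L 0).toNat := by
    rw [← zpow_natCast]
    congr 1
    omega
  rw [e0]
  congr 1
  -- all terms have the same integral
  have hJ : ∀ j ∈ univ.filter (fun j : Fin (m + 1) => L j.succ = - L 0),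
      ((t : ℂ) ^ 2) ^ (m - (j : ℕ)) * Jint t (fun i : Fin m => L (j.succAbove i).succ) =
        ((t : ℂ) ^ 2) ^ (m - (j : ℕ)) * Jint t (inn L) := by
    intro j hj
    rw [Finset.mem_filter] at hj
    have hge : ∀ k : Fin (m + 2), j.succ ≤ k → L k = - L 0 := by
      intro k hk
      refine le_antisymm ?_ (hb.trans (hL (Fin.le_last k)))
      rw [← hj.2]
      exact hL hk
    congr 2
    funext i
    show L (j.succAbove i).succ = L i.castSucc.succ
    by_cases hij : i.castSucc < j
    · rw [Fin.succAbove_of_castSucc_lt _ _ hij]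
    · rw [Fin.succAbove_of_le_castSucc _ _ (not_lt.1 hij)]
      rw [hge _ (Fin.succ_le_succ_iff.2 ((not_lt.1 hij).trans (by
        rw [Fin.le_iff_val_le_val]
        simp))), hge _ (Fin.succ_le_succ_iff.2 (not_lt.1 hij))]
  rw [Finset.sum_congr rfl hJ, ← Finset.sum_mul]
  congr 1
  -- the geometric sum
  have hup : ∀ j : Fin (m + 1), L j.succ = - L 0 ↔
      m + 1 - (univ.filter fun j : Fin (m + 1) => L j.succ = - L 0).card ≤ (j : ℕ) := by
    intro j
    refine upper (fun j : Fin (m + 1) => L j.succ = - L 0) (fun i j hij h => ?_) j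
    refine le_antisymm ?_ (hb.trans (hL (Fin.le_last _)))
    rw [← h]
    exact hL (Fin.succ_le_succ_iff.2 hij)
  have hcard : (univ.filter fun i => L i = - L 0).card =
      (univ.filter fun j : Fin (m + 1) => L j.succ = - L 0).card := by
    rw [Finset.card_filter, Finset.card_filter, Fin.sum_univ_succ, if_neg, zero_add]
    omega
  rw [hcard]
  set r := (univ.filter fun j : Fin (m + 1) => L j.succ = - L 0).card with hr
  have hrm : r ≤ m + 1 := by
    rw [hr]
    exact (Finset.card_filter_le _ _).trans (by simp)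
  rw [← sum_upper m r hrm, Finset.sum_filter]
  refine Finset.sum_congr rfl fun j _ => ?_
  by_cases h : L j.succ = - L 0
  · rw [if_pos h, if_pos ((hup j).1 h)]
  · rw [if_neg h, if_neg fun h' => h ((hup j).2 h')]

theorem main (hStep : SpecStep) (hJsym : SpecJsym) (hJ0 : SpecJ0) (n : ℕ) :
    ∀ L : Fin n → ℤ, Antitone L →
    vv n (-(t : ℂ)) * Jint t L =
      open Classical in
      if Sym L then (AA t n L : ℂ) * (-(t : ℂ)) ^ (len L) * vL L ((t : ℂ) ^ 2) else 0 := by
  classical
  induction n using Nat.strong_induction_on with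
  | _ n ih =>
    intro L hL
    match n, L, hL, ih with
    | 0, L, hL, ih =>
      have hs : Sym L := ⟨hL, fun i => i.elim0⟩
      rw [if_pos hs, J_zero]
      simp [vv, AA, len, vL]
    | 1, L, hL, ih =>
      rw [J_one]
      have hiff : Sym L ↔ L 0 = 0 := by
        constructor
        · rintro ⟨_, h⟩
          have := h 0
          rw [Subsingleton.elim (Fin.rev (0 : Fin 1)) 0] at this
          omega
        · intro h
          refine ⟨hL, fun i => ?_⟩
          rw [Subsingleton.elim (Fin.rev i) 0, Subsingleton.elim i 0, h]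
          rfl
      by_cases h : L 0 = 0
      · rw [if_pos h, if_pos (hiff.2 h)]
        have e : L = 0 := by
          funext i
          rw [Subsingleton.elim i 0, h]
          rfl
        subst e
        rw [vL_zero]
        simp [vv, AA, len]
      · rw [if_neg h, if_neg fun h' => h (hiff.1 h'), mul_zero]
    | m + 2, L, hL, ih =>
      have hsl : Sym L → L (Fin.last (m + 1)) = - L 0 := by
        rintro ⟨_, h⟩
        have := h 0
        rwa [Fin.rev_zero] at this
      by_cases hA : 1 ≤ L 0 ∧ - L 0 ≤ L (Fin.last (m + 1))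
      · obtain ⟨hp, hb⟩ := hA
        rw [step' h0 h1 hStep hL hp hb]
        by_cases hl : L (Fin.last (m + 1)) = - L 0
        · have hih := ih m (by omega) (inn L) (inn_anti hL)
          by_cases hs : Sym L
          · have hs' := (sym_iff hL hl).1 hs
            rw [if_pos hs'] at hih
            rw [if_pos hs]
            have ht1 : (1 : ℂ) - t ≠ 0 := by
              rw [sub_ne_zero]
              exact_mod_cast h1.ne'
            have ht2 : (1 : ℂ) + t ≠ 0 := by
              have : (0 : ℝ) < 1 + t := by linarith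
              exact_mod_cast this.ne'
            set r := (univ.filter fun i => L i = L 0).card with hr
            have hrr : (univ.filter fun i => L i = - L 0).card = r := card_rev hs.2 (L 0)
            have hr1 : 1 ≤ r := by
              rw [hr]
              exact Finset.card_pos.2 ⟨0, by simp⟩
            have hrt : (1 : ℂ) - (t : ℂ) ^ (2 * r) ≠ 0 := by
              rw [sub_ne_zero]
              have : t ^ (2 * r) < 1 := pow_lt_one₀ h0.le h1 (by omega)
              exact_mod_cast this.ne'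
            have hbr : br ((t : ℂ) ^ 2) r = (1 - (t : ℂ) ^ (2 * r)) / ((1 - t) * (1 + t)) := by
              rw [eq_div_iff (mul_ne_zero ht1 ht2)]
              have := br_mul ((t : ℂ) ^ 2) r
              rw [← pow_mul] at this
              rw [← this]
              ring
            have hbk : ∀ k : ℕ, br (-(t : ℂ)) k = (1 - (-(t : ℂ)) ^ k) / (1 + t) := by
              intro k
              rw [eq_div_iff ht2]
              have := br_mul (-(t : ℂ)) k
              rw [← this]
              ring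
            have hAA : (AA t (m + 2) L : ℂ) = (1 - (-(t : ℂ)) ^ (m + 2)) *
                (1 - (-(t : ℂ)) ^ (m + 1)) / (1 - (t : ℂ) ^ (2 * r)) * (AA t m (inn L) : ℂ) := by
              have h3 : AA t (m + 2) L = (1 - (-t) ^ (m + 2)) * (1 - (-t) ^ (m + 1)) /
                  (1 - t ^ (2 * r)) * AA t m (inn L) := by
                show (if L 0 = 0 then (1 : ℝ) else _) = _
                rw [if_neg (by omega)]
                rfl
              rw [h3]
              push_cast
              ring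
            rw [vL_split hL hp hl, len_split L hp hl, hl, hrr, ← hr, hAA, hbr, vv_succ, vv_succ,
              hbk, hbk, pow_add _ (L 0).toNat]
            have hih2 : Jint t (inn L) * vv m (-(t : ℂ)) = (AA t m (inn L) : ℂ) *
                (-(t : ℂ)) ^ len (inn L) * vL (inn L) ((t : ℂ) ^ 2) := by
              rw [mul_comm, hih]
            have e1 : vv m (-(t : ℂ)) * ((1 - (-(t : ℂ)) ^ (m + 1)) / (1 + t)) *
                ((1 - (-(t : ℂ)) ^ (m + 1 + 1)) / (1 + t)) *
                ((1 + (t : ℂ)) / (1 - t) * (-(t : ℂ)) ^ (L 0).toNat *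
                ((1 - (t : ℂ) ^ (2 * r)) / ((1 - t) * (1 + t)) * Jint t (inn L))) =
                ((1 - (-(t : ℂ)) ^ (m + 1)) / (1 + t)) *
                ((1 - (-(t : ℂ)) ^ (m + 1 + 1)) / (1 + t)) *
                ((1 + (t : ℂ)) / (1 - t) * (-(t : ℂ)) ^ (L 0).toNat *
                ((1 - (t : ℂ) ^ (2 * r)) / ((1 - t) * (1 + t)))) *
                (Jint t (inn L) * vv m (-(t : ℂ))) := by ring
            rw [e1, hih2]
            exact fin_alg _ _ _ _ _ _ _ _ _ hrt ht1 ht2
          · have hs' : ¬ Sym (inn L) := fun h => hs ((sym_iff hL hl).2 h)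
            rw [if_neg hs'] at hih
            rw [if_neg hs, vv_succ, vv_succ]
            have : vv m (-(t : ℂ)) * br (-(t : ℂ)) (m + 1) * br (-(t : ℂ)) (m + 1 + 1) *
                ((1 + (t : ℂ)) / (1 - (t : ℂ)) * (-(t : ℂ)) ^ (L 0).toNat *
                  (br ((t : ℂ) ^ 2) (univ.filter fun i => L i = - L 0).card * Jint t (inn L))) =
                (vv m (-(t : ℂ)) * Jint t (inn L)) * (br (-(t : ℂ)) (m + 1) *
                br (-(t : ℂ)) (m + 1 + 1) *
                ((1 + (t : ℂ)) / (1 - (t : ℂ)) * (-(t : ℂ)) ^ (L 0).toNat *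
                  br ((t : ℂ) ^ 2) (univ.filter fun i => L i = - L 0).card)) := by ring
            rw [this, hih, zero_mul]
        · have hemp : (univ.filter fun i => L i = - L 0) = ∅ := by
            rw [Finset.filter_eq_empty_iff]
            intro i _ h
            apply hl
            refine le_antisymm ?_ hb
            rw [← h]
            exact hL (Fin.le_last i)
          rw [if_neg fun h => hl (hsl h), hemp]
          simp [br]
      · by_cases hB : L (Fin.last (m + 1)) < - L 0
        · rw [if_neg fun h => (hsl h ▸ hB).ne rfl, ← hJsym (m + 2) t L]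
          set L' : Fin (m + 2) → ℤ := fun i => - L (Fin.rev i) with hL'
          have hanti : Antitone L' := by
            intro i j hij
            simp only [hL']
            exact neg_le_neg (hL (Fin.rev_le_rev.2 hij))
          have e0 : L' 0 = - L (Fin.last (m + 1)) := by
            simp only [hL', Fin.rev_zero]
          have el : L' (Fin.last (m + 1)) = - L 0 := by
            simp only [hL', Fin.rev_last]
          have hle : L (Fin.last (m + 1)) ≤ L 0 := hL (Fin.le_last 0)
          rw [step' h0 h1 hStep hanti (by rw [e0]; omega) (by rw [e0, el]; omega)]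
          have hemp : (univ.filter fun i => L' i = - L' 0) = ∅ := by
            rw [Finset.filter_eq_empty_iff]
            intro i _ h
            have := hanti (Fin.le_last i)
            rw [h, el, e0] at this
            omega
          rw [hemp]
          simp [br]
        · have hle : L (Fin.last (m + 1)) ≤ L 0 := hL (Fin.le_last 0)
          have h00 : L 0 = 0 := by
            by_contra h
            apply hA
            constructor <;> omega
          have hz : L = 0 := by
            funext i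
            have a1 := hL (Fin.zero_le i)
            have a2 := hL (Fin.le_last i)
            show L i = 0
            omega
          subst hz
          have hs : Sym (0 : Fin (m + 2) → ℤ) := ⟨hL, fun i => by simp⟩
          rw [if_pos hs, hJ0 (m + 2) t h0 h1, vL_zero]
          have : AA t (m + 2) (0 : Fin (m + 2) → ℤ) = 1 := by
            show (if (0 : Fin (m + 2) → ℤ) 0 = 0 then (1 : ℝ) else _) = 1
            exact if_pos rfl
          rw [this]
          simp [len]

end main

end JvalM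

theorem specJval (hStep : SpecStep) (hJsym : SpecJsym) (hJ0 : SpecJ0) : SpecJval := by
  intro n t h0 h1 L hL
  exact JvalM.main h0 h1 hStep hJsym hJ0 n L hL

end MPtg
end
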