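import Pool.Agent.Lib.MP_3d2757_nt.Defs

/-!
# MP_3d2757_nt : definitions used only in the final statement, and the final statement
-/

open MeasureTheory Finset

namespace MPtg

section
variable {F E : Type} [NontriviallyNormedField F] [NormedField E] [NormedAlgebra F E]

/-- skew-Hermitian form with Gram matrix `J` on `E^n`: `h(v,w) = ∑ v_i J_ij σ(w_j)` -/
def hJ (σ : E ≃ₐ[F] E) {n : ℕ} (J : Matrix (Fin n) (Fin n) E) (v w : Fin n → E) : E :=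
  ∑ i, ∑ j, v i * J i j * σ (w j)

/-- the unitary group of `J`: matrices `g` with `gᵀ J σ(g) = J` -/
def UJ (σ : E ≃ₐ[F] E) {n : ℕ} (J : Matrix (Fin n) (Fin n) E) : Subgroup (GL (Fin n) E) where
  carrier := {g | (g : Matrix (Fin n) (Fin n) E).transpose * J *
    (g : Matrix (Fin n) (Fin n) E).map σ = J}
  mul_mem' := by
    intro a b ha hb
    change (a : Matrix (Fin n) (Fin n) E).transpose * J *
      (a : Matrix (Fin n) (Fin n) E).map σ = J at ha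
    change (b : Matrix (Fin n) (Fin n) E).transpose * J *
      (b : Matrix (Fin n) (Fin n) E).map σ = J at hb
    change ((a * b : GL (Fin n) E) : Matrix (Fin n) (Fin n) E).transpose * J *
      ((a * b : GL (Fin n) E) : Matrix (Fin n) (Fin n) E).map σ = J
    have : ((a : Matrix (Fin n) (Fin n) E) * (b : Matrix (Fin n) (Fin n) E)).map σ =
        (a : Matrix (Fin n) (Fin n) E).map σ * (b : Matrix (Fin n) (Fin n) E).map σ :=
      Matrix.map_mul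
    rw [Units.val_mul, Matrix.transpose_mul, this]
    calc _ = (b : Matrix (Fin n) (Fin n) E).transpose *
          ((a : Matrix (Fin n) (Fin n) E).transpose * J * (a : Matrix (Fin n) (Fin n) E).map σ) *
          (b : Matrix (Fin n) (Fin n) E).map σ := by simp only [Matrix.mul_assoc]
      _ = _ := by rw [ha, hb]
  one_mem' := by
    change ((1 : GL (Fin n) E) : Matrix (Fin n) (Fin n) E).transpose * J *
      ((1 : GL (Fin n) E) : Matrix (Fin n) (Fin n) E).map σ = J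
    simp
  inv_mem' := by
    intro a ha
    change (a : Matrix (Fin n) (Fin n) E).transpose * J *
      (a : Matrix (Fin n) (Fin n) E).map σ = J at ha
    change ((a⁻¹ : GL (Fin n) E) : Matrix (Fin n) (Fin n) E).transpose * J *
      ((a⁻¹ : GL (Fin n) E) : Matrix (Fin n) (Fin n) E).map σ = J
    have h1 : (a : Matrix (Fin n) (Fin n) E) *
        ((a⁻¹ : GL (Fin n) E) : Matrix (Fin n) (Fin n) E) = 1 := by
      rw [← Units.val_mul]; simp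
    have h2 : (a : Matrix (Fin n) (Fin n) E).map σ *
        (((a⁻¹ : GL (Fin n) E) : Matrix (Fin n) (Fin n) E)).map σ = 1 := by
      rw [← Matrix.map_mul, h1]; simp
    have h3 : ((a⁻¹ : GL (Fin n) E) : Matrix (Fin n) (Fin n) E).transpose *
        (a : Matrix (Fin n) (Fin n) E).transpose = 1 := by
      rw [← Matrix.transpose_mul, h1]; simp
    calc _ = ((a⁻¹ : GL (Fin n) E) : Matrix (Fin n) (Fin n) E).transpose *
          ((a : Matrix (Fin n) (Fin n) E).transpose * J * (a : Matrix (Fin n) (Fin n) E).map σ) *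
          (((a⁻¹ : GL (Fin n) E) : Matrix (Fin n) (Fin n) E)).map σ := by rw [ha]
      _ = (((a⁻¹ : GL (Fin n) E) : Matrix (Fin n) (Fin n) E).transpose *
          (a : Matrix (Fin n) (Fin n) E).transpose) * J *
          ((a : Matrix (Fin n) (Fin n) E).map σ *
          (((a⁻¹ : GL (Fin n) E) : Matrix (Fin n) (Fin n) E)).map σ) := by
            simp only [Matrix.mul_assoc]
      _ = J := by rw [h3, h2]; simp
end

/-- `ζ_E(k) = (1 - q_E^{-k})⁻¹`, `q_E = q²` -/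
noncomputable def zetaE (q : ℕ) (k : ℕ) : ℂ := (1 - (((q : ℂ) ^ 2)⁻¹) ^ k)⁻¹

/-- `L(k, ω^k) = (1 - ω(ϖ)^k q^{-k})⁻¹` with `ω = ω_{E/F}`, `ω(ϖ) = -1` -/
noncomputable def Lom (q : ℕ) (k : ℕ) : ℂ := (1 - (-1) ^ k * ((q : ℂ)⁻¹) ^ k)⁻¹

/-- `L(1/2, Π × ^σΠ^∨ × μ⁻¹)` for unramified data: `∏_{i,j} (1 - μ(ϖ)⁻¹ x_i x_j⁻¹ q_E^{-1/2})⁻¹`,
`q_E^{-1/2} = q⁻¹`, `m = μ(ϖ)` -/
noncomputable def LRS (q : ℕ) {n : ℕ} (m : ℂ) (x : Fin n → ℂ) : ℂ :=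
  ∏ i, ∏ j, (1 - m⁻¹ * (x i * (x j)⁻¹) * (q : ℂ)⁻¹)⁻¹

/-- `L(1, Π, Ad) = ∏_{i,j} (1 - x_i x_j⁻¹ q_E⁻¹)⁻¹` -/
noncomputable def LAd (q : ℕ) {n : ℕ} (x : Fin n → ℂ) : ℂ :=
  ∏ i, ∏ j, (1 - (x i * (x j)⁻¹) * ((q : ℂ) ^ 2)⁻¹)⁻¹

/-- the final statement -/
def Final : Prop :=
  ∀ (F : Type) [NontriviallyNormedField F] [IsUltrametricDist F] [LocallyCompactSpace F]
    (_ : ‖(2 : F)‖ = 1)
    (ϖ : Fˣ) (_ : ‖(ϖ : F)‖ < 1 ∧ ∀ x : F, ‖x‖ < 1 → ‖x‖ ≤ ‖(ϖ : F)‖)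
    (ψ : AddChar F Circle) (_ : ∀ x, ‖x‖ ≤ 1 → ψ x = 1) (_ : ∃ x, ‖x‖ ≤ ‖(ϖ : F)‖⁻¹ ∧ ψ x ≠ 1)
    (E : Type) [NormedField E] [NormedAlgebra F E] (_ : Module.finrank F E = 2)
    (_ : ∀ x : E, ∃ y : F, ‖y‖ = ‖x‖)
    (σ : E ≃ₐ[F] E) (_ : σ ≠ AlgEquiv.refl)
    (χ : Eˣ →* ℂˣ) (_ : ∀ x : Eˣ, ‖(x : E)‖ = 1 → χ x = 1)
    (_ : ∀ y : Fˣ, (∃ z : E, z * σ z = algebraMap F E y) → χ (Units.map (algebraMap F E) y) = 1)
    (_ : ∀ y : Fˣ, (¬ ∃ z : E, z * σ z = algebraMap F E y) →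
      χ (Units.map (algebraMap F E) y) = -1)
    (n : ℕ) (J : Matrix (Fin n) (Fin n) E) (_ : ∀ i j, ‖J i j‖ ≤ 1) (_ : ‖J.det‖ = 1)
    (_ : ∀ i j, σ (J i j) = - J j i)
    [MeasurableSpace (GL (Fin n) E)] [BorelSpace (GL (Fin n) E)]
    (ν : Measure (GL (Fin n) E)) [ν.IsHaarMeasure] (_ : ν (KS E n) = 1)
    (μ : Measure ↥(UJ σ J)) [μ.IsHaarMeasure] (_ : μ {g | (g : GL (Fin n) E) ∈ KS E n} = 1)
    (H : Type) [NormedAddCommGroup H] [InnerProductSpace ℂ H] [CompleteSpace H]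
    (π : GL (Fin n) E →* (H ≃ₗᵢ[ℂ] H)) (_ : ∀ v, Continuous fun g => π g v)
    (_ : ∀ W : Submodule ℂ H, IsClosed (W : Set H) → (∀ g, ∀ v ∈ W, π g v ∈ W) → W = ⊥ ∨ W = ⊤)
    (f : H) (_ : ‖f‖ = 1) (_ : ∀ g ∈ KS E n, π g f = f)
    (S : Type) [NormedAddCommGroup S] [InnerProductSpace ℂ S] [CompleteSpace S]
    (ρ : (Fin n → E) → (S ≃ₗᵢ[ℂ] S))
    (_ : ∀ v w s, ρ v (ρ w s) = (ψ (Algebra.trace F E (hJ σ J v w) / 2) : ℂ) • ρ (v + w) s)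
    (_ : ∀ s, Continuous fun v => ρ v s)
    (_ : ∀ W : Submodule ℂ S, IsClosed (W : Set S) → (∀ v, ∀ s ∈ W, ρ v s ∈ W) → W = ⊥ ∨ W = ⊤)
    (ω : ↥(UJ σ J) →* (S ≃ₗᵢ[ℂ] S))
    (_ : ∀ (g : ↥(UJ σ J)) v s, ω g (ρ v s) =
      ρ (((g : GL (Fin n) E) : Matrix (Fin n) (Fin n) E).mulVec v) (ω g s))
    (φ : S) (_ : ‖φ‖ = 1) (_ : ∀ g : ↥(UJ σ J), (g : GL (Fin n) E) ∈ KS E n → ω g φ = φ),
    (∃ x : Fin n → ℂ, (∀ i, x i ≠ 0) ∧
      IsSatake (Units.map (algebraMap F E) ϖ) (resCard F) π ν f x) ∧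
    ∀ x : Fin n → ℂ, (∀ i, x i ≠ 0) →
      IsSatake (Units.map (algebraMap F E) ϖ) (resCard F) π ν f x →
      (Integrable (fun g : ↥(UJ σ J) =>
          inner ℂ f (π (g : GL (Fin n) E) f) * (starRingEnd ℂ) (inner ℂ φ (ω g φ))) μ ↔
        ∀ i j, ‖x i‖ < resCard F * ‖x j‖) ∧
      (Integrable (fun g : ↥(UJ σ J) =>
          inner ℂ f (π (g : GL (Fin n) E) f) * (starRingEnd ℂ) (inner ℂ φ (ω g φ))) μ →
        ∫ g : ↥(UJ σ J), inner ℂ f (π (g : GL (Fin n) E) f) *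
            (starRingEnd ℂ) (inner ℂ φ (ω g φ)) ∂μ =
          ((∏ k ∈ Icc 1 n, zetaE (resCard F) k) / ∏ k ∈ Icc 1 n, Lom (resCard F) k) *
            (LRS (resCard F) (χ (Units.map (algebraMap F E) ϖ) : ℂ) x / LAd (resCard F) x))

end MPtg
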