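import Pool.Agent.Lib.MP_3d2757_nt.Spec
import Pool.Agent.Lib.MP_3d2757_nt.FinalDefs

section
/-! # MP_3d2757_nt : final algebra -/
open Finset MeasureTheory

namespace MPtg.AsmM

theorem vv_mul (n : ℕ) (u : ℂ) : vv n u * (1 - u) ^ n = ∏ k ∈ range n, (1 - u ^ (k + 1)) := by
  unfold vv
  have : (1 - u) ^ n = ∏ _k ∈ range n, (1 - u) := by simp
  rw [this, ← Finset.prod_mul_distrib]
  refine Finset.prod_congr rfl fun k _ => ?_
  have := geom_sum_mul u (k + 1)
  linear_combination -this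

theorem prod_Icc_eq (n : ℕ) (g : ℕ → ℂ) : ∏ k ∈ Icc 1 n, g k = ∏ k ∈ range n, g (k + 1) := by
  rw [← Finset.Ico_succ_right_eq_Icc, Finset.prod_Ico_eq_prod_range]
  simp [add_comm]

theorem one_sub_ne {z : ℂ} (h : ‖z‖ < 1) : 1 - z ≠ 0 := by
  intro h0
  have : z = 1 := by linear_combination -h0
  rw [this] at h
  simp at h

theorem one_add_ne {z : ℂ} (h : ‖z‖ < 1) : 1 + z ≠ 0 := by
  have := one_sub_ne (z := -z) (by simpa using h)
  simpa using this

theorem final_alg (n q : ℕ) (hq : 2 ≤ q) (x : Fin n → ℂ) (hx : ∀ i, x i ≠ 0)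
    (hr : ∀ i j, ‖x i‖ < q * ‖x j‖) :
    vv n (-((((q : ℝ)⁻¹ : ℝ)) : ℂ)) / vv n ((((q : ℝ)⁻¹) ^ 2 : ℝ) : ℂ) * GG ((q : ℝ)⁻¹) x =
      ((∏ k ∈ Icc 1 n, zetaE q k) / ∏ k ∈ Icc 1 n, Lom q k) *
            (LRS q (-1) x / LAd q x) := by
  have hq0 : (q : ℝ) ≠ 0 := by positivity
  set t : ℂ := (((q : ℝ)⁻¹ : ℝ) : ℂ) with ht
  have htq : ((q : ℂ))⁻¹ = t := by rw [ht]; push_cast; rfl
  have ht2 : ((((q : ℝ)⁻¹) ^ 2 : ℝ) : ℂ) = t ^ 2 := by rw [ht]; push_cast; rfl
  have htn : ‖t‖ < 1 := by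
    rw [ht, Complex.norm_real, Real.norm_of_nonneg (by positivity)]
    apply inv_lt_one_of_one_lt₀
    exact_mod_cast hq
  have htn' : ‖t‖ = (q : ℝ)⁻¹ := by
    rw [ht, Complex.norm_real, Real.norm_of_nonneg (by positivity)]
  have h1 : 1 - t ^ 2 ≠ 0 := one_sub_ne (by rw [norm_pow]; exact pow_lt_one₀ (norm_nonneg _) htn (by norm_num))
  have h2 : 1 + t ≠ 0 := one_add_ne htn
  have h3 : ∀ k : ℕ, 1 - (t ^ 2) ^ (k + 1) ≠ 0 := fun k => one_sub_ne (by
    rw [norm_pow, norm_pow, ← pow_mul]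
    exact pow_lt_one₀ (norm_nonneg _) htn (by positivity))
  have h4 : ∀ k : ℕ, 1 - (-t) ^ (k + 1) ≠ 0 := fun k => one_sub_ne (by
    rw [norm_pow, norm_neg]
    exact pow_lt_one₀ (norm_nonneg _) htn (by positivity))
  have hv1 := vv_mul n (-t)
  have hv2 := vv_mul n (t ^ 2)
  have hxx : ∀ i j, ‖t * (x i / x j)‖ < 1 := by
    intro i j
    rw [norm_mul, norm_div, htn']
    have hj : 0 < ‖x j‖ := norm_pos_iff.2 (hx j)
    rw [← mul_div_assoc, div_lt_one hj, inv_mul_lt_iff₀ (by positivity)]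
    exact hr i j
  have hA : ∀ i j, 1 + t * (x i / x j) ≠ 0 := fun i j => one_add_ne (hxx i j)
  have hB : ∀ i j, 1 - t ^ 2 * (x i / x j) ≠ 0 := fun i j => one_sub_ne (by
    have : t ^ 2 * (x i / x j) = t * (t * (x i / x j)) := by ring
    rw [this, norm_mul]
    exact mul_lt_one_of_nonneg_of_lt_one_left (norm_nonneg _) htn (hxx i j).le)
  have hL : LRS q (-1) x / LAd q x =
      ((1 - t ^ 2) / (1 + t)) ^ n * GG ((q : ℝ)⁻¹) x := by
    unfold LRS LAd GG
    rw [htq, ← ht]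
    have e1 : ((q : ℂ) ^ 2)⁻¹ = t ^ 2 := by rw [← inv_pow, htq]
    rw [e1, ← Finset.prod_div_distrib]
    have e2 : ((1 - t ^ 2) / (1 + t)) ^ n = ∏ _i : Fin n, ((1 - t ^ 2) / (1 + t)) := by
      rw [Finset.prod_const, Finset.card_univ, Fintype.card_fin]
    rw [e2, ← Finset.prod_mul_distrib]
    refine Finset.prod_congr rfl fun i _ => ?_
    rw [← Finset.prod_div_distrib, ← Finset.mul_prod_erase univ _ (Finset.mem_univ i)]
    congr 1
    · have := hx i
      rw [mul_inv_cancel₀ this, div_inv_eq_mul, mul_comm, ← div_eq_mul_inv, mul_one, one_mul]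
      have e0 : (1 - (-1 : ℂ)⁻¹ * t) = 1 + t := by norm_num
      rw [e0]
    · refine Finset.prod_congr rfl fun j _ => ?_
      have e3 : (1 - (-1 : ℂ)⁻¹ * (x i * (x j)⁻¹) * t) = 1 + t * (x i / x j) := by
        rw [div_eq_mul_inv]; norm_num; ring
      have e4 : (1 - x i * (x j)⁻¹ * t ^ 2) = 1 - t ^ 2 * (x i / x j) := by
        rw [div_eq_mul_inv]; ring
      rw [e3, e4, div_inv_eq_mul, mul_comm, ← div_eq_mul_inv]
  rw [hL, prod_Icc_eq, prod_Icc_eq, ht2]
  have hz : ∏ k ∈ range n, zetaE q (k + 1) = (∏ k ∈ range n, (1 - (t ^ 2) ^ (k + 1)))⁻¹ := by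
    rw [← Finset.prod_inv_distrib]
    refine Finset.prod_congr rfl fun k _ => ?_
    unfold zetaE
    rw [← inv_pow, htq]
  have hl : ∏ k ∈ range n, Lom q (k + 1) = (∏ k ∈ range n, (1 - (-t) ^ (k + 1)))⁻¹ := by
    rw [← Finset.prod_inv_distrib]
    refine Finset.prod_congr rfl fun k _ => ?_
    unfold Lom
    rw [htq, ← mul_pow]
    norm_num
  rw [hz, hl, ← hv1, ← hv2]
  have hn1 : vv n (t ^ 2) ≠ 0 := by
    intro h0
    rw [h0, zero_mul] at hv2
    exact (Finset.prod_ne_zero_iff.2 fun k _ => h3 k) hv2.symm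
  have hn2 : (1 - t ^ 2) ^ n ≠ 0 := pow_ne_zero _ h1
  have hn3 : (1 + t) ^ n ≠ 0 := pow_ne_zero _ h2
  rw [div_pow]
  have e5 : (1 - -t) = 1 + t := by ring
  rw [e5]
  field_simp

end MPtg.AsmM
end

section
/-! # MP_3d2757_nt : the standard lattice, matrices and isometries -/
open Finset MeasureTheory

namespace MPtg.AsmM

variable {E : Type} [NormedField E]

/-- the standard basis -/
def st (E : Type) [NormedField E] (n : ℕ) : Fin n → (Fin n → E) := fun i => Pi.single i 1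

/-- the standard lattice -/
def ML (U : Unr E) (n : ℕ) : AddSubgroup (Fin n → E) := box U (st E n) 0

theorem sum_st {n : ℕ} (c : Fin n → E) : ∑ i, c i • st E n i = c := by
  funext j
  simp [st, Finset.sum_apply, Pi.single_apply]

theorem mem_ML (U : Unr E) {n : ℕ} (v : Fin n → E) : v ∈ ML U n ↔ ∀ i, ‖v i‖ ≤ 1 := by
  constructor
  · rintro ⟨c, hc, rfl⟩
    rw [sum_st]
    simpa using hc
  · intro h
    exact ⟨v, by simpa using h, (sum_st v).symm⟩

theorem li_st (n : ℕ) : LinearIndependent E (st E n) := by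
  rw [Fintype.linearIndependent_iff]
  intro g hg i
  rw [sum_st] at hg
  simp [hg]

/-- `GL_n(E)` acting on `E^n` -/
noncomputable def eGL (E : Type) [NormedField E] (n : ℕ) :
    GL (Fin n) E ≃* ((Fin n → E) ≃ₗ[E] (Fin n → E)) :=
  Matrix.GeneralLinearGroup.toLin.trans (LinearMap.GeneralLinearGroup.generalLinearEquiv _ _)

theorem eGL_apply {n : ℕ} (g : GL (Fin n) E) (v : Fin n → E) :
    eGL E n g v = (g : Matrix (Fin n) (Fin n) E).mulVec v := rfl

theorem mulVec_st {n : ℕ} (g : Matrix (Fin n) (Fin n) E) (j : Fin n) :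
    g.mulVec (st E n j) = fun i => g i j := by
  funext i
  simp [st]

/-- boxes under linear equivalences -/
theorem map_box (U : Unr E) {V : Type} [AddCommGroup V] [Module E V] {k : ℕ} (b : Fin k → V)
    (L : Fin k → ℤ) (g : V ≃ₗ[E] V) (v : V) :
    g v ∈ box U (fun i => g (b i)) L ↔ v ∈ box U b L := by
  constructor
  · rintro ⟨c, hc, h⟩
    refine ⟨c, hc, g.injective ?_⟩
    rw [h, map_sum]
    simp
  · rintro ⟨c, hc, rfl⟩
    refine ⟨c, hc, ?_⟩
    rw [map_sum]
    simp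

theorem norm_sum_le_of (U : Unr E) {ι : Type} (s : Finset ι) (f : ι → E) (C : ℝ) (hC : 0 ≤ C)
    (h : ∀ i ∈ s, ‖f i‖ ≤ C) : ‖∑ i ∈ s, f i‖ ≤ C := by
  classical
  induction s using Finset.induction_on with
  | empty => simpa using hC
  | insert a s ha ih =>
    rw [Finset.sum_insert ha]
    exact (U.ultra _ _).trans (max_le (h a (by simp)) (ih fun i hi => h i (by simp [hi])))

/-- matrices in `KS` are the stabiliser of the standard lattice -/
theorem mem_KS_iff (U : Unr E) {n : ℕ} (g : GL (Fin n) E) :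
    g ∈ KS E n ↔ ∀ v, v ∈ ML U n ↔ (g : Matrix (Fin n) (Fin n) E).mulVec v ∈ ML U n := by
  have key : ∀ A : Matrix (Fin n) (Fin n) E, (∀ i j, ‖A i j‖ ≤ 1) → ∀ v ∈ ML U n,
      A.mulVec v ∈ ML U n := by
    intro A hA v hv
    rw [mem_ML] at hv ⊢
    intro i
    rw [Matrix.mulVec, dotProduct]
    refine norm_sum_le_of U _ _ 1 zero_le_one fun j _ => ?_
    rw [norm_mul]
    exact mul_le_one₀ (hA i j) (norm_nonneg _) (hv j)
  have hst : ∀ j, st E n j ∈ ML U n := by
    intro j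
    rw [mem_ML]
    intro i
    unfold st
    by_cases h : i = j
    · subst h; simp
    · simp [h]
  have hinv : ∀ v, ((g⁻¹ : GL (Fin n) E) : Matrix (Fin n) (Fin n) E).mulVec
      ((g : Matrix (Fin n) (Fin n) E).mulVec v) = v := by
    intro v
    rw [Matrix.mulVec_mulVec, ← Units.val_mul]
    simp
  have hinv' : ∀ v, (g : Matrix (Fin n) (Fin n) E).mulVec
      (((g⁻¹ : GL (Fin n) E) : Matrix (Fin n) (Fin n) E).mulVec v) = v := by
    intro v
    rw [Matrix.mulVec_mulVec, ← Units.val_mul]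
    simp
  constructor
  · rintro ⟨h1, h2⟩ v
    refine ⟨key _ h1 v, fun h => ?_⟩
    have := key _ h2 _ h
    rwa [hinv] at this
  · intro h
    refine ⟨fun i j => ?_, fun i j => ?_⟩
    · have := (h (st E n j)).1 (hst j)
      rw [mem_ML] at this
      have h' := this i
      rwa [mulVec_st] at h'
    · have h2 : ((g⁻¹ : GL (Fin n) E) : Matrix (Fin n) (Fin n) E).mulVec (st E n j) ∈ ML U n := by
        rw [h, hinv']
        exact hst j
      rw [mem_ML] at h2
      have h' := h2 i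
      rwa [mulVec_st] at h'

theorem KS_mul (U : Unr E) {n : ℕ} {g h : GL (Fin n) E} (hg : g ∈ KS E n) (hh : h ∈ KS E n) :
    g * h ∈ KS E n := by
  rw [mem_KS_iff U] at *
  intro v
  rw [Units.val_mul, ← Matrix.mulVec_mulVec, ← hg, ← hh]

theorem KS_inv {n : ℕ} {g : GL (Fin n) E} (hg : g ∈ KS E n) : g⁻¹ ∈ KS E n :=
  ⟨hg.2, by simpa using hg.1⟩

theorem KS_one {n : ℕ} : (1 : GL (Fin n) E) ∈ KS E n := by
  have : ∀ i j : Fin n, ‖((1 : Matrix (Fin n) (Fin n) E)) i j‖ ≤ 1 := by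
    intro i j
    by_cases hij : i = j
    · subst hij; simp
    · rw [Matrix.one_apply_ne hij]; simp
  exact ⟨fun i j => by simpa using this i j, fun i j => by simpa using this i j⟩

/-- `KS` is open -/
theorem KS_open (U : Unr E) (n : ℕ) : IsOpen (KS E n) := by
  have hball : IsOpen {x : E | ‖x‖ ≤ 1} := by
    rw [Metric.isOpen_iff]
    intro x hx
    refine ⟨1, one_pos, fun y hy => ?_⟩
    have : y = x + (y - x) := by ring
    change ‖y‖ ≤ 1
    rw [this]
    refine (U.ultra _ _).trans (max_le hx ?_)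
    rw [Metric.mem_ball, dist_eq_norm] at hy
    exact hy.le
  have h1 : ∀ i j : Fin n, Continuous fun g : GL (Fin n) E =>
      (g : Matrix (Fin n) (Fin n) E) i j := by
    intro i j
    exact Units.continuous_val.matrix_elem i j
  have h2 : ∀ i j : Fin n, Continuous fun g : GL (Fin n) E =>
      ((g⁻¹ : GL (Fin n) E) : Matrix (Fin n) (Fin n) E) i j := by
    intro i j
    exact (h1 i j).comp continuous_inv
  have : KS E n = (⋂ i, ⋂ j, {g : GL (Fin n) E | ‖(g : Matrix (Fin n) (Fin n) E) i j‖ ≤ 1}) ∩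
      ⋂ i, ⋂ j, {g : GL (Fin n) E | ‖((g⁻¹ : GL (Fin n) E) : Matrix (Fin n) (Fin n) E) i j‖ ≤ 1} := by
    ext g
    simp [KS]
  rw [this]
  refine IsOpen.inter ?_ ?_
  · exact isOpen_iInter_of_finite fun i => isOpen_iInter_of_finite fun j =>
      hball.preimage (h1 i j)
  · exact isOpen_iInter_of_finite fun i => isOpen_iInter_of_finite fun j =>
      hball.preimage (h2 i j)

end MPtg.AsmM
end

section
/-! # MP_3d2757_nt : the form of `J`, the Weil data -/
open Finset MeasureTheory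

namespace MPtg.AsmM

variable {F E : Type} [NontriviallyNormedField F] [NormedField E] [NormedAlgebra F E]

theorem hJ_eq (σ : E ≃ₐ[F] E) {n : ℕ} (J : Matrix (Fin n) (Fin n) E) (v w : Fin n → E) :
    hJ σ J v w = v ⬝ᵥ J.mulVec (fun j => σ (w j)) := by
  unfold hJ
  simp only [dotProduct, Matrix.mulVec, Finset.mul_sum]
  refine Finset.sum_congr rfl fun i _ => Finset.sum_congr rfl fun j _ => by ring

theorem hJ_st (σ : E ≃ₐ[F] E) {n : ℕ} (J : Matrix (Fin n) (Fin n) E) (i j : Fin n) :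
    hJ σ J (st E n i) (st E n j) = J i j := by
  unfold hJ st
  rw [Finset.sum_eq_single i, Finset.sum_eq_single j]
  · simp
  · intro b _ hb
    simp [hb]
  · simp
  · intro b _ hb
    simp [hb]
  · simp

/-- the skew-Hermitian form of `J` -/
def skJ (U : Unr E) (σ : E ≃ₐ[F] E) (hσ : ∀ x, U.σ x = σ x) {n : ℕ}
    (J : Matrix (Fin n) (Fin n) E) (hJs : ∀ i j, σ (J i j) = - J j i) : SkF U (Fin n → E) where
  h := hJ σ J
  add := by
    intro a b c
    unfold hJ
    simp only [Pi.add_apply, add_mul, Finset.sum_add_distrib]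
  smul := by
    intro x a b
    unfold hJ
    simp only [Pi.smul_apply, smul_eq_mul, Finset.mul_sum, mul_assoc]
  skew := by
    intro a b
    have hσσ : ∀ x, σ (σ x) = x := by
      intro x
      rw [← hσ, ← hσ, U.σσ]
    rw [hσ]
    unfold hJ
    simp only [map_sum, map_mul, hJs, hσσ]
    rw [Finset.sum_comm, ← Finset.sum_neg_distrib]
    refine Finset.sum_congr rfl fun i _ => ?_
    rw [← Finset.sum_neg_distrib]
    refine Finset.sum_congr rfl fun j _ => by ring

theorem mem_UJ_iff (σ : E ≃ₐ[F] E) {n : ℕ} (J : Matrix (Fin n) (Fin n) E) (g : GL (Fin n) E) :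
    g ∈ UJ σ J ↔ ∀ v w, hJ σ J ((g : Matrix (Fin n) (Fin n) E).mulVec v)
      ((g : Matrix (Fin n) (Fin n) E).mulVec w) = hJ σ J v w := by
  have key : ∀ v w : Fin n → E, hJ σ J ((g : Matrix (Fin n) (Fin n) E).mulVec v)
      ((g : Matrix (Fin n) (Fin n) E).mulVec w) =
      hJ σ ((g : Matrix (Fin n) (Fin n) E).transpose * J *
        (g : Matrix (Fin n) (Fin n) E).map σ) v w := by
    intro v w
    rw [hJ_eq, hJ_eq]
    have h1 : (fun j => σ ((g : Matrix (Fin n) (Fin n) E).mulVec w j)) =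
        ((g : Matrix (Fin n) (Fin n) E).map σ).mulVec (fun j => σ (w j)) := by
      funext i
      simp [Matrix.mulVec, dotProduct, map_sum, map_mul]
    rw [h1, ← Matrix.mulVec_mulVec, ← Matrix.mulVec_mulVec, Matrix.dotProduct_mulVec,
      Matrix.dotProduct_mulVec v, Matrix.vecMul_transpose]
    rw [← Matrix.dotProduct_mulVec]
  constructor
  · intro h v w
    rw [key]
    change (g : Matrix (Fin n) (Fin n) E).transpose * J *
      (g : Matrix (Fin n) (Fin n) E).map σ = J at h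
    rw [h]
  · intro h
    change (g : Matrix (Fin n) (Fin n) E).transpose * J *
      (g : Matrix (Fin n) (Fin n) E).map σ = J
    ext i j
    have e := h (st E n i) (st E n j)
    rw [key, hJ_st, hJ_st] at e
    exact e

/-- an element of `U(J)` as an isometry -/
theorem mem_Iso_iff (U : Unr E) (σ : E ≃ₐ[F] E) (hσ : ∀ x, U.σ x = σ x) {n : ℕ}
    (J : Matrix (Fin n) (Fin n) E) (hJs : ∀ i j, σ (J i j) = - J j i) (g : GL (Fin n) E) :
    g ∈ UJ σ J ↔ eGL E n g ∈ Iso U (skJ U σ hσ J hJs) := by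
  rw [mem_UJ_iff]
  rfl

/-- isometries as elements of `U(J)` -/
noncomputable def isoHom (U : Unr E) (σ : E ≃ₐ[F] E) (hσ : ∀ x, U.σ x = σ x) {n : ℕ}
    (J : Matrix (Fin n) (Fin n) E) (hJs : ∀ i j, σ (J i j) = - J j i) :
    ↥(Iso U (skJ U σ hσ J hJs)) →* ↥(UJ σ J) where
  toFun g := ⟨(eGL E n).symm g, by
    rw [mem_Iso_iff U σ hσ J hJs, MulEquiv.apply_symm_apply]
    exact g.2⟩
  map_one' := by
    apply Subtype.ext
    simp
  map_mul' a b := by
    apply Subtype.ext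
    simp

theorem isoHom_apply (U : Unr E) (σ : E ≃ₐ[F] E) (hσ : ∀ x, U.σ x = σ x) {n : ℕ}
    (J : Matrix (Fin n) (Fin n) E) (hJs : ∀ i j, σ (J i j) = - J j i)
    (g : ↥(Iso U (skJ U σ hσ J hJs))) (v : Fin n → E) :
    (((isoHom U σ hσ J hJs g : ↥(UJ σ J)) : GL (Fin n) E) : Matrix (Fin n) (Fin n) E).mulVec v =
      (g : (Fin n → E) ≃ₗ[E] (Fin n → E)) v := by
  rw [← eGL_apply]
  change eGL E n ((eGL E n).symm g) v = _
  rw [MulEquiv.apply_symm_apply]

/-- elements of `U(J)` as isometries -/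
noncomputable def toIso (U : Unr E) (σ : E ≃ₐ[F] E) (hσ : ∀ x, U.σ x = σ x) {n : ℕ}
    (J : Matrix (Fin n) (Fin n) E) (hJs : ∀ i j, σ (J i j) = - J j i) (g : ↥(UJ σ J)) :
    ↥(Iso U (skJ U σ hσ J hJs)) :=
  ⟨eGL E n g, (mem_Iso_iff U σ hσ J hJs g).1 g.2⟩

theorem isoHom_toIso (U : Unr E) (σ : E ≃ₐ[F] E) (hσ : ∀ x, U.σ x = σ x) {n : ℕ}
    (J : Matrix (Fin n) (Fin n) E) (hJs : ∀ i j, σ (J i j) = - J j i) (g : ↥(UJ σ J)) :
    isoHom U σ hσ J hJs (toIso U σ hσ J hJs g) = g := by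
  apply Subtype.ext
  change (eGL E n).symm (eGL E n g) = g
  rw [MulEquiv.symm_apply_apply]

theorem sdb_st (U : Unr E) (σ : E ≃ₐ[F] E) (hσ : ∀ x, U.σ x = σ x) {n : ℕ}
    (J : Matrix (Fin n) (Fin n) E) (hJs : ∀ i j, σ (J i j) = - J j i)
    (hJ1 : ∀ i j, ‖J i j‖ ≤ 1) (hJd : ‖J.det‖ = 1) :
    SDB U (skJ U σ hσ J hJs) (st E n) := by
  have h : ∀ i j, (skJ U σ hσ J hJs).h (st E n i) (st E n j) = J i j := hJ_st σ J
  refine ⟨fun i j => by rw [h]; exact hJ1 i j, ?_⟩
  have : (Matrix.of fun i j => (skJ U σ hσ J hJs).h (st E n i) (st E n j)) = J := by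
    ext i j
    exact h i j
  rw [this, hJd]

theorem sd_ML (U : Unr E) (σ : E ≃ₐ[F] E) (hσ : ∀ x, U.σ x = σ x) {n : ℕ}
    (J : Matrix (Fin n) (Fin n) E) (hJs : ∀ i j, σ (J i j) = - J j i)
    (hJ1 : ∀ i j, ‖J i j‖ ≤ 1) (hJd : ‖J.det‖ = 1) :
    SD U (skJ U σ hσ J hJs) (ML U n) n :=
  ⟨st E n, sdb_st U σ hσ J hJs hJ1 hJd, rfl⟩

theorem full_ML (U : Unr E) (n : ℕ) (v : Fin n → E) : ∃ j : ℕ, (U.ϖ ^ j) • v ∈ ML U n := by
  have h1 : ∀ i, ∃ j : ℕ, ‖U.ϖ‖ ^ j * ‖v i‖ ≤ 1 := by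
    intro i
    have := (tendsto_pow_atTop_nhds_zero_of_lt_one (norm_nonneg U.ϖ) U.ϖlt).mul_const ‖v i‖
    rw [zero_mul] at this
    obtain ⟨j, hj⟩ := (this.eventually (gt_mem_nhds one_pos)).exists
    exact ⟨j, hj.le⟩
  choose j hj using h1
  refine ⟨∑ i, j i, ?_⟩
  rw [mem_ML]
  intro i
  rw [Pi.smul_apply, smul_eq_mul, norm_mul, norm_pow]
  refine le_trans ?_ (hj i)
  refine mul_le_mul_of_nonneg_right ?_ (norm_nonneg _)
  exact pow_le_pow_of_le_one (norm_nonneg _) U.ϖlt.le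
    (Finset.single_le_sum (f := j) (fun _ _ => Nat.zero_le _) (Finset.mem_univ i))

theorem span_ML (U : Unr E) (n : ℕ) : Submodule.span E (ML U n : Set (Fin n → E)) = ⊤ := by
  rw [eq_top_iff]
  intro v _
  obtain ⟨j, hj⟩ := full_ML U n v
  have h0 : U.ϖ ^ j ≠ 0 := pow_ne_zero _ (norm_pos_iff.1 U.ϖpos)
  have : v = (U.ϖ ^ j)⁻¹ • ((U.ϖ ^ j) • v) := by
    rw [smul_smul, inv_mul_cancel₀ h0, one_smul]
  rw [this]
  exact Submodule.smul_mem _ _ (Submodule.subset_span hj)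

/-- the Weil data of the final statement -/
noncomputable def wdJ (U : Unr E) (σ : E ≃ₐ[F] E) (hσ : ∀ x, U.σ x = σ x) {n : ℕ}
    (J : Matrix (Fin n) (Fin n) E) (hJs : ∀ i j, σ (J i j) = - J j i)
    (hJ1 : ∀ i j, ‖J i j‖ ≤ 1) (hJd : ‖J.det‖ = 1)
    (Ψ : AddChar E Circle) (hΨσ : ∀ x, Ψ (U.σ x) = Ψ x) (hΨ1 : ∀ x, ‖x‖ ≤ 1 → Ψ x = 1)
    (hΨ2 : ∃ x, U.σ x = x ∧ ‖x‖ ≤ ‖U.ϖ‖⁻¹ ∧ Ψ x ≠ 1)
    (S : Type) [NormedAddCommGroup S] [InnerProductSpace ℂ S] [CompleteSpace S]
    (ρ : (Fin n → E) → (S ≃ₗᵢ[ℂ] S))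
    (hρ : ∀ v w s, ρ v (ρ w s) = (Ψ (hJ σ J v w) : ℂ) • ρ (v + w) s)
    (hρc : ∀ s, Continuous fun v => ρ v s)
    (hρi : ∀ W : Submodule ℂ S, IsClosed (W : Set S) → (∀ v, ∀ s ∈ W, ρ v s ∈ W) →
      W = ⊥ ∨ W = ⊤)
    (ω : ↥(UJ σ J) →* (S ≃ₗᵢ[ℂ] S))
    (hω : ∀ (g : ↥(UJ σ J)) v s, ω g (ρ v s) =
      ρ (((g : GL (Fin n) E) : Matrix (Fin n) (Fin n) E).mulVec v) (ω g s)) :
    WD U (skJ U σ hσ J hJs) n (ML U n) S where
  sd := sd_ML U σ hσ J hJs hJ1 hJd
  full := full_ML U n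
  Ψ := Ψ
  Ψσ := hΨσ
  Ψint := hΨ1
  Ψnt := hΨ2
  ρ := ρ
  mul := hρ
  cont := by
    intro s ε hε
    have h0 : hJ σ J 0 0 = 0 := by simp [hJ]
    have hz : ρ 0 s = s := by
      have := hρ 0 0 s
      rw [h0, add_zero, AddChar.map_zero_eq_one, Circle.coe_one, one_smul] at this
      exact (ρ 0).injective this
    have hc : ContinuousAt (fun v => ρ v s) 0 := (hρc s).continuousAt
    obtain ⟨δ, hδ, h⟩ := Metric.continuousAt_iff.1 hc ε hε
    obtain ⟨j, hj⟩ := ((tendsto_pow_atTop_nhds_zero_of_lt_one (norm_nonneg U.ϖ)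
      U.ϖlt).eventually (gt_mem_nhds hδ)).exists
    refine ⟨j, fun v hv => ?_⟩
    have hv' : ‖(U.ϖ ^ j) • v‖ < δ := by
      refine lt_of_le_of_lt ?_ hj
      rw [pi_norm_le_iff_of_nonneg (by positivity)]
      intro i
      rw [mem_ML] at hv
      rw [Pi.smul_apply, smul_eq_mul, norm_mul, norm_pow]
      exact mul_le_of_le_one_right (by positivity) (hv i)
    have := h (x := (U.ϖ ^ j) • v) (by rwa [dist_zero_right])
    rwa [hz, dist_eq_norm] at this
  irr := hρi
  ω := ω.comp (isoHom U σ hσ J hJs)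
  comp := by
    intro g v s
    rw [MonoidHom.comp_apply, hω, isoHom_apply]

end MPtg.AsmM
end

section
/-! # MP_3d2757_nt : positions, cosets, matrix coefficients -/
open Finset MeasureTheory

namespace MPtg.AsmM

theorem sigma_sum {α : Type} {B : α → Type} [∀ a, Finite (B a)] (g : α → ℂ) :
    (Summable (fun p : Σ a, B a => ‖g p.1‖) ↔
      Summable (fun a => ‖(Nat.card (B a) : ℂ) * g a‖)) ∧
    (Summable (fun p : Σ a, B a => ‖g p.1‖) →
      ∑' p : Σ a, B a, g p.1 = ∑' a, (Nat.card (B a) : ℂ) * g a) := by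
  have h1 : ∀ a, ∑' _ : B a, ‖g a‖ = ‖(Nat.card (B a) : ℂ) * g a‖ := by
    intro a
    rw [tsum_const, norm_mul]
    simp
  have h2 : ∀ a, ∑' _ : B a, g a = (Nat.card (B a) : ℂ) * g a := by
    intro a
    rw [tsum_const]
    simp
  refine ⟨?_, ?_⟩
  · rw [summable_sigma_of_nonneg (fun p => norm_nonneg _)]
    simp only [h1]
    exact ⟨fun h => h.2, fun h => ⟨fun a => summable_of_hasFiniteSupport (Set.toFinite _), h⟩⟩
  · intro h
    have h' : Summable (fun p : Σ a, B a => g p.1) := h.of_norm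
    rw [h'.tsum_sigma' (fun a => summable_of_hasFiniteSupport (Set.toFinite _))]
    simp only [h2]

section
variable {E : Type} [NormedField E]

theorem mem_box_st (U : Unr E) {n : ℕ} (L : Fin n → ℤ) (v : Fin n → E) :
    v ∈ box U (st E n) L ↔ ∀ i, ‖v i‖ ≤ ‖U.ϖ‖ ^ (L i) := by
  constructor
  · rintro ⟨c, hc, rfl⟩
    rw [sum_st]
    exact hc
  · intro h
    exact ⟨v, h, (sum_st v).symm⟩

theorem dg_mulVec (U : Unr E) {n : ℕ} (L : Fin n → ℤ) (v : Fin n → E) (i : Fin n) :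
    ((dg U.w L : GL (Fin n) E) : Matrix (Fin n) (Fin n) E).mulVec v i = U.ϖ ^ (L i) * v i := by
  change (Matrix.diagonal fun i => ((U.w ^ (L i) : Eˣ) : E)).mulVec v i = _
  rw [Matrix.mulVec_diagonal]
  simp [Unr.w]

theorem dg_mem_box (U : Unr E) {n : ℕ} (L : Fin n → ℤ) (v : Fin n → E) :
    ((dg U.w L : GL (Fin n) E) : Matrix (Fin n) (Fin n) E).mulVec v ∈ box U (st E n) L ↔
      v ∈ ML U n := by
  rw [mem_box_st, mem_ML]
  refine forall_congr' fun i => ?_
  rw [dg_mulVec, norm_mul, norm_zpow]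
  have : 0 < ‖U.ϖ‖ ^ (L i) := zpow_pos U.ϖpos _
  constructor
  · intro h
    by_contra hc
    push Not at hc
    have := mul_lt_mul_of_pos_left hc this
    linarith
  · intro h
    exact mul_le_of_le_one_right this.le h

/-- a basis of the standard lattice is the image of the standard basis under `GL_n(O)` -/
theorem exists_B (U : Unr E) {n : ℕ} (b : Fin n → (Fin n → E)) (hb : LinearIndependent E b)
    (hM : ML U n = box U b 0) :
    ∃ B ∈ KS E n, ∀ i, (B : Matrix (Fin n) (Fin n) E).mulVec (st E n i) = b i := by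
  have hsp : ⊤ ≤ Submodule.span E (Set.range b) := by
    rw [← span_ML U n, Submodule.span_le, hM]
    rintro v ⟨c, _, rfl⟩
    exact Submodule.sum_mem _ fun i _ => Submodule.smul_mem _ _ (Submodule.subset_span ⟨i, rfl⟩)
  let bb : Module.Basis (Fin n) E (Fin n → E) := Module.Basis.mk hb hsp
  let g : (Fin n → E) ≃ₗ[E] (Fin n → E) := (Pi.basisFun E (Fin n)).equiv bb (Equiv.refl _)
  have hg : ∀ i, g (st E n i) = b i := by
    intro i
    have : st E n i = Pi.basisFun E (Fin n) i := by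
      simp [st, Pi.basisFun_apply]
    rw [this, Module.Basis.equiv_apply]
    simp [bb]
  refine ⟨(eGL E n).symm g, ?_, ?_⟩
  · rw [mem_KS_iff U]
    intro v
    rw [← eGL_apply, MulEquiv.apply_symm_apply]
    have h1 := map_box U (st E n) 0 g v
    have h2 : (fun i => g (st E n i)) = b := funext hg
    rw [h2, ← hM] at h1
    exact h1.symm
  · intro i
    rw [← eGL_apply, MulEquiv.apply_symm_apply]
    exact hg i

/-- the spherical matrix coefficient depends on the position only -/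
theorem coeff_pos (U : Unr E) {n : ℕ} (b : Fin n → (Fin n → E)) (hb : LinearIndependent E b)
    (hM : ML U n = box U b 0) (L : Fin n → ℤ) (g : GL (Fin n) E)
    (hg : ∀ v, v ∈ ML U n ↔ (g : Matrix (Fin n) (Fin n) E).mulVec v ∈ box U b L)
    (H : Type) [NormedAddCommGroup H] [InnerProductSpace ℂ H]
    (π : GL (Fin n) E →* (H ≃ₗᵢ[ℂ] H)) (f : H) (hf : ∀ g ∈ KS E n, π g f = f) :
    inner ℂ f (π g f) = inner ℂ f (π (dg U.w L) f) := by
  obtain ⟨B, hB, hBb⟩ := exists_B U b hb hM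
  have hBbox : ∀ v, (B : Matrix (Fin n) (Fin n) E).mulVec v ∈ box U b L ↔
      v ∈ box U (st E n) L := by
    intro v
    have h1 := map_box U (st E n) L (eGL E n B) v
    have h2 : (fun i => eGL E n B (st E n i)) = b := funext hBb
    rw [h2] at h1
    exact h1
  have hk : (B * dg U.w L)⁻¹ * g ∈ KS E n := by
    rw [mem_KS_iff U]
    intro v
    rw [hg]
    have e : (g : Matrix (Fin n) (Fin n) E) = (B : Matrix (Fin n) (Fin n) E) *
        ((dg U.w L : GL (Fin n) E) : Matrix (Fin n) (Fin n) E) *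
        (((B * dg U.w L)⁻¹ * g : GL (Fin n) E) : Matrix (Fin n) (Fin n) E) := by
      rw [← Units.val_mul, ← Units.val_mul, mul_inv_cancel_left]
    conv_lhs => rw [e]
    rw [← Matrix.mulVec_mulVec, ← Matrix.mulVec_mulVec, hBbox, dg_mem_box]
  have e : g = B * (dg U.w L) * ((B * dg U.w L)⁻¹ * g) := by group
  have e1 : π g f = π B (π (dg U.w L) f) := by
    conv_lhs => rw [e]
    rw [map_mul, map_mul]
    change π B (π (dg U.w L) (π ((B * dg U.w L)⁻¹ * g) f)) = _
    rw [hf _ hk]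
  rw [e1]
  have h3 : inner ℂ (π B f) (π B (π (dg U.w L) f)) = inner ℂ f (π (dg U.w L) f) :=
    (π B).inner_map_map _ _
  rwa [hf B hB] at h3

end

variable {F E : Type} [NontriviallyNormedField F] [NormedField E] [NormedAlgebra F E]

/-- the lattice `g M` -/
noncomputable def latG (U : Unr E) (σ : E ≃ₐ[F] E) {n : ℕ} {J : Matrix (Fin n) (Fin n) E} (g : ↥(UJ σ J)) :
    AddSubgroup (Fin n → E) :=
  box U (fun i => eGL E n (g : GL (Fin n) E) (st E n i)) 0

theorem mem_latG (U : Unr E) (σ : E ≃ₐ[F] E) {n : ℕ} {J : Matrix (Fin n) (Fin n) E}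
    (g : ↥(UJ σ J)) (v : Fin n → E) :
    eGL E n (g : GL (Fin n) E) v ∈ latG U σ g ↔ v ∈ ML U n :=
  map_box U (st E n) 0 (eGL E n (g : GL (Fin n) E)) v

theorem sd_latG (U : Unr E) (σ : E ≃ₐ[F] E) (hσ : ∀ x, U.σ x = σ x) {n : ℕ}
    (J : Matrix (Fin n) (Fin n) E) (hJs : ∀ i j, σ (J i j) = - J j i)
    (hJ1 : ∀ i j, ‖J i j‖ ≤ 1) (hJd : ‖J.det‖ = 1) (g : ↥(UJ σ J)) :
    SD U (skJ U σ hσ J hJs) (latG U σ g) n := by
  refine ⟨_, ?_, rfl⟩
  have h0 := sdb_st U σ hσ J hJs hJ1 hJd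
  have h1 : ∀ v w, (skJ U σ hσ J hJs).h (eGL E n (g : GL (Fin n) E) v)
      (eGL E n (g : GL (Fin n) E) w) = (skJ U σ hσ J hJs).h v w := by
    intro v w
    exact (mem_UJ_iff σ J g).1 g.2 v w
  unfold SDB at h0 ⊢
  simp only [h1]
  exact h0

theorem span_latG (U : Unr E) (σ : E ≃ₐ[F] E) {n : ℕ} {J : Matrix (Fin n) (Fin n) E}
    (g : ↥(UJ σ J)) : Submodule.span E (latG U σ g : Set (Fin n → E)) = ⊤ := by
  rw [eq_top_iff]
  intro v _
  obtain ⟨j, hj⟩ := full_ML U n ((eGL E n (g : GL (Fin n) E)).symm v)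
  have h0 : U.ϖ ^ j ≠ 0 := pow_ne_zero _ (norm_pos_iff.1 U.ϖpos)
  have h1 : (U.ϖ ^ j) • v ∈ latG U σ g := by
    have := (mem_latG U σ g _).2 hj
    rwa [map_smul, LinearEquiv.apply_symm_apply] at this
  have : v = (U.ϖ ^ j)⁻¹ • ((U.ϖ ^ j) • v) := by
    rw [smul_smul, inv_mul_cancel₀ h0, one_smul]
  rw [this]
  exact Submodule.smul_mem _ _ (Submodule.subset_span h1)

/-- the compact open subgroup `K` -/
def KJ (U : Unr E) (σ : E ≃ₐ[F] E) {n : ℕ} (J : Matrix (Fin n) (Fin n) E) :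
    Subgroup ↥(UJ σ J) where
  carrier := {g | (g : GL (Fin n) E) ∈ KS E n}
  mul_mem' := fun ha hb => KS_mul U ha hb
  one_mem' := KS_one
  inv_mem' := fun ha => KS_inv ha

theorem latG_eq_iff (U : Unr E) (σ : E ≃ₐ[F] E) {n : ℕ} {J : Matrix (Fin n) (Fin n) E}
    (g g' : ↥(UJ σ J)) : latG U σ g = latG U σ g' ↔ g⁻¹ * g' ∈ KJ U σ J := by
  have key : ∀ v, eGL E n ((g⁻¹ * g' : ↥(UJ σ J)) : GL (Fin n) E) v ∈ ML U n ↔
      eGL E n (g' : GL (Fin n) E) v ∈ latG U σ g := by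
    intro v
    rw [← mem_latG U σ g]
    have : eGL E n (g : GL (Fin n) E) (eGL E n ((g⁻¹ * g' : ↥(UJ σ J)) : GL (Fin n) E) v) =
        eGL E n (g' : GL (Fin n) E) v := by
      rw [← LinearEquiv.mul_apply, ← map_mul]
      congr 2
      simp
    rw [this]
  constructor
  · intro h
    change ((g⁻¹ * g' : ↥(UJ σ J)) : GL (Fin n) E) ∈ KS E n
    rw [mem_KS_iff U]
    intro v
    rw [← eGL_apply, key, h, mem_latG]
  · intro h
    have h' : ((g⁻¹ * g' : ↥(UJ σ J)) : GL (Fin n) E) ∈ KS E n := h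
    rw [mem_KS_iff U] at h'
    ext v
    obtain ⟨w, rfl⟩ := (eGL E n (g' : GL (Fin n) E)).surjective v
    rw [mem_latG, ← key]
    exact (h' w).symm

end MPtg.AsmM
end

section
/-! # MP_3d2757_nt : cosets of `K` and self-dual lattices -/
open Finset MeasureTheory

namespace MPtg.AsmM

variable {F E : Type} [NontriviallyNormedField F] [NormedField E] [NormedAlgebra F E]

section
variable (U : Unr E) (σ : E ≃ₐ[F] E) (hσ : ∀ x, U.σ x = σ x) {n : ℕ}
    (J : Matrix (Fin n) (Fin n) E) (hJs : ∀ i j, σ (J i j) = - J j i)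

/-- self-dual lattices in position `Λ` -/
def LL (L : {L : Fin n → ℤ // Sym L}) : Set (AddSubgroup (Fin n → E)) :=
  {M | SD U (skJ U σ hσ J hJs) M n ∧ Pos U (ML U n) M L.1}

theorem exists_pos (hHyp : SpecHyp) (hJ1 : ∀ i j, ‖J i j‖ ≤ 1) (hJd : ‖J.det‖ = 1)
    (g : ↥(UJ σ J)) :
    ∃ (b : Fin n → (Fin n → E)) (L : Fin n → ℤ), Sym L ∧ SDB U (skJ U σ hσ J hJs) b ∧
      HypB U (skJ U σ hσ J hJs) b L ∧ ML U n = box U b 0 ∧ latG U σ g = box U b L :=
  hHyp E U (Fin n → E) (skJ U σ hσ J hJs) n (ML U n) (latG U σ g)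
    (sd_ML U σ hσ J hJs hJ1 hJd) (sd_latG U σ hσ J hJs hJ1 hJd g)
    (by rw [span_ML, span_latG])

theorem pos_unique (hUniq : SpecUniq) (M L : AddSubgroup (Fin n → E)) (Λ Λ' : Fin n → ℤ)
    (h1 : Sym Λ) (h2 : Sym Λ') (hp : Pos U M L Λ) (hp' : Pos U M L Λ') : Λ = Λ' := by
  obtain ⟨b, hb, hM, hL⟩ := hp
  obtain ⟨b', hb', hM', hL'⟩ := hp'
  exact hUniq E U (Fin n → E) n b b' Λ Λ' hb hb' h1.1 h2.1 (hM.symm.trans hM') (hL.symm.trans hL')

/-- the lattice of a coset together with its position -/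
theorem cosets (hHyp : SpecHyp) (hUniq : SpecUniq) (hSdl : SpecSdl) (hBox : SpecBox)
    (hTrans : SpecTrans)
    (hJ1 : ∀ i j, ‖J i j‖ ≤ 1) (hJd : ‖J.det‖ = 1) :
    ∃ e : (↥(UJ σ J) ⧸ KJ U σ J) ≃ Σ L : {L : Fin n → ℤ // Sym L}, ↥(LL U σ hσ J hJs L),
      ∀ c, latG U σ c.out = (e c).2.1 := by
  classical
  have hli := (hSdl E U (Fin n → E) (skJ U σ hσ J hJs) n (ML U n)
    (sd_ML U σ hσ J hJs hJ1 hJd)).2.2.1
  have h1 : ∀ c : (↥(UJ σ J) ⧸ KJ U σ J), ∃ L : {L : Fin n → ℤ // Sym L},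
      latG U σ c.out ∈ LL U σ hσ J hJs L := by
    intro c
    obtain ⟨b, L, hL, hb, _, hM, hG⟩ := exists_pos U σ hσ J hJs hHyp hJ1 hJd c.out
    exact ⟨⟨L, hL⟩, sd_latG U σ hσ J hJs hJ1 hJd _, b, hli b hb, hM, hG⟩
  choose Lc hLc using h1
  let f : (↥(UJ σ J) ⧸ KJ U σ J) → Σ L : {L : Fin n → ℤ // Sym L}, ↥(LL U σ hσ J hJs L) :=
    fun c => ⟨Lc c, ⟨latG U σ c.out, hLc c⟩⟩
  have hf : Function.Bijective f := by
    constructor
    · intro c c' h
      have h2 : latG U σ c.out = latG U σ c'.out := by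
        have : (f c).2.1 = (f c').2.1 := by rw [h]
        exact this
      rw [latG_eq_iff] at h2
      have h3 : (QuotientGroup.mk c.out : ↥(UJ σ J) ⧸ KJ U σ J) = QuotientGroup.mk c'.out :=
        QuotientGroup.eq.2 h2
      rwa [QuotientGroup.out_eq', QuotientGroup.out_eq'] at h3
    · rintro ⟨L, M, hM1, hM2⟩
      have hspan : Submodule.span E (M : Set (Fin n → E)) = ⊤ := by
        obtain ⟨b, _, hb1, hb2⟩ := hM2
        have e1 := (hBox E U (Fin n → E) n b).2.2.2.2.2.2.1 L.1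
        have e2 := (hBox E U (Fin n → E) n b).2.2.2.2.2.2.1 0
        rw [hb2, e1, ← e2, ← hb1, span_ML]
      obtain ⟨g, hg, hgM⟩ := hTrans E U (Fin n → E) (skJ U σ hσ J hJs) n (ML U n) M
        (sd_ML U σ hσ J hJs hJ1 hJd) hM1 (span_ML U n) hspan
      let g' : ↥(UJ σ J) := isoHom U σ hσ J hJs ⟨g, hg⟩
      have hg' : ∀ v, eGL E n (g' : GL (Fin n) E) v = g v := fun v =>
        isoHom_apply U σ hσ J hJs ⟨g, hg⟩ v
      have h2 : latG U σ g' = M := by
        ext v
        obtain ⟨w, rfl⟩ := (eGL E n (g' : GL (Fin n) E)).surjective v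
        rw [mem_latG, hg']
        exact hgM w
      have h3 : latG U σ (QuotientGroup.mk g' : ↥(UJ σ J) ⧸ KJ U σ J).out = M := by
        rw [← h2, latG_eq_iff]
        have : (QuotientGroup.mk (QuotientGroup.mk g' : ↥(UJ σ J) ⧸ KJ U σ J).out :
          ↥(UJ σ J) ⧸ KJ U σ J) = QuotientGroup.mk g' := QuotientGroup.out_eq' _
        exact QuotientGroup.eq.1 this
      refine ⟨QuotientGroup.mk g', ?_⟩
      have h4 : Lc (QuotientGroup.mk g') = L := by
        apply Subtype.ext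
        have := (hLc (QuotientGroup.mk g')).2
        rw [h3] at this
        exact pos_unique U hUniq _ _ _ _ (Lc (QuotientGroup.mk g')).2 L.2 this hM2
      have h5 : ∀ (L' : {L : Fin n → ℤ // Sym L}) (M' : AddSubgroup (Fin n → E))
          (hM' : M' ∈ LL U σ hσ J hJs L'), L' = L → M' = M →
          (⟨L', ⟨M', hM'⟩⟩ : Σ L : {L : Fin n → ℤ // Sym L}, ↥(LL U σ hσ J hJs L)) =
            ⟨L, ⟨M, hM1, hM2⟩⟩ := by
        rintro L' M' hM' rfl rfl
        rfl
      exact h5 _ _ _ h4 h3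
  exact ⟨Equiv.ofBijective f hf, fun c => rfl⟩

end

end MPtg.AsmM
end

section
/-! # MP_3d2757_nt : assembly -/
open Finset MeasureTheory

namespace MPtg.AsmM

theorem vv_ne (n : ℕ) (u : ℝ) (h0 : 0 < u) (h1 : u < 1) : vv n (u : ℂ) ≠ 0 := by
  intro h
  have := vv_mul n (u : ℂ)
  rw [h, zero_mul] at this
  refine (Finset.prod_ne_zero_iff.2 fun k _ => ?_) this.symm
  refine one_sub_ne ?_
  rw [norm_pow, Complex.norm_real, Real.norm_of_nonneg h0.le]
  exact pow_lt_one₀ h0.le h1 (by positivity)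

/-- the reversal permutation -/
theorem coeff_rev {E : Type} [NormedField E] (U : Unr E) {n : ℕ}
    (H : Type) [NormedAddCommGroup H] [InnerProductSpace ℂ H]
    (π : GL (Fin n) E →* (H ≃ₗᵢ[ℂ] H)) (f : H) (hf : ∀ g ∈ KS E n, π g f = f)
    (L : Fin n → ℤ) :
    inner ℂ f (π (dg U.w (fun i => - L (Fin.rev i))) f) =
      (starRingEnd ℂ) (inner ℂ f (π (dg U.w L) f)) := by
  -- position of the lattice `dg (-L ∘ rev) M` in the basis `st ∘ rev`
  have h1 : inner ℂ f (π ((dg U.w L)⁻¹) f) =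
      inner ℂ f (π (dg U.w (fun i => - L (Fin.rev i))) f) := by
    refine coeff_pos U (fun i => st E n (Fin.rev i)) ?_ ?_ (fun i => - L (Fin.rev i)) _ ?_ H π f hf
    · exact (li_st n).comp _ Fin.rev_injective
    · ext v
      constructor
      · rintro ⟨c, hc, rfl⟩
        refine ⟨fun i => c (Fin.rev i), fun i => hc _, ?_⟩
        exact (Equiv.sum_comp Fin.revPerm (fun i => c i • st E n i)).symm
      · rintro ⟨c, hc, rfl⟩
        refine ⟨fun i => c (Fin.rev i), fun i => hc _, ?_⟩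
        rw [← Equiv.sum_comp Fin.revPerm]
        simp
    · intro v
      have e1 : ∀ w : Fin n → E, w ∈ box U (fun i => st E n (Fin.rev i))
          (fun i => - L (Fin.rev i)) ↔ ∀ i, ‖w i‖ ≤ ‖U.ϖ‖ ^ (- L i) := by
        intro w
        constructor
        · rintro ⟨c, hc, rfl⟩ i
          have : (∑ j, c j • st E n (Fin.rev j)) = fun i => c (Fin.rev i) := by
            rw [← sum_st (fun i => c (Fin.rev i)), ← Equiv.sum_comp Fin.revPerm]
            simp
          rw [this]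
          have := hc (Fin.rev i)
          simpa using this
        · intro h
          refine ⟨fun i => w (Fin.rev i), fun i => h _, ?_⟩
          conv_lhs => rw [← sum_st w]
          rw [← Equiv.sum_comp Fin.revPerm]
          simp
      rw [e1, mem_ML]
      have e2 : ∀ i, (((dg U.w L)⁻¹ : GL (Fin n) E) : Matrix (Fin n) (Fin n) E).mulVec v i =
          U.ϖ ^ (- L i) * v i := by
        intro i
        change (Matrix.diagonal fun i => ((U.w ^ (- L i) : Eˣ) : E)).mulVec v i = _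
        rw [Matrix.mulVec_diagonal]
        simp [Unr.w]
      refine forall_congr' fun i => ?_
      rw [e2, norm_mul, norm_zpow]
      have : 0 < ‖U.ϖ‖ ^ (- L i) := zpow_pos U.ϖpos _
      constructor
      · intro h
        exact mul_le_of_le_one_right this.le h
      · intro h
        by_contra hc
        push Not at hc
        have := mul_lt_mul_of_pos_left hc this
        linarith
  rw [← h1, inner_conj_symm]
  have h2 := (π (dg U.w L)).inner_map_map f (π ((dg U.w L)⁻¹) f)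
  have h3 : π (dg U.w L) (π ((dg U.w L)⁻¹) f) = f := by
    rw [map_inv]
    exact (π (dg U.w L)).apply_symm_apply f
  rw [h3] at h2
  exact h2.symm

variable {F E : Type} [NontriviallyNormedField F] [NormedField E] [NormedAlgebra F E]

/-- the core of the assembly, in terms of the data `U` -/
theorem core (hHyp : SpecHyp) (hUniq : SpecUniq) (hSdl : SpecSdl) (hBox : SpecBox)
    (hTrans : SpecTrans) (hCnt : SpecCnt) (hWE : SpecWE) (hMac : SpecMac) (hHerm : SpecHerm)
    (hCont : SpecCont) (hDiv : SpecDiv) (hIntg : SpecIntg)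
    (U : Unr E) (σ : E ≃ₐ[F] E) (hσ : ∀ x, U.σ x = σ x) {n : ℕ}
    (J : Matrix (Fin n) (Fin n) E) (hJs : ∀ i j, σ (J i j) = - J j i)
    (hJ1 : ∀ i j, ‖J i j‖ ≤ 1) (hJd : ‖J.det‖ = 1)
    (Ψ : AddChar E Circle) (hΨσ : ∀ x, Ψ (U.σ x) = Ψ x) (hΨ1 : ∀ x, ‖x‖ ≤ 1 → Ψ x = 1)
    (hΨ2 : ∃ x, U.σ x = x ∧ ‖x‖ ≤ ‖U.ϖ‖⁻¹ ∧ Ψ x ≠ 1)
    [MeasurableSpace (GL (Fin n) E)] [BorelSpace (GL (Fin n) E)]
    (μ : Measure ↥(UJ σ J)) [μ.IsHaarMeasure] (hμ : μ {g | (g : GL (Fin n) E) ∈ KS E n} = 1)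
    (H : Type) [NormedAddCommGroup H] [InnerProductSpace ℂ H] [CompleteSpace H]
    (π : GL (Fin n) E →* (H ≃ₗᵢ[ℂ] H)) (f : H) (hf : ∀ g ∈ KS E n, π g f = f)
    (S : Type) [NormedAddCommGroup S] [InnerProductSpace ℂ S] [CompleteSpace S]
    (ρ : (Fin n → E) → (S ≃ₗᵢ[ℂ] S))
    (hρ : ∀ v w s, ρ v (ρ w s) = (Ψ (hJ σ J v w) : ℂ) • ρ (v + w) s)
    (hρc : ∀ s, Continuous fun v => ρ v s)
    (hρi : ∀ W : Submodule ℂ S, IsClosed (W : Set S) → (∀ v, ∀ s ∈ W, ρ v s ∈ W) →
      W = ⊥ ∨ W = ⊤)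
    (ω : ↥(UJ σ J) →* (S ≃ₗᵢ[ℂ] S))
    (hω : ∀ (g : ↥(UJ σ J)) v s, ω g (ρ v s) =
      ρ (((g : GL (Fin n) E) : Matrix (Fin n) (Fin n) E).mulVec v) (ω g s))
    (φ : S) (hφ : ‖φ‖ = 1) (hφK : ∀ g : ↥(UJ σ J), (g : GL (Fin n) E) ∈ KS E n → ω g φ = φ)
    (x : Fin n → ℂ) (hx : ∀ i, x i ≠ 0)
    (hsph : IsSph U.q x (fun L => inner ℂ f (π (dg U.w L) f))) :
    (Integrable (fun g : ↥(UJ σ J) =>
        inner ℂ f (π (g : GL (Fin n) E) f) * (starRingEnd ℂ) (inner ℂ φ (ω g φ))) μ ↔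
      ∀ i j, ‖x i‖ < U.q * ‖x j‖) ∧
    ((∀ i j, ‖x i‖ < U.q * ‖x j‖) →
      ∫ g : ↥(UJ σ J), inner ℂ f (π (g : GL (Fin n) E) f) *
          (starRingEnd ℂ) (inner ℂ φ (ω g φ)) ∂μ =
        ((∏ k ∈ Icc 1 n, zetaE U.q k) / ∏ k ∈ Icc 1 n, Lom U.q k) *
          (LRS U.q (-1) x / LAd U.q x)) := by
  classical
  have hq2 : 2 ≤ U.q := by have := U.q3; omega
  have hq0 : (0 : ℝ) < U.q := by positivity
  set t : ℝ := (U.q : ℝ)⁻¹ with ht
  have ht0 : 0 < t := by positivity
  have ht1 : t < 1 := by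
    apply inv_lt_one_of_one_lt₀
    exact_mod_cast hq2
  have htc : ((U.q : ℂ))⁻¹ = (t : ℂ) := by rw [ht]; push_cast; rfl
  -- the integrand
  set Fn : ↥(UJ σ J) → ℂ := fun g =>
    inner ℂ f (π (g : GL (Fin n) E) f) * (starRingEnd ℂ) (inner ℂ φ (ω g φ)) with hFn
  -- value at a position
  set P : (Fin n → ℤ) → ℂ := fun L => inner ℂ f (π (dg U.w L) f) with hP
  set gv : {L : Fin n → ℤ // Sym L} → ℂ := fun L => P L.1 * (-(t : ℂ)) ^ (len L.1) with hgv
  have hli := (hSdl E U (Fin n → E) (skJ U σ hσ J hJs) n (ML U n)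
    (sd_ML U σ hσ J hJs hJ1 hJd)).2.2.1
  let W := wdJ U σ hσ J hJs hJ1 hJd Ψ hΨσ hΨ1 hΨ2 S ρ hρ hρc hρi ω hω
  have hWK : ∀ g : ↥(Iso U (skJ U σ hσ J hJs)),
      (∀ v, v ∈ ML U n ↔ (g : (Fin n → E) ≃ₗ[E] (Fin n → E)) v ∈ ML U n) → W.ω g φ = φ := by
    intro g hg
    change ω (isoHom U σ hσ J hJs g) φ = φ
    refine hφK _ ?_
    rw [mem_KS_iff U]
    intro v
    rw [isoHom_apply]
    exact hg v
  have hval : ∀ (g : ↥(UJ σ J)) (L : {L : Fin n → ℤ // Sym L}),
      latG U σ g ∈ LL U σ hσ J hJs L → Fn g = gv L := by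
    intro g L hL
    obtain ⟨b, L', hS, hb, hH, hM, hG⟩ := exists_pos U σ hσ J hJs hHyp hJ1 hJd g
    have hLL : L' = L.1 :=
      pos_unique U hUniq _ _ _ _ hS L.2 ⟨b, hli b hb, hM, hG⟩ hL.2
    subst hLL
    have hgb : ∀ v, v ∈ ML U n ↔ eGL E n (g : GL (Fin n) E) v ∈ box U b L.1 := by
      intro v
      rw [← hG, mem_latG]
    have e1 : inner ℂ f (π (g : GL (Fin n) E) f) = P L.1 :=
      coeff_pos U b (hli b hb) hM L.1 (g : GL (Fin n) E) hgb H π f hf
    have e2 : inner ℂ φ (ω g φ) = (-((U.q : ℂ)⁻¹)) ^ (len L.1) := by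
      have := hWE E U (Fin n → E) (skJ U σ hσ J hJs) n (ML U n) S W φ hφ hWK b L.1 hb hM L.2 hH
        (toIso U σ hσ J hJs g) hgb
      change inner ℂ φ (ω (isoHom U σ hσ J hJs (toIso U σ hσ J hJs g)) φ) = _ at this
      rwa [isoHom_toIso] at this
    rw [hFn, hgv]
    change inner ℂ f (π (g : GL (Fin n) E) f) * (starRingEnd ℂ) (inner ℂ φ (ω g φ)) = _
    rw [e1, e2, htc, map_pow, map_neg, Complex.conj_ofReal]
  -- cosets
  obtain ⟨e, he⟩ := cosets U σ hσ J hJs hHyp hUniq hSdl hBox hTrans hJ1 hJd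
  have hfin : ∀ L : {L : Fin n → ℤ // Sym L}, Finite ↥(LL U σ hσ J hJs L) := fun L =>
    (hCnt E U (Fin n → E) (skJ U σ hσ J hJs) n (ML U n)
      (sd_ML U σ hσ J hJs hJ1 hJd) L.1 L.2).1
  have hcard : ∀ L : {L : Fin n → ℤ // Sym L}, ((Nat.card ↥(LL U σ hσ J hJs L) : ℕ) : ℂ) =
      ((U.q : ℂ)) ^ (tworho L.1) * (AA t n L.1 : ℂ) := by
    intro L
    have := (hCnt E U (Fin n → E) (skJ U σ hσ J hJs) n (ML U n)
      (sd_ML U σ hσ J hJs hJ1 hJd) L.1 L.2).2
    rw [← ht] at this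
    have h2 : ((Nat.card ↥(LL U σ hσ J hJs L) : ℕ) : ℝ) =
        (U.q : ℝ) ^ (tworho L.1) * AA t n L.1 := this
    have h3 : ((Nat.card ↥(LL U σ hσ J hJs L) : ℕ) : ℂ) =
        (((Nat.card ↥(LL U σ hσ J hJs L) : ℕ) : ℝ) : ℂ) := by push_cast; rfl
    rw [h3, h2]
    push_cast
    rfl
  have hvv : vv n (((t ^ 2 : ℝ)) : ℂ) ≠ 0 :=
    vv_ne n (t ^ 2) (by positivity) (pow_lt_one₀ ht0.le ht1 (by norm_num))
  have hterm : ∀ L : {L : Fin n → ℤ // Sym L},
      ((Nat.card ↥(LL U σ hσ J hJs L) : ℕ) : ℂ) * gv L =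
      ((AA t n L.1 : ℂ) * (-(t : ℂ)) ^ (len L.1) * RP (((t ^ 2 : ℝ)) : ℂ) L.1 x) /
        vv n (((t ^ 2 : ℝ)) : ℂ) := by
    intro L
    have h1 : P L.1 = ((U.q : ℂ)⁻¹) ^ (tworho L.1) * RP (((t ^ 2 : ℝ)) : ℂ) L.1 x /
        vv n (((t ^ 2 : ℝ)) : ℂ) := hMac n U.q hq2 x hx P hsph L.1 L.2.1
    have h2 : ((U.q : ℂ)) ^ (tworho L.1) * ((U.q : ℂ)⁻¹) ^ (tworho L.1) = 1 := by
      rw [← mul_zpow, mul_inv_cancel₀ (by exact_mod_cast hq0.ne'), one_zpow]
    rw [hcard, hgv]
    change _ * (P L.1 * (-(t : ℂ)) ^ (len L.1)) = _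
    rw [h1]
    calc _ = ((U.q : ℂ)) ^ (tworho L.1) * ((U.q : ℂ)⁻¹) ^ (tworho L.1) *
          (((AA t n L.1 : ℂ) * (-(t : ℂ)) ^ (len L.1) * RP (((t ^ 2 : ℝ)) : ℂ) L.1 x) /
          vv n (((t ^ 2 : ℝ)) : ℂ)) := by ring
      _ = _ := by rw [h2, one_mul]
  have hFc : ∀ c, Fn c.out = gv (e c).1 := by
    intro c
    refine hval _ _ ?_
    rw [he c]
    exact (e c).2.2
  have hcount : Countable (↥(UJ σ J) ⧸ KJ U σ J) := by
    have := hfin
    exact e.injective.countable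
  have hright : ∀ g, ∀ k ∈ KJ U σ J, Fn (g * k) = Fn g := by
    intro g k hk
    have h1 : π ((g * k : ↥(UJ σ J)) : GL (Fin n) E) f = π (g : GL (Fin n) E) f := by
      have : ((g * k : ↥(UJ σ J)) : GL (Fin n) E) = (g : GL (Fin n) E) * (k : GL (Fin n) E) := rfl
      rw [this, map_mul]
      change π (g : GL (Fin n) E) (π (k : GL (Fin n) E) f) = _
      rw [hf _ hk]
    have h2 : ω (g * k) φ = ω g φ := by
      rw [map_mul]
      change ω g (ω k φ) = _
      rw [hφK k hk]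
    rw [hFn]
    change inner ℂ f (π ((g * k : ↥(UJ σ J)) : GL (Fin n) E) f) *
      (starRingEnd ℂ) (inner ℂ φ (ω (g * k) φ)) = _
    rw [h1, h2]
  have hopen : IsOpen ((KJ U σ J : Subgroup ↥(UJ σ J)) : Set ↥(UJ σ J)) :=
    (KS_open U n).preimage continuous_subtype_val
  obtain ⟨hI1, hI2⟩ := hIntg ↥(UJ σ J) μ (KJ U σ J) hopen hμ hcount Fn hright
  have hS1 : Summable (fun c : ↥(UJ σ J) ⧸ KJ U σ J => ‖Fn c.out‖) ↔
      Summable (fun p : Σ L : {L : Fin n → ℤ // Sym L}, ↥(LL U σ hσ J hJs L) => ‖gv p.1‖) := by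
    rw [← e.summable_iff]
    have : (fun c : ↥(UJ σ J) ⧸ KJ U σ J => ‖Fn c.out‖) =
        (fun p : Σ L : {L : Fin n → ℤ // Sym L}, ↥(LL U σ hσ J hJs L) => ‖gv p.1‖) ∘ e := by
      funext c
      simp [hFc c]
    rw [this]
  have := hfin
  obtain ⟨hS2, hS3⟩ := sigma_sum (B := fun L : {L : Fin n → ℤ // Sym L} =>
    ↥(LL U σ hσ J hJs L)) gv
  have hS4 : Summable (fun L : {L : Fin n → ℤ // Sym L} =>
      ‖((Nat.card ↥(LL U σ hσ J hJs L) : ℕ) : ℂ) * gv L‖) ↔
      Summable (fun L : {L : Fin n → ℤ // Sym L} =>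
        ‖(AA t n L.1 : ℂ) * (-(t : ℂ)) ^ (len L.1) * RP (((t ^ 2 : ℝ)) : ℂ) L.1 x‖) := by
    simp only [hterm, norm_div]
    constructor
    · intro h
      have := h.mul_right ‖vv n (((t ^ 2 : ℝ)) : ℂ)‖
      refine this.congr fun L => ?_
      rw [div_mul_cancel₀ _ (norm_ne_zero_iff.2 hvv)]
    · intro h
      exact h.div_const _
  have hrt : (∀ i j, ‖x i‖ < U.q * ‖x j‖) ↔ ∀ i j, ‖x i‖ * t < ‖x j‖ := by
    refine forall_congr' fun i => forall_congr' fun j => ?_
    rw [ht, ← div_eq_mul_inv, div_lt_iff₀ hq0, mul_comm]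
  have hherm := hHerm n U.q hq2 x hx P hsph (fun L _ => coeff_rev U H π f hf L)
  have hiff : Integrable Fn μ ↔ ∀ i j, ‖x i‖ < U.q * ‖x j‖ := by
    rw [hI1, hS1, hS2, hS4, hrt]
    constructor
    · intro h
      by_contra hc
      exact hDiv n t ht0 ht1 x hx hherm hc h
    · intro h
      exact (hCont n t ht0 ht1 x hx h).1
  refine ⟨hiff, fun hr => ?_⟩
  have hint := hiff.2 hr
  have hs1 := hI1.1 hint
  have hs2 := hS1.1 hs1
  rw [hI2 hs1]
  have e1 : ∑' c : ↥(UJ σ J) ⧸ KJ U σ J, Fn c.out =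
      ∑' p : Σ L : {L : Fin n → ℤ // Sym L}, ↥(LL U σ hσ J hJs L), gv p.1 := by
    rw [← e.tsum_eq]
    refine tsum_congr fun c => hFc c
  rw [e1, hS3 hs2]
  simp only [hterm]
  rw [tsum_div_const, (hCont n t ht0 ht1 x hx (hrt.1 hr)).2.tsum_eq]
  rw [← final_alg n U.q hq2 x hx hr]
  rw [← ht]
  ring

/-- the final theorem from the modules -/
theorem asm (hHyp : SpecHyp) (hUniq : SpecUniq) (hSdl : SpecSdl) (hBox : SpecBox)
    (hTrans : SpecTrans) (hCnt : SpecCnt) (hWE : SpecWE) (hMac : SpecMac) (hHerm : SpecHerm)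
    (hCont : SpecCont) (hDiv : SpecDiv) (hIntg : SpecIntg) (hFld : SpecFld) (hSat : SpecSat)
    (hHeci : SpecHeci) : Final := by
  intro F _ _ _ h2 ϖ hϖ ψ hψ1 hψ2 E _ _ hdeg hunr σ hσ χ _ _ hχ2 n J hJ1 hJd hJs _ _ ν _ hν μ _ hμ
    H _ _ _ π hπc hπi f hf hfK S _ _ _ ρ hρ hρc hρi ω hω φ hφ hφK
  obtain ⟨hlc, hnn, U, hUσ, hUϖ, hUq, hΨ⟩ := hFld F ϖ E σ h2 hϖ hdeg hunr hσ
  obtain ⟨Ψ, hΨt, hΨσ, hΨ1, hΨ2⟩ := hΨ ψ hψ1 hψ2
  have hw : Units.map (algebraMap F E : F →* E) ϖ = U.w := by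
    apply Units.ext
    simp [Unr.w, hUϖ]
  have hχm : (χ (Units.map (algebraMap F E : F →* E) ϖ) : ℂ) = -1 := by
    rw [hχ2 ϖ (by rintro ⟨z, hz⟩; exact hnn z hz)]
    simp
  rw [hw] at hχm
  rw [hw, ← hUq]
  refine ⟨?_, ?_⟩
  · exact hSat E U n ν H π f hν hπc hπi hf hfK
  · intro x hx hs
    have hsph := hHeci E U n ν H π f x hν hπc hf hfK hs
    have hρ' : ∀ v w s, ρ v (ρ w s) = (Ψ (hJ σ J v w) : ℂ) • ρ (v + w) s := by
      intro v w s
      rw [hρ, hΨt]
    have hc := core hHyp hUniq hSdl hBox hTrans hCnt hWE hMac hHerm hCont hDiv hIntg U σ hUσ J hJs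
      hJ1 hJd Ψ hΨσ hΨ1 hΨ2 μ hμ H π f hfK S ρ hρ' hρc hρi ω hω φ hφ hφK x hx hsph
    refine ⟨hc.1, fun hint => ?_⟩
    rw [hχm]
    exact hc.2 (hc.1.1 hint)

end MPtg.AsmM
end

section
/-! # MP_3d2757_nt : COS (coset representatives of the minuscule double cosets) -/
open Finset MeasureTheory

namespace MPtg

namespace CosM

variable {E : Type} [NormedField E] (U : Unr E) {n : ℕ}

theorem ϖ0 : U.ϖ ≠ 0 := norm_pos_iff.1 U.ϖpos

theorem mem_cS (S : Finset (Fin n)) (c : Fin n → Fin n → E) :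
    c ∈ cS U S ↔ ∀ i j, (i < j ∧ i ∈ S ∧ j ∉ S → c i j ∈ U.rep) ∧
      (¬ (i < j ∧ i ∈ S ∧ j ∉ S) → c i j = 0) := by
  unfold cS
  simp only [Fintype.mem_piFinset]
  refine forall_congr' fun i => forall_congr' fun j => ?_
  by_cases h : i < j ∧ i ∈ S ∧ j ∉ S
  · simp [h]
  · rw [if_neg h]
    simp only [Finset.mem_singleton]
    tauto

variable {U}

theorem cS_norm {S : Finset (Fin n)} {c : Fin n → Fin n → E} (hc : c ∈ cS U S) (i j : Fin n) :
    ‖c i j‖ ≤ 1 := by
  rw [mem_cS] at hc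
  by_cases h : i < j ∧ i ∈ S ∧ j ∉ S
  · exact U.rep_int _ ((hc i j).1 h)
  · rw [(hc i j).2 h]
    simp

theorem tm_mulVec (ϖ : E) (S : Finset (Fin n)) (c : Fin n → Fin n → E) (x : Fin n → E)
    (i : Fin n) :
    (tm ϖ S c).mulVec x i = (if i ∈ S then ϖ else 1) * x i + ∑ j, c i j * x j := by
  simp [tm, Matrix.mulVec, dotProduct, add_mul, Finset.sum_add_distrib]

theorem det_tm {S : Finset (Fin n)} {c : Fin n → Fin n → E} (hc : c ∈ cS U S) :
    (tm U.ϖ S c).det = U.ϖ ^ S.card := by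
  rw [mem_cS] at hc
  have h : (tm U.ϖ S c).BlockTriangular id := by
    intro i j hij
    simp only [id] at hij
    have h1 : ¬ (i < j ∧ i ∈ S ∧ j ∉ S) := fun h => absurd h.1 (not_lt.2 hij.le)
    simp [tm, (hc i j).2 h1, (ne_of_gt hij)]
  rw [Matrix.det_of_isUpperTriangular h]
  have h2 : ∀ i, tm U.ϖ S c i i = if i ∈ S then U.ϖ else 1 := by
    intro i
    have h1 : ¬ (i < i ∧ i ∈ S ∧ i ∉ S) := fun h => absurd h.1 (lt_irrefl _)
    simp [tm, (hc i i).2 h1]
  simp only [h2]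
  rw [Finset.prod_ite_mem, Finset.univ_inter, Finset.prod_const]

open Classical in
/-- the coset representative -/
noncomputable def T (U : Unr E) (S : Finset (Fin n)) (c : Fin n → Fin n → E) : GL (Fin n) E :=
  if h : (tm U.ϖ S c).det ≠ 0 then Matrix.GeneralLinearGroup.mkOfDetNeZero _ h else 1

theorem T_val {S : Finset (Fin n)} {c : Fin n → Fin n → E} (hc : c ∈ cS U S) :
    (T U S c : Matrix (Fin n) (Fin n) E) = tm U.ϖ S c := by
  have h : (tm U.ϖ S c).det ≠ 0 := by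
    rw [det_tm hc]
    exact pow_ne_zero _ (ϖ0 U)
  unfold T
  rw [dif_pos h]
  rfl

theorem norm_det_le (U : Unr E) (A : Matrix (Fin n) (Fin n) E) (hA : ∀ i j, ‖A i j‖ ≤ 1) :
    ‖A.det‖ ≤ 1 := by
  rw [Matrix.det_apply]
  refine AsmM.norm_sum_le_of U _ _ 1 zero_le_one fun w _ => ?_
  have h1 : ‖∏ i, A (w i) i‖ ≤ 1 := by
    rw [norm_prod]
    exact Finset.prod_le_one (fun i _ => norm_nonneg _) fun i _ => hA _ _
  rcases Int.units_eq_one_or (Equiv.Perm.sign w) with h | h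
  · rw [h, one_smul]
    exact h1
  · rw [h, Units.neg_smul, one_smul, norm_neg]
    exact h1

theorem norm_det_KS (U : Unr E) {k : GL (Fin n) E} (hk : k ∈ KS E n) :
    ‖(k : Matrix (Fin n) (Fin n) E).det‖ = 1 := by
  have h1 := norm_det_le U _ hk.1
  have h2 := norm_det_le U _ hk.2
  have h3 : ‖(k : Matrix (Fin n) (Fin n) E).det‖ *
      ‖((k⁻¹ : GL (Fin n) E) : Matrix (Fin n) (Fin n) E).det‖ = 1 := by
    rw [← norm_mul, ← Matrix.det_mul, ← Units.val_mul]
    simp
  nlinarith [norm_nonneg (k : Matrix (Fin n) (Fin n) E).det,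
    norm_nonneg ((k⁻¹ : GL (Fin n) E) : Matrix (Fin n) (Fin n) E).det]

/-- lattices between `ϖ M` and `M` are echelon -/
theorem echelon (U : Unr E) (L : AddSubgroup (Fin n → E))
    (hO : ∀ x : E, ‖x‖ ≤ 1 → ∀ v ∈ L, x • v ∈ L) (hM : ∀ v ∈ L, ∀ i, ‖v i‖ ≤ 1)
    (hw : ∀ v : Fin n → E, (∀ i, ‖v i‖ < 1) → v ∈ L) :
    ∃ S : Finset (Fin n), ∃ c ∈ cS U S, ∀ v, v ∈ L ↔
      ∃ x : Fin n → E, (∀ i, ‖x i‖ ≤ 1) ∧ v = (tm U.ϖ S c).mulVec x := by
  classical
  let P : Fin n → Prop := fun j => ∃ v ∈ L, v j = 1 ∧ ∀ i, j < i → v i = 0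
  let S : Finset (Fin n) := univ.filter fun j => ¬ P j
  have hS : ∀ j, j ∉ S ↔ P j := by
    intro j
    simp [S]
  -- reduction of the basis vectors
  have h1 : ∀ j, j ∉ S → ∀ m : ℕ, m ≤ j → ∃ v ∈ L, v j = 1 ∧ (∀ i, j < i → v i = 0) ∧
      ∀ i, i < j → j.val - m ≤ i.val → (i ∉ S → v i = 0) ∧ (i ∈ S → v i ∈ U.rep) := by
    intro j hj m
    induction m with
    | zero =>
      intro _
      obtain ⟨v, hv, h1, h2⟩ := (hS j).1 hj
      refine ⟨v, hv, h1, h2, fun i hi hi' => ?_⟩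
      have : i.val < j.val := hi
      omega
    | succ m ih =>
      intro hm
      obtain ⟨v, hv, h1, h2, h3⟩ := ih (by omega)
      have hi0 : j.val - (m + 1) < n := lt_of_le_of_lt (Nat.sub_le _ _) j.2
      let i0 : Fin n := ⟨j.val - (m + 1), hi0⟩
      have hi0j : i0 < j := by
        change j.val - (m + 1) < j.val
        omega
      by_cases hi : i0 ∈ S
      · obtain ⟨r, ⟨hr, hr'⟩, _⟩ := U.rep_ex (v i0) (hM v hv i0)
        have hmem : Pi.single i0 (v i0 - r) ∈ L := by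
          refine hw _ fun i => ?_
          by_cases hii : i = i0
          · subst hii
            simpa using hr'
          · simp [hii]
        refine ⟨v - Pi.single i0 (v i0 - r), L.sub_mem hv hmem, ?_, ?_, ?_⟩
        · simp [h1, (ne_of_gt hi0j)]
        · intro i hij
          have : i ≠ i0 := ne_of_gt (hi0j.trans hij)
          simp [this, h2 i hij]
        · intro i hij hmi
          by_cases hii : i = i0
          · subst hii
            refine ⟨fun h => absurd hi h, fun _ => ?_⟩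
            simpa using hr
          · have : j.val - m ≤ i.val := by
              have : i.val ≠ j.val - (m + 1) := fun h => hii (Fin.ext h)
              omega
            have := h3 i hij this
            simpa [hii] using this
      · obtain ⟨w, hw1, hw2, hw3⟩ := (hS i0).1 hi
        refine ⟨v - v i0 • w, L.sub_mem hv (hO _ (hM v hv i0) w hw1), ?_, ?_, ?_⟩
        · simp [h1, hw3 j hi0j]
        · intro i hij
          simp [h2 i hij, hw3 i (hi0j.trans hij)]
        · intro i hij hmi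
          by_cases hii : i = i0
          · subst hii
            refine ⟨fun _ => ?_, fun h => absurd h hi⟩
            simp [hw2]
          · have h4 : i.val ≠ j.val - (m + 1) := fun h => hii (Fin.ext h)
            have h5 : j.val - m ≤ i.val := by omega
            have h6 : i0 < i := by
              change j.val - (m + 1) < i.val
              omega
            have := h3 i hij h5
            simpa [hw3 i h6] using this
  have h2 : ∀ j, ∃ v : Fin n → E, j ∉ S → v ∈ L ∧ v j = 1 ∧ (∀ i, j < i → v i = 0) ∧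
      ∀ i, i < j → (i ∉ S → v i = 0) ∧ (i ∈ S → v i ∈ U.rep) := by
    intro j
    by_cases hj : j ∈ S
    · exact ⟨0, fun h => absurd hj h⟩
    · obtain ⟨v, a, b, c, d⟩ := h1 j hj j.val le_rfl
      exact ⟨v, fun _ => ⟨a, b, c, fun i hi => d i hi (by omega)⟩⟩
  choose w hw' using h2
  let c : Fin n → Fin n → E := fun i j => if i < j ∧ i ∈ S ∧ j ∉ S then w j i else 0
  have hc : c ∈ cS U S := by
    rw [mem_cS]
    intro i j
    refine ⟨fun h => ?_, fun h => ?_⟩
    · simp only [c, if_pos h]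
      exact ((hw' j h.2.2).2.2.2 i h.1).2 h.2.1
    · simp only [c, if_neg h]
  have hcol : ∀ j, j ∉ S → (tm U.ϖ S c).mulVec (Pi.single j 1) = w j := by
    intro j hj
    funext i
    rw [Matrix.mulVec_single_one]
    change tm U.ϖ S c i j = w j i
    simp only [tm, Matrix.of_apply]
    obtain ⟨_, a1, a2, a3⟩ := hw' j hj
    rcases lt_trichotomy i j with h | h | h
    · rw [if_neg (ne_of_lt h), zero_add]
      by_cases hi : i ∈ S
      · simp [c, h, hi, hj]
      · simp [c, hi, (a3 i h).1 hi]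
    · subst h
      simp [c, hj, a1]
    · rw [if_neg (ne_of_gt h), zero_add]
      have : ¬ (i < j ∧ i ∈ S ∧ j ∉ S) := fun h' => absurd h'.1 (not_lt.2 h.le)
      simp only [c, if_neg this, a2 i h]
  have hcol' : ∀ j, j ∈ S → (tm U.ϖ S c).mulVec (Pi.single j 1) = Pi.single j U.ϖ := by
    intro j hj
    funext i
    rw [Matrix.mulVec_single_one]
    change tm U.ϖ S c i j = _
    simp only [tm, Matrix.of_apply]
    by_cases h : i = j
    · subst h
      simp [c, hj]
    · simp [c, hj, h]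
  have hin : ∀ x : Fin n → E, (∀ i, ‖x i‖ ≤ 1) → (tm U.ϖ S c).mulVec x ∈ L := by
    intro x hx
    have e : x = ∑ j, x j • (Pi.single j (1 : E) : Fin n → E) := by
      funext i
      simp [Finset.sum_apply, Pi.single_apply]
    rw [e, Matrix.mulVec_sum]
    refine AddSubgroup.sum_mem _ fun j _ => ?_
    rw [Matrix.mulVec_smul]
    refine hO _ (hx j) _ ?_
    by_cases hj : j ∈ S
    · rw [hcol' j hj]
      refine hw _ fun i => ?_
      by_cases h : i = j
      · subst h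
        simpa using U.ϖlt
      · simp [h]
    · rw [hcol j hj]
      exact (hw' j hj).1
  refine ⟨S, c, hc, fun v => ⟨fun hv => ?_, ?_⟩⟩
  · -- the vector minus its components
    let y : Fin n → E := fun j => if j ∈ S then 0 else v j
    have hy : ∀ i, ‖y i‖ ≤ 1 := by
      intro i
      by_cases h : i ∈ S
      · simp [y, h]
      · simpa [y, h] using hM v hv i
    have hv' : v - (tm U.ϖ S c).mulVec y ∈ L := L.sub_mem hv (hin y hy)
    set v' := v - (tm U.ϖ S c).mulVec y with hv'def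
    have hv'S : ∀ j, j ∉ S → v' j = 0 := by
      intro j hj
      rw [hv'def, Pi.sub_apply, tm_mulVec]
      have : ∀ l, c j l = 0 := by
        intro l
        have : ¬ (j < l ∧ j ∈ S ∧ l ∉ S) := fun h => hj h.2.1
        simp only [c, if_neg this]
      simp [this, hj, y]
    have hlt : ∀ i, ‖v' i‖ < 1 := by
      by_contra hcon
      push Not at hcon
      let B : Finset (Fin n) := univ.filter fun i => 1 ≤ ‖v' i‖
      have hB : B.Nonempty := by
        obtain ⟨i, hi⟩ := hcon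
        exact ⟨i, by simp [B, hi]⟩
      let i := B.max' hB
      have hiB : 1 ≤ ‖v' i‖ := by
        have := B.max'_mem hB
        simpa [B] using this
      have hi1 : ‖v' i‖ = 1 := le_antisymm (hM _ hv' i) hiB
      have hgt : ∀ l, i < l → ‖v' l‖ < 1 := by
        intro l hl
        by_contra h
        push Not at h
        have : l ≤ i := B.le_max' l (by simp [B, h])
        exact absurd hl (not_lt.2 this)
      have hiS : i ∈ S := by
        by_contra h
        rw [hv'S i h] at hi1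
        simp at hi1
      have h0 : v' i ≠ 0 := by
        intro h
        rw [h] at hi1
        simp at hi1
      have : P i := by
        let z : Fin n → E := fun l => if i < l then v' l else 0
        have hz : z ∈ L := by
          refine hw _ fun l => ?_
          by_cases h : i < l
          · simpa [z, h] using hgt l h
          · simp [z, h]
        refine ⟨(v' i)⁻¹ • (v' - z), hO _ (by simp [hi1]) _ (L.sub_mem hv' hz), ?_, ?_⟩
        · simp [z, h0]
        · intro l hl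
          simp [z, hl]
      exact (hS i).2 this hiS
    have hϖ := ϖ0 U
    refine ⟨fun i => y i + U.ϖ⁻¹ * v' i, fun i => ?_, ?_⟩
    · refine (U.ultra _ _).trans (max_le (hy i) ?_)
      by_cases h : v' i = 0
      · simp [h]
      · obtain ⟨k, hk⟩ := U.disc _ h
        rw [norm_mul, norm_inv, hk]
        have hk1 : 1 ≤ k := by
          by_contra hk'
          push Not at hk'
          have h1 := hlt i
          rw [hk] at h1
          have : 1 ≤ ‖U.ϖ‖ ^ k := one_le_zpow_of_nonpos₀ U.ϖpos U.ϖlt.le (by omega)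
          linarith
        rw [← zpow_neg_one, ← zpow_add₀ U.ϖpos.ne']
        exact zpow_le_one₀ U.ϖpos U.ϖlt.le (by omega)
    · funext i
      have e2 : (fun i => y i + U.ϖ⁻¹ * v' i) = y + fun i => U.ϖ⁻¹ * v' i := rfl
      rw [e2, Matrix.mulVec_add, Pi.add_apply, tm_mulVec U.ϖ S c (fun i => U.ϖ⁻¹ * v' i)]
      have e3 : ∑ j, c i j * (U.ϖ⁻¹ * v' j) = 0 := by
        refine Finset.sum_eq_zero fun j _ => ?_
        by_cases hj : j ∈ S
        · have : ¬ (i < j ∧ i ∈ S ∧ j ∉ S) := fun h => h.2.2 hj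
          simp only [c, if_neg this, zero_mul]
        · rw [hv'S j hj]
          simp
      rw [e3]
      have e4 : v i = (tm U.ϖ S c).mulVec y i + v' i := by
        rw [hv'def]
        simp
      rw [e4]
      by_cases hi : i ∈ S
      · rw [if_pos hi]
        field_simp
        ring
      · rw [hv'S i hi]
        simp
  · rintro ⟨x, hx, rfl⟩
    exact hin x hx

/-- lattices of the representatives: coordinates outside `S` -/
theorem mulVec_notMem {S : Finset (Fin n)} {c : Fin n → Fin n → E} (hc : c ∈ cS U S)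
    (x : Fin n → E) {j : Fin n} (hj : j ∉ S) : (tm U.ϖ S c).mulVec x j = x j := by
  rw [mem_cS] at hc
  rw [tm_mulVec, if_neg hj]
  have : ∀ l, c j l = 0 := fun l => (hc j l).2 fun h => hj h.2.1
  simp [this]

/-- coordinates in `S` -/
theorem mulVec_mem {S : Finset (Fin n)} {c : Fin n → Fin n → E} (hc : c ∈ cS U S)
    (x : Fin n → E) {j : Fin n} (hj : j ∈ S) (hx : ∀ l, l ∉ S → j < l → x l = 0) :
    (tm U.ϖ S c).mulVec x j = U.ϖ * x j := by
  rw [mem_cS] at hc
  rw [tm_mulVec, if_pos hj]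
  have : ∀ l, c j l * x l = 0 := by
    intro l
    by_cases h : j < l ∧ j ∈ S ∧ l ∉ S
    · rw [hx l h.2.2 h.1, mul_zero]
    · rw [(hc j l).2 h, zero_mul]
  simp [this]

theorem col_mem {S : Finset (Fin n)} {c : Fin n → Fin n → E}
    {j : Fin n} (hj : j ∉ S) (i : Fin n) :
    (tm U.ϖ S c).mulVec (Pi.single j 1) i = (if i = j then 1 else 0) + c i j := by
  rw [Matrix.mulVec_single_one]
  change tm U.ϖ S c i j = _
  simp only [tm, Matrix.of_apply]
  by_cases h : i = j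
  · subst h
    simp [hj]
  · simp [h]

/-- the lattices of the representatives determine the parameters -/
theorem uniq {S S' : Finset (Fin n)} {c c' : Fin n → Fin n → E} (hc : c ∈ cS U S)
    (hc' : c' ∈ cS U S')
    (h : ∀ v : Fin n → E, (∃ x : Fin n → E, (∀ i, ‖x i‖ ≤ 1) ∧ v = (tm U.ϖ S c).mulVec x) ↔
      ∃ x : Fin n → E, (∀ i, ‖x i‖ ≤ 1) ∧ v = (tm U.ϖ S' c').mulVec x) : S = S' ∧ c = c' := by
  classical
  have hsingle : ∀ j i : Fin n, ‖(Pi.single j (1 : E) : Fin n → E) i‖ ≤ 1 := by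
    intro j i
    by_cases h : i = j
    · subst h; simp
    · simp [h]
  have key : ∀ (S S' : Finset (Fin n)) (c c' : Fin n → Fin n → E), c ∈ cS U S → c' ∈ cS U S' →
      (∀ v : Fin n → E, (∃ x : Fin n → E, (∀ i, ‖x i‖ ≤ 1) ∧ v = (tm U.ϖ S c).mulVec x) →
      ∃ x : Fin n → E, (∀ i, ‖x i‖ ≤ 1) ∧ v = (tm U.ϖ S' c').mulVec x) →
      ∀ j, j ∉ S → j ∉ S' := by
    intro S S' c c' hc hc' h j hj hj'
    obtain ⟨x, hx, hv⟩ := h _ ⟨Pi.single j 1, hsingle j, rfl⟩
    have hcm := (mem_cS U S c).1 hc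
    have h1 : ∀ l, l ∉ S' → j < l → x l = 0 := by
      intro l hl hjl
      rw [← mulVec_notMem hc' x hl, ← hv, col_mem hj, if_neg (ne_of_gt hjl), zero_add]
      exact (hcm l j).2 fun h => absurd h.1 (not_lt.2 hjl.le)
    have h2 := mulVec_mem hc' x hj' h1
    rw [← hv, col_mem hj, if_pos rfl] at h2
    rw [(hcm j j).2 fun h => absurd h.1 (lt_irrefl _), add_zero] at h2
    have h3 : ‖U.ϖ * x j‖ = 1 := by rw [← h2]; simp
    rw [norm_mul] at h3
    have := U.ϖlt
    have := U.ϖpos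
    have := hx j
    nlinarith [norm_nonneg (x j)]
  have hSS : S = S' := by
    ext j
    constructor
    · intro hj
      by_contra hcon
      exact key S' S c' c hc' hc (fun v => (h v).2) j hcon hj
    · intro hj
      by_contra hcon
      exact key S S' c c' hc hc' (fun v => (h v).1) j hcon hj
  subst hSS
  refine ⟨rfl, ?_⟩
  funext i j
  have hcm := (mem_cS U S c).1 hc
  have hcm' := (mem_cS U S c').1 hc'
  by_cases hij : i < j ∧ i ∈ S ∧ j ∉ S
  · obtain ⟨x, hx, hv⟩ := (h _).1 ⟨Pi.single j 1, hsingle j, rfl⟩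
    have h1 : (tm U.ϖ S c).mulVec (Pi.single j 1) - (tm U.ϖ S c').mulVec (Pi.single j 1) =
        (tm U.ϖ S c').mulVec (x - Pi.single j 1) := by
      rw [hv, Matrix.mulVec_sub]
    have h2 : ∀ l, l ∉ S → (x - Pi.single j 1 : Fin n → E) l = 0 := by
      intro l hl
      rw [← mulVec_notMem hc' (x - Pi.single j 1) hl, ← h1, Pi.sub_apply, col_mem hij.2.2,
        col_mem hij.2.2]
      rw [(hcm l j).2 fun h => hl h.2.1, (hcm' l j).2 fun h => hl h.2.1]
      ring
    have h3 := congrFun h1 i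
    rw [mulVec_mem hc' _ hij.2.1 (fun l hl _ => h2 l hl), Pi.sub_apply, col_mem hij.2.2,
      col_mem hij.2.2] at h3
    have h4 : c i j - c' i j = U.ϖ * (x - Pi.single j 1 : Fin n → E) i := by
      rw [← h3]; ring
    have h5 : ‖c i j - c' i j‖ < 1 := by
      rw [h4, norm_mul]
      have h6 : ‖(x - Pi.single j 1 : Fin n → E) i‖ ≤ 1 := by
        rw [Pi.sub_apply, sub_eq_add_neg]
        refine (U.ultra _ _).trans (max_le (hx i) ?_)
        rw [norm_neg]
        exact hsingle j i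
      calc ‖U.ϖ‖ * _ ≤ ‖U.ϖ‖ * 1 := mul_le_mul_of_nonneg_left h6 (norm_nonneg _)
        _ < 1 := by rw [mul_one]; exact U.ϖlt
    have h7 := U.rep_ex (c i j) (cS_norm hc i j)
    exact h7.unique ⟨(hcm i j).1 hij, by simp⟩ ⟨(hcm' i j).1 hij, h5⟩
  · rw [(hcm i j).2 hij, (hcm' i j).2 hij]

/-- the lattice `g M` -/
noncomputable def lat (g : GL (Fin n) E) (U : Unr E) : AddSubgroup (Fin n → E) :=
  (AsmM.ML U n).comap
    ((AsmM.eGL E n g⁻¹ : (Fin n → E) ≃ₗ[E] (Fin n → E)).toAddEquiv.toAddMonoidHom)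

theorem mem_lat (g : GL (Fin n) E) (U : Unr E) (v : Fin n → E) :
    v ∈ lat g U ↔ ((g⁻¹ : GL (Fin n) E) : Matrix (Fin n) (Fin n) E).mulVec v ∈ AsmM.ML U n :=
  Iff.rfl

theorem inv_mulVec (g : GL (Fin n) E) (v : Fin n → E) :
    ((g⁻¹ : GL (Fin n) E) : Matrix (Fin n) (Fin n) E).mulVec
      ((g : Matrix (Fin n) (Fin n) E).mulVec v) = v := by
  rw [Matrix.mulVec_mulVec, ← Units.val_mul]
  simp

theorem mulVec_inv (g : GL (Fin n) E) (v : Fin n → E) :
    (g : Matrix (Fin n) (Fin n) E).mulVec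
      (((g⁻¹ : GL (Fin n) E) : Matrix (Fin n) (Fin n) E).mulVec v) = v := by
  rw [Matrix.mulVec_mulVec, ← Units.val_mul]
  simp

theorem mem_lat' (g : GL (Fin n) E) (U : Unr E) (v : Fin n → E) :
    v ∈ lat g U ↔ ∃ x : Fin n → E, (∀ i, ‖x i‖ ≤ 1) ∧
      v = (g : Matrix (Fin n) (Fin n) E).mulVec x := by
  rw [mem_lat, AsmM.mem_ML]
  constructor
  · intro h
    exact ⟨_, h, (mulVec_inv g v).symm⟩
  · rintro ⟨x, hx, rfl⟩
    rw [inv_mulVec]
    exact hx

theorem lat_eq_iff (U : Unr E) (g g' : GL (Fin n) E) :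
    lat g U = lat g' U ↔ g⁻¹ * g' ∈ KS E n := by
  rw [AsmM.mem_KS_iff U]
  constructor
  · intro h v
    have h1 : (g' : Matrix (Fin n) (Fin n) E).mulVec v ∈ lat g' U ↔ v ∈ AsmM.ML U n := by
      rw [mem_lat, inv_mulVec]
    rw [← h1, ← h, mem_lat, Matrix.mulVec_mulVec, ← Units.val_mul]
  · intro h
    ext v
    have h1 := h (((g'⁻¹ : GL (Fin n) E) : Matrix (Fin n) (Fin n) E).mulVec v)
    rw [Matrix.mulVec_mulVec, ← Units.val_mul, mul_inv_cancel_right] at h1
    rw [mem_lat, mem_lat]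
    exact h1.symm

/-- permutation matrices -/
noncomputable def PP (E : Type) [NormedField E] {n : ℕ} (w : Equiv.Perm (Fin n)) :
    GL (Fin n) E :=
  (AsmM.eGL E n).symm (LinearEquiv.funCongrLeft E E w)

theorem PP_mulVec (w : Equiv.Perm (Fin n)) (v : Fin n → E) :
    (PP E w : Matrix (Fin n) (Fin n) E).mulVec v = fun i => v (w i) := by
  rw [← AsmM.eGL_apply, PP, MulEquiv.apply_symm_apply]
  rfl

theorem PP_mem (U : Unr E) (w : Equiv.Perm (Fin n)) : PP E w ∈ KS E n := by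
  rw [AsmM.mem_KS_iff U]
  intro v
  rw [PP_mulVec, AsmM.mem_ML, AsmM.mem_ML]
  constructor
  · intro h i
    exact h (w i)
  · intro h i
    have := h (w.symm i)
    simpa using this

/-- unipotent matrices -/
def un {S : Finset (Fin n)} {c : Fin n → Fin n → E} (hc : c ∈ cS U S) : GL (Fin n) E where
  val := 1 + Matrix.of c
  inv := 1 - Matrix.of c
  val_inv := by
    have h : Matrix.of c * Matrix.of c = 0 := by
      ext i j
      rw [Matrix.mul_apply]
      refine Finset.sum_eq_zero fun l _ => ?_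
      rw [mem_cS] at hc
      by_cases hl : l ∈ S
      · have : c i l = 0 := (hc i l).2 fun h => h.2.2 hl
        simp [this]
      · have : c l j = 0 := (hc l j).2 fun h => hl h.2.1
        simp [this]
    have e : (1 + Matrix.of c) * (1 - Matrix.of c) = 1 - Matrix.of c * Matrix.of c := by
      noncomm_ring
    rw [e, h, sub_zero]
  inv_val := by
    have h : Matrix.of c * Matrix.of c = 0 := by
      ext i j
      rw [Matrix.mul_apply]
      refine Finset.sum_eq_zero fun l _ => ?_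
      rw [mem_cS] at hc
      by_cases hl : l ∈ S
      · have : c i l = 0 := (hc i l).2 fun h => h.2.2 hl
        simp [this]
      · have : c l j = 0 := (hc l j).2 fun h => hl h.2.1
        simp [this]
    have e : (1 - Matrix.of c) * (1 + Matrix.of c) = 1 - Matrix.of c * Matrix.of c := by
      noncomm_ring
    rw [e, h, sub_zero]

theorem un_mem {S : Finset (Fin n)} {c : Fin n → Fin n → E} (hc : c ∈ cS U S) :
    un hc ∈ KS E n := by
  have h1 : ∀ i j : Fin n, ‖(1 : Matrix (Fin n) (Fin n) E) i j‖ ≤ 1 := by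
    intro i j
    by_cases h : i = j
    · subst h; simp
    · rw [Matrix.one_apply_ne h]; simp
  refine ⟨fun i j => ?_, fun i j => ?_⟩
  · change ‖(1 : Matrix (Fin n) (Fin n) E) i j + c i j‖ ≤ 1
    exact (U.ultra _ _).trans (max_le (h1 i j) (cS_norm hc i j))
  · change ‖(1 : Matrix (Fin n) (Fin n) E) i j - c i j‖ ≤ 1
    rw [sub_eq_add_neg]
    refine (U.ultra _ _).trans (max_le (h1 i j) ?_)
    rw [norm_neg]
    exact cS_norm hc i j

theorem ext_mulVec {g g' : GL (Fin n) E} (h : ∀ v, (g : Matrix (Fin n) (Fin n) E).mulVec v =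
    (g' : Matrix (Fin n) (Fin n) E).mulVec v) : g = g' := by
  apply Units.ext
  exact Matrix.ext_of_mulVec_single fun i => h _

/-- a permutation which moves the first `r` indices to `S` -/
theorem exists_w (S : Finset (Fin n)) (r : ℕ) (hr : r ≤ n) (hS : S.card = r) :
    ∃ w : Equiv.Perm (Fin n), ∀ i, w i ∈ S ↔ (i : ℕ) < r := by
  classical
  have h1 : Fintype.card {i : Fin n // (i : ℕ) < r} = Fintype.card {i // i ∈ S} := by
    rw [Fintype.card_coe, hS, Fintype.card_subtype]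
    have : (univ.filter fun i : Fin n => (i : ℕ) < r) =
        (univ : Finset (Fin r)).map (Fin.castLEEmb hr) := by
      ext i
      simp only [mem_filter, mem_univ, true_and, mem_map]
      constructor
      · intro h
        exact ⟨⟨i, h⟩, rfl⟩
      · rintro ⟨j, rfl⟩
        exact j.2
    rw [this, card_map, card_univ, Fintype.card_fin]
  let e := Fintype.equivOfCardEq h1
  refine ⟨e.extendSubtype, fun i => ⟨fun h => ?_, fun h => ?_⟩⟩
  · by_contra hcon
    exact e.extendSubtype_not_mem i hcon h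
  · exact e.extendSubtype_mem i h

theorem T_mem_Dr {S : Finset (Fin n)} {c : Fin n → Fin n → E} (hc : c ∈ cS U S) {r : ℕ}
    (hr : r ≤ n) (hS : S.card = r) : T U S c ∈ Dr U.w n r := by
  obtain ⟨w, hw⟩ := exists_w S r hr hS
  refine ⟨un hc * (PP E w)⁻¹, AsmM.KS_mul U (un_mem hc) (AsmM.KS_inv (PP_mem U w)), PP E w,
    PP_mem U w, ?_⟩
  have h1 : (PP E w)⁻¹ * dg U.w (om n r) * PP E w = (PP E w)⁻¹ * (dg U.w (om n r) * PP E w) :=
    mul_assoc _ _ _
  have key : ∀ v i, (((PP E w)⁻¹ * (dg U.w (om n r) * PP E w) : GL (Fin n) E) :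
      Matrix (Fin n) (Fin n) E).mulVec v i = (if i ∈ S then U.ϖ else 1) * v i := by
    intro v
    have h2 : ∀ z : Fin n → E, (((PP E w)⁻¹ : GL (Fin n) E) : Matrix (Fin n) (Fin n) E).mulVec z =
        fun i => z (w.symm i) := by
      intro z
      have h3 : (PP E w : Matrix (Fin n) (Fin n) E).mulVec (fun i => z (w.symm i)) = z := by
        rw [PP_mulVec]
        simp
      conv_lhs => rw [← h3]
      rw [inv_mulVec]
    intro i
    rw [Units.val_mul, ← Matrix.mulVec_mulVec, h2, Units.val_mul, ← Matrix.mulVec_mulVec]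
    beta_reduce
    rw [AsmM.dg_mulVec, PP_mulVec]
    have h4 := hw (w.symm i)
    simp only [Equiv.apply_symm_apply] at h4 ⊢
    unfold om
    by_cases hi : i ∈ S
    · rw [if_pos hi, if_pos (h4.1 hi), zpow_one]
    · rw [if_neg hi, if_neg (fun h => hi (h4.2 h)), zpow_zero]
  apply ext_mulVec
  intro v
  have h5 : un hc * (PP E w)⁻¹ * dg U.w (om n r) * PP E w =
      un hc * ((PP E w)⁻¹ * (dg U.w (om n r) * PP E w)) := by group
  rw [h5, T_val hc, Units.val_mul, ← Matrix.mulVec_mulVec]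
  funext i
  change _ = (1 + Matrix.of c).mulVec _ i
  rw [Matrix.add_mulVec, Matrix.one_mulVec, Pi.add_apply, tm_mulVec, key]
  congr 1
  rw [Matrix.mulVec, dotProduct]
  refine Finset.sum_congr rfl fun j _ => ?_
  rw [key, Matrix.of_apply]
  rw [mem_cS] at hc
  by_cases hj : j ∈ S
  · rw [(hc i j).2 fun h => h.2.2 hj]
    simp
  · rw [if_neg hj, one_mul]

theorem Dr_mem (U : Unr E) {r : ℕ} (hr : r ≤ n) {g : GL (Fin n) E} (hg : g ∈ Dr U.w n r) :
    ∃ S ∈ powersetCard r (univ : Finset (Fin n)), ∃ c ∈ cS U S, ∃ k ∈ KS E n,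
      g = T U S c * k := by
  obtain ⟨k₁, hk₁, k₂, hk₂, rfl⟩ := hg
  set g := k₁ * dg U.w (om n r) * k₂ with hgdef
  have hϖ := U.ϖpos
  have hϖ1 := U.ϖlt
  have hdg : ∀ x : Fin n → E, x ∈ AsmM.ML U n →
      ((dg U.w (om n r) : GL (Fin n) E) : Matrix (Fin n) (Fin n) E).mulVec x ∈ AsmM.ML U n := by
    intro x hx
    rw [AsmM.mem_ML] at hx ⊢
    intro i
    rw [AsmM.dg_mulVec, norm_mul, norm_zpow]
    refine mul_le_one₀ ?_ (norm_nonneg _) (hx i)
    unfold om
    split_ifs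
    · rw [zpow_one]; exact hϖ1.le
    · simp
  have hk : ∀ {k : GL (Fin n) E}, k ∈ KS E n → ∀ x, x ∈ AsmM.ML U n ↔
      (k : Matrix (Fin n) (Fin n) E).mulVec x ∈ AsmM.ML U n := fun h => (AsmM.mem_KS_iff U _).1 h
  have hO' : ∀ x : E, ‖x‖ ≤ 1 → ∀ v ∈ lat g U, x • v ∈ lat g U := by
    intro x hx v hv
    rw [mem_lat, AsmM.mem_ML] at hv ⊢
    intro i
    rw [Matrix.mulVec_smul, Pi.smul_apply, smul_eq_mul, norm_mul]
    exact mul_le_one₀ hx (norm_nonneg _) (hv i)
  have hM' : ∀ v ∈ lat g U, ∀ i, ‖v i‖ ≤ 1 := by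
    intro v hv
    rw [mem_lat'] at hv
    obtain ⟨x, hx, rfl⟩ := hv
    rw [← AsmM.mem_ML, hgdef, Units.val_mul, Units.val_mul, ← Matrix.mulVec_mulVec,
      ← Matrix.mulVec_mulVec, ← hk hk₁]
    apply hdg
    rw [← hk hk₂, AsmM.mem_ML]
    exact hx
  have hw' : ∀ v : Fin n → E, (∀ i, ‖v i‖ < 1) → v ∈ lat g U := by
    intro v hv
    rw [mem_lat, hgdef, mul_inv_rev, mul_inv_rev, Units.val_mul, Units.val_mul,
      ← Matrix.mulVec_mulVec, ← Matrix.mulVec_mulVec, ← hk (AsmM.KS_inv hk₂)]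
    have h1 : ∀ u : Fin n → E, (∀ i, ‖u i‖ < 1) → ∀ i, ‖U.ϖ⁻¹ * u i‖ ≤ 1 := by
      intro u hu i
      by_cases h : u i = 0
      · simp [h]
      · obtain ⟨k, hk⟩ := U.disc _ h
        rw [norm_mul, norm_inv, hk]
        have hk1 : 1 ≤ k := by
          by_contra hk'
          push Not at hk'
          have h1 := hu i
          rw [hk] at h1
          have : 1 ≤ ‖U.ϖ‖ ^ k := one_le_zpow_of_nonpos₀ U.ϖpos U.ϖlt.le (by omega)
          linarith
        rw [← zpow_neg_one, ← zpow_add₀ U.ϖpos.ne']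
        exact zpow_le_one₀ U.ϖpos U.ϖlt.le (by omega)
    -- `v = ϖ v'` with `v'` integral
    have h2 : v = U.ϖ • fun i => U.ϖ⁻¹ * v i := by
      funext i
      simp [ϖ0 U]
    have h3 : (fun i => U.ϖ⁻¹ * v i) ∈ AsmM.ML U n := by
      rw [AsmM.mem_ML]
      exact h1 v hv
    rw [h2, Matrix.mulVec_smul]
    have h4 := (hk (AsmM.KS_inv hk₁) _).1 h3
    set z := ((k₁⁻¹ : GL (Fin n) E) : Matrix (Fin n) (Fin n) E).mulVec fun i => U.ϖ⁻¹ * v i
    have h5 : (dg U.w (om n r) : GL (Fin n) E)⁻¹ = dg U.w (-om n r) := by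
      rw [inv_eq_iff_mul_eq_one]
      apply ext_mulVec
      intro u
      funext i
      rw [Units.val_mul, ← Matrix.mulVec_mulVec, AsmM.dg_mulVec, AsmM.dg_mulVec, ← mul_assoc,
        ← zpow_add₀ (ϖ0 U)]
      simp
    rw [h5, AsmM.mem_ML]
    rw [AsmM.mem_ML] at h4
    intro i
    rw [AsmM.dg_mulVec, Pi.smul_apply, smul_eq_mul, ← mul_assoc, norm_mul]
    refine mul_le_one₀ ?_ (norm_nonneg _) (h4 i)
    unfold om
    simp only [Pi.neg_apply]
    split_ifs
    · rw [zpow_neg_one, inv_mul_cancel₀ (ϖ0 U)]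
      simp
    · simpa using hϖ1.le
  obtain ⟨S, c, hc, hL⟩ := echelon U (lat g U) hO' hM' hw'
  have hl : lat g U = lat (T U S c) U := by
    ext v
    rw [hL, mem_lat', T_val hc]
  have hkk : (T U S c)⁻¹ * g ∈ KS E n := (lat_eq_iff U _ _).1 hl.symm
  refine ⟨S, ?_, c, hc, _, hkk, (mul_inv_cancel_left _ _).symm⟩
  rw [mem_powersetCard]
  refine ⟨subset_univ _, ?_⟩
  have e : g = T U S c * ((T U S c)⁻¹ * g) := (mul_inv_cancel_left _ _).symm
  have h1 : ‖(g : Matrix (Fin n) (Fin n) E).det‖ = ‖U.ϖ‖ ^ S.card := by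
    rw [e, Units.val_mul, Matrix.det_mul, norm_mul, norm_det_KS U hkk, mul_one, T_val hc,
      det_tm hc, norm_pow]
  have h2 : ‖(g : Matrix (Fin n) (Fin n) E).det‖ = ‖U.ϖ‖ ^ r := by
    rw [hgdef, Units.val_mul, Units.val_mul, Matrix.det_mul, Matrix.det_mul, norm_mul, norm_mul,
      norm_det_KS U hk₁, norm_det_KS U hk₂, one_mul, mul_one]
    change ‖(Matrix.diagonal fun i => ((U.w ^ (om n r i) : Eˣ) : E)).det‖ = _
    rw [Matrix.det_diagonal, norm_prod]
    have : ∀ i : Fin n, ‖((U.w ^ (om n r i) : Eˣ) : E)‖ = if (i : ℕ) < r then ‖U.ϖ‖ else 1 := by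
      intro i
      unfold om
      split_ifs
      · rw [zpow_one]; rfl
      · simp
    simp only [this]
    rw [Finset.prod_ite, Finset.prod_const, Finset.prod_const_one, mul_one]
    congr 1
    have : (univ.filter fun i : Fin n => (i : ℕ) < r) =
        (univ : Finset (Fin r)).map (Fin.castLEEmb hr) := by
      ext i
      simp only [mem_filter, mem_univ, true_and, mem_map]
      constructor
      · intro h
        exact ⟨⟨i, h⟩, rfl⟩
      · rintro ⟨j, rfl⟩
        exact j.2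
    rw [this, card_map, card_univ, Fintype.card_fin]
  rw [h1] at h2
  exact (pow_right_injective₀ hϖ hϖ1.ne) h2

theorem spec_T (U : Unr E) (n : ℕ) :
    (∀ S : Finset (Fin n), ∀ c ∈ cS U S, (T U S c : Matrix (Fin n) (Fin n) E) = tm U.ϖ S c) ∧
      (∀ r ≤ n, ∀ g, g ∈ Dr U.w n r ↔
        ∃ S ∈ powersetCard r (univ : Finset (Fin n)), ∃ c ∈ cS U S, ∃ k ∈ KS E n,
          g = T U S c * k) ∧
      (∀ S S' : Finset (Fin n), ∀ c ∈ cS U S, ∀ c' ∈ cS U S', ∀ k ∈ KS E n, ∀ k' ∈ KS E n,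
        T U S c * k = T U S' c' * k' → S = S' ∧ c = c') := by
  refine ⟨fun S c hc => T_val hc, fun r hr g => ⟨Dr_mem U hr, ?_⟩, ?_⟩
  · rintro ⟨S, hS, c, hc, k, hk, rfl⟩
    obtain ⟨k₁, hk₁, k₂, hk₂, h⟩ := T_mem_Dr hc hr (mem_powersetCard.1 hS).2
    exact ⟨k₁, hk₁, k₂ * k, AsmM.KS_mul U hk₂ hk, by rw [h, mul_assoc]⟩
  · intro S S' c hc c' hc' k hk k' hk' h
    apply uniq hc hc'
    have h1 : lat (T U S c) U = lat (T U S' c') U := by
      rw [lat_eq_iff]
      have : (T U S c)⁻¹ * T U S' c' = k * k'⁻¹ := by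
        rw [inv_mul_eq_iff_eq_mul, ← mul_assoc, h, mul_inv_cancel_right]
      rw [this]
      exact AsmM.KS_mul U hk (AsmM.KS_inv hk')
    intro v
    have h2 : v ∈ lat (T U S c) U ↔ v ∈ lat (T U S' c') U := by rw [h1]
    rwa [mem_lat', mem_lat', T_val hc, T_val hc'] at h2

end CosM

theorem specCos : SpecCos := by
  intro E _ U n
  exact ⟨CosM.T U, CosM.spec_T U n⟩

end MPtg
end

section
/-! # MP_3d2757_nt : HECI (Hecke eigenvectors satisfy the spherical recursion) -/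
open Finset MeasureTheory

namespace MPtg

namespace HeciM

variable {E : Type} [NormedField E] (U : Unr E) {n : ℕ}

theorem card_cS (S : Finset (Fin n)) : (cS U S).card = U.q ^ (2 * inv1 S) := by
  classical
  unfold cS
  rw [Fintype.card_piFinset]
  have h1 : ∀ i : Fin n, (Fintype.piFinset fun j => if i < j ∧ i ∈ S ∧ j ∉ S then U.rep else {0}).card
      = ∏ j, if i < j ∧ i ∈ S ∧ j ∉ S then U.q ^ 2 else 1 := by
    intro i
    rw [Fintype.card_piFinset]
    refine Finset.prod_congr rfl fun j _ => ?_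
    split_ifs
    · exact U.rep_card
    · simp
  simp only [h1]
  rw [← Fintype.prod_prod_type' (f := fun i j : Fin n =>
    if i < j ∧ i ∈ S ∧ j ∉ S then U.q ^ 2 else 1)]
  rw [Finset.prod_ite, Finset.prod_const, Finset.prod_const_one, mul_one, ← pow_mul]
  rfl

variable {H : Type} [NormedAddCommGroup H] [InnerProductSpace ℂ H]
  (π : GL (Fin n) E →* (H ≃ₗᵢ[ℂ] H)) (f : H)

theorem biinv (hf : ∀ g ∈ KS E n, π g f = f) {k₁ k₂ : GL (Fin n) E} (h₁ : k₁ ∈ KS E n)
    (h₂ : k₂ ∈ KS E n) (g : GL (Fin n) E) :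
    inner ℂ f (π (k₁ * g * k₂) f) = inner ℂ f (π g f) := by
  rw [map_mul, map_mul]
  change inner ℂ f (π k₁ (π g (π k₂ f))) = _
  rw [hf _ h₂]
  conv_lhs => rw [← hf _ h₁]
  rw [LinearIsometryEquiv.inner_map_map]
  rw [hf _ h₁]

theorem perm_inv (hf : ∀ g ∈ KS E n, π g f = f) (m : Fin n → ℤ) (w : Equiv.Perm (Fin n)) :
    inner ℂ f (π (dg U.w (fun i => m (w i))) f) = inner ℂ f (π (dg U.w m) f) := by
  have e : dg U.w (fun i => m (w i)) = CosM.PP E w * dg U.w m * (CosM.PP E w)⁻¹ := by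
    rw [eq_mul_inv_iff_mul_eq]
    apply CosM.ext_mulVec
    intro v
    funext i
    rw [Units.val_mul, ← Matrix.mulVec_mulVec, Units.val_mul, ← Matrix.mulVec_mulVec,
      AsmM.dg_mulVec, CosM.PP_mulVec, CosM.PP_mulVec]
    beta_reduce
    rw [AsmM.dg_mulVec]
  rw [e]
  exact biinv π f hf (CosM.PP_mem U w) (AsmM.KS_inv (CosM.PP_mem U w)) _

/-- the product `dg L * T S c` -/
theorem coeff_T (hf : ∀ g ∈ KS E n, π g f = f) {L : Fin n → ℤ} (hL : Antitone L)
    {S : Finset (Fin n)} {c : Fin n → Fin n → E} (hc : c ∈ cS U S) :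
    inner ℂ f (π (dg U.w L * CosM.T U S c) f) = inner ℂ f (π (dg U.w (L + eps S)) f) := by
  -- the conjugate unipotent matrix
  have h0 := CosM.ϖ0 U
  have hcm := (CosM.mem_cS U S c).1 hc
  let A : Matrix (Fin n) (Fin n) E := Matrix.of fun i j => U.ϖ ^ (L i - L j) * c i j
  have hAA : A * A = 0 := by
    ext i j
    rw [Matrix.mul_apply]
    refine Finset.sum_eq_zero fun l _ => ?_
    simp only [A, Matrix.of_apply]
    by_cases hl : l ∈ S
    · rw [(hcm i l).2 fun h => h.2.2 hl]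
      simp
    · rw [(hcm l j).2 fun h => hl h.2.1]
      simp
  have e1 : (1 + A) * (1 - A) = 1 := by
    have : (1 + A) * (1 - A) = 1 - A * A := by noncomm_ring
    rw [this, hAA, sub_zero]
  have e2 : (1 - A) * (1 + A) = 1 := by
    have : (1 - A) * (1 + A) = 1 - A * A := by noncomm_ring
    rw [this, hAA, sub_zero]
  let k : GL (Fin n) E := ⟨1 + A, 1 - A, e1, e2⟩
  have hA : ∀ i j, ‖A i j‖ ≤ 1 := by
    intro i j
    simp only [A, Matrix.of_apply]
    by_cases h : i < j ∧ i ∈ S ∧ j ∉ S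
    · rw [norm_mul, norm_zpow]
      refine mul_le_one₀ ?_ (norm_nonneg _) (CosM.cS_norm hc i j)
      exact zpow_le_one₀ U.ϖpos U.ϖlt.le (sub_nonneg.2 (hL h.1.le))
    · rw [(hcm i j).2 h]
      simp
  have h1 : ∀ i j : Fin n, ‖(1 : Matrix (Fin n) (Fin n) E) i j‖ ≤ 1 := by
    intro i j
    by_cases h : i = j
    · subst h; simp
    · rw [Matrix.one_apply_ne h]; simp
  have hk : k ∈ KS E n := by
    refine ⟨fun i j => ?_, fun i j => ?_⟩
    · change ‖(1 : Matrix (Fin n) (Fin n) E) i j + A i j‖ ≤ 1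
      exact (U.ultra _ _).trans (max_le (h1 i j) (hA i j))
    · change ‖(1 : Matrix (Fin n) (Fin n) E) i j - A i j‖ ≤ 1
      rw [sub_eq_add_neg]
      refine (U.ultra _ _).trans (max_le (h1 i j) ?_)
      rw [norm_neg]
      exact hA i j
  have e : dg U.w L * CosM.T U S c = k * dg U.w (L + eps S) * 1 := by
    rw [mul_one]
    apply CosM.ext_mulVec
    intro v
    funext i
    rw [Units.val_mul, ← Matrix.mulVec_mulVec, Units.val_mul, ← Matrix.mulVec_mulVec,
      AsmM.dg_mulVec, CosM.T_val hc, CosM.tm_mulVec]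
    change _ = (1 + A).mulVec _ i
    rw [Matrix.add_mulVec, Matrix.one_mulVec, Pi.add_apply, AsmM.dg_mulVec, mul_add]
    congr 1
    · simp only [Pi.add_apply, eps]
      by_cases hi : i ∈ S
      · rw [if_pos hi, if_pos hi, zpow_add₀ h0, zpow_one]
        ring
      · simp [hi]
    · rw [Matrix.mulVec, dotProduct, Finset.mul_sum]
      refine Finset.sum_congr rfl fun j _ => ?_
      rw [AsmM.dg_mulVec]
      simp only [A, Matrix.of_apply, Pi.add_apply, eps]
      by_cases hj : j ∈ S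
      · rw [(hcm i j).2 fun h => h.2.2 hj]
        simp
      · rw [if_neg hj, add_zero]
        have : U.ϖ ^ L i = U.ϖ ^ (L i - L j) * U.ϖ ^ (L j) := by
          rw [← zpow_add₀ h0]
          simp
        rw [this]
        ring
  rw [e]
  exact biinv π f hf hk AsmM.KS_one _

end HeciM

theorem specHeci : SpecHeci := by
  classical
  intro E _ U n _ _ ν _ H _ _ _ π f x hν hcont hf1 hf hsat
  refine ⟨?_, ?_⟩
  · have h0 : dg U.w (0 : Fin n → ℤ) = 1 := by
      apply CosM.ext_mulVec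
      intro v
      funext i
      rw [AsmM.dg_mulVec]
      simp
    change inner ℂ f (π (dg U.w 0) f) = 1
    rw [h0, map_one]
    change inner ℂ f f = (1 : ℂ)
    rw [inner_self_eq_norm_sq_to_K, hf1]
    simp
  · intro L hL r hr
    have h1 := hsat r hr
    let I : Finset (Σ _ : Finset (Fin n), (Fin n → Fin n → E)) :=
      (powersetCard r (univ : Finset (Fin n))).sigma fun S => cS U S
    let Co : (Σ _ : Finset (Fin n), (Fin n → Fin n → E)) → Set (GL (Fin n) E) :=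
      fun p => (fun g => CosM.T U p.1 p.2 * g) '' KS E n
    obtain ⟨-, hmem, huniq⟩ : (∀ S, ∀ c ∈ cS U S,
      (CosM.T U S c : Matrix (Fin n) (Fin n) E) = tm U.ϖ S c) ∧
      (∀ r ≤ n, ∀ g, g ∈ Dr U.w n r ↔
        ∃ S ∈ powersetCard r (univ : Finset (Fin n)), ∃ c ∈ cS U S, ∃ k ∈ KS E n,
          g = CosM.T U S c * k) ∧
      (∀ S S', ∀ c ∈ cS U S, ∀ c' ∈ cS U S', ∀ k ∈ KS E n, ∀ k' ∈ KS E n,
        CosM.T U S c * k = CosM.T U S' c' * k' → S = S' ∧ c = c') := CosM.spec_T U n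
    have hDr : Dr U.w n r = ⋃ p ∈ I, Co p := by
      ext g
      rw [hmem r hr g]
      simp only [Set.mem_iUnion, exists_prop, I, mem_sigma, Co, Set.mem_image]
      constructor
      · rintro ⟨S, hS, c, hc, k, hk, rfl⟩
        exact ⟨⟨S, c⟩, ⟨hS, hc⟩, k, hk, rfl⟩
      · rintro ⟨⟨S, c⟩, ⟨hS, hc⟩, k, hk, rfl⟩
        exact ⟨S, hS, c, hc, k, hk, rfl⟩
    have hopen : ∀ p, IsOpen (Co p) := by
      intro p
      exact (Homeomorph.mulLeft (CosM.T U p.1 p.2)).isOpenMap _ (AsmM.KS_open U n)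
    have hmeas : ∀ p, ν (Co p) = 1 := by
      intro p
      rw [← hν]
      have : Co p = (fun g => (CosM.T U p.1 p.2)⁻¹ * g) ⁻¹' KS E n := by
        ext g
        simp only [Co, Set.mem_image, Set.mem_preimage]
        constructor
        · rintro ⟨k, hk, rfl⟩
          rwa [inv_mul_cancel_left]
        · intro h
          exact ⟨_, h, mul_inv_cancel_left _ _⟩
      rw [this, measure_preimage_mul]
    have hconst : ∀ p, ∀ g ∈ Co p, π g f = π (CosM.T U p.1 p.2) f := by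
      rintro p _ ⟨k, hk, rfl⟩
      change π (CosM.T U p.1 p.2 * k) f = _
      rw [map_mul]
      change π (CosM.T U p.1 p.2) (π k f) = _
      rw [hf k hk]
    have hint : ∀ p, IntegrableOn (fun g => π g f) (Co p) ν := by
      intro p
      have : IntegrableOn (fun _ : GL (Fin n) E => π (CosM.T U p.1 p.2) f) (Co p) ν := by
        refine integrableOn_const ?_
        rw [hmeas]
        exact ENNReal.one_ne_top
      exact this.congr_fun (fun g hg => (hconst p g hg).symm) (hopen p).measurableSet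
    have hval : ∀ p, ∫ g in Co p, π g f ∂ν = π (CosM.T U p.1 p.2) f := by
      intro p
      rw [setIntegral_congr_fun (hopen p).measurableSet (hconst p), setIntegral_const]
      rw [measureReal_def, hmeas]
      simp
    have hsum : ∫ g in Dr U.w n r, π g f ∂ν = ∑ p ∈ I, π (CosM.T U p.1 p.2) f := by
      rw [hDr, integral_biUnion_finset I (fun p _ => (hopen p).measurableSet) ?_
        (fun p _ => hint p)]
      · exact Finset.sum_congr rfl fun p _ => hval p
      · rintro ⟨S, c⟩ hp ⟨S', c'⟩ hp' hne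
        simp only [I, coe_sigma, Set.mem_sigma_iff, mem_coe] at hp hp'
        rw [Function.onFun, Set.disjoint_left]
        rintro g ⟨k, hk, rfl⟩ ⟨k', hk', h⟩
        apply hne
        obtain ⟨h1, h2⟩ := huniq S' S c' hp'.2 c hp.2 k' hk' k hk h
        subst h1
        subst h2
        rfl
    rw [hsum] at h1
    have h2 := congrArg (fun v => inner ℂ f (π (dg U.w L) v)) h1
    simp only [map_sum, inner_sum, map_smul, inner_smul_right] at h2
    rw [← h2, Finset.sum_sigma]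
    refine Finset.sum_congr rfl fun S _ => ?_
    have h3 : ∀ c ∈ cS U S, inner ℂ f (π (dg U.w L) (π (CosM.T U S c) f)) =
        inner ℂ f (π (dg U.w (L + eps S)) f) := by
      intro c hc
      rw [← HeciM.coeff_T U π f hf hL hc, map_mul]
      rfl
    rw [Finset.sum_congr rfl h3, Finset.sum_const, HeciM.card_cS, nsmul_eq_mul]
    push_cast
    congr 1
    have h4 := HeciM.perm_inv U π f hf (L + eps S)
      (Fin.revPerm.trans (Tuple.sort (L + eps S)))
    have h5 : (fun i => (L + eps S) ((Fin.revPerm.trans (Tuple.sort (L + eps S))) i)) =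
        srt (L + eps S) := by
      funext i
      simp [srt]
    rw [h5] at h4
    exact h4

end MPtg
end

section
/-! # MP_3d2757_nt : SAT (existence of Satake parameters) -/
open Finset MeasureTheory

namespace MPtg

namespace SatM

section

variable {G H : Type} [Group G] [NormedAddCommGroup H] [InnerProductSpace ℂ H]
  (π : G →* (H ≃ₗᵢ[ℂ] H)) (K : Set G)

/-- the vectors fixed by a set -/
def V0 : Submodule ℂ H where
  carrier := {v | ∀ k ∈ K, π k v = v}
  add_mem' := by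
    intro a b ha hb k hk
    rw [map_add, ha k hk, hb k hk]
  zero_mem' := fun k _ => map_zero _
  smul_mem' := by
    intro c v hv k hk
    rw [map_smul, hv k hk]

theorem mem_V0 (v : H) : v ∈ V0 π K ↔ ∀ k ∈ K, π k v = v := Iff.rfl

theorem isClosed_V0 : IsClosed (V0 π K : Set H) := by
  have : (V0 π K : Set H) = ⋂ k ∈ K, {v | π k v = v} := by
    ext v
    simp [mem_V0]
  rw [this]
  exact isClosed_biInter fun k _ => isClosed_eq (π k).continuous continuous_id

theorem inner_adj (g : G) (v w : H) : inner ℂ (π g v) w = inner ℂ v (π g⁻¹ w) := by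
  have : w = π g (π g⁻¹ w) := by
    change w = (π g * π g⁻¹) w
    rw [← map_mul, mul_inv_cancel, map_one]
    rfl
  conv_lhs => rw [this]
  exact (π g).inner_map_map _ _

variable [CompleteSpace H]

/-- the fixed vectors form a line -/
theorem line (hSch : SpecSch)
    (hirr : ∀ W : Submodule ℂ H, IsClosed (W : Set H) → (∀ g, ∀ v ∈ W, π g v ∈ W) →
      W = ⊥ ∨ W = ⊤)
    (hcomm : ∀ P : H →L[ℂ] H, (∀ v, ∀ k ∈ K, π k (P v) = P v) →
      (∀ v, (∀ k ∈ K, π k v = v) → P v = v) → (∀ v w, inner ℂ (P v) w = inner ℂ v (P w)) →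
      ∀ g h v, P (π g (P (π h (P v)))) = P (π h (P (π g (P v)))))
    (f : H) (hf0 : f ≠ 0) (hf : ∀ k ∈ K, π k f = f) (w : H) (hw : ∀ k ∈ K, π k w = w) :
    ∃ c : ℂ, w = c • f := by
  have hcl := isClosed_V0 π K
  have hcomp : CompleteSpace (V0 π K) := hcl.completeSpace_coe
  let Q : H →L[ℂ] V0 π K := (V0 π K).orthogonalProjectionOnto
  let P : H →L[ℂ] H := (V0 π K).starProjection
  have hPQ : ∀ v, P v = (Q v : H) := fun v => (V0 π K).starProjection_apply v
  have hP1 : ∀ v, ∀ k ∈ K, π k (P v) = P v := by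
    intro v k hk
    rw [hPQ]
    exact (Q v).2 k hk
  have hP2 : ∀ v, (∀ k ∈ K, π k v = v) → P v = v := fun v hv =>
    Submodule.starProjection_eq_self_iff.2 hv
  have hP3 : ∀ v w, inner ℂ (P v) w = inner ℂ v (P w) := fun v w =>
    Submodule.inner_starProjection_left_eq_right _ v w
  have hC := hcomm P hP1 hP2 hP3
  let A : G → (V0 π K →L[ℂ] V0 π K) := fun g =>
    Q.comp (((π g).toContinuousLinearEquiv : H →L[ℂ] H).comp (V0 π K).subtypeL)
  have hA : ∀ g (v : V0 π K), ((A g v : V0 π K) : H) = P (π g v) := by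
    intro g v
    rw [hPQ]
    rfl
  have hadj : ∀ g, ContinuousLinearMap.adjoint (A g) = A g⁻¹ := by
    intro g
    symm
    rw [ContinuousLinearMap.eq_adjoint_iff]
    intro v w
    rw [Submodule.coe_inner, Submodule.coe_inner, hA, hA, hP3, hP2 (w : H) w.2]
    rw [← hP3, hP2 (v : H) v.2, inner_adj, inv_inv]
  have := hSch (V0 π K) (Set.range A) ?_ ?_ ?_ ⟨f, hf⟩ ⟨w, hw⟩ ?_
  · obtain ⟨c, hc⟩ := this
    exact ⟨c, congrArg Subtype.val hc⟩
  · rintro _ ⟨g, rfl⟩
    exact ⟨g⁻¹, (hadj g).symm⟩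
  · rintro _ ⟨g, rfl⟩ _ ⟨h, rfl⟩
    ext v
    change ((A g (A h v) : V0 π K) : H) = ((A h (A g v) : V0 π K) : H)
    rw [hA, hA, hA, hA]
    have := hC g h v
    rwa [hP2 (v : H) v.2] at this
  · intro W hW hinv
    by_cases hbot : W = ⊥
    · exact Or.inl hbot
    right
    obtain ⟨w0, hw0, hw00⟩ := (Submodule.ne_bot_iff W).1 hbot
    -- the closed invariant subspace generated by `W`
    let X : Submodule ℂ H := Submodule.span ℂ {u | ∃ g, ∃ w ∈ W, u = π g w}
    let Z : Submodule ℂ H := X.topologicalClosure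
    have hXg : ∀ g, ∀ v ∈ X, π g v ∈ X := by
      intro g v hv
      have h1 : X ≤ X.comap ((π g).toLinearEquiv : H →ₗ[ℂ] H) := by
        rw [Submodule.span_le]
        rintro _ ⟨g', w, hw, rfl⟩
        refine Submodule.subset_span ⟨g * g', w, hw, ?_⟩
        rw [map_mul]
        rfl
      exact h1 hv
    have hZg : ∀ g, ∀ v ∈ Z, π g v ∈ Z := by
      intro g v hv
      have h1 : Set.MapsTo (π g) (X : Set H) (X : Set H) := fun u hu => hXg g u hu
      exact h1.closure (π g).continuous hv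
    have hZ := hirr Z X.isClosed_topologicalClosure hZg
    have hXZ : X ≤ Z := X.le_topologicalClosure
    have hZtop : Z = ⊤ := by
      rcases hZ with h | h
      · exfalso
        have h1 : ((w0 : V0 π K) : H) ∈ Z := by
          apply hXZ
          refine Submodule.subset_span ⟨1, w0, hw0, ?_⟩
          rw [map_one]
          rfl
        rw [h, Submodule.mem_bot] at h1
        exact hw00 (Subtype.ext h1)
      · exact h
    have hQX : ∀ v ∈ X, Q v ∈ W := by
      intro v hv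
      have h1 : X ≤ W.comap (Q : H →ₗ[ℂ] V0 π K) := by
        rw [Submodule.span_le]
        rintro _ ⟨g, w, hw, rfl⟩
        exact hinv (A g) ⟨g, rfl⟩ w hw
      exact h1 hv
    have hQZ : ∀ v ∈ Z, Q v ∈ W := by
      intro v hv
      have h1 : Set.MapsTo Q (X : Set H) (W : Set (V0 π K)) := fun u hu => hQX u hu
      have h2 := h1.closure Q.continuous hv
      rwa [hW.closure_eq] at h2
    rw [eq_top_iff]
    intro v _
    have h1 := hQZ (v : H) (by rw [hZtop]; trivial)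
    have h2 : Q (v : H) = v := (V0 π K).orthogonalProjectionOnto_mem_subspace_eq_self v
    rwa [h2] at h1
  · intro h
    exact hf0 (congrArg Subtype.val h)

end

/-- Vieta -/
theorem exists_roots (n : ℕ) (e : ℕ → ℂ) (he0 : e 0 = 1) (hen : e n ≠ 0) :
    ∃ x : Fin n → ℂ, (∀ i, x i ≠ 0) ∧ ∀ r ≤ n, esy x r = e r := by
  classical
  let p : Polynomial ℂ := ∑ r ∈ range (n + 1), Polynomial.C ((-1) ^ r * e r) * Polynomial.X ^ (n - r)
  have hcoeff : ∀ r ≤ n, p.coeff (n - r) = (-1) ^ r * e r := by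
    intro r hr
    simp only [p, Polynomial.finsetSum_coeff, Polynomial.coeff_C_mul, Polynomial.coeff_X_pow]
    rw [Finset.sum_eq_single r]
    · simp
    · intro s hs hsr
      rw [mem_range] at hs
      have : n - r ≠ n - s := by omega
      simp [this]
    · intro h
      exact absurd (mem_range.2 (by omega)) h
  have hdeg : p.natDegree = n := by
    apply le_antisymm
    · refine Polynomial.natDegree_sum_le_of_forall_le _ _ fun r hr => ?_
      refine (Polynomial.natDegree_C_mul_X_pow_le _ _).trans (by omega)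
    · apply Polynomial.le_natDegree_of_ne_zero
      have := hcoeff 0 (Nat.zero_le _)
      rw [Nat.sub_zero] at this
      rw [this, he0]
      simp
  have hlc : p.leadingCoeff = 1 := by
    rw [Polynomial.leadingCoeff, hdeg]
    have := hcoeff 0 (Nat.zero_le _)
    rw [Nat.sub_zero] at this
    rw [this, he0]
    simp
  have hcard : p.roots.card = p.natDegree := by
    exact (IsAlgClosed.splits p).natDegree_eq_card_roots.symm
  obtain ⟨l, hl⟩ : ∃ l : List ℂ, (l : Multiset ℂ) = p.roots := ⟨p.roots.toList, by simp⟩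
  have hll : l.length = n := by
    have : Multiset.card (l : Multiset ℂ) = n := by rw [hl, hcard, hdeg]
    simpa using this
  subst hll
  let x : Fin l.length → ℂ := fun i => l.get i
  have hx : (univ : Finset (Fin l.length)).val.map x = p.roots := by
    rw [← hl]
    have : (univ : Finset (Fin l.length)).val = (List.finRange l.length : Multiset (Fin l.length)) := rfl
    rw [this, Multiset.map_coe]
    congr 1
    simp [x]
  have hes : ∀ r ≤ l.length, esy x r = e r := by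
    intro r hr
    have h1 : esy x r = p.roots.esymm r := by
      rw [← hx, Finset.esymm_map_val]
      rfl
    have h2 := Polynomial.coeff_eq_esymm_roots_of_card hcard (k := l.length - r)
      (by rw [hdeg]; omega)
    rw [hcoeff r hr, hlc, hdeg, Nat.sub_sub_self hr, one_mul] at h2
    rw [h1]
    exact (mul_left_cancel₀ (pow_ne_zero _ (by norm_num)) h2).symm
  refine ⟨x, fun i hi => ?_, hes⟩
  have h1 := hes l.length le_rfl
  unfold esy at h1
  have h5 := powersetCard_self (univ : Finset (Fin l.length))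
  rw [card_univ, Fintype.card_fin] at h5
  rw [h5, sum_singleton, Finset.prod_eq_zero (mem_univ i) hi] at h1
  exact hen h1.symm

end SatM

theorem specSat (hG : SpecGelf) (hS : SpecSch) : SpecSat := by
  classical
  intro E _ _ U n _ _ ν _ H _ _ _ π f hν hcont hirr hf1 hf
  have hf0 : f ≠ 0 := by
    intro h
    rw [h] at hf1
    simp at hf1
  have hline := SatM.line π (KS E n) hS hirr
    (fun P h1 h2 h3 => hG E U n H π P hcont h1 h2 h3) f hf0 hf
  have hKmul : ∀ {a b : GL (Fin n) E}, a ∈ KS E n → b ∈ KS E n → a * b ∈ KS E n :=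
    fun ha hb => AsmM.KS_mul U ha hb
  have hDl : ∀ r, ∀ k ∈ KS E n, ∀ g, k * g ∈ Dr U.w n r ↔ g ∈ Dr U.w n r := by
    intro r k hk g
    constructor
    · rintro ⟨k₁, h₁, k₂, h₂, h⟩
      refine ⟨k⁻¹ * k₁, hKmul (AsmM.KS_inv hk) h₁, k₂, h₂, ?_⟩
      have : g = k⁻¹ * (k * g) := by group
      rw [this, h]
      group
    · rintro ⟨k₁, h₁, k₂, h₂, rfl⟩
      exact ⟨k * k₁, hKmul hk h₁, k₂, h₂, by group⟩
  have hDo : ∀ r, IsOpen (Dr U.w n r) := by
    intro r
    have : Dr U.w n r = ⋃ a : GL (Fin n) E, ⋃ (_ : a ∈ Dr U.w n r), (fun g => a * g) '' KS E n := by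
      ext g
      simp only [Set.mem_iUnion, Set.mem_image, exists_prop]
      constructor
      · intro h
        exact ⟨g, h, 1, AsmM.KS_one, mul_one _⟩
      · rintro ⟨a, ⟨k₁, h₁, k₂, h₂, rfl⟩, k, hk, rfl⟩
        exact ⟨k₁, h₁, k₂ * k, hKmul h₂ hk, by group⟩
    rw [this]
    exact isOpen_iUnion fun a => isOpen_iUnion fun _ =>
      (Homeomorph.mulLeft a).isOpenMap _ (AsmM.KS_open U n)
  -- the Hecke operators map `f` to fixed vectors
  have hfix : ∀ r, ∀ k ∈ KS E n, π k (∫ g in Dr U.w n r, π g f ∂ν) = ∫ g in Dr U.w n r, π g f ∂ν := by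
    intro r k hk
    have h1 : π k (∫ g in Dr U.w n r, π g f ∂ν) = ∫ g in Dr U.w n r, π k (π g f) ∂ν :=
      ((π k).toContinuousLinearEquiv.integral_comp_comm _).symm
    rw [h1, ← integral_indicator (hDo r).measurableSet, ← integral_indicator (hDo r).measurableSet]
    rw [← integral_mul_left_eq_self (μ := ν) ((Dr U.w n r).indicator fun g => π g f) k]
    congr 1
    funext g
    by_cases h : g ∈ Dr U.w n r
    · rw [Set.indicator_of_mem h, Set.indicator_of_mem ((hDl r k hk g).2 h), map_mul]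
      rfl
    · rw [Set.indicator_of_notMem h, Set.indicator_of_notMem (fun h' => h ((hDl r k hk g).1 h'))]
  have hex : ∀ r, ∃ c : ℂ, ∫ g in Dr U.w n r, π g f ∂ν = c • f := fun r => hline _ (hfix r)
  choose l hl using hex
  -- central double cosets
  have hcen : ∀ (r : ℕ) (z : GL (Fin n) E), (∀ k ∈ KS E n, k * z = z * k) →
      dg U.w (om n r) = z → ∫ g in Dr U.w n r, π g f ∂ν = π z f := by
    intro r z hz hd
    have hD : Dr U.w n r = (fun g => z⁻¹ * g) ⁻¹' KS E n := by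
      ext g
      rw [Set.mem_preimage]
      constructor
      · rintro ⟨k₁, h₁, k₂, h₂, rfl⟩
        rw [hd, hz _ h₁]
        have : z⁻¹ * (z * k₁ * k₂) = k₁ * k₂ := by group
        rw [this]
        exact hKmul h₁ h₂
      · intro h
        exact ⟨1, AsmM.KS_one, _, h, by rw [hd]; group⟩
    have hm : ν (Dr U.w n r) = 1 := by
      rw [hD, measure_preimage_mul, hν]
    have hc : ∀ g ∈ Dr U.w n r, π g f = π z f := by
      intro g hg
      rw [hD, Set.mem_preimage] at hg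
      have : g = z * (z⁻¹ * g) := by group
      rw [this, map_mul]
      change π z (π (z⁻¹ * g) f) = _
      rw [hf _ hg]
    rw [setIntegral_congr_fun (hDo r).measurableSet hc, setIntegral_const, measureReal_def, hm]
    simp
  have h0 : l 0 = 1 := by
    have h1 := hcen 0 1 (fun k _ => by simp) (by
      apply CosM.ext_mulVec
      intro v
      funext i
      rw [AsmM.dg_mulVec]
      simp [om])
    rw [hl 0, map_one] at h1
    change l 0 • f = f at h1
    have h2 : (l 0 - 1) • f = 0 := by rw [sub_smul, one_smul, h1, sub_self]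
    rcases smul_eq_zero.1 h2 with h | h
    · exact sub_eq_zero.1 h
    · exact absurd h hf0
  have hn : l n ≠ 0 := by
    have h1 := hcen n (dg U.w (om n n)) (fun k _ => by
      apply CosM.ext_mulVec
      intro v
      rw [Units.val_mul, ← Matrix.mulVec_mulVec, Units.val_mul, ← Matrix.mulVec_mulVec]
      have h2 : ∀ u : Fin n → E, ((dg U.w (om n n) : GL (Fin n) E) :
          Matrix (Fin n) (Fin n) E).mulVec u = U.ϖ • u := by
        intro u
        funext i
        rw [AsmM.dg_mulVec]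
        simp [om]
      rw [h2, h2, Matrix.mulVec_smul]) rfl
    rw [hl n] at h1
    intro h
    rw [h, zero_smul] at h1
    have h2 : ‖π (dg U.w (om n n)) f‖ = 0 := by rw [← h1, norm_zero]
    rw [LinearIsometryEquiv.norm_map, hf1] at h2
    exact one_ne_zero h2
  have hq : (U.q : ℂ) ≠ 0 := by
    have := U.q3
    have : U.q ≠ 0 := by omega
    exact_mod_cast this
  obtain ⟨x, hx0, hx⟩ := SatM.exists_roots n (fun r => l r / (U.q : ℂ) ^ (r * (n - r)))
    (by simp [h0]) (by simpa using hn)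
  refine ⟨x, hx0, fun r hr => ?_⟩
  rw [hl r, hx r hr, mul_div_cancel₀]
  exact pow_ne_zero _ hq

end MPtg
end
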