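import Pool.Agent.Lib.MP_3d2757_nt.Cnt

section
/-! # MP_3d2757_nt : module SRT -/
open Finset

namespace MPtg.SrtM

open BubM

variable {n : ℕ}

/-- pairs `i < j`, `i ∉ S`, `j ∈ S` -/
def inv1' (S : Finset (Fin n)) : ℕ :=
  ((univ : Finset (Fin n × Fin n)).filter (fun p => p.1 < p.2 ∧ p.1 ∉ S ∧ p.2 ∈ S)).card

theorem inv1_add (S : Finset (Fin n)) : inv1 S + inv1' S = S.card * (n - S.card) := by
  classical
  have h1 : (S ×ˢ Sᶜ).card = S.card * (n - S.card) := by
    rw [Finset.card_product, Finset.card_compl, Fintype.card_fin]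
  rw [← h1]
  have h2 : (S ×ˢ Sᶜ) = (S ×ˢ Sᶜ).filter (fun p => p.1 < p.2) ∪
      (S ×ˢ Sᶜ).filter (fun p => ¬ p.1 < p.2) := (Finset.filter_union_filter_not_eq _ _).symm
  rw [h2, Finset.card_union_of_disjoint (Finset.disjoint_filter_filter_not _ _ _)]
  congr 1
  · unfold inv1
    congr 1
    ext p
    simp only [mem_filter, mem_univ, true_and, mem_product, mem_compl]
    tauto
  · unfold inv1'
    refine Finset.card_bij' (fun p _ => (p.2, p.1)) (fun p _ => (p.2, p.1)) ?_ ?_ ?_ ?_
    · rintro ⟨i, j⟩ h
      simp only [mem_filter, mem_univ, true_and, mem_product, mem_compl] at h ⊢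
      exact ⟨⟨h.2.2, h.2.1⟩, not_lt.2 h.1.le⟩
    · rintro ⟨i, j⟩ h
      simp only [mem_filter, mem_univ, true_and, mem_product, mem_compl] at h ⊢
      refine ⟨lt_of_le_of_ne (not_lt.1 h.2) ?_, h.1.2, h.1.1⟩
      intro h3
      rw [h3] at h
      exact h.1.2 h.1.1
    · intro p _; rfl
    · intro p _; rfl

theorem inv2_le (L : Fin n → ℤ) (S : Finset (Fin n)) : inv2 L S ≤ inv1' S := by
  unfold inv2 inv1'
  refine Finset.card_le_card fun p hp => ?_
  simp only [mem_filter, mem_univ, true_and] at hp ⊢
  exact ⟨hp.1, hp.2.1, hp.2.2.1⟩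

/-- `tworho` as a sum over pairs -/
theorem tworho_eq (m : Fin n → ℤ) :
    tworho m = ∑ p ∈ (univ : Finset (Fin n × Fin n)).filter (fun p => p.1 < p.2),
      (m p.1 - m p.2) := by
  classical
  rw [Finset.sum_sub_distrib]
  have h1 : ∑ p ∈ (univ : Finset (Fin n × Fin n)).filter (fun p => p.1 < p.2), m p.1 =
      ∑ i : Fin n, ((n : ℤ) - 1 - i) * m i := by
    rw [Finset.sum_filter, Fintype.sum_prod_type]
    refine Finset.sum_congr rfl fun i _ => ?_
    rw [← Finset.sum_filter]
    dsimp only
    rw [Finset.sum_const, nsmul_eq_mul]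
    congr 1
    have : (univ.filter (fun x : Fin n => i < x)) = Finset.Ioi i := by
      ext; simp
    simp only [this, Fin.card_Ioi]
    have := i.2
    push_cast [Nat.sub_sub, Nat.cast_sub (show 1 + i.val ≤ n by omega)]
    omega
  have h2 : ∑ p ∈ (univ : Finset (Fin n × Fin n)).filter (fun p => p.1 < p.2), m p.2 =
      ∑ j : Fin n, (j : ℤ) * m j := by
    rw [Finset.sum_filter, Fintype.sum_prod_type, Finset.sum_comm]
    refine Finset.sum_congr rfl fun j _ => ?_
    rw [← Finset.sum_filter]
    dsimp only
    rw [Finset.sum_const, nsmul_eq_mul]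
    congr 1
    have : (univ.filter (fun x : Fin n => x < j)) = Finset.Iio j := by
      ext; simp
    simp only [this, Fin.card_Iio]
  rw [h1, h2, ← Finset.sum_sub_distrib]
  unfold tworho
  refine Finset.sum_congr rfl fun i _ => by ring

theorem tworho_add (a b : Fin n → ℤ) : tworho (a + b) = tworho a + tworho b := by
  unfold tworho
  rw [← Finset.sum_add_distrib]
  refine Finset.sum_congr rfl fun i _ => by simp; ring

theorem tworho_eps (S : Finset (Fin n)) : tworho (eps S) = (inv1 S : ℤ) - inv1' S := by
  classical
  rw [tworho_eq]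
  unfold inv1 inv1'
  rw [Finset.card_filter, Finset.card_filter]
  push_cast
  rw [← Finset.sum_sub_distrib, Finset.sum_filter]
  refine Finset.sum_congr rfl fun p _ => ?_
  unfold eps
  by_cases h1 : p.1 < p.2 <;> by_cases h2 : p.1 ∈ S <;> by_cases h3 : p.2 ∈ S <;> simp [h1, h2, h3]

theorem card_lt (k : ℕ) (hk : k ≤ n) :
    (univ.filter (fun i : Fin n => (i : ℕ) < k)).card = k := by
  have h := Finset.card_image_of_injective (univ : Finset (Fin k)) (Fin.castLE_injective hk)
  rw [Finset.card_univ, Fintype.card_fin] at h
  refine Eq.trans (congrArg Finset.card ?_) h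
  ext i
  simp only [mem_filter, mem_univ, true_and, mem_image]
  constructor
  · intro hi
    exact ⟨⟨i, hi⟩, rfl⟩
  · rintro ⟨a, rfl⟩
    simp

theorem eps_image (S : Finset (Fin n)) : ∃ w : Equiv.Perm (Fin n), eps S = om n S.card ∘ w := by
  classical
  -- a permutation with `i ∈ S ↔ w i < card S`
  have hle : S.card ≤ n := by simpa using S.card_le_univ
  have e1 : {i : Fin n // i ∈ S} ≃ {i : Fin n // (i : ℕ) < S.card} := by
    refine Fintype.equivOfCardEq ?_
    rw [Fintype.card_coe, Fintype.card_subtype]
    exact (card_lt _ hle).symm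
  refine ⟨e1.extendSubtype, ?_⟩
  funext i
  unfold eps om
  simp only [Function.comp]
  by_cases h : i ∈ S
  · rw [if_pos h, if_pos (e1.extendSubtype_mem i h)]
  · rw [if_neg h, if_neg (e1.extendSubtype_not_mem i h)]

theorem antitone_om (r : ℕ) : Antitone (om n r) := by
  intro i j hij
  unfold om
  rw [Fin.le_def] at hij
  split_ifs <;> omega

theorem psum_add (a b : Fin n → ℤ) (k : ℕ) : psum (a + b) k = psum a k + psum b k := by
  unfold psum
  rw [← Finset.sum_add_distrib]
  rfl

theorem psum_n (a : Fin n → ℤ) (k : ℕ) (hk : n ≤ k) : psum a k = ∑ i, a i := by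
  unfold psum
  congr 1
  ext i
  simp
  have := i.2
  omega

theorem psum_eq_sum (a : Fin n → ℤ) (k : ℕ) :
    psum a k = ∑ i ∈ univ.filter (fun i : Fin n => (i : ℕ) < k), a i := rfl

/-- Abel summation for `tworho` -/
theorem tworho_psum (m : Fin n → ℤ) :
    tworho m = 2 * ∑ k ∈ range n, psum m k - ((n : ℤ) - 1) * psum m n := by
  have h1 : ∑ k ∈ range n, psum m k = ∑ i : Fin n, ((n : ℤ) - 1 - i) * m i := by
    unfold psum
    simp only [Finset.sum_filter]
    rw [Finset.sum_comm]
    refine Finset.sum_congr rfl fun i _ => ?_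
    rw [← Finset.sum_filter, Finset.sum_const, nsmul_eq_mul]
    congr 1
    have : (range n).filter (fun x => (i : ℕ) < x) = Finset.Ioo (i : ℕ) n := by
      ext; simp; omega
    rw [this, Nat.card_Ioo]
    have := i.2
    omega
  rw [h1, psum_n _ _ le_rfl, Finset.mul_sum, Finset.mul_sum, ← Finset.sum_sub_distrib]
  unfold tworho
  refine Finset.sum_congr rfl fun i _ => by ring

theorem sum_eps (S : Finset (Fin n)) : ∑ i, eps S i = S.card := by
  unfold eps
  simp

/-- sums of sorted near vectors -/
theorem psum_srt_le (L : Fin n → ℤ) (hL : Antitone L) (S : Finset (Fin n)) (k : ℕ) :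
    psum (srt (L + eps S)) k ≤ psum (L + om n S.card) k := by
  classical
  obtain ⟨w, hw⟩ := eps_image S
  have hle : S.card ≤ n := by simpa using S.card_le_univ
  have htot : ∑ i, om n S.card i = S.card := by
    rw [← sum_eps S, hw]
    exact (Equiv.sum_comp w (om n S.card)).symm
  rcases le_or_gt n k with hk | hk
  · rw [psum_n _ _ hk, psum_n _ _ hk]
    have h1 : ∑ i, srt (L + eps S) i = ∑ i, (L + eps S) i := by
      rw [srt_eq_comp]
      exact Equiv.sum_comp _ _
    rw [h1]
    simp only [Pi.add_apply, Finset.sum_add_distrib]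
    rw [sum_eps, htot]
  · -- the first k entries of the sorted vector are the entries of some set A
    set A : Finset (Fin n) := (univ.filter (fun i : Fin n => (i : ℕ) < k)).image
      (Fin.revPerm.trans (Tuple.sort (L + eps S))) with hA
    have hAc : A.card = k := by
      rw [hA, Finset.card_image_of_injective _ (Equiv.injective _), card_lt k hk.le]
    have h1 : psum (srt (L + eps S)) k = ∑ i ∈ A, (L + eps S) i := by
      rw [hA, Finset.sum_image (fun a _ b _ h => (Equiv.injective _) h), psum_eq_sum,
        srt_eq_comp]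
      rfl
    rw [h1, psum_add]
    simp only [Pi.add_apply, Finset.sum_add_distrib]
    have h2 := sum_le_psum L hL A
    rw [hAc] at h2
    have h3 : ∑ i ∈ A, eps S i = ∑ i ∈ A.image w, om n S.card i := by
      have e := Finset.sum_image (f := om n S.card) (s := A) (g := w)
        (fun a _ b _ h => (Equiv.injective _) h)
      rw [e]
      exact Finset.sum_congr rfl fun i _ => congrFun hw i
    have h4 := sum_le_psum (om n S.card) (antitone_om _) (A.image w)
    rw [Finset.card_image_of_injective _ (Equiv.injective _), hAc] at h4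
    rw [h3]
    exact add_le_add h2 h4

end MPtg.SrtM

namespace MPtg

open SrtM BubM

theorem specSrt : SpecSrt := by
  classical
  intro n L hL S
  have hle : S.card ≤ n := by simpa using S.card_le_univ
  have h1 := inv1_add S
  have h2 := inv2_le L S
  refine ⟨?_, by omega, ?_, psum_srt_le L hL S, ?_⟩
  · rw [tworho_srt _ (NA_eps L hL S), invn_eps L hL S, tworho_add, tworho_eps]
    have h3 : ((inv1 S : ℕ) : ℤ) + inv1' S = (S.card : ℤ) * ((n : ℤ) - S.card) := by
      rw [← Nat.cast_sub hle]
      exact_mod_cast h1
    linear_combination -h3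
  · intro h3
    have hw1 : tworho (srt (L + eps S)) = tworho (L + om n S.card) := by
      obtain ⟨w, hw⟩ := eps_image S
      have e1 : tworho (om n S.card) = (S.card : ℤ) * ((n : ℤ) - S.card) := by
        have e2 : om n S.card = eps (univ.filter (fun i : Fin n => (i : ℕ) < S.card)) := by
          funext i
          simp [om, eps]
        rw [e2, tworho_eps]
        have e3 := inv1_add (univ.filter (fun i : Fin n => (i : ℕ) < S.card))
        have e4 : inv1' (univ.filter (fun i : Fin n => (i : ℕ) < S.card)) = 0 := by
          unfold inv1'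
          rw [Finset.card_eq_zero, Finset.filter_eq_empty_iff]
          rintro ⟨i, j⟩ _ ⟨h1, h2, h3⟩
          simp only [mem_filter, mem_univ, true_and, Fin.lt_def] at h1 h2 h3
          omega
        rw [card_lt _ hle, e4] at e3
        rw [e4, ← Nat.cast_sub hle]
        push_cast
        have : inv1 (univ.filter (fun i : Fin n => (i : ℕ) < S.card)) =
          S.card * (n - S.card) := by omega
        rw [this]
        push_cast
        ring
      rw [tworho_srt _ (NA_eps L hL S), invn_eps L hL S, tworho_add, tworho_add, tworho_eps, e1]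
      have h4 : ((inv1 S : ℕ) : ℤ) + inv1' S = (S.card : ℤ) * ((n : ℤ) - S.card) := by
        rw [← Nat.cast_sub hle]
        exact_mod_cast h1
      have h5 : ((inv1 S : ℕ) : ℤ) + inv2 L S = (S.card : ℤ) * ((n : ℤ) - S.card) := by
        rw [← Nat.cast_sub hle]
        exact_mod_cast h3
      linear_combination 2 * h5 - h4
    have htot : psum (srt (L + eps S)) n = psum (L + om n S.card) n := by
      obtain ⟨w, hw⟩ := eps_image S
      rw [psum_n _ _ le_rfl, psum_n _ _ le_rfl]
      have e1 : ∑ i, srt (L + eps S) i = ∑ i, (L + eps S) i := by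
        rw [srt_eq_comp]
        exact Equiv.sum_comp _ _
      have e2 : ∑ i, eps S i = ∑ i, om n S.card i := by
        have := Equiv.sum_comp w (om n S.card)
        rw [← this]
        exact Finset.sum_congr rfl fun i _ => congrFun hw i
      rw [e1]
      simp only [Pi.add_apply, Finset.sum_add_distrib]
      rw [e2]
    have h6 : ∀ k, k ≤ n → psum (srt (L + eps S)) k = psum (L + om n S.card) k := by
      intro k hk
      rcases eq_or_lt_of_le hk with rfl | hk
      · exact htot
      rw [tworho_psum, tworho_psum, htot] at hw1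
      have h7 : ∑ k ∈ range n, psum (srt (L + eps S)) k =
          ∑ k ∈ range n, psum (L + om n S.card) k := by linarith
      exact (Finset.sum_eq_sum_iff_of_le (fun k _ => psum_srt_le L hL S k)).1 h7 k
        (Finset.mem_range.2 hk)
    funext i
    have h7 := h6 (i.val + 1) i.2
    have h8 := h6 i.val i.2.le
    have h9 : ∀ a : Fin n → ℤ, psum a (i.val + 1) = psum a i.val + a i := by
      intro a
      rw [psum_eq_sum, psum_eq_sum]
      have : (univ.filter (fun j : Fin n => (j : ℕ) < i.val + 1)) =
          insert i (univ.filter (fun j : Fin n => (j : ℕ) < i.val)) := by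
        ext j
        simp only [mem_filter, mem_univ, true_and, mem_insert, Fin.ext_iff]
        omega
      rw [this, Finset.sum_insert (by simp), add_comm]
    rw [h9, h9, h8] at h7
    exact add_left_cancel h7
  · rw [psum_n _ _ le_rfl, psum_n _ _ le_rfl]
    have e1 : ∑ i, srt (L + eps S) i = ∑ i, (L + eps S) i := by
      rw [srt_eq_comp]
      exact Equiv.sum_comp _ _
    rw [e1]
    simp only [Pi.add_apply, Finset.sum_add_distrib]
    rw [sum_eps]

end MPtg
end

section
/-! # MP_3d2757_nt : module IND -/
open Finset

namespace MPtg.IndM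

open SrtM BubM

variable {n : ℕ}

theorem tworho_om (r : ℕ) (hr : r ≤ n) : tworho (om n r) = (r : ℤ) * ((n : ℤ) - r) := by
  classical
  have e2 : om n r = eps (univ.filter (fun i : Fin n => (i : ℕ) < r)) := by
    funext i
    simp [om, eps]
  rw [e2, tworho_eps]
  have e3 := inv1_add (univ.filter (fun i : Fin n => (i : ℕ) < r))
  have e4 : inv1' (univ.filter (fun i : Fin n => (i : ℕ) < r)) = 0 := by
    unfold inv1'
    rw [Finset.card_eq_zero, Finset.filter_eq_empty_iff]
    rintro ⟨i, j⟩ _ ⟨h1, h2, h3⟩
    simp only [mem_filter, mem_univ, true_and, Fin.lt_def] at h1 h2 h3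
    omega
  rw [card_lt _ hr, e4] at e3
  rw [e4, ← Nat.cast_sub hr]
  have : inv1 (univ.filter (fun i : Fin n => (i : ℕ) < r)) = r * (n - r) := by omega
  rw [this]
  push_cast
  ring

theorem tworho_nonneg (L : Fin n → ℤ) (hL : Antitone L) : 0 ≤ tworho L := by
  rw [tworho_eq]
  refine Finset.sum_nonneg ?_
  rintro ⟨i, j⟩ hp
  simp only [mem_filter, mem_univ, true_and] at hp
  have := hL hp.le
  simp only
  omega

theorem inv_first (r : ℕ) (hr : r ≤ n) (L : Fin n → ℤ) :
    inv2 L (univ.filter (fun i : Fin n => (i : ℕ) < r)) = 0 ∧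
      eps (univ.filter (fun i : Fin n => (i : ℕ) < r)) = om n r := by
  constructor
  · unfold inv2
    rw [Finset.card_eq_zero, Finset.filter_eq_empty_iff]
    rintro ⟨i, j⟩ _ ⟨h1, h2, h3, _⟩
    simp only [mem_filter, mem_univ, true_and, Fin.lt_def] at h1 h2 h3
    omega
  · funext i
    simp [om, eps]

theorem ind (hSrt : SpecSrt) (u : ℝ) (hu : 0 < u) (X : Type) [AddCommGroup X] [Module ℂ X]
    (R : (Fin n → ℤ) → X) (e : ℕ → X →ₗ[ℂ] X) (W : (Fin n → ℤ) → Submodule ℂ X)
    (hP : ∀ L, Antitone L → ∀ r ≤ n, e r (R L) =
      ∑ S ∈ powersetCard r (univ : Finset (Fin n)), ((u : ℂ) ^ (inv2 L S)) • R (srt (L + eps S)))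
    (h0 : R 0 ∈ W 0)
    (h1 : ∀ L, Antitone L → ∀ r ≤ n, ∀ y ∈ W L, e r y ∈ W (L + om n r))
    (h2 : ∀ L, Antitone L → ∀ y, e n y ∈ W (L + om n n) → y ∈ W L)
    (h3 : ∀ L, Antitone L → ∀ r ≤ n, ∀ S ∈ powersetCard r (univ : Finset (Fin n)),
      W (srt (L + eps S)) ≤ W (L + om n r)) :
    ∀ L, Antitone L → R L ∈ W L := by
  classical
  have hom : om n n = fun _ => 1 := by
    funext i
    simp [om]
  have hen : ∀ L, Antitone L → e n (R L) = R (L + om n n) := by
    intro L hL
    rw [hP L hL n le_rfl]
    have : powersetCard n (univ : Finset (Fin n)) = {univ} := by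
      have := Finset.powersetCard_self (univ : Finset (Fin n))
      rwa [Finset.card_univ, Fintype.card_fin] at this
    rw [this, Finset.sum_singleton]
    have e1 : inv2 L (univ : Finset (Fin n)) = 0 := by
      unfold inv2
      simp
    have e2 : eps (univ : Finset (Fin n)) = om n n := by
      funext i
      simp [om, eps]
    rw [e1, e2, pow_zero, one_smul]
    congr 1
    refine srt_of_antitone _ ?_
    rw [hom]
    intro i j hij
    have := hL hij
    simp only [Pi.add_apply]
    omega
  -- constant vectors
  have hconst : ∀ c : ℤ, R (fun _ => c) ∈ W (fun _ => c) := by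
    have hup : ∀ c : ℤ, R (fun _ => c) ∈ W (fun _ => c) → R (fun _ => c + 1) ∈ W (fun _ => c + 1) := by
      intro c hc
      have ha : Antitone (fun _ : Fin n => c) := fun _ _ _ => le_rfl
      have := h1 _ ha n le_rfl _ hc
      rw [hen _ ha, hom] at this
      exact this
    have hdown : ∀ c : ℤ, R (fun _ => c + 1) ∈ W (fun _ => c + 1) → R (fun _ => c) ∈ W (fun _ => c) := by
      intro c hc
      have ha : Antitone (fun _ : Fin n => c) := fun _ _ _ => le_rfl
      refine h2 _ ha _ ?_
      rw [hen _ ha, hom]
      exact hc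
    intro c
    induction c using Int.induction_on with
    | zero => exact h0
    | succ i ih => exact hup _ ih
    | pred i ih =>
      refine hdown _ ?_
      have : (-(i : ℤ) - 1 + 1) = -(i : ℤ) := by ring
      rw [this]
      exact ih
  have key : ∀ N : ℕ, ∀ L : Fin n → ℤ, Antitone L → (tworho L).toNat = N → R L ∈ W L := by
    intro N
    induction N using Nat.strong_induction_on with
    | _ N ih =>
      intro L hL hN
      by_cases hc : ∃ r : ℕ, ∃ hr : r + 1 < n, L ⟨r + 1, hr⟩ < L ⟨r, by omega⟩
      · obtain ⟨r, hr, hlt⟩ := hc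
        -- drop the first r+1 entries by one
        set M : Fin n → ℤ := L - om n (r + 1) with hM
        have hML : M + om n (r + 1) = L := by
          rw [hM]; simp
        have hMa : Antitone M := by
          intro i j hij
          rw [hM]
          simp only [Pi.sub_apply, om]
          have h4 := hL hij
          rw [Fin.le_def] at hij
          split_ifs with h5 h6 h6
          · omega
          · omega
          · -- j ≥ r+1, i < r+1
            have h7 : L i ≥ L ⟨r, by omega⟩ := hL (by rw [Fin.le_def]; simp only; omega)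
            have h8 : L j ≤ L ⟨r + 1, hr⟩ := hL (by rw [Fin.le_def]; simp only; omega)
            omega
          · omega
        have hMt : tworho M = tworho L - ((r + 1 : ℕ) : ℤ) * ((n : ℤ) - (r + 1 : ℕ)) := by
          have := tworho_add M (om n (r + 1))
          rw [hML, tworho_om _ hr.le] at this
          linarith
        have hpos : 0 < ((r + 1 : ℕ) : ℤ) * ((n : ℤ) - (r + 1 : ℕ)) := by
          apply mul_pos <;> omega
        have hL0 := tworho_nonneg L hL
        have hM0 := tworho_nonneg M hMa
        have hMW : R M ∈ W M := ih (tworho M).toNat (by omega) M hMa rfl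
        have h4 := h1 M hMa (r + 1) hr.le _ hMW
        rw [hML] at h4
        rw [hP M hMa (r + 1) hr.le] at h4
        -- split the sum
        set T := powersetCard (r + 1) (univ : Finset (Fin n)) with hT
        rw [← Finset.sum_filter_add_sum_filter_not T (fun S => srt (M + eps S) = L)] at h4
        have h5 : ∑ S ∈ T.filter (fun S => ¬ srt (M + eps S) = L),
            ((u : ℂ) ^ (inv2 M S)) • R (srt (M + eps S)) ∈ W L := by
          refine Submodule.sum_mem _ fun S hS => Submodule.smul_mem _ _ ?_
          rw [mem_filter] at hS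
          have hSc : S.card = r + 1 := (mem_powersetCard.1 hS.1).2
          obtain ⟨g1, g2, g3, _⟩ := hSrt n M hMa S
          rw [hSc] at g1 g2 g3
          have g4 : inv1 S + inv2 M S < (r + 1) * (n - (r + 1)) := by
            rcases lt_or_eq_of_le g2 with h | h
            · exact h
            · exact absurd ((g3 h).trans hML) hS.2
          have g5 : ((inv1 S : ℕ) : ℤ) + inv2 M S <
              ((r + 1 : ℕ) : ℤ) * ((n : ℤ) - (r + 1 : ℕ)) := by
            rw [← Nat.cast_sub hr.le]
            exact_mod_cast g4
          have g6 : tworho (srt (M + eps S)) < tworho L := by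
            rw [g1, hMt]
            linarith
          have g7 := tworho_nonneg _ (antitone_srt (M + eps S))
          have g8 := ih (tworho (srt (M + eps S))).toNat (by omega) _ (antitone_srt _) rfl
          have g9 := h3 M hMa (r + 1) hr.le S hS.1
          rw [hML] at g9
          exact g9 g8
        have h6 := (Submodule.add_mem_iff_left _ h5).1 h4
        have h7 : ∑ S ∈ T.filter (fun S => srt (M + eps S) = L),
            ((u : ℂ) ^ (inv2 M S)) • R (srt (M + eps S)) =
            (((∑ S ∈ T.filter (fun S => srt (M + eps S) = L), u ^ (inv2 M S) : ℝ)) : ℂ) • R L := by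
          rw [Complex.ofReal_sum, Finset.sum_smul]
          refine Finset.sum_congr rfl fun S hS => ?_
          rw [mem_filter] at hS
          rw [hS.2]
          push_cast
          rfl
        rw [h7] at h6
        have h8 : 0 < ∑ S ∈ T.filter (fun S => srt (M + eps S) = L), u ^ (inv2 M S) := by
          refine Finset.sum_pos (fun S _ => pow_pos hu _) ?_
          refine ⟨univ.filter (fun i : Fin n => (i : ℕ) < r + 1), ?_⟩
          rw [mem_filter, hT, mem_powersetCard]
          refine ⟨⟨subset_univ _, card_lt _ hr.le⟩, ?_⟩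
          rw [(inv_first (r + 1) hr.le M).2, hML]
          exact srt_of_antitone L hL
        have h9 : (((∑ S ∈ T.filter (fun S => srt (M + eps S) = L), u ^ (inv2 M S) : ℝ)) : ℂ) ≠ 0 := by
          exact_mod_cast h8.ne'
        exact (Submodule.smul_mem_iff _ h9).1 h6
      · -- constant
        push Not at hc
        rcases Nat.eq_zero_or_pos n with hn | hn
        · subst hn
          have : L = 0 := by funext i; exact i.elim0
          rw [this]
          exact h0
        · have h4 : ∀ k (hk : k < n), L ⟨k, hk⟩ = L ⟨0, hn⟩ := by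
            intro k
            induction k with
            | zero => intro _; rfl
            | succ k ih' =>
              intro hk
              have h5 := ih' (by omega)
              have h6 := hc k hk
              have h7 : L ⟨k + 1, hk⟩ ≤ L ⟨k, by omega⟩ := hL (by rw [Fin.le_def]; simp)
              omega
          have h5 : L = fun _ => L ⟨0, hn⟩ := by
            funext i
            exact h4 i i.2
          rw [h5]
          exact hconst _
  intro L hL
  exact key _ L hL rfl

end MPtg.IndM

namespace MPtg

theorem specInd : SpecInd := by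
  intro n u hu X _ _ R e W hP h0 h1 h2 h3
  exact IndM.ind specSrt u hu X R e W hP h0 h1 h2 h3

end MPtg
end
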