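import Pool.Agent.Lib.MP_3d2757_nt.Cnt
import Pool.Agent.Lib.MP_3d2757_nt.Ind

section
/-! # MP_3d2757_nt : module HL0 -/
open Finset

namespace MPtg.HL0M

open StrM BubM SrtM

/-- product over pairs, first index split off -/
theorem DD_succ {n : ℕ} (u : ℂ) (y : Fin (n + 1) → ℂ) :
    DD u y = (∏ j : Fin n, ph u (y 0) (y j.succ)) * DD u (fun j : Fin n => y j.succ) := by
  rw [← DD_eq, ← DD_eq, Fin.prod_univ_succ]
  congr 1
  · have : (Finset.Ioi (0 : Fin (n + 1))) = univ.map (Fin.succEmb n) := by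
      ext j
      simp only [mem_Ioi, mem_map, mem_univ, true_and, Fin.coe_succEmb]
      constructor
      · intro h
        exact ⟨j.pred h.ne', by simp⟩
      · rintro ⟨a, rfl⟩
        exact Fin.succ_pos a
    rw [this, Finset.prod_map]
    rfl
  · refine Finset.prod_congr rfl fun i _ => ?_
    have : Finset.Ioi i.succ = (Finset.Ioi i).map (Fin.succEmb n) := by
      ext j
      simp only [mem_Ioi, mem_map, Fin.coe_succEmb]
      constructor
      · intro h
        have h0 : j ≠ 0 := by
          rintro rfl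
          exact absurd h (not_lt.2 (Fin.zero_le _))
        refine ⟨j.pred h0, ?_, by simp⟩
        rw [← Fin.succ_lt_succ_iff]
        simpa using h
      · rintro ⟨a, ha, rfl⟩
        exact Fin.succ_lt_succ_iff.2 ha
    rw [this, Finset.prod_map]
    rfl

theorem prod_swap {n : ℕ} (p : Fin (n + 1)) (g : Fin (n + 1) → ℂ) :
    ∏ j : Fin n, g (Equiv.swap 0 p j.succ) = ∏ i ∈ univ.erase p, g i := by
  classical
  have h1 : ∏ i, g i = g p * ∏ j : Fin n, g (Equiv.swap 0 p j.succ) := by
    rw [← Equiv.prod_comp (Equiv.swap 0 p) g, Fin.prod_univ_succ, Equiv.swap_apply_left]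
  -- avoid division: bijection
  refine Finset.prod_bij (fun j _ => Equiv.swap 0 p j.succ) ?_ ?_ ?_ ?_
  · intro j _
    rw [mem_erase]
    refine ⟨?_, mem_univ _⟩
    intro h
    have h2 : Equiv.swap 0 p j.succ = Equiv.swap 0 p 0 := by rw [h, Equiv.swap_apply_left]
    exact Fin.succ_ne_zero j ((Equiv.swap 0 p).injective h2)
  · intro a _ b _ h
    exact Fin.succ_injective _ ((Equiv.swap 0 p).injective h)
  · intro b hb
    rw [mem_erase] at hb
    have h0 : Equiv.swap 0 p b ≠ 0 := by
      intro h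
      apply hb.1
      have := congrArg (Equiv.swap 0 p) h
      rwa [Equiv.swap_apply_self, Equiv.swap_apply_left] at this
    refine ⟨(Equiv.swap 0 p b).pred h0, mem_univ _, ?_⟩
    simp
  · intro j _
    rfl

/-- first index recursion -/
theorem hlr_first {n : ℕ} (u : ℂ) (L : Fin (n + 1) → ℤ) (x : Fin (n + 1) → ℂ) :
    HLR u L x = ∑ p, x p ^ (L 0) * (∏ i ∈ univ.erase p, ph u (x p) (x i)) *
      HLR u (fun j : Fin n => L j.succ) (fun j : Fin n => x (Equiv.swap 0 p j.succ)) := by
  classical
  rw [HLR_eq, ← Equiv.sum_comp Equiv.Perm.decomposeFin.symm, Fintype.sum_prod_type]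
  refine Finset.sum_congr rfl fun p _ => ?_
  rw [HLR_eq, Finset.mul_sum]
  refine Finset.sum_congr rfl fun e _ => ?_
  rw [DD_succ]
  unfold mon
  rw [Fin.prod_univ_succ]
  simp only [Equiv.Perm.decomposeFin_symm_apply_zero, Equiv.Perm.decomposeFin_symm_apply_succ]
  have h1 : ∏ j : Fin n, ph u (x p) (x (Equiv.swap 0 p (e j).succ)) =
      ∏ i ∈ univ.erase p, ph u (x p) (x i) := by
    rw [← prod_swap p (fun i => ph u (x p) (x i))]
    exact Equiv.prod_comp e (fun j => ph u (x p) (x (Equiv.swap 0 p j.succ)))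
  rw [h1]
  ring

/-- the Lagrange identity -/
theorem lagr {m : ℕ} (u : ℂ) (hu : u ≠ 1) (x : Fin m → ℂ) (hx : ∀ i, x i ≠ 0)
    (hinj : Function.Injective x) :
    ∑ p, ∏ i ∈ univ.erase p, ph u (x p) (x i) = ∑ l ∈ range m, u ^ l := by
  classical
  rcases Nat.eq_zero_or_pos m with hm | hm
  · subst hm; simp
  set f : Polynomial ℂ := (∏ i, (Polynomial.X - Polynomial.C (u * x i))) -
    ∏ i, (Polynomial.X - Polynomial.C (x i)) with hf
  have hdeg : f.degree < (univ : Finset (Fin m)).card := by
    have h1 : (∏ i : Fin m, (Polynomial.X - Polynomial.C (u * x i))).Monic :=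
      Polynomial.monic_prod_X_sub_C _ _
    have h2 : (∏ i : Fin m, (Polynomial.X - Polynomial.C (x i))).Monic :=
      Polynomial.monic_prod_X_sub_C _ _
    have d1 : (∏ i : Fin m, (Polynomial.X - Polynomial.C (u * x i))).degree = (m : WithBot ℕ) := by
      rw [Polynomial.degree_prod]; simp only [Polynomial.degree_X_sub_C]; simp
    have d2 : (∏ i : Fin m, (Polynomial.X - Polynomial.C (x i))).degree = (m : WithBot ℕ) := by
      rw [Polynomial.degree_prod]; simp
    have := Polynomial.degree_sub_lt_left (d1.trans d2.symm) h1.ne_zero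
      (h1.leadingCoeff.trans h2.leadingCoeff.symm)
    rw [d1] at this
    rw [card_univ, Fintype.card_fin]
    exact this
  have h3 := Lagrange.eq_interpolate (s := univ) (v := x) (f := f) hinj.injOn hdeg
  have h4 := congrArg (Polynomial.eval 0) h3
  rw [Lagrange.interpolate_apply, Polynomial.eval_finsetSum] at h4
  have h5 : ∀ p, Polynomial.eval (x p) f = (1 - u) * x p * ∏ i ∈ univ.erase p, (x p - u * x i) := by
    intro p
    rw [hf, Polynomial.eval_sub, Polynomial.eval_prod, Polynomial.eval_prod]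
    have e1 : ∏ i, Polynomial.eval (x p) (Polynomial.X - Polynomial.C (x i)) = 0 :=
      Finset.prod_eq_zero (mem_univ p) (by simp)
    rw [e1, sub_zero, ← Finset.mul_prod_erase univ _ (mem_univ p)]
    simp only [Polynomial.eval_sub, Polynomial.eval_X, Polynomial.eval_C]
    ring
  have h6 : ∀ p, Polynomial.eval 0 (Lagrange.basis univ x p) =
      ∏ i ∈ univ.erase p, (-(x i)) / (x p - x i) := by
    intro p
    unfold Lagrange.basis Lagrange.basisDivisor
    rw [Polynomial.eval_prod]
    refine Finset.prod_congr rfl fun i _ => ?_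
    simp only [Polynomial.eval_mul, Polynomial.eval_sub, Polynomial.eval_X, Polynomial.eval_C]
    rw [zero_sub, div_eq_inv_mul]
  have h7 : Polynomial.eval 0 f = (∏ i, (-(x i))) * (u ^ m - 1) := by
    rw [hf, Polynomial.eval_sub, Polynomial.eval_prod, Polynomial.eval_prod]
    simp only [Polynomial.eval_sub, Polynomial.eval_X, Polynomial.eval_C, zero_sub]
    have : ∏ i, (-(u * x i)) = u ^ m * ∏ i, (-(x i)) := by
      have e : ∀ i, (-(u * x i)) = u * (-(x i)) := fun i => by ring
      simp only [e, Finset.prod_mul_distrib, Finset.prod_const, card_univ, Fintype.card_fin]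
    rw [this]
    ring
  rw [h7] at h4
  have h8 : ∀ p, Polynomial.eval 0 (Polynomial.C (Polynomial.eval (x p) f) *
      Lagrange.basis univ x p) =
      (∏ i, (-(x i))) * (-(1 - u)) * ∏ i ∈ univ.erase p, ph u (x p) (x i) := by
    intro p
    rw [Polynomial.eval_mul, Polynomial.eval_C, h5, h6]
    unfold ph
    rw [← Finset.mul_prod_erase univ (fun i => (-(x i))) (mem_univ p), Finset.prod_div_distrib,
      Finset.prod_div_distrib]
    ring
  simp only [h8] at h4
  rw [← Finset.mul_sum, mul_assoc] at h4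
  have h9 : (∏ i, (-(x i))) ≠ 0 := Finset.prod_ne_zero_iff.2 fun i _ => neg_ne_zero.2 (hx i)
  have h10 := mul_left_cancel₀ h9 h4
  have h11 := geom_sum_mul u m
  have h12 : (u - 1) ≠ 0 := sub_ne_zero.2 hu
  apply mul_right_cancel₀ h12
  rw [h11]
  linear_combination -h10

theorem hl0 : ∀ (n : ℕ) (u : ℂ), u ≠ 1 → ∀ x : Fin n → ℂ, (∀ i, x i ≠ 0) →
    Function.Injective x → HLR u 0 x = vv n u := by
  intro n
  induction n with
  | zero =>
    intro u _ x _ _
    simp [HLR, vv, mon]
  | succ n ih =>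
    intro u hu x hx hinj
    rw [hlr_first]
    have h1 : ∀ p : Fin (n + 1), HLR u (fun j : Fin n => (0 : Fin (n + 1) → ℤ) j.succ)
        (fun j : Fin n => x (Equiv.swap 0 p j.succ)) = vv n u := by
      intro p
      exact ih u hu _ (fun j => hx _) (fun a b h => Fin.succ_injective _
        ((Equiv.swap 0 p).injective (hinj h)))
    have h2 : ∀ p ∈ (univ : Finset (Fin (n + 1))), x p ^ ((0 : Fin (n + 1) → ℤ) 0) *
        (∏ i ∈ univ.erase p, ph u (x p) (x i)) *
        HLR u (fun j : Fin n => (0 : Fin (n + 1) → ℤ) j.succ)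
          (fun j : Fin n => x (Equiv.swap 0 p j.succ)) =
        (∏ i ∈ univ.erase p, ph u (x p) (x i)) * vv n u := by
      intro p _
      rw [h1, Pi.zero_apply, zpow_zero, one_mul]
    rw [Finset.sum_congr rfl h2, ← Finset.sum_mul, lagr u hu x hx hinj]
    unfold vv
    rw [Finset.prod_range_succ, mul_comm]

end MPtg.HL0M

namespace MPtg

theorem specHL0 : SpecHL0 := HL0M.hl0

end MPtg
end

section
/-! # MP_3d2757_nt : modules POLY and RPP -/
open Finset Filter Topology

namespace MPtg.PolyM

open SrtM StrM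

variable {n : ℕ}

/-- nonzero points -/
def NZ (n : ℕ) : Set (Fin n → ℂ) := {x | ∀ i, x i ≠ 0}

theorem NZ_open (n : ℕ) : IsOpen (NZ n) := by
  have : NZ n = ⋂ i, {x : Fin n → ℂ | x i ≠ 0} := by
    ext x; simp [NZ]
  rw [this]
  exact isOpen_iInter_of_finite fun i => isOpen_ne.preimage (continuous_apply i)

theorem lim_inj (x : Fin n → ℂ) (hx : ∀ i, x i ≠ 0) :
    ∃ γ : ℝ → (Fin n → ℂ), Tendsto γ (𝓝[≠] 0) (𝓝 x) ∧
      ∀ᶠ ε in 𝓝[≠] (0 : ℝ), (∀ i, γ ε i ≠ 0) ∧ Function.Injective (γ ε) := by
  refine ⟨fun ε i => x i + (ε : ℂ) * (i : ℕ), ?_, ?_⟩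
  · have : Continuous fun ε : ℝ => (fun i : Fin n => x i + (ε : ℂ) * ((i : ℕ) : ℂ)) := by
      fun_prop
    have h := this.tendsto 0
    simp only [Complex.ofReal_zero, zero_mul, add_zero] at h
    exact h.mono_left nhdsWithin_le_nhds
  · have h1 : ∀ i : Fin n, ∀ᶠ ε : ℝ in 𝓝[≠] (0 : ℝ), x i + (ε : ℂ) * ((i : ℕ) : ℂ) ≠ 0 := by
      intro i
      have hc : Continuous fun ε : ℝ => x i + (ε : ℂ) * ((i : ℕ) : ℂ) := by fun_prop
      have h := hc.tendsto 0
      simp only [Complex.ofReal_zero, zero_mul, add_zero] at h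
      exact (h.mono_left nhdsWithin_le_nhds).eventually_ne (hx i)
    have h2 : ∀ i j : Fin n, i ≠ j → ∀ᶠ ε : ℝ in 𝓝[≠] (0 : ℝ),
        x i + (ε : ℂ) * ((i : ℕ) : ℂ) ≠ x j + (ε : ℂ) * ((j : ℕ) : ℂ) := by
      intro i j hij
      by_cases hxx : x i = x j
      · filter_upwards [self_mem_nhdsWithin] with ε hε h
        rw [hxx] at h
        have h3 := add_left_cancel h
        have h4 := mul_left_cancel₀ (Complex.ofReal_ne_zero.2 hε) h3
        exact hij (Fin.ext (by exact_mod_cast h4))
      · have hc : Continuous fun ε : ℝ => (x i + (ε : ℂ) * ((i : ℕ) : ℂ)) -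
            (x j + (ε : ℂ) * ((j : ℕ) : ℂ)) := by fun_prop
        have h := hc.tendsto 0
        simp only [Complex.ofReal_zero, zero_mul, add_zero] at h
        have h3 := (h.mono_left (nhdsWithin_le_nhds (s := {0}ᶜ))).eventually_ne
          (sub_ne_zero.2 hxx)
        filter_upwards [h3] with ε hε
        exact sub_ne_zero.1 hε
    have h3 := (eventually_all.2 h1)
    have h4 : ∀ᶠ ε : ℝ in 𝓝[≠] (0 : ℝ), ∀ i j : Fin n, i ≠ j →
        x i + (ε : ℂ) * ((i : ℕ) : ℂ) ≠ x j + (ε : ℂ) * ((j : ℕ) : ℂ) := by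
      rw [eventually_all]
      intro i
      rw [eventually_all]
      intro j
      by_cases hij : i = j
      · simp [hij]
      · filter_upwards [h2 i j hij] with ε hε _
        exact hε
    filter_upwards [h3, h4] with ε h5 h6
    refine ⟨h5, fun i j hij => ?_⟩
    by_contra hne
    exact h6 i j hne hij

/-- identities extend from injective points -/
theorem eq_of_inj (f g : (Fin n → ℂ) → ℂ) (hf : ContinuousOn f (NZ n))
    (hg : ContinuousOn g (NZ n))
    (h : ∀ x, (∀ i, x i ≠ 0) → Function.Injective x → f x = g x) :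
    ∀ x, (∀ i, x i ≠ 0) → f x = g x := by
  intro x hx
  obtain ⟨γ, h1, h2⟩ := lim_inj x hx
  have h3 := ((hf.continuousAt ((NZ_open n).mem_nhds hx)).tendsto.comp h1)
  have h4 := ((hg.continuousAt ((NZ_open n).mem_nhds hx)).tendsto.comp h1)
  refine tendsto_nhds_unique h3 (h4.congr' ?_)
  filter_upwards [h2] with ε hε
  exact (h _ hε.1 hε.2).symm

theorem mon_cont (a : Fin n → ℤ) : ContinuousOn (mon a) (NZ n) := by
  unfold mon
  refine continuousOn_finsetProd _ fun i _ => ?_
  intro x hx
  exact ((continuous_apply i).continuousAt.zpow₀ (a i) (Or.inl (hx i))).continuousWithinAt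

theorem lp_cont {f : (Fin n → ℂ) → ℂ} (hf : IsLP f) : ContinuousOn f (NZ n) := by
  obtain ⟨s, c, h⟩ := hf
  have : ContinuousOn (fun x => ∑ a ∈ s, c a * mon a x) (NZ n) :=
    continuousOn_finsetSum _ fun a _ => continuousOn_const.mul (mon_cont a)
  exact this.congr fun x hx => h x hx

/-- support condition -/
def SC (L a : Fin n → ℤ) : Prop :=
  psum a n = psum L n ∧ ∀ A : Finset (Fin n), ∑ i ∈ A, a i ≤ psum L A.card

/-- the domain of the function space -/
abbrev DN (n : ℕ) := {x : Fin n → ℂ // (∀ i, x i ≠ 0) ∧ Function.Injective x}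

/-- monomial function -/
noncomputable def mf (a : Fin n → ℤ) : DN n → ℂ := fun x => mon a x.1

/-- the filtration -/
noncomputable def WW (L : Fin n → ℤ) : Submodule ℂ (DN n → ℂ) :=
  Submodule.span ℂ (Set.range fun a : {a : Fin n → ℤ // SC L a} => mf a.1)

theorem mf_mem {L a : Fin n → ℤ} (h : SC L a) : mf a ∈ WW L :=
  Submodule.subset_span ⟨⟨a, h⟩, rfl⟩

theorem WW_le {L : Fin n → ℤ} (P : Submodule ℂ (DN n → ℂ)) (h : ∀ a, SC L a → mf a ∈ P) :
    WW L ≤ P := by
  rw [WW, Submodule.span_le]
  rintro _ ⟨a, rfl⟩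
  exact h a.1 a.2

theorem psum_om (r k : ℕ) (hr : r ≤ n) (hk : k ≤ n) : psum (om n r) k = min k r := by
  classical
  rw [psum_eq_sum]
  unfold om
  rw [← Finset.sum_filter, Finset.sum_const, Finset.filter_filter]
  have : (univ.filter (fun i : Fin n => (i : ℕ) < k ∧ (i : ℕ) < r)) =
      (univ.filter (fun i : Fin n => (i : ℕ) < min k r)) := by
    ext i
    simp
  rw [this, card_lt _ (by omega)]
  simp

theorem SC_eps {L a : Fin n → ℤ} (h : SC L a) (r : ℕ) (hr : r ≤ n) (S : Finset (Fin n))
    (hS : S.card = r) : SC (L + om n r) (a + eps S) := by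
  classical
  constructor
  · rw [psum_add, psum_add, h.1, psum_om r n hr le_rfl, psum_n (eps S) n le_rfl, sum_eps, hS]
    simp [hr]
  · intro A
    have hA : A.card ≤ n := by simpa using A.card_le_univ
    rw [psum_add, psum_om r _ hr hA]
    simp only [Pi.add_apply, Finset.sum_add_distrib]
    refine add_le_add (h.2 A) ?_
    have h1 : ∑ i ∈ A, eps S i = ((A ∩ S).card : ℤ) := by
      unfold eps
      rw [← Finset.sum_filter, Finset.sum_const, Finset.filter_mem_eq_inter]
      simp
    rw [h1]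
    have h2 : (A ∩ S).card ≤ A.card := Finset.card_le_card Finset.inter_subset_left
    have h3 : (A ∩ S).card ≤ S.card := Finset.card_le_card Finset.inter_subset_right
    rw [hS] at h3
    push_cast
    rw [le_min_iff]
    exact ⟨by exact_mod_cast h2, by exact_mod_cast h3⟩

theorem esy_mon (x : Fin n → ℂ) (hx : ∀ i, x i ≠ 0) (r : ℕ) (a : Fin n → ℤ) :
    esy x r * mon a x = ∑ S ∈ powersetCard r (univ : Finset (Fin n)), mon (a + eps S) x := by
  rw [esy, Finset.sum_mul]
  refine Finset.sum_congr rfl fun S _ => ?_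
  rw [mon_add _ hx, prod_eps]
  ring

theorem esy_n (x : Fin n → ℂ) : esy x n = mon (om n n) x := by
  classical
  have : powersetCard n (univ : Finset (Fin n)) = {univ} := by
    have := Finset.powersetCard_self (univ : Finset (Fin n))
    rwa [Finset.card_univ, Fintype.card_fin] at this
  rw [esy, this, Finset.sum_singleton]
  unfold mon om
  exact Finset.prod_congr rfl fun i _ => by rw [if_pos i.2, zpow_one]

theorem mon_ne (x : Fin n → ℂ) (hx : ∀ i, x i ≠ 0) (a : Fin n → ℤ) : mon a x ≠ 0 :=
  Finset.prod_ne_zero_iff.2 fun i _ => zpow_ne_zero _ (hx i)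

theorem main (u : ℝ) (hu : 0 < u) (hu1 : u < 1) (L : Fin n → ℤ) (hL : Antitone L) :
    (fun x : DN n => HLR (u : ℂ) L x.1) ∈ WW L := by
  classical
  refine IndM.ind specSrt u hu (DN n → ℂ) (fun L => fun x : DN n => HLR (u : ℂ) L x.1)
    (fun r => LinearMap.mulLeft ℂ (fun x : DN n => esy x.1 r)) WW ?_ ?_ ?_ ?_ ?_ L hL
  · intro L hL r hr
    funext x
    have := specPieri n (u : ℂ) x.1 x.2.1 x.2.2 L hL r hr
    rw [Finset.sum_apply]
    exact this
  · have h0 : (fun x : DN n => HLR (u : ℂ) 0 x.1) = (vv n u) • mf 0 := by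
      funext x
      rw [HL0M.hl0 n (u : ℂ) (by exact_mod_cast hu1.ne) x.1 x.2.1 x.2.2]
      simp [mf, mon]
    rw [h0]
    refine Submodule.smul_mem _ _ (mf_mem ⟨rfl, fun A => ?_⟩)
    simp [psum]
  · intro L hL r hr y hy
    have : WW L ≤ (WW (L + om n r)).comap (LinearMap.mulLeft ℂ (fun x : DN n => esy x.1 r)) := by
      refine WW_le _ fun a ha => ?_
      rw [Submodule.mem_comap]
      have e : (LinearMap.mulLeft ℂ (fun x : DN n => esy x.1 r)) (mf a) =
          ∑ S ∈ powersetCard r (univ : Finset (Fin n)), mf (a + eps S) := by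
        funext x
        rw [Finset.sum_apply]
        exact esy_mon x.1 x.2.1 r a
      rw [e]
      refine Submodule.sum_mem _ fun S hS => mf_mem (SC_eps ha r hr S (mem_powersetCard.1 hS).2)
    exact this hy
  · intro L hL y hy
    have : WW (L + om n n) ≤ (WW L).comap
        (LinearMap.mulLeft ℂ (fun x : DN n => (esy x.1 n)⁻¹)) := by
      refine WW_le _ fun a ha => ?_
      rw [Submodule.mem_comap]
      have e : (LinearMap.mulLeft ℂ (fun x : DN n => (esy x.1 n)⁻¹)) (mf a) = mf (a - om n n) := by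
        funext x
        change (esy x.1 n)⁻¹ * mon a x.1 = mon (a - om n n) x.1
        have h1 : a = (a - om n n) + om n n := by simp
        conv_lhs => rw [h1, mon_add _ x.2.1, esy_n]
        field_simp [mon_ne x.1 x.2.1 (om n n)]
      rw [e]
      refine mf_mem ⟨?_, fun A => ?_⟩
      · have := ha.1
        rw [psum_add] at this
        have h2 : psum a n = psum (a - om n n) n + psum (om n n) n := by
          rw [← psum_add]; simp
        rw [h2] at this
        exact add_right_cancel this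
      · have hA : A.card ≤ n := by simpa using A.card_le_univ
        have h2 := ha.2 A
        rw [psum_add, psum_om n _ le_rfl hA] at h2
        have h3 : ∑ i ∈ A, (a - om n n) i = ∑ i ∈ A, a i - A.card := by
          simp only [Pi.sub_apply, Finset.sum_sub_distrib]
          congr 1
          rw [Finset.sum_congr rfl (fun i _ => show om n n i = 1 by simp [om])]
          simp
        rw [h3]
        have h4 : min A.card n = A.card := by omega
        push_cast [h4] at h2
        linarith
    have h1 := this hy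
    rw [Submodule.mem_comap] at h1
    have e : (LinearMap.mulLeft ℂ (fun x : DN n => (esy x.1 n)⁻¹))
        ((LinearMap.mulLeft ℂ (fun x : DN n => esy x.1 n)) y) = y := by
      funext x
      change (esy x.1 n)⁻¹ * (esy x.1 n * y x) = y x
      rw [← mul_assoc, inv_mul_cancel₀, one_mul]
      rw [esy_n]
      exact mon_ne _ x.2.1 _
    rwa [e] at h1
  · intro L hL r hr S hS
    have hSc : S.card = r := (mem_powersetCard.1 hS).2
    refine WW_le _ fun a ha => mf_mem ⟨?_, fun A => ?_⟩
    · rw [ha.1, (specSrt n L hL S).2.2.2.2, psum_add, psum_om r n hr le_rfl, hSc]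
      simp [hr]
    · have h1 := (specSrt n L hL S).2.2.2.1 A.card
      rw [hSc] at h1
      exact (ha.2 A).trans h1

theorem exists_lp (u : ℝ) (hu : 0 < u) (hu1 : u < 1) (L : Fin n → ℤ) (hL : Antitone L) :
    ∃ (s : Finset (Fin n → ℤ)) (c : (Fin n → ℤ) → ℂ), (∀ a ∈ s, SC L a) ∧
      ∀ x : Fin n → ℂ, (∀ i, x i ≠ 0) → Function.Injective x →
        ∑ a ∈ s, c a * mon a x = HLR (u : ℂ) L x := by
  classical
  have h := main u hu hu1 L hL
  rw [WW, Finsupp.mem_span_range_iff_exists_finsupp] at h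
  obtain ⟨c, hc⟩ := h
  refine ⟨c.support.map (Function.Embedding.subtype _),
    fun a => if h : SC L a then c ⟨a, h⟩ else 0, ?_, ?_⟩
  · intro a ha
    simp only [Finset.mem_map, Function.Embedding.coe_subtype] at ha
    obtain ⟨b, _, rfl⟩ := ha
    exact b.2
  · intro x hx hinj
    have h2 := congrFun hc ⟨x, hx, hinj⟩
    rw [Finset.sum_map]
    rw [← h2, Finsupp.sum, Finset.sum_apply]
    refine Finset.sum_congr rfl fun a _ => ?_
    have hcc : (if h : SC L a.1 then c ⟨a.1, h⟩ else 0) = c a := dif_pos a.2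
    exact congrArg (fun z => z * mon a.1 x) hcc

theorem rp_spec (u : ℝ) (hu : 0 < u) (hu1 : u < 1) (L : Fin n → ℤ) (hL : Antitone L) :
    IsLP (RP (u : ℂ) L) ∧
      ∀ x, (∀ i, x i ≠ 0) → Function.Injective x → RP (u : ℂ) L x = HLR (u : ℂ) L x := by
  obtain ⟨s, c, _, hc⟩ := exists_lp u hu hu1 L hL
  have h : ∃ f : (Fin n → ℂ) → ℂ, IsLP f ∧
      ∀ x, (∀ i, x i ≠ 0) → Function.Injective x → f x = HLR (u : ℂ) L x :=
    ⟨fun x => ∑ a ∈ s, c a * mon a x, ⟨s, c, fun _ _ => rfl⟩, hc⟩
  unfold RP
  rw [dif_pos h]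
  exact h.choose_spec

end MPtg.PolyM

namespace MPtg

open PolyM SrtM StrM

theorem specPoly : SpecPoly := by
  intro n u hu hu1 L hL
  obtain ⟨h1, h2⟩ := rp_spec u hu hu1 L hL
  refine ⟨h2, ?_⟩
  obtain ⟨s, c, hs, hc⟩ := exists_lp u hu hu1 L hL
  refine ⟨s, c, hs, ?_⟩
  refine eq_of_inj _ _ (lp_cont h1) (lp_cont ⟨s, c, fun _ _ => rfl⟩) ?_
  intro x hx hinj
  rw [h2 x hx hinj, hc x hx hinj]

theorem hlr_perm {n : ℕ} (u : ℂ) (L : Fin n → ℤ) (x : Fin n → ℂ) (w : Equiv.Perm (Fin n)) :
    HLR u L (fun i => x (w i)) = HLR u L x := by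
  rw [HLR_eq, HLR_eq]
  exact Equiv.sum_comp (Equiv.mulLeft w)
    (fun v => mon L (fun i => x (v i)) * DD u (fun i => x (v i)))

theorem perm_cont {n : ℕ} (f : (Fin n → ℂ) → ℂ) (hf : ContinuousOn f (NZ n))
    (w : Equiv.Perm (Fin n)) : ContinuousOn (fun x : Fin n → ℂ => f (fun i => x (w i))) (NZ n) := by
  have h1 : Continuous fun x : Fin n → ℂ => (fun i => x (w i)) := by fun_prop
  exact hf.comp h1.continuousOn fun x hx i => hx (w i)

theorem specRpp : SpecRpp := by
  intro n u hu hu1
  have hc : ∀ L : Fin n → ℤ, Antitone L → ContinuousOn (RP (u : ℂ) L) (NZ n) :=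
    fun L hL => lp_cont (rp_spec u hu hu1 L hL).1
  have h0 : Antitone (0 : Fin n → ℤ) := fun _ _ _ => le_rfl
  refine ⟨?_, hc, ?_, ?_⟩
  · refine eq_of_inj _ _ (hc 0 h0) continuousOn_const ?_
    intro x hx hinj
    rw [(rp_spec u hu hu1 0 h0).2 x hx hinj]
    exact HL0M.hl0 n (u : ℂ) (by exact_mod_cast hu1.ne) x hx hinj
  · intro L hL x hx w
    refine eq_of_inj (fun x => RP (u : ℂ) L (fun i => x (w i))) (RP (u : ℂ) L)
      (perm_cont _ (hc L hL) w) (hc L hL) ?_ x hx
    intro x hx hinj
    have h1 := (rp_spec u hu hu1 L hL).2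
    change RP (u : ℂ) L (fun i => x (w i)) = _
    rw [h1 _ (fun i => hx _) (hinj.comp w.injective), h1 x hx hinj, hlr_perm]
  · intro L hL x hx r hr
    have he : ContinuousOn (fun x : Fin n → ℂ => esy x r) (NZ n) := by
      unfold esy
      refine Continuous.continuousOn ?_
      fun_prop
    refine eq_of_inj (fun x => esy x r * RP (u : ℂ) L x)
      (fun x => ∑ S ∈ powersetCard r (univ : Finset (Fin n)),
        (u : ℂ) ^ (inv2 L S) * RP (u : ℂ) (srt (L + eps S)) x) (he.mul (hc L hL)) ?_ ?_ x hx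
    · exact continuousOn_finsetSum _ fun S _ => continuousOn_const.mul
        (hc _ (antitone_srt _))
    · intro x hx hinj
      have h1 := fun (L : Fin n → ℤ) (hL : Antitone L) => (rp_spec u hu hu1 L hL).2 x hx hinj
      change esy x r * RP (u : ℂ) L x = _
      rw [h1 L hL, specPieri n (u : ℂ) x hx hinj L hL r hr]
      refine Finset.sum_congr rfl fun S _ => ?_
      rw [h1 _ (antitone_srt _)]

end MPtg
end

section
/-! # MP_3d2757_nt : modules MAC and HERM -/
open Finset

namespace MPtg.MacM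

open SrtM StrM

theorem vv_ne0 (n : ℕ) (u : ℝ) (h0 : 0 < u) : vv n (u : ℂ) ≠ 0 := by
  unfold vv
  rw [Finset.prod_ne_zero_iff]
  intro k _
  have : 0 < ∑ l ∈ range (k + 1), u ^ l := Finset.sum_pos (fun l _ => pow_pos h0 l) ⟨0, by simp⟩
  have h2 : ∑ l ∈ range (k + 1), (u : ℂ) ^ l = ((∑ l ∈ range (k + 1), u ^ l : ℝ) : ℂ) := by
    push_cast; rfl
  rw [h2]
  exact_mod_cast this.ne'

end MPtg.MacM

namespace MPtg

open SrtM StrM MacM

theorem specMac : SpecMac := by
  classical
  intro n q hq x hx P hP L hL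
  have hq0 : (q : ℂ) ≠ 0 := by
    have : q ≠ 0 := by omega
    exact_mod_cast this
  have hqr : (0 : ℝ) < q := by positivity
  set u : ℝ := ((q : ℝ)⁻¹) ^ 2 with hu
  have hu0 : 0 < u := by positivity
  have hu1 : u < 1 := by
    rw [hu]
    refine pow_lt_one₀ (by positivity) ?_ (by norm_num)
    apply inv_lt_one_of_one_lt₀
    exact_mod_cast hq
  have huq : (u : ℂ) = ((q : ℂ) ^ 2)⁻¹ := by rw [hu]; push_cast; rw [inv_pow]
  obtain ⟨r1, _, _, r4⟩ := specRpp n u hu0 hu1
  -- the difference
  set R : (Fin n → ℤ) → ℂ := fun L => (q : ℂ) ^ (tworho L) * vv n (u : ℂ) * P L - RP (u : ℂ) L x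
    with hR
  have key : ∀ L, Antitone L → R L ∈ (⊥ : Submodule ℂ ℂ) := by
    refine IndM.ind specSrt u hu0 ℂ R (fun r => LinearMap.mulLeft ℂ (esy x r)) (fun _ => ⊥)
      ?_ ?_ ?_ ?_ ?_
    · intro L hL r hr
      change esy x r * R L = _
      have h1 := r4 L hL x hx r hr
      have h2 := hP.2 L hL r hr
      rw [hR]
      simp only [smul_eq_mul, mul_sub, Finset.sum_sub_distrib]
      rw [h1]
      congr 1
      have h3 : ∀ S ∈ powersetCard r (univ : Finset (Fin n)),
          (u : ℂ) ^ inv2 L S * ((q : ℂ) ^ (tworho (srt (L + eps S))) * vv n (u : ℂ) *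
            P (srt (L + eps S))) =
          ((q : ℂ) ^ (r * (n - r)))⁻¹ * (q : ℂ) ^ (tworho L) * vv n (u : ℂ) *
            ((q : ℂ) ^ (2 * inv1 S) * P (srt (L + eps S))) := by
        intro S hS
        have hSc : S.card = r := (mem_powersetCard.1 hS).2
        have h4 := (specSrt n L hL S).1
        rw [hSc] at h4
        have h5 : (u : ℂ) ^ inv2 L S * (q : ℂ) ^ (tworho (srt (L + eps S))) =
            ((q : ℂ) ^ (r * (n - r)))⁻¹ * (q : ℂ) ^ (tworho L) * (q : ℂ) ^ (2 * inv1 S) := by
          have e1 : (u : ℂ) = (q : ℂ) ^ (-2 : ℤ) := by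
            rw [huq, zpow_neg]
            norm_cast
          rw [e1, h4, ← zpow_natCast ((q : ℂ) ^ (-2 : ℤ)), ← zpow_mul, ← zpow_add₀ hq0,
            ← zpow_natCast (q : ℂ) (r * (n - r)), ← zpow_neg, ← zpow_add₀ hq0,
            ← zpow_natCast (q : ℂ) (2 * inv1 S), ← zpow_add₀ hq0]
          congr 1
          push_cast [Nat.cast_sub hr]
          ring
        calc _ = ((u : ℂ) ^ inv2 L S * (q : ℂ) ^ (tworho (srt (L + eps S)))) * vv n (u : ℂ) *
            P (srt (L + eps S)) := by ring
          _ = _ := by rw [h5]; ring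
      rw [Finset.sum_congr rfl h3, ← Finset.mul_sum, h2]
      have h6 : ((q : ℂ) ^ (r * (n - r))) ≠ 0 := pow_ne_zero _ hq0
      field_simp
    · have h0 : tworho (0 : Fin n → ℤ) = 0 := by simp [tworho]
      rw [hR]
      simp only [h0, zpow_zero, one_mul, hP.1, mul_one, r1 x hx, sub_self, Submodule.zero_mem]
    · intro L hL r hr y hy
      rw [Submodule.mem_bot] at hy ⊢
      rw [hy, map_zero]
    · intro L hL y hy
      rw [Submodule.mem_bot] at hy ⊢
      change esy x n * y = 0 at hy
      rcases mul_eq_zero.1 hy with h | h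
      · rw [PolyM.esy_n] at h
        exact absurd h (PolyM.mon_ne x hx _)
      · exact h
    · intro L hL r hr S hS
      exact le_rfl
  have h1 := key L hL
  rw [Submodule.mem_bot, hR] at h1
  have h2 : (q : ℂ) ^ (tworho L) * vv n (u : ℂ) * P L = RP (u : ℂ) L x := sub_eq_zero.1 h1
  have h3 : (q : ℂ) ^ (tworho L) ≠ 0 := zpow_ne_zero _ hq0
  have h4 := vv_ne0 n u hu0
  rw [← h2, inv_zpow]
  field_simp

/-- tuples with the same elementary symmetric functions differ by a permutation -/
theorem MacM.perm_of_esy {n : ℕ} (x y : Fin n → ℂ) (h : ∀ r ≤ n, esy x r = esy y r) :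
    ∃ w : Equiv.Perm (Fin n), ∀ i, x (w i) = y i := by
  classical
  have h1 : ∀ z : Fin n → ℂ, (((univ : Finset (Fin n)).val.map z).map
      fun t => Polynomial.X - Polynomial.C t).prod =
      ∑ j ∈ range (n + 1), (-1) ^ j * (Polynomial.C (esy z j) * Polynomial.X ^ (n - j)) := by
    intro z
    rw [Multiset.prod_X_sub_X_eq_sum_esymm]
    have hc : Multiset.card ((univ : Finset (Fin n)).val.map z) = n := by simp
    rw [hc]
    refine Finset.sum_congr rfl fun j _ => ?_
    rw [Finset.esymm_map_val]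
    rfl
  have h2 : (((univ : Finset (Fin n)).val.map x).map
      fun t => Polynomial.X - Polynomial.C t).prod = (((univ : Finset (Fin n)).val.map y).map
      fun t => Polynomial.X - Polynomial.C t).prod := by
    rw [h1, h1]
    refine Finset.sum_congr rfl fun j hj => ?_
    rw [h j (by rw [mem_range] at hj; omega)]
  have h3 : (univ : Finset (Fin n)).val.map x = (univ : Finset (Fin n)).val.map y := by
    have := congrArg Polynomial.roots h2
    rwa [Polynomial.roots_multiset_prod_X_sub_C, Polynomial.roots_multiset_prod_X_sub_C] at this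
  have h4 : ∀ c : ℂ, Fintype.card {i // x i = c} = Fintype.card {i // y i = c} := by
    intro c
    have := congrArg (Multiset.count c) h3
    rw [Multiset.count_map, Multiset.count_map] at this
    rw [Fintype.card_subtype, Fintype.card_subtype]
    have e : ∀ z : Fin n → ℂ, (univ.filter fun i => z i = c).card =
        Multiset.card (Multiset.filter (fun a => c = z a) (univ : Finset (Fin n)).val) := by
      intro z
      rw [Finset.card_def, Finset.filter_val]
      congr 2
      funext i
      exact propext eq_comm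
    rw [e, e, this]
  let e : Equiv.Perm (Fin n) := (Equiv.sigmaFiberEquiv y).symm.trans
    ((Equiv.sigmaCongrRight fun c => (Fintype.equivOfCardEq (h4 c)).symm).trans
      (Equiv.sigmaFiberEquiv x))
  refine ⟨e, fun i => ?_⟩
  simp only [e, Equiv.trans_apply, Equiv.sigmaFiberEquiv, Equiv.coe_fn_symm_mk,
    Equiv.sigmaCongrRight_apply, Equiv.coe_fn_mk]
  exact ((Fintype.equivOfCardEq (h4 (y i))).symm ⟨i, rfl⟩).2

theorem MacM.inv1_dual {n : ℕ} (S : Finset (Fin n)) :
    inv1 (Sᶜ.map Fin.revPerm.toEmbedding) = inv1 S := by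
  classical
  unfold inv1
  refine Finset.card_bij' (fun p _ => (Fin.rev p.2, Fin.rev p.1))
    (fun p _ => (Fin.rev p.2, Fin.rev p.1)) ?_ ?_ ?_ ?_
  · rintro ⟨i, j⟩ hp
    simp only [mem_filter, mem_univ, true_and, mem_map, mem_compl, Equiv.coe_toEmbedding,
      Fin.revPerm_apply] at hp ⊢
    obtain ⟨h1, ⟨a, ha, rfl⟩, h2⟩ := hp
    refine ⟨Fin.rev_lt_rev.2 h1, ?_, ?_⟩
    · by_contra h3
      exact h2 ⟨Fin.rev j, h3, by simp⟩
    · simpa using ha
  · rintro ⟨i, j⟩ hp
    simp only [mem_filter, mem_univ, true_and, mem_map, mem_compl, Equiv.coe_toEmbedding,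
      Fin.revPerm_apply] at hp ⊢
    refine ⟨Fin.rev_lt_rev.2 hp.1, ⟨j, hp.2.2, rfl⟩, ?_⟩
    rintro ⟨a, ha, h⟩
    have : a = i := by simpa using h
    rw [this] at ha
    exact ha hp.2.1
  · rintro ⟨i, j⟩ _
    simp
  · rintro ⟨i, j⟩ _
    simp

theorem MacM.esy_compl {n : ℕ} (x : Fin n → ℂ) (hx : ∀ i, x i ≠ 0) (r : ℕ) (hr : r ≤ n) :
    esy (fun i => (x i)⁻¹) r = esy x (n - r) / esy x n := by
  classical
  have hn : esy x n = ∏ i, x i := by
    rw [PolyM.esy_n]
    unfold mon om
    exact Finset.prod_congr rfl fun i _ => by rw [if_pos i.2, zpow_one]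
  rw [hn]
  unfold esy
  rw [Finset.sum_div]
  refine Finset.sum_bij' (fun S _ => Sᶜ) (fun S _ => Sᶜ) ?_ ?_ ?_ ?_ ?_
  · intro S hS
    rw [mem_powersetCard] at hS ⊢
    exact ⟨subset_univ _, by rw [card_compl, Fintype.card_fin, hS.2]⟩
  · intro S hS
    rw [mem_powersetCard] at hS ⊢
    exact ⟨subset_univ _, by rw [card_compl, Fintype.card_fin, hS.2]; omega⟩
  · intro S _
    exact compl_compl S
  · intro S _
    exact compl_compl S
  · intro S _
    rw [Finset.prod_inv_distrib, ← Finset.prod_mul_prod_compl S x]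
    have h1 : ∏ i ∈ S, x i ≠ 0 := Finset.prod_ne_zero_iff.2 fun i _ => hx i
    have h2 : ∏ i ∈ Sᶜ, x i ≠ 0 := Finset.prod_ne_zero_iff.2 fun i _ => hx i
    field_simp

theorem specHerm : SpecHerm := by
  classical
  intro n q hq x hx P hP hc
  have hq0 : (q : ℂ) ≠ 0 := by
    have : q ≠ 0 := by omega
    exact_mod_cast this
  have hqr : (0 : ℝ) < q := by positivity
  have h0 : Antitone (0 : Fin n → ℤ) := fun _ _ _ => le_rfl
  set c : ℕ → ℝ := fun r => ∑ S ∈ powersetCard r (univ : Finset (Fin n)), (q : ℝ) ^ (2 * inv1 S)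
    with hcdef
  have hcpos : ∀ r ≤ n, 0 < c r := by
    intro r hr
    refine Finset.sum_pos (fun S _ => by positivity) ?_
    rw [powersetCard_nonempty]
    simpa using hr
  have hcsym : ∀ r ≤ n, c (n - r) = c r := by
    intro r hr
    rw [hcdef]
    refine Finset.sum_bij' (fun S _ => Sᶜ.map Fin.revPerm.toEmbedding)
      (fun S _ => Sᶜ.map Fin.revPerm.toEmbedding) ?_ ?_ ?_ ?_ ?_
    · intro S hS
      rw [mem_powersetCard] at hS ⊢
      refine ⟨subset_univ _, ?_⟩
      rw [card_map, card_compl, Fintype.card_fin, hS.2]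
      omega
    · intro S hS
      rw [mem_powersetCard] at hS ⊢
      refine ⟨subset_univ _, ?_⟩
      rw [card_map, card_compl, Fintype.card_fin, hS.2]
    · intro S _
      ext i
      simp only [mem_map, mem_compl, Equiv.coe_toEmbedding, Fin.revPerm_apply]
      constructor
      · rintro ⟨a, ha, rfl⟩
        by_contra h
        exact ha ⟨Fin.rev a, h, by simp⟩
      · intro h
        refine ⟨Fin.rev i, ?_, by simp⟩
        rintro ⟨a, ha, h2⟩
        have : a = i := by simpa using h2
        rw [this] at ha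
        exact ha h
    · intro S _
      ext i
      simp only [mem_map, mem_compl, Equiv.coe_toEmbedding, Fin.revPerm_apply]
      constructor
      · rintro ⟨a, ha, rfl⟩
        by_contra h
        exact ha ⟨Fin.rev a, h, by simp⟩
      · intro h
        refine ⟨Fin.rev i, ?_, by simp⟩
        rintro ⟨a, ha, h2⟩
        have : a = i := by simpa using h2
        rw [this] at ha
        exact ha h
    · intro S _
      rw [inv1_dual]
  -- value at the fundamental weights
  have hfund : ∀ r ≤ n, (c r : ℂ) * P (om n r) = (q : ℂ) ^ (r * (n - r)) * esy x r := by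
    intro r hr
    have h1 := hP.2 0 h0 r hr
    rw [hP.1, mul_one] at h1
    rw [← h1, hcdef]
    push_cast
    rw [Finset.sum_mul]
    refine Finset.sum_congr rfl fun S hS => ?_
    have hSc : S.card = r := (mem_powersetCard.1 hS).2
    congr 2
    rw [zero_add]
    obtain ⟨w, hw⟩ := eps_image S
    rw [hw, srt_perm, hSc, srt_of_antitone _ (antitone_om r)]
  have hshift : ∀ r ≤ n, P (om n (n - r)) = esy x n * (starRingEnd ℂ) (P (om n r)) := by
    intro r hr
    have h1 : (fun i => - om n r (Fin.rev i)) = fun i : Fin n => om n (n - r) i - 1 := by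
      funext i
      unfold om
      have := i.2
      have e : ((Fin.rev i : Fin n) : ℕ) = n - 1 - i := by
        rw [Fin.val_rev]; omega
      rw [e]
      split_ifs <;> omega
    have h2 := hc (om n r) (antitone_om r)
    rw [h1] at h2
    rw [← h2]
    have h3 : Antitone (fun i : Fin n => om n (n - r) i - 1) := by
      intro i j hij
      have := antitone_om (n := n) (n - r) hij
      simp only
      omega
    have h4 := hP.2 _ h3 n le_rfl
    have : powersetCard n (univ : Finset (Fin n)) = {univ} := by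
      have := Finset.powersetCard_self (univ : Finset (Fin n))
      rwa [Finset.card_univ, Fintype.card_fin] at this
    rw [this, Finset.sum_singleton] at h4
    have e1 : inv1 (univ : Finset (Fin n)) = 0 := by
      unfold inv1
      simp
    have e2 : (fun i : Fin n => om n (n - r) i - 1) + eps (univ : Finset (Fin n)) =
        om n (n - r) := by
      funext i
      simp [eps]
    rw [e1, e2, srt_of_antitone _ (antitone_om _)] at h4
    simpa using h4
  have hrel : ∀ r ≤ n, esy x (n - r) = esy x n * (starRingEnd ℂ) (esy x r) := by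
    intro r hr
    have h1 := hfund (n - r) (by omega)
    have h2 := hfund r hr
    rw [hcsym r hr, hshift r hr] at h1
    have h3 : (n - r) * (n - (n - r)) = r * (n - r) := by
      have : n - (n - r) = r := by omega
      rw [this, mul_comm]
    rw [h3] at h1
    have h4 := congrArg (starRingEnd ℂ) h2
    simp only [map_mul, Complex.conj_ofReal, map_pow, Complex.conj_natCast] at h4
    have h5 : (q : ℂ) ^ (r * (n - r)) ≠ 0 := pow_ne_zero _ hq0
    apply mul_left_cancel₀ h5
    rw [← h1]
    linear_combination (esy x n) * h4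
  have hnn : esy x n * (starRingEnd ℂ) (esy x n) = 1 := by
    have := hrel n le_rfl
    rw [← this]
    simp [esy]
  refine perm_of_esy x (fun i => ((starRingEnd ℂ) (x i))⁻¹) fun r hr => ?_
  have h1 : esy (fun i => ((starRingEnd ℂ) (x i))⁻¹) r =
      (starRingEnd ℂ) (esy (fun i => (x i)⁻¹) r) := by
    unfold esy
    simp [map_sum, map_prod]
  rw [h1, esy_compl x hx r hr]
  have h2 := hrel (n - r) (by omega)
  have h3 : n - (n - r) = r := by omega
  rw [h3] at h2
  rw [map_div₀, h2]
  have h4 : esy x n ≠ 0 := by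
    rw [PolyM.esy_n]
    exact PolyM.mon_ne x hx _
  have h5 : (starRingEnd ℂ) (esy x n) ≠ 0 := (map_ne_zero _).2 h4
  rw [eq_div_iff h5]
  linear_combination ((starRingEnd ℂ) (esy x (n - r))) * hnn

end MPtg
end

section
/-! # MP_3d2757_nt : module TOPC -/
open Finset Filter Topology

namespace MPtg.TopcM

open SrtM StrM HL0M PolyM

/-- multiplicity of the first entry -/
def mu {n : ℕ} (L : Fin (n + 1) → ℤ) : ℕ := (univ.filter (fun i : Fin (n + 1) => L i = L 0)).card

theorem mu_zero (L : Fin 1 → ℤ) : mu L = 1 := by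
  unfold mu
  have : (univ.filter (fun i : Fin 1 => L i = L 0)) = univ := by
    ext i
    simp [Subsingleton.elim i 0]
  rw [this]
  simp

theorem mu_succ {n : ℕ} (L : Fin (n + 2) → ℤ) (hL : Antitone L) :
    mu L = 1 + (if L 1 = L 0 then mu (fun i : Fin (n + 1) => L i.succ) else 0) := by
  classical
  unfold mu
  rw [Fin.univ_succ, Finset.filter_cons]
  simp only [if_true, Finset.card_cons, Finset.filter_map, Finset.card_map]
  rw [add_comm]
  congr 1
  split_ifs with h
  · congr 1
    ext i
    simp only [mem_filter, mem_univ, true_and]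
    change L i.succ = L 0 ↔ L i.succ = L 1
    rw [h]
  · rw [Finset.card_eq_zero, Finset.filter_eq_empty_iff]
    intro i _ hi
    change L i.succ = L 0 at hi
    have h1 : L i.succ ≤ L 1 := hL (by
      rw [Fin.le_def]
      simp)
    have h2 : L 1 ≤ L 0 := hL (Fin.zero_le _)
    exact h (le_antisymm h2 (hi ▸ h1))

theorem ph_inv_left (u y : ℂ) : Tendsto (fun s : ℂ => ph u s⁻¹ y) (𝓝[≠] 0) (𝓝 1) := by
  have h1 : Tendsto (fun s : ℂ => (1 - u * (s * y)) / (1 - s * y)) (𝓝[≠] 0) (𝓝 1) := by
    have hc : ContinuousAt (fun s : ℂ => (1 - u * (s * y)) / (1 - s * y)) 0 := by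
      refine ContinuousAt.div (by fun_prop) (by fun_prop) (by simp)
    have := hc.tendsto
    simp only [zero_mul, mul_zero, sub_zero, div_one] at this
    exact this.mono_left nhdsWithin_le_nhds
  refine h1.congr' ?_
  filter_upwards [self_mem_nhdsWithin] with s hs
  have hs' : s ≠ 0 := hs
  unfold ph
  have e1 : s⁻¹ - u * y = s⁻¹ * (1 - u * (s * y)) := by field_simp
  have e2 : s⁻¹ - y = s⁻¹ * (1 - s * y) := by field_simp
  rw [e1, e2, mul_div_mul_left _ _ (inv_ne_zero hs')]

theorem ph_inv_right (u y : ℂ) : Tendsto (fun s : ℂ => ph u y s⁻¹) (𝓝[≠] 0) (𝓝 u) := by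
  have h1 : Tendsto (fun s : ℂ => (s * y - u) / (s * y - 1)) (𝓝[≠] 0) (𝓝 u) := by
    have hc : ContinuousAt (fun s : ℂ => (s * y - u) / (s * y - 1)) 0 := by
      refine ContinuousAt.div (by fun_prop) (by fun_prop) (by simp)
    have := hc.tendsto
    simp only [zero_mul, zero_sub, neg_div_neg_eq, div_one] at this
    exact this.mono_left nhdsWithin_le_nhds
  refine h1.congr' ?_
  filter_upwards [self_mem_nhdsWithin] with s hs
  have hs' : s ≠ 0 := hs
  unfold ph
  have e1 : y - u * s⁻¹ = s⁻¹ * (s * y - u) := by field_simp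
  have e2 : y - s⁻¹ = s⁻¹ * (s * y - 1) := by field_simp
  rw [e1, e2, mul_div_mul_left _ _ (inv_ne_zero hs')]

/-- the limit of the Hall-Littlewood sum as the first variable goes to infinity -/
theorem lim_hlr (u : ℂ) : ∀ (n : ℕ) (L : Fin (n + 1) → ℤ), Antitone L → ∀ y : Fin n → ℂ,
    Tendsto (fun s : ℂ => s ^ (L 0) * HLR u L (Fin.cons s⁻¹ y : Fin (n + 1) → ℂ)) (𝓝[≠] 0)
      (𝓝 ((∑ l ∈ range (mu L), u ^ l) * HLR u (fun i : Fin n => L i.succ) y)) := by
  intro n
  induction n with
  | zero =>
    intro L hL y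
    rw [mu_zero]
    have h1 : HLR u (fun i : Fin 0 => L i.succ) y = 1 := by
      simp [HLR, mon]
    rw [h1]
    simp only [sum_range_one, pow_zero, mul_one]
    refine tendsto_const_nhds.congr' ?_
    filter_upwards [self_mem_nhdsWithin] with s hs
    have hs' : s ≠ 0 := hs
    have h2 : HLR u L (Fin.cons s⁻¹ y : Fin 1 → ℂ) = (s⁻¹) ^ (L 0) := by
      rw [hlr_first]
      simp [HLR, mon]
    rw [h2, ← mul_zpow, mul_inv_cancel₀ hs', one_zpow]
  | succ n ih =>
    intro L hL y
    set L' : Fin (n + 1) → ℤ := fun i => L i.succ with hL'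
    have hL'a : Antitone L' := fun i j hij => hL (Fin.succ_le_succ_iff.2 hij)
    -- split off the first index
    have hsplit : ∀ s : ℂ, s ≠ 0 → s ^ (L 0) * HLR u L (Fin.cons s⁻¹ y : Fin (n + 2) → ℂ) =
        (∏ j, ph u s⁻¹ (y j)) * HLR u L' y +
        ∑ j, (s ^ (L 0 - L 1) * ph u (y j) s⁻¹) * (y j ^ (L 0) *
          (∏ i ∈ univ.erase j, ph u (y j) (y i))) *
          (s ^ (L' 0) * HLR u L' (Fin.cons s⁻¹ (fun i : Fin n => y (Equiv.swap 0 j i.succ)) :
            Fin (n + 1) → ℂ)) := by
      intro s hs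
      rw [hlr_first, Fin.sum_univ_succ, mul_add]
      congr 1
      · have e1 : (Fin.cons s⁻¹ y : Fin (n + 2) → ℂ) 0 = s⁻¹ := rfl
        have e2 : ∏ i ∈ univ.erase (0 : Fin (n + 2)), ph u ((Fin.cons s⁻¹ y : Fin (n + 2) → ℂ) 0)
            ((Fin.cons s⁻¹ y : Fin (n + 2) → ℂ) i) = ∏ j, ph u s⁻¹ (y j) := by
          rw [← prod_swap 0 (fun i => ph u ((Fin.cons s⁻¹ y : Fin (n + 2) → ℂ) 0)
            ((Fin.cons s⁻¹ y : Fin (n + 2) → ℂ) i))]
          simp
        have e3 : (fun j : Fin (n + 1) => (Fin.cons s⁻¹ y : Fin (n + 2) → ℂ)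
            (Equiv.swap 0 0 j.succ)) = y := by
          funext j
          simp
        rw [e2, e3, e1, ← mul_assoc, ← mul_assoc, ← mul_zpow, mul_inv_cancel₀ hs, one_zpow,
          one_mul]
      · rw [Finset.mul_sum]
        refine Finset.sum_congr rfl fun j _ => ?_
        have e1 : (Fin.cons s⁻¹ y : Fin (n + 2) → ℂ) j.succ = y j := rfl
        have e2 : ∏ i ∈ univ.erase j.succ, ph u ((Fin.cons s⁻¹ y : Fin (n + 2) → ℂ) j.succ)
            ((Fin.cons s⁻¹ y : Fin (n + 2) → ℂ) i) =
            ph u (y j) s⁻¹ * ∏ i ∈ univ.erase j, ph u (y j) (y i) := by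
          have : univ.erase j.succ = insert (0 : Fin (n + 2)) ((univ.erase j).map (Fin.succEmb _)) := by
            ext i
            simp only [mem_erase, mem_univ, and_true, mem_insert, Finset.mem_map, Fin.coe_succEmb]
            constructor
            · intro hi
              rcases Fin.eq_zero_or_eq_succ i with h | ⟨k, rfl⟩
              · exact Or.inl h
              · exact Or.inr ⟨k, fun h => hi (by rw [h]), rfl⟩
            · rintro (rfl | ⟨k, hk, rfl⟩)
              · exact (Fin.succ_ne_zero j).symm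
              · intro h
                exact hk (Fin.succ_injective _ h)
          rw [this, Finset.prod_insert, Finset.prod_map]
          · rfl
          · simp only [Finset.mem_map, mem_erase, Fin.coe_succEmb, not_exists, not_and]
            intro k _ h
            exact Fin.succ_ne_zero k h
        have e3 : HLR u (fun j : Fin (n + 1) => L j.succ) (fun i : Fin (n + 1) =>
            (Fin.cons s⁻¹ y : Fin (n + 2) → ℂ) (Equiv.swap 0 j.succ i.succ)) =
            HLR u L' (Fin.cons s⁻¹ (fun i : Fin n => y (Equiv.swap 0 j i.succ)) :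
              Fin (n + 1) → ℂ) := by
          rw [← hlr_perm u _ _ (Equiv.swap 0 j)]
          congr 1
          funext i
          rcases Fin.eq_zero_or_eq_succ i with rfl | ⟨k, rfl⟩
          · rw [Equiv.swap_apply_left, Equiv.swap_apply_right]
            rfl
          · have hk : Equiv.swap 0 j k.succ ≠ j := by
              intro h
              have := congrArg (Equiv.swap 0 j) h
              rw [Equiv.swap_apply_self, Equiv.swap_apply_right] at this
              exact Fin.succ_ne_zero k this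
            have hk2 : (Equiv.swap 0 j k.succ).succ ≠ j.succ := fun h =>
              hk (Fin.succ_injective _ h)
            rw [Equiv.swap_apply_of_ne_of_ne (Fin.succ_ne_zero _) hk2]
            rfl
        rw [e2, e3, e1]
        have e4 : s ^ (L 0) = s ^ (L 0 - L 1) * s ^ (L' 0) := by
          rw [← zpow_add₀ hs]
          congr 1
          change L 0 = L 0 - L 1 + L 1
          ring
        rw [e4]
        ring
    -- limits
    have hlim1 : Tendsto (fun s : ℂ => (∏ j, ph u s⁻¹ (y j)) * HLR u L' y) (𝓝[≠] 0)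
        (𝓝 ((∏ _j : Fin (n + 1), (1 : ℂ)) * HLR u L' y)) :=
      (tendsto_finsetProd _ fun j _ => ph_inv_left u (y j)).mul_const _
    have hz : Tendsto (fun s : ℂ => s ^ (L 0 - L 1)) (𝓝[≠] 0)
        (𝓝 (if L 1 = L 0 then 1 else 0)) := by
      have h2 : L 1 ≤ L 0 := hL (Fin.zero_le _)
      split_ifs with h
      · rw [h, sub_self]
        simp only [zpow_zero]
        exact tendsto_const_nhds
      · have h3 : 0 < (L 0 - L 1).toNat := by
          have : L 1 < L 0 := lt_of_le_of_ne h2 h
          omega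
        have h4 : ∀ s : ℂ, s ^ (L 0 - L 1) = s ^ ((L 0 - L 1).toNat) := by
          intro s
          rw [← zpow_natCast]
          congr 1
          omega
        simp only [h4]
        have := ((continuous_pow (M := ℂ) (L 0 - L 1).toNat).tendsto 0).mono_left
          (nhdsWithin_le_nhds (s := {0}ᶜ))
        rwa [zero_pow h3.ne'] at this
    have hlim2 : Tendsto (fun s : ℂ => ∑ j, (s ^ (L 0 - L 1) * ph u (y j) s⁻¹) * (y j ^ (L 0) *
          (∏ i ∈ univ.erase j, ph u (y j) (y i))) *
          (s ^ (L' 0) * HLR u L' (Fin.cons s⁻¹ (fun i : Fin n => y (Equiv.swap 0 j i.succ)) :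
            Fin (n + 1) → ℂ))) (𝓝[≠] 0)
        (𝓝 (∑ j, ((if L 1 = L 0 then 1 else 0) * u) * (y j ^ (L 0) *
          (∏ i ∈ univ.erase j, ph u (y j) (y i))) *
          ((∑ l ∈ range (mu L'), u ^ l) * HLR u (fun i : Fin n => L' i.succ)
            (fun i : Fin n => y (Equiv.swap 0 j i.succ))))) := by
      refine tendsto_finsetSum _ fun j _ => ?_
      exact ((hz.mul (ph_inv_right u (y j))).mul_const _).mul (ih L' hL'a _)
    have hfin : (∏ _j : Fin (n + 1), (1 : ℂ)) * HLR u L' y +
        ∑ j, ((if L 1 = L 0 then 1 else 0) * u) * (y j ^ (L 0) *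
          (∏ i ∈ univ.erase j, ph u (y j) (y i))) *
          ((∑ l ∈ range (mu L'), u ^ l) * HLR u (fun i : Fin n => L' i.succ)
            (fun i : Fin n => y (Equiv.swap 0 j i.succ))) =
        (∑ l ∈ range (mu L), u ^ l) * HLR u L' y := by
      rw [mu_succ L hL]
      split_ifs with h
      · have h1 : HLR u L' y = ∑ j, y j ^ (L 0) * (∏ i ∈ univ.erase j, ph u (y j) (y i)) *
            HLR u (fun i : Fin n => L' i.succ) (fun i : Fin n => y (Equiv.swap 0 j i.succ)) := by
          rw [hlr_first]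
          have : L' 0 = L 0 := h
          rw [this]
        have h2 : ∑ j, (1 * u) * (y j ^ (L 0) *
            (∏ i ∈ univ.erase j, ph u (y j) (y i))) *
            ((∑ l ∈ range (mu L'), u ^ l) * HLR u (fun i : Fin n => L' i.succ)
              (fun i : Fin n => y (Equiv.swap 0 j i.succ))) =
            u * (∑ l ∈ range (mu L'), u ^ l) * HLR u L' y := by
          conv_rhs => rw [h1]
          rw [Finset.mul_sum]
          exact Finset.sum_congr rfl fun j _ => by ring
        rw [h2, add_comm 1, Finset.sum_range_succ', Finset.mul_sum]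
        simp only [prod_const_one, pow_zero, one_mul]
        have h3 : ∀ l : ℕ, u * u ^ l = u ^ (l + 1) := fun l => by rw [pow_succ]; ring
        simp only [h3]
        change HLR u L' y + _ = ((∑ k ∈ range (mu L'), u ^ (k + 1)) + 1) * _
        ring
      · simp
    rw [← hfin]
    refine (hlim1.add hlim2).congr' ?_
    filter_upwards [self_mem_nhdsWithin] with s hs
    exact (hsplit s hs).symm

end MPtg.TopcM

namespace MPtg

open TopcM PolyM SrtM

theorem specTopc : SpecTopc := by
  classical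
  intro n u hu hu1 L hL
  obtain ⟨hRP, s, c, hsc, hs⟩ := specPoly (n + 1) u hu hu1 L hL
  set L' : Fin n → ℤ := fun i => L i.succ with hL'
  have hL'a : Antitone L' := fun i j hij => hL (Fin.succ_le_succ_iff.2 hij)
  have ha0 : ∀ a ∈ s, a 0 ≤ L 0 := by
    intro a ha
    have h1 := (hsc a ha).2 {0}
    rw [Finset.sum_singleton, Finset.card_singleton] at h1
    have h2 : psum L 1 = L 0 := by
      rw [psum_eq_sum]
      have : (univ.filter (fun i : Fin (n + 1) => (i : ℕ) < 1)) = {0} := by
        ext i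
        simp only [mem_filter, mem_univ, true_and, mem_singleton]
        constructor
        · intro h
          exact Fin.ext (by rw [Fin.val_zero]; omega)
        · rintro rfl
          exact Nat.zero_lt_one
      rw [this, Finset.sum_singleton]
    rwa [h2] at h1
  set p : (Fin n → ℂ) → Polynomial ℂ := fun y =>
    ∑ a ∈ s, Polynomial.C (c a * mon (fun i : Fin n => a i.succ) y) *
      Polynomial.X ^ ((L 0 - a 0).toNat) with hp
  have hpz : ∀ y : Fin n → ℂ, (∀ i, y i ≠ 0) → ∀ z : ℂ, z ≠ 0 →
      RP (u : ℂ) L (Fin.cons z y) = z ^ (L 0) * (p y).eval z⁻¹ := by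
    intro y hy z hz
    have hc : ∀ i, (Fin.cons z y : Fin (n + 1) → ℂ) i ≠ 0 := by
      intro i
      rcases Fin.eq_zero_or_eq_succ i with rfl | ⟨k, rfl⟩
      · exact hz
      · exact hy k
    rw [hs _ hc, hp, Polynomial.eval_finsetSum, Finset.mul_sum]
    refine Finset.sum_congr rfl fun a ha => ?_
    rw [Polynomial.eval_mul, Polynomial.eval_C, Polynomial.eval_pow, Polynomial.eval_X]
    have e1 : mon a (Fin.cons z y : Fin (n + 1) → ℂ) = z ^ (a 0) *
        mon (fun i : Fin n => a i.succ) y := by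
      unfold mon
      rw [Fin.prod_univ_succ]
      rfl
    have e2 : z ^ (a 0) = z ^ (L 0) * z⁻¹ ^ ((L 0 - a 0).toNat) := by
      rw [← zpow_natCast, inv_zpow', ← zpow_add₀ hz]
      congr 1
      have := ha0 a ha
      omega
    rw [e1, e2]
    ring
  -- value at zero, for injective y
  have hev : ∀ y : Fin n → ℂ, (p y).eval 0 = ∑ a ∈ s.filter (fun a => a 0 = L 0),
      c a * mon (fun i : Fin n => a i.succ) y := by
    intro y
    rw [hp, Polynomial.eval_finsetSum, Finset.sum_filter]
    refine Finset.sum_congr rfl fun a ha => ?_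
    rw [Polynomial.eval_mul, Polynomial.eval_C, Polynomial.eval_pow, Polynomial.eval_X]
    split_ifs with h
    · rw [h, sub_self]
      simp
    · have h1 : (L 0 - a 0).toNat ≠ 0 := by
        have := ha0 a ha
        omega
      rw [zero_pow h1, mul_zero]
  have hinj : ∀ y : Fin n → ℂ, (∀ i, y i ≠ 0) → Function.Injective y →
      (p y).eval 0 = (∑ l ∈ range (mu L), (u : ℂ) ^ l) * RP (u : ℂ) L' y := by
    intro y hy hyi
    have h1 := lim_hlr (u : ℂ) n L hL y
    have h2 : Tendsto (fun s : ℂ => (p y).eval s) (𝓝[≠] 0) (𝓝 ((p y).eval 0)) :=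
      ((p y).continuous.tendsto 0).mono_left nhdsWithin_le_nhds
    have hne : ∀ j, ∀ᶠ s in 𝓝[≠] (0 : ℂ), s⁻¹ ≠ y j := by
      intro j
      have : ∀ᶠ s in 𝓝[≠] (0 : ℂ), s ≠ (y j)⁻¹ :=
        (tendsto_id.mono_left nhdsWithin_le_nhds).eventually_ne (inv_ne_zero (hy j)).symm
      filter_upwards [this] with s hs h
      exact hs (by rw [← h, inv_inv])
    have h3 : ∀ᶠ s in 𝓝[≠] (0 : ℂ), s ^ (L 0) * HLR (u : ℂ) L (Fin.cons s⁻¹ y : Fin (n + 1) → ℂ) =
        (p y).eval s := by
      filter_upwards [self_mem_nhdsWithin, eventually_all.2 hne] with z hz hzy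
      have hz' : z ≠ 0 := hz
      have hc : ∀ i, (Fin.cons z⁻¹ y : Fin (n + 1) → ℂ) i ≠ 0 := by
        intro i
        rcases Fin.eq_zero_or_eq_succ i with rfl | ⟨k, rfl⟩
        · exact inv_ne_zero hz'
        · exact hy k
      have hci : Function.Injective (Fin.cons z⁻¹ y : Fin (n + 1) → ℂ) := by
        rw [Fin.cons_injective_iff]
        refine ⟨?_, hyi⟩
        rintro ⟨j, hj⟩
        exact hzy j hj.symm
      rw [← hRP _ hc hci, hpz y hy z⁻¹ (inv_ne_zero hz'), ← mul_assoc, ← mul_zpow,
        mul_inv_cancel₀ hz', one_zpow, one_mul, inv_inv]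
    have h4 := tendsto_nhds_unique (h1.congr' h3) h2
    rw [← h4, (rp_spec u hu hu1 L' hL'a).2 y hy hyi]
  intro y hy
  refine ⟨p y, hpz y hy, ?_⟩
  refine eq_of_inj (fun y => (p y).eval 0)
    (fun y => (∑ l ∈ range (mu L), (u : ℂ) ^ l) * RP (u : ℂ) L' y) ?_ ?_ hinj y hy
  · simp only [hev]
    exact continuousOn_finsetSum _ fun a _ => continuousOn_const.mul (mon_cont _)
  · exact continuousOn_const.mul (lp_cont (rp_spec u hu hu1 L' hL'a).1)

end MPtg
end
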