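import Pool.Agent.Lib.MP_3d2757_nt.Compl

/-!
# TORID: the expansion on the torus
-/

open Finset MeasureTheory

namespace MPtg

namespace ToridM

/-- the coefficient -/
noncomputable def co (t : ℝ) {n : ℕ} (L : Fin n → ℤ) : ℂ :=
  (AA t n L : ℂ) * (-(t : ℂ)) ^ (len L)

theorem norm_co (t : ℝ) (h0 : 0 < t) {n : ℕ} (L : Fin n → ℤ) {c C : ℝ} (hc : 0 < c)
    (h : c ≤ AA t n L ∧ AA t n L ≤ C) : ‖co t L‖ ≤ C * t ^ (len L) := by
  unfold co
  rw [norm_mul, Complex.norm_real, Real.norm_eq_abs, abs_of_pos (hc.trans_le h.1), norm_pow,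
    norm_neg, Complex.norm_real, Real.norm_eq_abs, abs_of_pos h0]
  exact mul_le_mul_of_nonneg_right h.2 (by positivity)

/-- the factor of a pair -/
noncomputable def gg (t : ℝ) (z : ℂ) : ℂ :=
  (1 - (t : ℂ) ^ 2 * z) / (1 + (t : ℂ) * z) * ((1 - (t : ℂ) ^ 2 * z⁻¹) / (1 + (t : ℂ) * z⁻¹))

theorem gg_inv (t : ℝ) (z : ℂ) : gg t z⁻¹ = gg t z := by
  unfold gg
  rw [inv_inv, mul_comm]

theorem GG_eq (t : ℝ) {n : ℕ} (x : Fin n → ℂ) : GG t x = prd (gg t) x := by
  have h := Finset.prod_prod_Ioi_mul_eq_prod_prod_off_diag (α := Fin n) (M := ℂ)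
    (fun j i => (1 - (t : ℂ) ^ 2 * (x i / x j)) / (1 + (t : ℂ) * (x i / x j)))
  unfold GG prd
  have e : ∀ i : Fin n, univ.erase i = ({i}ᶜ : Finset (Fin n)) := by
    intro i
    ext j
    simp
  simp only [e]
  rw [← h]
  refine Finset.prod_congr rfl fun i _ => Finset.prod_congr rfl fun j _ => ?_
  unfold gg
  rw [inv_div]

theorem GG_perm (t : ℝ) {n : ℕ} (x : Fin n → ℂ) (w : Equiv.Perm (Fin n)) :
    GG t (fun i => x (w i)) = GG t x := by
  rw [GG_eq, GG_eq, TriM.prd_eq, TriM.prd_eq]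
  exact UnsymM.pair_perm (fun i j => gg t (x i / x j)) (fun i j => by
    rw [← inv_div, gg_inv]) w

theorem den_ne (u z : ℂ) (hz : ‖z‖ ≤ 1) (hu : ‖u‖ < 1) : 1 - u * z ≠ 0 := by
  intro h
  have h1 : u * z = 1 := (sub_eq_zero.1 h).symm
  have h2 : ‖u * z‖ < 1 := by
    rw [norm_mul]
    calc ‖u‖ * ‖z‖ ≤ ‖u‖ * 1 := mul_le_mul_of_nonneg_left hz (norm_nonneg u)
      _ < 1 := by rw [mul_one]; exact hu
  rw [h1, norm_one] at h2
  exact lt_irrefl _ h2

theorem gg_cont (t : ℝ) (h0 : 0 < t) (h1 : t < 1) : ContinuousOn (gg t) (Metric.sphere 0 1) := by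
  intro z hz
  have hz' : ‖z‖ = 1 := mem_sphere_zero_iff_norm.1 hz
  have hz0 : z ≠ 0 := by
    rintro rfl
    rw [norm_zero] at hz'
    exact zero_ne_one hz'
  have hzi : ‖z⁻¹‖ = 1 := by rw [norm_inv, hz', inv_one]
  have ht := OrtM.norm_u t h0 h1
  have d1 : 1 + (t : ℂ) * z ≠ 0 := by
    have := den_ne (-(t : ℂ)) z hz'.le (by rwa [norm_neg])
    rwa [neg_mul, sub_neg_eq_add] at this
  have d2 : 1 + (t : ℂ) * z⁻¹ ≠ 0 := by
    have := den_ne (-(t : ℂ)) z⁻¹ hzi.le (by rwa [norm_neg])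
    rwa [neg_mul, sub_neg_eq_add] at this
  have hi : ContinuousAt (fun z : ℂ => z⁻¹) z := continuousAt_inv₀ hz0
  have c1 : ContinuousAt (fun z : ℂ => (1 - (t : ℂ) ^ 2 * z) / (1 + (t : ℂ) * z)) z :=
    ContinuousAt.div (by fun_prop) (by fun_prop) d1
  have c2 : ContinuousAt (fun z : ℂ => (1 - (t : ℂ) ^ 2 * z⁻¹) / (1 + (t : ℂ) * z⁻¹)) z := by
    refine ContinuousAt.div ?_ ?_ d2
    · exact continuousAt_const.sub (continuousAt_const.mul hi)
    · exact continuousAt_const.add (continuousAt_const.mul hi)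
  exact (c1.mul c2).continuousWithinAt

theorem gg_kD (t : ℝ) (h0 : 0 < t) (h1 : t < 1) (z : ℂ) (hz : ‖z‖ = 1) :
    gg t z * kD (((t ^ 2 : ℝ)) : ℂ) z = kD (-(t : ℂ)) z := by
  have hz0 : z ≠ 0 := by
    rintro rfl
    rw [norm_zero] at hz
    exact zero_ne_one hz
  have hzi : ‖z⁻¹‖ = 1 := by rw [norm_inv, hz, inv_one]
  have ht := OrtM.norm_u t h0 h1
  have ht2 := OrtM.norm_u (t ^ 2) (by positivity) (by nlinarith)
  have e : (((t ^ 2 : ℝ)) : ℂ) = (t : ℂ) ^ 2 := by push_cast; rfl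
  rw [e] at ht2 ⊢
  have d1 : 1 + (t : ℂ) * z ≠ 0 := by
    have := den_ne (-(t : ℂ)) z hz.le (by rwa [norm_neg])
    rwa [neg_mul, sub_neg_eq_add] at this
  have d2 : 1 + (t : ℂ) * z⁻¹ ≠ 0 := by
    have := den_ne (-(t : ℂ)) z⁻¹ hzi.le (by rwa [norm_neg])
    rwa [neg_mul, sub_neg_eq_add] at this
  have d3 := den_ne ((t : ℂ) ^ 2) z hz.le ht2
  have d4 := den_ne ((t : ℂ) ^ 2) z⁻¹ hzi.le ht2
  unfold gg kD
  rw [neg_mul, sub_neg_eq_add, neg_mul, sub_neg_eq_add, div_mul_div_comm, div_mul_div_comm,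
    div_eq_div_iff (mul_ne_zero (mul_ne_zero d1 d2) (mul_ne_zero d3 d4)) (mul_ne_zero d1 d2)]
  ring

theorem GG_prd (t : ℝ) (h0 : 0 < t) (h1 : t < 1) {n : ℕ} (x : Fin n → ℂ) (hx : ∀ i, ‖x i‖ = 1) :
    GG t x * prd (kD (((t ^ 2 : ℝ)) : ℂ)) x = prd (kD (-(t : ℂ))) x := by
  rw [GG_eq]
  unfold prd
  rw [← Finset.prod_mul_distrib]
  refine Finset.prod_congr rfl fun i _ => ?_
  rw [← Finset.prod_mul_distrib]
  refine Finset.prod_congr rfl fun j _ => ?_
  exact gg_kD t h0 h1 _ (by rw [norm_div, hx, hx, div_one])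

/-- bound for the terms near a torus -/
theorem term_bound (hB : SpecBound) (hAb : SpecAb) (n : ℕ) (t : ℝ) (h0 : 0 < t) (h1 : t < 1)
    (r : Fin n → ℝ) (hr : ∀ i, 0 < r i) (hrt : ∀ i j, r i * t < r j) :
    ∃ (C s η : ℝ), 0 < s ∧ s < 1 ∧ 0 < η ∧ ∀ x : Fin n → ℂ, (∀ i, |‖x i‖ - r i| < η) →
      ∀ L : Fin n → ℤ, Sym L → ‖co t L * RP (((t ^ 2 : ℝ)) : ℂ) L x‖ ≤ C * s ^ (len L) := by
  -- choose `Q`
  obtain ⟨Q, hQ0, hQt, hQ⟩ : ∃ Q : ℝ, 0 < Q ∧ Q * t < 1 ∧ ∀ i j, r i < Q * r j := by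
    have hlt : ∀ p : Fin n × Fin n, r p.1 / r p.2 < 1 / t := by
      intro p
      rw [div_lt_div_iff₀ (hr _) h0, one_mul]
      exact hrt _ _
    rcases (Finset.univ : Finset (Fin n × Fin n)).eq_empty_or_nonempty with he | hne
    · refine ⟨1, one_pos, by linarith, fun i j => ?_⟩
      exact absurd (Finset.mem_univ (i, j)) (by rw [he]; simp)
    · obtain ⟨p, _, hp⟩ := Finset.exists_max_image Finset.univ
        (fun p : Fin n × Fin n => r p.1 / r p.2) hne
      obtain ⟨Q, h2, h3⟩ := exists_between (hlt p)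
      have hQ0 : 0 < Q := (div_pos (hr _) (hr _)).trans h2
      refine ⟨Q, hQ0, ?_, fun i j => ?_⟩
      · rwa [lt_div_iff₀ h0] at h3
      · have h4 := (hp (i, j) (Finset.mem_univ _)).trans_lt h2
        rwa [div_lt_iff₀ (hr j)] at h4
  obtain ⟨C, η, hη, hC⟩ := hB n (t ^ 2) (by positivity) (by nlinarith) r Q hr hQ
  obtain ⟨c, C', hc, hC'⟩ := hAb n t h0 h1
  refine ⟨C' * C, Q * t, η, by positivity, hQt, hη, fun x hx L hL => ?_⟩
  rw [norm_mul]
  have h2 := norm_co t h0 L hc (hC' L)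
  have h3 := hC x hx L hL
  have hC'0 : 0 ≤ C' := (hc.trans_le ((hC' L).1.trans (hC' L).2)).le
  calc ‖co t L‖ * ‖RP (((t ^ 2 : ℝ)) : ℂ) L x‖ ≤ (C' * t ^ (len L)) * (C * Q ^ (len L)) :=
        mul_le_mul h2 h3 (norm_nonneg _) (by positivity)
    _ = C' * C * (Q * t) ^ (len L) := by
        rw [mul_pow]
        ring

theorem torid (hR : SpecRpp) (hO : SpecOrt) (hJ : SpecJval) (hV : SpecVan)
    (hCo : SpecCompl) (hB : SpecBound) (hS : SpecSumLen) (hAb : SpecAb) : SpecTorid := by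
  intro n t h0 h1 x hx
  have := TbM.prob n
  have hu0 : 0 < t ^ 2 := by positivity
  have hu1 : t ^ 2 < 1 := by nlinarith
  obtain ⟨C, s, η, hs0, hs1, hη, hb⟩ := term_bound hB hAb n t h0 h1 (fun _ => 1)
    (fun _ => one_pos) (fun _ _ => by rw [one_mul]; exact h1)
  have hbze : ∀ (L : {L : Fin n → ℤ // Sym L}) (y : Fin n → ℂ), (∀ i, ‖y i‖ = 1) →
      ‖co t L.1 * RP (((t ^ 2 : ℝ)) : ℂ) L.1 y‖ ≤ C * s ^ (len L.1) := fun L y hy =>
    hb y (fun i => by rw [hy, sub_self, abs_zero]; exact hη) L.1 L.2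
  have hsum : Summable fun L : {L : Fin n → ℤ // Sym L} => C * s ^ (len L.1) :=
    (hS n s hs0 hs1).mul_left C
  have hcR : ∀ L : {L : Fin n → ℤ // Sym L},
      Continuous fun θ : Fin n → UnitAddCircle => RP (((t ^ 2 : ℝ)) : ℂ) L.1 (ze θ) := fun L =>
    OrtM.cont_of _ ((hR n (t ^ 2) hu0 hu1).2.1 L.1 L.2.1)
  set F : (Fin n → UnitAddCircle) → ℂ := fun θ => ∑' L : {L : Fin n → ℤ // Sym L},
    co t L.1 * RP (((t ^ 2 : ℝ)) : ℂ) L.1 (ze θ) with hF
  have hcF : Continuous F :=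
    continuous_tsum (fun L => continuous_const.mul (hcR L)) hsum
      fun L θ => hbze L (ze θ) (TbM.norm_ze n θ)
  have hcG : Continuous fun θ : Fin n → UnitAddCircle => GG t (ze θ) := by
    have := TriM.cont_prd (n := n) (gg t) (gg_cont t h0 h1)
    simpa only [← GG_eq] using this
  set v : ℂ := vv n (-(t : ℂ)) with hv
  have hcD : Continuous fun θ : Fin n → UnitAddCircle => prd (kD (((t ^ 2 : ℝ)) : ℂ)) (ze θ) :=
    TriM.cont_prd _ (ComplM.kD_cont (t ^ 2) hu0 hu1)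
  have hint : ∀ g : (Fin n → UnitAddCircle) → ℂ, Continuous g → Integrable g (muT n) := by
    intro g hg
    obtain ⟨C, hC⟩ := (isCompact_univ (X := Fin n → UnitAddCircle)).exists_bound_of_continuousOn
      hg.continuousOn
    exact Integrable.of_bound hg.aestronglyMeasurable C
      (Filter.Eventually.of_forall fun θ => hC θ (Set.mem_univ _))
  have key : ∀ θ : Fin n → UnitAddCircle, F θ - v * GG t (ze θ) = 0 := by
    refine hCo n (t ^ 2) hu0 hu1 (fun θ => F θ - v * GG t (ze θ))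
      (hcF.sub (continuous_const.mul hcG)) (fun w θ => ?_) (fun M hM => ?_)
    · have e1 : ze (fun i => θ (w i)) = fun i => ze θ (w i) := rfl
      simp only [hF, e1, GG_perm]
      congr 2
      funext L
      rw [(hR n (t ^ 2) hu0 hu1).2.2.1 L.1 L.2.1 (ze θ) (TriM.ze_ne θ) w]
    · have hcM : Continuous fun θ : Fin n → UnitAddCircle =>
          RP (((t ^ 2 : ℝ)) : ℂ) M (fun i => (ze θ i)⁻¹) :=
        OrtM.cont_of_inv _ ((hR n (t ^ 2) hu0 hu1).2.1 M hM)
      -- the series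
      have e1 : ∫ θ, F θ * RP (((t ^ 2 : ℝ)) : ℂ) M (fun i => (ze θ i)⁻¹) *
          prd (kD (((t ^ 2 : ℝ)) : ℂ)) (ze θ) ∂(muT n) = ∑' L : {L : Fin n → ℤ // Sym L},
          co t L.1 * (if L.1 = M then (Nat.factorial n : ℂ) * vL L.1 ((t ^ 2 : ℝ) : ℂ) else 0) := by
        obtain ⟨D, hD⟩ := (isCompact_univ
          (X := Fin n → UnitAddCircle)).exists_bound_of_continuousOn (hcM.mul hcD).continuousOn
        have hD0 : 0 ≤ D := (norm_nonneg _).trans (hD 0 (Set.mem_univ _))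
        have h2 := hasSum_integral_of_summable_integral_norm (μ := muT n)
          (F := fun (L : {L : Fin n → ℤ // Sym L}) (θ : Fin n → UnitAddCircle) =>
            co t L.1 * RP (((t ^ 2 : ℝ)) : ℂ) L.1 (ze θ) *
              (RP (((t ^ 2 : ℝ)) : ℂ) M (fun i => (ze θ i)⁻¹) *
                prd (kD (((t ^ 2 : ℝ)) : ℂ)) (ze θ)))
          (fun L => hint _ ((continuous_const.mul (hcR L)).mul (hcM.mul hcD))) (by
            refine Summable.of_nonneg_of_le (fun L => integral_nonneg fun θ => norm_nonneg _)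
              (fun L => ?_) (hsum.mul_right D)
            have h3 : ∀ θ, ‖co t L.1 * RP (((t ^ 2 : ℝ)) : ℂ) L.1 (ze θ) *
              (RP (((t ^ 2 : ℝ)) : ℂ) M (fun i => (ze θ i)⁻¹) *
                prd (kD (((t ^ 2 : ℝ)) : ℂ)) (ze θ))‖ ≤ C * s ^ (len L.1) * D := by
              intro θ
              rw [norm_mul]
              exact mul_le_mul (hbze L (ze θ) (TbM.norm_ze n θ)) (hD θ (Set.mem_univ _))
                (norm_nonneg _) ((norm_nonneg _).trans (hbze L (ze θ) (TbM.norm_ze n θ)))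
            calc ∫ θ, _ ∂(muT n) ≤ ∫ θ, (C * s ^ (len L.1) * D) ∂(muT n) :=
                  integral_mono_of_nonneg (Filter.Eventually.of_forall fun θ => norm_nonneg _)
                    (integrable_const _) (Filter.Eventually.of_forall h3)
              _ = C * s ^ (len L.1) * D := by simp)
        have h4 : ∀ θ, ∑' L : {L : Fin n → ℤ // Sym L},
            co t L.1 * RP (((t ^ 2 : ℝ)) : ℂ) L.1 (ze θ) *
              (RP (((t ^ 2 : ℝ)) : ℂ) M (fun i => (ze θ i)⁻¹) *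
                prd (kD (((t ^ 2 : ℝ)) : ℂ)) (ze θ)) =
            F θ * RP (((t ^ 2 : ℝ)) : ℂ) M (fun i => (ze θ i)⁻¹) *
              prd (kD (((t ^ 2 : ℝ)) : ℂ)) (ze θ) := by
          intro θ
          rw [tsum_mul_right, mul_assoc]
        simp only [h4] at h2
        rw [← h2.tsum_eq]
        refine tsum_congr fun L => ?_
        rw [← hO n (t ^ 2) hu0 hu1 L.1 M L.2.1 hM]
        unfold tint
        rw [← integral_const_mul]
        refine integral_congr_ae (Filter.Eventually.of_forall fun θ => ?_)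
        simp only
        ring
      have e2 : ∫ θ, v * GG t (ze θ) * RP (((t ^ 2 : ℝ)) : ℂ) M (fun i => (ze θ i)⁻¹) *
          prd (kD (((t ^ 2 : ℝ)) : ℂ)) (ze θ) ∂(muT n) =
          (Nat.factorial n : ℂ) * (v * Jint t M) := by
        have h2 := hV n t h0 h1 M hM
        calc _ = v * tint (fun x : Fin n → ℂ => RP (((t ^ 2 : ℝ)) : ℂ) M (fun i => (x i)⁻¹) *
              prd (kD (-(t : ℂ))) x) := by
              unfold tint
              rw [← integral_const_mul]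
              refine integral_congr_ae (Filter.Eventually.of_forall fun θ => ?_)
              simp only
              rw [← GG_prd t h0 h1 _ (TbM.norm_ze n θ)]
              ring
          _ = _ := by
              rw [h2]
              ring
      have e3 : (fun θ => (F θ - v * GG t (ze θ)) *
          RP (((t ^ 2 : ℝ)) : ℂ) M (fun i => (ze θ i)⁻¹) *
          prd (kD (((t ^ 2 : ℝ)) : ℂ)) (ze θ)) = fun θ =>
          F θ * RP (((t ^ 2 : ℝ)) : ℂ) M (fun i => (ze θ i)⁻¹) *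
          prd (kD (((t ^ 2 : ℝ)) : ℂ)) (ze θ) -
          v * GG t (ze θ) * RP (((t ^ 2 : ℝ)) : ℂ) M (fun i => (ze θ i)⁻¹) *
          prd (kD (((t ^ 2 : ℝ)) : ℂ)) (ze θ) := by
        funext θ
        ring
      rw [e3]
      have e4 := integral_sub
        (hint (fun θ => F θ * RP (((t ^ 2 : ℝ)) : ℂ) M (fun i => (ze θ i)⁻¹) *
          prd (kD (((t ^ 2 : ℝ)) : ℂ)) (ze θ)) ((hcF.mul hcM).mul hcD))
        (hint (fun θ => v * GG t (ze θ) * RP (((t ^ 2 : ℝ)) : ℂ) M (fun i => (ze θ i)⁻¹) *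
          prd (kD (((t ^ 2 : ℝ)) : ℂ)) (ze θ)) (((continuous_const.mul hcG).mul hcM).mul hcD))
      rw [e1, e2] at e4
      refine e4.trans ?_
      have h5 := hJ n t h0 h1 M hM
      rw [← hv] at h5
      rw [h5]
      by_cases hsym : Sym M
      · rw [tsum_eq_single (⟨M, hsym⟩ : {L : Fin n → ℤ // Sym L}), if_pos rfl, if_pos hsym]
        · unfold co
          push_cast
          ring
        · intro L hL
          rw [if_neg fun h => hL (Subtype.ext h), mul_zero]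
      · rw [if_neg hsym, mul_zero, sub_zero]
        have : ∀ L : {L : Fin n → ℤ // Sym L}, co t L.1 * (if L.1 = M then
            (Nat.factorial n : ℂ) * vL L.1 ((t ^ 2 : ℝ) : ℂ) else 0) = 0 := by
          intro L
          rw [if_neg, mul_zero]
          intro h
          exact hsym (h ▸ L.2)
        simp only [this, tsum_zero]
  obtain ⟨θ, rfl⟩ := TriM.ze_surj x hx
  have h2 : Summable fun L : {L : Fin n → ℤ // Sym L} =>
      co t L.1 * RP (((t ^ 2 : ℝ)) : ℂ) L.1 (ze θ) :=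
    Summable.of_norm_bounded hsum fun L => hbze L (ze θ) (TbM.norm_ze n θ)
  have h3 := h2.hasSum
  have h4 : ∑' L : {L : Fin n → ℤ // Sym L}, co t L.1 * RP (((t ^ 2 : ℝ)) : ℂ) L.1 (ze θ) =
      v * GG t (ze θ) := sub_eq_zero.1 (key θ)
  rw [h4] at h3
  exact h3

end ToridM

/-- TORID -/
theorem specTorid (hR : SpecRpp) (hO : SpecOrt) (hJ : SpecJval) (hV : SpecVan)
    (hCo : SpecCompl) (hB : SpecBound) (hS : SpecSumLen) (hAb : SpecAb) : SpecTorid :=
  ToridM.torid hR hO hJ hV hCo hB hS hAb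

end MPtg
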