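import Pool.Agent.Lib.MP_3d2757_nt.Spec

section
/-!
# MP_3d2757_nt, module SCH: Schur's lemma for commuting self-adjoint families of operators
-/
open ContinuousLinearMap

namespace MPtg
namespace SchM

variable {V : Type} [NormedAddCommGroup V] [InnerProductSpace ℂ V] [CompleteSpace V]

/-- a member of a commuting self-adjoint irreducible family is a scalar -/
theorem scalar (T : Set (V →L[ℂ] V)) (hadj : ∀ A ∈ T, ContinuousLinearMap.adjoint A ∈ T)
    (hcomm : ∀ A ∈ T, ∀ B ∈ T, A * B = B * A)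
    (hirr : ∀ W : Submodule ℂ V, IsClosed (W : Set V) → (∀ A ∈ T, ∀ v ∈ W, A v ∈ W) →
      W = ⊥ ∨ W = ⊤) [Nontrivial V] (A : V →L[ℂ] V) (hA : A ∈ T) :
    ∃ c : ℂ, A = c • (1 : V →L[ℂ] V) := by
  have hs : star A ∈ T := by
    rw [ContinuousLinearMap.star_eq_adjoint]; exact hadj A hA
  have hn : IsStarNormal A := ⟨hcomm _ hs _ hA⟩
  obtain ⟨z0, hz0⟩ := spectrum.nonempty A
  by_cases hone : ∀ z ∈ spectrum ℂ A, z = z0
  · refine ⟨z0, ?_⟩
    have h1 : cfc (id : ℂ → ℂ) A = A := cfc_id ℂ A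
    have h2 : cfc (id : ℂ → ℂ) A = cfc (fun _ : ℂ => z0) A := by
      apply cfc_congr
      intro z hz
      exact hone z hz
    rw [← h1, h2, cfc_const z0 A, Algebra.algebraMap_eq_smul_one]
  · exfalso
    push Not at hone
    obtain ⟨z1, hz1, hne⟩ := hone
    set d : ℝ := dist z1 z0 / 2 with hd
    have hdpos : 0 < d := by
      have := dist_pos.2 hne
      rw [hd]; linarith
    let p : ℂ → ℂ := fun z => ((max 0 (d - dist z z0) : ℝ) : ℂ)
    let r : ℂ → ℂ := fun z => ((max 0 (d - dist z z1) : ℝ) : ℂ)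
    have hpc : Continuous p := by
      apply Complex.continuous_ofReal.comp
      fun_prop
    have hrc : Continuous r := by
      apply Complex.continuous_ofReal.comp
      fun_prop
    have hpr : ∀ z, r z * p z = 0 := by
      intro z
      have : d - dist z z0 ≤ 0 ∨ d - dist z z1 ≤ 0 := by
        by_contra hcon
        push Not at hcon
        have h3 := dist_triangle z1 z z0
        rw [dist_comm z1 z] at h3
        have : dist z1 z0 = 2 * d := by rw [hd]; ring
        linarith [hcon.1, hcon.2]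
      rcases this with h | h
      · simp only [p, max_eq_left h]; simp
      · simp only [r, max_eq_left h]; simp
    have hp0 : cfc p A ≠ 0 := by
      intro h0
      have h1 : cfc p A = cfc (fun _ : ℂ => (0 : ℂ)) A := by
        rw [h0, cfc_const_zero]
      have h2 := (cfc_eq_cfc_iff_eqOn (a := A) (f := p) (g := fun _ : ℂ => (0 : ℂ)) (ha := hn)
        (hf := hpc.continuousOn) (hg := continuousOn_const)).1 h1
      have h3 := h2 hz0
      simp only [p, dist_self, sub_zero, max_eq_right hdpos.le] at h3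
      exact hdpos.ne' (by exact_mod_cast h3)
    have hr0 : cfc r A ≠ 0 := by
      intro h0
      have h1 : cfc r A = cfc (fun _ : ℂ => (0 : ℂ)) A := by
        rw [h0, cfc_const_zero]
      have h2 := (cfc_eq_cfc_iff_eqOn (a := A) (f := r) (g := fun _ : ℂ => (0 : ℂ)) (ha := hn)
        (hf := hrc.continuousOn) (hg := continuousOn_const)).1 h1
      have h3 := h2 hz1
      simp only [r, dist_self, sub_zero, max_eq_right hdpos.le] at h3
      exact hdpos.ne' (by exact_mod_cast h3)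
    have hmul : cfc r A * cfc p A = 0 := by
      rw [← cfc_mul r p A hrc.continuousOn hpc.continuousOn]
      have : (fun z => r z * p z) = fun _ : ℂ => (0 : ℂ) := by
        funext z; exact hpr z
      rw [this, cfc_const_zero]
    let W : Submodule ℂ V := LinearMap.ker (cfc r A : V →L[ℂ] V).toLinearMap
    have hWc : IsClosed (W : Set V) := (cfc r A : V →L[ℂ] V).isClosed_ker
    have hinv : ∀ B ∈ T, ∀ v ∈ W, B v ∈ W := by
      intro B hB v hv
      have hc : Commute (cfc r A) B :=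
        Commute.cfc (hcomm A hA B hB) (hcomm _ hs B hB) r
      have hv' : (cfc r A) v = 0 := hv
      show (cfc r A) (B v) = 0
      have : ((cfc r A) * B) v = (B * (cfc r A)) v := by rw [hc.eq]
      rw [ContinuousLinearMap.mul_apply, ContinuousLinearMap.mul_apply] at this
      rw [this, hv', map_zero]
    rcases hirr W hWc hinv with h | h
    · apply hp0
      ext v
      have h1 : (cfc r A) ((cfc p A) v) = 0 := by
        have : ((cfc r A) * (cfc p A)) v = 0 := by rw [hmul]; rfl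
        rwa [ContinuousLinearMap.mul_apply] at this
      have h2 : (cfc p A) v ∈ W := h1
      rw [h, Submodule.mem_bot] at h2
      rw [h2]; rfl
    · apply hr0
      ext v
      have h2 : v ∈ W := by rw [h]; trivial
      exact h2

end SchM

theorem specSch : SpecSch := by
  intro V _ _ _ T hadj hcomm hirr v w hv
  have : Nontrivial V := ⟨⟨v, 0, hv⟩⟩
  have hsc := SchM.scalar T hadj hcomm hirr
  have hW : (Submodule.span ℂ {v} : Submodule ℂ V) = ⊥ ∨ (Submodule.span ℂ {v}) = ⊤ := by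
    apply hirr
    · exact (Submodule.span ℂ {v}).closed_of_finiteDimensional
    · intro A hA u hu
      obtain ⟨c, hc⟩ := hsc A hA
      rw [hc]
      show c • u ∈ _
      exact Submodule.smul_mem _ _ hu
  rcases hW with h | h
  · exfalso
    apply hv
    have := Submodule.mem_span_singleton_self (R := ℂ) v
    rwa [h, Submodule.mem_bot] at this
  · have hw : w ∈ Submodule.span ℂ {v} := by rw [h]; trivial
    obtain ⟨c, hc⟩ := Submodule.mem_span_singleton.1 hw
    exact ⟨c, hc.symm⟩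

end MPtg
end

section
/-! # MP_3d2757_nt, modules SUMLEN and AB -/
open Finset MeasureTheory

namespace MPtg

namespace SumLenM

theorem sum_int {r : ℝ} (h0 : 0 ≤ r) (h1 : r < 1) : Summable fun k : ℤ => r ^ k.natAbs := by
  have h := summable_geometric_of_lt_one h0 h1
  refine Summable.of_nat_of_neg ?_ ?_
  · simpa using h
  · simpa using h

theorem sum_pi {r : ℝ} (h0 : 0 ≤ r) (h1 : r < 1) (n : ℕ) :
    Summable fun a : Fin n → ℤ => ∏ i, r ^ (a i).natAbs := by
  induction n with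
  | zero =>
    exact (hasSum_fintype _).summable
  | succ n ih =>
    have h := (sum_int h0 h1).mul_of_nonneg ih (fun k => pow_nonneg h0 _)
      (fun a => Finset.prod_nonneg fun i _ => pow_nonneg h0 _)
    rw [← (Fin.consEquiv fun _ : Fin (n + 1) => ℤ).summable_iff]
    refine h.congr fun p => ?_
    simp [Fin.prod_univ_succ, Fin.consEquiv]

theorem sym_len {n : ℕ} {L : Fin n → ℤ} (h : Sym L) : ∑ i, (L i).natAbs = 2 * len L := by
  have h1 : ∑ i, (L i).toNat = ∑ i, (-L i).toNat := by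
    rw [← Equiv.sum_comp Fin.revPerm]
    exact Finset.sum_congr rfl fun i _ => by rw [Fin.revPerm_apply, h.2]
  have h2 : ∑ i, (L i).natAbs = ∑ i, ((L i).toNat + (-L i).toNat) :=
    Finset.sum_congr rfl fun i _ => by omega
  rw [h2, Finset.sum_add_distrib, ← h1, len]
  ring

end SumLenM

open SumLenM

theorem specSumLen : SpecSumLen := by
  intro n s hs0 hs1
  have hr0 : 0 ≤ Real.sqrt s := Real.sqrt_nonneg s
  have hr1 : Real.sqrt s < 1 := by
    rw [Real.sqrt_lt' one_pos]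
    simpa using hs1
  have h := (sum_pi hr0 hr1 n).comp_injective
    (i := fun L : {L : Fin n → ℤ // Sym L} => L.1) Subtype.val_injective
  refine h.congr fun L => ?_
  show ∏ i, Real.sqrt s ^ (L.1 i).natAbs = s ^ len L.1
  rw [Finset.prod_pow_eq_pow_sum, sym_len L.2, pow_mul, Real.sq_sqrt hs0.le]

theorem specAb : SpecAb := by
  intro n t ht0 ht1
  have ht2 : 0 < 1 - t ^ 2 := by nlinarith
  induction n using Nat.strong_induction_on with
  | _ n ih =>
  match n, ih with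
  | 0, _ => exact ⟨1, 1, one_pos, fun L => ⟨by simp [AA], by simp [AA]⟩⟩
  | 1, _ => exact ⟨1, 1, one_pos, fun L => ⟨by simp [AA], by simp [AA]⟩⟩
  | m + 2, ih =>
    obtain ⟨c, C, hc, h⟩ := ih m (by omega)
    have hC : 0 < C := hc.trans_le ((h fun _ => 0).1.trans (h fun _ => 0).2)
    refine ⟨min 1 ((1 - t) ^ 2 * c), max 1 (4 / (1 - t ^ 2) * C), ?_, ?_⟩
    · have : 0 < 1 - t := by linarith
      positivity
    intro L
    rw [AA]
    split_ifs with h0
    · exact ⟨min_le_left _ _, le_max_left _ _⟩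
    · set A := AA t m fun i => L i.castSucc.succ with hA
      obtain ⟨h1, h2⟩ := h fun i => L i.castSucc.succ
      rw [← hA] at h1 h2
      have hA0 : 0 < A := hc.trans_le h1
      have hp : ∀ k : ℕ, 1 ≤ k → -t ≤ (-t) ^ k ∧ (-t) ^ k ≤ t := by
        intro k hk
        have h3 : |(-t) ^ k| ≤ t := by
          rw [abs_pow, abs_neg, abs_of_pos ht0]
          exact pow_le_of_le_one ht0.le ht1.le (by omega)
        exact ⟨(abs_le.1 h3).1, (abs_le.1 h3).2⟩
      obtain ⟨p1, p2⟩ := hp (m + 2) (by omega)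
      obtain ⟨p3, p4⟩ := hp (m + 1) (by omega)
      set r := (univ.filter (fun i : Fin (m + 2) => L i = L 0)).card with hr
      have hr1 : 1 ≤ r := Finset.card_pos.2 ⟨0, by simp⟩
      have hq1 : t ^ (2 * r) ≤ t ^ 2 := pow_le_pow_of_le_one ht0.le ht1.le (by omega)
      have hq0 : 0 < t ^ (2 * r) := pow_pos ht0 _
      have hd0 : 0 < 1 - t ^ (2 * r) := by linarith
      have hn1 : (1 - t) ^ 2 ≤ (1 - (-t) ^ (m + 2)) * (1 - (-t) ^ (m + 1)) := by nlinarith
      have hn2 : (1 - (-t) ^ (m + 2)) * (1 - (-t) ^ (m + 1)) ≤ 4 := by nlinarith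
      have hn0 : 0 < (1 - t) ^ 2 := by
        have : 0 < 1 - t := by linarith
        positivity
      have f1 : (1 - t) ^ 2 ≤ (1 - (-t) ^ (m + 2)) * (1 - (-t) ^ (m + 1)) / (1 - t ^ (2 * r)) := by
        rw [le_div_iff₀ hd0]
        nlinarith
      have f2 : (1 - (-t) ^ (m + 2)) * (1 - (-t) ^ (m + 1)) / (1 - t ^ (2 * r)) ≤
          4 / (1 - t ^ 2) := by
        rw [div_le_div_iff₀ hd0 ht2]
        nlinarith
      constructor
      · refine (min_le_right _ _).trans ?_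
        exact mul_le_mul f1 h1 hc.le (hn0.le.trans f1)
      · refine le_trans ?_ (le_max_right _ _)
        exact mul_le_mul f2 h2 hA0.le (by positivity)

end MPtg
end

section
/-!
# MP_3d2757_nt : basic facts for the Weil representation part
-/
set_option autoImplicit false

open Finset

namespace MPtg

namespace Weil

variable {E : Type} [NormedField E] {U : Unr E} {V : Type} [AddCommGroup V] [Module E V]

section form

variable (h : SkF U V)

lemma two_ne (U : Unr E) : (2 : E) ≠ 0 := by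
  intro h2
  have := U.two
  rw [h2, norm_zero] at this
  exact zero_ne_one this

lemma h_add_r (a b c : V) : h.h a (b + c) = h.h a b + h.h a c := by
  rw [h.skew (b + c) a, h.add, map_add, h.skew b a, h.skew c a]; ring

lemma h_smul_r (x : E) (a b : V) : h.h a (x • b) = U.σ x * h.h a b := by
  rw [h.skew (x • b) a, h.smul, map_mul, h.skew b a]; ring

lemma h_zero_l (b : V) : h.h 0 b = 0 := by
  have := h.smul 0 0 b
  rwa [zero_smul, zero_mul] at this

lemma h_zero_r (b : V) : h.h b 0 = 0 := by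
  rw [h.skew 0 b, h_zero_l, map_zero, neg_zero]

lemma h_neg_l (a b : V) : h.h (-a) b = - h.h a b := by
  have := h.add a (-a) b
  rw [add_neg_cancel, h_zero_l] at this
  exact (neg_eq_of_add_eq_zero_right this.symm).symm

lemma h_neg_r (a b : V) : h.h a (-b) = - h.h a b := by
  rw [h.skew (-b) a, h_neg_l, map_neg, h.skew b a]

lemma h_sub_l (a b c : V) : h.h (a - b) c = h.h a c - h.h b c := by
  rw [sub_eq_add_neg, h.add, h_neg_l, sub_eq_add_neg]

lemma h_sub_r (a b c : V) : h.h a (b - c) = h.h a b - h.h a c := by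
  rw [sub_eq_add_neg, h_add_r, h_neg_r, sub_eq_add_neg]

lemma h_self (a : V) : U.σ (h.h a a) = - h.h a a := by
  have := h.skew a a
  rw [eq_neg_iff_add_eq_zero] at this
  rw [eq_neg_iff_add_eq_zero, add_comm]
  exact this

end form

variable {h : SkF U V} {k : ℕ} {M : AddSubgroup V} {S : Type} [NormedAddCommGroup S]
  [InnerProductSpace ℂ S] [CompleteSpace S]

section psi

variable (W : WD U h k M S)

lemma psi_neg (x : E) : W.Ψ (-x) = (W.Ψ x)⁻¹ := AddChar.map_neg_eq_inv _ _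

lemma psi_add (x y : E) : W.Ψ (x + y) = W.Ψ x * W.Ψ y := AddChar.map_add_eq_mul _ _ _

lemma psi_zero : W.Ψ 0 = 1 := AddChar.map_zero_eq_one _

/-- skew elements are in the kernel -/
lemma psi_skew (x : E) (hx : U.σ x = -x) : W.Ψ x = 1 := by
  have h2 := two_ne U
  have e : x = x / 2 + x / 2 := by field_simp; ring
  have h1 : W.Ψ (x / 2) = (W.Ψ (x / 2))⁻¹ := by
    rw [← psi_neg, ← W.Ψσ (x / 2), map_div₀, hx, map_ofNat]
    congr 1
    ring
  rw [e, psi_add]
  nth_rewrite 1 [h1]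
  exact inv_mul_cancel _

lemma psi_h_swap (v w : V) : W.Ψ (h.h w v) = (W.Ψ (h.h v w))⁻¹ := by
  rw [h.skew v w, psi_neg, W.Ψσ]

lemma psi_self (v : V) : W.Ψ (h.h v v) = 1 := psi_skew W _ (h_self h v)

lemma rho_zero (s : S) : W.ρ 0 s = s := by
  have := W.mul 0 0 s
  rw [h_zero_l, psi_zero, add_zero, Circle.coe_one, one_smul] at this
  exact (W.ρ 0).injective this

lemma rho_neg_rho (v : V) (s : S) : W.ρ (-v) (W.ρ v s) = s := by
  rw [W.mul, h_neg_l, psi_neg, psi_self, inv_one, Circle.coe_one, one_smul, neg_add_cancel,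
    rho_zero]

lemma rho_rho_neg (v : V) (s : S) : W.ρ v (W.ρ (-v) s) = s := by
  have := rho_neg_rho W (-v) s
  rwa [neg_neg] at this

lemma rho_comm (v w : V) (s : S) :
    W.ρ v (W.ρ w s) = (W.Ψ (2 * h.h v w) : ℂ) • W.ρ w (W.ρ v s) := by
  rw [W.mul, W.mul, add_comm w v, smul_smul]
  congr 1
  have : W.Ψ (2 * h.h v w) * W.Ψ (h.h w v) = W.Ψ (h.h v w) := by
    rw [two_mul, psi_add, psi_h_swap W v w, mul_assoc, mul_inv_cancel, mul_one]
  rw [← this]; push_cast; ring

lemma rho_add (v w : V) (s : S) :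
    W.ρ (v + w) s = (W.Ψ (-(h.h v w)) : ℂ) • W.ρ v (W.ρ w s) := by
  rw [W.mul, smul_smul, psi_neg]
  have : ((W.Ψ (h.h v w))⁻¹ * W.Ψ (h.h v w) : Circle) = 1 := inv_mul_cancel _
  have h2 : (((W.Ψ (h.h v w))⁻¹ : Circle) : ℂ) * (W.Ψ (h.h v w) : ℂ) = 1 := by
    rw [← Circle.coe_mul, this, Circle.coe_one]
  rw [h2, one_smul]

/-- when the phase is trivial -/
lemma rho_add' (v w : V) (s : S) (hvw : W.Ψ (h.h v w) = 1) :
    W.ρ (v + w) s = W.ρ v (W.ρ w s) := by
  rw [rho_add, psi_neg, hvw, inv_one, Circle.coe_one, one_smul]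

lemma rho_comm' (v w : V) (s : S) (hvw : W.Ψ (2 * h.h v w) = 1) :
    W.ρ v (W.ρ w s) = W.ρ w (W.ρ v s) := by
  rw [rho_comm, hvw, Circle.coe_one, one_smul]

lemma inner_rho (v : V) (s t : S) : inner ℂ (W.ρ v s) (W.ρ v t) = inner ℂ s t :=
  (W.ρ v).inner_map_map s t

lemma inner_rho_left (v : V) (s t : S) : inner ℂ (W.ρ v s) t = inner ℂ s (W.ρ (-v) t) := by
  rw [← inner_rho W v s (W.ρ (-v) t), rho_rho_neg]

lemma inner_rho_right (v : V) (s t : S) : inner ℂ s (W.ρ v t) = inner ℂ (W.ρ (-v) s) t := by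
  rw [inner_rho_left, neg_neg]

lemma psi_int2 (x : E) (hx : ‖x‖ ≤ 1) : W.Ψ (2 * x) = 1 := by
  apply W.Ψint
  rw [norm_mul, U.two, one_mul]; exact hx

end psi

/-! ### averaging -/

/-- An averaged vector: fixed by the subgroup, in the closed convex hull of the orbit. -/
lemma exists_fix (W : WD U h k M S) (N : AddSubgroup V)
    (hN : ∀ v ∈ N, ∀ w ∈ N, W.Ψ (h.h v w) = 1) (s : S) :
    ∃ u : S, (∀ l ∈ N, W.ρ l u = u) ∧
      (∀ (t : S) (c : ℂ), (∀ l ∈ N, inner ℂ t (W.ρ l s) = c) → inner ℂ t u = c) ∧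
      (∀ r : ℝ, (∀ l ∈ N, ‖W.ρ l s - s‖ ≤ r) → ‖u - s‖ ≤ r) := by
  letI : InnerProductSpace ℝ S := InnerProductSpace.rclikeToReal ℂ S
  set O : Set S := (fun l => W.ρ l s) '' (N : Set V) with hO
  set C : Set S := closure (convexHull ℝ O) with hC
  have hCne : C.Nonempty := ⟨s, subset_closure (subset_convexHull ℝ O
    ⟨0, N.zero_mem, rho_zero W s⟩)⟩
  have hCconv : Convex ℝ C := (convex_convexHull ℝ O).closure
  have hCcl : IsClosed C := isClosed_closure
  obtain ⟨u, huC, hu⟩ := exists_norm_eq_iInf_of_complete_convex hCne hCcl.isComplete hCconv 0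
  have hmin : ∀ w ∈ C, ‖u‖ ≤ ‖w‖ := by
    intro w hw
    have h1 : ‖(0 : S) - u‖ ≤ ‖(0 : S) - w‖ := by
      rw [hu]
      exact ciInf_le ⟨0, Set.forall_mem_range.2 fun _ => norm_nonneg _⟩ (⟨w, hw⟩ : C)
    simpa using h1
  -- sets of vectors containing the orbit which are closed and convex
  have hind : ∀ D : Set S, IsClosed D → Convex ℝ D → (∀ l ∈ N, W.ρ l s ∈ D) → u ∈ D := by
    intro D hDc hDv hD
    have h1 : convexHull ℝ O ⊆ D := convexHull_min (by rintro _ ⟨l, hl, rfl⟩; exact hD l hl) hDv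
    exact closure_minimal h1 hDc huC
  have hmap : ∀ l ∈ N, W.ρ l u ∈ C := by
    intro l hl
    have hc : IsClosed ((fun x => W.ρ l x) ⁻¹' C) := hCcl.preimage (W.ρ l).continuous
    have hv : Convex ℝ ((fun x => W.ρ l x) ⁻¹' C) := by
      intro x hx y hy a b ha hb hab
      show W.ρ l (a • x + b • y) ∈ C
      have e : W.ρ l (a • x + b • y) = a • W.ρ l x + b • W.ρ l y := by
        have ea : ∀ (a : ℝ) (x : S), W.ρ l (a • x) = a • W.ρ l x := by
          intro a x
          have e1 : ∀ y : S, a • y = ((a : ℂ)) • y := fun y => (Complex.coe_smul a y).symm ▸ rfl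
          rw [e1, e1, map_smul]
        rw [map_add, ea, ea]
      rw [e]
      exact hCconv hx hy ha hb hab
    refine hind _ hc hv ?_
    intro l' hl'
    show W.ρ l (W.ρ l' s) ∈ C
    rw [← rho_add' W l l' s (hN l hl l' hl')]
    exact subset_closure (subset_convexHull ℝ O ⟨l + l', N.add_mem hl hl', rfl⟩)
  refine ⟨u, ?_, ?_, ?_⟩
  · intro l hl
    have h1 : (1 / 2 : ℝ) • W.ρ l u + (1 / 2 : ℝ) • u ∈ C :=
      hCconv (hmap l hl) huC (by norm_num) (by norm_num) (by norm_num)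
    have h2 := hmin _ h1
    have h3 : ‖W.ρ l u‖ = ‖u‖ := (W.ρ l).norm_map u
    have h4 := parallelogram_law_with_norm ℝ (W.ρ l u) u
    have h5 : ‖(1 / 2 : ℝ) • W.ρ l u + (1 / 2 : ℝ) • u‖ = 1 / 2 * ‖W.ρ l u + u‖ := by
      rw [← smul_add, norm_smul]; norm_num
    rw [h5] at h2
    have h6 : ‖W.ρ l u - u‖ * ‖W.ρ l u - u‖ ≤ 0 := by
      rw [h3] at h4
      nlinarith [norm_nonneg u, norm_nonneg (W.ρ l u + u)]
    have h7 : ‖W.ρ l u - u‖ = 0 := by nlinarith [norm_nonneg (W.ρ l u - u)]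
    exact sub_eq_zero.1 (norm_eq_zero.1 h7)
  · intro t c hc
    have hcl : IsClosed {x : S | inner ℂ t x = c} :=
      isClosed_eq (by fun_prop) continuous_const
    have hcv : Convex ℝ {x : S | inner ℂ t x = c} := by
      intro x hx y hy a b ha hb hab
      simp only [Set.mem_setOf_eq] at hx hy ⊢
      have e1 : ∀ (a : ℝ) (y : S), a • y = ((a : ℂ)) • y := fun a y =>
        (Complex.coe_smul a y).symm ▸ rfl
      rw [e1, e1, inner_add_right, inner_smul_right, inner_smul_right, hx, hy, ← add_mul]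
      rw [← Complex.ofReal_add, hab, Complex.ofReal_one, one_mul]
    exact hind _ hcl hcv hc
  · intro r hr
    have := hind (Metric.closedBall s r) Metric.isClosed_closedBall (convex_closedBall s r)
      (fun l hl => by rw [mem_closedBall_iff_norm]; exact hr l hl)
    rwa [mem_closedBall_iff_norm] at this

end Weil

end MPtg
end

section
/-!
# MP_3d2757_nt : representatives, phases (Weil representation part)
-/
set_option autoImplicit false

open Finset

namespace MPtg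

namespace Weil

section reps

variable {V : Type} [AddCommGroup V]

/-- `R` is a set of representatives of `G` modulo `H` -/
def Rep (G H : AddSubgroup V) (R : Finset V) : Prop :=
  (∀ r ∈ R, r ∈ G) ∧ ∀ g ∈ G, ∃! r, r ∈ R ∧ g - r ∈ H

lemma exists_rep (G H : AddSubgroup V) (hHG : H ≤ G)
    (hfin : ((QuotientAddGroup.mk : V → V ⧸ H) '' (G : Set V)).Finite) :
    ∃ R : Finset V, Rep G H R := by
  classical
  have hout : ∀ g : V, g - (Quotient.out (QuotientAddGroup.mk g : V ⧸ H)) ∈ H := by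
    intro g
    have h1 : (QuotientAddGroup.mk (Quotient.out (QuotientAddGroup.mk g : V ⧸ H)) : V ⧸ H) =
        QuotientAddGroup.mk g := Quotient.out_eq' _
    rw [QuotientAddGroup.eq] at h1
    rw [sub_eq_add_neg, add_comm]; exact h1
  have hmem : ∀ g ∈ G, (Quotient.out (QuotientAddGroup.mk g : V ⧸ H)) ∈ G := by
    intro g hg
    have h1 := hHG (hout g)
    have h2 := G.sub_mem hg h1
    rwa [sub_sub_cancel] at h2
  refine ⟨hfin.toFinset.image Quotient.out, ?_, ?_⟩
  · intro r hr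
    obtain ⟨x, hx, rfl⟩ := Finset.mem_image.1 hr
    rw [Set.Finite.mem_toFinset] at hx
    obtain ⟨g, hg, rfl⟩ := hx
    exact hmem g hg
  · intro g hg
    refine ⟨Quotient.out (QuotientAddGroup.mk g : V ⧸ H), ⟨?_, hout g⟩, ?_⟩
    · exact Finset.mem_image.2 ⟨_, by rw [Set.Finite.mem_toFinset]; exact ⟨g, hg, rfl⟩, rfl⟩
    · rintro r ⟨hr, hgr⟩
      obtain ⟨x, hx, rfl⟩ := Finset.mem_image.1 hr
      have h1 : x = (QuotientAddGroup.mk g : V ⧸ H) := by
        have h2 : (QuotientAddGroup.mk (Quotient.out x) : V ⧸ H) = x := Quotient.out_eq' _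
        rw [← h2, QuotientAddGroup.eq, ← sub_eq_neg_add]
        exact hgr
      rw [h1]

lemma Rep.shift {G H : AddSubgroup V} {R : Finset V} (hR : Rep G H R) {X : Type}
    [AddCommMonoid X] (F : V → X) (hF : ∀ g ∈ G, ∀ k ∈ H, F (g + k) = F g) {g₀ : V}
    (hg₀ : g₀ ∈ G) : ∑ r ∈ R, F (r + g₀) = ∑ r ∈ R, F r := by
  classical
  have hex : ∀ g ∈ G, ∃ r ∈ R, g - r ∈ H := fun g hg => by
    obtain ⟨r, hr, _⟩ := hR.2 g hg
    exact ⟨r, hr.1, hr.2⟩
  choose! f hf1 hf2 using hex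
  have huniq : ∀ g ∈ G, ∀ r ∈ R, ∀ r' ∈ R, g - r ∈ H → g - r' ∈ H → r = r' := by
    intro g hg r hr r' hr' h1 h2
    exact (hR.2 g hg).unique ⟨hr, h1⟩ ⟨hr', h2⟩
  refine Finset.sum_bij (fun r _ => f (r + g₀)) ?_ ?_ ?_ ?_
  · intro r hr
    exact hf1 _ (G.add_mem (hR.1 r hr) hg₀)
  · intro r hr r' hr' h
    have h1 := hf2 _ (G.add_mem (hR.1 r hr) hg₀)
    have h2 := hf2 _ (G.add_mem (hR.1 r' hr') hg₀)
    rw [h] at h1
    refine huniq r (hR.1 r hr) r hr r' hr' (by rw [sub_self]; exact H.zero_mem) ?_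
    have h3 := H.sub_mem h1 h2
    have e : (r + g₀ - f (r' + g₀)) - (r' + g₀ - f (r' + g₀)) = r - r' := by abel
    rwa [e] at h3
  · intro r hr
    have hm : r - g₀ ∈ G := G.sub_mem (hR.1 r hr) hg₀
    refine ⟨f (r - g₀), hf1 _ hm, ?_⟩
    have h1 := hf2 _ hm
    have h2 := hf2 _ (G.add_mem (hR.1 _ (hf1 _ hm)) hg₀)
    refine huniq (f (r - g₀) + g₀) (G.add_mem (hR.1 _ (hf1 _ hm)) hg₀) _
      (hf1 _ (G.add_mem (hR.1 _ (hf1 _ hm)) hg₀)) r hr h2 ?_
    have h3 := H.neg_mem h1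
    have e : -(r - g₀ - f (r - g₀)) = f (r - g₀) + g₀ - r := by abel
    rwa [e] at h3
  · intro r hr
    have hm := G.add_mem (hR.1 r hr) hg₀
    have h1 := hf2 _ hm
    have h2 := hF _ (hR.1 _ (hf1 _ hm)) _ h1
    rw [add_sub_cancel] at h2
    exact h2

end reps

section latt

variable {E : Type} [NormedField E] {U : Unr E} {V : Type} [AddCommGroup V] [Module E V]
  {h : SkF U V} {k : ℕ} {M : AddSubgroup V} {S : Type} [NormedAddCommGroup S]
  [InnerProductSpace ℂ S] [CompleteSpace S]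

lemma pi_ne (U : Unr E) : U.ϖ ≠ 0 := norm_pos_iff.1 U.ϖpos

lemma smul_mem (hB : SpecBox) (W : WD U h k M S) {x : E} (hx : ‖x‖ ≤ 1) {v : V} (hv : v ∈ M) :
    x • v ∈ M := by
  obtain ⟨b, _, rfl⟩ := W.sd
  exact (hB E U V k b).1 0 x v hx hv

lemma span_top (W : WD U h k M S) (v : V) : v ∈ Submodule.span E (M : Set V) := by
  obtain ⟨j, hj⟩ := W.full v
  have h1 : v = (U.ϖ ^ j)⁻¹ • ((U.ϖ ^ j) • v) := by
    rw [smul_smul, inv_mul_cancel₀ (pow_ne_zero _ (pi_ne U)), one_smul]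
  rw [h1]
  exact Submodule.smul_mem _ _ (Submodule.subset_span hj)

lemma h_int (hS : SpecSdl) (W : WD U h k M S) {v w : V} (hv : v ∈ M) (hw : w ∈ M) :
    ‖h.h v w‖ ≤ 1 := (hS E U V h k M W.sd).1 v hv w hw

lemma psi_int (hS : SpecSdl) (W : WD U h k M S) {v w : V} (hv : v ∈ M) (hw : w ∈ M) :
    W.Ψ (h.h v w) = 1 := W.Ψint _ (h_int hS W hv hw)

/-- a vector outside the lattice pairs non integrally with it -/
lemma exists_big (hS : SpecSdl) (W : WD U h k M S) {v : V} (hv : v ∉ M) :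
    ∃ w ∈ M, 1 < ‖h.h v w‖ := by
  by_contra hcon
  push Not at hcon
  exact hv ((hS E U V h k M W.sd).2.1 v (span_top W v) hcon)

lemma sigma_inv (x y : E) (hx : U.σ x = y) : x = U.σ y := by
  rw [← hx, U.σσ]

lemma norm_gt (U : Unr E) {c : E} (hc : 1 < ‖c‖) : ‖U.ϖ‖⁻¹ ≤ ‖c‖ := by
  have hc0 : c ≠ 0 := by
    rintro rfl
    rw [norm_zero] at hc; linarith
  obtain ⟨r, hr⟩ := U.disc c hc0
  rw [hr] at hc ⊢
  have hr1 : r ≤ -1 := by
    by_contra hcon
    push Not at hcon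
    have h0 : 0 ≤ r := by omega
    have := zpow_le_one₀ U.ϖpos U.ϖlt.le h0
    linarith
  have h2 := zpow_le_zpow_right_of_le_one₀ U.ϖpos U.ϖlt.le hr1
  rwa [zpow_neg_one] at h2

lemma norm_lt (U : Unr E) {c : E} (hc : ‖c‖ < 1) : ‖c‖ ≤ ‖U.ϖ‖ := by
  rcases eq_or_ne c 0 with rfl | hc0
  · rw [norm_zero]; exact U.ϖpos.le
  obtain ⟨r, hr⟩ := U.disc c hc0
  rw [hr] at hc ⊢
  have hr1 : 1 ≤ r := by
    by_contra hcon
    push Not at hcon
    have h0 : r ≤ 0 := by omega
    have h1 := zpow_le_zpow_right_of_le_one₀ U.ϖpos U.ϖlt.le h0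
    rw [zpow_zero] at h1
    linarith
  have h2 := zpow_le_zpow_right_of_le_one₀ U.ϖpos U.ϖlt.le hr1
  rwa [zpow_one] at h2

/-- a vector outside the lattice has a nontrivial phase on the lattice -/
lemma exists_phase (hB : SpecBox) (hS : SpecSdl) (W : WD U h k M S) {v : V} (hv : v ∉ M) :
    ∃ m ∈ M, W.Ψ (2 * h.h v m) ≠ 1 := by
  obtain ⟨w, hw, hc⟩ := exists_big hS W hv
  obtain ⟨x₀, hx₀, hx₁, hx₂⟩ := W.Ψnt
  have hc' := norm_gt U hc
  have hcne : h.h v w ≠ 0 := by
    intro h0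
    rw [h0, norm_zero] at hc; linarith
  set y : E := U.σ (x₀ / (2 * h.h v w)) with hy
  have hyn : ‖y‖ ≤ 1 := by
    rw [hy, U.σn, norm_div, norm_mul, U.two, one_mul, div_le_one (lt_trans one_pos hc)]
    exact hx₁.trans hc'
  refine ⟨y • w, smul_mem hB W hyn hw, ?_⟩
  rw [h_smul_r, hy, U.σσ]
  have : 2 * (x₀ / (2 * h.h v w) * h.h v w) = x₀ := by
    have := two_ne U
    field_simp
  rw [this]
  exact hx₂

lemma mem_sc (U : Unr E) (j : ℤ) (M : AddSubgroup V) (v : V) :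
    v ∈ sc U j M ↔ ∃ m ∈ M, v = (U.ϖ ^ j) • m := by
  unfold sc
  rw [AddSubgroup.mem_map]
  constructor
  · rintro ⟨m, hm, rfl⟩; exact ⟨m, hm, rfl⟩
  · rintro ⟨m, hm, rfl⟩; exact ⟨m, hm, rfl⟩

lemma sc_le (hB : SpecBox) (W : WD U h k M S) (j : ℕ) : sc U j M ≤ M := by
  intro v hv
  obtain ⟨m, hm, rfl⟩ := (mem_sc U j M v).1 hv
  apply smul_mem hB W _ hm
  rw [zpow_natCast, norm_pow]
  exact pow_le_one₀ U.ϖpos.le U.ϖlt.le

lemma exists_rep_sc (hB : SpecBox) (hS : SpecSdl) (W : WD U h k M S) (j : ℕ) :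
    ∃ R : Finset V, Rep M (sc U j M) R := by
  apply exists_rep _ _ (sc_le hB W j)
  obtain ⟨b, hb, hM⟩ := W.sd
  have hli := (hS E U V h k M W.sd).2.2.1 b hb
  have h1 := (hB E U V k b).2.1 0 j
  have h2 := (hB E U V k b).2.2.2.2.2.1 hli 0 (fun i => (0 : Fin k → ℤ) i + j) (by
    intro i; simp)
  rw [← h1, ← hM] at h2
  unfold ncls at h2
  apply Set.finite_of_ncard_ne_zero
  rw [h2]
  have := U.q3
  positivity

end latt

end Weil

end MPtg
end

section
/-!
# MP_3d2757_nt : module WA, the vector fixed by the lattice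
-/
set_option autoImplicit false

open Finset

namespace MPtg

namespace Weil

variable {E : Type} [NormedField E] {U : Unr E} {V : Type} [AddCommGroup V] [Module E V]
  {h : SkF U V} {k : ℕ} {M : AddSubgroup V} {S : Type} [NormedAddCommGroup S]
  [InnerProductSpace ℂ S] [CompleteSpace S]

lemma orth (hB : SpecBox) (hS : SpecSdl) (W : WD U h k M S) {s t : S}
    (hs : ∀ m ∈ M, W.ρ m s = s) (ht : ∀ m ∈ M, W.ρ m t = t) {y : V} (hy : y ∉ M) :
    inner ℂ s (W.ρ y t) = 0 := by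
  obtain ⟨m, hm, hph⟩ := exists_phase hB hS W hy
  have h1 : W.ρ y t = (W.Ψ (2 * h.h y m) : ℂ) • W.ρ m (W.ρ y t) := by
    conv_lhs => rw [← ht m hm]
    exact rho_comm W y m t
  have h2 : inner ℂ s (W.ρ y t) = (W.Ψ (2 * h.h y m) : ℂ) * inner ℂ s (W.ρ y t) := by
    conv_lhs => rw [h1, inner_smul_right, ← hs m hm, inner_rho]
  have h3 : ((W.Ψ (2 * h.h y m) : ℂ) - 1) * inner ℂ s (W.ρ y t) = 0 := by
    rw [sub_mul, ← h2]; ring
  rcases mul_eq_zero.1 h3 with h4 | h4
  · exfalso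
    apply hph
    apply Circle.ext
    rw [Circle.coe_one]
    exact sub_eq_zero.1 h4
  · exact h4

lemma sigma_zpow (U : Unr E) (j : ℤ) : U.σ (U.ϖ ^ j) = U.ϖ ^ j := by
  rw [map_zpow₀, U.σϖ]

lemma exists_fixed (hB : SpecBox) (hS : SpecSdl) (W : WD U h k M S) [Nontrivial S] :
    ∃ t : S, t ≠ 0 ∧ ∀ m ∈ M, W.ρ m t = t := by
  classical
  by_contra hcon
  push Not at hcon
  have hzero : ∀ t : S, (∀ m ∈ M, W.ρ m t = t) → t = 0 := by
    intro t ht
    by_contra h0
    obtain ⟨m, hm, hne⟩ := hcon t h0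
    exact hne (ht m hm)
  obtain ⟨s, hs⟩ := exists_ne (0 : S)
  have hsn : 0 < ‖s‖ := norm_pos_iff.2 hs
  obtain ⟨j, hj⟩ := W.cont s (‖s‖ / 2) (by positivity)
  set N := sc U (j : ℤ) M with hN
  set p : E := U.ϖ ^ (j : ℤ) with hp
  have hp0 : p ≠ 0 := zpow_ne_zero _ (pi_ne U)
  have hσp : U.σ p = p := sigma_zpow U _
  have hσp' : U.σ p⁻¹ = p⁻¹ := by rw [map_inv₀, hσp]
  have hNM : N ≤ M := sc_le hB W j
  have hNN : ∀ v ∈ N, ∀ w ∈ N, W.Ψ (h.h v w) = 1 := fun v hv w hw =>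
    psi_int hS W (hNM hv) (hNM hw)
  obtain ⟨u, hu1, -, hu3⟩ := exists_fix W N hNN s
  have hus : ‖u - s‖ ≤ ‖s‖ / 2 := by
    apply hu3
    intro l hl
    obtain ⟨m, hm, rfl⟩ := (mem_sc U _ M l).1 hl
    have := hj m hm
    rw [zpow_natCast]
    exact this.le
  have hu0 : u ≠ 0 := by
    rintro rfl
    rw [zero_sub, norm_neg] at hus
    linarith
  obtain ⟨R, hR⟩ := exists_rep_sc hB hS W j
  -- the vectors `ρ(p⁻¹ w) u` are fixed by `N`
  have ht : ∀ w ∈ M, ∀ n ∈ N, W.ρ n (W.ρ (p⁻¹ • w) u) = W.ρ (p⁻¹ • w) u := by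
    intro w hw n hn
    obtain ⟨m, hm, rfl⟩ := (mem_sc U _ M n).1 hn
    rw [rho_comm' W, hu1 _ hn]
    rw [h.smul, h_smul_r, hσp', ← mul_assoc p, mul_inv_cancel₀ hp0, one_mul]
    exact psi_int2 W _ (h_int hS W hm hw)
  have hA : ∀ w ∈ M, ∑ m ∈ R, W.ρ m (W.ρ (p⁻¹ • w) u) = 0 := by
    intro w hw
    apply hzero
    intro m₀ hm₀
    rw [map_sum]
    have h1 : ∀ m ∈ R, W.ρ m₀ (W.ρ m (W.ρ (p⁻¹ • w) u)) = W.ρ (m + m₀) (W.ρ (p⁻¹ • w) u) := by
      intro m hm
      rw [add_comm, rho_add' W _ _ _ (psi_int hS W hm₀ (hR.1 m hm))]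
    rw [sum_congr rfl h1]
    refine hR.shift (fun m => W.ρ m (W.ρ (p⁻¹ • w) u)) ?_ hm₀
    intro g hg n hn
    show W.ρ (g + n) (W.ρ (p⁻¹ • w) u) = W.ρ g (W.ρ (p⁻¹ • w) u)
    rw [rho_add' W _ _ _ (psi_int hS W hg (hNM hn)), ht w hw n hn]
  -- the character sums
  set c : V → ℂ := fun m => ∑ w ∈ R, (W.Ψ (2 * h.h (-(p⁻¹ • w)) m) : ℂ) with hc
  have hsum : ∑ m ∈ R, c m • W.ρ m u = 0 := by
    have h1 : ∑ w ∈ R, W.ρ (-(p⁻¹ • w)) (∑ m ∈ R, W.ρ m (W.ρ (p⁻¹ • w) u)) = 0 := by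
      refine sum_eq_zero fun w hw => ?_
      rw [hA w (hR.1 w hw), map_zero]
    have h2 : ∑ w ∈ R, W.ρ (-(p⁻¹ • w)) (∑ m ∈ R, W.ρ m (W.ρ (p⁻¹ • w) u)) =
        ∑ w ∈ R, ∑ m ∈ R, (W.Ψ (2 * h.h (-(p⁻¹ • w)) m) : ℂ) • W.ρ m u := by
      refine sum_congr rfl fun w hw => ?_
      rw [map_sum]
      refine sum_congr rfl fun m hm => ?_
      rw [rho_comm W, rho_neg_rho]
    rw [h2, sum_comm] at h1
    rw [← h1]
    refine sum_congr rfl fun m hm => ?_
    rw [hc]
    simp only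
    rw [sum_smul]
  have hc1 : ∀ m ∈ N, c m = R.card := by
    intro m hm
    obtain ⟨m', hm', rfl⟩ := (mem_sc U _ M m).1 hm
    rw [hc]
    simp only
    rw [sum_congr rfl (g := fun _ => (1 : ℂ))]
    · simp
    · intro w hw
      rw [h_neg_l, h.smul, h_smul_r, hσp, ← mul_assoc p⁻¹, inv_mul_cancel₀ hp0, one_mul,
        ← h_neg_r, psi_int2 W _ (h_int hS W (hR.1 w hw) (M.neg_mem hm')), Circle.coe_one]
  have hc2 : ∀ m ∈ M, m ∉ N → c m = 0 := by
    intro m hm hmN
    have hmM : p⁻¹ • m ∉ M := by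
      intro h1
      apply hmN
      rw [hN, mem_sc]
      exact ⟨_, h1, by rw [smul_smul, mul_inv_cancel₀ hp0, one_smul]⟩
    obtain ⟨w₀, hw₀, hph⟩ := exists_phase hB hS W hmM
    have hph2 : W.Ψ (2 * h.h (-(p⁻¹ • w₀)) m) = W.Ψ (2 * h.h (p⁻¹ • m) w₀) := by
      have e1 : h.h (-(p⁻¹ • w₀)) m = U.σ (h.h (p⁻¹ • m) w₀) := by
        rw [h_neg_l, h.smul, h.smul, map_mul, hσp', h.skew m w₀]; ring
      rw [e1]
      have e2 : (2 : E) * U.σ (h.h (p⁻¹ • m) w₀) = U.σ (2 * h.h (p⁻¹ • m) w₀) := by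
        rw [map_mul, map_ofNat]
      rw [e2, W.Ψσ]
    have h1 := hR.shift (fun w => (W.Ψ (2 * h.h (-(p⁻¹ • w)) m) : ℂ)) (by
      intro g hg n hn
      obtain ⟨n', hn', rfl⟩ := (mem_sc U _ M n).1 hn
      show (W.Ψ (2 * h.h (-(p⁻¹ • (g + p • n'))) m) : ℂ) = (W.Ψ (2 * h.h (-(p⁻¹ • g)) m) : ℂ)
      have e1 : (2 : E) * h.h (-(p⁻¹ • (g + p • n'))) m =
          2 * h.h (-(p⁻¹ • g)) m + 2 * (h.h (-n') m) := by
        rw [smul_add, smul_smul, inv_mul_cancel₀ hp0, one_smul, neg_add, h.add]; ring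
      rw [e1, psi_add, psi_int2 W _ (h_int hS W (M.neg_mem hn') hm), mul_one]) hw₀
    have h2 : ∀ w ∈ R, (W.Ψ (2 * h.h (-(p⁻¹ • (w + w₀))) m) : ℂ) =
        (W.Ψ (2 * h.h (p⁻¹ • m) w₀) : ℂ) * (W.Ψ (2 * h.h (-(p⁻¹ • w)) m) : ℂ) := by
      intro w hw
      have e1 : (2 : E) * h.h (-(p⁻¹ • (w + w₀))) m =
          2 * h.h (-(p⁻¹ • w₀)) m + 2 * h.h (-(p⁻¹ • w)) m := by
        rw [smul_add, neg_add, h.add]; ring
      rw [e1, psi_add, hph2, Circle.coe_mul]
    rw [sum_congr rfl h2, ← mul_sum] at h1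
    have h3 : ((W.Ψ (2 * h.h (p⁻¹ • m) w₀) : ℂ) - 1) * c m = 0 := by
      rw [sub_mul, one_mul, sub_eq_zero]; exact h1
    rcases mul_eq_zero.1 h3 with h4 | h4
    · exfalso
      apply hph
      apply Circle.ext
      rw [Circle.coe_one]
      exact sub_eq_zero.1 h4
    · exact h4
  obtain ⟨r₀, ⟨hr₀, hr₀N⟩, hr₀u⟩ := hR.2 0 M.zero_mem
  have hr₀N' : r₀ ∈ N := by
    have := N.neg_mem hr₀N
    rwa [zero_sub, neg_neg] at this
  rw [sum_eq_single_of_mem r₀ hr₀ (by
    intro m hm hne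
    rw [hc2 m (hR.1 m hm), zero_smul]
    intro hmN
    apply hne
    apply hr₀u
    exact ⟨hm, by rw [zero_sub]; exact N.neg_mem hmN⟩)] at hsum
  rw [hc1 r₀ hr₀N', hu1 r₀ hr₀N'] at hsum
  rcases smul_eq_zero.1 hsum with h1 | h1
  · have : R.card = 0 := by exact_mod_cast h1
    rw [card_eq_zero] at this
    rw [this] at hr₀
    exact absurd hr₀ (notMem_empty _)
  · exact hu0 h1

/-- a vector orthogonal to the translates of a lattice vector is zero -/
lemma eq_zero_of_orth (W : WD U h k M S) {φ : S} (hφ : φ ≠ 0) {s : S}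
    (hs : ∀ y, inner ℂ (W.ρ y φ) s = 0) : s = 0 := by
  let P : Submodule ℂ S :=
    { carrier := {s | ∀ y, inner ℂ (W.ρ y φ) s = 0}
      add_mem' := by
        intro a b ha hb y
        rw [inner_add_right, ha y, hb y, add_zero]
      zero_mem' := fun y => inner_zero_right _
      smul_mem' := by
        intro c a ha y
        rw [inner_smul_right, ha y, mul_zero] }
  have hPc : IsClosed (P : Set S) := by
    have e : (P : Set S) = ⋂ y : V, {s | inner ℂ (W.ρ y φ) s = 0} := by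
      ext s
      simp only [Set.mem_iInter]
      rfl
    rw [e]
    apply isClosed_iInter
    intro y
    exact isClosed_eq (by fun_prop) continuous_const
  have hPi : ∀ v, ∀ s ∈ P, W.ρ v s ∈ P := by
    intro v s hs y
    rw [inner_rho_right, W.mul, inner_smul_left, hs, mul_zero]
  rcases W.irr P hPc hPi with h1 | h1
  · have : s ∈ P := hs
    rw [h1, Submodule.mem_bot] at this
    exact this
  · exfalso
    have : φ ∈ P := by rw [h1]; trivial
    have h2 := this 0
    rw [rho_zero, inner_self_eq_zero] at h2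
    exact hφ h2

/-- uniqueness of the fixed vector -/
lemma fixed_unique (hB : SpecBox) (hS : SpecSdl) (W : WD U h k M S) {φ : S} (hφ : ‖φ‖ = 1)
    (hφM : ∀ m ∈ M, W.ρ m φ = φ) {s : S} (hs : ∀ m ∈ M, W.ρ m s = s) :
    s = inner ℂ φ s • φ := by
  have hφ0 : φ ≠ 0 := by
    rintro rfl
    rw [norm_zero] at hφ
    exact zero_ne_one hφ
  rw [← sub_eq_zero]
  apply eq_zero_of_orth W hφ0
  intro y
  have hd : ∀ m ∈ M, W.ρ m (s - inner ℂ φ s • φ) = s - inner ℂ φ s • φ := by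
    intro m hm
    rw [map_sub, map_smul, hs m hm, hφM m hm]
  by_cases hy : y ∈ M
  · rw [hφM y hy, inner_sub_right, inner_smul_right, inner_self_eq_norm_sq_to_K, hφ]
    simp
  · have := orth hB hS W hd hφM hy
    rw [← inner_conj_symm, this, map_zero]

end Weil

theorem specWA (hB : SpecBox) (hS : SpecSdl) : SpecWA := by
  intro E _ U V _ _ h k M S _ _ _ W hnt
  obtain ⟨t, ht0, ht⟩ := Weil.exists_fixed hB hS W
  have htn : ‖t‖ ≠ 0 := norm_ne_zero_iff.2 ht0
  set φ : S := ((‖t‖⁻¹ : ℝ) : ℂ) • t with hφ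
  have hφM : ∀ m ∈ M, W.ρ m φ = φ := by
    intro m hm
    rw [hφ, map_smul, ht m hm]
  have hφn : ‖φ‖ = 1 := by
    rw [hφ, norm_smul, Complex.norm_real, norm_inv, norm_norm, inv_mul_cancel₀ htn]
  refine ⟨φ, hφn, hφM, ?_, ?_⟩
  · intro s hs
    exact ⟨_, Weil.fixed_unique hB hS W hφn hφM hs⟩
  · intro y hy
    exact Weil.orth hB hS W hφM hφM hy

end MPtg
end

section
/-!
# MP_3d2757_nt : module WDD, chains of lattices
-/
set_option autoImplicit false

open Finset

namespace MPtg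

namespace Weil

variable {E : Type} [NormedField E] {U : Unr E} {V : Type} [AddCommGroup V] [Module E V]
  {h : SkF U V} {k : ℕ} {M : AddSubgroup V} {S : Type} [NormedAddCommGroup S]
  [InnerProductSpace ℂ S] [CompleteSpace S]

lemma omega_fixed (W : WD U h k M S) {φ : S} (hφM : ∀ m ∈ M, W.ρ m φ = φ) (g : ↥(Iso U h))
    {m : V} (hm : m ∈ M) : W.ρ ((g : V ≃ₗ[E] V) m) (W.ω g φ) = W.ω g φ := by
  rw [← W.comp, hφM m hm]

lemma iso_h (g : ↥(Iso U h)) (v w : V) :
    h.h ((g : V ≃ₗ[E] V) v) ((g : V ≃ₗ[E] V) w) = h.h v w := g.2 v w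

lemma inner_omega (W : WD U h k M S) (g : ↥(Iso U h)) (s t : S) :
    inner ℂ (W.ω g s) (W.ω g t) = inner ℂ s t := (W.ω g).inner_map_map s t

end Weil

open Weil in
theorem specWD (hB : SpecBox) (hS : SpecSdl) : SpecWD := by
  intro E _ U V _ _ h k M S _ _ _ W φ hφn hφM g' g'' hg
  set N : AddSubgroup V := M.map ((g' : V ≃ₗ[E] V) : V →+ V) with hN
  have hNmem : ∀ v, v ∈ N ↔ ∃ m ∈ M, (g' : V ≃ₗ[E] V) m = v := by
    intro v
    rw [hN, AddSubgroup.mem_map]
    rfl
  have hNN : ∀ v ∈ N, ∀ w ∈ N, W.Ψ (h.h v w) = 1 := by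
    intro v hv w hw
    obtain ⟨a, ha, rfl⟩ := (hNmem v).1 hv
    obtain ⟨b, hb, rfl⟩ := (hNmem w).1 hw
    rw [iso_h]
    exact psi_int hS W ha hb
  obtain ⟨u, hu1, hu2, -⟩ := exists_fix W N hNN φ
  set t : S := (W.ω g').symm u with ht
  have hωt : W.ω g' t = u := by rw [ht, LinearIsometryEquiv.apply_symm_apply]
  have htM : ∀ m ∈ M, W.ρ m t = t := by
    intro m hm
    apply (W.ω g').injective
    rw [W.comp, hωt]
    exact hu1 _ ((hNmem _).2 ⟨m, hm, rfl⟩)
  have ht1 := fixed_unique hB hS W hφn hφM htM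
  have hc : inner ℂ (W.ω g' φ) u = inner ℂ (W.ω g' φ) φ := by
    apply hu2
    intro l hl
    rw [inner_rho_right]
    obtain ⟨m, hm, hml⟩ := (hNmem _).1 (N.neg_mem hl)
    rw [← hml, omega_fixed W hφM g' hm]
  have hu : u = inner ℂ (W.ω g' φ) φ • W.ω g' φ := by
    rw [← hc, ← hωt, inner_omega]
    conv_lhs => rw [ht1]
    rw [map_smul]
  have hc2 : inner ℂ (W.ω g'' φ) u = inner ℂ (W.ω g'' φ) φ := by
    apply hu2
    intro l hl
    obtain ⟨x, hx, rfl⟩ := (hNmem _).1 hl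
    obtain ⟨y, z, hyz, hyM, ⟨y', hy', hyy⟩, ⟨z', hz', hzz⟩, ⟨z'', hz'', hzz2⟩⟩ := hg x hx
    have hyN : y ∈ N := (hNmem _).2 ⟨y', hy', hyy⟩
    have hzN : z ∈ N := (hNmem _).2 ⟨z', hz', hzz⟩
    rw [hyz, add_comm, rho_add' W _ _ _ (hNN z hzN y hyN), hφM y hyM, inner_rho_right, ← hzz2]
    rw [← map_neg, omega_fixed W hφM g'' (M.neg_mem hz'')]
  rw [hu, inner_smul_right] at hc2
  rw [← inner_conj_symm φ (W.ω g'' φ), ← hc2, map_mul, inner_conj_symm, inner_conj_symm]

end MPtg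
end

section
/-!
# MP_3d2757_nt : isometries acting on a hyperbolic plane
-/
set_option autoImplicit false

open Finset

namespace MPtg

namespace Weil

variable {E : Type} [NormedField E] {U : Unr E} {V : Type} [AddCommGroup V] [Module E V]

/-- hyperbolic pair -/
def HP (h : SkF U V) (e f : V) : Prop := h.h e e = 0 ∧ h.h f f = 0 ∧ h.h e f = 1

/-- the linear map with matrix `(α β; γ δ)` on the plane of `(e, f)` and identity on its
orthogonal -/
def plm (h : SkF U V) (e f : V) (α β γ δ : E) : V →ₗ[E] V where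
  toFun v := v + ((α - 1) * h.h v f - β * h.h v e) • e + (γ * h.h v f - (δ - 1) * h.h v e) • f
  map_add' := by
    intro v w
    rw [h.add, h.add]
    module
  map_smul' := by
    intro x v
    rw [h.smul, h.smul, RingHom.id_apply]
    module

lemma plm_apply (h : SkF U V) (e f : V) (α β γ δ : E) (v : V) : plm h e f α β γ δ v =
    v + ((α - 1) * h.h v f - β * h.h v e) • e + (γ * h.h v f - (δ - 1) * h.h v e) • f := rfl

variable {h : SkF U V} {e f : V}

lemma HP.fe (H : HP h e f) : h.h f e = -1 := by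
  rw [h.skew e f, H.2.2, map_one]

lemma plm_h_f (H : HP h e f) (α β γ δ : E) (v : V) :
    h.h (plm h e f α β γ δ v) f = α * h.h v f - β * h.h v e := by
  rw [plm_apply, h.add, h.add, h.smul, h.smul, H.2.2, H.2.1]; ring

lemma plm_h_e (H : HP h e f) (α β γ δ : E) (v : V) :
    h.h (plm h e f α β γ δ v) e = - (γ * h.h v f - δ * h.h v e) := by
  rw [plm_apply, h.add, h.add, h.smul, h.smul, H.fe, H.1]; ring

lemma plm_comp (H : HP h e f) (α β γ δ α' β' γ' δ' : E) (v : V) :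
    plm h e f α β γ δ (plm h e f α' β' γ' δ' v) =
      plm h e f (α * α' + β * γ') (α * β' + β * δ') (γ * α' + δ * γ') (γ * β' + δ * δ') v := by
  rw [plm_apply h e f α β γ δ, plm_h_f H, plm_h_e H, plm_apply, plm_apply]
  module

lemma plm_one (v : V) : plm h e f 1 0 0 1 v = v := by
  rw [plm_apply]
  simp

lemma plm_iso (H : HP h e f) {α β γ δ : E} (h1 : α * U.σ γ = γ * U.σ α)
    (h2 : β * U.σ δ = δ * U.σ β) (h3 : α * U.σ δ - γ * U.σ β = 1) (v w : V) :
    h.h (plm h e f α β γ δ v) (plm h e f α β γ δ w) = h.h v w := by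
  have h4 : δ * U.σ α - β * U.σ γ = 1 := by
    have := congrArg U.σ h3
    rw [map_sub, map_mul, map_mul, U.σσ, U.σσ, map_one] at this
    linear_combination this
  have ew : h.h e w = - U.σ (h.h w e) := h.skew w e
  have fw : h.h f w = - U.σ (h.h w f) := h.skew w f
  rw [plm_apply h e f α β γ δ w, h_add_r, h_add_r, h_smul_r, h_smul_r, plm_h_e H, plm_h_f H,
    plm_apply, h.add, h.add, h.smul, h.smul, ew, fw]
  simp only [map_sub, map_mul, map_one]
  linear_combination (h.h v f * U.σ (h.h w f)) * h1 +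
    (h.h v e * U.σ (h.h w e)) * h2 - (h.h v f * U.σ (h.h w e)) * h3 +
    (h.h v e * U.σ (h.h w f)) * h4

/-- isometries of the plane as elements of the isometry group -/
lemma exists_pl (H : HP h e f) {α β γ δ α' β' γ' δ' : E} (h1 : α * U.σ γ = γ * U.σ α)
    (h2 : β * U.σ δ = δ * U.σ β) (h3 : α * U.σ δ - γ * U.σ β = 1)
    (i1 : α * α' + β * γ' = 1) (i2 : α * β' + β * δ' = 0) (i3 : γ * α' + δ * γ' = 0)
    (i4 : γ * β' + δ * δ' = 1) (j1 : α' * α + β' * γ = 1) (j2 : α' * β + β' * δ = 0)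
    (j3 : γ' * α + δ' * γ = 0) (j4 : γ' * β + δ' * δ = 1) :
    ∃ g : ↥(Iso U h), (∀ v, (g : V ≃ₗ[E] V) v = plm h e f α β γ δ v) ∧
      (∀ v, ((g⁻¹ : ↥(Iso U h)) : V ≃ₗ[E] V) v = plm h e f α' β' γ' δ' v) := by
  let T : V ≃ₗ[E] V := LinearEquiv.ofLinearMap (plm h e f α β γ δ) (plm h e f α' β' γ' δ')
    (by
      ext v
      rw [LinearMap.comp_apply, plm_comp H, i1, i2, i3, i4, plm_one, LinearMap.id_apply])
    (by
      ext v
      rw [LinearMap.comp_apply, plm_comp H, j1, j2, j3, j4, plm_one, LinearMap.id_apply])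
  have hT : ∀ v, T v = plm h e f α β γ δ v := fun v => rfl
  refine ⟨⟨T, ?_⟩, fun v => rfl, ?_⟩
  · intro v w
    rw [hT, hT]
    exact plm_iso H h1 h2 h3 v w
  · intro v
    have : ((⟨T, by
      intro v w
      rw [hT, hT]
      exact plm_iso H h1 h2 h3 v w⟩ : ↥(Iso U h))⁻¹ : ↥(Iso U h)) = ⟨T⁻¹, by
      intro v w
      have e1 : ∀ z, T (T⁻¹ z) = z := fun z => T.apply_symm_apply z
      have := plm_iso H h1 h2 h3 (T⁻¹ v) (T⁻¹ w)
      rw [← hT, ← hT, e1, e1] at this
      exact this.symm⟩ := rfl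
    rw [this]
    rfl

/-- equality of isometries -/
lemma iso_ext {g g' : ↥(Iso U h)} (hg : ∀ v, (g : V ≃ₗ[E] V) v = (g' : V ≃ₗ[E] V) v) :
    g = g' := by
  apply Subtype.ext
  apply LinearEquiv.ext
  exact hg

lemma iso_mul (g g' : ↥(Iso U h)) (v : V) :
    ((g * g' : ↥(Iso U h)) : V ≃ₗ[E] V) v = (g : V ≃ₗ[E] V) ((g' : V ≃ₗ[E] V) v) := rfl

/-- two isometries which agree on the plane and on its orthogonal -/
lemma iso_ext_plane (H : HP h e f) {g g' : V →ₗ[E] V} (he : g e = g' e) (hf : g f = g' f)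
    (hv : ∀ v, h.h v e = 0 → h.h v f = 0 → g v = g' v) : g = g' := by
  ext v
  have h0 := hv (v - h.h v f • e + h.h v e • f) (by
    rw [h.add, h_sub_l, h.smul, h.smul, H.1, H.fe]; ring) (by
    rw [h.add, h_sub_l, h.smul, h.smul, H.2.1, H.2.2]; ring)
  rw [map_add, map_add, map_sub, map_sub, map_smul, map_smul, map_smul, map_smul, he, hf] at h0
  have := sub_eq_zero.2 h0
  rw [← sub_eq_zero]
  rw [← this]; abel

section lattice

variable {k : ℕ} {M : AddSubgroup V} {S : Type} [NormedAddCommGroup S]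
  [InnerProductSpace ℂ S] [CompleteSpace S]

lemma plm_mem (hB : SpecBox) (hS : SpecSdl) (W : WD U h k M S) (he : e ∈ M) (hf : f ∈ M)
    {α β γ δ : E} (ha : ‖α‖ ≤ 1) (hb : ‖β‖ ≤ 1) (hc : ‖γ‖ ≤ 1) (hd : ‖δ‖ ≤ 1) {v : V}
    (hv : v ∈ M) : plm h e f α β γ δ v ∈ M := by
  have hsub : ∀ x y : E, ‖x‖ ≤ 1 → ‖y‖ ≤ 1 → ‖x - y‖ ≤ 1 := by
    intro x y hx hy
    rw [sub_eq_add_neg]
    exact (U.ultra _ _).trans (max_le hx (by rwa [norm_neg]))
  have hmul : ∀ x y : E, ‖x‖ ≤ 1 → ‖y‖ ≤ 1 → ‖x * y‖ ≤ 1 := by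
    intro x y hx hy
    rw [norm_mul]
    exact mul_le_one₀ hx (norm_nonneg _) hy
  have h1 := h_int hS W hv he
  have h2 := h_int hS W hv hf
  have h3 : ‖(1 : E)‖ ≤ 1 := by rw [norm_one]
  rw [plm_apply]
  refine M.add_mem (M.add_mem hv (smul_mem hB W ?_ he)) (smul_mem hB W ?_ hf)
  · exact hsub _ _ (hmul _ _ (hsub _ _ ha h3) h2) (hmul _ _ hb h1)
  · exact hsub _ _ (hmul _ _ hc h2) (hmul _ _ (hsub _ _ hd h3) h1)

/-- the isometries which preserve the lattice -/
def InK (M : AddSubgroup V) (g : ↥(Iso U h)) : Prop := ∀ v, v ∈ M ↔ (g : V ≃ₗ[E] V) v ∈ M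

lemma InK_of {g : ↥(Iso U h)} (h1 : ∀ v ∈ M, (g : V ≃ₗ[E] V) v ∈ M)
    (h2 : ∀ v ∈ M, ((g⁻¹ : ↥(Iso U h)) : V ≃ₗ[E] V) v ∈ M) : InK M g := by
  intro v
  refine ⟨h1 v, fun hv => ?_⟩
  have := h2 _ hv
  rwa [← iso_mul, inv_mul_cancel] at this

lemma InK.mul {g g' : ↥(Iso U h)} (hg : InK M g) (hg' : InK M g') : InK M (g * g') := by
  intro v
  rw [iso_mul, ← hg, ← hg']

lemma InK.inv {g : ↥(Iso U h)} (hg : InK M g) : InK M g⁻¹ := by
  intro v
  have := hg (((g⁻¹ : ↥(Iso U h)) : V ≃ₗ[E] V) v)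
  rw [← iso_mul, mul_inv_cancel] at this
  exact this.symm

/-- transvections -/
lemma exists_tv (H : HP h e f) {b : E} (hb : U.σ b = b) :
    ∃ g : ↥(Iso U h), (∀ v, (g : V ≃ₗ[E] V) v = plm h e f 1 (-b) 0 1 v) ∧
      (∀ v, ((g⁻¹ : ↥(Iso U h)) : V ≃ₗ[E] V) v = plm h e f 1 b 0 1 v) := by
  apply exists_pl H <;> simp [hb]

lemma tv_apply (b : E) (v : V) : plm h e f 1 (-b) 0 1 v = v + (b * h.h v e) • e := by
  rw [plm_apply]
  simp

/-- lower transvections -/
lemma exists_tl (H : HP h e f) {b : E} (hb : U.σ b = b) :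
    ∃ g : ↥(Iso U h), (∀ v, (g : V ≃ₗ[E] V) v = plm h e f 1 0 b 1 v) ∧
      (∀ v, ((g⁻¹ : ↥(Iso U h)) : V ≃ₗ[E] V) v = plm h e f 1 0 (-b) 1 v) := by
  apply exists_pl H <;> simp [hb]

/-- the Weyl element -/
lemma exists_wl (H : HP h e f) :
    ∃ g : ↥(Iso U h), (∀ v, (g : V ≃ₗ[E] V) v = plm h e f 0 (-1) 1 0 v) ∧
      (∀ v, ((g⁻¹ : ↥(Iso U h)) : V ≃ₗ[E] V) v = plm h e f 0 1 (-1) 0 v) := by
  apply exists_pl H <;> simp

/-- torus elements -/
lemma exists_to (H : HP h e f) {s : E} (hs : s ≠ 0) :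
    ∃ g : ↥(Iso U h), (∀ v, (g : V ≃ₗ[E] V) v = plm h e f s 0 0 (U.σ s)⁻¹ v) ∧
      (∀ v, ((g⁻¹ : ↥(Iso U h)) : V ≃ₗ[E] V) v = plm h e f s⁻¹ 0 0 (U.σ s) v) := by
  have hs' : U.σ s ≠ 0 := by simpa using hs
  apply exists_pl H <;> simp [hs, hs', U.σσ]

end lattice

end Weil

end MPtg
end

section
/-!
# MP_3d2757_nt : module WB, `K`-fixed vectors are fixed by the lattice
-/
set_option autoImplicit false

open Finset

namespace MPtg

namespace Weil

variable {E : Type} [NormedField E] {U : Unr E} {V : Type} [AddCommGroup V] [Module E V]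
  {h : SkF U V} {k : ℕ} {M : AddSubgroup V} {S : Type} [NormedAddCommGroup S]
  [InnerProductSpace ℂ S] [CompleteSpace S]

/-- scalar of an isometry preserving the lattice on the fixed vector -/
lemma omega_eq (hB : SpecBox) (hS : SpecSdl) (W : WD U h k M S) {φ : S} (hφ : ‖φ‖ = 1)
    (hφM : ∀ m ∈ M, W.ρ m φ = φ) {g : ↥(Iso U h)} (hg : InK M g) :
    W.ω g φ = inner ℂ φ (W.ω g φ) • φ := by
  apply fixed_unique hB hS W hφ hφM
  intro m hm
  have h1 : ((g⁻¹ : ↥(Iso U h)) : V ≃ₗ[E] V) m ∈ M := (hg.inv m).1 hm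
  have h2 : (g : V ≃ₗ[E] V) (((g⁻¹ : ↥(Iso U h)) : V ≃ₗ[E] V) m) = m := by
    rw [← iso_mul, mul_inv_cancel]; rfl
  have := omega_fixed W hφM g h1
  rwa [h2] at this

lemma two_half (U : Unr E) (b : E) : b = b / 2 + b / 2 := by
  have := two_ne U
  field_simp; ring

lemma norm_half (U : Unr E) (b : E) : ‖b / 2‖ = ‖b‖ := by
  rw [norm_div, U.two, div_one]

/-- transvections act trivially on the fixed vector -/
lemma tv_trivial (hB : SpecBox) (hS : SpecSdl) (W : WD U h k M S) {φ : S} (hφ : ‖φ‖ = 1)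
    (hφM : ∀ m ∈ M, W.ρ m φ = φ) {e f : V} (H : HP h e f) (he : e ∈ M) (hf : f ∈ M) {b : E}
    (hb : U.σ b = b) (hb1 : ‖b‖ ≤ 1) (g : ↥(Iso U h))
    (hg : ∀ v, (g : V ≃ₗ[E] V) v = plm h e f 1 (-b) 0 1 v) : W.ω g φ = φ := by
  have hb2 : U.σ (b / 2) = b / 2 := by rw [map_div₀, hb, map_ofNat]
  have hn : ‖b / 2‖ ≤ 1 := by rw [norm_half U]; exact hb1
  obtain ⟨n, hn1, hn2⟩ := exists_tv H hb2
  obtain ⟨s, hs1, hs2⟩ := U.nrm (-1) (by rw [map_neg, map_one]) (by rw [norm_neg, norm_one])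
  have hs0 : s ≠ 0 := by
    rintro rfl
    rw [norm_zero] at hs1
    exact zero_ne_one hs1
  have hσs0 : U.σ s ≠ 0 := by simpa using hs0
  obtain ⟨a, ha1, ha2⟩ := exists_to H hs0
  have i1 : ‖(1 : E)‖ ≤ 1 := by rw [norm_one]
  have i0 : ‖(0 : E)‖ ≤ 1 := by rw [norm_zero]; exact zero_le_one
  have hnK : InK M n := InK_of
    (fun v hv => by rw [hn1]; exact plm_mem hB hS W he hf i1 (by rwa [norm_neg]) i0 i1 hv)
    (fun v hv => by rw [hn2]; exact plm_mem hB hS W he hf i1 hn i0 i1 hv)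
  have haK : InK M a := InK_of
    (fun v hv => by
      rw [ha1]
      exact plm_mem hB hS W he hf hs1.le i0 i0 (by rw [norm_inv, U.σn, hs1, inv_one]) hv)
    (fun v hv => by
      rw [ha2]
      exact plm_mem hB hS W he hf (by rw [norm_inv, hs1, inv_one]) i0 i0
        (by rw [U.σn, hs1]) hv)
  -- `n⁻¹ a = a n`
  have hconj : n⁻¹ * a = a * n := by
    apply iso_ext
    intro v
    rw [iso_mul, iso_mul, hn2, ha1, ha1, hn1, plm_comp H, plm_comp H]
    have e1 : b / 2 * (U.σ s)⁻¹ = s * -(b / 2) := by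
      rw [← div_eq_mul_inv, div_eq_iff hσs0]
      linear_combination (-(b / 2)) * hs2
    simp only [one_mul, mul_zero, add_zero, mul_one, zero_mul, zero_add]
    rw [e1]
  have hg2 : g = n * n := by
    apply iso_ext
    intro v
    rw [iso_mul, hg, hn1, hn1, plm_comp H]
    have e2 : -b = 1 * -(b / 2) + -(b / 2) * 1 := by
      have := two_half U b
      linear_combination -this
    rw [← e2]
    simp
  set χn := inner ℂ φ (W.ω n φ) with hχn
  set χa := inner ℂ φ (W.ω a φ) with hχa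
  set χi := inner ℂ φ (W.ω n⁻¹ φ) with hχi
  have en : W.ω n φ = χn • φ := omega_eq hB hS W hφ hφM hnK
  have ea : W.ω a φ = χa • φ := omega_eq hB hS W hφ hφM haK
  have ei : W.ω n⁻¹ φ = χi • φ := omega_eq hB hS W hφ hφM hnK.inv
  have hφ0 : φ ≠ 0 := by
    rintro rfl
    rw [norm_zero] at hφ
    exact zero_ne_one hφ
  have mulω : ∀ g g' : ↥(Iso U h), W.ω (g * g') φ = W.ω g (W.ω g' φ) := by
    intro g g'
    rw [map_mul]; rfl
  have r1 : χi * χa = χa * χn := by
    have h1 : W.ω (n⁻¹ * a) φ = (χa * χi) • φ := by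
      rw [mulω, ea, map_smul, ei, smul_smul]
    have h2 : W.ω (a * n) φ = (χn * χa) • φ := by
      rw [mulω, en, map_smul, ea, smul_smul]
    rw [hconj, h2] at h1
    have h3 : χn * χa = χa * χi := smul_left_injective ℂ hφ0 h1
    linear_combination -h3
  have hχa0 : χa ≠ 0 := by
    intro h0
    rw [h0, zero_smul] at ea
    have := (W.ω a).norm_map φ
    rw [ea, norm_zero, hφ] at this
    exact zero_ne_one this
  have r2 : χi = χn := by
    apply mul_right_cancel₀ hχa0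
    rw [r1]; ring
  have r3 : χi * χn = 1 := by
    have h1 : W.ω (n * n⁻¹) φ = (χi * χn) • φ := by
      rw [mulω, ei, map_smul, en, smul_smul]
    rw [mul_inv_cancel, map_one] at h1
    have h2 : (1 : ℂ) • φ = (χi * χn) • φ := by rw [one_smul, ← h1]; rfl
    exact (smul_left_injective ℂ hφ0 h2).symm
  rw [hg2, mulω, en, map_smul, en, smul_smul]
  rw [r2] at r3
  rw [r3, one_smul]

/-- isotropic vectors which detect that a vector is not in the lattice -/
lemma exists_pair (hB : SpecBox) (hS : SpecSdl) (hH : SpecHpair) (W : WD U h k M S)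
    (hk : 2 ≤ k) {w : V} (hw : w ∉ M) :
    ∃ e ∈ M, ∃ f ∈ M, HP h e f ∧ 1 < ‖h.h w e‖ := by
  obtain ⟨e₀, he₀, f₀, hf₀, h1, h2, h3⟩ := (hH E U V h k M W.sd).1 hk
  have H : HP h e₀ f₀ := ⟨h1, h2, h3⟩
  by_cases c1 : 1 < ‖h.h w e₀‖
  · exact ⟨e₀, he₀, f₀, hf₀, H, c1⟩
  by_cases c2 : 1 < ‖h.h w f₀‖
  · refine ⟨f₀, hf₀, -e₀, M.neg_mem he₀, ⟨h2, ?_, ?_⟩, c2⟩
    · rw [h_neg_l, h_neg_r, h1, neg_zero, neg_zero]
    · rw [h_neg_r, H.fe, neg_neg]
  push Not at c1 c2
  obtain ⟨m, hm, hwm⟩ := exists_big hS W hw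
  have hme := h_int hS W hm he₀
  have hmf := h_int hS W hm hf₀
  set m' : V := m - h.h m f₀ • e₀ + h.h m e₀ • f₀ with hm'
  have hm'M : m' ∈ M := M.add_mem (M.sub_mem hm (smul_mem hB W hmf he₀)) (smul_mem hB W hme hf₀)
  have o1 : h.h m' e₀ = 0 := by
    rw [hm', h.add, h_sub_l, h.smul, h.smul, H.1, H.fe]; ring
  have o2 : h.h m' f₀ = 0 := by
    rw [hm', h.add, h_sub_l, h.smul, h.smul, H.2.1, H.2.2]; ring
  have o1' : h.h e₀ m' = 0 := by rw [h.skew m' e₀, o1, map_zero, neg_zero]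
  have o2' : h.h f₀ m' = 0 := by rw [h.skew m' f₀, o2, map_zero, neg_zero]
  set x : E := h.h m' m' / 2 with hx
  have hxn : ‖x‖ ≤ 1 := by rw [hx, norm_half U]; exact h_int hS W hm'M hm'M
  have hxσ : U.σ x = -x := by
    rw [hx, map_div₀, h_self, map_ofNat]; ring
  have hx2 : h.h m' m' = x + x := two_half U _
  set e : V := e₀ + m' + x • f₀ with he
  have heM : e ∈ M := M.add_mem (M.add_mem he₀ hm'M) (smul_mem hB W hxn hf₀)
  refine ⟨e, heM, f₀, hf₀, ⟨?_, H.2.1, ?_⟩, ?_⟩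
  · rw [he]
    simp only [h.add, h_add_r, h.smul, h_smul_r, H.1, H.2.1, H.2.2, H.fe, o1, o2, o1', o2', hxσ,
      hx2]
    ring
  · rw [he, h.add, h.add, h.smul, H.2.2, o2, H.2.1]; ring
  · -- ultrametric estimate
    have hwe : h.h w e = h.h w m + (h.h w e₀ - U.σ (h.h m f₀) * h.h w e₀ +
        U.σ (h.h m e₀) * h.h w f₀ + U.σ x * h.h w f₀) := by
      rw [he, hm']
      simp only [h_add_r, h_sub_r, h_smul_r]
      ring
    set r : E := h.h w e₀ - U.σ (h.h m f₀) * h.h w e₀ +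
        U.σ (h.h m e₀) * h.h w f₀ + U.σ x * h.h w f₀ with hr
    have hmul : ∀ x y : E, ‖x‖ ≤ 1 → ‖y‖ ≤ 1 → ‖x * y‖ ≤ 1 := by
      intro x y hx hy
      rw [norm_mul]
      exact mul_le_one₀ hx (norm_nonneg _) hy
    have hrn : ‖r‖ ≤ 1 := by
      rw [hr]
      refine (U.ultra _ _).trans (max_le ((U.ultra _ _).trans (max_le ?_ ?_)) ?_)
      · rw [sub_eq_add_neg]
        refine (U.ultra _ _).trans (max_le c1 ?_)
        rw [norm_neg]
        exact hmul _ _ (by rw [U.σn]; exact hmf) c1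
      · exact hmul _ _ (by rw [U.σn]; exact hme) c2
      · exact hmul _ _ (by rw [U.σn]; exact hxn) c2
    by_contra hcon
    push Not at hcon
    have : h.h w m = h.h w e + -r := by rw [hwe]; ring
    have h5 : ‖h.h w m‖ ≤ 1 := by
      rw [this]
      exact (U.ultra _ _).trans (max_le hcon (by rwa [norm_neg]))
    linarith

end Weil

open Weil in
theorem specWB (hB : SpecBox) (hS : SpecSdl) (hH : SpecHpair) : SpecWB := by
  intro E _ U V _ _ h k M S _ _ _ W hk φ hφK m hm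
  rcases subsingleton_or_nontrivial S with hsub | hnt
  · exact Subsingleton.elim _ _
  obtain ⟨φ₀, hn₀, hM₀, -, -⟩ := specWA hB hS E U V h k M S W hnt
  have hφ₀0 : φ₀ ≠ 0 := by
    rintro rfl
    rw [norm_zero] at hn₀
    exact zero_ne_one hn₀
  have key : ∀ w, w ∉ M → inner ℂ φ (W.ρ w φ₀) = 0 := by
    intro w hw
    obtain ⟨e, he, f, hf, H, hbig⟩ := exists_pair hB hS hH W hk hw
    obtain ⟨x₀, hx1, hx2, hx3⟩ := W.Ψnt
    set c := h.h w e with hc
    have hc0 : c ≠ 0 := by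
      intro h0
      rw [h0, norm_zero] at hbig; linarith
    have hcσ : U.σ c ≠ 0 := by simpa using hc0
    have hcn := norm_gt U hbig
    have hx4 : ‖x₀‖ ≤ ‖c‖ := hx2.trans hcn
    set b : E := x₀ / (c * U.σ c) with hb
    have hbσ : U.σ b = b := by
      rw [hb, map_div₀, map_mul, U.σσ, hx1, mul_comm (U.σ c) c]
    have hbc : ‖b * c‖ ≤ 1 := by
      have : b * c = x₀ / U.σ c := by rw [hb]; field_simp
      rw [this, norm_div, U.σn, div_le_one (lt_trans one_pos hbig)]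
      exact hx4
    have hb1 : ‖b‖ ≤ 1 := by
      rw [norm_mul] at hbc
      have h0 := norm_nonneg b
      nlinarith
    obtain ⟨g, hg1, hg2⟩ := exists_tv H hbσ
    have i1 : ‖(1 : E)‖ ≤ 1 := by rw [norm_one]
    have i0 : ‖(0 : E)‖ ≤ 1 := by rw [norm_zero]; exact zero_le_one
    have hgK : InK M g := InK_of
      (fun v hv => by rw [hg1]; exact plm_mem hB hS W he hf i1 (by rwa [norm_neg]) i0 i1 hv)
      (fun v hv => by rw [hg2]; exact plm_mem hB hS W he hf i1 hb1 i0 i1 hv)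
    have hω : W.ω g φ₀ = φ₀ := tv_trivial hB hS W hn₀ hM₀ H he hf hbσ hb1 g hg1
    have hgw : (g : V ≃ₗ[E] V) w = w + (b * c) • e := by rw [hg1, tv_apply]
    have hI : inner ℂ φ (W.ρ w φ₀) = (W.Ψ (-x₀) : ℂ) * inner ℂ φ (W.ρ w φ₀) := by
      conv_lhs => rw [← inner_omega W g, hφK g hgK, W.comp, hω, hgw, rho_add,
        hM₀ _ (smul_mem hB W hbc he), inner_smul_right]
      congr 3
      rw [h_smul_r, map_mul, hbσ, ← hc, hb]
      field_simp
    have h3 : ((W.Ψ (-x₀) : ℂ) - 1) * inner ℂ φ (W.ρ w φ₀) = 0 := by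
      rw [sub_mul, ← hI]; ring
    rcases mul_eq_zero.1 h3 with h4 | h4
    · exfalso
      apply hx3
      have h5 : W.Ψ (-x₀) = 1 := by
        apply Circle.ext
        rw [Circle.coe_one]
        exact sub_eq_zero.1 h4
      rw [psi_neg, inv_eq_one] at h5
      exact h5
    · exact h4
  have hz : φ - inner ℂ φ₀ φ • φ₀ = 0 := by
    apply eq_zero_of_orth W hφ₀0
    intro y
    rw [inner_sub_right, inner_smul_right]
    by_cases hy : y ∈ M
    · rw [hM₀ y hy, inner_self_eq_norm_sq_to_K, hn₀]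
      simp
    · rw [← inner_conj_symm, key y hy, ← inner_conj_symm (W.ρ y φ₀) φ₀,
        orth hB hS W hM₀ hM₀ hy]
      simp
  rw [sub_eq_zero] at hz
  rw [hz, map_smul, hM₀ m hm]

end MPtg
end

section
/-!
# MP_3d2757_nt : module WC, the rank one matrix coefficient
-/
set_option autoImplicit false

open Finset

namespace MPtg

namespace Weil

variable {E : Type} [NormedField E] {U : Unr E} {V : Type} [AddCommGroup V] [Module E V]
  {h : SkF U V} {k : ℕ} {M : AddSubgroup V} {S : Type} [NormedAddCommGroup S]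
  [InnerProductSpace ℂ S] [CompleteSpace S]

/-- the ring of integers -/
def OO (U : Unr E) : AddSubgroup E where
  carrier := {x | ‖x‖ ≤ 1}
  add_mem' := fun {a b} ha hb => (U.ultra a b).trans (max_le ha hb)
  zero_mem' := by simp
  neg_mem' := fun {a} ha => by simpa using ha

/-- the maximal ideal -/
def PP (U : Unr E) : AddSubgroup E where
  carrier := {x | ‖x‖ < 1}
  add_mem' := fun {a b} ha hb => (U.ultra a b).trans_lt (max_lt ha hb)
  zero_mem' := by simp
  neg_mem' := fun {a} ha => by simpa using ha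

/-- the fixed integers -/
def OF (U : Unr E) : AddSubgroup E where
  carrier := {x | U.σ x = x ∧ ‖x‖ ≤ 1}
  add_mem' := fun {a b} ha hb => ⟨by rw [map_add, ha.1, hb.1],
    (U.ultra a b).trans (max_le ha.2 hb.2)⟩
  zero_mem' := by simp
  neg_mem' := fun {a} ha => ⟨by rw [map_neg, ha.1], by simpa using ha.2⟩

lemma rep_isRep (U : Unr E) : Rep (OO U) (PP U) U.rep :=
  ⟨U.rep_int, fun g hg => U.rep_ex g hg⟩

lemma rep0_isRep (U : Unr E) : Rep (OF U) (PP U) U.rep0 :=
  ⟨U.rep0_int, fun g hg => U.rep0_ex g hg.1 hg.2⟩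

lemma rep_unit (U : Unr E) {x : E} (hx : x ∈ U.rep) (hx0 : x ≠ 0) : ‖x‖ = 1 := by
  refine le_antisymm (U.rep_int x hx) ?_
  by_contra hcon
  push Not at hcon
  apply hx0
  refine (U.rep_ex x (U.rep_int x hx)).unique ⟨hx, ?_⟩ ⟨U.rep_zero, ?_⟩
  · rw [sub_self, norm_zero]; exact one_pos
  · rwa [sub_zero]

lemma rep0_unit (U : Unr E) {x : E} (hx : x ∈ U.rep0) (hx0 : x ≠ 0) : ‖x‖ = 1 := by
  have hi := U.rep0_int x hx
  refine le_antisymm hi.2 ?_
  by_contra hcon
  push Not at hcon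
  apply hx0
  refine (U.rep0_ex x hi.1 hi.2).unique ⟨hx, ?_⟩ ⟨U.rep0_zero, ?_⟩
  · rw [sub_self, norm_zero]; exact one_pos
  · rwa [sub_zero]

/-- a character which is trivial on the ideal and not trivial sums to zero -/
lemma char_sum {G H : AddSubgroup E} {R : Finset E} (hR : Rep G H R) (χ : AddChar E Circle)
    (hχ : ∀ y ∈ H, χ y = 1) {z₀ : E} (hz₀ : z₀ ∈ G) (hne : χ z₀ ≠ 1) :
    ∑ z ∈ R, (χ z : ℂ) = 0 := by
  have h1 := hR.shift (fun z => (χ z : ℂ)) (by
    intro g _ y hy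
    show (χ (g + y) : ℂ) = (χ g : ℂ)
    rw [AddChar.map_add_eq_mul, hχ y hy, mul_one]) hz₀
  have h2 : ∑ z ∈ R, (χ (z + z₀) : ℂ) = (χ z₀ : ℂ) * ∑ z ∈ R, (χ z : ℂ) := by
    rw [mul_sum]
    refine sum_congr rfl fun z _ => ?_
    rw [AddChar.map_add_eq_mul, Circle.coe_mul, mul_comm]
  have h1' : ∑ z ∈ R, (χ (z + z₀) : ℂ) = ∑ z ∈ R, (χ z : ℂ) := h1
  rw [h2] at h1'
  have h3 : ((χ z₀ : ℂ) - 1) * ∑ z ∈ R, (χ z : ℂ) = 0 := by
    rw [sub_mul, h1']; ring
  rcases mul_eq_zero.1 h3 with h4 | h4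
  · exfalso
    apply hne
    apply Circle.ext
    rw [Circle.coe_one]
    exact sub_eq_zero.1 h4
  · exact h4

/-- the character `z ↦ Ψ (c z)` -/
noncomputable def chm (Ψ : AddChar E Circle) (c : E) : AddChar E Circle where
  toFun z := Ψ (c * z)
  map_zero_eq_one' := by rw [mul_zero, AddChar.map_zero_eq_one]
  map_add_eq_mul' := by
    intro a b
    rw [mul_add, AddChar.map_add_eq_mul]

lemma chm_apply (Ψ : AddChar E Circle) (c z : E) : chm Ψ c z = Ψ (c * z) := rfl

lemma norm_ideal (U : Unr E) {y : E} (hy : ‖y‖ < 1) : ‖U.ϖ⁻¹ * y‖ ≤ 1 := by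
  rw [norm_mul, norm_inv, inv_mul_le_iff₀ U.ϖpos, mul_one]
  exact norm_lt U hy

/-- the quadratic exponential sum -/
lemma norm_sum (hN : SpecNrm) (W : WD U h k M S) :
    ∑ z ∈ U.rep, (W.Ψ (-(U.ϖ⁻¹ * (z * U.σ z))) : ℂ) = - (U.q : ℂ) := by
  classical
  obtain ⟨x₀, hx1, hx2, hx3⟩ := W.Ψnt
  have hp := pi_ne U
  set F : E → ℂ := fun y => (W.Ψ (-(U.ϖ⁻¹ * y)) : ℂ) with hF
  have hFc : ∀ y s : E, ‖y - s‖ < 1 → F y = F s := by
    intro y s hys
    show (W.Ψ (-(U.ϖ⁻¹ * y)) : ℂ) = (W.Ψ (-(U.ϖ⁻¹ * s)) : ℂ)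
    have e1 : -(U.ϖ⁻¹ * y) = -(U.ϖ⁻¹ * s) + -(U.ϖ⁻¹ * (y - s)) := by ring
    rw [e1, psi_add, W.Ψint (-(U.ϖ⁻¹ * (y - s))) (by
      rw [norm_neg]; exact norm_ideal U hys), mul_one]
  have hmul : ∀ x y : E, ‖x‖ ≤ 1 → ‖y‖ ≤ 1 → ‖x * y‖ ≤ 1 := by
    intro x y hx hy
    rw [norm_mul]
    exact mul_le_one₀ hx (norm_nonneg _) hy
  have h1 : ∀ z ∈ U.rep, F (z * U.σ z) =
      ∑ s ∈ U.rep0, if ‖z * U.σ z - s‖ < 1 then F s else 0 := by
    intro z hz
    have hzi := U.rep_int z hz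
    have hfix : U.σ (z * U.σ z) = z * U.σ z := by rw [map_mul, U.σσ, mul_comm]
    obtain ⟨s₀, ⟨hs1, hs2⟩, hs3⟩ := U.rep0_ex (z * U.σ z) hfix
      (hmul _ _ hzi (by rw [U.σn]; exact hzi))
    rw [sum_eq_single_of_mem s₀ hs1]
    · rw [if_pos hs2]
      exact hFc _ _ hs2
    · intro s hs hne
      rw [if_neg]
      intro hcon
      exact hne (hs3 s ⟨hs, hcon⟩)
  have h2 : ∑ z ∈ U.rep, F (z * U.σ z) =
      ∑ s ∈ U.rep0, ((U.rep.filter (fun r => ‖r * U.σ r - s‖ < 1)).card : ℂ) * F s := by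
    rw [sum_congr rfl h1, sum_comm]
    refine sum_congr rfl fun s _ => ?_
    rw [← sum_filter, sum_const, nsmul_eq_mul]
  have h0 : (U.rep.filter (fun r => ‖r * U.σ r - 0‖ < 1)).card = 1 := by
    rw [card_eq_one]
    refine ⟨0, ?_⟩
    ext r
    rw [mem_filter, mem_singleton, sub_zero]
    constructor
    · rintro ⟨hr, hr2⟩
      by_contra hne
      have := rep_unit U hr hne
      rw [norm_mul, U.σn, this, mul_one] at hr2
      exact lt_irrefl _ hr2
    · rintro rfl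
      refine ⟨U.rep_zero, ?_⟩
      rw [zero_mul, norm_zero]; exact one_pos
  have h3 : ∀ s ∈ U.rep0.erase 0,
      ((U.rep.filter (fun r => ‖r * U.σ r - s‖ < 1)).card : ℂ) * F s = ((U.q : ℂ) + 1) * F s := by
    intro s hs
    rw [mem_erase] at hs
    have hs1 := rep0_unit U hs.2 hs.1
    rw [hN E U s (U.rep0_int s hs.2).1 hs1]
    push_cast
    ring
  have h4 : ∑ s ∈ U.rep0, F s = 0 := by
    have h5 := char_sum (rep0_isRep U) (chm W.Ψ (-U.ϖ⁻¹)) (by
      intro y hy
      rw [chm_apply]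
      apply W.Ψint
      rw [neg_mul, norm_neg]
      exact norm_ideal U hy) (z₀ := -(U.ϖ * x₀)) (by
      refine ⟨?_, ?_⟩
      · rw [map_neg, map_mul, U.σϖ, hx1]
      · rw [norm_neg, norm_mul]
        calc ‖U.ϖ‖ * ‖x₀‖ ≤ ‖U.ϖ‖ * ‖U.ϖ‖⁻¹ :=
            mul_le_mul_of_nonneg_left hx2 U.ϖpos.le
          _ = 1 := mul_inv_cancel₀ U.ϖpos.ne') (by
      rw [chm_apply]
      have : -U.ϖ⁻¹ * -(U.ϖ * x₀) = x₀ := by
        rw [neg_mul_neg, ← mul_assoc, inv_mul_cancel₀ hp, one_mul]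
      rw [this]
      exact hx3)
    rw [← h5]
    refine sum_congr rfl fun s _ => ?_
    rw [chm_apply, hF]
    simp only [neg_mul]
  have hF0 : F 0 = 1 := by
    rw [hF]
    simp [psi_zero]
  have h5 : ∑ s ∈ U.rep0.erase 0, F s = -1 := by
    have := sum_erase_add U.rep0 F U.rep0_zero
    rw [h4, hF0] at this
    linear_combination this
  have h6 := sum_erase_add U.rep0
    (fun s => ((U.rep.filter (fun r => ‖r * U.σ r - s‖ < 1)).card : ℂ) * F s) U.rep0_zero
  have h7 : ∑ z ∈ U.rep, F (z * U.σ z) = - (U.q : ℂ) := by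
    rw [h2, ← h6, sum_congr rfl h3, ← mul_sum, h5, h0, hF0]
    push_cast
    ring
  exact h7

end Weil

open Weil in
theorem specWC (hB : SpecBox) (hS : SpecSdl) (hN : SpecNrm) : SpecWC := by
  classical
  intro E _ U V _ _ h k M S _ _ _ W e he f hf hee hff hef φ hφn hφM hφK a hae haf hav
  have H : HP h e f := ⟨hee, hff, hef⟩
  have hp := pi_ne U
  have hσi : U.σ U.ϖ⁻¹ = U.ϖ⁻¹ := by rw [map_inv₀, U.σϖ]
  have i1 : ‖(1 : E)‖ ≤ 1 := by rw [norm_one]
  have i0 : ‖(0 : E)‖ ≤ 1 := by rw [norm_zero]; exact zero_le_one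
  have ip : ‖U.ϖ‖ ≤ 1 := U.ϖlt.le
  have ha : ∀ v, (a : V ≃ₗ[E] V) v = plm h e f U.ϖ⁻¹ 0 0 U.ϖ v := by
    have h1 : ((a : V ≃ₗ[E] V) : V →ₗ[E] V) = plm h e f U.ϖ⁻¹ 0 0 U.ϖ := by
      apply iso_ext_plane H
      · show (a : V ≃ₗ[E] V) e = _
        rw [hae, plm_apply, H.1, H.2.2]
        module
      · show (a : V ≃ₗ[E] V) f = _
        rw [haf, plm_apply, H.2.1, H.fe]
        module
      · intro v hv1 hv2
        show (a : V ≃ₗ[E] V) v = _
        rw [hav v hv1 hv2, plm_apply, hv1, hv2]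
        module
    intro v
    rw [← h1]; rfl
  obtain ⟨n, hn1, -⟩ := exists_tv H hσi
  obtain ⟨n', hn'1, hn'2⟩ := exists_tv H U.σϖ
  obtain ⟨L, hL1, hL2⟩ := exists_tl H U.σϖ
  obtain ⟨w, hw1, hw2⟩ := exists_wl H
  have hn'K : W.ω n' φ = φ := hφK n' (InK_of
    (fun v hv => by rw [hn'1]; exact plm_mem hB hS W he hf i1 (by rwa [norm_neg]) i0 i1 hv)
    (fun v hv => by rw [hn'2]; exact plm_mem hB hS W he hf i1 ip i0 i1 hv))
  have hLK : W.ω L φ = φ := hφK L (InK_of
    (fun v hv => by rw [hL1]; exact plm_mem hB hS W he hf i1 i0 ip i1 hv)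
    (fun v hv => by rw [hL2]; exact plm_mem hB hS W he hf i1 i0 (by rwa [norm_neg]) i1 hv))
  have hwK : W.ω w φ = φ := hφK w (InK_of
    (fun v hv => by rw [hw1]; exact plm_mem hB hS W he hf i0 (by rwa [norm_neg]) i1 i0 hv)
    (fun v hv => by rw [hw2]; exact plm_mem hB hS W he hf i0 i1 (by rwa [norm_neg]) i0 hv))
  have mulω : ∀ (g g' : ↥(Iso U h)) (s : S), W.ω (g * g') s = W.ω g (W.ω g' s) := by
    intro g g' s
    rw [map_mul]; rfl
  -- `L n L = a w`
  have hLnL : L * n * L = a * w := by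
    apply iso_ext
    intro v
    rw [iso_mul, iso_mul, iso_mul, hL1, hL1, hn1, ha, hw1, plm_comp H, plm_comp H, plm_comp H]
    have e1 : U.ϖ * U.ϖ⁻¹ = 1 := mul_inv_cancel₀ hp
    have e2 : U.ϖ⁻¹ * U.ϖ = 1 := inv_mul_cancel₀ hp
    congr 1
    congr 1 <;> simp [e1, e2]
  have hna : n * a = a * n' := by
    apply iso_ext
    intro v
    rw [iso_mul, iso_mul, hn1, ha, ha, hn'1, plm_comp H, plm_comp H]
    have e1 : U.ϖ * U.ϖ⁻¹ = 1 := mul_inv_cancel₀ hp
    have e2 : U.ϖ⁻¹ * U.ϖ = 1 := inv_mul_cancel₀ hp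
    congr 1
    congr 1 <;> simp [e1, e2]
  have hred : inner ℂ φ (W.ω a φ) = inner ℂ φ (W.ω n φ) := by
    have h1 : W.ω a φ = W.ω L (W.ω n φ) := by
      have h2 : W.ω (a * w) φ = W.ω (L * n * L) φ := by rw [hLnL]
      rw [mulω, hwK, mulω, hLK, mulω] at h2
      exact h2
    rw [h1]
    calc inner ℂ φ (W.ω L (W.ω n φ)) = inner ℂ (W.ω L φ) (W.ω L (W.ω n φ)) := by rw [hLK]
      _ = inner ℂ φ (W.ω n φ) := inner_omega W L _ _
  rw [hred]
  -- the vector `v0`
  set v0 : S := ∑ x ∈ U.rep, W.ρ ((U.ϖ⁻¹ * x) • e) φ with hv0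
  have hmul : ∀ x y : E, ‖x‖ ≤ 1 → ‖y‖ ≤ 1 → ‖x * y‖ ≤ 1 := by
    intro x y hx hy
    rw [norm_mul]
    exact mul_le_one₀ hx (norm_nonneg _) hy
  have haM : ∀ m ∈ M, W.ρ ((a : V ≃ₗ[E] V) m) v0 = v0 := by
    intro m hm
    have hα := h_int hS W hm hf
    have hβ := h_int hS W hm he
    set α := h.h m f with hαd
    set β := h.h m e with hβd
    set l : V := m - α • e + β • f - (U.ϖ * β) • f with hl
    have hlM : l ∈ M := M.sub_mem (M.add_mem (M.sub_mem hm (smul_mem hB W hα he))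
      (smul_mem hB W hβ hf)) (smul_mem hB W (hmul _ _ ip hβ) hf)
    have hle : h.h l e = U.ϖ * β := by
      rw [hl, h_sub_l, h.add, h_sub_l, h.smul, h.smul, h.smul, H.1, H.fe]; ring
    have ham : (a : V ≃ₗ[E] V) m = l + (U.ϖ⁻¹ * α) • e := by
      rw [ha, plm_apply, hl, ← hαd, ← hβd]
      module
    have hle2 : ∀ y : E, h.h l ((U.ϖ⁻¹ * y) • e) = U.σ y * β := by
      intro y
      rw [h_smul_r, hle, map_mul, hσi]
      field_simp
    have hterm : ∀ x ∈ U.rep, W.ρ ((a : V ≃ₗ[E] V) m) (W.ρ ((U.ϖ⁻¹ * x) • e) φ) =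
        W.ρ ((U.ϖ⁻¹ * (x + α)) • e) φ := by
      intro x hx
      have hxi := U.rep_int x hx
      have hxα : ‖x + α‖ ≤ 1 := (U.ultra _ _).trans (max_le hxi hα)
      rw [ham, rho_add' W l _ _ (by
        rw [hle2]
        exact W.Ψint _ (hmul _ _ (by rw [U.σn]; exact hα) hβ))]
      rw [← rho_add' W ((U.ϖ⁻¹ * α) • e) ((U.ϖ⁻¹ * x) • e) φ (by
        rw [h.smul, h_smul_r, H.1, mul_zero, mul_zero, psi_zero])]
      have e1 : (U.ϖ⁻¹ * α) • e + (U.ϖ⁻¹ * x) • e = (U.ϖ⁻¹ * (x + α)) • e := by module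
      rw [e1, rho_comm' W l _ _ (by
        rw [hle2]
        exact psi_int2 W _ (hmul _ _ (by rw [U.σn]; exact hxα) hβ)), hφM l hlM]
    rw [hv0, map_sum, sum_congr rfl hterm]
    refine (rep_isRep U).shift (fun x => W.ρ ((U.ϖ⁻¹ * x) • e) φ) ?_ hα
    intro g _ y hy
    show W.ρ ((U.ϖ⁻¹ * (g + y)) • e) φ = W.ρ ((U.ϖ⁻¹ * g) • e) φ
    have e1 : (U.ϖ⁻¹ * (g + y)) • e = (U.ϖ⁻¹ * g) • e + (U.ϖ⁻¹ * y) • e := by module
    rw [e1, rho_add' W _ _ _ (by rw [h.smul, h_smul_r, H.1, mul_zero, mul_zero, psi_zero]),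
      hφM _ (smul_mem hB W (norm_ideal U hy) he)]
  -- `v0` is a multiple of `ω(a) φ`
  obtain ⟨c, hc⟩ : ∃ c : ℂ, v0 = c • W.ω a φ := by
    set t : S := (W.ω a).symm v0 with ht
    have hωt : W.ω a t = v0 := by rw [ht, LinearIsometryEquiv.apply_symm_apply]
    have htM : ∀ m ∈ M, W.ρ m t = t := by
      intro m hm
      apply (W.ω a).injective
      rw [W.comp, hωt]
      exact haM m hm
    have ht1 := fixed_unique hB hS W hφn hφM htM
    refine ⟨inner ℂ φ t, ?_⟩
    rw [← hωt]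
    conv_lhs => rw [ht1]
    rw [map_smul]
  have hnv0 : W.ω n v0 = v0 := by
    rw [hc, map_smul, ← mulω, hna, mulω, hn'K]
  -- the value of `ω n` on the translates
  have hnz : ∀ z : E, ‖z‖ ≤ 1 → W.ω n (W.ρ (z • f) v0) =
      (W.Ψ (-(U.ϖ⁻¹ * (z * U.σ z))) : ℂ) • W.ρ (z • f) v0 := by
    intro z hz
    have e1 : (n : V ≃ₗ[E] V) (z • f) = z • f + (a : V ≃ₗ[E] V) (-(z • e)) := by
      rw [hn1, tv_apply, h.smul, H.fe, map_neg, map_smul, hae]
      module
    rw [W.comp, hnv0, e1, rho_add, haM _ (M.neg_mem (smul_mem hB W hz he))]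
    congr 3
    rw [map_neg, map_smul, hae, h_neg_r, h.smul, h_smul_r, h_smul_r, H.fe, hσi]
    ring
  -- `φ` in terms of `v0`
  have hsum : ∑ z ∈ U.rep, W.ρ (z • f) v0 = ((U.q : ℂ) ^ 2) • φ := by
    have hterm : ∀ x ∈ U.rep, ∑ z ∈ U.rep, W.ρ (z • f) (W.ρ ((U.ϖ⁻¹ * x) • e) φ) =
        if x = 0 then ((U.q : ℂ) ^ 2) • φ else 0 := by
      intro x hx
      have h1 : ∀ z ∈ U.rep, W.ρ (z • f) (W.ρ ((U.ϖ⁻¹ * x) • e) φ) =
          (chm W.Ψ (-(2 * (U.ϖ⁻¹ * U.σ x))) z : ℂ) • W.ρ ((U.ϖ⁻¹ * x) • e) φ := by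
        intro z hz
        rw [rho_comm, hφM _ (smul_mem hB W (U.rep_int z hz) hf), chm_apply]
        congr 3
        rw [h.smul, h_smul_r, H.fe, map_mul, hσi]
        ring
      rw [sum_congr rfl h1, ← sum_smul]
      split_ifs with hx0
      · rw [hx0]
        have h2 : ∀ z ∈ U.rep, (chm W.Ψ (-(2 * (U.ϖ⁻¹ * U.σ 0))) z : ℂ) = 1 := by
          intro z _
          rw [chm_apply, map_zero, mul_zero, mul_zero, neg_zero, zero_mul, psi_zero,
            Circle.coe_one]
        rw [sum_congr rfl h2, sum_const, U.rep_card, mul_zero, zero_smul, rho_zero]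
        simp
      · obtain ⟨x₀, hx1, hx2, hx3⟩ := W.Ψnt
        have hxn := rep_unit U hx hx0
        have hσx : U.σ x ≠ 0 := by simpa using hx0
        have h2 := two_ne U
        rw [char_sum (rep_isRep U) (chm W.Ψ (-(2 * (U.ϖ⁻¹ * U.σ x)))) (by
          intro y hy
          rw [chm_apply]
          apply W.Ψint
          rw [neg_mul, norm_neg, norm_mul, norm_mul, norm_mul, U.two, one_mul, U.σn, hxn, mul_one,
            ← norm_mul]
          exact norm_ideal U hy) (z₀ := -(U.ϖ * x₀ / (2 * U.σ x))) (by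
          show ‖-(U.ϖ * x₀ / (2 * U.σ x))‖ ≤ 1
          rw [norm_neg, norm_div, norm_mul, norm_mul, U.two, U.σn, hxn, one_mul, div_one]
          calc ‖U.ϖ‖ * ‖x₀‖ ≤ ‖U.ϖ‖ * ‖U.ϖ‖⁻¹ :=
              mul_le_mul_of_nonneg_left hx2 U.ϖpos.le
            _ = 1 := mul_inv_cancel₀ U.ϖpos.ne') (by
          rw [chm_apply]
          have : -(2 * (U.ϖ⁻¹ * U.σ x)) * -(U.ϖ * x₀ / (2 * U.σ x)) = x₀ := by
            field_simp
          rw [this]
          exact hx3), zero_smul]
    rw [hv0]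
    simp only [map_sum]
    rw [sum_comm, sum_congr rfl hterm, sum_ite_eq' U.rep 0, if_pos U.rep_zero]
  have hq : (U.q : ℂ) ≠ 0 := by
    have := U.q3
    exact_mod_cast (by omega : U.q ≠ 0)
  have hφv0 : inner ℂ φ v0 = (1 : ℂ) := by
    rw [hv0, inner_sum, sum_eq_single_of_mem 0 U.rep_zero]
    · rw [mul_zero, zero_smul, rho_zero, inner_self_eq_norm_sq_to_K, hφn]
      simp
    · intro x hx hx0
      apply orth hB hS W hφM hφM
      intro hcon
      have h1 := h_int hS W hcon hf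
      rw [h.smul, H.2.2, mul_one, norm_mul, norm_inv, rep_unit U hx hx0, mul_one] at h1
      have h2 := U.ϖlt
      have h3 := (one_lt_inv₀ U.ϖpos).2 h2
      linarith
  have hφz : ∀ z ∈ U.rep, inner ℂ φ (W.ρ (z • f) v0) = (1 : ℂ) := by
    intro z hz
    rw [inner_rho_right, hφM _ (M.neg_mem (smul_mem hB W (U.rep_int z hz) hf)), hφv0]
  have hfin : ((U.q : ℂ) ^ 2) * inner ℂ φ (W.ω n φ) = - (U.q : ℂ) := by
    have h1 : ((U.q : ℂ) ^ 2) • W.ω n φ =
        ∑ z ∈ U.rep, (W.Ψ (-(U.ϖ⁻¹ * (z * U.σ z))) : ℂ) • W.ρ (z • f) v0 := by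
      rw [← map_smul, ← hsum, map_sum]
      exact sum_congr rfl fun z hz => hnz z (U.rep_int z hz)
    rw [← inner_smul_right, h1, inner_sum, ← norm_sum hN W]
    refine sum_congr rfl fun z hz => ?_
    rw [inner_smul_right, hφz z hz, mul_one]
  have h2 : inner ℂ φ (W.ω n φ) = - (U.q : ℂ) / (U.q : ℂ) ^ 2 := by
    rw [eq_div_iff (pow_ne_zero 2 hq), mul_comm]
    exact hfin
  rw [h2]
  field_simp

end MPtg
end

section
/-!
# MP_3d2757_nt : module WE, the spherical matrix coefficient of the Weil representation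
-/
set_option autoImplicit false

open Finset

namespace MPtg

namespace Weil

variable {E : Type} [NormedField E] {U : Unr E} {V : Type} [AddCommGroup V] [Module E V]
  {h : SkF U V} {k : ℕ} {M : AddSubgroup V} {S : Type} [NormedAddCommGroup S]
  [InnerProductSpace ℂ S] [CompleteSpace S]

/-- diagonal operator -/
noncomputable def dop (U : Unr E) (B : Module.Basis (Fin k) E V) (L : Fin k → ℤ) : V ≃ₗ[E] V :=
  B.equiv (B.unitsSMul (fun i => U.w ^ (L i))) (Equiv.refl _)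

lemma dop_basis (B : Module.Basis (Fin k) E V) (L : Fin k → ℤ) (i : Fin k) :
    dop U B L (B i) = (U.ϖ ^ (L i)) • B i := by
  rw [dop, Module.Basis.equiv_apply, Equiv.refl_apply, Module.Basis.unitsSMul_apply]
  rw [Units.smul_def, Units.val_zpow_eq_zpow_val]
  rfl

lemma dop_sum (B : Module.Basis (Fin k) E V) (L : Fin k → ℤ) (c : Fin k → E) :
    dop U B L (∑ i, c i • B i) = ∑ i, (c i * U.ϖ ^ (L i)) • B i := by
  rw [map_sum]
  refine sum_congr rfl fun i _ => ?_
  rw [map_smul, dop_basis, smul_smul]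

lemma exists_coeff (B : Module.Basis (Fin k) E V) (v : V) : ∃ c : Fin k → E, v = ∑ i, c i • B i :=
  ⟨fun i => B.repr v i, (B.sum_repr v).symm⟩

lemma coeff_unique (B : Module.Basis (Fin k) E V) {c d : Fin k → E}
    (hcd : ∑ i, c i • B i = ∑ i, d i • B i) : c = d := by
  funext i
  have h1 := congrArg (fun v => B.repr v i) hcd
  simpa [Finsupp.single_apply] using h1

lemma h_sum_l (s : Finset (Fin k)) (f : Fin k → V) (w : V) :
    h.h (∑ i ∈ s, f i) w = ∑ i ∈ s, h.h (f i) w := by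
  classical
  induction s using Finset.induction_on with
  | empty => simp [h_zero_l]
  | insert a s ha ih => rw [sum_insert ha, sum_insert ha, h.add, ih]

lemma h_sum_r (s : Finset (Fin k)) (f : Fin k → V) (w : V) :
    h.h w (∑ i ∈ s, f i) = ∑ i ∈ s, h.h w (f i) := by
  classical
  induction s using Finset.induction_on with
  | empty => simp [h_zero_r]
  | insert a s ha ih => rw [sum_insert ha, sum_insert ha, h_add_r, ih]

/-- compatible exponents -/
def Cmp (h : SkF U V) (B : Module.Basis (Fin k) E V) (L : Fin k → ℤ) : Prop :=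
  ∀ i j, h.h (B i) (B j) = 0 ∨ L i + L j = 0

lemma dop_iso (B : Module.Basis (Fin k) E V) {L : Fin k → ℤ} (hL : Cmp h B L) :
    dop U B L ∈ Iso U h := by
  intro v w
  obtain ⟨c, rfl⟩ := exists_coeff B v
  obtain ⟨d, rfl⟩ := exists_coeff B w
  rw [dop_sum, dop_sum, h_sum_l, h_sum_l]
  refine sum_congr rfl fun i _ => ?_
  rw [h_sum_r, h_sum_r]
  refine sum_congr rfl fun j _ => ?_
  rw [h.smul, h.smul, h_smul_r, h_smul_r, map_mul, sigma_zpow]
  rcases hL i j with h1 | h1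
  · rw [h1]; simp
  · have h2 : U.ϖ ^ (L i) * U.ϖ ^ (L j) = 1 := by
      rw [← zpow_add₀ (pi_ne U), h1, zpow_zero]
    linear_combination (c i * U.σ (d j) * h.h (B i) (B j)) * h2

/-- the diagonal isometry -/
noncomputable def dis (B : Module.Basis (Fin k) E V) {L : Fin k → ℤ} (hL : Cmp h B L) :
    ↥(Iso U h) := ⟨dop U B L, dop_iso B hL⟩

lemma dis_apply (B : Module.Basis (Fin k) E V) {L : Fin k → ℤ} (hL : Cmp h B L) (v : V) :
    (dis B hL : V ≃ₗ[E] V) v = dop U B L v := rfl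

/-- membership in a box of a vector given by its coefficients -/
lemma mem_box_B (B : Module.Basis (Fin k) E V) (L : Fin k → ℤ) (c : Fin k → E) :
    ∑ i, c i • B i ∈ box U (fun i => B i) L ↔ ∀ i, ‖c i‖ ≤ ‖U.ϖ‖ ^ (L i) := by
  constructor
  · rintro ⟨d, hd, hcd⟩
    rw [coeff_unique B hcd]
    exact hd
  · intro hc
    exact ⟨c, hc, rfl⟩

lemma dop_box (B : Module.Basis (Fin k) E V) (L : Fin k → ℤ) (v : V) :
    v ∈ box U (fun i => B i) 0 ↔ dop U B L v ∈ box U (fun i => B i) L := by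
  obtain ⟨c, rfl⟩ := exists_coeff B v
  rw [dop_sum, mem_box_B, mem_box_B]
  refine forall_congr' fun i => ?_
  have h1 : 0 < ‖U.ϖ‖ ^ (L i) := zpow_pos U.ϖpos _
  rw [norm_mul, norm_zpow, Pi.zero_apply, zpow_zero]
  constructor
  · intro h2
    calc ‖c i‖ * ‖U.ϖ‖ ^ (L i) ≤ 1 * ‖U.ϖ‖ ^ (L i) := mul_le_mul_of_nonneg_right h2 h1.le
      _ = _ := one_mul _
  · intro h2
    exact le_of_mul_le_mul_right (by rwa [one_mul]) h1

lemma toNat_update (L : Fin k → ℤ) (hL : ∀ i, L (Fin.rev i) = - L i) (i₀ : Fin k)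
    (hi₀ : 0 < L i₀) (L' : Fin k → ℤ) (h1 : L' i₀ = L i₀ - 1)
    (h2 : L' (Fin.rev i₀) = L (Fin.rev i₀) + 1)
    (h3 : ∀ i, i ≠ i₀ → i ≠ Fin.rev i₀ → L' i = L i) : len L = len L' + 1 := by
  classical
  unfold len
  rw [← sum_erase_add _ _ (mem_univ i₀), ← sum_erase_add univ (fun i => (L' i).toNat)
    (mem_univ i₀)]
  have h4 : ∑ i ∈ univ.erase i₀, (L i).toNat = ∑ i ∈ univ.erase i₀, (L' i).toNat := by
    refine sum_congr rfl fun i hi => ?_
    rw [mem_erase] at hi
    by_cases hr : i = Fin.rev i₀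
    · subst hr
      rw [h2, hL]
      omega
    · rw [h3 i hi.1 hr]
  rw [h4, h1]
  omega

end Weil

open Weil in
theorem specWE (hS : SpecSdl) (hWB : SpecWB) (hWC : SpecWC) (hWD : SpecWD) :
    SpecWE := by
  classical
  intro E _ U V _ _ h k M S _ _ _ W φ hφn hφK b Λ hb hM hΛ hHyp g hg
  have hφφ : inner ℂ φ φ = (1 : ℂ) := by
    rw [inner_self_eq_norm_sq_to_K, hφn]
    simp
  by_cases hk : k < 2
  · -- trivial case
    have h0 : Λ = 0 := by
      funext i
      have h1 := hΛ.2 i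
      have h2 : Fin.rev i = i := by
        apply Fin.ext
        have := (Fin.rev i).isLt
        have := i.isLt
        omega
      rw [h2] at h1
      show Λ i = 0
      omega
    rw [h0] at hg ⊢
    have h1 : W.ω g φ = φ := by
      apply hφK
      intro v
      rw [hg v, hM]
    rw [h1, hφφ]
    simp [len]
  push Not at hk
  have hφM : ∀ m ∈ M, W.ρ m φ = φ := hWB E U V h k M S W hk φ hφK
  have hli : LinearIndependent E b := (hS E U V h k M W.sd).2.2.1 b hb
  have hsp : ⊤ ≤ Submodule.span E (Set.range b) := by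
    intro v _
    obtain ⟨j, hj⟩ := W.full v
    rw [hM] at hj
    obtain ⟨c, -, hc⟩ := hj
    have h1 : v = (U.ϖ ^ j)⁻¹ • ((U.ϖ ^ j) • v) := by
      rw [smul_smul, inv_mul_cancel₀ (pow_ne_zero _ (pi_ne U)), one_smul]
    rw [h1, hc]
    refine Submodule.smul_mem _ _ (Submodule.sum_mem _ fun i _ => Submodule.smul_mem _ _ ?_)
    exact Submodule.subset_span ⟨i, rfl⟩
  set B : Module.Basis (Fin k) E V := Module.Basis.mk hli hsp with hBdef
  have hBi : ∀ i, B i = b i := fun i => by rw [hBdef, Module.Basis.mk_apply]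
  have hBf : (fun i => B i) = b := funext hBi
  have hMB : M = box U (fun i => B i) 0 := by rw [hBf]; exact hM
  -- compatibility
  have hcmp : ∀ L : Fin k → ℤ, (∀ i, L (Fin.rev i) = - L i) → HypB U h b L → Cmp h B L := by
    intro L hL hH i j
    rw [hBi, hBi]
    by_cases h1 : L i = 0
    · by_cases h2 : L j = 0
      · right; rw [h1, h2]; rfl
      · left
        rw [h.skew (b j) (b i)]
        have h3 : i ≠ Fin.rev j := by
          intro h4
          rw [h4, hL] at h1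
          omega
        rw [hH.1 j i h2 h3, map_zero, neg_zero]
    · by_cases h2 : j = Fin.rev i
      · right; rw [h2, hL]; ring
      · left; exact hH.1 i j h1 h2
  -- the main induction
  have main : ∀ (N : ℕ) (L : Fin k → ℤ), len L = N → ∀ (hL : ∀ i, L (Fin.rev i) = - L i)
      (_ : HypB U h b L) (hC : Cmp h B L),
      inner ℂ φ (W.ω (dis B hC) φ) = (-((U.q : ℂ)⁻¹)) ^ N := by
    intro N
    induction N with
    | zero =>
      intro L hlen hL _ hC
      have h0 : L = 0 := by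
        unfold len at hlen
        rw [sum_eq_zero_iff] at hlen
        funext i
        have h1 := hlen i (mem_univ _)
        have h2 := hlen (Fin.rev i) (mem_univ _)
        rw [hL] at h2
        show L i = 0
        omega
      have h1 : dis B hC = 1 := by
        apply iso_ext
        intro v
        rw [dis_apply]
        obtain ⟨c, rfl⟩ := exists_coeff B v
        rw [dop_sum, h0]
        simp
      rw [h1, map_one, pow_zero]
      exact hφφ
    | succ N ih =>
      intro L hlen hL hH hC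
      obtain ⟨i₀, hi₀⟩ : ∃ i₀, 0 < L i₀ := by
        by_contra hcon
        push Not at hcon
        have : len L = 0 := by
          unfold len
          rw [sum_eq_zero_iff]
          intro i _
          have := hcon i
          omega
        omega
      have hr : Fin.rev i₀ ≠ i₀ := by
        intro h1
        have := hL i₀
        rw [h1] at this
        omega
      set L' : Fin k → ℤ := Function.update (Function.update L i₀ (L i₀ - 1)) (Fin.rev i₀)
        (L (Fin.rev i₀) + 1) with hL'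
      have e1 : L' i₀ = L i₀ - 1 := by
        rw [hL', Function.update_of_ne hr.symm, Function.update_self]
      have e2 : L' (Fin.rev i₀) = L (Fin.rev i₀) + 1 := by
        rw [hL', Function.update_self]
      have e3 : ∀ i, i ≠ i₀ → i ≠ Fin.rev i₀ → L' i = L i := by
        intro i h1 h2
        rw [hL', Function.update_of_ne h2, Function.update_of_ne h1]
      have hL'r : ∀ i, L' (Fin.rev i) = - L' i := by
        intro i
        by_cases h1 : i = i₀
        · rw [h1, e1, e2, hL]; ring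
        by_cases h2 : i = Fin.rev i₀
        · rw [h2, Fin.rev_rev, e1, e2, hL]; ring
        · rw [e3 i h1 h2, e3, hL]
          · intro h3
            apply h2
            rw [← h3, Fin.rev_rev]
          · intro h3
            apply h1
            exact Fin.rev_injective h3
      have hne : ∀ i, L' i ≠ 0 → L i ≠ 0 := by
        intro i h1
        by_cases h2 : i = i₀
        · rw [h2]; omega
        by_cases h3 : i = Fin.rev i₀
        · rw [h3, hL]; omega
        · rwa [← e3 i h2 h3]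
      have hpos : ∀ i, 0 < L' i → 0 < L i := by
        intro i h1
        by_cases h2 : i = i₀
        · rw [h2]; exact hi₀
        by_cases h3 : i = Fin.rev i₀
        · exfalso
          rw [h3, e2, hL] at h1
          omega
        · rwa [← e3 i h2 h3]
      have hH' : HypB U h b L' := ⟨fun i j h1 h2 => hH.1 i j (hne i h1) h2,
        fun i h1 => hH.2 i (hpos i h1)⟩
      have hC' := hcmp L' hL'r hH'
      have hlen' : len L' = N := by
        have := toNat_update L hL i₀ hi₀ L' e1 e2 e3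
        omega
      have hih := ih L' hlen' hL'r hH' hC'
      -- chain
      have hchain := hWD E U V h k M S W φ hφn hφM (dis B hC') (dis B hC) (by
        intro x hx
        rw [hMB] at hx
        obtain ⟨c, hc, rfl⟩ := hx
        have hc' : ∀ i, ‖c i‖ ≤ 1 := fun i => by simpa using hc i
        refine ⟨∑ i, (if 0 ≤ L' i then c i * U.ϖ ^ (L' i) else 0) • B i,
          ∑ i, (if 0 ≤ L' i then 0 else c i * U.ϖ ^ (L' i)) • B i, ?_, ?_, ?_, ?_, ?_⟩
        · rw [dis_apply, dop_sum, ← sum_add_distrib]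
          refine sum_congr rfl fun i _ => ?_
          split_ifs <;> simp
        · rw [hMB, mem_box_B]
          intro i
          rw [Pi.zero_apply, zpow_zero]
          split_ifs with h1
          · rw [norm_mul, norm_zpow]
            exact mul_le_one₀ (hc' i) (zpow_pos U.ϖpos _).le (zpow_le_one₀ U.ϖpos U.ϖlt.le h1)
          · rw [norm_zero]; exact zero_le_one
        · refine ⟨∑ i, (if 0 ≤ L' i then c i else 0) • B i, ?_, ?_⟩
          · rw [hMB, mem_box_B]
            intro i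
            rw [Pi.zero_apply, zpow_zero]
            split_ifs
            · exact hc' i
            · rw [norm_zero]; exact zero_le_one
          · rw [dis_apply, dop_sum]
            refine sum_congr rfl fun i _ => ?_
            split_ifs <;> simp
        · refine ⟨∑ i, (if 0 ≤ L' i then 0 else c i) • B i, ?_, ?_⟩
          · rw [hMB, mem_box_B]
            intro i
            rw [Pi.zero_apply, zpow_zero]
            split_ifs
            · rw [norm_zero]; exact zero_le_one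
            · exact hc' i
          · rw [dis_apply, dop_sum]
            refine sum_congr rfl fun i _ => ?_
            split_ifs <;> simp
        · refine ⟨∑ i, (if 0 ≤ L' i then 0 else c i * U.ϖ ^ (L' i - L i)) • B i, ?_, ?_⟩
          · rw [hMB, mem_box_B]
            intro i
            rw [Pi.zero_apply, zpow_zero]
            split_ifs with h1
            · rw [norm_zero]; exact zero_le_one
            · have h2 : 0 ≤ L' i - L i := by
                by_cases h3 : i = i₀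
                · exfalso
                  apply h1
                  rw [h3, e1]; omega
                by_cases h4 : i = Fin.rev i₀
                · rw [h4, e2]; omega
                · rw [e3 i h3 h4]; omega
              rw [norm_mul, norm_zpow]
              exact mul_le_one₀ (hc' i) (zpow_pos U.ϖpos _).le
                (zpow_le_one₀ U.ϖpos U.ϖlt.le h2)
          · rw [dis_apply, dop_sum]
            refine sum_congr rfl fun i _ => ?_
            split_ifs
            · simp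
            · rw [mul_assoc, ← zpow_add₀ (pi_ne U), sub_add_cancel])
      have hstep : inner ℂ (W.ω (dis B hC') φ) (W.ω (dis B hC) φ) = -((U.q : ℂ)⁻¹) := by
        set a : ↥(Iso U h) := (dis B hC')⁻¹ * dis B hC with ha
        have h1 : dis B hC = dis B hC' * a := by rw [ha, mul_inv_cancel_left]
        have h2 : W.ω (dis B hC) φ = W.ω (dis B hC') (W.ω a φ) := by
          rw [h1, map_mul]; rfl
        rw [h2, inner_omega]
        -- `a` is diagonal
        have haB : ∀ c : Fin k → E, (a : V ≃ₗ[E] V) (∑ i, c i • B i) =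
            ∑ i, (c i * U.ϖ ^ (L i - L' i)) • B i := by
          intro c
          apply (dis B hC' : V ≃ₗ[E] V).injective
          rw [← iso_mul, ← h1, dis_apply, dis_apply, dop_sum, dop_sum]
          refine sum_congr rfl fun i _ => ?_
          rw [mul_assoc, ← zpow_add₀ (pi_ne U), sub_add_cancel]
        have hai : ∀ i, (a : V ≃ₗ[E] V) (b i) = U.ϖ ^ (L i - L' i) • b i := by
          intro i
          have h3 := haB (Pi.single i 1)
          simp only [Pi.single_apply, ite_smul, one_smul, zero_smul, ite_mul, one_mul,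
            zero_mul, sum_ite_eq', mem_univ, if_true] at h3
          rwa [hBi] at h3
        have hbM : ∀ i, b i ∈ M := by
          intro i
          rw [hM]
          refine ⟨Pi.single i 1, ?_, ?_⟩
          · intro j
            rw [Pi.zero_apply, zpow_zero, Pi.single_apply]
            split_ifs
            · rw [norm_one]
            · rw [norm_zero]; exact zero_le_one
          · simp [Pi.single_apply]
        have hLi0 : L i₀ ≠ 0 := by omega
        have hLr0 : L (Fin.rev i₀) ≠ 0 := by rw [hL]; omega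
        refine hWC E U V h k M S W (b (Fin.rev i₀)) (hbM _) (b i₀) (hbM _)
          (hH.1 _ _ hLr0 (by rw [Fin.rev_rev]; exact hr)) (hH.1 _ _ hLi0 hr.symm)
          (hH.2 i₀ hi₀) φ hφn hφM hφK a ?_ ?_ ?_
        · rw [hai, e2]
          congr 1
          rw [show L (Fin.rev i₀) - (L (Fin.rev i₀) + 1) = -1 by ring, zpow_neg_one]
        · rw [hai, e1]
          congr 1
          rw [show L i₀ - (L i₀ - 1) = 1 by ring, zpow_one]
        · intro v hv1 hv2
          obtain ⟨c, rfl⟩ := exists_coeff B v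
          have hc1 : c i₀ = 0 := by
            rw [h_sum_l, sum_eq_single_of_mem i₀ (mem_univ _)] at hv1
            · rw [h.smul, hBi, h.skew (b (Fin.rev i₀)) (b i₀), hH.2 i₀ hi₀, map_one] at hv1
              linear_combination -hv1
            · intro i _ hi
              rw [h.smul, hBi, h.skew (b (Fin.rev i₀)) (b i), hH.1 (Fin.rev i₀) i hLr0 (by
                rwa [Fin.rev_rev]), map_zero, neg_zero, mul_zero]
          have hc2 : c (Fin.rev i₀) = 0 := by
            rw [h_sum_l, sum_eq_single_of_mem (Fin.rev i₀) (mem_univ _)] at hv2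
            · rw [h.smul, hBi, hH.2 i₀ hi₀, mul_one] at hv2
              exact hv2
            · intro i _ hi
              rw [h.smul, hBi, h.skew (b i₀) (b i), hH.1 i₀ i hLi0 hi, map_zero, neg_zero,
                mul_zero]
          rw [haB]
          refine sum_congr rfl fun i _ => ?_
          by_cases h3 : i = i₀
          · rw [h3, hc1, zero_mul]
          by_cases h4 : i = Fin.rev i₀
          · rw [h4, hc2, zero_mul]
          · rw [e3 i h3 h4, sub_self, zpow_zero, mul_one]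
      rw [hchain, hih, hstep, pow_succ]
  have hC := hcmp Λ hΛ.2 hHyp
  have hfin := main (len Λ) Λ rfl hΛ.2 hHyp hC
  rw [← hfin]
  congr 1
  set κ : ↥(Iso U h) := (dis B hC)⁻¹ * g with hκ
  have h1 : g = dis B hC * κ := by rw [hκ, mul_inv_cancel_left]
  have h2 : W.ω κ φ = φ := by
    apply hφK
    intro v
    rw [hg v, hMB, dop_box B Λ, ← dis_apply B hC, ← iso_mul, ← h1, hBf]
  rw [h1, map_mul]
  show W.ω (dis B hC) (W.ω κ φ) = _
  rw [h2]

end MPtg
end
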