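import Pool.Agent.Lib.MP_3d2757_nt.Max
import Pool.Agent.Lib.MP_3d2757_nt.Sat
import Pool.Agent.Lib.MP_3d2757_nt.Cnt
import Pool.Agent.Lib.MP_3d2757_nt.Compl
import Pool.Agent.Lib.MP_3d2757_nt.Cont
import Pool.Agent.Lib.MP_3d2757_nt.Div
import Pool.Agent.Lib.MP_3d2757_nt.Gelf
import Pool.Agent.Lib.MP_3d2757_nt.Topc
import Pool.Agent.Lib.MP_3d2757_nt.Jval
import Pool.Agent.Lib.MP_3d2757_nt.WE
import Pool.Agent.Lib.MP_3d2757_nt.Torid

section
/-!
# VAN, J0, JSYM
-/
open Finset MeasureTheory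

namespace MPtg

namespace VanM

theorem norm_neg_t (t : ℝ) (h0 : 0 < t) (h1 : t < 1) : ‖-(t : ℂ)‖ < 1 := by
  rw [norm_neg, Complex.norm_real, Real.norm_eq_abs, abs_of_pos h0]
  exact h1

theorem cast_sq (t : ℝ) : (((t ^ 2 : ℝ)) : ℂ) = (t : ℂ) ^ 2 := by push_cast; rfl

/-- UNSYM with `H = 1` -/
theorem unsym1 (n : ℕ) (u u' : ℂ) (hu : ‖u'‖ < 1) (L : Fin n → ℤ) :
    tint (fun x : Fin n → ℂ => HLR u L x * prd (kD u') x) =
      (Nat.factorial n : ℂ) * tint (fun x : Fin n → ℂ => mon L x * prd (kK u u') x) := by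
  have h := UnsymM.unsym n u u' hu L (fun _ => 1) 1 (fun _ _ _ => rfl)
    aestronglyMeasurable_const (fun _ _ => by simp)
  simpa only [mul_one] using h

theorem van (hP : SpecPoly) : SpecVan := by
  intro n t h0 h1 L hL
  have hu0 : 0 < t ^ 2 := by positivity
  have hu1 : t ^ 2 < 1 := by nlinarith
  have hR := (hP n (t ^ 2) hu0 hu1 L hL).1
  rw [← TbM.tint_inv]
  have e : tint (fun x : Fin n → ℂ => RP (((t ^ 2 : ℝ)) : ℂ) L (fun i => ((x i)⁻¹)⁻¹) *
      prd (kD (-(t : ℂ))) (fun i => (x i)⁻¹)) =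
      tint (fun x : Fin n → ℂ => HLR ((t : ℂ) ^ 2) L x * prd (kD (-(t : ℂ))) x) := by
    unfold tint
    refine integral_congr_ae ?_
    filter_upwards [TbM.ae_inj n] with θ hθ
    simp only [inv_inv]
    rw [UnsymM.prd_kD_inv, ← cast_sq, ← hR (ze θ) (TriM.ze_ne θ) hθ]
  rw [e, unsym1 n _ _ (norm_neg_t t h0 h1)]
  rfl

theorem j0 (hH : SpecHL0) : SpecJ0 := by
  intro n t h0 h1
  have hn := norm_neg_t t h0 h1
  have hf : (Nat.factorial n : ℂ) ≠ 0 := by exact_mod_cast Nat.factorial_ne_zero n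
  have hc : ∀ u : ℂ, u ≠ 1 →
      tint (fun x : Fin n → ℂ => HLR u 0 x * prd (kD (-(t : ℂ))) x) =
        vv n u * tint (fun x : Fin n → ℂ => prd (kD (-(t : ℂ))) x) := by
    intro u hu
    unfold tint
    rw [← integral_const_mul]
    refine integral_congr_ae ?_
    filter_upwards [TbM.ae_inj n] with θ hθ
    rw [hH n u hu (ze θ) (TriM.ze_ne θ) hθ]
  have hu1 : ((t : ℂ) ^ 2) ≠ 1 := by
    intro h
    have h2 : t ^ 2 = 1 := by exact_mod_cast h
    nlinarith
  have hu2 : (-(t : ℂ)) ≠ 1 := by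
    intro h
    have h2 : -t = 1 := by exact_mod_cast h
    linarith
  have e1 := unsym1 n ((t : ℂ) ^ 2) (-(t : ℂ)) hn 0
  have e2 := unsym1 n (-(t : ℂ)) (-(t : ℂ)) hn 0
  rw [hc _ hu1] at e1
  rw [hc _ hu2] at e2
  have e3 : tint (fun x : Fin n → ℂ => mon (0 : Fin n → ℤ) x * prd (kK (-(t : ℂ)) (-(t : ℂ))) x) =
      1 := by
    rw [← TriM.tri3 n (-(t : ℂ)) hn]
    unfold tint
    refine integral_congr_ae (Filter.Eventually.of_forall fun θ => ?_)
    have em : mon (0 : Fin n → ℤ) (ze θ) = 1 := by simp [mon]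
    simp only [em, one_mul]
    unfold prd
    refine Finset.prod_congr rfl fun i _ => Finset.prod_congr rfl fun j _ => ?_
    unfold kK kA
    have hz : ‖ze θ i / ze θ j‖ = 1 := by
      rw [norm_div, TbM.norm_ze, TbM.norm_ze, div_one]
    have hne : ze θ i / ze θ j - -(t : ℂ) ≠ 0 := by
      intro h
      rw [sub_eq_zero.1 h] at hz
      exact absurd hz hn.ne
    rw [mul_div_mul_left _ _ hne]
  rw [e3, mul_one] at e2
  have e4 : Jint t (0 : Fin n → ℤ) =
      tint (fun x : Fin n → ℂ => mon (0 : Fin n → ℤ) x * prd (kK ((t : ℂ) ^ 2) (-(t : ℂ))) x) := rfl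
  rw [← e4] at e1
  set X := tint (fun x : Fin n → ℂ => prd (kD (-(t : ℂ))) x) with hX
  have e5 : (Nat.factorial n : ℂ) * (vv n (-(t : ℂ)) * Jint t (0 : Fin n → ℤ)) =
      (Nat.factorial n : ℂ) * vv n ((t : ℂ) ^ 2) := by
    calc (Nat.factorial n : ℂ) * (vv n (-(t : ℂ)) * Jint t (0 : Fin n → ℤ))
        = vv n (-(t : ℂ)) * ((Nat.factorial n : ℂ) * Jint t (0 : Fin n → ℤ)) := by ring
      _ = vv n (-(t : ℂ)) * (vv n ((t : ℂ) ^ 2) * X) := by rw [e1]
      _ = (vv n (-(t : ℂ)) * X) * vv n ((t : ℂ) ^ 2) := by ring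
      _ = _ := by rw [e2]
  exact mul_left_cancel₀ hf e5

theorem jsym : SpecJsym := by
  intro n t a
  unfold Jint
  rw [← TbM.tint_inv, ← TbM.tint_perm _ _ Fin.revPerm]
  congr 1
  funext x
  congr 1
  · unfold mon
    rw [← Equiv.prod_comp Fin.revPerm]
    refine Finset.prod_congr rfl fun i _ => ?_
    simp [Fin.revPerm_apply, Fin.rev_rev]
  · rw [TriM.prd_eq, TriM.prd_eq]
    refine Finset.prod_bij' (fun p _ => (Fin.rev p.2, Fin.rev p.1))
      (fun p _ => (Fin.rev p.2, Fin.rev p.1)) ?_ ?_ ?_ ?_ ?_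
    · intro p hp
      simp only [Finset.mem_filter, Finset.mem_univ, true_and] at hp ⊢
      exact Fin.rev_lt_rev.2 hp
    · intro p hp
      simp only [Finset.mem_filter, Finset.mem_univ, true_and] at hp ⊢
      exact Fin.rev_lt_rev.2 hp
    · intro p _
      simp
    · intro p _
      simp
    · intro p _
      simp only [Fin.revPerm_apply]
      rw [inv_div_inv]

end VanM

/-- VAN -/
theorem specVan (hP : SpecPoly) : SpecVan := VanM.van hP

/-- J0 -/
theorem specJ0 (hH : SpecHL0) : SpecJ0 := VanM.j0 hH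

/-- JSYM -/
theorem specJsym : SpecJsym := VanM.jsym

end MPtg
end

section
/-! # MP_3d2757_nt : the final statement, proved -/
namespace MPtg

section
variable {F E : Type} [NontriviallyNormedField F] [NormedField E] [NormedAlgebra F E]
  (σ : E ≃ₐ[F] E) {n : ℕ} (J : Matrix (Fin n) (Fin n) E)

theorem UJ_mul_mem {a b : GL (Fin n) E}
    (ha : (a : Matrix (Fin n) (Fin n) E).transpose * J *
      (a : Matrix (Fin n) (Fin n) E).map σ = J)
    (hb : (b : Matrix (Fin n) (Fin n) E).transpose * J *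
      (b : Matrix (Fin n) (Fin n) E).map σ = J) :
    ((a * b : GL (Fin n) E) : Matrix (Fin n) (Fin n) E).transpose * J *
      ((a * b : GL (Fin n) E) : Matrix (Fin n) (Fin n) E).map σ = J :=
  (UJ σ J).mul_mem' (a := a) (b := b) ha hb

theorem UJ_one_mem : ((1 : GL (Fin n) E) : Matrix (Fin n) (Fin n) E).transpose * J *
      ((1 : GL (Fin n) E) : Matrix (Fin n) (Fin n) E).map σ = J :=
  (UJ σ J).one_mem'

theorem UJ_inv_mem {a : GL (Fin n) E}
    (ha : (a : Matrix (Fin n) (Fin n) E).transpose * J *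
      (a : Matrix (Fin n) (Fin n) E).map σ = J) :
    ((a⁻¹ : GL (Fin n) E) : Matrix (Fin n) (Fin n) E).transpose * J *
      ((a⁻¹ : GL (Fin n) E) : Matrix (Fin n) (Fin n) E).map σ = J :=
  (UJ σ J).inv_mem' (x := a) ha

end

theorem final : Final := by
  have hHp : SpecHpair := specHpair specBox specSdl
  have hHy : SpecHyp := specHyp hHp
  have hCnt : SpecCnt := specCnt hHp (specCntB hHy) (specCnt0 specBox specSdl specNrm)
    (specCntL specBox specSdl) (specCntP specBox)
  have hWE : SpecWE := specWE specSdl (specWB specBox specSdl hHp)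
    (specWC specBox specSdl specNrm) (specWD specBox specSdl)
  have hB : SpecBound := specBound specMax specPoly
  have hO : SpecOrt := specOrt specPoly specRpp specTopc
  have hJ : SpecJval := specJval specStep specJsym (specJ0 specHL0)
  have hTo : SpecTorid := specTorid specRpp hO hJ (specVan specPoly) (specCompl specSrt0 specRpp)
    hB specSumLen specAb
  have hCont : SpecCont := specCont specPoly hTo hB specSumLen specAb
  have hDiv : SpecDiv := specDiv specBlk specHL0 specPoly specMax specAb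
  exact AsmM.asm hHy specUniq specSdl specBox (specTrans hHy) hCnt hWE specMac specHerm hCont hDiv
    specIntg specFld (specSat specGelf specSch) specHeci

end MPtg
end
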