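import Pool.Agent.Lib.MP_3d2757_nt.Spec

section
/-!
# MP_3d2757_nt : module NRM
-/
open Finset

namespace MPtg

namespace NrmM

variable {E : Type} [NormedField E] (U : Unr E)

include U

theorem sub_le (x y : E) : ‖x - y‖ ≤ max ‖x‖ ‖y‖ := by
  have h := U.ultra x (-y)
  rwa [norm_neg, ← sub_eq_add_neg] at h

theorem add_lt {x y : E} {ε : ℝ} (hx : ‖x‖ < ε) (hy : ‖y‖ < ε) : ‖x + y‖ < ε :=
  (U.ultra x y).trans_lt (max_lt hx hy)

theorem sub_lt {x y : E} {ε : ℝ} (hx : ‖x‖ < ε) (hy : ‖y‖ < ε) : ‖x - y‖ < ε :=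
  (sub_le U x y).trans_lt (max_lt hx hy)

theorem add_le' {x y : E} {ε : ℝ} (hx : ‖x‖ ≤ ε) (hy : ‖y‖ ≤ ε) : ‖x + y‖ ≤ ε :=
  (U.ultra x y).trans (max_le hx hy)

theorem sub_le' {x y : E} {ε : ℝ} (hx : ‖x‖ ≤ ε) (hy : ‖y‖ ≤ ε) : ‖x - y‖ ≤ ε :=
  (sub_le U x y).trans (max_le hx hy)

theorem tri_lt {x y z : E} {ε : ℝ} (hx : ‖x - y‖ < ε) (hy : ‖y - z‖ < ε) : ‖x - z‖ < ε := by
  have : x - z = (x - y) + (y - z) := by ring
  rw [this]
  exact add_lt U hx hy

theorem norm_eq {x y : E} (h : ‖x - y‖ < ‖x‖) : ‖y‖ = ‖x‖ := by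
  apply le_antisymm
  · have : y = x - (x - y) := by ring
    rw [this]
    exact sub_le' U le_rfl h.le
  · by_contra hc
    push Not at hc
    have : x = y + (x - y) := by ring
    have h2 : ‖y + (x - y)‖ < ‖x‖ := add_lt U hc h
    rw [← this] at h2
    exact lt_irrefl _ h2

theorem mul_sub_lt {x x' y y' : E} (hx : ‖x'‖ ≤ 1) (hy : ‖y‖ ≤ 1) (h : ‖x - x'‖ < 1)
    (h' : ‖y - y'‖ < 1) : ‖x * y - x' * y'‖ < 1 := by
  have e : x * y - x' * y' = (x - x') * y + x' * (y - y') := by ring
  rw [e]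
  refine add_lt U ?_ ?_
  · rw [norm_mul]
    calc ‖x - x'‖ * ‖y‖ ≤ ‖x - x'‖ * 1 := by gcongr
      _ < 1 := by rwa [mul_one]
  · rw [norm_mul]
    calc ‖x'‖ * ‖y - y'‖ ≤ 1 * ‖y - y'‖ := by gcongr
      _ < 1 := by rwa [one_mul]

theorem σ_sub_norm (x y : E) : ‖U.σ x - U.σ y‖ = ‖x - y‖ := by
  rw [← map_sub, U.σn]

theorem rep_eq_zero {r : E} (hr : r ∈ U.rep) (h : ‖r‖ < 1) : r = 0 := by
  obtain ⟨s, _, hs⟩ := U.rep_ex 0 (by simp)
  rw [hs r ⟨hr, by simpa using h⟩, hs 0 ⟨U.rep_zero, by simp⟩]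

theorem rep_norm {r : E} (hr : r ∈ U.rep) (h : r ≠ 0) : ‖r‖ = 1 :=
  le_antisymm (U.rep_int r hr) (by
    by_contra hc
    exact h (rep_eq_zero U hr (not_le.1 hc)))

theorem rep0_eq_zero {r : E} (hr : r ∈ U.rep0) (h : ‖r‖ < 1) : r = 0 := by
  obtain ⟨s, _, hs⟩ := U.rep0_ex 0 (by simp) (by simp)
  rw [hs r ⟨hr, by simpa using h⟩, hs 0 ⟨U.rep0_zero, by simp⟩]

theorem rep0_norm {r : E} (hr : r ∈ U.rep0) (h : r ≠ 0) : ‖r‖ = 1 :=
  le_antisymm (U.rep0_int r hr).2 (by
    by_contra hc
    exact h (rep0_eq_zero U hr (not_le.1 hc)))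

/-- two representatives of the same class are equal -/
theorem rep_unique {r s : E} (hr : r ∈ U.rep) (hs : s ∈ U.rep) (h : ‖r - s‖ < 1) : r = s := by
  obtain ⟨t, _, ht⟩ := U.rep_ex r (U.rep_int r hr)
  rw [ht r ⟨hr, by simp⟩, ht s ⟨hs, h⟩]

theorem rep0_unique {r s : E} (hr : r ∈ U.rep0) (hs : s ∈ U.rep0) (h : ‖r - s‖ < 1) : r = s := by
  obtain ⟨t, _, ht⟩ := U.rep0_ex r (U.rep0_int r hr).1 (U.rep0_int r hr).2
  rw [ht r ⟨hr, by simp⟩, ht s ⟨hs, h⟩]

/-- the representative of a class -/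
theorem exists_red : ∃ red : E → E, ∀ x, ‖x‖ ≤ 1 → red x ∈ U.rep ∧ ‖x - red x‖ < 1 := by
  classical
  refine ⟨fun x => if h : ‖x‖ ≤ 1 then (U.rep_ex x h).choose else 0, fun x hx => ?_⟩
  simp only [dif_pos hx]
  exact (U.rep_ex x hx).choose_spec.1

/-- fibres of the norm map over two units have comparable cardinalities -/
theorem fib_le {c c' : E} (hc : U.σ c = c) (hc1 : ‖c‖ = 1) (hc' : U.σ c' = c')
    (hc1' : ‖c'‖ = 1) :
    (U.rep.filter (fun r => ‖r * U.σ r - c‖ < 1)).card ≤
      (U.rep.filter (fun r => ‖r * U.σ r - c'‖ < 1)).card := by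
  have hc0 : c ≠ 0 := by
    rw [← norm_pos_iff, hc1]
    exact one_pos
  obtain ⟨a, ha, hac⟩ := U.nrm (c' / c) (by rw [map_div₀, hc, hc']) (by
    rw [norm_div, hc1, hc1', div_one])
  obtain ⟨red, hred⟩ := exists_red U
  have har : ∀ r ∈ U.rep, ‖a * r‖ ≤ 1 := by
    intro r hr
    rw [norm_mul, ha, one_mul]
    exact U.rep_int r hr
  refine Finset.card_le_card_of_injOn (fun r => red (a * r)) ?_ ?_
  · intro r hr
    rw [Finset.mem_coe, Finset.mem_filter] at hr ⊢
    obtain ⟨hr, hr'⟩ := hr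
    obtain ⟨h1, h2⟩ := hred _ (har r hr)
    refine ⟨h1, ?_⟩
    have h3 : ‖red (a * r) * U.σ (red (a * r)) - (a * r) * U.σ (a * r)‖ < 1 := by
      refine mul_sub_lt U (har r hr) ?_ ?_ ?_
      · rw [U.σn]
        exact U.rep_int _ h1
      · rw [norm_sub_rev]
        exact h2
      · rw [σ_sub_norm, norm_sub_rev]
        exact h2
    refine tri_lt U h3 ?_
    have e : (a * r) * U.σ (a * r) - c' = (c' / c) * (r * U.σ r - c) := by
      rw [map_mul, mul_sub, div_mul_cancel₀ _ hc0, hac]
      ring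
    rw [e, norm_mul, norm_div, hc1, hc1', div_one, one_mul]
    exact hr'
  · intro r hr r' hr' h
    rw [Finset.mem_coe, Finset.mem_filter] at hr hr'
    obtain ⟨h1, h2⟩ := hred _ (har r hr.1)
    obtain ⟨h1', h2'⟩ := hred _ (har r' hr'.1)
    simp only at h
    rw [← h, norm_sub_rev] at h2'
    have h3 := tri_lt U h2 h2'
    rw [← mul_sub, norm_mul, ha, one_mul] at h3
    exact rep_unique U hr.1 hr'.1 h3

end NrmM

open NrmM in
theorem specNrm : SpecNrm := by
  classical
  intro E _ U c hc hc1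
  have hfib : ∀ c' ∈ U.rep0.erase 0,
      (U.rep.filter (fun r => ‖r * U.σ r - c'‖ < 1)).card =
        (U.rep.filter (fun r => ‖r * U.σ r - c‖ < 1)).card := by
    intro c' hc'
    rw [Finset.mem_erase] at hc'
    have h1 := (U.rep0_int c' hc'.2).1
    have h2 := rep0_norm U hc'.2 hc'.1
    exact le_antisymm (fib_le U h1 h2 hc hc1) (fib_le U hc hc1 h1 h2)
  have hpart : U.rep.erase 0 =
      (U.rep0.erase 0).biUnion fun c' => U.rep.filter (fun r => ‖r * U.σ r - c'‖ < 1) := by
    ext r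
    simp only [Finset.mem_erase, Finset.mem_biUnion, Finset.mem_filter]
    constructor
    · rintro ⟨h0, hr⟩
      have h1 := rep_norm U hr h0
      have h2 : U.σ (r * U.σ r) = r * U.σ r := by rw [map_mul, U.σσ, mul_comm]
      have h3 : ‖r * U.σ r‖ = 1 := by rw [norm_mul, U.σn, h1, one_mul]
      obtain ⟨c', ⟨hc', hcc⟩, _⟩ := U.rep0_ex _ h2 h3.le
      refine ⟨c', ⟨?_, hc'⟩, hr, hcc⟩
      rintro rfl
      rw [sub_zero, h3] at hcc
      exact lt_irrefl _ hcc
    · rintro ⟨c', ⟨h0, hc'⟩, hr, hcc⟩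
      refine ⟨?_, hr⟩
      rintro rfl
      rw [zero_mul, zero_sub, norm_neg, rep0_norm U hc' h0] at hcc
      exact lt_irrefl _ hcc
  have hdisj : ∀ x ∈ U.rep0.erase 0, ∀ y ∈ U.rep0.erase 0, x ≠ y →
      Disjoint (U.rep.filter (fun r => ‖r * U.σ r - x‖ < 1))
        (U.rep.filter (fun r => ‖r * U.σ r - y‖ < 1)) := by
    intro x hx y hy hxy
    rw [Finset.disjoint_left]
    intro r hr hr'
    rw [Finset.mem_filter] at hr hr'
    rw [Finset.mem_erase] at hx hy
    apply hxy
    refine rep0_unique U hx.2 hy.2 ?_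
    refine tri_lt U (y := r * U.σ r) ?_ hr'.2
    rw [norm_sub_rev]
    exact hr.2
  have hcard := congrArg Finset.card hpart
  rw [Finset.card_biUnion hdisj, Finset.sum_congr rfl hfib, Finset.sum_const, smul_eq_mul,
    Finset.card_erase_of_mem U.rep_zero, Finset.card_erase_of_mem U.rep0_zero, U.rep_card,
    U.rep0_card] at hcard
  have hq := U.q3
  obtain ⟨m, hm⟩ : ∃ m, U.q = m + 2 := ⟨U.q - 2, by omega⟩
  rw [hm] at hcard ⊢
  have e : (m + 2) ^ 2 - 1 = (m + 2 - 1) * (m + 2 + 1) := by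
    have : (m + 2) ^ 2 = (m + 1) * (m + 3) + 1 := by ring
    rw [this]
    simp
  rw [e] at hcard
  have hpos : 0 < m + 2 - 1 := by omega
  exact (Nat.eq_of_mul_eq_mul_left hpos hcard).symm

end MPtg
end

section
/-!
# MP_3d2757_nt : module HPAIR
-/
open Finset

namespace MPtg

namespace HpairM

variable {E : Type} [NormedField E] {U : Unr E} {V : Type} [AddCommGroup V] [Module E V]
  (h : SkF U V)

/-! ### the form -/

theorem add_right (a b c : V) : h.h a (b + c) = h.h a b + h.h a c := by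
  rw [h.skew (b + c) a, h.add, map_add, h.skew b a, h.skew c a]
  ring

theorem smul_right (x : E) (a b : V) : h.h a (x • b) = U.σ x * h.h a b := by
  rw [h.skew (x • b) a, h.smul, map_mul, h.skew b a]
  ring

theorem zero_left (a : V) : h.h 0 a = 0 := by
  have := h.smul 0 0 a
  rwa [zero_smul, zero_mul] at this

theorem zero_right (a : V) : h.h a 0 = 0 := by
  rw [h.skew 0 a, zero_left, map_zero, neg_zero]

theorem neg_left (a b : V) : h.h (-a) b = -h.h a b := by
  have := h.smul (-1) a b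
  rwa [neg_one_smul, neg_one_mul] at this

theorem sub_left (a b c : V) : h.h (a - b) c = h.h a c - h.h b c := by
  rw [sub_eq_add_neg, h.add, neg_left, sub_eq_add_neg]

theorem neg_right (a b : V) : h.h a (-b) = -h.h a b := by
  rw [h.skew (-b) a, neg_left, map_neg, h.skew b a]

theorem sub_right (a b c : V) : h.h a (b - c) = h.h a b - h.h a c := by
  rw [sub_eq_add_neg, add_right, neg_right, sub_eq_add_neg]

/-- the value on the diagonal is skew -/
theorem self_skew (v : V) : U.σ (h.h v v) = -h.h v v := by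
  rw [eq_neg_iff_add_eq_zero, add_comm, ← eq_neg_iff_add_eq_zero]
  exact h.skew v v

/-- the value at `v + x w` -/
theorem self_add (v w : V) (x : E) : h.h (v + x • w) (v + x • w) =
    h.h v v + U.σ x * h.h v w + x * h.h w v + x * U.σ x * h.h w w := by
  rw [h.add, add_right, add_right, h.smul, h.smul, smul_right, smul_right]
  ring

theorem two_ne (U : Unr E) : (2 : E) ≠ 0 := by
  rw [← norm_pos_iff, U.two]
  exact one_pos

theorem norm_half (U : Unr E) (x : E) : ‖x / 2‖ = ‖x‖ := by
  rw [norm_div, U.two, div_one]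

/-- discreteness -/
theorem lt_one_iff (U : Unr E) {x : E} (hx : ‖x‖ < 1) : ‖x‖ ≤ ‖U.ϖ‖ := by
  by_cases h0 : x = 0
  · rw [h0, norm_zero]
    exact norm_nonneg _
  · obtain ⟨k, hk⟩ := U.disc x h0
    rw [hk] at hx ⊢
    have h1 : 1 ≤ k := by
      by_contra hc
      have h2 : k ≤ 0 := by omega
      have : (1 : ℝ) ≤ ‖U.ϖ‖ ^ k := by
        have h3 := zpow_le_zpow_right_of_le_one₀ U.ϖpos U.ϖlt.le h2
        rwa [zpow_zero] at h3
      linarith
    have h3 := zpow_le_zpow_right_of_le_one₀ U.ϖpos U.ϖlt.le h1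
    rwa [zpow_one] at h3

theorem ϖ_ne (U : Unr E) : U.ϖ ≠ 0 := norm_pos_iff.1 U.ϖpos

theorem mem_box0 {k : ℕ} {b : Fin k → V} {v : V} :
    v ∈ box U b 0 ↔ ∃ c : Fin k → E, (∀ i, ‖c i‖ ≤ 1) ∧ v = ∑ i, c i • b i := by
  constructor
  · rintro ⟨c, hc, hv⟩
    exact ⟨c, fun i => by simpa using hc i, hv⟩
  · rintro ⟨c, hc, hv⟩
    exact ⟨c, fun i => by simpa using hc i, hv⟩

/-- a vector with a unit coefficient is primitive -/
theorem prim_of_coeff {k : ℕ} {b : Fin k → V} (hb : LinearIndependent E b) {v : V}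
    (c : Fin k → E) (hc : ∀ i, ‖c i‖ ≤ 1) (i₀ : Fin k) (hi : ‖c i₀‖ = 1)
    (hv : v = ∑ i, c i • b i) : v ∈ Prim U (box U b 0) := by
  refine ⟨mem_box0.2 ⟨c, hc, hv⟩, fun w hw hvw => ?_⟩
  obtain ⟨d, hd, hwd⟩ := mem_box0.1 hw
  have h1 : ∑ i, (c i - U.ϖ * d i) • b i = 0 := by
    simp only [sub_smul, mul_smul, Finset.sum_sub_distrib]
    rw [← hv, hvw, hwd, Finset.smul_sum, sub_self]
  have h2 := (Fintype.linearIndependent_iff.1 hb) _ h1 i₀
  rw [sub_eq_zero] at h2
  rw [h2, norm_mul] at hi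
  have h3 : ‖U.ϖ‖ * ‖d i₀‖ ≤ ‖U.ϖ‖ * 1 := by
    have := hd i₀
    gcongr
  have := U.ϖlt
  linarith

/-- a vector with an isotropic partner -/
theorem part2 (hBox : SpecBox) (hSdl : SpecSdl) {k : ℕ} {M : AddSubgroup V} (hM : SD U h M k)
    {v : V} (hv : v ∈ Prim U M) (hvv : h.h v v = 0) : ∃ f ∈ M, h.h f f = 0 ∧ h.h v f = 1 := by
  obtain ⟨s1, _, _, _, s5⟩ := hSdl E U V h k M hM
  obtain ⟨w, hw, hvw⟩ := s5 v hv
  obtain ⟨b, _, hMb⟩ := id hM
  have hsm : ∀ (x : E) (u : V), ‖x‖ ≤ 1 → u ∈ M → x • u ∈ M := by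
    intro x u hx hu
    rw [hMb] at hu ⊢
    exact (hBox E U V k b).1 0 x u hx hu
  have hwv : h.h w v = -1 := by rw [h.skew v w, hvw, map_one]
  refine ⟨w + (-(h.h w w / 2)) • v, ?_, ?_, ?_⟩
  · refine M.add_mem hw (hsm _ _ ?_ hv.1)
    rw [norm_neg, norm_half U]
    exact s1 w hw w hw
  · rw [self_add, hwv, hvw, hvv, map_neg, map_div₀, self_skew, map_ofNat]
    have := two_ne U
    field_simp
    ring
  · rw [add_right, smul_right, hvv, hvw]
    ring

/-- lifting an almost isotropic vector -/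
theorem part3 (hBox : SpecBox) (hSdl : SpecSdl) {k : ℕ} {M : AddSubgroup V} (hM : SD U h M k)
    {v : V} (hv : v ∈ Prim U M) (m : ℕ) (hm : 1 ≤ m) (hvv : ‖h.h v v‖ ≤ ‖U.ϖ‖ ^ m) :
    ∃ w ∈ M, v + (U.ϖ ^ m) • w ∈ Prim U M ∧
      h.h (v + (U.ϖ ^ m) • w) (v + (U.ϖ ^ m) • w) = 0 := by
  obtain ⟨s1, _, _, _, s5⟩ := hSdl E U V h k M hM
  obtain ⟨w, hw, hvw⟩ := s5 v hv
  obtain ⟨b, _, hMb⟩ := id hM
  have hsm : ∀ (x : E) (u : V), ‖x‖ ≤ 1 → u ∈ M → x • u ∈ M := by
    intro x u hx hu
    rw [hMb] at hu ⊢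
    exact (hBox E U V k b).1 0 x u hx hu
  have hwv : h.h w v = -1 := by rw [h.skew v w, hvw, map_one]
  set α := h.h v v with hα
  set β := h.h w w with hβ
  have hσα : U.σ α = -α := self_skew h v
  have hσβ : U.σ β = -β := self_skew h w
  have hβ1 : ‖β‖ ≤ 1 := s1 w hw w hw
  have h2 := two_ne U
  have hϖm : ‖U.ϖ‖ ^ m < 1 := pow_lt_one₀ U.ϖpos.le U.ϖlt (by omega)
  -- the skew solution
  obtain ⟨x, hxσ, hxn, hxe⟩ : ∃ x : E, U.σ x = -x ∧ ‖x‖ ≤ ‖α‖ ∧ α - 2 * x - β * x ^ 2 = 0 := by
    by_cases hβ0 : β = 0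
    · refine ⟨α / 2, ?_, (norm_half U α).le, ?_⟩
      · rw [map_div₀, hσα, map_ofNat]
        ring
      · rw [hβ0]
        field_simp
        ring
    · obtain ⟨z, hz1, hz2, hz3⟩ := U.sq (1 + α * β) (by rw [map_add, map_mul, hσα, hσβ, map_one]; ring)
        (by
          rw [add_sub_cancel_left, norm_mul]
          calc ‖α‖ * ‖β‖ ≤ ‖α‖ * 1 := by gcongr
            _ < 1 := by linarith)
      refine ⟨(z - 1) / β, ?_, ?_, ?_⟩
      · rw [map_div₀, map_sub, hz1, map_one, hσβ]
        rw [div_neg]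
      · rw [norm_div, hz3, add_sub_cancel_left, norm_mul]
        rw [mul_div_assoc, div_self (by rwa [ne_eq, norm_eq_zero]), mul_one]
      · field_simp
        linear_combination (-1 : E) * hz2
  obtain ⟨y, hy, hyx⟩ : ∃ y : E, ‖y‖ ≤ 1 ∧ U.ϖ ^ m * y = x := by
    refine ⟨x / U.ϖ ^ m, ?_, ?_⟩
    · rw [norm_div, norm_pow, div_le_one (pow_pos U.ϖpos m)]
      exact hxn.trans hvv
    · rw [mul_div_cancel₀]
      exact pow_ne_zero _ (ϖ_ne U)
  have hyw : y • w ∈ M := hsm y w hy hw
  have hpm : ∀ n : ℕ, ∀ u ∈ M, (U.ϖ ^ n) • u ∈ M := by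
    intro n u hu
    refine hsm _ _ ?_ hu
    rw [norm_pow]
    exact pow_le_one₀ U.ϖpos.le U.ϖlt.le
  refine ⟨y • w, hyw, ⟨M.add_mem hv.1 (hpm m _ hyw), fun w' hw' he => ?_⟩, ?_⟩
  · refine hv.2 (w' - (U.ϖ ^ (m - 1)) • (y • w)) (M.sub_mem hw' (hpm _ _ hyw)) ?_
    have e : U.ϖ • U.ϖ ^ (m - 1) • y • w = U.ϖ ^ m • y • w := by
      rw [smul_smul, ← pow_succ', show m - 1 + 1 = m by omega]
    rw [smul_sub, ← he, e, add_sub_cancel_right]
  · rw [smul_smul, hyx, self_add, hvw, hwv, hxσ]
    linear_combination hxe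

end HpairM

open HpairM in
theorem specHpair (hBox : SpecBox) (hSdl : SpecSdl) : SpecHpair := by
  intro E _ U V _ _ h k M hM
  refine ⟨fun hk => ?_, fun v hv hvv => part2 h hBox hSdl hM hv hvv,
    fun v hv m hm hvv => part3 h hBox hSdl hM hv m hm hvv⟩
  -- it suffices to find an almost isotropic primitive vector
  suffices hs : ∃ v ∈ Prim U M, ‖h.h v v‖ < 1 by
    obtain ⟨v, hv, hvv⟩ := hs
    obtain ⟨w, _, h1, h2⟩ := part3 h hBox hSdl hM hv 1 le_rfl (by
      rw [pow_one]
      exact lt_one_iff U hvv)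
    obtain ⟨f, hf, h3, h4⟩ := part2 h hBox hSdl hM h1 h2
    exact ⟨_, h1.1, f, hf, h2, h3, h4⟩
  obtain ⟨s1, _, s3, _, _⟩ := hSdl E U V h k M hM
  obtain ⟨b, hb, hMb⟩ := id hM
  have hli := s3 b hb
  obtain ⟨k, rfl⟩ : ∃ k', k = k' + 2 := ⟨k - 2, by omega⟩
  have hb0 : b 0 ∈ Prim U M := by
    rw [hMb]
    refine prim_of_coeff hli (fun i => if i = 0 then 1 else 0) ?_ 0 (by simp) (by simp)
    intro i
    split_ifs <;> simp
  have hb1 : b 1 ∈ Prim U M := by
    rw [hMb]
    refine prim_of_coeff hli (fun i => if i = 1 then 1 else 0) ?_ 1 (by simp) (by simp)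
    intro i
    split_ifs <;> simp
  by_cases h0 : ‖h.h (b 0) (b 0)‖ < 1
  · exact ⟨b 0, hb0, h0⟩
  have h0' : ‖h.h (b 0) (b 0)‖ = 1 := le_antisymm (s1 _ hb0.1 _ hb0.1) (not_lt.1 h0)
  set v1 := b 0 with hv1
  set α := h.h v1 v1 with hα
  have hα0 : α ≠ 0 := by
    rw [← norm_pos_iff, h0']
    exact one_pos
  set y := -(h.h (b 1) v1 / α) with hy
  have hy1 : ‖y‖ ≤ 1 := by
    rw [hy, norm_neg, norm_div, h0', div_one]
    exact s1 _ hb1.1 _ hb0.1
  -- all vectors `b 1 + x b 0` with `x` integral are primitive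
  have hprim : ∀ x : E, ‖x‖ ≤ 1 → b 1 + x • v1 ∈ Prim U M := by
    intro x hx
    rw [hMb]
    refine prim_of_coeff hli (fun i => if i = 0 then x else if i = 1 then 1 else 0) ?_ 1
      (by simp) ?_
    · intro i
      split_ifs <;> simp [hx]
    · rw [Fin.sum_univ_succ, Fin.sum_univ_succ]
      simp [Fin.succ_ne_zero, hv1]
      rw [add_comm]
      have e : (∑ i : Fin k, if i.succ.succ = 1 then b i.succ.succ else 0) = 0 := by
        refine Finset.sum_eq_zero fun i _ => ?_
        rw [if_neg]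
        intro he
        have := congrArg Fin.val he
        simp at this
      rw [e, add_zero]
  set v2 := b 1 + y • v1 with hv2
  have hv21 : h.h v2 v1 = 0 := by
    rw [hv2, h.add, h.smul, hy, ← hα]
    field_simp
    ring
  have hv12 : h.h v1 v2 = 0 := by rw [h.skew v2 v1, hv21, map_zero, neg_zero]
  by_cases h2 : ‖h.h v2 v2‖ < 1
  · exact ⟨v2, hprim y hy1, h2⟩
  have hv2M := (hprim y hy1).1
  have h2' : ‖h.h v2 v2‖ = 1 := le_antisymm (s1 _ hv2M _ hv2M) (not_lt.1 h2)
  obtain ⟨x, hx, hxx⟩ := U.nrm (-(h.h v2 v2) / α)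
    (by
      rw [map_div₀, map_neg, self_skew, hα, self_skew]
      rw [neg_neg, div_neg, neg_div])
    (by rw [norm_div, norm_neg, h2', h0', div_one])
  refine ⟨v2 + x • v1, ?_, ?_⟩
  · have e : v2 + x • v1 = b 1 + (y + x) • v1 := by
      rw [hv2, add_smul, add_assoc]
    rw [e]
    exact hprim _ (NrmM.add_le' U hy1 hx.le)
  · have e : h.h (v2 + x • v1) (v2 + x • v1) = 0 := by
      rw [self_add, hv21, hv12, ← hα, ← hxx]
      field_simp
      ring
    rw [e, norm_zero]
    exact one_pos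

end MPtg
end

section
/-!
# MP_3d2757_nt : orthogonal bases of self-dual lattices
-/
open Finset

namespace MPtg

namespace OrthM

open HpairM NrmM

variable {E : Type} [NormedField E] {U : Unr E} {V : Type} [AddCommGroup V] [Module E V]
  (h : SkF U V)

/-- a subgroup closed under integral scalars which contains the family contains the box -/
theorem box_le {k : ℕ} {b : Fin k → V} {N : AddSubgroup V}
    (hN : ∀ (x : E) (v : V), ‖x‖ ≤ 1 → v ∈ N → x • v ∈ N) (hb : ∀ i, b i ∈ N) :
    box U b 0 ≤ N := by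
  intro v hv
  obtain ⟨c, hc, rfl⟩ := mem_box0.1 hv
  exact N.sum_mem fun i _ => hN _ _ (hc i) (hb i)

theorem mem_self {k : ℕ} {b : Fin k → V} (i : Fin k) : b i ∈ box U b 0 := by
  refine mem_box0.2 ⟨fun j => if j = i then 1 else 0, fun j => ?_, ?_⟩
  · by_cases hj : j = i <;> simp [hj]
  · simp

theorem smul_mem_box {k : ℕ} {b : Fin k → V} (x : E) (v : V) (hx : ‖x‖ ≤ 1)
    (hv : v ∈ box U b 0) : x • v ∈ box U b 0 := by
  obtain ⟨c, hc, rfl⟩ := mem_box0.1 hv
  refine mem_box0.2 ⟨fun i => x * c i, fun i => ?_, ?_⟩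
  · rw [norm_mul]
    exact mul_le_one₀ hx (norm_nonneg _) (hc i)
  · rw [Finset.smul_sum]
    exact Finset.sum_congr rfl fun i _ => (mul_smul _ _ _).symm

theorem box_eq {k k' : ℕ} {b : Fin k → V} {b' : Fin k' → V} (h1 : ∀ i, b i ∈ box U b' 0)
    (h2 : ∀ i, b' i ∈ box U b 0) : box U b 0 = box U b' 0 :=
  le_antisymm (box_le smul_mem_box h1) (box_le smul_mem_box h2)

/-- exchange and reorder -/
theorem exists_cons (hBox : SpecBox) {k : ℕ} {b : Fin (k + 1) → V} (hb : LinearIndependent E b)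
    {v : V} (c : Fin (k + 1) → E) (hc : ∀ i, ‖c i‖ ≤ 1) (i₀ : Fin (k + 1)) (hi : ‖c i₀‖ = 1)
    (hv : v = ∑ i, c i • b i) : ∃ b' : Fin k → V,
      LinearIndependent E (Fin.cons v b' : Fin (k + 1) → V) ∧
        box U (Fin.cons v b' : Fin (k + 1) → V) 0 = box U b 0 := by
  set e : Equiv.Perm (Fin (k + 1)) := Equiv.swap 0 i₀ with he
  have h1 : LinearIndependent E (b ∘ e) := hb.comp _ e.injective
  have h2 : v = ∑ i, (c ∘ e) i • (b ∘ e) i := by
    rw [hv]
    exact (Equiv.sum_comp e fun i => c i • b i).symm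
  obtain ⟨h3, h4⟩ := (hBox E U V (k + 1) (b ∘ e)).2.2.2.2.2.2.2 v 0 (c ∘ e) h1 h2
    (fun i => hc _) (by simp [he, hi])
  have h5 : Function.update (b ∘ e) 0 v = (Fin.cons v (Fin.tail (b ∘ e)) : Fin (k + 1) → V) := by
    funext i
    refine Fin.cases ?_ (fun j => ?_) i
    · simp
    · rw [Function.update_of_ne (Fin.succ_ne_zero j), Fin.cons_succ]
      rfl
  rw [h5] at h3 h4
  refine ⟨_, h3, h4.trans ?_⟩
  refine box_eq (fun i => mem_self _) (fun i => ?_)
  have : b i = (b ∘ e) (e.symm i) := by simp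
  rw [this]
  exact mem_self _

/-- adding multiples of the first vector to the others -/
theorem cons_add {k : ℕ} {b : Fin k → V} {v : V}
    (hb : LinearIndependent E (Fin.cons v b : Fin (k + 1) → V)) (y : Fin k → E)
    (hy : ∀ i, ‖y i‖ ≤ 1) :
    LinearIndependent E (Fin.cons v (fun i => b i + y i • v) : Fin (k + 1) → V) ∧
      box U (Fin.cons v (fun i => b i + y i • v) : Fin (k + 1) → V) 0 =
        box U (Fin.cons v b : Fin (k + 1) → V) 0 := by
  constructor
  · rw [Fintype.linearIndependent_iff] at hb ⊢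
    intro g hg
    have h1 : ∑ i, (Fin.cons (g 0 + ∑ i : Fin k, g i.succ * y i) (Fin.tail g) :
        Fin (k + 1) → E) i • (Fin.cons v b : Fin (k + 1) → V) i = 0 := by
      rw [← hg, Fin.sum_univ_succ, Fin.sum_univ_succ]
      simp only [Fin.cons_zero, Fin.cons_succ, add_smul, Finset.sum_smul, smul_add,
        Finset.sum_add_distrib, Fin.tail, mul_smul]
      abel
    have h2 := hb _ h1
    have h3 : ∀ i : Fin k, g i.succ = 0 := fun i => h2 i.succ
    have h4 := h2 0
    simp only [Fin.cons_zero, h3, zero_mul, Finset.sum_const_zero, add_zero] at h4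
    intro i
    refine Fin.cases h4 (fun j => h3 j) i
  · refine box_eq (fun i => ?_) (fun i => ?_)
    · refine Fin.cases ?_ (fun j => ?_) i
      · exact mem_self (b := (Fin.cons v b : Fin (k + 1) → V)) 0
      · rw [Fin.cons_succ]
        exact (box U _ 0).add_mem (mem_self (b := (Fin.cons v b : Fin (k + 1) → V)) j.succ)
          (smul_mem_box _ _ (hy j) (mem_self (b := (Fin.cons v b : Fin (k + 1) → V)) 0))
    · refine Fin.cases ?_ (fun j => ?_) i
      · exact mem_self (b := (Fin.cons v (fun i => b i + y i • v) : Fin (k + 1) → V)) 0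
      · rw [Fin.cons_succ]
        have : b j = (b j + y j • v) + (-y j) • v := by
          rw [neg_smul, add_neg_cancel_right]
        rw [this]
        exact (box U _ 0).add_mem
          (mem_self (b := (Fin.cons v (fun i => b i + y i • v) : Fin (k + 1) → V)) j.succ)
          (smul_mem_box _ _ (by rw [norm_neg]; exact hy j)
            (mem_self (b := (Fin.cons v (fun i => b i + y i • v) : Fin (k + 1) → V)) 0))

/-- the Gram determinant of a family whose first vector is orthogonal to the others -/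
theorem det_cons {k : ℕ} {b : Fin k → V} {v : V} (hv : ∀ i, h.h v (b i) = 0) :
    (Matrix.of fun i j => h.h ((Fin.cons v b : Fin (k + 1) → V) i)
      ((Fin.cons v b : Fin (k + 1) → V) j)).det =
      h.h v v * (Matrix.of fun i j => h.h (b i) (b j)).det := by
  rw [Matrix.det_succ_row_zero, Fin.sum_univ_succ, Finset.sum_eq_zero, add_zero]
  · simp only [Matrix.of_apply, Fin.cons_zero, Fin.val_zero, pow_zero, one_mul]
    congr 2
  · intro i _
    simp only [Matrix.of_apply, Fin.cons_zero, Fin.cons_succ, hv, mul_zero, zero_mul]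

/-- a vector of unit length -/
theorem exists_unit (hSdl : SpecSdl) {k : ℕ} {M : AddSubgroup V}
    (hM : SD U h M (k + 1)) : ∃ v ∈ M, ‖h.h v v‖ = 1 := by
  obtain ⟨s1, _, s3, _, s5⟩ := hSdl E U V h (k + 1) M hM
  obtain ⟨b, hb, hMb⟩ := id hM
  have hli := s3 b hb
  have hb0 : b 0 ∈ Prim U M := by
    rw [hMb]
    refine prim_of_coeff hli (fun i => if i = 0 then 1 else 0) ?_ 0 (by simp) (by simp)
    intro i
    split_ifs <;> simp
  obtain ⟨w, hw, hvw⟩ := s5 _ hb0
  have hwv : h.h w (b 0) = -1 := by rw [h.skew (b 0) w, hvw, map_one]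
  have hδw : U.δ • w ∈ M := by
    rw [hMb] at hw ⊢
    exact smul_mem_box _ _ U.δn.le hw
  have hsum : b 0 + U.δ • w ∈ M := M.add_mem hb0.1 hδw
  by_contra hc
  push Not at hc
  have hlt : ∀ v ∈ M, ‖h.h v v‖ < 1 := fun v hv => lt_of_le_of_ne (s1 v hv v hv) (hc v hv)
  have h1 := hlt _ hsum
  rw [self_add, hvw, hwv, U.σδ] at h1
  have h2 : ‖U.δ * -U.δ * h.h w w‖ < 1 := by
    rw [norm_mul, norm_mul, norm_neg, U.δn, one_mul, one_mul]
    exact hlt w hw
  have h3 := sub_lt U (sub_lt U h1 (hlt _ hb0.1)) h2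
  have e : h.h (b 0) (b 0) + -U.δ * 1 + U.δ * -1 + U.δ * -U.δ * h.h w w - h.h (b 0) (b 0) -
      U.δ * -U.δ * h.h w w = -(2 * U.δ) := by ring
  rw [e, norm_neg, norm_mul, U.two, U.δn, one_mul] at h3
  exact lt_irrefl _ h3

/-- orthogonal basis -/
theorem exists_orth (hBox : SpecBox) (hSdl : SpecSdl) (k : ℕ) : ∀ (M : AddSubgroup V),
    SD U h M k → ∃ b : Fin k → V, SDB U h b ∧ M = box U b 0 ∧
      ∀ i j, i ≠ j → h.h (b i) (b j) = 0 := by
  induction k with
  | zero =>
    rintro M ⟨b, hb, hMb⟩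
    exact ⟨b, hb, hMb, fun i => i.elim0⟩
  | succ k ih =>
    intro M hM
    obtain ⟨s1, _, s3, s4, _⟩ := hSdl E U V h (k + 1) M hM
    obtain ⟨b, hb, hMb⟩ := id hM
    have hli := s3 b hb
    obtain ⟨v, hv, hvv⟩ := exists_unit h hSdl hM
    have hv0 : h.h v v ≠ 0 := by
      rw [← norm_pos_iff, hvv]
      exact one_pos
    obtain ⟨c, hc, hvc⟩ := mem_box0.1 (hMb ▸ hv)
    -- some coefficient is a unit
    have hunit : ∃ i₀, ‖c i₀‖ = 1 := by
      by_contra hcon
      push Not at hcon
      have hlt : ∀ i, ‖c i‖ ≤ ‖U.ϖ‖ := fun i =>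
        lt_one_iff U (lt_of_le_of_ne (hc i) (hcon i))
      have h1 : v = U.ϖ • ∑ i, (c i / U.ϖ) • b i := by
        rw [Finset.smul_sum, hvc]
        refine Finset.sum_congr rfl fun i _ => ?_
        rw [smul_smul, mul_div_cancel₀ _ (ϖ_ne U)]
      have h2 : ∑ i, (c i / U.ϖ) • b i ∈ M := by
        rw [hMb]
        refine mem_box0.2 ⟨_, fun i => ?_, rfl⟩
        rw [norm_div, div_le_one U.ϖpos]
        exact hlt i
      have h3 : h.h v v = U.ϖ * h.h (∑ i, (c i / U.ϖ) • b i) v := by
        conv_lhs => rw [h1, h.smul, ← h1]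
      rw [h3, norm_mul] at hvv
      have h4 := s1 _ h2 v hv
      have h5 : ‖U.ϖ‖ * ‖h.h (∑ i, (c i / U.ϖ) • b i) v‖ ≤ ‖U.ϖ‖ * 1 := by gcongr
      have := U.ϖlt
      linarith
    obtain ⟨i₀, hi⟩ := hunit
    obtain ⟨b', hb'1, hb'2⟩ := exists_cons (U := U) hBox hli c hc i₀ hi hvc
    have hM' : M = box U (Fin.cons v b' : Fin (k + 1) → V) 0 := hMb.trans hb'2.symm
    have hb'M : ∀ i, b' i ∈ M := by
      intro i
      rw [hM']
      exact mem_self (b := (Fin.cons v b' : Fin (k + 1) → V)) i.succ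
    obtain ⟨hc1, hc2⟩ := cons_add (U := U) hb'1 (fun i => -(h.h (b' i) v / h.h v v)) (by
      intro i
      rw [norm_neg, norm_div, hvv, div_one]
      exact s1 _ (hb'M i) v hv)
    set b₂ : Fin k → V := fun i => b' i + (-(h.h (b' i) v / h.h v v)) • v with hb₂
    have hM₂ : M = box U (Fin.cons v b₂ : Fin (k + 1) → V) 0 := hM'.trans hc2.symm
    have horth : ∀ i, h.h (b₂ i) v = 0 := by
      intro i
      rw [hb₂]
      simp only
      rw [h.add, h.smul]
      field_simp
      ring
    have horth' : ∀ i, h.h v (b₂ i) = 0 := by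
      intro i
      rw [h.skew (b₂ i) v, horth, map_zero, neg_zero]
    obtain ⟨g1, g2⟩ := s4 _ hc1 hM₂
    rw [det_cons h horth', norm_mul, hvv, one_mul] at g2
    have hSD : SD U h (box U b₂ 0) k := ⟨b₂, ⟨fun i j => g1 i.succ j.succ, g2⟩, rfl⟩
    obtain ⟨c', hc'1, hc'2, hc'3⟩ := ih _ hSD
    have hvc' : ∀ i, h.h v (c' i) = 0 := by
      have hker : ∀ w ∈ box U b₂ 0, h.h v w = 0 := by
        intro w hw
        obtain ⟨d, _, rfl⟩ := mem_box0.1 hw
        have : ∀ s : Finset (Fin k), h.h v (∑ i ∈ s, d i • b₂ i) = 0 := by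
          intro s
          induction s using Finset.induction_on with
          | empty => rw [Finset.sum_empty, zero_right]
          | insert i s hi ih2 =>
            rw [Finset.sum_insert hi, add_right, ih2, smul_right, horth', mul_zero, add_zero]
        exact this _
      intro i
      refine hker _ ?_
      rw [hc'2]
      exact mem_self i
    have hc'v : ∀ i, h.h (c' i) v = 0 := by
      intro i
      rw [h.skew v (c' i), hvc', map_zero, neg_zero]
    refine ⟨(Fin.cons v c' : Fin (k + 1) → V), ⟨?_, ?_⟩, ?_, ?_⟩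
    · intro i j
      refine Fin.cases ?_ (fun i' => ?_) i
      · refine Fin.cases ?_ (fun j' => ?_) j
        · exact hvv.le
        · simp only [Fin.cons_zero, Fin.cons_succ, hvc', norm_zero]
          exact zero_le_one
      · refine Fin.cases ?_ (fun j' => ?_) j
        · simp only [Fin.cons_zero, Fin.cons_succ, hc'v, norm_zero]
          exact zero_le_one
        · exact hc'1.1 i' j'
    · rw [det_cons h hvc', norm_mul, hvv, one_mul]
      exact hc'1.2
    · rw [hM₂]
      refine box_eq (fun i => ?_) (fun i => ?_)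
      · refine Fin.cases ?_ (fun j => ?_) i
        · exact mem_self (b := (Fin.cons v c' : Fin (k + 1) → V)) 0
        · rw [Fin.cons_succ]
          have h1 : b₂ j ∈ box U c' 0 := hc'2 ▸ mem_self j
          exact box_le smul_mem_box
            (fun i => mem_self (b := (Fin.cons v c' : Fin (k + 1) → V)) i.succ) h1
      · refine Fin.cases ?_ (fun j => ?_) i
        · exact mem_self (b := (Fin.cons v b₂ : Fin (k + 1) → V)) 0
        · rw [Fin.cons_succ]
          have h1 : c' j ∈ box U b₂ 0 := hc'2 ▸ mem_self j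
          exact box_le smul_mem_box
            (fun i => mem_self (b := (Fin.cons v b₂ : Fin (k + 1) → V)) i.succ) h1
    · intro i j hij
      induction i using Fin.cases with
      | zero =>
        induction j using Fin.cases with
        | zero => exact absurd rfl hij
        | succ j' => simpa using hvc' j'
      | succ i' =>
        induction j using Fin.cases with
        | zero => simpa using hc'v i'
        | succ j' =>
          simp only [Fin.cons_succ]
          exact hc'3 i' j' fun hne => hij (by rw [hne])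

/-- the diagonal entries of an orthogonal unimodular family are units -/
theorem orth_unit {k : ℕ} {b : Fin k → V} (hb : SDB U h b)
    (ho : ∀ i j, i ≠ j → h.h (b i) (b j) = 0) (i : Fin k) : ‖h.h (b i) (b i)‖ = 1 := by
  have h1 : (Matrix.of fun i j => h.h (b i) (b j)) =
      Matrix.diagonal fun i => h.h (b i) (b i) := by
    ext i j
    by_cases hij : i = j
    · subst hij
      simp
    · rw [Matrix.of_apply, Matrix.diagonal_apply_ne _ hij, ho i j hij]
  have h2 := hb.2
  rw [h1, Matrix.det_diagonal, norm_prod] at h2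
  refine le_antisymm (hb.1 i i) ?_
  rw [← h2, ← Finset.mul_prod_erase _ _ (Finset.mem_univ i)]
  have h3 : ∏ j ∈ Finset.univ.erase i, ‖h.h (b j) (b j)‖ ≤ 1 :=
    Finset.prod_le_one (fun j _ => norm_nonneg _) fun j _ => hb.1 j j
  calc ‖h.h (b i) (b i)‖ * ∏ j ∈ Finset.univ.erase i, ‖h.h (b j) (b j)‖
      ≤ ‖h.h (b i) (b i)‖ * 1 := by gcongr
    _ = ‖h.h (b i) (b i)‖ := mul_one _

end OrthM

end MPtg
end

section
/-!
# MP_3d2757_nt : module CNT0
-/
open Finset

namespace MPtg

namespace Cnt0M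

open HpairM NrmM OrthM

variable {E : Type} [NormedField E] {U : Unr E} {V : Type} [AddCommGroup V] [Module E V]
  (h : SkF U V)

theorem sum_left {k : ℕ} (b : Fin k → V) (x : Fin k → E) (w : V) :
    h.h (∑ i, x i • b i) w = ∑ i, x i * h.h (b i) w := by
  have : ∀ s : Finset (Fin k), h.h (∑ i ∈ s, x i • b i) w = ∑ i ∈ s, x i * h.h (b i) w := by
    intro s
    induction s using Finset.induction_on with
    | empty => rw [Finset.sum_empty, Finset.sum_empty, zero_left]
    | insert i s hi ih => rw [Finset.sum_insert hi, Finset.sum_insert hi, h.add, ih, h.smul]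
  exact this _

theorem sum_right {k : ℕ} (b : Fin k → V) (x : Fin k → E) (w : V) :
    h.h w (∑ i, x i • b i) = ∑ i, U.σ (x i) * h.h w (b i) := by
  have : ∀ s : Finset (Fin k), h.h w (∑ i ∈ s, x i • b i) = ∑ i ∈ s, U.σ (x i) * h.h w (b i) := by
    intro s
    induction s using Finset.induction_on with
    | empty => rw [Finset.sum_empty, Finset.sum_empty, zero_right]
    | insert i s hi ih => rw [Finset.sum_insert hi, Finset.sum_insert hi, add_right, ih, smul_right]
  exact this _

theorem self_orth {k : ℕ} {b : Fin k → V} (ho : ∀ i j, i ≠ j → h.h (b i) (b j) = 0)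
    (x : Fin k → E) : h.h (∑ i, x i • b i) (∑ i, x i • b i) =
      ∑ i, x i * U.σ (x i) * h.h (b i) (b i) := by
  rw [sum_left]
  refine Finset.sum_congr rfl fun i _ => ?_
  rw [sum_right, Finset.sum_eq_single i]
  · ring
  · intro j _ hj
    rw [ho i j (Ne.symm hj), mul_zero]
  · intro hi
    exact absurd (Finset.mem_univ i) hi

/-- classes modulo `ϖ M` in coordinates -/
theorem ncls_coord (hBox : SpecBox) {k : ℕ} {b : Fin k → V} (hb : LinearIndependent E b)
    (S : Set V) (hS : S ⊆ (box U b 0 : Set V))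
    (hinv : ∀ v ∈ S, ∀ w ∈ sc U 1 (box U b 0), v + w ∈ S) :
    ∃ F : Finset (Fin k → E), (∀ x, x ∈ F ↔ (∀ i, x i ∈ U.rep) ∧ ∑ i, x i • b i ∈ S) ∧
      ncls (sc U 1 (box U b 0)) S = F.card := by
  classical
  refine ⟨(Fintype.piFinset fun _ : Fin k => U.rep).filter fun x => ∑ i, x i • b i ∈ S,
    fun x => by rw [Finset.mem_filter, Fintype.mem_piFinset], ?_⟩
  have hH : sc U 1 (box U b 0) = box U b (fun i => (0 : Fin k → ℤ) i + 1) :=
    (hBox E U V k b).2.1 0 1
  have hmem : ∀ c : Fin k → E, (∀ i, ‖c i‖ < 1) → ∑ i, c i • b i ∈ sc U 1 (box U b 0) := by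
    intro c hc
    rw [hH]
    refine ⟨c, fun i => ?_, rfl⟩
    change ‖c i‖ ≤ ‖U.ϖ‖ ^ ((0 : ℤ) + 1)
    rw [zero_add, zpow_one]
    exact lt_one_iff U (hc i)
  have hmem' : ∀ c : Fin k → E, ∑ i, c i • b i ∈ sc U 1 (box U b 0) → ∀ i, ‖c i‖ < 1 := by
    intro c hc i
    rw [hH] at hc
    obtain ⟨d, hd, he⟩ := hc
    have h1 : ∑ i, (c i - d i) • b i = 0 := by
      simp only [sub_smul, Finset.sum_sub_distrib]
      rw [he, sub_self]
    have h2 := Fintype.linearIndependent_iff.1 hb _ h1 i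
    rw [sub_eq_zero] at h2
    rw [h2]
    refine (hd i).trans_lt ?_
    change ‖U.ϖ‖ ^ ((0 : ℤ) + 1) < 1
    rw [zero_add, zpow_one]
    exact U.ϖlt
  have himg : (QuotientAddGroup.mk : V → V ⧸ sc U 1 (box U b 0)) '' S =
      (fun x : Fin k → E => ((∑ i, x i • b i : V) : V ⧸ sc U 1 (box U b 0))) ''
        ((((Fintype.piFinset fun _ : Fin k => U.rep).filter fun x => ∑ i, x i • b i ∈ S) :
          Finset (Fin k → E)) : Set (Fin k → E)) := by
    ext z
    constructor
    · rintro ⟨v, hv, rfl⟩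
      obtain ⟨c, hc, hvc⟩ := mem_box0.1 (hS hv)
      obtain ⟨red, hred⟩ := exists_red U
      have h1 : ∑ i, (red (c i) - c i) • b i ∈ sc U 1 (box U b 0) := by
        refine hmem _ fun i => ?_
        rw [norm_sub_rev]
        exact (hred _ (hc i)).2
      have h2 : ∑ i, red (c i) • b i = v + ∑ i, (red (c i) - c i) • b i := by
        simp only [sub_smul, Finset.sum_sub_distrib]
        rw [← hvc]
        abel
      refine ⟨fun i => red (c i), ?_, ?_⟩
      · rw [Finset.mem_coe, Finset.mem_filter, Fintype.mem_piFinset]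
        refine ⟨fun i => (hred _ (hc i)).1, ?_⟩
        rw [h2]
        exact hinv v hv _ h1
      · change ((∑ i, red (c i) • b i : V) : V ⧸ sc U 1 (box U b 0)) = (v : V ⧸ _)
        rw [eq_comm, QuotientAddGroup.eq, h2]
        simpa using h1
    · rintro ⟨x, hx, rfl⟩
      rw [Finset.mem_coe, Finset.mem_filter] at hx
      exact ⟨_, hx.2, rfl⟩
  unfold ncls
  rw [himg, Set.InjOn.ncard_image, Set.ncard_coe_finset]
  intro x hx y hy hxy
  rw [Finset.mem_coe, Finset.mem_filter, Fintype.mem_piFinset] at hx hy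
  simp only at hxy
  rw [QuotientAddGroup.eq] at hxy
  have h1 : -∑ i, x i • b i + ∑ i, y i • b i = ∑ i, (y i - x i) • b i := by
    simp only [sub_smul, Finset.sum_sub_distrib]
    abel
  rw [h1] at hxy
  funext i
  exact (rep_unique U (hy.1 i) (hx.1 i) (hmem' _ hxy i)).symm

open Classical in
/-- the number of solutions modulo `ϖ` of `‖∑ N(x_i) d_i‖ < 1` -/
noncomputable def NN (U : Unr E) {k : ℕ} (d : Fin k → E) : ℕ :=
  ((Fintype.piFinset fun _ : Fin k => U.rep).filter
    fun x => ‖∑ i, x i * U.σ (x i) * d i‖ < 1).card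

theorem NN_succ (hNrm : SpecNrm) {k : ℕ} (d : Fin (k + 1) → E) (hd : ∀ i, U.σ (d i) = -d i)
    (hd1 : ∀ i, ‖d i‖ = 1) :
    (NN U d : ℤ) = ((U.q : ℤ) + 1) * (U.q : ℤ) ^ (2 * k) -
      (U.q : ℤ) * NN U (fun i : Fin k => d i.succ) := by
  classical
  have hd0 : d 0 ≠ 0 := by
    rw [← norm_pos_iff, hd1]
    exact one_pos
  have h1 : NN U d = (((Fintype.piFinset fun _ : Fin k => U.rep) ×ˢ U.rep).filter
      fun p => ‖p.2 * U.σ p.2 * d 0 + ∑ i, p.1 i * U.σ (p.1 i) * d i.succ‖ < 1).card := by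
    unfold NN
    refine Finset.card_nbij' (fun x => (fun i => x i.succ, x 0)) (fun p => Fin.cons p.2 p.1)
      ?_ ?_ ?_ ?_
    · intro x hx
      simp only [Finset.mem_coe, Finset.mem_filter, Fintype.mem_piFinset, Finset.mem_product] at hx ⊢
      refine ⟨⟨fun i => hx.1 _, hx.1 _⟩, ?_⟩
      rw [← Fin.sum_univ_succ (fun i => x i * U.σ (x i) * d i)]
      exact hx.2
    · intro p hp
      simp only [Finset.mem_coe, Finset.mem_filter, Fintype.mem_piFinset, Finset.mem_product] at hp ⊢
      refine ⟨fun i => ?_, ?_⟩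
      · refine Fin.cases ?_ (fun j => ?_) i
        · simpa using hp.1.2
        · simpa using hp.1.1 j
      · rw [Fin.sum_univ_succ]
        simpa using hp.2
    · intro x _
      funext i
      refine Fin.cases ?_ (fun j => ?_) i <;> simp
    · intro p _
      simp
  have h2 : ∀ x' ∈ (Fintype.piFinset fun _ : Fin k => U.rep),
      (∑ x₀ ∈ U.rep, if ‖x₀ * U.σ x₀ * d 0 + ∑ i, x' i * U.σ (x' i) * d i.succ‖ < 1 then
        (1 : ℤ) else 0) = ((U.q : ℤ) + 1) -
          (U.q : ℤ) * (if ‖∑ i, x' i * U.σ (x' i) * d i.succ‖ < 1 then 1 else 0) := by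
    intro x' hx'
    rw [Fintype.mem_piFinset] at hx'
    set s := ∑ i, x' i * U.σ (x' i) * d i.succ with hs
    have hs1 : ‖s‖ ≤ 1 := by
      rw [hs]
      have : ∀ t : Finset (Fin k), ‖∑ i ∈ t, x' i * U.σ (x' i) * d i.succ‖ ≤ 1 := by
        intro t
        induction t using Finset.induction_on with
        | empty =>
          rw [Finset.sum_empty, norm_zero]
          exact zero_le_one
        | insert i t hi ih =>
          rw [Finset.sum_insert hi]
          refine add_le' U ?_ ih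
          rw [norm_mul, norm_mul, U.σn, hd1, mul_one]
          have := U.rep_int _ (hx' i)
          exact mul_le_one₀ this (norm_nonneg _) this
      exact this _
    have hσs : U.σ s = -s := by
      rw [hs, map_sum, ← Finset.sum_neg_distrib]
      refine Finset.sum_congr rfl fun i _ => ?_
      rw [map_mul, map_mul, U.σσ, hd]
      ring
    rw [Finset.sum_boole]
    by_cases hlt : ‖s‖ < 1
    · rw [if_pos hlt]
      have e : U.rep.filter (fun x₀ => ‖x₀ * U.σ x₀ * d 0 + s‖ < 1) = {0} := by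
        ext r
        rw [Finset.mem_filter, Finset.mem_singleton]
        constructor
        · rintro ⟨hr, hr'⟩
          by_contra h0
          have h3 := sub_lt U hr' hlt
          rw [add_sub_cancel_right, norm_mul, norm_mul, U.σn, hd1, rep_norm U hr h0, one_mul,
            one_mul] at h3
          exact lt_irrefl _ h3
        · rintro rfl
          refine ⟨U.rep_zero, ?_⟩
          rw [zero_mul, zero_mul, zero_add]
          exact hlt
      rw [e, Finset.card_singleton]
      push_cast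
      ring
    · rw [if_neg hlt]
      have hs1' : ‖s‖ = 1 := le_antisymm hs1 (not_lt.1 hlt)
      have e : U.rep.filter (fun x₀ => ‖x₀ * U.σ x₀ * d 0 + s‖ < 1) =
          U.rep.filter (fun r => ‖r * U.σ r - (-s / d 0)‖ < 1) := by
        refine Finset.filter_congr fun r _ => ?_
        have : r * U.σ r * d 0 + s = (r * U.σ r - (-s / d 0)) * d 0 := by
          field_simp
          ring
        rw [this, norm_mul, hd1, mul_one]
      rw [e, hNrm E U (-s / d 0) (by rw [map_div₀, map_neg, hσs, hd]; rw [neg_div_neg_eq])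
        (by rw [norm_div, norm_neg, hs1', hd1, div_one])]
      push_cast
      ring
  rw [h1, Finset.card_filter, Finset.sum_product]
  push_cast
  rw [Finset.sum_congr rfl h2, Finset.sum_sub_distrib, Finset.sum_const, ← Finset.mul_sum,
    Finset.sum_boole, Fintype.card_piFinset, Finset.prod_const, U.rep_card]
  unfold NN
  simp only [Finset.card_univ, Fintype.card_fin, nsmul_eq_mul]
  push_cast
  rw [← pow_mul, mul_comm]

theorem NN_eq (hNrm : SpecNrm) (k : ℕ) : ∀ (d : Fin k → E), (∀ i, U.σ (d i) = -d i) →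
    (∀ i, ‖d i‖ = 1) → (U.q : ℤ) * NN U d =
      (U.q : ℤ) ^ (2 * k) + (-1) ^ k * ((U.q : ℤ) ^ (k + 1) - (U.q : ℤ) ^ k) := by
  classical
  induction k with
  | zero =>
    intro d _ _
    have : NN U d = 1 := by
      unfold NN
      rw [Finset.filter_true_of_mem]
      · simp
      · intro x _
        simp
    rw [this]
    push_cast
    ring
  | succ k ih =>
    intro d hd hd1
    rw [NN_succ hNrm d hd hd1, mul_sub, ih _ (fun i => hd _) (fun i => hd1 _)]
    ring

end Cnt0M

open HpairM NrmM OrthM Cnt0M in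
theorem specCnt0 (hBox : SpecBox) (hSdl : SpecSdl) (hNrm : SpecNrm) : SpecCnt0 := by
  classical
  intro E _ U V _ _ h k M hM
  obtain ⟨s1, _, s3, _, _⟩ := hSdl E U V h (k + 1) M hM
  obtain ⟨b, hb, hMb, ho⟩ := exists_orth h hBox hSdl (k + 1) M hM
  have hli := s3 b hb
  subst hMb
  have hscM : sc U 1 (box U b 0) ≤ box U b 0 := by
    rintro w ⟨w', hw', rfl⟩
    change U.ϖ ^ (1 : ℤ) • w' ∈ _
    rw [zpow_one]
    exact smul_mem_box _ _ U.ϖlt.le hw'
  have hsc : ∀ w ∈ sc U 1 (box U b 0), ∃ w' ∈ box U b 0, w = U.ϖ • w' := by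
    rintro w ⟨w', hw', rfl⟩
    exact ⟨w', hw', by change U.ϖ ^ (1 : ℤ) • w' = _; rw [zpow_one]⟩
  have hinv : ∀ v ∈ {v : V | v ∈ Prim U (box U b 0) ∧ ‖h.h v v‖ < 1}, ∀ w ∈ sc U 1 (box U b 0),
      v + w ∈ {v : V | v ∈ Prim U (box U b 0) ∧ ‖h.h v v‖ < 1} := by
    rintro v ⟨hv, hvv⟩ w hw
    obtain ⟨w', hw', hww⟩ := hsc w hw
    have hwM := hscM hw
    refine ⟨⟨(box U b 0).add_mem hv.1 hwM, fun u hu he => ?_⟩, ?_⟩
    · refine hv.2 (u - w') ((box U b 0).sub_mem hu hw') ?_
      rw [smul_sub, ← he, hww, add_sub_cancel_right]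
    · have hsmall : ∀ u ∈ box U b 0, ‖h.h u w‖ < 1 ∧ ‖h.h w u‖ < 1 := by
        intro u hu
        have h1 : ‖h.h w u‖ < 1 := by
          rw [hww, h.smul, norm_mul]
          calc ‖U.ϖ‖ * ‖h.h w' u‖ ≤ ‖U.ϖ‖ * 1 := by
                have := s1 w' hw' u hu
                gcongr
            _ < 1 := by rw [mul_one]; exact U.ϖlt
        refine ⟨?_, h1⟩
        rw [h.skew w u, norm_neg, U.σn]
        exact h1
      rw [h.add, add_right, add_right]
      exact add_lt U (add_lt U hvv (hsmall v hv.1).1)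
        (add_lt U (hsmall v hv.1).2 (hsmall w hwM).1)
  obtain ⟨F, hF, hFc⟩ := ncls_coord hBox hli _ (fun v hv => hv.1.1) hinv
  rw [hFc]
  -- the count
  have hcount : F.card + 1 = NN U (fun i => h.h (b i) (b i)) := by
    unfold NN
    rw [← Finset.card_insert_of_notMem (a := (0 : Fin (k + 1) → E))]
    · congr 1
      ext x
      rw [Finset.mem_insert, Finset.mem_filter, Fintype.mem_piFinset, hF, ← self_orth h ho]
      constructor
      · rintro (rfl | ⟨hx, _, hx'⟩)
        · refine ⟨fun i => U.rep_zero, ?_⟩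
          simp [zero_left]
        · exact ⟨hx, hx'⟩
      · rintro ⟨hx, hx'⟩
        by_cases h0 : x = 0
        · exact Or.inl h0
        · obtain ⟨i, hi⟩ : ∃ i, x i ≠ 0 := by
            by_contra hc
            push Not at hc
            exact h0 (funext hc)
          exact Or.inr ⟨hx, prim_of_coeff hli x (fun i => U.rep_int _ (hx i)) i
            (rep_norm U (hx i) hi) rfl, hx'⟩
    · intro h0
      rw [hF] at h0
      refine h0.2.1.2 0 (box U b 0).zero_mem ?_
      simp
  have hNN := NN_eq hNrm (k + 1) (fun i => h.h (b i) (b i)) (fun i => self_skew h _)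
    (fun i => orth_unit h hb ho i)
  have hq : (U.q : ℤ) ≠ 0 := by
    have := U.q3
    omega
  have hcount' : (F.card : ℤ) = (NN U (fun i => h.h (b i) (b i)) : ℤ) - 1 := by
    rw [← hcount]
    push_cast
    ring
  rw [hcount']
  apply mul_left_cancel₀ hq
  rw [mul_sub, hNN]
  have h3 : ((-1 : ℤ) ^ k) * (-1) ^ k = 1 := by
    rw [← mul_pow]
    norm_num
  rw [pow_succ (-1 : ℤ) k]
  linear_combination (U.q : ℤ) * h3

end MPtg
end

section
/-!
# MP_3d2757_nt : module CNTL
-/
open Finset

namespace MPtg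

namespace CntLM

open HpairM NrmM OrthM Cnt0M

/-- counting through the fibres -/
theorem ncard_fibre {α β : Type} (A : Set α) (B : Set β) (hA : A.Finite) (hB : B.Finite)
    (f : α → β) (n : ℕ) (hf : ∀ a ∈ A, f a ∈ B)
    (hn : ∀ b ∈ B, {a ∈ A | f a = b}.ncard = n) : A.ncard = B.ncard * n := by
  classical
  rw [Set.ncard_eq_toFinset_card A hA, Set.ncard_eq_toFinset_card B hB,
    Finset.card_eq_sum_card_fiberwise (f := f) (t := hB.toFinset), Finset.sum_const_nat]
  · intro b hb
    rw [← hn b (hB.mem_toFinset.1 hb), ← Set.ncard_coe_finset]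
    congr 1
    ext a
    simp
  · intro a ha
    rw [Finset.mem_coe, Set.Finite.mem_toFinset] at ha ⊢
    exact hf a ha

variable {E : Type} [NormedField E] {U : Unr E} {V : Type} [AddCommGroup V] [Module E V]
  (h : SkF U V)

theorem mem_sc {j : ℤ} {M : AddSubgroup V} {v : V} :
    v ∈ sc U j M ↔ ∃ w ∈ M, v = (U.ϖ ^ j) • w := by
  constructor
  · rintro ⟨w, hw, rfl⟩
    exact ⟨w, hw, rfl⟩
  · rintro ⟨w, hw, rfl⟩
    exact ⟨w, hw, rfl⟩

theorem ϖz_ne (U : Unr E) (j : ℤ) : U.ϖ ^ j ≠ 0 := zpow_ne_zero j (ϖ_ne U)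

/-- classes modulo `ϖ^{m+1} M` in a class modulo `ϖ^m M` -/
theorem fibre_coord {k : ℕ} {b : Fin k → V} (hb : LinearIndependent E b) (m : ℤ) (v : V)
    (P : V → Prop) (hP : ∀ w ∈ box U b 0, ∀ w' ∈ box U b 0, P w → P (w + U.ϖ • w'))
    (F : Finset (Fin k → E))
    (hF : ∀ x, x ∈ F ↔ (∀ i, x i ∈ U.rep) ∧ P (∑ i, x i • b i)) :
    ((QuotientAddGroup.mk : V → V ⧸ sc U (m + 1) (box U b 0)) ''
      {u | ∃ w ∈ box U b 0, P w ∧ u = v + (U.ϖ ^ m) • w}).ncard = F.card := by
  classical
  have hpow : ∀ w : V, (U.ϖ ^ (m + 1)) • w = (U.ϖ ^ m) • U.ϖ • w := by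
    intro w
    rw [zpow_add_one₀ (ϖ_ne U), mul_smul]
  have himg : (QuotientAddGroup.mk : V → V ⧸ sc U (m + 1) (box U b 0)) ''
      {u | ∃ w ∈ box U b 0, P w ∧ u = v + (U.ϖ ^ m) • w} =
      (fun x : Fin k → E => ((v + (U.ϖ ^ m) • ∑ i, x i • b i : V) :
        V ⧸ sc U (m + 1) (box U b 0))) '' (F : Set (Fin k → E)) := by
    ext z
    constructor
    · rintro ⟨u, ⟨w, hw, hPw, rfl⟩, rfl⟩
      obtain ⟨c, hc, hwc⟩ := mem_box0.1 hw
      obtain ⟨red, hred⟩ := exists_red U
      have h1 : ∑ i, ((red (c i) - c i) / U.ϖ) • b i ∈ box U b 0 := by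
        refine mem_box0.2 ⟨_, fun i => ?_, rfl⟩
        rw [norm_div, div_le_one U.ϖpos]
        refine lt_one_iff U ?_
        rw [norm_sub_rev]
        exact (hred _ (hc i)).2
      have h2 : ∑ i, red (c i) • b i = w + U.ϖ • ∑ i, ((red (c i) - c i) / U.ϖ) • b i := by
        rw [Finset.smul_sum, hwc, ← Finset.sum_add_distrib]
        refine Finset.sum_congr rfl fun i _ => ?_
        rw [smul_smul, mul_div_cancel₀ _ (ϖ_ne U), ← add_smul, add_sub_cancel]
      refine ⟨fun i => red (c i), ?_, ?_⟩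
      · rw [Finset.mem_coe, hF]
        refine ⟨fun i => (hred _ (hc i)).1, ?_⟩
        rw [h2]
        exact hP w hw _ h1 hPw
      · change (QuotientAddGroup.mk (v + (U.ϖ ^ m) • ∑ i, red (c i) • b i) :
          V ⧸ sc U (m + 1) (box U b 0)) = QuotientAddGroup.mk (v + (U.ϖ ^ m) • w)
        rw [eq_comm, QuotientAddGroup.eq, mem_sc, h2]
        refine ⟨_, h1, ?_⟩
        rw [hpow, smul_add]
        abel
    · rintro ⟨x, hx, rfl⟩
      rw [Finset.mem_coe, hF] at hx
      exact ⟨_, ⟨_, mem_box0.2 ⟨x, fun i => U.rep_int _ (hx.1 i), rfl⟩, hx.2, rfl⟩, rfl⟩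
  rw [himg, Set.InjOn.ncard_image, Set.ncard_coe_finset]
  intro x hx y hy hxy
  rw [Finset.mem_coe, hF] at hx hy
  simp only at hxy
  rw [QuotientAddGroup.eq, mem_sc] at hxy
  obtain ⟨w, hw, he⟩ := hxy
  obtain ⟨c, hc, hwc⟩ := mem_box0.1 hw
  have h1 : (U.ϖ ^ m) • ∑ i, (y i - x i - U.ϖ * c i) • b i = 0 := by
    have : ∑ i, (y i - x i - U.ϖ * c i) • b i =
        -∑ i, x i • b i + ∑ i, y i • b i - U.ϖ • ∑ i, c i • b i := by
      rw [Finset.smul_sum]
      simp only [sub_smul, Finset.sum_sub_distrib, mul_smul]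
      abel
    rw [this, smul_sub, ← hpow, ← hwc, ← he]
    rw [smul_add, smul_neg]
    abel
  have h2 : ∑ i, (y i - x i - U.ϖ * c i) • b i = 0 :=
    (smul_eq_zero.1 h1).resolve_left (ϖz_ne U m)
  funext i
  have h3 := Fintype.linearIndependent_iff.1 hb _ h2 i
  rw [sub_eq_zero] at h3
  refine (rep_unique U (hy.1 i) (hx.1 i) ?_).symm
  rw [h3, norm_mul]
  calc ‖U.ϖ‖ * ‖c i‖ ≤ ‖U.ϖ‖ * 1 := by
        have := hc i
        gcongr
    _ < 1 := by rw [mul_one]; exact U.ϖlt

/-- solutions of `α + σ x - x ≡ 0` -/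
theorem card_skew (U : Unr E) (α : E) (hα : U.σ α = -α) (hα1 : ‖α‖ ≤ 1) (G : Finset E)
    (hG : ∀ x, x ∈ G ↔ x ∈ U.rep ∧ ‖α + U.σ x - x‖ < 1) : G.card = U.q := by
  classical
  obtain ⟨red, hred⟩ := exists_red U
  have h2 := two_ne U
  have hint : ∀ f ∈ U.rep0, ‖α / 2 + f‖ ≤ 1 := fun f hf =>
    add_le' U (by rw [norm_half U]; exact hα1) (U.rep0_int f hf).2
  rw [← U.rep0_card]
  symm
  refine Finset.card_bij (fun f _ => red (α / 2 + f)) ?_ ?_ ?_
  · intro f hf
    rw [hG]
    obtain ⟨r1, r2⟩ := hred _ (hint f hf)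
    refine ⟨r1, ?_⟩
    set r := red (α / 2 + f) with hr
    have e : α + U.σ r - r = (α / 2 + f - r) - U.σ (α / 2 + f - r) := by
      rw [map_sub, map_add, map_div₀, hα, (U.rep0_int f hf).1, map_ofNat]
      field_simp
      ring
    rw [e]
    exact sub_lt U r2 (by rw [U.σn]; exact r2)
  · intro f hf f' hf' he
    have r2 := (hred _ (hint f hf)).2
    have r2' := (hred _ (hint f' hf')).2
    rw [← he, norm_sub_rev] at r2'
    have h3 := tri_lt U r2 r2'
    have e : α / 2 + f - (α / 2 + f') = f - f' := by ring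
    rw [e] at h3
    exact rep0_unique U hf hf' h3
  · intro x hx
    rw [hG] at hx
    obtain ⟨hx1, hx2⟩ := hx
    have hxn := U.rep_int x hx1
    set y := (x + U.σ x) / 2 with hy
    have hyσ : U.σ y = y := by
      rw [hy, map_div₀, map_add, U.σσ, map_ofNat]
      ring
    have hyn : ‖y‖ ≤ 1 := by
      rw [hy, norm_half U]
      exact add_le' U hxn (by rw [U.σn]; exact hxn)
    obtain ⟨f, ⟨hf, hfy⟩, _⟩ := U.rep0_ex y hyσ hyn
    refine ⟨f, hf, ?_⟩
    obtain ⟨r1, r2⟩ := hred _ (hint f hf)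
    refine rep_unique U r1 hx1 ?_
    have h3 : ‖α / 2 + f - x‖ < 1 := by
      have e : α / 2 + f - x = (α + U.σ x - x) / 2 - (y - f) := by
        rw [hy]
        field_simp
        ring
      rw [e]
      exact sub_lt U (by rw [norm_half U]; exact hx2) hfy
    rw [norm_sub_rev] at r2
    exact tri_lt U r2 h3

end CntLM

open HpairM NrmM OrthM Cnt0M CntLM in
theorem specCntL (hBox : SpecBox) (hSdl : SpecSdl) : SpecCntL := by
  classical
  intro E _ U V _ _ h k M hM m hm
  obtain ⟨s1, _, s3, _, s5⟩ := hSdl E U V h (k + 1) M hM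
  obtain ⟨b, hb, hMb⟩ := id hM
  have hli := s3 b hb
  have hsm : ∀ (x : E) (u : V), ‖x‖ ≤ 1 → u ∈ M → x • u ∈ M := by
    intro x u hx hu
    rw [hMb] at hu ⊢
    exact smul_mem_box x u hx hu
  have hpm : ∀ (n : ℕ), ∀ u ∈ M, (U.ϖ ^ n) • u ∈ M := by
    intro n u hu
    refine hsm _ _ ?_ hu
    rw [norm_pow]
    exact pow_le_one₀ U.ϖpos.le U.ϖlt.le
  induction m, hm using Nat.le_induction with
  | base =>
    have : {v : V | v ∈ Prim U M ∧ ‖h.h v v‖ ≤ ‖U.ϖ‖ ^ 1} =
        {v : V | v ∈ Prim U M ∧ ‖h.h v v‖ < 1} := by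
      ext v
      simp only [Set.mem_ofPred_eq, pow_one]
      exact and_congr_right fun _ => ⟨fun h1 => h1.trans_lt U.ϖlt, fun h1 => lt_one_iff U h1⟩
    rw [this]
    simp
  | succ m hm ih =>
    -- finiteness
    have hfin : ∀ j : ℕ, ∀ S : Set V, S ⊆ (M : Set V) →
        ((QuotientAddGroup.mk : V → V ⧸ sc U (j : ℤ) M) '' S).Finite := by
      intro j S hS
      have h1 : ncls (sc U (j : ℤ) M) (M : Set V) ≠ 0 := by
        rw [hMb, (hBox E U V (k + 1) b).2.1 0 j,
          (hBox E U V (k + 1) b).2.2.2.2.2.1 hli 0 _ (fun i => by simp)]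
        have := U.q3
        positivity
      have h2 : ((QuotientAddGroup.mk : V → V ⧸ sc U (j : ℤ) M) '' (M : Set V)).Finite :=
        Set.finite_of_ncard_ne_zero h1
      exact h2.subset (Set.image_mono hS)
    set S₀ : Set V := {v : V | v ∈ Prim U M ∧ ‖h.h v v‖ ≤ ‖U.ϖ‖ ^ m} with hS₀
    set S₁ : Set V := {v : V | v ∈ Prim U M ∧ ‖h.h v v‖ ≤ ‖U.ϖ‖ ^ (m + 1)} with hS₁
    have hle : sc U ((m : ℤ) + 1) M ≤ sc U (m : ℤ) M := by
      intro v hv
      obtain ⟨w, hw, rfl⟩ := mem_sc.1 hv
      rw [mem_sc]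
      exact ⟨U.ϖ • w, hsm _ _ U.ϖlt.le hw, by rw [zpow_add_one₀ (ϖ_ne U), mul_smul]⟩
    have key : ncls (sc U ((m : ℤ) + 1) M) S₁ = ncls (sc U (m : ℤ) M) S₀ *
        U.q ^ (2 * k + 1) := by
      unfold ncls
      refine ncard_fibre _ _ ?_ (hfin m S₀ fun v hv => hv.1.1)
        (QuotientAddGroup.map _ _ (AddMonoidHom.id V) hle) _ ?_ ?_
      · have := hfin (m + 1) S₁ fun v hv => hv.1.1
        push_cast at this
        exact this
      · rintro _ ⟨v, hv, rfl⟩
        refine ⟨v, ⟨hv.1, hv.2.trans ?_⟩, rfl⟩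
        exact pow_le_pow_of_le_one U.ϖpos.le U.ϖlt.le (Nat.le_succ m)
      · rintro _ ⟨v, ⟨hv, hvv⟩, rfl⟩
        -- a good basis
        obtain ⟨w₀, hw₀, hvw₀⟩ := s5 v hv
        obtain ⟨c, hc, hwc⟩ := mem_box0.1 (hMb ▸ hw₀)
        have hunit : ∃ i₀, ‖c i₀‖ = 1 := by
          by_contra hcon
          push Not at hcon
          have h1 : h.h v w₀ = ∑ i, U.σ (c i) * h.h v (b i) := by
            rw [hwc, sum_right]
          have h2 : ∀ t : Finset (Fin (k + 1)), ‖∑ i ∈ t, U.σ (c i) * h.h v (b i)‖ < 1 := by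
            intro t
            induction t using Finset.induction_on with
            | empty =>
              rw [Finset.sum_empty, norm_zero]
              exact one_pos
            | insert i t hi ih2 =>
              rw [Finset.sum_insert hi]
              refine add_lt U ?_ ih2
              rw [norm_mul, U.σn]
              have h3 : ‖h.h v (b i)‖ ≤ 1 := by
                refine s1 v hv.1 _ ?_
                rw [hMb]
                exact mem_self i
              calc ‖c i‖ * ‖h.h v (b i)‖ ≤ ‖c i‖ * 1 := by gcongr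
                _ < 1 := by rw [mul_one]; exact lt_of_le_of_ne (hc i) (hcon i)
          have h3 := h2 Finset.univ
          rw [← h1, hvw₀, norm_one] at h3
          exact lt_irrefl _ h3
        obtain ⟨i₀, hi⟩ := hunit
        obtain ⟨b', hb'1, hb'2⟩ := exists_cons (U := U) hBox hli c hc i₀ hi hwc
        have hM' : M = box U (Fin.cons w₀ b' : Fin (k + 1) → V) 0 := hMb.trans hb'2.symm
        have hb'M : ∀ i, b' i ∈ M := by
          intro i
          rw [hM']
          exact mem_self (b := (Fin.cons w₀ b' : Fin (k + 1) → V)) i.succ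
        obtain ⟨hc1, hc2⟩ := cons_add (U := U) hb'1 (fun i => -U.σ (h.h v (b' i))) (by
          intro i
          rw [norm_neg, U.σn]
          exact s1 v hv.1 _ (hb'M i))
        set b₂ : Fin k → V := fun i => b' i + (-U.σ (h.h v (b' i))) • w₀ with hb₂
        have hM₂ : M = box U (Fin.cons w₀ b₂ : Fin (k + 1) → V) 0 := hM'.trans hc2.symm
        have horth : ∀ i, h.h v (b₂ i) = 0 := by
          intro i
          rw [hb₂]
          simp only
          rw [add_right, smul_right, map_neg, U.σσ, hvw₀]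
          ring
        have hcoord : ∀ x : Fin (k + 1) → E,
            h.h v (∑ i, x i • (Fin.cons w₀ b₂ : Fin (k + 1) → V) i) = U.σ (x 0) := by
          intro x
          rw [sum_right, Fin.sum_univ_succ, Fin.cons_zero, hvw₀, Finset.sum_eq_zero]
          · ring
          · intro i _
            rw [Fin.cons_succ, horth, mul_zero]
        -- the condition on `w`
        set α : E := h.h v v / U.ϖ ^ m with hα
        have hϖm : U.ϖ ^ m ≠ 0 := pow_ne_zero _ (ϖ_ne U)
        have hασ : U.σ α = -α := by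
          rw [hα, map_div₀, map_pow, U.σϖ, self_skew, neg_div]
        have hαn : ‖α‖ ≤ 1 := by
          rw [hα, norm_div, norm_pow, div_le_one (pow_pos U.ϖpos m)]
          exact hvv
        have hval : ∀ w ∈ M, (‖h.h (v + (U.ϖ ^ m) • w) (v + (U.ϖ ^ m) • w)‖ ≤ ‖U.ϖ‖ ^ (m + 1) ↔
            ‖α + h.h v w - U.σ (h.h v w)‖ < 1) := by
          intro w hw
          have e : h.h (v + (U.ϖ ^ m) • w) (v + (U.ϖ ^ m) • w) =
              U.ϖ ^ m * ((α + h.h v w - U.σ (h.h v w)) + U.ϖ ^ m * h.h w w) := by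
            rw [self_add, map_pow, U.σϖ, h.skew v w, hα]
            field_simp
            ring
          rw [e, norm_mul, norm_pow, pow_succ, mul_le_mul_iff_right₀ (pow_pos U.ϖpos m)]
          have h3 : ‖U.ϖ ^ m * h.h w w‖ ≤ ‖U.ϖ‖ := by
            rw [norm_mul, norm_pow]
            calc ‖U.ϖ‖ ^ m * ‖h.h w w‖ ≤ ‖U.ϖ‖ ^ 1 * 1 := by
                  have := s1 w hw w hw
                  have h4 := pow_le_pow_of_le_one U.ϖpos.le U.ϖlt.le hm
                  gcongr
              _ = ‖U.ϖ‖ := by ring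
          constructor
          · intro h4
            have h5 := sub_lt U (h4.trans_lt U.ϖlt) (h3.trans_lt U.ϖlt)
            rwa [add_sub_cancel_right] at h5
          · intro h4
            exact add_le' U (lt_one_iff U h4) h3
        have hprim : ∀ w ∈ M, v + (U.ϖ ^ m) • w ∈ Prim U M := by
          intro w hw
          refine ⟨M.add_mem hv.1 (hpm m w hw), fun w' hw' he => ?_⟩
          refine hv.2 (w' - (U.ϖ ^ (m - 1)) • w) (M.sub_mem hw' (hpm _ _ hw)) ?_
          have e : U.ϖ • U.ϖ ^ (m - 1) • w = U.ϖ ^ m • w := by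
            rw [smul_smul, ← pow_succ', show m - 1 + 1 = m by omega]
          rw [smul_sub, ← he, e, add_sub_cancel_right]
        -- the fibre
        have hfib : {a ∈ (QuotientAddGroup.mk : V → V ⧸ sc U ((m : ℤ) + 1) M) '' S₁ |
            QuotientAddGroup.map _ _ (AddMonoidHom.id V) hle a =
              ((v : V) : V ⧸ sc U (m : ℤ) M)} =
            (QuotientAddGroup.mk : V → V ⧸ sc U ((m : ℤ) + 1) M) ''
              {u | ∃ w ∈ M, ‖α + h.h v w - U.σ (h.h v w)‖ < 1 ∧ u = v + (U.ϖ ^ (m : ℤ)) • w} := by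
          ext z
          constructor
          · rintro ⟨⟨u, hu, rfl⟩, hz⟩
            change ((u : V) : V ⧸ sc U (m : ℤ) M) = ((v : V) : V ⧸ sc U (m : ℤ) M) at hz
            rw [eq_comm, QuotientAddGroup.eq, mem_sc] at hz
            obtain ⟨w, hw, he⟩ := hz
            have hu' : u = v + (U.ϖ ^ (m : ℤ)) • w := by
              rw [← he]
              abel
            refine ⟨u, ⟨w, hw, ?_, hu'⟩, rfl⟩
            rw [← hval w hw]
            have := hu.2
            rw [hu', zpow_natCast] at this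
            exact this
          · rintro ⟨u, ⟨w, hw, hP, rfl⟩, rfl⟩
            refine ⟨⟨_, ⟨?_, ?_⟩, rfl⟩, ?_⟩
            · rw [zpow_natCast]
              exact hprim w hw
            · rw [zpow_natCast]
              exact (hval w hw).2 hP
            · change ((v + (U.ϖ ^ (m : ℤ)) • w : V) : V ⧸ sc U (m : ℤ) M) =
                ((v : V) : V ⧸ sc U (m : ℤ) M)
              rw [eq_comm, QuotientAddGroup.eq, mem_sc]
              exact ⟨w, hw, by abel⟩
        rw [hfib]
        have hcard := card_skew U α hασ hαn (U.rep.filter fun x => ‖α + U.σ x - x‖ < 1)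
          (fun x => by rw [Finset.mem_filter])
        have hF := fibre_coord (U := U) hc1 (m : ℤ) v
          (fun w => ‖α + h.h v w - U.σ (h.h v w)‖ < 1) ?_
          ((Fintype.piFinset fun i : Fin (k + 1) => if i = 0 then
            U.rep.filter (fun x => ‖α + U.σ x - x‖ < 1) else U.rep)) ?_
        · rw [← hM₂] at hF
          rw [hF, Fintype.card_piFinset, Fin.prod_univ_succ, if_pos rfl, hcard]
          rw [Finset.prod_congr rfl (g := fun _ => U.q ^ 2)]
          · rw [Finset.prod_const, Finset.card_univ, Fintype.card_fin, ← pow_mul, pow_succ]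
            ring
          · intro i _
            rw [if_neg (Fin.succ_ne_zero i), U.rep_card]
        · intro w hw w' hw' hPw
          rw [← hM₂] at hw'
          have h3 : ‖h.h v (U.ϖ • w')‖ < 1 := by
            rw [smul_right, norm_mul, U.σn]
            calc ‖U.ϖ‖ * ‖h.h v w'‖ ≤ ‖U.ϖ‖ * 1 := by
                  have := s1 v hv.1 w' hw'
                  gcongr
              _ < 1 := by rw [mul_one]; exact U.ϖlt
          have e : α + h.h v (w + U.ϖ • w') - U.σ (h.h v (w + U.ϖ • w')) =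
              (α + h.h v w - U.σ (h.h v w)) +
                (h.h v (U.ϖ • w') - U.σ (h.h v (U.ϖ • w'))) := by
            rw [add_right, map_add]
            ring
          rw [e]
          exact add_lt U hPw (sub_lt U h3 (by rw [U.σn]; exact h3))
        · intro x
          rw [Fintype.mem_piFinset, hcoord, U.σσ]
          constructor
          · intro hx
            have h0 := hx 0
            rw [if_pos rfl, Finset.mem_filter] at h0
            refine ⟨fun i => ?_, h0.2⟩
            by_cases hi0 : i = 0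
            · rw [hi0]
              exact h0.1
            · have := hx i
              rwa [if_neg hi0] at this
          · rintro ⟨hx, hx0⟩ i
            split_ifs with hi0
            · rw [Finset.mem_filter, hi0]
              exact ⟨hx 0, hx0⟩
            · exact hx i
    have hcast : ((m + 1 : ℕ) : ℤ) = (m : ℤ) + 1 := by push_cast; ring
    rw [hcast, key, ih, mul_assoc, ← pow_add]
    congr 2
    obtain ⟨m', rfl⟩ : ∃ m', m = m' + 1 := ⟨m - 1, by omega⟩
    simp
    ring

end MPtg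
end

section
/-!
# MP_3d2757_nt : module CNTP
-/
open Finset

namespace MPtg

open HpairM NrmM OrthM Cnt0M CntLM in
theorem specCntP (hBox : SpecBox) : SpecCntP := by
  classical
  intro E _ U V _ _ k M L Λ a hΛ ha hΛ0 ⟨b, hb, hM, hL⟩
  obtain ⟨_, b2, b3, b4, _, b6, _, _⟩ := hBox E U V (k + 2) b
  have hanti := hΛ.1
  have hrev := hΛ.2
  have hup : ∀ i, Λ i ≤ a := fun i => hΛ0 ▸ hanti (Fin.zero_le i)
  have hlow : ∀ i, -(a : ℤ) ≤ Λ i := by
    intro i
    have := hup (Fin.rev i)
    rw [hrev] at this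
    omega
  have hsum : ∑ i, Λ i = 0 := by
    have h1 : ∑ i, Λ i = ∑ i, Λ (Fin.rev i) := (Equiv.sum_comp Fin.revPerm Λ).symm
    simp only [hrev, Finset.sum_neg_distrib] at h1
    omega
  set H : AddSubgroup V := sc U ((2 * a : ℕ) : ℤ) M with hH
  have hHbox : H = box U b (fun _ => ((2 * a : ℕ) : ℤ)) := by
    rw [hH, hM, b2]
    congr 1
    funext i
    simp
  set N : AddSubgroup V := box U b (fun i => Λ i + a) with hN
  set N' : AddSubgroup V := box U b (fun i => max (Λ i + a) 1) with hN'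
  have hone : sc U 1 M = box U b (fun _ => 1) := by
    rw [hM, b2]
    congr 1
  have hN'inf : N' = N ⊓ sc U 1 M := by
    rw [hone, hN, b4 hb]
  have hNM : N ≤ M := by
    rw [hM, hN, b3 hb]
    intro i
    have := hlow i
    simp only [Pi.zero_apply]
    omega
  have hHN' : H ≤ N' := by
    rw [hHbox, hN', b3 hb]
    intro i
    have := hup i
    push_cast
    simp only [sup_le_iff]
    omega
  have hHN : H ≤ N := hHN'.trans (by rw [hN'inf]; exact inf_le_left)
  -- the set
  have hset : {v : V | v ∈ Prim U M ∧ (U.ϖ ^ (-(a : ℤ))) • v ∈ L} =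
      (N : Set V) \ (N' : Set V) := by
    ext v
    have h1 : (U.ϖ ^ (-(a : ℤ))) • v ∈ L ↔ v ∈ N := by
      rw [hN, ← b2 Λ a, ← hL, mem_sc]
      constructor
      · intro h
        refine ⟨_, h, ?_⟩
        rw [smul_smul, ← zpow_add₀ (ϖ_ne U), add_neg_cancel, zpow_zero, one_smul]
      · rintro ⟨w, hw, rfl⟩
        rw [smul_smul, ← zpow_add₀ (ϖ_ne U), neg_add_cancel, zpow_zero, one_smul]
        exact hw
    have h2 : v ∈ Prim U M ↔ v ∈ M ∧ v ∉ sc U 1 M := by
      rw [mem_sc]
      constructor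
      · rintro ⟨h3, h4⟩
        refine ⟨h3, ?_⟩
        rintro ⟨w, hw, he⟩
        rw [zpow_one] at he
        exact h4 w hw he
      · rintro ⟨h3, h4⟩
        refine ⟨h3, fun w hw he => h4 ⟨w, hw, ?_⟩⟩
        rw [zpow_one]
        exact he
    change (v ∈ Prim U M ∧ (U.ϖ ^ (-(a : ℤ))) • v ∈ L) ↔ (v ∈ N ∧ v ∉ N')
    rw [h1, h2, hN'inf, AddSubgroup.mem_inf]
    constructor
    · rintro ⟨⟨_, h4⟩, h5⟩
      exact ⟨h5, fun h6 => h4 h6.2⟩
    · rintro ⟨h5, h6⟩
      exact ⟨⟨hNM h5, fun h4 => h6 ⟨h5, h4⟩⟩, h5⟩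
  -- the images
  have himg : (QuotientAddGroup.mk : V → V ⧸ H) '' ((N : Set V) \ (N' : Set V)) =
      (QuotientAddGroup.mk : V → V ⧸ H) '' (N : Set V) \
        (QuotientAddGroup.mk : V → V ⧸ H) '' (N' : Set V) := by
    ext z
    constructor
    · rintro ⟨v, ⟨hv, hv'⟩, rfl⟩
      refine ⟨⟨v, hv, rfl⟩, ?_⟩
      rintro ⟨u, hu, he⟩
      rw [QuotientAddGroup.eq] at he
      apply hv'
      have := N'.add_mem hu (hHN' he)
      rwa [add_neg_cancel_left] at this
    · rintro ⟨⟨v, hv, rfl⟩, h2⟩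
      exact ⟨v, ⟨hv, fun hv' => h2 ⟨v, hv', rfl⟩⟩, rfl⟩
  have hcN : ncls H (N : Set V) = U.q ^ (2 * a * (k + 2)) := by
    rw [hHbox, hN, b6 hb]
    · congr 1
      have : ∑ i : Fin (k + 2), (((2 * a : ℕ) : ℤ) - (Λ i + a)) = ((a * (k + 2) : ℕ) : ℤ) := by
        rw [Finset.sum_sub_distrib, Finset.sum_add_distrib, hsum]
        simp
        ring
      rw [this, Int.toNat_natCast]
      ring
    · intro i
      have := hup i
      push_cast
      omega
  set r : ℕ := (univ.filter (fun i => Λ i = Λ 0)).card with hr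
  have hr' : (univ.filter (fun i => Λ i = -(a : ℤ))).card = r := by
    rw [hr]
    refine Finset.card_bij (fun i _ => Fin.rev i) ?_ ?_ ?_
    · intro i hi
      rw [Finset.mem_filter] at hi ⊢
      refine ⟨Finset.mem_univ _, ?_⟩
      rw [hrev, hi.2, hΛ0, neg_neg]
    · intro i _ j _ he
      exact Fin.rev_injective he
    · intro i hi
      rw [Finset.mem_filter] at hi
      refine ⟨Fin.rev i, ?_, Fin.rev_rev i⟩
      rw [Finset.mem_filter]
      refine ⟨Finset.mem_univ _, ?_⟩
      rw [hrev, hi.2, hΛ0]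
  have hrle : r ≤ k + 2 := by
    rw [hr]
    exact (Finset.card_le_univ _).trans (by simp)
  have hrle' : r ≤ a * (k + 2) := hrle.trans (Nat.le_mul_of_pos_left _ ha)
  have hcN' : ncls H (N' : Set V) = U.q ^ (2 * (a * (k + 2) - r)) := by
    rw [hHbox, hN', b6 hb]
    · congr 1
      have h3 : ∀ i : Fin (k + 2), (((2 * a : ℕ) : ℤ) - max (Λ i + a) 1) =
          (((2 * a : ℕ) : ℤ) - (Λ i + a)) - (if Λ i = -(a : ℤ) then 1 else 0) := by
        intro i
        have h1 := hlow i
        split_ifs with h2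
        · rw [h2]
          simp
        · rw [max_eq_left (by omega)]
          ring
      have : ∑ i : Fin (k + 2), (((2 * a : ℕ) : ℤ) - max (Λ i + a) 1) =
          ((a * (k + 2) - r : ℕ) : ℤ) := by
        rw [Finset.sum_congr rfl fun i _ => h3 i, Finset.sum_sub_distrib, Finset.sum_sub_distrib,
          Finset.sum_add_distrib, hsum, Finset.sum_boole, hr', Nat.cast_sub hrle']
        simp
        ring
      rw [this, Int.toNat_natCast]
    · intro i
      have := hup i
      push_cast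
      simp only [sup_le_iff]
      omega
  have hq : 0 < U.q := by
    have := U.q3
    omega
  have hfin : ((QuotientAddGroup.mk : V → V ⧸ H) '' (N' : Set V)).Finite := by
    refine Set.finite_of_ncard_ne_zero ?_
    change ncls H (N' : Set V) ≠ 0
    rw [hcN']
    exact (pow_pos hq _).ne'
  have hdiff : ncls H ((N : Set V) \ (N' : Set V)) = ncls H (N : Set V) - ncls H (N' : Set V) := by
    unfold ncls
    rw [himg, Set.ncard_sdiff (Set.image_mono _) hfin]
    rw [hN'inf]
    exact fun v hv => hv.1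
  have e1 : 2 * (a * (k + 2) - r) + 2 * r = 2 * a * (k + 2) := by
    rw [Nat.mul_sub, Nat.sub_add_cancel (Nat.mul_le_mul_left 2 hrle')]
    ring
  rw [hset, hdiff, hcN, hcN', Nat.sub_mul, ← pow_add, ← pow_add, e1, pow_add, Nat.mul_sub,
    mul_one]

end MPtg
end

section
/-!
# TB: basic facts on torus integrals
-/
open Finset MeasureTheory

namespace MPtg

namespace TbM

theorem tint_perm (n : ℕ) (f : (Fin n → ℂ) → ℂ) (w : Equiv.Perm (Fin n)) :
    tint (fun x : Fin n → ℂ => f (fun i => x (w i))) = tint f := by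
  unfold tint muT
  have h := measurePreserving_piCongrLeft
    (fun _ : Fin n => (AddCircle.haarAddCircle : Measure UnitAddCircle)) w.symm
  rw [← h.integral_comp' (fun θ => f (ze θ))]
  refine integral_congr_ae (Filter.Eventually.of_forall fun θ => ?_)
  show f (fun i => ze θ (w i)) = f (ze _)
  congr 1
  funext i
  unfold ze
  have : MeasurableEquiv.piCongrLeft (fun _ : Fin n => UnitAddCircle) w.symm θ i = θ (w i) := by
    have := Equiv.piCongrLeft_apply_apply (fun _ : Fin n => UnitAddCircle) w.symm θ (w i)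
    rw [Equiv.symm_apply_apply] at this
    exact this
  rw [this]

instance negInv : (AddCircle.haarAddCircle : Measure UnitAddCircle).IsNegInvariant :=
  inferInstance

theorem ze_neg {n : ℕ} (θ : Fin n → UnitAddCircle) : ze (-θ) = fun i => (ze θ i)⁻¹ := by
  funext i
  unfold ze
  rw [Pi.neg_apply, AddCircle.toCircle_neg, Circle.coe_inv]

theorem tint_inv (n : ℕ) (f : (Fin n → ℂ) → ℂ) :
    tint (fun x : Fin n → ℂ => f (fun i => (x i)⁻¹)) = tint f := by
  unfold tint
  have : (muT n).IsNegInvariant := by unfold muT; infer_instance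
  rw [← integral_neg_eq_self (fun θ => f (ze θ)) (muT n)]
  simp only [ze_neg]

theorem prob (n : ℕ) : IsProbabilityMeasure (muT n) := by
  unfold muT; infer_instance

theorem norm_ze (n : ℕ) (θ : Fin n → UnitAddCircle) (i : Fin n) : ‖ze θ i‖ = 1 := by
  unfold ze
  exact Circle.norm_coe _

theorem cont_ze (n : ℕ) : Continuous (ze : (Fin n → UnitAddCircle) → (Fin n → ℂ)) := by
  unfold ze
  refine continuous_pi fun i => ?_
  exact continuous_induced_dom.comp (AddCircle.continuous_toCircle.comp (continuous_apply i))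

/-- diagonals are null sets -/
theorem diag (n : ℕ) (i j : Fin n) (hij : i ≠ j) : muT n {θ | θ i = θ j} = 0 := by
  classical
  have := prob n
  have : (muT n).IsAddLeftInvariant := by unfold muT; infer_instance
  set c : ℕ → UnitAddCircle := fun k => ((1 / ((k : ℝ) + 2) : ℝ) : UnitAddCircle) with hc
  have hinj : Function.Injective c := by
    intro k l hkl
    have h1 := hkl
    simp only [hc] at h1
    rw [AddCircle.coe_eq_coe_iff_of_mem_Ico (p := (1 : ℝ)) (a := 0)
      (by constructor <;> [positivity; (rw [zero_add, div_lt_one (by positivity)]; linarith [(Nat.cast_nonneg k : (0:ℝ) ≤ k)])])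
      (by constructor <;> [positivity; (rw [zero_add, div_lt_one (by positivity)]; linarith [(Nat.cast_nonneg l : (0:ℝ) ≤ l)])])] at h1
    rw [div_eq_div_iff (by positivity) (by positivity)] at h1
    have : (k : ℝ) = l := by linarith
    exact_mod_cast this
  set A : ℕ → Set (Fin n → UnitAddCircle) := fun k => {θ | θ i = c k + θ j} with hA
  have hmeas : ∀ k, MeasurableSet (A k) := fun k => by
    have : IsClosed (A k) := isClosed_eq (by fun_prop) (by fun_prop)
    exact this.measurableSet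
  have hdisj : Pairwise (Function.onFun Disjoint A) := by
    intro k l hkl
    refine Set.disjoint_left.2 fun θ h1 h2 => hkl (hinj ?_)
    exact add_right_cancel (h1.symm.trans h2 : c k + θ j = c l + θ j)
  have heq : ∀ k, muT n (A k) = muT n {θ | θ i = θ j} := by
    intro k
    rw [← measure_preimage_add (muT n) (-(Pi.single i (c k))) {θ | θ i = θ j}]
    congr 1
    ext θ
    simp only [hA, Set.mem_ofPred_eq, Set.mem_preimage, Pi.add_apply, Pi.neg_apply,
      Pi.single_eq_same, Pi.single_eq_of_ne hij.symm, neg_zero, zero_add]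
    constructor
    · intro h; rw [h]; abel
    · intro h; rw [← h]; abel
  have hsum : ∑' k, muT n (A k) ≤ 1 := by
    rw [← measure_iUnion hdisj hmeas]
    exact prob_le_one
  by_contra hne
  have : ∑' k, muT n (A k) = ⊤ := by
    simp only [heq]
    exact ENNReal.tsum_const_eq_top_of_ne_zero hne
  rw [this] at hsum
  exact absurd hsum (by simp)

theorem ae_inj (n : ℕ) : ∀ᵐ θ ∂(muT n), Function.Injective (ze θ) := by
  have h : ∀ i j : Fin n, i ≠ j → ∀ᵐ θ ∂(muT n), θ i ≠ θ j := by
    intro i j hij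
    have := diag n i j hij
    rw [ae_iff]
    simpa using this
  have h2 : ∀ᵐ θ ∂(muT n), ∀ i j : Fin n, i ≠ j → θ i ≠ θ j := by
    rw [ae_all_iff]
    intro i
    rw [ae_all_iff]
    intro j
    by_cases hij : i = j
    · exact Filter.Eventually.of_forall fun θ h => absurd hij h
    · filter_upwards [h i j hij] with θ hθ _
      exact hθ
  filter_upwards [h2] with θ hθ i j hij
  by_contra hne
  refine hθ i j hne ?_
  unfold ze at hij
  exact AddCircle.injective_toCircle one_ne_zero (Circle.ext hij)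

theorem ze_cons {n : ℕ} (a : UnitAddCircle) (θ : Fin n → UnitAddCircle) :
    ze (Fin.cons a θ : Fin (n + 1) → UnitAddCircle) = Fin.cons (AddCircle.toCircle a : ℂ) (ze θ) := by
  funext i
  refine Fin.cases ?_ (fun i => ?_) i <;> simp [ze]

theorem fub (n : ℕ) (f : (Fin (n + 1) → ℂ) → ℂ)
    (hf : Integrable (fun θ => f (ze θ)) (muT (n + 1))) :
    tint f = tint (fun y : Fin n → ℂ => cavg (fun z => f (Fin.cons z y))) := by
  have h := measurePreserving_piFinSuccAbove
    (fun _ : Fin (n + 1) => (AddCircle.haarAddCircle : Measure UnitAddCircle)) 0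
  have h' := h.symm
  have e : ∀ p : UnitAddCircle × (Fin n → UnitAddCircle),
      (MeasurableEquiv.piFinSuccAbove (fun _ : Fin (n + 1) => UnitAddCircle) 0).symm p =
        Fin.cons p.1 p.2 := by
    intro p
    funext i
    refine Fin.cases ?_ (fun i => ?_) i <;> rfl
  unfold tint cavg
  have hint : Integrable (fun p : UnitAddCircle × (Fin n → UnitAddCircle) =>
      f (ze (Fin.cons p.1 p.2 : Fin (n + 1) → UnitAddCircle)))
      ((AddCircle.haarAddCircle : Measure UnitAddCircle).prod (muT n)) := by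
    have h3 := (h'.integrable_comp_emb (MeasurableEquiv.measurableEmbedding _)).2 hf
    have e2 : (fun p : UnitAddCircle × (Fin n → UnitAddCircle) =>
      f (ze (Fin.cons p.1 p.2 : Fin (n + 1) → UnitAddCircle))) = (fun θ => f (ze θ)) ∘
        (MeasurableEquiv.piFinSuccAbove (fun _ : Fin (n + 1) => UnitAddCircle) 0).symm := by
      funext p
      rw [Function.comp_apply, e]
    rw [e2]
    exact h3
  have e1 : ∫ θ, f (ze θ) ∂(muT (n + 1)) = ∫ p, f (ze (Fin.cons p.1 p.2 : Fin (n + 1) →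
      UnitAddCircle)) ∂((AddCircle.haarAddCircle : Measure UnitAddCircle).prod (muT n)) := by
    have h3 := h'.integral_comp' (fun θ => f (ze θ))
    refine h3.symm.trans (integral_congr_ae (Filter.Eventually.of_forall fun p => ?_))
    show f (ze _) = f (ze _)
    rw [e]
  have := prob n
  rw [e1, integral_prod_symm _ hint]
  simp only [ze_cons]

theorem cavg_eq (G : ℂ → ℂ) : cavg G = Real.circleAverage G 0 1 := by
  unfold cavg
  rw [AddCircle.integral_haarAddCircle, inv_one, one_smul,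
    ← UnitAddCircle.intervalIntegral_preimage 0, Real.circleAverage_def]
  have h : ∀ a : ℝ, G ((AddCircle.toCircle (a : UnitAddCircle) : Circle) : ℂ) =
      G (circleMap 0 1 (2 * Real.pi * a)) := by
    intro a
    rw [AddCircle.toCircle_apply_mk, circleMap]
    congr 1
    rw [Circle.coe_exp]
    push_cast
    simp
  simp only [h]
  have h2 := intervalIntegral.integral_comp_mul_left (a := 0) (b := 0 + 1)
    (fun x => G (circleMap 0 1 x)) (c := 2 * Real.pi) (by positivity)
  rw [h2]
  simp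

theorem cavg_zero (G : ℂ → ℂ) (hG : DiffContOnCl ℂ G (Metric.ball 0 1)) : cavg G = G 0 := by
  rw [cavg_eq]
  refine DiffContOnCl.circleAverage ?_
  rw [abs_one]
  exact hG

end TbM

/-- TB -/
theorem specTb : SpecTb :=
  ⟨TbM.tint_perm, TbM.tint_inv, TbM.ae_inj, TbM.fub, TbM.cavg_zero, TbM.norm_ze, TbM.cont_ze,
    TbM.prob⟩

end MPtg
end

section
/-!
# MEAN: mean value principle in a block of variables
-/
open Finset MeasureTheory

namespace MPtg

namespace MeanM

/-- the rotation of the coordinates in `A` -/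
noncomputable def rot {n : ℕ} (A : Finset (Fin n)) (φ : UnitAddCircle) : Fin n → UnitAddCircle :=
  fun i => if i ∈ A then φ else 0

theorem rot_meas {n : ℕ} (A : Finset (Fin n)) : Continuous (rot A) := by
  refine continuous_pi fun i => ?_
  unfold rot
  split_ifs
  · exact continuous_id
  · exact continuous_const

theorem ze_rot {n : ℕ} (A : Finset (Fin n)) (φ : UnitAddCircle) (θ : Fin n → UnitAddCircle) :
    ze (rot A φ + θ) =
      fun i => if i ∈ A then (AddCircle.toCircle φ : ℂ) * ze θ i else ze θ i := by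
  funext i
  unfold ze rot
  rw [Pi.add_apply]
  split_ifs with h
  · rw [AddCircle.toCircle_add, Circle.coe_mul]
  · rw [zero_add]

theorem mp {n : ℕ} (A : Finset (Fin n)) :
    MeasurePreserving (fun p : UnitAddCircle × (Fin n → UnitAddCircle) => rot A p.1 + p.2)
      ((AddCircle.haarAddCircle : Measure UnitAddCircle).prod (muT n)) (muT n) := by
  have := TbM.prob n
  have hl : (muT n).IsAddLeftInvariant := by unfold muT; infer_instance
  have h1 : MeasurePreserving
      (fun p : UnitAddCircle × (Fin n → UnitAddCircle) => (p.1, rot A p.1 + p.2))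
      ((AddCircle.haarAddCircle : Measure UnitAddCircle).prod (muT n))
      ((AddCircle.haarAddCircle : Measure UnitAddCircle).prod (muT n)) := by
    refine MeasurePreserving.skew_product (g := fun φ θ => rot A φ + θ)
      (MeasurePreserving.id _) ?_ (Filter.Eventually.of_forall fun φ => ?_)
    · have : Continuous (fun p : UnitAddCircle × (Fin n → UnitAddCircle) => rot A p.1 + p.2) :=
        ((rot_meas A).comp continuous_fst).add continuous_snd
      exact this.measurable
    · exact map_add_left_eq_self (muT n) (rot A φ)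
  have h2 : MeasurePreserving (Prod.snd : UnitAddCircle × (Fin n → UnitAddCircle) → _)
      ((AddCircle.haarAddCircle : Measure UnitAddCircle).prod (muT n)) (muT n) :=
    measurePreserving_snd
  exact h2.comp h1

theorem mean (n : ℕ) (A : Finset (Fin n)) (f : (Fin n → ℂ) → ℂ) (C : ℝ)
    (hm : AEStronglyMeasurable (fun θ => f (ze θ)) (muT n))
    (hb : ∀ x : Fin n → ℂ, (∀ i, ‖x i‖ = 1) → ‖f x‖ ≤ C) (G : (Fin n → ℂ) → ℂ → ℂ)
    (hG : ∀ᵐ θ ∂(muT n), DiffContOnCl ℂ (G (ze θ)) (Metric.ball 0 1) ∧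
        ∀ s : ℂ, ‖s‖ = 1 → G (ze θ) s = f (fun i => if i ∈ A then s * ze θ i else ze θ i)) :
    tint f = tint (fun x => G x 0) := by
  have := TbM.prob n
  have hl : (muT n).IsAddLeftInvariant := by unfold muT; infer_instance
  have h1 : ∀ φ : UnitAddCircle, ∫ θ, f (ze (rot A φ + θ)) ∂(muT n) = tint f := fun φ =>
    integral_add_left_eq_self (fun θ => f (ze θ)) (rot A φ)
  have hint : Integrable (fun p : UnitAddCircle × (Fin n → UnitAddCircle) =>
      f (ze (rot A p.1 + p.2)))
      ((AddCircle.haarAddCircle : Measure UnitAddCircle).prod (muT n)) := by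
    refine Integrable.of_bound
      (hm.comp_quasiMeasurePreserving (mp A).quasiMeasurePreserving) C
      (Filter.Eventually.of_forall fun p => hb _ fun i => TbM.norm_ze n _ i)
  have h2 : tint f = ∫ p, f (ze (rot A p.1 + p.2))
      ∂((AddCircle.haarAddCircle : Measure UnitAddCircle).prod (muT n)) := by
    rw [integral_prod _ hint]
    simp only [h1]
    rw [integral_const]
    simp
  rw [h2, integral_prod_symm _ hint]
  refine integral_congr_ae ?_
  filter_upwards [hG] with θ hθ
  show _ = G (ze θ) 0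
  rw [← TbM.cavg_zero _ hθ.1]
  unfold cavg
  refine integral_congr_ae (Filter.Eventually.of_forall fun φ => ?_)
  show f (ze (rot A φ + θ)) = G (ze θ) (AddCircle.toCircle φ : ℂ)
  rw [hθ.2 _ (Circle.norm_coe _), ze_rot]

end MeanM

/-- MEAN -/
theorem specMean : SpecMean := MeanM.mean

end MPtg
end

section
/-!
# TRI: triangularity of the constant terms
-/
open Finset MeasureTheory

namespace MPtg

namespace TriM

/-- `prd` as a product over pairs -/
theorem prd_eq {n : ℕ} (k : ℂ → ℂ) (x : Fin n → ℂ) :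
    prd k x = ∏ p ∈ (univ : Finset (Fin n × Fin n)).filter (fun p => p.1 < p.2),
      k (x p.1 / x p.2) := by
  unfold prd
  rw [Finset.prod_filter, Fintype.prod_prod_type]
  refine Finset.prod_congr rfl fun i _ => ?_
  rw [← Finset.prod_filter]
  refine Finset.prod_congr ?_ fun _ _ => rfl
  ext j
  simp

theorem prd_succ {n : ℕ} (k : ℂ → ℂ) (x : Fin (n + 1) → ℂ) :
    prd k x = (∏ j : Fin n, k (x 0 / x j.succ)) * prd k (fun i => x i.succ) := by
  unfold prd
  rw [Fin.prod_univ_succ, Fin.prod_Ioi_zero]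
  congr 1
  refine Finset.prod_congr rfl fun i _ => ?_
  rw [Fin.prod_Ioi_succ]

theorem ze_ne {n : ℕ} (θ : Fin n → UnitAddCircle) (i : Fin n) : ze θ i ≠ 0 := by
  intro h
  have := TbM.norm_ze n θ i
  rw [h, norm_zero] at this
  exact zero_ne_one this

theorem cont_zei {n : ℕ} (i : Fin n) : Continuous fun θ : Fin n → UnitAddCircle => ze θ i :=
  (continuous_apply i).comp (TbM.cont_ze n)

/-- functions continuous on the unit circle give continuous products -/
theorem cont_prd {n : ℕ} (k : ℂ → ℂ) (hk : ContinuousOn k (Metric.sphere 0 1)) :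
    Continuous fun θ : Fin n → UnitAddCircle => prd k (ze θ) := by
  unfold prd
  refine continuous_finsetProd _ fun i _ => continuous_finsetProd _ fun j _ => ?_
  refine hk.comp_continuous ((cont_zei i).div (cont_zei j) fun θ => ze_ne θ j) fun θ => ?_
  rw [mem_sphere_zero_iff_norm, norm_div, TbM.norm_ze, TbM.norm_ze, div_one]

theorem cont_mon {n : ℕ} (a : Fin n → ℤ) :
    Continuous fun θ : Fin n → UnitAddCircle => mon a (ze θ) := by
  unfold mon
  exact continuous_finsetProd _ fun i _ => (cont_zei i).zpow₀ (a i) fun θ => Or.inl (ze_ne θ i)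

theorem ze_surj {n : ℕ} (x : Fin n → ℂ) (hx : ∀ i, ‖x i‖ = 1) : ∃ θ, ze θ = x := by
  have h : ∀ i, ∃ t : UnitAddCircle, (AddCircle.toCircle t : ℂ) = x i := by
    intro i
    obtain ⟨t, ht⟩ := (AddCircle.homeomorphCircle (T := (1 : ℝ)) one_ne_zero).surjective
      ⟨x i, mem_sphere_zero_iff_norm.2 (hx i)⟩
    refine ⟨t, ?_⟩
    rw [AddCircle.homeomorphCircle_apply] at ht
    rw [ht]
  choose θ hθ using h
  exact ⟨θ, funext hθ⟩

/-- continuity on the torus gives a bound on the torus -/
theorem bdd_of_cont {n : ℕ} (f : (Fin n → ℂ) → ℂ)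
    (hf : Continuous fun θ : Fin n → UnitAddCircle => f (ze θ)) :
    ∃ C : ℝ, ∀ x : Fin n → ℂ, (∀ i, ‖x i‖ = 1) → ‖f x‖ ≤ C := by
  obtain ⟨C, hC⟩ := (isCompact_univ (X := Fin n → UnitAddCircle)).exists_bound_of_continuousOn
    hf.continuousOn
  refine ⟨C, fun x hx => ?_⟩
  obtain ⟨θ, rfl⟩ := ze_surj x hx
  exact hC θ (Set.mem_univ _)

theorem integrable_of_cont {n : ℕ} (f : (Fin n → ℂ) → ℂ)
    (hf : Continuous fun θ : Fin n → UnitAddCircle => f (ze θ)) :
    Integrable (fun θ => f (ze θ)) (muT n) := by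
  have := TbM.prob n
  obtain ⟨C, hC⟩ := bdd_of_cont f hf
  exact Integrable.of_bound hf.aestronglyMeasurable C
    (Filter.Eventually.of_forall fun θ => hC _ (TbM.norm_ze n θ))

/-- MEAN for continuous functions -/
theorem mean_cont {n : ℕ} (A : Finset (Fin n)) (f : (Fin n → ℂ) → ℂ)
    (hf : Continuous fun θ : Fin n → UnitAddCircle => f (ze θ)) (G : (Fin n → ℂ) → ℂ → ℂ)
    (hG : ∀ x : Fin n → ℂ, (∀ i, ‖x i‖ = 1) → (∀ s : ℂ, ‖s‖ ≤ 1 → DifferentiableAt ℂ (G x) s) ∧
      ∀ s : ℂ, ‖s‖ = 1 → G x s = f (fun i => if i ∈ A then s * x i else x i)) :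
    tint f = tint (fun x => G x 0) := by
  obtain ⟨C, hC⟩ := bdd_of_cont f hf
  refine MeanM.mean n A f C hf.aestronglyMeasurable hC G (Filter.Eventually.of_forall fun θ => ?_)
  obtain ⟨h1, h2⟩ := hG (ze θ) (TbM.norm_ze n θ)
  refine ⟨DifferentiableOn.diffContOnCl fun s hs => (h1 s ?_).differentiableWithinAt, h2⟩
  rw [closure_ball (0 : ℂ) one_ne_zero] at hs
  exact mem_closedBall_zero_iff.1 hs

/-- homogeneous functions of degree different from `0` -/
theorem homog {n : ℕ} (f : (Fin n → ℂ) → ℂ)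
    (hf : Continuous fun θ : Fin n → UnitAddCircle => f (ze θ)) (m : ℤ) (hm : m ≠ 0)
    (h : ∀ x : Fin n → ℂ, (∀ i, ‖x i‖ = 1) → ∀ s : ℂ, ‖s‖ = 1 → f (fun i => s * x i) = s ^ m * f x) :
    tint f = 0 := by
  have key : ∀ (f : (Fin n → ℂ) → ℂ), (Continuous fun θ : Fin n → UnitAddCircle => f (ze θ)) →
      ∀ m : ℕ, m ≠ 0 → (∀ x : Fin n → ℂ, (∀ i, ‖x i‖ = 1) → ∀ s : ℂ, ‖s‖ = 1 →
        f (fun i => s * x i) = s ^ m * f x) → tint f = 0 := by
    intro f hf m hm h
    have h1 := mean_cont univ f hf (fun x s => s ^ m * f x) fun x hx =>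
      ⟨fun s _ => by fun_prop, fun s hs => by simp only [Finset.mem_univ, if_true]; rw [h x hx s hs]⟩
    rw [h1]
    unfold tint
    simp only [zero_pow hm, zero_mul, integral_zero]
  rcases lt_or_gt_of_ne hm with h0 | h0
  · obtain ⟨k, hk⟩ := Int.eq_ofNat_of_zero_le (by omega : 0 ≤ -m)
    rw [← TbM.tint_inv]
    refine key _ ?_ k (by omega) ?_
    · have e : (fun θ : Fin n → UnitAddCircle => f (fun i => (ze θ i)⁻¹)) =
          (fun θ => f (ze θ)) ∘ (fun θ => -θ) := by
        funext θ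
        rw [Function.comp_apply, TbM.ze_neg]
      rw [e]
      exact hf.comp continuous_neg
    · intro x hx s hs
      have h2 := h (fun i => (x i)⁻¹) (fun i => by rw [norm_inv, hx i, inv_one]) s⁻¹
        (by rw [norm_inv, hs, inv_one])
      have e : (fun i => (s * x i)⁻¹) = fun i => s⁻¹ * (x i)⁻¹ := by
        funext i
        rw [mul_inv]
      rw [e, h2]
      congr 1
      rw [← zpow_natCast, ← hk, inv_zpow']
  · obtain ⟨k, hk⟩ := Int.eq_ofNat_of_zero_le (by omega : 0 ≤ m)
    refine key f hf k (by omega) fun x hx s hs => ?_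
    rw [h x hx s hs, hk, zpow_natCast]

theorem kA_diff (u : ℂ) (hu : ‖u‖ < 1) (z : ℂ) (hz : ‖z‖ ≤ 1) : DifferentiableAt ℂ (kA u) z := by
  unfold kA
  refine DifferentiableAt.div (by fun_prop) (by fun_prop) ?_
  intro h
  have h1 : u * z = 1 := (sub_eq_zero.1 h).symm
  have h2 : ‖u * z‖ < 1 := by
    rw [norm_mul]
    calc ‖u‖ * ‖z‖ ≤ ‖u‖ * 1 := mul_le_mul_of_nonneg_left hz (norm_nonneg u)
      _ < 1 := by rw [mul_one]; exact hu
  rw [h1, norm_one] at h2
  exact lt_irrefl _ h2

theorem kA_cont (u : ℂ) (hu : ‖u‖ < 1) : ContinuousOn (kA u) (Metric.sphere 0 1) := fun z hz =>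
  (kA_diff u hu z (mem_sphere_zero_iff_norm.1 hz).le).continuousAt.continuousWithinAt

theorem cont_f {n : ℕ} (u : ℂ) (hu : ‖u‖ < 1) (a : Fin n → ℤ) :
    Continuous fun θ : Fin n → UnitAddCircle =>
      (fun x : Fin n → ℂ => mon a x * prd (kA u) x) (ze θ) :=
  (cont_mon a).mul (cont_prd _ (kA_cont u hu))

/-- the first part -/
theorem tri1 (n : ℕ) (u : ℂ) (hu : ‖u‖ < 1) (a : Fin n → ℤ) (k : ℕ) (hk : 1 ≤ psum a k) :
    tint (fun x : Fin n → ℂ => mon a x * prd (kA u) x) = 0 := by
  obtain ⟨m, hm⟩ := Int.eq_ofNat_of_zero_le (by omega : 0 ≤ psum a k)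
  have hm1 : m ≠ 0 := by omega
  have h1 := mean_cont (univ.filter fun i : Fin n => (i : ℕ) < k)
    (fun x : Fin n → ℂ => mon a x * prd (kA u) x) (cont_f u hu a)
    (fun x s => s ^ m * (mon a x * ∏ i : Fin n, ∏ j ∈ Ioi i,
      kA u ((if (i : ℕ) < k ∧ k ≤ (j : ℕ) then s else 1) * (x i / x j)))) (fun x hx => ⟨?_, ?_⟩)
  · rw [h1]
    unfold tint
    simp only [zero_pow hm1, zero_mul, integral_zero]
  · intro s hs
    refine DifferentiableAt.mul (by fun_prop) (DifferentiableAt.mul (by fun_prop) ?_)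
    refine DifferentiableAt.fun_finsetProd fun i _ => DifferentiableAt.fun_finsetProd fun j _ => ?_
    have hz : ‖x i / x j‖ = 1 := by rw [norm_div, hx, hx, div_one]
    split_ifs with h
    · have h2 : DifferentiableAt ℂ (kA u) (s * (x i / x j)) := by
        refine kA_diff u hu _ ?_
        rw [norm_mul, hz, mul_one]
        exact hs
      exact h2.comp s (f := fun s => s * (x i / x j)) (by fun_prop)
    · exact differentiableAt_const _
  · intro s hs
    have hs0 : s ≠ 0 := by
      rintro rfl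
      rw [norm_zero] at hs
      exact zero_ne_one hs
    have e1 : mon a (fun i => if i ∈ univ.filter (fun i : Fin n => (i : ℕ) < k) then s * x i
        else x i) = s ^ m * mon a x := by
      have hp : s ^ m = ∏ i ∈ univ.filter (fun i : Fin n => (i : ℕ) < k), s ^ a i := by
        rw [← zpow_natCast, ← hm]
        unfold psum
        generalize univ.filter (fun i : Fin n => (i : ℕ) < k) = A
        induction A using Finset.induction_on with
        | empty => simp
        | insert i A hi ih => rw [Finset.sum_insert hi, Finset.prod_insert hi, zpow_add₀ hs0, ih]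
      rw [hp, Finset.prod_filter]
      unfold mon
      rw [← Finset.prod_mul_distrib]
      refine Finset.prod_congr rfl fun i _ => ?_
      simp only [Finset.mem_filter, Finset.mem_univ, true_and]
      split_ifs
      · rw [mul_zpow]
      · rw [one_mul]
    rw [e1, mul_assoc]
    congr 2
    unfold prd
    refine Finset.prod_congr rfl fun i _ => Finset.prod_congr rfl fun j hj => ?_
    rw [Finset.mem_Ioi] at hj
    have hij : (i : ℕ) < j := hj
    simp only [Finset.mem_filter, Finset.mem_univ, true_and]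
    congr 1
    by_cases hi : (i : ℕ) < k
    · by_cases hj' : (j : ℕ) < k
      · rw [if_neg (by omega), if_pos hi, if_pos hj', one_mul, mul_div_mul_left _ _ hs0]
      · rw [if_pos (by omega), if_pos hi, if_neg hj', mul_div_assoc]
    · rw [if_neg (by omega), if_neg hi, if_neg (by omega), one_mul]

/-- the second part -/
theorem tri2 (n : ℕ) (u : ℂ) (hu : ‖u‖ < 1) (a : Fin n → ℤ) (ha : psum a n ≠ 0) :
    tint (fun x : Fin n → ℂ => mon a x * prd (kA u) x) = 0 := by
  refine homog _ (cont_f u hu a) (psum a n) ha fun x hx s hs => ?_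
  have hs0 : s ≠ 0 := by
    rintro rfl
    rw [norm_zero] at hs
    exact zero_ne_one hs
  have e1 : mon a (fun i => s * x i) = s ^ psum a n * mon a x := by
    have hp : s ^ psum a n = ∏ i, s ^ a i := by
      have : psum a n = ∑ i, a i := by
        unfold psum
        refine Finset.sum_congr ?_ fun _ _ => rfl
        ext i
        simp
      rw [this]
      generalize (univ : Finset (Fin n)) = A
      induction A using Finset.induction_on with
      | empty => simp
      | insert i A hi ih => rw [Finset.sum_insert hi, Finset.prod_insert hi, zpow_add₀ hs0, ih]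
    rw [hp]
    unfold mon
    rw [← Finset.prod_mul_distrib]
    exact Finset.prod_congr rfl fun i _ => mul_zpow _ _ _
  rw [e1, mul_assoc]
  congr 2
  unfold prd
  refine Finset.prod_congr rfl fun i _ => Finset.prod_congr rfl fun j hj => ?_
  rw [mul_div_mul_left _ _ hs0]

/-- the first variable can be dropped -/
theorem tint_tail (n : ℕ) (f : (Fin n → ℂ) → ℂ)
    (hf : Continuous fun θ : Fin n → UnitAddCircle => f (ze θ)) :
    tint (fun x : Fin (n + 1) → ℂ => f (fun i => x i.succ)) = tint f := by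
  rw [TbM.fub]
  · congr 1
    funext y
    simp only [Fin.cons_succ]
    unfold cavg
    rw [integral_const]
    simp
  · refine integrable_of_cont (fun x : Fin (n + 1) → ℂ => f (fun i => x i.succ)) ?_
    exact hf.comp (f := fun θ : Fin (n + 1) → UnitAddCircle => fun i : Fin n => θ i.succ)
      (by fun_prop)

/-- the third part -/
theorem tri3 (n : ℕ) (u : ℂ) (hu : ‖u‖ < 1) : tint (fun x : Fin n → ℂ => prd (kA u) x) = 1 := by
  induction n with
  | zero =>
    unfold tint
    have := TbM.prob 0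
    simp [prd]
  | succ n ih =>
    have h1 := mean_cont ({0} : Finset (Fin (n + 1))) (fun x => prd (kA u) x)
      (cont_prd _ (kA_cont u hu))
      (fun x s => (∏ j : Fin n, kA u (s * (x 0 / x j.succ))) * prd (kA u) (fun i => x i.succ))
      (fun x hx => ⟨?_, ?_⟩)
    · rw [h1]
      have e : ∀ z : ℂ, kA u (0 * z) = 1 := by
        intro z
        simp [kA]
      simp only [e, Finset.prod_const_one, one_mul]
      rw [← ih]
      exact tint_tail n _ (cont_prd _ (kA_cont u hu))
    · intro s hs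
      refine DifferentiableAt.mul ?_ (by fun_prop)
      refine DifferentiableAt.fun_finsetProd fun j _ => ?_
      have hz : ‖x 0 / x j.succ‖ = 1 := by rw [norm_div, hx, hx, div_one]
      have h2 : DifferentiableAt ℂ (kA u) (s * (x 0 / x j.succ)) := by
        refine kA_diff u hu _ ?_
        rw [norm_mul, hz, mul_one]
        exact hs
      exact h2.comp s (f := fun s => s * (x 0 / x j.succ)) (by fun_prop)
    · intro s hs
      rw [prd_succ]
      congr 1
      refine Finset.prod_congr rfl fun j _ => ?_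
      simp [mul_div_assoc]

end TriM

/-- TRI -/
theorem specTri : SpecTri := fun n u hu =>
  ⟨fun a ⟨k, _, hk⟩ => TriM.tri1 n u hu a k hk, fun a ha => TriM.tri2 n u hu a ha,
    TriM.tri3 n u hu⟩

end MPtg
end

section
/-!
# UNSYM: unsymmetrisation
-/
open Finset MeasureTheory

namespace MPtg

namespace UnsymM

/-- products over pairs of a symmetric function -/
theorem pair_perm {n : ℕ} (F : Fin n → Fin n → ℂ) (hF : ∀ i j, F i j = F j i)
    (w : Equiv.Perm (Fin n)) :
    ∏ p ∈ (univ : Finset (Fin n × Fin n)).filter (fun p => p.1 < p.2), F (w p.1) (w p.2) =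
      ∏ p ∈ (univ : Finset (Fin n × Fin n)).filter (fun p => p.1 < p.2), F p.1 p.2 := by
  have key : ∀ (w : Equiv.Perm (Fin n)) (p : Fin n × Fin n), p.1 < p.2 →
      (if w p.1 < w p.2 then (w p.1, w p.2) else (w p.2, w p.1)).1 <
        (if w p.1 < w p.2 then (w p.1, w p.2) else (w p.2, w p.1)).2 := by
    intro w p hp
    split_ifs with h
    · exact h
    · have : w p.1 ≠ w p.2 := fun h' => hp.ne (w.injective h')
      exact lt_of_le_of_ne (not_lt.1 h) this.symm
  have key2 : ∀ (w : Equiv.Perm (Fin n)) (p : Fin n × Fin n), p.1 < p.2 →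
      (fun p : Fin n × Fin n => if w.symm p.1 < w.symm p.2 then (w.symm p.1, w.symm p.2)
        else (w.symm p.2, w.symm p.1)) (if w p.1 < w p.2 then (w p.1, w p.2)
          else (w p.2, w p.1)) = p := by
    intro w p hp
    by_cases h : w p.1 < w p.2
    · simp [h, hp]
    · simp [h, not_lt.2 hp.le]
  refine Finset.prod_bij' (fun p _ => if w p.1 < w p.2 then (w p.1, w p.2) else (w p.2, w p.1))
    (fun p _ => if w.symm p.1 < w.symm p.2 then (w.symm p.1, w.symm p.2)
      else (w.symm p.2, w.symm p.1)) ?_ ?_ ?_ ?_ ?_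
  · intro p hp
    simp only [Finset.mem_filter, Finset.mem_univ, true_and] at hp ⊢
    exact key w p hp
  · intro p hp
    simp only [Finset.mem_filter, Finset.mem_univ, true_and] at hp ⊢
    exact key w.symm p hp
  · intro p hp
    simp only [Finset.mem_filter, Finset.mem_univ, true_and] at hp
    exact key2 w p hp
  · intro p hp
    simp only [Finset.mem_filter, Finset.mem_univ, true_and] at hp
    have := key2 w.symm p hp
    simpa only [Equiv.symm_symm] using this
  · intro p hp
    split_ifs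
    · rfl
    · exact hF _ _

theorem kD_inv (u z : ℂ) : kD u z⁻¹ = kD u z := by
  unfold kD
  rw [inv_inv]
  ring

/-- `prd (kD u)` is symmetric -/
theorem prd_kD_perm {n : ℕ} (u : ℂ) (x : Fin n → ℂ) (w : Equiv.Perm (Fin n)) :
    prd (kD u) (fun i => x (w i)) = prd (kD u) x := by
  rw [TriM.prd_eq, TriM.prd_eq]
  exact pair_perm (fun i j => kD u (x i / x j)) (fun i j => by
    rw [← inv_div, kD_inv]) w

theorem prd_kD_inv {n : ℕ} (u : ℂ) (x : Fin n → ℂ) :
    prd (kD u) (fun i => (x i)⁻¹) = prd (kD u) x := by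
  unfold prd
  refine Finset.prod_congr rfl fun i _ => Finset.prod_congr rfl fun j _ => ?_
  rw [← kD_inv]
  congr 1
  rw [inv_div_inv, inv_div]

theorem kK_cont (u u' : ℂ) (hu : ‖u'‖ < 1) : ContinuousOn (kK u u') (Metric.sphere 0 1) := by
  intro z hz
  have hz' : ‖z‖ = 1 := mem_sphere_zero_iff_norm.1 hz
  unfold kK
  refine ContinuousAt.continuousWithinAt (ContinuousAt.div (by fun_prop) (by fun_prop) ?_)
  refine mul_ne_zero ?_ ?_
  · intro h
    rw [sub_eq_zero.1 h] at hz'
    exact absurd hz' hu.ne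
  · intro h
    have h1 : u' * z = 1 := (sub_eq_zero.1 h).symm
    have h2 : ‖u' * z‖ = 1 := by rw [h1, norm_one]
    rw [norm_mul, hz', mul_one] at h2
    exact absurd h2 hu.ne

/-- the local identity -/
theorem local_id (u u' a b : ℂ) (ha : ‖a‖ = 1) (hb : ‖b‖ = 1) (hu : ‖u'‖ < 1) (hab : a ≠ b) :
    (a - u * b) / (a - b) * kD u' (a / b) = kK u u' (a / b) := by
  have ha0 : a ≠ 0 := by
    rintro rfl
    rw [norm_zero] at ha
    exact zero_ne_one ha
  have hb0 : b ≠ 0 := by
    rintro rfl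
    rw [norm_zero] at hb
    exact zero_ne_one hb
  have h1 : a - b ≠ 0 := sub_ne_zero.2 hab
  have h2 : b - u' * a ≠ 0 := by
    intro h
    have h3 : ‖b‖ = ‖u' * a‖ := by rw [sub_eq_zero.1 h]
    rw [norm_mul, ha, hb, mul_one] at h3
    exact absurd h3.symm hu.ne
  have h3 : a - u' * b ≠ 0 := by
    intro h
    have h3 : ‖a‖ = ‖u' * b‖ := by rw [sub_eq_zero.1 h]
    rw [norm_mul, ha, hb, mul_one] at h3
    exact absurd h3.symm hu.ne
  unfold kD kK
  have e1 : 1 - a / b = (b - a) / b := by field_simp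
  have e2 : 1 - (a / b)⁻¹ = (a - b) / a := by rw [inv_div]; field_simp
  have e3 : 1 - u' * (a / b) = (b - u' * a) / b := by field_simp
  have e4 : 1 - u' * (a / b)⁻¹ = (a - u' * b) / a := by rw [inv_div]; field_simp
  have e5 : a / b - u = (a - u * b) / b := by field_simp
  have e6 : a / b - u' = (a - u' * b) / b := by field_simp
  rw [e1, e2, e3, e4, e5, e6]
  field_simp

/-- one term -/
noncomputable def T {n : ℕ} (u u' : ℂ) (L : Fin n → ℤ) (H : (Fin n → ℂ) → ℂ) (x : Fin n → ℂ) : ℂ :=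
  mon L x * H x * prd (kK u u') x

theorem HLR_id {n : ℕ} (u u' : ℂ) (hu : ‖u'‖ < 1) (L : Fin n → ℤ) (H : (Fin n → ℂ) → ℂ)
    (hH : ∀ (w : Equiv.Perm (Fin n)) (x : Fin n → ℂ), (∀ i, ‖x i‖ = 1) →
      H (fun i => x (w i)) = H x) (x : Fin n → ℂ) (hx : ∀ i, ‖x i‖ = 1)
    (hinj : Function.Injective x) :
    HLR u L x * H x * prd (kD u') x = ∑ w : Equiv.Perm (Fin n), T u u' L H (fun i => x (w i)) := by
  unfold HLR
  rw [Finset.sum_mul, Finset.sum_mul]
  refine Finset.sum_congr rfl fun w _ => ?_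
  unfold T
  rw [hH w x hx, ← prd_kD_perm u' x w]
  have e : (∏ i, ∏ j ∈ Ioi i, (x (w i) - u * x (w j)) / (x (w i) - x (w j))) *
      prd (kD u') (fun i => x (w i)) = prd (kK u u') (fun i => x (w i)) := by
    unfold prd
    rw [← Finset.prod_mul_distrib]
    refine Finset.prod_congr rfl fun i _ => ?_
    rw [← Finset.prod_mul_distrib]
    refine Finset.prod_congr rfl fun j hj => ?_
    refine local_id u u' _ _ (hx _) (hx _) hu fun h => ?_
    rw [Finset.mem_Ioi] at hj
    exact hj.ne (w.injective (hinj h))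
  rw [← e]
  ring

theorem unsym (n : ℕ) (u u' : ℂ) (hu : ‖u'‖ < 1) (L : Fin n → ℤ) (H : (Fin n → ℂ) → ℂ) (C : ℝ)
    (hH : ∀ (w : Equiv.Perm (Fin n)) (x : Fin n → ℂ), (∀ i, ‖x i‖ = 1) →
      H (fun i => x (w i)) = H x)
    (hm : AEStronglyMeasurable (fun θ => H (ze θ)) (muT n))
    (hb : ∀ x : Fin n → ℂ, (∀ i, ‖x i‖ = 1) → ‖H x‖ ≤ C) :
    tint (fun x : Fin n → ℂ => HLR u L x * H x * prd (kD u') x) =
      (Nat.factorial n : ℂ) * tint (fun x : Fin n → ℂ => mon L x * H x * prd (kK u u') x) := by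
  have := TbM.prob n
  obtain ⟨C1, hC1⟩ := TriM.bdd_of_cont (fun x : Fin n → ℂ => mon L x) (TriM.cont_mon L)
  obtain ⟨C2, hC2⟩ := TriM.bdd_of_cont (fun x : Fin n → ℂ => prd (kK u u') x)
    (TriM.cont_prd _ (kK_cont u u' hu))
  have hint : Integrable (fun θ => T u u' L H (ze θ)) (muT n) := by
    refine Integrable.of_bound (((TriM.cont_mon L).aestronglyMeasurable.mul hm).mul
      (TriM.cont_prd _ (kK_cont u u' hu)).aestronglyMeasurable) (C1 * C * C2)
      (Filter.Eventually.of_forall fun θ => ?_)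
    have h1 := hC1 _ (TbM.norm_ze n θ)
    have h2 := hC2 _ (TbM.norm_ze n θ)
    have h3 := hb _ (TbM.norm_ze n θ)
    show ‖mon L (ze θ) * H (ze θ) * prd (kK u u') (ze θ)‖ ≤ _
    rw [norm_mul, norm_mul]
    exact mul_le_mul (mul_le_mul h1 h3 (norm_nonneg _) ((norm_nonneg _).trans h1)) h2
      (norm_nonneg _) (mul_nonneg ((norm_nonneg _).trans h1) ((norm_nonneg _).trans h3))
  have hintw : ∀ w : Equiv.Perm (Fin n),
      Integrable (fun θ => T u u' L H (fun i => ze θ (w i))) (muT n) := by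
    intro w
    have h := measurePreserving_piCongrLeft
      (fun _ : Fin n => (AddCircle.haarAddCircle : Measure UnitAddCircle)) w.symm
    have h2 := (h.integrable_comp_emb (MeasurableEquiv.measurableEmbedding _)).2 hint
    have e : (fun θ => T u u' L H (fun i => ze θ (w i))) = (fun θ => T u u' L H (ze θ)) ∘
        (MeasurableEquiv.piCongrLeft (fun _ : Fin n => UnitAddCircle) w.symm) := by
      funext θ
      rw [Function.comp_apply]
      congr 1
      funext i
      unfold ze
      have : MeasurableEquiv.piCongrLeft (fun _ : Fin n => UnitAddCircle) w.symm θ i = θ (w i) := by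
        have := Equiv.piCongrLeft_apply_apply (fun _ : Fin n => UnitAddCircle) w.symm θ (w i)
        rw [Equiv.symm_apply_apply] at this
        exact this
      rw [this]
    rw [e]
    exact h2
  have e1 : tint (fun x : Fin n → ℂ => HLR u L x * H x * prd (kD u') x) =
      ∫ θ, ∑ w : Equiv.Perm (Fin n), T u u' L H (fun i => ze θ (w i)) ∂(muT n) := by
    unfold tint
    refine integral_congr_ae ?_
    filter_upwards [TbM.ae_inj n] with θ hθ
    exact HLR_id u u' hu L H hH (ze θ) (TbM.norm_ze n θ) hθ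
  rw [e1, integral_finsetSum _ fun w _ => hintw w]
  have e2 : ∀ w : Equiv.Perm (Fin n), ∫ θ, T u u' L H (fun i => ze θ (w i)) ∂(muT n) =
      tint (T u u' L H) := fun w => TbM.tint_perm n (T u u' L H) w
  simp only [e2]
  rw [Finset.sum_const, Finset.card_univ, Fintype.card_perm, Fintype.card_fin, nsmul_eq_mul]
  rfl

end UnsymM

/-- UNSYM -/
theorem specUnsym : SpecUnsym := UnsymM.unsym

end MPtg
end

section
/-!
# ORT: orthogonality of the Hall-Littlewood polynomials
-/
open Finset MeasureTheory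

namespace MPtg

namespace OrtM

theorem norm_u (u : ℝ) (h0 : 0 < u) (h1 : u < 1) : ‖(u : ℂ)‖ < 1 := by
  rw [Complex.norm_real, Real.norm_eq_abs, abs_of_pos h0]
  exact h1

/-- continuity on the torus of functions continuous at nonzero points -/
theorem cont_of {n : ℕ} (f : (Fin n → ℂ) → ℂ) (hf : ContinuousOn f {x | ∀ i, x i ≠ 0}) :
    Continuous fun θ : Fin n → UnitAddCircle => f (ze θ) :=
  hf.comp_continuous (TbM.cont_ze n) fun θ i => TriM.ze_ne θ i

theorem cont_of_inv {n : ℕ} (f : (Fin n → ℂ) → ℂ) (hf : ContinuousOn f {x | ∀ i, x i ≠ 0}) :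
    Continuous fun θ : Fin n → UnitAddCircle => f (fun i => (ze θ i)⁻¹) := by
  have e : (fun θ : Fin n → UnitAddCircle => f (fun i => (ze θ i)⁻¹)) =
      (fun θ => f (ze θ)) ∘ (fun θ => -θ) := by
    funext θ
    rw [Function.comp_apply, TbM.ze_neg]
  rw [e]
  exact (cont_of f hf).comp continuous_neg

/-- `∏_{i ∈ B} g(rank of i) = ∏_{k < |B|} g(k+1)` -/
theorem rank_prod {α : Type} [LinearOrder α] (g : ℕ → ℂ) (B : Finset α) :
    ∏ i ∈ B, g (B.filter (fun j => j ≤ i)).card = ∏ k ∈ range B.card, g (k + 1) := by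
  induction B using Finset.induction_on_max with
  | empty => simp
  | insert a s ha ih =>
    have hna : a ∉ s := fun h => lt_irrefl a (ha a h)
    rw [Finset.prod_insert hna, Finset.card_insert_of_notMem hna, Finset.prod_range_succ, ← ih,
      mul_comm]
    congr 1
    · refine Finset.prod_congr rfl fun i hi => ?_
      congr 2
      rw [Finset.filter_insert, if_neg (not_le.2 (ha i hi))]
    · congr 1
      have : (insert a s).filter (fun j => j ≤ a) = insert a s := by
        refine Finset.filter_true_of_mem fun j hj => ?_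
        rcases Finset.mem_insert.1 hj with rfl | hj
        · exact le_rfl
        · exact (ha j hj).le
      rw [this, Finset.card_insert_of_notMem hna]

/-- the recursion of `vL` -/
theorem vL_succ {n : ℕ} (L : Fin (n + 1) → ℤ) (u : ℂ) :
    vL L u = (∑ l ∈ range (univ.filter (fun i : Fin (n + 1) => L i = L 0)).card, u ^ l) *
      vL (fun i : Fin n => L i.succ) u := by
  classical
  set g : ℕ → ℂ := fun k => ∑ l ∈ range k, u ^ l with hg
  set B : Finset (Fin (n + 1)) := univ.filter (fun i => L i = L 0) with hB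
  set B' : Finset (Fin n) := univ.filter (fun i => L i.succ = L 0) with hB'
  have h1 : vL L u = (∏ i ∈ B, g (B.filter (fun j => j ≤ i)).card) *
      ∏ i ∈ univ.filter (fun i => ¬ L i = L 0),
        g (univ.filter (fun j : Fin (n + 1) => j ≤ i ∧ L j = L i)).card := by
    unfold vL
    rw [← Finset.prod_filter_mul_prod_filter_not univ (fun i => L i = L 0)]
    congr 1
    refine Finset.prod_congr rfl fun i hi => ?_
    rw [Finset.mem_filter] at hi
    show g _ = g _
    congr 2
    ext j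
    simp only [hB, Finset.mem_filter, Finset.mem_univ, true_and, hi.2]
    exact and_comm
  have h2 : vL (fun i : Fin n => L i.succ) u = (∏ i ∈ B', g (B'.filter (fun j => j ≤ i)).card) *
      ∏ i ∈ univ.filter (fun i : Fin n => ¬ L i.succ = L 0),
        g (univ.filter (fun j : Fin n => j ≤ i ∧ L j.succ = L i.succ)).card := by
    unfold vL
    rw [← Finset.prod_filter_mul_prod_filter_not univ (fun i : Fin n => L i.succ = L 0)]
    congr 1
    refine Finset.prod_congr rfl fun i hi => ?_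
    rw [Finset.mem_filter] at hi
    show g _ = g _
    congr 2
    ext j
    simp only [hB', Finset.mem_filter, Finset.mem_univ, true_and, hi.2]
    exact and_comm
  have h3 : ∏ i ∈ univ.filter (fun i => ¬ L i = L 0),
        g (univ.filter (fun j : Fin (n + 1) => j ≤ i ∧ L j = L i)).card =
      ∏ i ∈ univ.filter (fun i : Fin n => ¬ L i.succ = L 0),
        g (univ.filter (fun j : Fin n => j ≤ i ∧ L j.succ = L i.succ)).card := by
    rw [Finset.prod_filter, Finset.prod_filter, Fin.prod_univ_succ]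
    simp only [not_true_eq_false, if_false, one_mul]
    refine Finset.prod_congr rfl fun i _ => ?_
    by_cases h : L i.succ = L 0
    · simp [h]
    · rw [if_pos h, if_pos h]
      congr 1
      have : univ.filter (fun j : Fin (n + 1) => j ≤ i.succ ∧ L j = L i.succ) =
          (univ.filter (fun j : Fin n => j ≤ i ∧ L j.succ = L i.succ)).map (Fin.succEmb n) := by
        ext j
        simp only [Finset.mem_filter, Finset.mem_univ, true_and, Finset.mem_map, Fin.coe_succEmb]
        constructor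
        · rintro ⟨hj, hL⟩
          refine Fin.cases (fun hj hL => absurd hL.symm h) (fun j hj hL => ⟨j, ⟨?_, hL⟩, rfl⟩) j hj hL
          exact Fin.succ_le_succ_iff.1 hj
        · rintro ⟨j, ⟨hj, hL⟩, rfl⟩
          exact ⟨Fin.succ_le_succ_iff.2 hj, hL⟩
      rw [this, Finset.card_map]
  have h4 : B.card = B'.card + 1 := by
    have : B = insert 0 (B'.map (Fin.succEmb n)) := by
      ext j
      simp only [hB, hB', Finset.mem_filter, Finset.mem_univ, true_and, Finset.mem_insert,
        Finset.mem_map, Fin.coe_succEmb]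
      constructor
      · intro h
        refine Fin.cases (fun _ => Or.inl rfl) (fun j h => Or.inr ⟨j, h, rfl⟩) j h
      · rintro (rfl | ⟨j, h, rfl⟩)
        · rfl
        · exact h
    rw [this, Finset.card_insert_of_notMem, Finset.card_map]
    simp [Fin.succ_ne_zero]
  rw [h1, h2, h3, rank_prod g B, rank_prod g B', h4, Finset.prod_range_succ]
  show _ = g (B'.card + 1) * _
  ring

/-- `kK u u = kA u` on the circle -/
theorem kK_kA {n : ℕ} (u : ℂ) (hu : ‖u‖ < 1) (x : Fin n → ℂ) (hx : ∀ i, ‖x i‖ = 1) :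
    prd (kK u u) x = prd (kA u) x := by
  unfold prd
  refine Finset.prod_congr rfl fun i _ => Finset.prod_congr rfl fun j _ => ?_
  unfold kK kA
  have hz : ‖x i / x j‖ = 1 := by
    rw [norm_div, hx, hx, div_one]
  have hne : x i / x j - u ≠ 0 := by
    intro h
    rw [sub_eq_zero.1 h] at hz
    exact absurd hz hu.ne
  rw [mul_div_mul_left _ _ hne]

theorem ne_of_norm {n : ℕ} {x : Fin n → ℂ} (hx : ∀ i, ‖x i‖ = 1) (i : Fin n) : x i ≠ 0 := by
  intro h
  have := hx i
  rw [h, norm_zero] at this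
  exact zero_ne_one this

/-- the inner integral -/
noncomputable def I' {n : ℕ} (u : ℝ) (L M : Fin n → ℤ) : ℂ :=
  tint (fun x : Fin n → ℂ => mon L x * RP (u : ℂ) M (fun i => (x i)⁻¹) * prd (kA (u : ℂ)) x)

theorem eq_I' (hR : SpecRpp) (hP : SpecPoly) {n : ℕ} (u : ℝ) (h0 : 0 < u) (h1 : u < 1)
    (L M : Fin n → ℤ) (hL : Antitone L) (hM : Antitone M) :
    tint (fun x : Fin n → ℂ => RP (u : ℂ) L x * RP (u : ℂ) M (fun i => (x i)⁻¹) *
      prd (kD (u : ℂ)) x) = (Nat.factorial n : ℂ) * I' u L M := by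
  have hu := norm_u u h0 h1
  have hc := cont_of_inv _ ((hR n u h0 h1).2.1 M hM)
  obtain ⟨C, hC⟩ := TriM.bdd_of_cont (fun x : Fin n → ℂ => RP (u : ℂ) M (fun i => (x i)⁻¹)) hc
  have h := UnsymM.unsym n u u hu L (fun x => RP (u : ℂ) M (fun i => (x i)⁻¹)) C
    (fun w x hx => (hR n u h0 h1).2.2.1 M hM (fun i => (x i)⁻¹)
      (fun i => inv_ne_zero (ne_of_norm hx i)) w) hc.aestronglyMeasurable hC
  have e1 : tint (fun x : Fin n → ℂ => RP (u : ℂ) L x * RP (u : ℂ) M (fun i => (x i)⁻¹) *
      prd (kD (u : ℂ)) x) = tint (fun x : Fin n → ℂ => HLR (u : ℂ) L x *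
        RP (u : ℂ) M (fun i => (x i)⁻¹) * prd (kD (u : ℂ)) x) := by
    unfold tint
    refine integral_congr_ae ?_
    filter_upwards [TbM.ae_inj n] with θ hθ
    rw [(hP n u h0 h1 L hL).1 (ze θ) (TriM.ze_ne θ) hθ]
  rw [e1, h]
  congr 1
  unfold I' tint
  refine integral_congr_ae (Filter.Eventually.of_forall fun θ => ?_)
  simp only
  rw [kK_kA _ hu _ (TbM.norm_ze n θ)]

/-- vanishing -/
theorem I'_zero (hP : SpecPoly) {n : ℕ} (u : ℝ) (h0 : 0 < u) (h1 : u < 1)
    (L M : Fin n → ℤ) (hM : Antitone M) (hk : ∃ k ≤ n, psum M k < psum L k) : I' u L M = 0 := by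
  have hu := norm_u u h0 h1
  obtain ⟨s, c, hs, hx⟩ := (hP n u h0 h1 M hM).2
  obtain ⟨k, hkn, hk⟩ := hk
  have e1 : I' u L M = ∫ θ, ∑ a ∈ s, c a * (mon (L - a) (ze θ) * prd (kA (u : ℂ)) (ze θ))
      ∂(muT n) := by
    unfold I' tint
    refine integral_congr_ae (Filter.Eventually.of_forall fun θ => ?_)
    simp only
    rw [hx _ (fun i => inv_ne_zero (TriM.ze_ne θ i)), Finset.mul_sum, Finset.sum_mul]
    refine Finset.sum_congr rfl fun a _ => ?_
    have e : mon (L - a) (ze θ) = mon L (ze θ) * mon a (fun i => (ze θ i)⁻¹) := by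
      unfold mon
      rw [← Finset.prod_mul_distrib]
      refine Finset.prod_congr rfl fun i _ => ?_
      rw [Pi.sub_apply, inv_zpow, zpow_sub₀ (TriM.ze_ne θ i), div_eq_mul_inv]
    rw [e]
    ring
  have hint : ∀ a : Fin n → ℤ, Integrable
      (fun θ => mon (L - a) (ze θ) * prd (kA (u : ℂ)) (ze θ)) (muT n) := fun a =>
    TriM.integrable_of_cont (fun x : Fin n → ℂ => mon (L - a) x * prd (kA (u : ℂ)) x)
      (TriM.cont_f (u : ℂ) hu (L - a))
  rw [e1, integral_finsetSum _ fun a _ => (hint a).const_mul (c a)]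
  refine Finset.sum_eq_zero fun a ha => ?_
  rw [integral_const_mul]
  have h3 : 1 ≤ psum (L - a) k := by
    have h4 := (hs a ha).2 (univ.filter (fun i : Fin n => (i : ℕ) < k))
    have h5 : (univ.filter (fun i : Fin n => (i : ℕ) < k)).card = k := by
      have : (univ.filter (fun i : Fin n => (i : ℕ) < k)) =
          (Finset.range k).attachFin (fun m hm => lt_of_lt_of_le (Finset.mem_range.1 hm) hkn) := by
        ext i
        simp
      rw [this, Finset.card_attachFin, Finset.card_range]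
    rw [h5] at h4
    have h6 : psum (L - a) k = psum L k - ∑ i ∈ univ.filter (fun i : Fin n => (i : ℕ) < k), a i := by
      unfold psum
      rw [← Finset.sum_sub_distrib]
      rfl
    omega
  have h7 := TriM.tri1 n (u : ℂ) hu (L - a) k h3
  unfold tint at h7
  rw [h7, mul_zero]

/-- the recursion of the norms -/
theorem I'_succ (hR : SpecRpp) (hT : SpecTopc) {n : ℕ} (u : ℝ) (h0 : 0 < u) (h1 : u < 1)
    (L : Fin (n + 1) → ℤ) (hL : Antitone L) :
    I' u L L = (∑ l ∈ range (univ.filter (fun i : Fin (n + 1) => L i = L 0)).card, (u : ℂ) ^ l) *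
      I' u (fun i : Fin n => L i.succ) (fun i : Fin n => L i.succ) := by
  classical
  have hu := norm_u u h0 h1
  have hL' : Antitone (fun i : Fin n => L i.succ) := fun i j hij =>
    hL (Fin.succ_le_succ_iff.2 hij)
  have hT' := hT n u h0 h1 L hL
  choose! p hp using hT'
  set r : ℂ := ∑ l ∈ range (univ.filter (fun i : Fin (n + 1) => L i = L 0)).card, (u : ℂ) ^ l
    with hr
  have hcR := cont_of_inv _ ((hR (n + 1) u h0 h1).2.1 L hL)
  have hcR' := cont_of_inv _ ((hR n u h0 h1).2.1 _ hL')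
  have hcA : ∀ m : ℕ, Continuous fun θ : Fin m → UnitAddCircle => prd (kA (u : ℂ)) (ze θ) :=
    fun m => TriM.cont_prd _ (TriM.kA_cont _ hu)
  have h := TriM.mean_cont ({0} : Finset (Fin (n + 1)))
    (fun x : Fin (n + 1) → ℂ => mon L x * RP (u : ℂ) L (fun i => (x i)⁻¹) * prd (kA (u : ℂ)) x)
    (((TriM.cont_mon L).mul hcR).mul (hcA _))
    (fun x s => mon (fun i : Fin n => L i.succ) (fun i => x i.succ) *
      (p (fun i : Fin n => (x i.succ)⁻¹)).eval (s * x 0) *
      ((∏ j : Fin n, kA (u : ℂ) (s * (x 0 / x j.succ))) * prd (kA (u : ℂ)) (fun i => x i.succ)))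
    (fun x hx => ⟨?_, ?_⟩)
  · unfold I'
    rw [h]
    have e : ∀ x : Fin (n + 1) → ℂ, (∀ i, x i ≠ 0) →
        mon (fun i : Fin n => L i.succ) (fun i => x i.succ) *
      (p (fun i : Fin n => (x i.succ)⁻¹)).eval (0 * x 0) *
      ((∏ j : Fin n, kA (u : ℂ) (0 * (x 0 / x j.succ))) *
        prd (kA (u : ℂ)) (fun i => x i.succ)) = r *
        (mon (fun i : Fin n => L i.succ) (fun i => x i.succ) *
          RP (u : ℂ) (fun i : Fin n => L i.succ) (fun i => (x i.succ)⁻¹) *
          prd (kA (u : ℂ)) (fun i => x i.succ)) := by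
      intro x hx
      have e0 : ∀ z : ℂ, kA (u : ℂ) (0 * z) = 1 := by
        intro z
        simp [kA]
      simp only [e0, Finset.prod_const_one, one_mul]
      rw [zero_mul, (hp (fun i : Fin n => (x i.succ)⁻¹) fun i => inv_ne_zero (hx _)).2]
      ring
    have e2 : tint (fun x : Fin (n + 1) → ℂ =>
        mon (fun i : Fin n => L i.succ) (fun i => x i.succ) *
      (p (fun i : Fin n => (x i.succ)⁻¹)).eval (0 * x 0) *
      ((∏ j : Fin n, kA (u : ℂ) (0 * (x 0 / x j.succ))) *
        prd (kA (u : ℂ)) (fun i => x i.succ))) = tint (fun x : Fin (n + 1) → ℂ => r *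
        (mon (fun i : Fin n => L i.succ) (fun i => x i.succ) *
          RP (u : ℂ) (fun i : Fin n => L i.succ) (fun i => (x i.succ)⁻¹) *
          prd (kA (u : ℂ)) (fun i => x i.succ))) := by
      unfold tint
      exact integral_congr_ae (Filter.Eventually.of_forall fun θ => e (ze θ) (TriM.ze_ne θ))
    rw [e2]
    have e3 := TriM.tint_tail n (fun y : Fin n → ℂ => r * (mon (fun i : Fin n => L i.succ) y *
      RP (u : ℂ) (fun i : Fin n => L i.succ) (fun i => (y i)⁻¹) * prd (kA (u : ℂ)) y))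
      (continuous_const.mul (((TriM.cont_mon _).mul hcR').mul (hcA _)))
    rw [e3]
    unfold tint
    rw [integral_const_mul]
  · intro s hs
    refine DifferentiableAt.mul (DifferentiableAt.mul (by fun_prop) ?_)
      (DifferentiableAt.mul ?_ (by fun_prop))
    · exact ((p (fun i : Fin n => (x i.succ)⁻¹)).differentiable _).comp s
        (f := fun s => s * x 0) (by fun_prop)
    · refine DifferentiableAt.fun_finsetProd fun j _ => ?_
      have hz : ‖x 0 / x j.succ‖ = 1 := by rw [norm_div, hx, hx, div_one]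
      have h2 : DifferentiableAt ℂ (kA (u : ℂ)) (s * (x 0 / x j.succ)) := by
        refine TriM.kA_diff _ hu _ ?_
        rw [norm_mul, hz, mul_one]
        exact hs
      exact h2.comp s (f := fun s => s * (x 0 / x j.succ)) (by fun_prop)
  · intro s hs
    have hs0 : s ≠ 0 := by
      rintro rfl
      rw [norm_zero] at hs
      exact zero_ne_one hs
    have hx0 : ∀ i, x i ≠ 0 := ne_of_norm hx
    set y : Fin (n + 1) → ℂ := fun i => if i ∈ ({0} : Finset (Fin (n + 1))) then s * x i else x i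
      with hy
    have hy0 : y 0 = s * x 0 := by simp [hy]
    have hys : ∀ i : Fin n, y i.succ = x i.succ := fun i => by simp [hy, Fin.succ_ne_zero]
    have e1 : prd (kA (u : ℂ)) y =
        (∏ j : Fin n, kA (u : ℂ) (s * (x 0 / x j.succ))) * prd (kA (u : ℂ)) (fun i => x i.succ) := by
      rw [TriM.prd_succ]
      simp only [hy0, hys, mul_div_assoc]
    have e2 : mon L y = (s * x 0) ^ L 0 * mon (fun i : Fin n => L i.succ) (fun i => x i.succ) := by
      unfold mon
      rw [Fin.prod_univ_succ, hy0]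
      simp only [hys]
    have e3 : RP (u : ℂ) L (fun i => (y i)⁻¹) = ((s * x 0)⁻¹) ^ L 0 *
        (p (fun i : Fin n => (x i.succ)⁻¹)).eval (s * x 0) := by
      have h5 := (hp (fun i : Fin n => (x i.succ)⁻¹) fun i => inv_ne_zero (hx0 _)).1 (s * x 0)⁻¹
        (inv_ne_zero (mul_ne_zero hs0 (hx0 0)))
      rw [inv_inv] at h5
      rw [← h5]
      congr 1
      funext i
      refine Fin.cases ?_ (fun i => ?_) i
      · rw [Fin.cons_zero, hy0]
      · rw [Fin.cons_succ, hys]
    rw [e1, e2, e3, inv_zpow]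
    have hne : (s * x 0) ^ L 0 ≠ 0 := zpow_ne_zero _ (mul_ne_zero hs0 (hx0 0))
    field_simp

theorem I'_self (hR : SpecRpp) (hT : SpecTopc) (u : ℝ) (h0 : 0 < u) (h1 : u < 1) :
    ∀ (n : ℕ) (L : Fin n → ℤ), Antitone L → I' u L L = vL L u := by
  intro n
  induction n with
  | zero =>
    intro L _
    have hL : L = 0 := funext fun i => i.elim0
    have h := (hR 0 u h0 h1).1
    unfold I' tint vL
    have := TbM.prob 0
    have e : ∀ θ : Fin 0 → UnitAddCircle,
        mon L (ze θ) * RP (u : ℂ) L (fun i => (ze θ i)⁻¹) * prd (kA (u : ℂ)) (ze θ) = 1 := by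
      intro θ
      rw [hL, h _ fun i => i.elim0]
      simp [mon, prd, vv]
    simp only [e]
    simp
  | succ n ih =>
    intro L hL
    rw [I'_succ hR hT u h0 h1 L hL, vL_succ,
      ih (fun i => L i.succ) fun i j hij => hL (Fin.succ_le_succ_iff.2 hij)]

theorem psum_inj {n : ℕ} (L M : Fin n → ℤ) (h : ∀ k ≤ n, psum L k = psum M k) : L = M := by
  funext i
  have h1 := h (i : ℕ) i.2.le
  have h2 := h (i + 1 : ℕ) i.2
  have key : ∀ L : Fin n → ℤ, psum L (i + 1) = psum L i + L i := by
    intro L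
    unfold psum
    have : univ.filter (fun j : Fin n => (j : ℕ) < i + 1) =
        insert i (univ.filter (fun j : Fin n => (j : ℕ) < i)) := by
      ext j
      simp only [Finset.mem_filter, Finset.mem_univ, true_and, Finset.mem_insert]
      constructor
      · intro hj
        rcases Nat.lt_succ_iff_lt_or_eq.1 hj with hj | hj
        · exact Or.inr hj
        · exact Or.inl (Fin.ext hj)
      · rintro (rfl | hj)
        · exact Nat.lt_succ_self _
        · exact Nat.lt_succ_of_lt hj
    rw [this, Finset.sum_insert (by simp)]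
    ring
  rw [key L, key M] at h2
  omega

end OrtM

/-- ORT -/
theorem specOrt (hP : SpecPoly) (hR : SpecRpp) (hT : SpecTopc) : SpecOrt := by
  intro n u h0 h1 L M hL hM
  split_ifs with hLM
  · subst hLM
    rw [OrtM.eq_I' hR hP u h0 h1 L L hL hL, OrtM.I'_self hR hT u h0 h1 n L hL]
  · by_cases hk : ∃ k ≤ n, psum M k < psum L k
    · rw [OrtM.eq_I' hR hP u h0 h1 L M hL hM, OrtM.I'_zero hP u h0 h1 L M hM hk, mul_zero]
    · have hk2 : ∃ k ≤ n, psum L k < psum M k := by
        by_contra hk2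
        refine hLM (OrtM.psum_inj L M fun k hkn => ?_)
        refine le_antisymm ?_ ?_
        · by_contra h
          exact hk ⟨k, hkn, not_le.1 h⟩
        · by_contra h
          exact hk2 ⟨k, hkn, not_le.1 h⟩
      rw [← TbM.tint_inv]
      have e : tint (fun x : Fin n → ℂ => RP (u : ℂ) L (fun i => (x i)⁻¹) *
          RP (u : ℂ) M (fun i => ((x i)⁻¹)⁻¹) * prd (kD (u : ℂ)) (fun i => (x i)⁻¹)) =
          tint (fun x : Fin n → ℂ => RP (u : ℂ) M x * RP (u : ℂ) L (fun i => (x i)⁻¹) *
            prd (kD (u : ℂ)) x) := by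
        congr 1
        funext x
        simp only [inv_inv]
        rw [UnsymM.prd_kD_inv]
        ring
      rw [e, OrtM.eq_I' hR hP u h0 h1 M L hM hL, OrtM.I'_zero hP u h0 h1 M L hL hk2, mul_zero]

end MPtg
end

section
/-! # MP_3d2757_nt : FLD, part 1 (the base field) -/
open Finset MeasureTheory

namespace MPtg

namespace FldM

section base

variable {F : Type} [NontriviallyNormedField F] [IsUltrametricDist F]

open NormedField

attribute [local instance] NormedField.toValued

open scoped Valued NormedField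

theorem res_finite [LocallyCompactSpace F] :
    Finite (IsLocalRing.ResidueField (@Valued.integer F _ NNReal _ NormedField.toValued)) := by
  have hp : ProperSpace F := ProperSpace.of_locallyCompactSpace F
  have h1 : IsCompact (Metric.closedBall (0 : F) 1) := isCompact_closedBall 0 1
  have h2 : ((Valued.integer F : Subring F) : Set F) = Metric.closedBall (0 : F) 1 := by
    ext x
    rw [SetLike.mem_coe, Valued.integer.mem_iff, mem_closedBall_zero_iff]
  have h3' : IsCompact (X := F) (Valued.integer F) := by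
    rw [h2]
    exact h1
  have h3 : CompactSpace (Valued.integer F) := isCompact_iff_compactSpace.mp h3'
  have : (Valued.v : Valuation F NNReal).RankOne :=
    (inferInstance : (NormedField.valuation (K := F)).RankOne)
  exact (Valued.integer.compactSpace_iff_completeSpace_and_isDiscreteValuationRing_and_finite_residueField.1 h3).2.2

theorem res_eq_zero_iff (x : Valued.integer F) :
    IsLocalRing.residue (Valued.integer F) x = 0 ↔ ‖(x : F)‖ < 1 := by
  rw [IsLocalRing.residue_eq_zero_iff, IsLocalRing.mem_maximalIdeal, mem_nonunits_iff,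
    Valued.integer.isUnit_iff_norm_eq_one]
  have := Valued.integer.norm_le_one x
  change ¬ ‖(x : F)‖ = 1 ↔ _
  have h : ‖(x : F)‖ ≤ 1 := this
  constructor
  · intro h1
    exact lt_of_le_of_ne h h1
  · intro h1 h2
    linarith

/-- representatives of the residue field -/
theorem exists_rep [LocallyCompactSpace F] :
    ∃ R : Finset F, (0 : F) ∈ R ∧ R.card = resCard F ∧ (∀ r ∈ R, ‖r‖ ≤ 1) ∧
      ∀ x : F, ‖x‖ ≤ 1 → ∃! r, r ∈ R ∧ ‖x - r‖ < 1 := by
  classical
  have hfin := res_finite (F := F)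
  have : Fintype (IsLocalRing.ResidueField (Valued.integer F)) := Fintype.ofFinite _
  have hs : ∀ k : IsLocalRing.ResidueField (Valued.integer F), ∃ x : Valued.integer F,
      IsLocalRing.residue (Valued.integer F) x = k ∧ (k = 0 → x = 0) := by
    intro k
    by_cases hk : k = 0
    · exact ⟨0, by simp [hk], fun _ => rfl⟩
    · obtain ⟨x, hx⟩ := IsLocalRing.residue_surjective k
      exact ⟨x, hx, fun h => absurd h hk⟩
  choose s hs1 hs2 using hs
  have hinj : Function.Injective fun k => (s k : F) := by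
    intro k k' h
    have : s k = s k' := Subtype.ext h
    rw [← hs1 k, ← hs1 k', this]
  have hlt : ∀ (x : F) (hx : ‖x‖ ≤ 1) (k : IsLocalRing.ResidueField (Valued.integer F)),
      ‖x - s k‖ < 1 ↔
        IsLocalRing.residue (Valued.integer F) ⟨x, Valued.integer.mem_iff.2 hx⟩ = k := by
    intro x hx k
    have h1 := res_eq_zero_iff (⟨x, Valued.integer.mem_iff.2 hx⟩ - s k)
    rw [map_sub, hs1, sub_eq_zero] at h1
    exact h1.symm
  refine ⟨univ.image fun k => (s k : F), ?_, ?_, ?_, ?_⟩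
  · rw [mem_image]
    exact ⟨0, mem_univ _, by rw [hs2 0 rfl]; rfl⟩
  · rw [card_image_of_injective _ hinj, card_univ, ← Nat.card_eq_fintype_card]
    rfl
  · intro r hr
    rw [mem_image] at hr
    obtain ⟨k, _, rfl⟩ := hr
    exact Valued.integer.norm_le_one (s k)
  · intro x hx
    refine ⟨s (IsLocalRing.residue (Valued.integer F) ⟨x, Valued.integer.mem_iff.2 hx⟩),
      ⟨mem_image_of_mem _ (mem_univ _), (hlt x hx _).2 rfl⟩, ?_⟩
    rintro r ⟨hr, hr'⟩
    rw [mem_image] at hr
    obtain ⟨k, _, rfl⟩ := hr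
    rw [(hlt x hx k).1 hr']

theorem three_le [LocallyCompactSpace F] (h2 : ‖(2 : F)‖ = 1) : 3 ≤ resCard F := by
  classical
  have hfin := res_finite (F := F)
  have : Fintype (IsLocalRing.ResidueField (Valued.integer F)) := Fintype.ofFinite _
  have h20 : (2 : IsLocalRing.ResidueField (Valued.integer F)) ≠ 0 := by
    intro h
    have h3 : IsLocalRing.residue (Valued.integer F) 2 = 0 := by
      rw [map_ofNat, h]
    rw [res_eq_zero_iff] at h3
    have : ((2 : Valued.integer F) : F) = 2 := rfl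
    rw [this, h2] at h3
    exact lt_irrefl _ h3
  unfold resCard
  rw [Nat.card_eq_fintype_card]
  have h3 : ({0, 1, -1} : Finset (IsLocalRing.ResidueField (Valued.integer F))).card = 3 := by
    rw [card_insert_of_notMem, card_insert_of_notMem, card_singleton]
    · rw [mem_singleton]
      intro h
      apply h20
      have : (1 : IsLocalRing.ResidueField (Valued.integer F)) + 1 = 0 := by
        nth_rewrite 1 [h]
        simp
      rw [← this]
      norm_num
    · simp
  rw [← h3]
  exact card_le_univ _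

/-- norms of pairs are surjective on the residue field -/
theorem exists_sq_sub [LocallyCompactSpace F] (h2 : ‖(2 : F)‖ = 1) (D c : F) (hD : ‖D‖ = 1)
    (hc : ‖c‖ ≤ 1) : ∃ a b : F, ‖a‖ ≤ 1 ∧ ‖b‖ ≤ 1 ∧ ‖a ^ 2 - b ^ 2 * D - c‖ < 1 := by
  classical
  have hfin := res_finite (F := F)
  have : Fintype (IsLocalRing.ResidueField (Valued.integer F)) := Fintype.ofFinite _
  have h20 : ringChar (IsLocalRing.ResidueField (Valued.integer F)) ≠ 2 := by
    intro h
    have h4 : ((2 : ℕ) : IsLocalRing.ResidueField (Valued.integer F)) = 0 := by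
      rw [← h]
      exact ringChar.Nat.cast_ringChar
    have h3 : IsLocalRing.residue (Valued.integer F) 2 = 0 := by
      rw [map_ofNat]
      exact_mod_cast h4
    rw [res_eq_zero_iff] at h3
    have : ((2 : Valued.integer F) : F) = 2 := rfl
    rw [this, h2] at h3
    exact lt_irrefl _ h3
  let D' : Valued.integer F := ⟨D, Valued.integer.mem_iff.2 hD.le⟩
  let c' : Valued.integer F := ⟨c, Valued.integer.mem_iff.2 hc⟩
  have hD' : IsLocalRing.residue (Valued.integer F) D' ≠ 0 := by
    intro h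
    rw [res_eq_zero_iff] at h
    change ‖D‖ < 1 at h
    rw [hD] at h
    exact lt_irrefl _ h
  obtain ⟨a, b, hab⟩ := FiniteField.exists_root_sum_quadratic
    (f := Polynomial.X ^ 2 - Polynomial.C (IsLocalRing.residue (Valued.integer F) c'))
    (g := Polynomial.C (- IsLocalRing.residue (Valued.integer F) D') * Polynomial.X ^ 2)
    (Polynomial.degree_X_pow_sub_C (by norm_num) _)
    (by rw [Polynomial.degree_C_mul_X_pow 2 (neg_ne_zero.2 hD')]; rfl)
    (FiniteField.odd_card_of_char_ne_two h20)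
  obtain ⟨a, rfl⟩ := IsLocalRing.residue_surjective a
  obtain ⟨b, rfl⟩ := IsLocalRing.residue_surjective b
  refine ⟨a, b, Valued.integer.norm_le_one a, Valued.integer.norm_le_one b, ?_⟩
  have h5 := res_eq_zero_iff (a ^ 2 - b ^ 2 * D' - c')
  apply h5.1
  simp only [Polynomial.eval_sub, Polynomial.eval_pow, Polynomial.eval_X, Polynomial.eval_C,
    Polynomial.eval_mul] at hab
  rw [map_sub, map_sub, map_mul, map_pow, map_pow, ← hab]
  ring

/-- square roots of principal units -/
theorem exists_sqrt [CompleteSpace F] (h2 : ‖(2 : F)‖ = 1) (x : F) (hx : ‖x - 1‖ < 1) :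
    ∃ z : F, z ^ 2 = x ∧ ‖z - 1‖ = ‖x - 1‖ := by
  have hultra : ∀ a b : F, ‖a + b‖ ≤ max ‖a‖ ‖b‖ := IsUltrametricDist.norm_add_le_max
  have h20 : (2 : F) ≠ 0 := by
    intro h
    rw [h] at h2
    simp at h2
  set t := x - 1 with ht
  let Φ : F → F := fun y => (t - y ^ 2) / 2
  have hΦ1 : ∀ y, ‖y‖ ≤ ‖t‖ → ‖Φ y‖ ≤ ‖t‖ := by
    intro y hy
    simp only [Φ]
    rw [norm_div, h2, div_one, sub_eq_add_neg]
    refine (hultra _ _).trans (max_le le_rfl ?_)
    rw [norm_neg, norm_pow]
    calc ‖y‖ ^ 2 ≤ ‖t‖ ^ 2 := pow_le_pow_left₀ (norm_nonneg _) hy 2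
      _ ≤ ‖t‖ := by nlinarith [norm_nonneg t]
  have hΦ2 : ∀ y y', ‖y‖ ≤ ‖t‖ → ‖y'‖ ≤ ‖t‖ → ‖Φ y - Φ y'‖ ≤ ‖t‖ * ‖y - y'‖ := by
    intro y y' hy hy'
    have : Φ y - Φ y' = (y' - y) * (y' + y) / 2 := by
      simp only [Φ]
      field_simp
      ring
    rw [this, norm_div, h2, div_one, norm_mul, norm_sub_rev, mul_comm]
    exact mul_le_mul_of_nonneg_right ((hultra _ _).trans (max_le hy' hy)) (norm_nonneg _)
  -- iterate
  let B : Set F := Metric.closedBall (0 : F) ‖t‖
  have hB : ∀ y, y ∈ B ↔ ‖y‖ ≤ ‖t‖ := fun y => mem_closedBall_zero_iff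
  have hmaps : Set.MapsTo Φ B B := fun y hy => (hB _).2 (hΦ1 y ((hB y).1 hy))
  have hcontr : ContractingWith ⟨‖t‖, norm_nonneg _⟩ (hmaps.restrict Φ B B) := by
    refine ⟨?_, ?_⟩
    · exact_mod_cast hx
    · refine LipschitzWith.of_dist_le_mul fun y y' => ?_
      rw [Subtype.dist_eq, Subtype.dist_eq, dist_eq_norm, dist_eq_norm]
      exact hΦ2 y y' ((hB _).1 y.2) ((hB _).1 y'.2)
  have h0 : (0 : F) ∈ B := (hB 0).2 (by simp)
  obtain ⟨y, hyB, hy, -⟩ := hcontr.exists_fixedPoint' (Metric.isClosed_closedBall.isComplete)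
    hmaps h0 (edist_ne_top _ _)
  have hy' : y ^ 2 + 2 * y = t := by
    have h3 : (t - y ^ 2) / 2 = y := hy
    field_simp at h3
    linear_combination -h3
  have hyt : ‖y‖ ≤ ‖t‖ := (hB y).1 hyB
  refine ⟨1 + y, ?_, ?_⟩
  · have : x = 1 + t := by rw [ht]; ring
    rw [this, ← hy']
    ring
  · have h3 : ‖y + 2‖ = 1 := by
      have h4 : ‖y‖ < ‖(2 : F)‖ := by rw [h2]; exact lt_of_le_of_lt hyt hx
      rw [IsUltrametricDist.norm_add_eq_max_of_norm_ne_norm h4.ne, max_eq_right h4.le, h2]
    have h5 : ‖y * (y + 2)‖ = ‖t‖ := by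
      rw [← hy']
      congr 1
      ring
    rw [norm_mul, h3, mul_one] at h5
    rw [add_sub_cancel_left, h5]

omit [IsUltrametricDist F] in
/-- discreteness of the norm -/
theorem exists_zpow (ϖ : Fˣ) (hϖ : ‖(ϖ : F)‖ < 1) (hu : ∀ x : F, ‖x‖ < 1 → ‖x‖ ≤ ‖(ϖ : F)‖)
    (y : F) (hy : y ≠ 0) : ∃ k : ℤ, ‖y‖ = ‖(ϖ : F)‖ ^ k := by
  have hpos : 0 < ‖(ϖ : F)‖ := norm_pos_iff.2 ϖ.ne_zero
  have hy0 : 0 < ‖y‖ := norm_pos_iff.2 hy
  obtain ⟨k, hk1, hk2⟩ := exists_mem_Ico_zpow hy0 (one_lt_inv_iff₀.2 ⟨hpos, hϖ⟩)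
  -- `‖ϖ‖⁻¹ ^ k ≤ ‖y‖ < ‖ϖ‖⁻¹ ^ (k+1)`
  refine ⟨-k, ?_⟩
  have h1 : ‖y * (ϖ : F) ^ (k + 1)‖ < 1 := by
    rw [norm_mul, norm_zpow]
    rw [inv_zpow] at hk2
    have : 0 < ‖(ϖ : F)‖ ^ (k + 1) := zpow_pos hpos _
    calc ‖y‖ * ‖(ϖ : F)‖ ^ (k + 1) < (‖(ϖ : F)‖ ^ (k + 1))⁻¹ * ‖(ϖ : F)‖ ^ (k + 1) :=
          mul_lt_mul_of_pos_right hk2 this
      _ = 1 := inv_mul_cancel₀ this.ne'
  have h2 := hu _ h1
  rw [norm_mul, norm_zpow, zpow_add₀ hpos.ne', zpow_one, ← mul_assoc] at h2
  have h3 : ‖y‖ * ‖(ϖ : F)‖ ^ k ≤ 1 := by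
    have : ‖y‖ * ‖(ϖ : F)‖ ^ k * ‖(ϖ : F)‖ ≤ 1 * ‖(ϖ : F)‖ := by rw [one_mul]; exact h2
    exact le_of_mul_le_mul_right this hpos
  rw [inv_zpow] at hk1
  have h4 : 0 < ‖(ϖ : F)‖ ^ k := zpow_pos hpos _
  rw [zpow_neg]
  refine le_antisymm ?_ hk1
  rw [← one_div, le_div_iff₀ h4]
  exact h3

end base

end FldM

end MPtg
end

section
/-! # MP_3d2757_nt : FLD, part 2 (the quadratic extension) -/
open Finset MeasureTheory

namespace MPtg

namespace FldM

section ext

variable {F E : Type} [NontriviallyNormedField F] [NormedField E] [NormedAlgebra F E]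
  (σ : E ≃ₐ[F] E)

theorem invol (hE : Module.finrank F E = 2) (hσ : σ ≠ AlgEquiv.refl) (x : E) :
    σ (σ x) = x := by
  classical
  have hfd : FiniteDimensional F E := Module.finite_of_finrank_pos (by rw [hE]; norm_num)
  have h1 : Fintype.card (E ≃ₐ[F] E) ≤ 2 := by rw [← hE]; exact AlgEquiv.card_le
  have h2 : 1 < Fintype.card (E ≃ₐ[F] E) := Fintype.one_lt_card_iff.2 ⟨σ, 1, hσ⟩
  have h3 : σ ^ 2 = 1 := by
    have : Fintype.card (E ≃ₐ[F] E) = 2 := le_antisymm h1 h2
    rw [← this]
    exact pow_card_eq_one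
  have h4 : (σ ^ 2) x = x := by rw [h3]; rfl
  rwa [pow_two] at h4

theorem isom [IsUltrametricDist F] [LocallyCompactSpace F] (hE : Module.finrank F E = 2) (x : E) :
    ‖σ x‖ = ‖x‖ := by
  have hfd : FiniteDimensional F E := Module.finite_of_finrank_pos (by rw [hE]; norm_num)
  have hp : ProperSpace F := ProperSpace.of_locallyCompactSpace F
  rw [NormedAlgebra.norm_eq_spectralNorm F, NormedAlgebra.norm_eq_spectralNorm F x,
    ← spectralNorm_eq_of_equiv σ x]

theorem exists_delta (hE : Module.finrank F E = 2) (hσ : σ ≠ AlgEquiv.refl)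
    (hv : ∀ x : E, ∃ y : F, ‖y‖ = ‖x‖) : ∃ δ : E, ‖δ‖ = 1 ∧ σ δ = -δ := by
  have h1 : ∃ x, σ x ≠ x := by
    by_contra h
    push Not at h
    exact hσ (AlgEquiv.ext h)
  obtain ⟨x, hx⟩ := h1
  have hd : x - σ x ≠ 0 := sub_ne_zero.2 (Ne.symm hx)
  obtain ⟨y, hy⟩ := hv (x - σ x)
  have hy0 : ‖y‖ ≠ 0 := by rw [hy]; exact norm_ne_zero_iff.2 hd
  refine ⟨algebraMap F E y⁻¹ * (x - σ x), ?_, ?_⟩
  · rw [norm_mul, norm_algebraMap', norm_inv, ← hy, inv_mul_cancel₀ hy0]
  · rw [map_mul, map_sub, invol σ hE hσ, AlgEquiv.commutes]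
    ring

variable {σ} {δ : E} (hδ : ‖δ‖ = 1) (hσδ : σ δ = -δ) (h2 : ‖(2 : F)‖ = 1)
include hδ hσδ h2

omit hδ hσδ in
theorem norm_two : ‖(2 : E)‖ = 1 := by
  rw [← h2, ← norm_algebraMap' E (2 : F)]
  congr 1
  rw [map_ofNat]

theorem decomp (hE : Module.finrank F E = 2) (x : E) :
    ∃ a b : F, x = algebraMap F E a + algebraMap F E b * δ := by
  have hδ0 : δ ≠ 0 := by
    intro h
    rw [h] at hδ
    simp at hδ
  have h20 : (2 : E) ≠ 0 := by
    intro h
    have := norm_two (E := E) h2
    rw [h] at this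
    simp at this
  have hli : LinearIndependent F ![(1 : E), δ] := by
    rw [LinearIndependent.pair_iff]
    intro s t h
    have h3 := congrArg σ h
    rw [map_add, map_smul, map_smul, map_one, hσδ, map_zero] at h3
    have h4 : (2 : E) * algebraMap F E s = 0 := by
      rw [Algebra.smul_def, Algebra.smul_def] at h h3
      linear_combination h + h3
    have h5 : algebraMap F E s = 0 := by
      rcases mul_eq_zero.1 h4 with h | h
      · exact absurd h h20
      · exact h
    have hs : s = 0 := (map_eq_zero _).1 h5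
    refine ⟨hs, ?_⟩
    rw [hs, zero_smul, zero_add] at h
    rcases smul_eq_zero.1 h with h | h
    · exact h
    · exact absurd h hδ0
  let b := basisOfLinearIndependentOfCardEqFinrank hli (by rw [hE]; rfl)
  have hb : ⇑b = ![(1 : E), δ] := coe_basisOfLinearIndependentOfCardEqFinrank hli _
  have h6 := b.sum_repr x
  rw [Fin.sum_univ_two, hb] at h6
  refine ⟨b.repr x 0, b.repr x 1, ?_⟩
  have h7 : (b.repr x 0) • (1 : E) + (b.repr x 1) • δ = x := h6
  rw [Algebra.smul_def, Algebra.smul_def, mul_one] at h7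
  exact h7.symm

theorem norm_pair [IsUltrametricDist F] [LocallyCompactSpace F]
    (hE : Module.finrank F E = 2) (a b : F) :
    ‖algebraMap F E a + algebraMap F E b * δ‖ = max ‖a‖ ‖b‖ := by
  have hu : IsUltrametricDist E := IsUltrametricDist.of_normedAlgebra F
  have h2E := norm_two (E := E) h2
  set x := algebraMap F E a + algebraMap F E b * δ with hx
  have hs : σ x = algebraMap F E a - algebraMap F E b * δ := by
    rw [hx, map_add, map_mul, AlgEquiv.commutes, AlgEquiv.commutes, hσδ]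
    ring
  have hsn : ‖σ x‖ = ‖x‖ := isom σ hE x
  apply le_antisymm
  · refine (IsUltrametricDist.norm_add_le_max _ _).trans ?_
    rw [norm_mul, hδ, mul_one, norm_algebraMap', norm_algebraMap']
  · apply max_le
    · have h3 : (2 : E) * algebraMap F E a = x + σ x := by rw [hs, hx]; ring
      have h4 : ‖a‖ = ‖x + σ x‖ := by
        rw [← h3, norm_mul, h2E, one_mul, norm_algebraMap']
      rw [h4]
      refine (IsUltrametricDist.norm_add_le_max _ _).trans ?_
      rw [hsn, max_self]
    · have h3 : (2 : E) * (algebraMap F E b * δ) = x - σ x := by rw [hs, hx]; ring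
      have h4 : ‖b‖ = ‖x - σ x‖ := by
        rw [← h3, norm_mul, h2E, one_mul, norm_mul, hδ, mul_one, norm_algebraMap']
      rw [h4]
      rw [sub_eq_add_neg]
      refine (IsUltrametricDist.norm_add_le_max _ _).trans ?_
      rw [norm_neg, hsn, max_self]

theorem fixed (hE : Module.finrank F E = 2) (x : E) (hx : σ x = x) :
    ∃ a : F, x = algebraMap F E a := by
  obtain ⟨a, b, hab⟩ := decomp hδ hσδ h2 hE x
  have hδ0 : δ ≠ 0 := by
    intro h
    rw [h] at hδ
    simp at hδ
  have h20 : (2 : E) ≠ 0 := by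
    intro h
    have := norm_two (E := E) h2
    rw [h] at this
    simp at this
  have hs : σ x = algebraMap F E a - algebraMap F E b * δ := by
    rw [hab, map_add, map_mul, AlgEquiv.commutes, AlgEquiv.commutes, hσδ]
    ring
  refine ⟨a, ?_⟩
  have h3 : (2 : E) * (algebraMap F E b * δ) = 0 := by
    rw [hx, hab] at hs
    linear_combination hs
  rcases mul_eq_zero.1 h3 with h | h
  · exact absurd h h20
  · rw [hab, h, add_zero]

theorem exists_norm_eq [IsUltrametricDist F] [LocallyCompactSpace F]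
    (hE : Module.finrank F E = 2) (c : E) (hc : σ c = c) (hc1 : ‖c‖ = 1) :
    ∃ a : E, ‖a‖ = 1 ∧ c = a * σ a := by
  have hp : ProperSpace F := ProperSpace.of_locallyCompactSpace F
  obtain ⟨c0, rfl⟩ := fixed hδ hσδ h2 hE c hc
  obtain ⟨D, hD⟩ := fixed hδ hσδ h2 hE (δ * δ) (by rw [map_mul, hσδ]; ring)
  have hD1 : ‖D‖ = 1 := by
    rw [← norm_algebraMap' E D, ← hD, norm_mul, hδ, one_mul]
  rw [norm_algebraMap'] at hc1
  obtain ⟨a, b, ha, hb, hab⟩ := exists_sq_sub h2 D c0 hD1 hc1.le
  set N0 := a ^ 2 - b ^ 2 * D with hN0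
  have hN1 : ‖N0‖ = 1 := by
    have h3 : N0 = (N0 - c0) + c0 := by ring
    rw [h3, IsUltrametricDist.norm_add_eq_max_of_norm_ne_norm (by rw [hc1]; exact hab.ne), hc1,
      max_eq_right hab.le]
  have hN00 : N0 ≠ 0 := by
    intro h
    rw [h] at hN1
    simp at hN1
  obtain ⟨z, hz, hz1⟩ := exists_sqrt h2 (c0 / N0) (by
    have : c0 / N0 - 1 = -(N0 - c0) / N0 := by
      field_simp
      ring
    rw [this, norm_div, norm_neg, hN1, div_one]
    exact hab)
  refine ⟨algebraMap F E z * (algebraMap F E a + algebraMap F E b * δ), ?_, ?_⟩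
  · have h4 : ‖algebraMap F E z * (algebraMap F E a + algebraMap F E b * δ)‖ ^ 2 = 1 := by
      have h5 : ‖algebraMap F E z * (algebraMap F E a + algebraMap F E b * δ)‖ ^ 2 =
          ‖(algebraMap F E z * (algebraMap F E a + algebraMap F E b * δ)) *
            σ (algebraMap F E z * (algebraMap F E a + algebraMap F E b * δ))‖ := by
        rw [norm_mul _ (σ _), isom σ hE, pow_two]
      rw [h5]
      have h6 : (algebraMap F E z * (algebraMap F E a + algebraMap F E b * δ)) *
            σ (algebraMap F E z * (algebraMap F E a + algebraMap F E b * δ)) =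
          algebraMap F E c0 := by
        rw [map_mul, map_add, map_mul, AlgEquiv.commutes, AlgEquiv.commutes, AlgEquiv.commutes,
          hσδ]
        have h7 : algebraMap F E (z ^ 2) * algebraMap F E N0 = algebraMap F E c0 := by
          rw [← map_mul, hz, div_mul_cancel₀ _ hN00]
        rw [← h7, hN0, map_sub, map_mul, map_pow, map_pow, map_pow, ← hD]
        ring
      rw [h6, norm_algebraMap', hc1]
    have h8 := norm_nonneg (algebraMap F E z * (algebraMap F E a + algebraMap F E b * δ))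
    nlinarith
  · rw [map_mul, map_add, map_mul, AlgEquiv.commutes, AlgEquiv.commutes, AlgEquiv.commutes,
      hσδ]
    have h7 : algebraMap F E (z ^ 2) * algebraMap F E N0 = algebraMap F E c0 := by
      rw [← map_mul, hz, div_mul_cancel₀ _ hN00]
    rw [← h7, hN0, map_sub, map_mul, map_pow, map_pow, map_pow, ← hD]
    ring

end ext

end FldM

theorem specFld : SpecFld := by
  classical
  intro F _ _ _ ϖ E _ _ σ h2 hϖ hE hv hσ
  obtain ⟨hϖ1, hϖ2⟩ := hϖ
  have hfd : FiniteDimensional F E := Module.finite_of_finrank_pos (by rw [hE]; norm_num)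
  have hp : ProperSpace F := ProperSpace.of_locallyCompactSpace F
  have hpE : ProperSpace E := FiniteDimensional.proper F E
  have hu : IsUltrametricDist E := IsUltrametricDist.of_normedAlgebra F
  obtain ⟨δ, hδ, hσδ⟩ := FldM.exists_delta σ hE hσ hv
  obtain ⟨R, hR0, hRc, hR1, hR⟩ := FldM.exists_rep (F := F)
  have hϖpos : 0 < ‖(ϖ : F)‖ := norm_pos_iff.2 ϖ.ne_zero
  have hdisc : ∀ x : E, x ≠ 0 → ∃ k : ℤ, ‖x‖ = ‖algebraMap F E (ϖ : F)‖ ^ k := by
    intro x hx
    obtain ⟨y, hy⟩ := hv x
    have hy0 : y ≠ 0 := by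
      intro h
      rw [h, norm_zero] at hy
      exact hx (norm_eq_zero.1 hy.symm)
    obtain ⟨k, hk⟩ := FldM.exists_zpow ϖ hϖ1 hϖ2 y hy0
    exact ⟨k, by rw [← hy, hk, norm_algebraMap']⟩
  let pr : F × F → E := fun p => algebraMap F E p.1 + algebraMap F E p.2 * δ
  have hpr : ∀ p p', ‖pr p - pr p'‖ = max ‖p.1 - p'.1‖ ‖p.2 - p'.2‖ := by
    intro p p'
    have : pr p - pr p' = algebraMap F E (p.1 - p'.1) + algebraMap F E (p.2 - p'.2) * δ := by
      simp only [pr, map_sub]
      ring
    rw [this, FldM.norm_pair hδ hσδ h2 hE]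
  have hprinj : Function.Injective pr := by
    intro p p' h
    have h1 := hpr p p'
    rw [h, sub_self, norm_zero] at h1
    have h3 : ‖p.1 - p'.1‖ ≤ 0 := by rw [h1]; exact le_max_left _ _
    have h4 : ‖p.2 - p'.2‖ ≤ 0 := by rw [h1]; exact le_max_right _ _
    exact Prod.ext (sub_eq_zero.1 (norm_le_zero_iff.1 h3)) (sub_eq_zero.1 (norm_le_zero_iff.1 h4))
  let U : Unr E :=
    { σ := σ.toRingEquiv
      σσ := FldM.invol σ hE hσ
      σn := FldM.isom σ hE
      ϖ := algebraMap F E ϖ
      ϖpos := by rw [norm_algebraMap']; exact hϖpos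
      ϖlt := by rw [norm_algebraMap']; exact hϖ1
      σϖ := σ.commutes _
      ultra := IsUltrametricDist.norm_add_le_max
      disc := hdisc
      two := FldM.norm_two h2
      q := resCard F
      q3 := FldM.three_le h2
      rep := (R ×ˢ R).image pr
      rep_zero := by
        rw [mem_image]
        exact ⟨(0, 0), mem_product.2 ⟨hR0, hR0⟩, by simp [pr]⟩
      rep_card := by
        rw [card_image_of_injective _ hprinj, card_product, hRc, pow_two]
      rep_int := by
        intro r hr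
        rw [mem_image] at hr
        obtain ⟨p, hp, rfl⟩ := hr
        rw [mem_product] at hp
        rw [FldM.norm_pair hδ hσδ h2 hE]
        exact max_le (hR1 _ hp.1) (hR1 _ hp.2)
      rep_ex := by
        intro x hx
        obtain ⟨a, b, rfl⟩ := FldM.decomp hδ hσδ h2 hE x
        rw [FldM.norm_pair hδ hσδ h2 hE] at hx
        obtain ⟨r, ⟨hr, hr'⟩, hr3⟩ := hR a ((le_max_left _ _).trans hx)
        obtain ⟨s, ⟨hs, hs'⟩, hs3⟩ := hR b ((le_max_right _ _).trans hx)
        refine ⟨pr (r, s), ⟨mem_image_of_mem _ (mem_product.2 ⟨hr, hs⟩), ?_⟩, ?_⟩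
        · have := hpr (a, b) (r, s)
          rw [show algebraMap F E a + algebraMap F E b * δ = pr (a, b) from rfl, this]
          exact max_lt hr' hs'
        · rintro y ⟨hy, hy'⟩
          rw [mem_image] at hy
          obtain ⟨⟨r', s'⟩, hp, rfl⟩ := hy
          rw [mem_product] at hp
          have := hpr (a, b) (r', s')
          rw [show algebraMap F E a + algebraMap F E b * δ = pr (a, b) from rfl, this,
            max_lt_iff] at hy'
          rw [hr3 r' ⟨hp.1, hy'.1⟩, hs3 s' ⟨hp.2, hy'.2⟩]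
      rep0 := R.image (algebraMap F E)
      rep0_zero := by
        rw [mem_image]
        exact ⟨0, hR0, map_zero _⟩
      rep0_card := by
        rw [card_image_of_injective _ (algebraMap F E).injective, hRc]
      rep0_int := by
        intro r hr
        rw [mem_image] at hr
        obtain ⟨p, hp, rfl⟩ := hr
        exact ⟨σ.commutes _, by rw [norm_algebraMap']; exact hR1 _ hp⟩
      rep0_ex := by
        intro x hx hx1
        obtain ⟨a, rfl⟩ := FldM.fixed hδ hσδ h2 hE x hx
        rw [norm_algebraMap'] at hx1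
        obtain ⟨r, ⟨hr, hr'⟩, hr3⟩ := hR a hx1
        refine ⟨algebraMap F E r, ⟨mem_image_of_mem _ hr, ?_⟩, ?_⟩
        · rw [← map_sub, norm_algebraMap']
          exact hr'
        · rintro y ⟨hy, hy'⟩
          rw [mem_image] at hy
          obtain ⟨r', hp, rfl⟩ := hy
          rw [← map_sub, norm_algebraMap'] at hy'
          rw [hr3 r' ⟨hp, hy'⟩]
      nrm := FldM.exists_norm_eq hδ hσδ h2 hE
      sq := by
        intro x hx hx1
        obtain ⟨a, rfl⟩ := FldM.fixed hδ hσδ h2 hE x hx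
        have h3 : ∀ a : F, ‖algebraMap F E a - 1‖ = ‖a - 1‖ := by
          intro a
          rw [← map_one (algebraMap F E), ← map_sub, norm_algebraMap']
        rw [h3] at hx1
        obtain ⟨z, hz, hz'⟩ := FldM.exists_sqrt h2 a hx1
        refine ⟨algebraMap F E z, σ.commutes _, ?_, ?_⟩
        · rw [← map_pow, hz]
        · rw [h3, h3, hz']
      δ := δ
      δn := hδ
      σδ := hσδ }
  refine ⟨inferInstance, ?_, U, fun x => rfl, rfl, rfl, ?_⟩
  · intro z hz
    have hz0 : z ≠ 0 := by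
      intro h
      rw [h, zero_mul] at hz
      exact ϖ.ne_zero ((map_eq_zero _).1 hz.symm)
    obtain ⟨k, hk⟩ := hdisc z hz0
    have h1 := congrArg norm hz
    rw [norm_mul, FldM.isom σ hE, hk, norm_algebraMap', ← zpow_add₀ hϖpos.ne'] at h1
    have h3 : ‖(ϖ : F)‖ ^ (k + k) = ‖(ϖ : F)‖ ^ (1 : ℤ) := by rw [h1, zpow_one]
    have h4 := zpow_right_injective₀ hϖpos hϖ1.ne h3
    omega
  · intro ψ hψ1 hψ2
    have htr : ∀ a b : F, Algebra.trace F E (algebraMap F E a + algebraMap F E b * δ) = 2 * a := by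
      have h20 : (2 : F) ≠ 0 := by
        intro h
        rw [h] at h2
        simp at h2
      have h3 : ∀ b : F, Algebra.trace F E (algebraMap F E b * δ) = 0 := by
        intro b
        have h4 := Algebra.trace_eq_of_algEquiv σ (algebraMap F E b * δ)
        rw [map_mul, AlgEquiv.commutes, hσδ, mul_neg, map_neg] at h4
        have h5 : (2 : F) * Algebra.trace F E (algebraMap F E b * δ) = 0 := by
          linear_combination -h4
        rcases mul_eq_zero.1 h5 with h | h
        · exact absurd h h20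
        · exact h
      intro a b
      rw [map_add, h3, add_zero, Algebra.trace_algebraMap, hE]
      simp [two_mul]
    have h20 : (2 : F) ≠ 0 := by
      intro h
      rw [h] at h2
      simp at h2
    refine ⟨⟨fun x => ψ (Algebra.trace F E x / 2), ?_, ?_⟩, fun x => rfl, ?_, ?_, ?_⟩
    · simp
    · intro x y
      rw [map_add, add_div, AddChar.map_add_eq_mul]
    · intro x
      change ψ (Algebra.trace F E (σ x) / 2) = ψ (Algebra.trace F E x / 2)
      rw [Algebra.trace_eq_of_algEquiv]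
    · intro x hx
      change ψ (Algebra.trace F E x / 2) = 1
      obtain ⟨a, b, rfl⟩ := FldM.decomp hδ hσδ h2 hE x
      rw [FldM.norm_pair hδ hσδ h2 hE] at hx
      rw [htr, mul_div_cancel_left₀ _ h20]
      exact hψ1 _ ((le_max_left _ _).trans hx)
    · obtain ⟨y, hy, hy'⟩ := hψ2
      refine ⟨algebraMap F E y, σ.commutes _, ?_, ?_⟩
      · rw [norm_algebraMap']
        change ‖y‖ ≤ ‖algebraMap F E (ϖ : F)‖⁻¹
        rw [norm_algebraMap']
        exact hy
      · change ψ (Algebra.trace F E (algebraMap F E y) / 2) ≠ 1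
        have := htr y 0
        rw [map_zero, zero_mul, add_zero] at this
        rw [this, mul_div_cancel_left₀ _ h20]
        exact hy'

end MPtg
end

section
/-! # MP_3d2757_nt : INTG (integration of functions invariant under an open subgroup) -/
open Finset MeasureTheory

namespace MPtg

theorem specIntg : SpecIntg := by
  intro G _ _ _ _ _ μ _ K hK hμK hcount F hF
  have hcount' : Countable (G ⧸ K) := hcount
  let A : (G ⧸ K) → Set G := fun c => QuotientGroup.mk ⁻¹' {c}
  have hA : ∀ c, A c = (fun g => (c.out)⁻¹ * g) ⁻¹' (K : Set G) := by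
    intro c
    ext g
    change (QuotientGroup.mk g : G ⧸ K) = c ↔ c.out⁻¹ * g ∈ K
    rw [← QuotientGroup.eq, QuotientGroup.out_eq']
    exact eq_comm
  have hopen : ∀ c, IsOpen (A c) := by
    intro c
    rw [hA]
    exact hK.preimage (continuous_const.mul continuous_id)
  have hmeas : ∀ c, μ (A c) = 1 := by
    intro c
    rw [hA, measure_preimage_mul, hμK]
  have hval : ∀ c, ∀ g ∈ A c, F g = F c.out := by
    intro c g hg
    rw [hA] at hg
    have := hF c.out _ hg
    rwa [mul_inv_cancel_left] at this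
  have hU : ⋃ c, A c = Set.univ := by
    ext g
    simp only [Set.mem_iUnion, Set.mem_univ, iff_true]
    exact ⟨QuotientGroup.mk g, rfl⟩
  have hd : Pairwise (Function.onFun Disjoint A) := by
    intro c c' hne
    rw [Function.onFun, Set.disjoint_left]
    intro g h1 h2
    exact hne (h1.symm.trans h2)
  have hcontF : Continuous F := by
    apply IsLocallyConstant.continuous
    rw [IsLocallyConstant.iff_exists_open]
    intro g
    refine ⟨A (QuotientGroup.mk g), hopen _, rfl, fun g' hg' => ?_⟩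
    rw [hval _ g' hg', hval _ g rfl]
  have hl : ∫⁻ g, ‖F g‖ₑ ∂μ = ∑' c : G ⧸ K, ‖F c.out‖ₑ := by
    rw [← Measure.restrict_univ (μ := μ), ← hU, lintegral_iUnion (fun c => (hopen c).measurableSet) hd]
    congr 1
    funext c
    rw [setLIntegral_congr_fun (g := fun _ => ‖F c.out‖ₑ) (hopen c).measurableSet
      (fun g hg => by simp only; rw [hval c g hg]), setLIntegral_const, hmeas, mul_one]
  have h1 : Integrable F μ ↔ Summable (fun c : G ⧸ K => ‖F c.out‖) := by
    rw [Integrable, and_iff_right hcontF.aestronglyMeasurable, HasFiniteIntegral, hl,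
      lt_top_iff_ne_top]
    have : (fun c : G ⧸ K => ‖F c.out‖ₑ) = fun c : G ⧸ K => ((‖F c.out‖₊ : NNReal) : ENNReal) := rfl
    rw [this, ENNReal.tsum_coe_ne_top_iff_summable, ← NNReal.summable_coe]
    rfl
  refine ⟨h1, fun hs => ?_⟩
  have hi := h1.2 hs
  have h2 : ∫ g, F g ∂μ = ∑' c, ∫ g in A c, F g ∂μ := by
    rw [← integral_iUnion (fun c => (hopen c).measurableSet) hd hi.integrableOn, hU,
      Measure.restrict_univ]
  rw [h2]
  congr 1
  funext c
  rw [setIntegral_congr_fun (hopen c).measurableSet (hval c), setIntegral_const,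
    measureReal_def, hmeas]
  simp

end MPtg
end

section
/-! # MP_3d2757_nt, module MAX : maximum principle on a product of bounded sets -/
open Finset MeasureTheory

namespace MPtg

theorem specMax : SpecMax := by
  intro n Ω f C hb hd hf
  have key : ∀ k : ℕ, k ≤ n → ∀ x : Fin n → ℂ, (∀ i, x i ∈ closure (Ω i)) →
      (∀ i : Fin n, k ≤ (i : ℕ) → x i ∈ frontier (Ω i)) → ‖f x‖ ≤ C := by
    intro k
    induction k with
    | zero => exact fun _ x _ h => hf x fun i => h i (Nat.zero_le _)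
    | succ k ih =>
      intro hk x hx h
      have h1 := Complex.norm_le_of_forall_mem_frontier_norm_le (hb ⟨k, hk⟩)
        (hd ⟨k, hk⟩ x hx) (C := C) ?_ (hx ⟨k, hk⟩)
      · simpa [Function.update_eq_self] using h1
      · intro z hz
        have hz' : z ∈ closure (Ω ⟨k, hk⟩) := frontier_subset_closure hz
        refine ih (by omega) _ ?_ ?_
        · intro i
          by_cases hi : i = ⟨k, hk⟩
          · subst hi
            simpa using hz'
          · rw [Function.update_of_ne hi]
            exact hx i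
        · intro i hki
          by_cases hi : i = ⟨k, hk⟩
          · subst hi
            simpa using hz
          · rw [Function.update_of_ne hi]
            refine h i ?_
            rcases Nat.lt_or_ge k i with h2 | h2
            · exact h2
            · exact absurd (Fin.ext (le_antisymm h2 hki)) hi
  exact fun x hx => key n le_rfl x hx fun i hi => absurd i.2 (not_lt.2 hi)

end MPtg
end
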