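import Pool.Agent.Lib.MP_3d2757_nt.Defs

/-!
# MP_3d2757_nt : specifications of the modules

Every module proves `theorem specX : SpecX`, possibly with other Specs as hypotheses.
Mathematical proofs: `/team-store/MP_3d2757_nt_PROOF.md`.
-/

open Finset MeasureTheory

namespace MPtg

/-- partial sum of the first `k` entries -/
def psum {n : ℕ} (L : Fin n → ℤ) (k : ℕ) : ℤ :=
  ∑ i ∈ univ.filter (fun i : Fin n => (i : ℕ) < k), L i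

/-! ## Part 1: Hall-Littlewood algebra -/

def SpecSrt0 : Prop :=
  ∀ (n : ℕ) (m : Fin n → ℤ), Antitone (srt m) ∧ (∃ w : Equiv.Perm (Fin n), srt m = m ∘ w) ∧
    (Antitone m → srt m = m) ∧ (∀ w : Equiv.Perm (Fin n), srt (m ∘ w) = srt m) ∧
    (Antitone m → ∀ A : Finset (Fin n), ∑ i ∈ A, m i ≤ psum m A.card)

def SpecSrt : Prop :=
  ∀ (n : ℕ) (L : Fin n → ℤ), Antitone L → ∀ S : Finset (Fin n),
    (tworho (srt (L + eps S)) =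
      tworho L + 2 * (inv1 S : ℤ) - (S.card : ℤ) * ((n : ℤ) - S.card) + 2 * (inv2 L S : ℤ)) ∧
    (inv1 S + inv2 L S ≤ S.card * (n - S.card)) ∧
    (inv1 S + inv2 L S = S.card * (n - S.card) → srt (L + eps S) = L + om n S.card) ∧
    (∀ k, psum (srt (L + eps S)) k ≤ psum (L + om n S.card) k) ∧
    (psum (srt (L + eps S)) n = psum L n + S.card)

/-- straightening -/
def SpecStr : Prop :=
  ∀ (n : ℕ) (u : ℂ) (x : Fin n → ℂ), (∀ i, x i ≠ 0) → Function.Injective x →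
    ∀ L : Fin n → ℤ, Antitone L → ∀ S : Finset (Fin n),
      HLR u (L + eps S) x = u ^ (inv2 L S) * HLR u (srt (L + eps S)) x

/-- Pieri rule -/
def SpecPieri : Prop :=
  ∀ (n : ℕ) (u : ℂ) (x : Fin n → ℂ), (∀ i, x i ≠ 0) → Function.Injective x →
    ∀ L : Fin n → ℤ, Antitone L → ∀ r ≤ n,
      esy x r * HLR u L x =
        ∑ S ∈ powersetCard r (univ : Finset (Fin n)), u ^ (inv2 L S) * HLR u (srt (L + eps S)) x

def SpecHL0 : Prop :=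
  ∀ (n : ℕ) (u : ℂ), u ≠ 1 → ∀ x : Fin n → ℂ, (∀ i, x i ≠ 0) → Function.Injective x →
    HLR u 0 x = vv n u

/-- the coordinates with index in `A`, in increasing order -/
noncomputable def subv {N k : ℕ} (A : Finset (Fin N)) (y : Fin N → ℂ) : Fin k → ℂ :=
  fun i => if h : A.card = k then y (A.orderEmbOfFin h i) else 0

/-- block decomposition -/
def SpecBlk : Prop :=
  ∀ (a b : ℕ) (u : ℂ) (y : Fin (a + b) → ℂ), Function.Injective y →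
    ∀ (L : Fin a → ℤ) (L' : Fin b → ℤ), HLR u (Fin.append L L') y =
      ∑ A ∈ powersetCard a (univ : Finset (Fin (a + b))),
        (∏ i ∈ A, ∏ k ∈ Aᶜ, (y i - u * y k) / (y i - y k)) *
          HLR u L (subv A y) * HLR u L' (subv Aᶜ y)

/-- induction principle for Pieri families -/
def SpecInd : Prop :=
  ∀ (n : ℕ) (u : ℝ), 0 < u → ∀ (X : Type) [AddCommGroup X] [Module ℂ X]
    (R : (Fin n → ℤ) → X) (e : ℕ → X →ₗ[ℂ] X) (W : (Fin n → ℤ) → Submodule ℂ X),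
    (∀ L, Antitone L → ∀ r ≤ n, e r (R L) =
      ∑ S ∈ powersetCard r (univ : Finset (Fin n)), ((u : ℂ) ^ (inv2 L S)) • R (srt (L + eps S))) →
    R 0 ∈ W 0 →
    (∀ L, Antitone L → ∀ r ≤ n, ∀ y ∈ W L, e r y ∈ W (L + om n r)) →
    (∀ L, Antitone L → ∀ y, e n y ∈ W (L + om n n) → y ∈ W L) →
    (∀ L, Antitone L → ∀ r ≤ n, ∀ S ∈ powersetCard r (univ : Finset (Fin n)),
      W (srt (L + eps S)) ≤ W (L + om n r)) →
    ∀ L, Antitone L → R L ∈ W L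

/-- Hall-Littlewood Laurent polynomials exist, with triangular support -/
def SpecPoly : Prop :=
  ∀ (n : ℕ) (u : ℝ), 0 < u → u < 1 → ∀ L : Fin n → ℤ, Antitone L →
    (∀ x : Fin n → ℂ, (∀ i, x i ≠ 0) → Function.Injective x → RP (u : ℂ) L x = HLR (u : ℂ) L x) ∧
    ∃ (s : Finset (Fin n → ℤ)) (c : (Fin n → ℤ) → ℂ),
      (∀ a ∈ s, psum a n = psum L n ∧ ∀ A : Finset (Fin n), ∑ i ∈ A, a i ≤ psum L A.card) ∧
      ∀ x : Fin n → ℂ, (∀ i, x i ≠ 0) → RP (u : ℂ) L x = ∑ a ∈ s, c a * mon a x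

/-- properties of the extension at all nonzero points -/
def SpecRpp : Prop :=
  ∀ (n : ℕ) (u : ℝ), 0 < u → u < 1 →
    (∀ x : Fin n → ℂ, (∀ i, x i ≠ 0) → RP (u : ℂ) 0 x = vv n u) ∧
    (∀ L : Fin n → ℤ, Antitone L → ContinuousOn (RP (u : ℂ) L) {x | ∀ i, x i ≠ 0}) ∧
    (∀ L : Fin n → ℤ, Antitone L → ∀ x : Fin n → ℂ, (∀ i, x i ≠ 0) →
      ∀ w : Equiv.Perm (Fin n), RP (u : ℂ) L (fun i => x (w i)) = RP (u : ℂ) L x) ∧
    (∀ L : Fin n → ℤ, Antitone L → ∀ x : Fin n → ℂ, (∀ i, x i ≠ 0) → ∀ r ≤ n,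
      esy x r * RP (u : ℂ) L x = ∑ S ∈ powersetCard r (univ : Finset (Fin n)),
        (u : ℂ) ^ (inv2 L S) * RP (u : ℂ) (srt (L + eps S)) x)

/-- leading coefficient in the first variable -/
def SpecTopc : Prop :=
  ∀ (n : ℕ) (u : ℝ), 0 < u → u < 1 → ∀ L : Fin (n + 1) → ℤ, Antitone L →
    ∀ y : Fin n → ℂ, (∀ i, y i ≠ 0) → ∃ p : Polynomial ℂ,
      (∀ z : ℂ, z ≠ 0 → RP (u : ℂ) L (Fin.cons z y) = z ^ (L 0) * p.eval z⁻¹) ∧
      p.eval 0 = (∑ l ∈ range (univ.filter (fun i : Fin (n + 1) => L i = L 0)).card, (u : ℂ) ^ l) *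
        RP (u : ℂ) (fun i : Fin n => L i.succ) y

/-- Macdonald's formula from the Hecke recursion -/
def SpecMac : Prop :=
  ∀ (n q : ℕ), 2 ≤ q → ∀ x : Fin n → ℂ, (∀ i, x i ≠ 0) → ∀ P : (Fin n → ℤ) → ℂ, IsSph q x P →
    ∀ L : Fin n → ℤ, Antitone L →
      P L = ((q : ℂ)⁻¹) ^ (tworho L) * RP ((((q : ℝ)⁻¹) ^ 2 : ℝ) : ℂ) L x /
        vv n ((((q : ℝ)⁻¹) ^ 2 : ℝ) : ℂ)

/-- unitary parameters are Hermitian -/
def SpecHerm : Prop :=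
  ∀ (n q : ℕ), 2 ≤ q → ∀ x : Fin n → ℂ, (∀ i, x i ≠ 0) → ∀ P : (Fin n → ℤ) → ℂ, IsSph q x P →
    (∀ L : Fin n → ℤ, Antitone L → P (fun i => - L (Fin.rev i)) = (starRingEnd ℂ) (P L)) →
    ∃ w : Equiv.Perm (Fin n), ∀ i, x (w i) = ((starRingEnd ℂ) (x i))⁻¹

/-! ## Part 2: torus integrals -/

/-- average over the unit circle -/
noncomputable def cavg (g : ℂ → ℂ) : ℂ :=
  ∫ θ : UnitAddCircle, g (AddCircle.toCircle θ : ℂ) ∂AddCircle.haarAddCircle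

/-- basic facts -/
def SpecTb : Prop :=
  (∀ (n : ℕ) (f : (Fin n → ℂ) → ℂ) (w : Equiv.Perm (Fin n)),
    tint (fun x : Fin n → ℂ => f (fun i => x (w i))) = tint f) ∧
  (∀ (n : ℕ) (f : (Fin n → ℂ) → ℂ), tint (fun x : Fin n → ℂ => f (fun i => (x i)⁻¹)) = tint f) ∧
  (∀ n : ℕ, ∀ᵐ θ ∂(muT n), Function.Injective (ze θ)) ∧
  (∀ (n : ℕ) (f : (Fin (n + 1) → ℂ) → ℂ), Integrable (fun θ => f (ze θ)) (muT (n + 1)) →
    tint f = tint (fun y : Fin n → ℂ => cavg (fun z => f (Fin.cons z y)))) ∧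
  (∀ G : ℂ → ℂ, DiffContOnCl ℂ G (Metric.ball 0 1) → cavg G = G 0) ∧
  (∀ (n : ℕ) (θ : Fin n → UnitAddCircle) (i : Fin n), ‖ze θ i‖ = 1) ∧
  (∀ n : ℕ, Continuous (ze : (Fin n → UnitAddCircle) → (Fin n → ℂ))) ∧
  (∀ n : ℕ, IsProbabilityMeasure (muT n))

/-- mean value principle in a block of variables -/
def SpecMean : Prop :=
  ∀ (n : ℕ) (A : Finset (Fin n)) (f : (Fin n → ℂ) → ℂ) (C : ℝ),
    AEStronglyMeasurable (fun θ => f (ze θ)) (muT n) →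
    (∀ x : Fin n → ℂ, (∀ i, ‖x i‖ = 1) → ‖f x‖ ≤ C) →
    ∀ G : (Fin n → ℂ) → ℂ → ℂ,
      (∀ᵐ θ ∂(muT n), DiffContOnCl ℂ (G (ze θ)) (Metric.ball 0 1) ∧
        ∀ s : ℂ, ‖s‖ = 1 → G (ze θ) s = f (fun i => if i ∈ A then s * ze θ i else ze θ i)) →
      tint f = tint (fun x => G x 0)

/-- triangularity of the constant terms -/
def SpecTri : Prop :=
  ∀ (n : ℕ) (u : ℂ), ‖u‖ < 1 →
    (∀ a : Fin n → ℤ, (∃ k ≤ n, 1 ≤ psum a k) →
      tint (fun x : Fin n → ℂ => mon a x * prd (kA u) x) = 0) ∧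
    (∀ a : Fin n → ℤ, psum a n ≠ 0 →
      tint (fun x : Fin n → ℂ => mon a x * prd (kA u) x) = 0) ∧
    tint (fun x : Fin n → ℂ => prd (kA u) x) = 1

/-- unsymmetrisation -/
def SpecUnsym : Prop :=
  ∀ (n : ℕ) (u u' : ℂ), ‖u'‖ < 1 → ∀ (L : Fin n → ℤ) (H : (Fin n → ℂ) → ℂ) (C : ℝ),
    (∀ (w : Equiv.Perm (Fin n)) (x : Fin n → ℂ), (∀ i, ‖x i‖ = 1) →
      H (fun i => x (w i)) = H x) →
    AEStronglyMeasurable (fun θ => H (ze θ)) (muT n) →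
    (∀ x : Fin n → ℂ, (∀ i, ‖x i‖ = 1) → ‖H x‖ ≤ C) →
    tint (fun x : Fin n → ℂ => HLR u L x * H x * prd (kD u') x) =
      (Nat.factorial n : ℂ) * tint (fun x : Fin n → ℂ => mon L x * H x * prd (kK u u') x)

/-- orthogonality of Hall-Littlewood polynomials -/
def SpecOrt : Prop :=
  ∀ (n : ℕ) (u : ℝ), 0 < u → u < 1 → ∀ L M : Fin n → ℤ, Antitone L → Antitone M →
    tint (fun x : Fin n → ℂ => RP (u : ℂ) L x * RP (u : ℂ) M (fun i => (x i)⁻¹) *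
      prd (kD (u : ℂ)) x) = if L = M then (Nat.factorial n : ℂ) * vL L u else 0

/-- one-variable Cauchy integral -/
def SpecPf : Prop :=
  ∀ (m : ℕ) (t : ℝ), 0 < t → t < 1 → ∀ y : Fin m → ℂ, (∀ i, ‖y i‖ = 1) → Function.Injective y →
    ∀ a : ℕ, 1 ≤ a →
      cavg (fun z => z ^ a * ∏ j, kK ((t : ℂ) ^ 2) (-(t : ℂ)) (z / y j)) =
        ((1 + (t : ℂ)) / (1 - (t : ℂ))) * ∑ j, (-(t : ℂ) * y j) ^ a *
          ∏ i ∈ univ.erase j, kK ((t : ℂ) ^ 2) (-(t : ℂ)) (-(t : ℂ) * y j / y i)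

/-- recursion of the integrals `Jint` -/
def SpecStep : Prop :=
  ∀ (m : ℕ) (t : ℝ), 0 < t → t < 1 → ∀ a : Fin (m + 2) → ℤ, 1 ≤ a 0 → (∀ j, - a 0 ≤ a j) →
    Jint t a = ((1 + (t : ℂ)) / (1 - (t : ℂ))) * (-(t : ℂ)) ^ (a 0) *
      ∑ j ∈ univ.filter (fun j : Fin (m + 1) => a j.succ = - a 0),
        ((t : ℂ) ^ 2) ^ (m - (j : ℕ)) * Jint t (fun i : Fin m => a (j.succAbove i).succ)

def SpecJsym : Prop :=
  ∀ (n : ℕ) (t : ℝ) (a : Fin n → ℤ), Jint t (fun i => - a (Fin.rev i)) = Jint t a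

def SpecJ0 : Prop :=
  ∀ (n : ℕ) (t : ℝ), 0 < t → t < 1 →
    vv n (-(t : ℂ)) * Jint t (0 : Fin n → ℤ) = vv n ((t : ℂ) ^ 2)

open Classical in
def SpecJval : Prop :=
  ∀ (n : ℕ) (t : ℝ), 0 < t → t < 1 → ∀ L : Fin n → ℤ, Antitone L →
    vv n (-(t : ℂ)) * Jint t L =
      if Sym L then (AA t n L : ℂ) * (-(t : ℂ)) ^ (len L) * vL L ((t : ℂ) ^ 2) else 0

def SpecVan : Prop :=
  ∀ (n : ℕ) (t : ℝ), 0 < t → t < 1 → ∀ L : Fin n → ℤ, Antitone L →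
    tint (fun x : Fin n → ℂ => RP (((t ^ 2 : ℝ)) : ℂ) L (fun i => (x i)⁻¹) *
      prd (kD (-(t : ℂ))) x) = (Nat.factorial n : ℂ) * Jint t L

/-- completeness -/
def SpecCompl : Prop :=
  ∀ (n : ℕ) (u : ℝ), 0 < u → u < 1 → ∀ H : (Fin n → UnitAddCircle) → ℂ, Continuous H →
    (∀ (w : Equiv.Perm (Fin n)) θ, H (fun i => θ (w i)) = H θ) →
    (∀ L : Fin n → ℤ, Antitone L →
      ∫ θ, H θ * RP (u : ℂ) L (fun i => (ze θ i)⁻¹) * prd (kD (u : ℂ)) (ze θ) ∂(muT n) = 0) →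
    ∀ θ, H θ = 0

/-- maximum principle on a product of bounded sets -/
def SpecMax : Prop :=
  ∀ (n : ℕ) (Ω : Fin n → Set ℂ) (f : (Fin n → ℂ) → ℂ) (C : ℝ),
    (∀ i, Bornology.IsBounded (Ω i)) →
    (∀ i, ∀ x : Fin n → ℂ, (∀ j, x j ∈ closure (Ω j)) →
      DiffContOnCl ℂ (fun z => f (Function.update x i z)) (Ω i)) →
    (∀ x : Fin n → ℂ, (∀ i, x i ∈ frontier (Ω i)) → ‖f x‖ ≤ C) →
    ∀ x : Fin n → ℂ, (∀ i, x i ∈ closure (Ω i)) → ‖f x‖ ≤ C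

/-- exponential bound near a torus of radii `r` -/
def SpecBound : Prop :=
  ∀ (n : ℕ) (u : ℝ), 0 < u → u < 1 → ∀ (r : Fin n → ℝ) (Q : ℝ), (∀ i, 0 < r i) →
    (∀ i j, r i < Q * r j) → ∃ C η : ℝ, 0 < η ∧ ∀ x : Fin n → ℂ, (∀ i, |‖x i‖ - r i| < η) →
      ∀ L : Fin n → ℤ, Sym L → ‖RP (u : ℂ) L x‖ ≤ C * Q ^ (len L)

def SpecSumLen : Prop :=
  ∀ (n : ℕ) (s : ℝ), 0 < s → s < 1 → Summable (fun L : {L : Fin n → ℤ // Sym L} => s ^ (len L.1))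

/-- bounds for the factor `AA` -/
def SpecAb : Prop :=
  ∀ (n : ℕ) (t : ℝ), 0 < t → t < 1 → ∃ c C : ℝ, 0 < c ∧ ∀ L : Fin n → ℤ,
    c ≤ AA t n L ∧ AA t n L ≤ C

/-- expansion on the torus -/
def SpecTorid : Prop :=
  ∀ (n : ℕ) (t : ℝ), 0 < t → t < 1 → ∀ x : Fin n → ℂ, (∀ i, ‖x i‖ = 1) →
    HasSum (fun L : {L : Fin n → ℤ // Sym L} =>
      (AA t n L.1 : ℂ) * (-(t : ℂ)) ^ (len L.1) * RP (((t ^ 2 : ℝ)) : ℂ) L.1 x)
      (vv n (-(t : ℂ)) * GG t x)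

/-- expansion in the whole domain of convergence -/
def SpecCont : Prop :=
  ∀ (n : ℕ) (t : ℝ), 0 < t → t < 1 → ∀ x : Fin n → ℂ, (∀ i, x i ≠ 0) →
    (∀ i j, ‖x i‖ * t < ‖x j‖) →
    Summable (fun L : {L : Fin n → ℤ // Sym L} =>
      ‖(AA t n L.1 : ℂ) * (-(t : ℂ)) ^ (len L.1) * RP (((t ^ 2 : ℝ)) : ℂ) L.1 x‖) ∧
    HasSum (fun L : {L : Fin n → ℤ // Sym L} =>
      (AA t n L.1 : ℂ) * (-(t : ℂ)) ^ (len L.1) * RP (((t ^ 2 : ℝ)) : ℂ) L.1 x)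
      (vv n (-(t : ℂ)) * GG t x)

/-- divergence outside the domain, for Hermitian parameters -/
def SpecDiv : Prop :=
  ∀ (n : ℕ) (t : ℝ), 0 < t → t < 1 → ∀ x : Fin n → ℂ, (∀ i, x i ≠ 0) →
    (∃ w : Equiv.Perm (Fin n), ∀ i, x (w i) = ((starRingEnd ℂ) (x i))⁻¹) →
    (¬ ∀ i j, ‖x i‖ * t < ‖x j‖) →
    ¬ Summable (fun L : {L : Fin n → ℤ // Sym L} =>
      ‖(AA t n L.1 : ℂ) * (-(t : ℂ)) ^ (len L.1) * RP (((t ^ 2 : ℝ)) : ℂ) L.1 x‖)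

/-! ## Part 3: lattices -/

/-- the basis `(f, b, e)` -/
def hb {V : Type} {k : ℕ} (f e : V) (b : Fin k → V) : Fin (k + 2) → V :=
  Fin.cons f (Fin.snoc b e : Fin (k + 1) → V)

/-- the exponent `(a, L, -a)` -/
def ha {k : ℕ} (a : ℤ) (L : Fin k → ℤ) : Fin (k + 2) → ℤ := hb a (-a) L

/-- the inner part of an exponent -/
def inn {k : ℕ} (L : Fin (k + 2) → ℤ) : Fin k → ℤ := fun i => L i.castSucc.succ

/-- basic facts on self-dual lattices -/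
def SpecSdl : Prop :=
  ∀ (E : Type) [NormedField E] (U : Unr E) (V : Type) [AddCommGroup V] [Module E V]
    (h : SkF U V) (k : ℕ) (M : AddSubgroup V), SD U h M k →
    (∀ v ∈ M, ∀ w ∈ M, ‖h.h v w‖ ≤ 1) ∧
    (∀ v ∈ Submodule.span E (M : Set V), (∀ w ∈ M, ‖h.h v w‖ ≤ 1) → v ∈ M) ∧
    (∀ b : Fin k → V, SDB U h b → LinearIndependent E b) ∧
    (∀ b : Fin k → V, LinearIndependent E b → M = box U b 0 → SDB U h b) ∧
    (∀ v ∈ Prim U M, ∃ w ∈ M, h.h v w = 1)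

/-- elementary facts on boxes -/
def SpecBox : Prop :=
  ∀ (E : Type) [NormedField E] (U : Unr E) (V : Type) [AddCommGroup V] [Module E V]
    (k : ℕ) (b : Fin k → V),
    (∀ (L : Fin k → ℤ) (x : E) (v : V), ‖x‖ ≤ 1 → v ∈ box U b L → x • v ∈ box U b L) ∧
    (∀ (L : Fin k → ℤ) (j : ℤ), sc U j (box U b L) = box U b (fun i => L i + j)) ∧
    (LinearIndependent E b → ∀ L L' : Fin k → ℤ, box U b L ≤ box U b L' ↔ ∀ i, L' i ≤ L i) ∧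
    (LinearIndependent E b → ∀ L L' : Fin k → ℤ,
      box U b L ⊓ box U b L' = box U b (fun i => max (L i) (L' i))) ∧
    (∀ L L' : Fin k → ℤ, box U b L ⊔ box U b L' = box U b (fun i => min (L i) (L' i))) ∧
    (LinearIndependent E b → ∀ L L' : Fin k → ℤ, (∀ i, L i ≤ L' i) →
      ncls (box U b L') (box U b L : Set V) = U.q ^ (2 * (∑ i, (L' i - L i)).toNat)) ∧
    (∀ (L : Fin k → ℤ), Submodule.span E (box U b L : Set V) = Submodule.span E (Set.range b)) ∧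
    (∀ (v : V) (i₀ : Fin k) (c : Fin k → E), LinearIndependent E b → v = ∑ i, c i • b i →
      (∀ i, ‖c i‖ ≤ 1) → ‖c i₀‖ = 1 →
      LinearIndependent E (Function.update b i₀ v) ∧
        box U (Function.update b i₀ v) 0 = box U b 0)

/-- splitting off a hyperbolic plane -/
def SpecSplit : Prop :=
  ∀ (E : Type) [NormedField E] (U : Unr E) (V : Type) [AddCommGroup V] [Module E V]
    (h : SkF U V) (k : ℕ) (M : AddSubgroup V), SD U h M k →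
    ∀ e ∈ M, ∀ f ∈ M, h.h e e = 0 → h.h f f = 0 → h.h e f = 1 →
    ∃ k', k = k' + 2 ∧ ∃ b : Fin k' → V, SDB U h b ∧ (∀ i, h.h (b i) e = 0 ∧ h.h (b i) f = 0) ∧
      M = box U (hb f e b) 0

/-- lattices containing an orthogonal hyperbolic plane -/
def SpecPlane : Prop :=
  ∀ (E : Type) [NormedField E] (U : Unr E) (V : Type) [AddCommGroup V] [Module E V]
    (h : SkF U V) (k : ℕ) (b : Fin k → V) (e f : V), LinearIndependent E b →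
    (∀ i, h.h (b i) e = 0 ∧ h.h (b i) f = 0) → h.h e e = 0 → h.h f f = 0 → h.h e f = 1 →
    LinearIndependent E (hb f e b) ∧
    (SDB U h b ↔ SDB U h (hb f e b)) ∧
    (∀ (a : ℤ) (L : Fin k → ℤ) (v : V), v ∈ box U (hb f e b) (ha a L) ↔
      ∃ (x y : E) (w : V), ‖x‖ ≤ ‖U.ϖ‖ ^ (-a) ∧ ‖y‖ ≤ ‖U.ϖ‖ ^ a ∧ w ∈ box U b L ∧
        v = x • e + y • f + w) ∧
    (∀ (a : ℤ) (L : Fin k → ℤ) (v : V), v ∈ box U b L ↔
      (v ∈ box U (hb f e b) (ha a L) ∧ h.h v e = 0 ∧ h.h v f = 0)) ∧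
    (∀ (a : ℤ) (L : Fin k → ℤ), box U (hb ((U.ϖ ^ a) • f) ((U.ϖ ^ (-a)) • e) b) (ha 0 L) =
      box U (hb f e b) (ha a L)) ∧
    (∀ (L L' : Fin k → ℤ) (c : Fin k → V), box U b L = box U c L' →
      ∀ a : ℤ, box U (hb f e b) (ha a L) = box U (hb f e c) (ha a L'))

/-- hyperbolic pairs -/
def SpecHpair : Prop :=
  ∀ (E : Type) [NormedField E] (U : Unr E) (V : Type) [AddCommGroup V] [Module E V]
    (h : SkF U V) (k : ℕ) (M : AddSubgroup V), SD U h M k →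
    (2 ≤ k → ∃ e ∈ M, ∃ f ∈ M, h.h e e = 0 ∧ h.h f f = 0 ∧ h.h e f = 1) ∧
    (∀ v ∈ Prim U M, h.h v v = 0 → ∃ f ∈ M, h.h f f = 0 ∧ h.h v f = 1) ∧
    (∀ v ∈ Prim U M, ∀ m : ℕ, 1 ≤ m → ‖h.h v v‖ ≤ ‖U.ϖ‖ ^ m →
      ∃ w ∈ M, v + (U.ϖ ^ m) • w ∈ Prim U M ∧
        h.h (v + (U.ϖ ^ m) • w) (v + (U.ϖ ^ m) • w) = 0)

/-- simultaneous hyperbolic bases -/
def SpecHyp : Prop :=
  ∀ (E : Type) [NormedField E] (U : Unr E) (V : Type) [AddCommGroup V] [Module E V]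
    (h : SkF U V) (k : ℕ) (M L : AddSubgroup V), SD U h M k → SD U h L k →
    Submodule.span E (M : Set V) = Submodule.span E (L : Set V) →
    ∃ (b : Fin k → V) (Λ : Fin k → ℤ), Sym Λ ∧ SDB U h b ∧ HypB U h b Λ ∧
      M = box U b 0 ∧ L = box U b Λ

/-- uniqueness of the position -/
def SpecUniq : Prop :=
  ∀ (E : Type) [NormedField E] (U : Unr E) (V : Type) [AddCommGroup V] [Module E V]
    (k : ℕ) (b b' : Fin k → V) (Λ Λ' : Fin k → ℤ), LinearIndependent E b →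
    LinearIndependent E b' → Antitone Λ → Antitone Λ' → box U b 0 = box U b' 0 →
    box U b Λ = box U b' Λ' → Λ = Λ'

/-- number of norm classes -/
def SpecNrm : Prop :=
  ∀ (E : Type) [NormedField E] (U : Unr E) (c : E), U.σ c = c → ‖c‖ = 1 →
    (U.rep.filter (fun r => ‖r * U.σ r - c‖ < 1)).card = U.q + 1

/-- isotropic classes modulo `ϖ` -/
def SpecCnt0 : Prop :=
  ∀ (E : Type) [NormedField E] (U : Unr E) (V : Type) [AddCommGroup V] [Module E V]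
    (h : SkF U V) (k : ℕ) (M : AddSubgroup V), SD U h M (k + 1) →
    ((ncls (sc U 1 M) {v : V | v ∈ Prim U M ∧ ‖h.h v v‖ < 1} : ℕ) : ℤ) =
      ((U.q : ℤ) ^ (k + 1) - (-1) ^ (k + 1)) * ((U.q : ℤ) ^ k - (-1) ^ k)

/-- isotropic classes modulo `ϖ^m` -/
def SpecCntL : Prop :=
  ∀ (E : Type) [NormedField E] (U : Unr E) (V : Type) [AddCommGroup V] [Module E V]
    (h : SkF U V) (k : ℕ) (M : AddSubgroup V), SD U h M (k + 1) → ∀ m : ℕ, 1 ≤ m →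
    ncls (sc U m M) {v : V | v ∈ Prim U M ∧ ‖h.h v v‖ ≤ ‖U.ϖ‖ ^ m} =
      ncls (sc U 1 M) {v : V | v ∈ Prim U M ∧ ‖h.h v v‖ < 1} * U.q ^ ((2 * k + 1) * (m - 1))

/-- classes of primitive vectors for one lattice -/
def SpecCntP : Prop :=
  ∀ (E : Type) [NormedField E] (U : Unr E) (V : Type) [AddCommGroup V] [Module E V]
    (k : ℕ) (M L : AddSubgroup V) (Λ : Fin (k + 2) → ℤ) (a : ℕ), Sym Λ → 1 ≤ a →
    Λ 0 = a → Pos U M L Λ →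
    ncls (sc U (2 * a : ℕ) M) {v : V | v ∈ Prim U M ∧ (U.ϖ ^ (-(a : ℤ))) • v ∈ L} *
        U.q ^ (2 * (univ.filter (fun i => Λ i = Λ 0)).card) =
      U.q ^ (2 * a * (k + 2)) * (U.q ^ (2 * (univ.filter (fun i => Λ i = Λ 0)).card) - 1)

/-- lattices through a given isotropic line -/
def SpecCntB : Prop :=
  ∀ (E : Type) [NormedField E] (U : Unr E) (V : Type) [AddCommGroup V] [Module E V]
    (h : SkF U V) (k : ℕ) (b : Fin k → V) (e f : V), SDB U h b →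
    (∀ i, h.h (b i) e = 0 ∧ h.h (b i) f = 0) → h.h e e = 0 → h.h f f = 0 → h.h e f = 1 →
    ∀ Λ : Fin (k + 2) → ℤ, Sym Λ → 1 ≤ Λ 0 →
    ∃ F : AddSubgroup V → AddSubgroup V, Set.BijOn F
      {L | SD U h L (k + 2) ∧ Pos U (box U (hb f e b) 0) L Λ ∧ (U.ϖ ^ (- Λ 0)) • e ∈ L}
      {L | SD U h L k ∧ Pos U (box U b 0) L (inn Λ)}

/-- number of self-dual lattices in position `Λ` -/
def SpecCnt : Prop :=
  ∀ (E : Type) [NormedField E] (U : Unr E) (V : Type) [AddCommGroup V] [Module E V]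
    (h : SkF U V) (k : ℕ) (M : AddSubgroup V), SD U h M k → ∀ Λ : Fin k → ℤ, Sym Λ →
    {L : AddSubgroup V | SD U h L k ∧ Pos U M L Λ}.Finite ∧
    ((Set.ncard {L : AddSubgroup V | SD U h L k ∧ Pos U M L Λ} : ℕ) : ℝ) =
      (U.q : ℝ) ^ (tworho Λ) * AA ((U.q : ℝ)⁻¹) k Λ

/-- transitivity of the isometry group on self-dual lattices -/
def SpecTrans : Prop :=
  ∀ (E : Type) [NormedField E] (U : Unr E) (V : Type) [AddCommGroup V] [Module E V]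
    (h : SkF U V) (k : ℕ) (M L : AddSubgroup V), SD U h M k → SD U h L k →
    Submodule.span E (M : Set V) = ⊤ → Submodule.span E (L : Set V) = ⊤ →
    ∃ g ∈ Iso U h, ∀ v, v ∈ M ↔ g v ∈ L

/-! ## Part 4: Weil representation -/

/-- the vector fixed by the lattice -/
def SpecWA : Prop :=
  ∀ (E : Type) [NormedField E] (U : Unr E) (V : Type) [AddCommGroup V] [Module E V]
    (h : SkF U V) (k : ℕ) (M : AddSubgroup V) (S : Type) [NormedAddCommGroup S]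
    [InnerProductSpace ℂ S] [CompleteSpace S] (W : WD U h k M S), Nontrivial S →
    ∃ φ₀ : S, ‖φ₀‖ = 1 ∧ (∀ m ∈ M, W.ρ m φ₀ = φ₀) ∧
      (∀ s, (∀ m ∈ M, W.ρ m s = s) → ∃ c : ℂ, s = c • φ₀) ∧
      (∀ y, y ∉ M → inner ℂ φ₀ (W.ρ y φ₀) = 0)

/-- `K`-fixed vectors are fixed by the lattice -/
def SpecWB : Prop :=
  ∀ (E : Type) [NormedField E] (U : Unr E) (V : Type) [AddCommGroup V] [Module E V]
    (h : SkF U V) (k : ℕ) (M : AddSubgroup V) (S : Type) [NormedAddCommGroup S]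
    [InnerProductSpace ℂ S] [CompleteSpace S] (W : WD U h k M S), 2 ≤ k →
    ∀ φ : S, (∀ g : ↥(Iso U h), (∀ v, v ∈ M ↔ (g : V ≃ₗ[E] V) v ∈ M) → W.ω g φ = φ) →
    ∀ m ∈ M, W.ρ m φ = φ

/-- rank one matrix coefficient -/
def SpecWC : Prop :=
  ∀ (E : Type) [NormedField E] (U : Unr E) (V : Type) [AddCommGroup V] [Module E V]
    (h : SkF U V) (k : ℕ) (M : AddSubgroup V) (S : Type) [NormedAddCommGroup S]
    [InnerProductSpace ℂ S] [CompleteSpace S] (W : WD U h k M S),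
    ∀ e ∈ M, ∀ f ∈ M, h.h e e = 0 → h.h f f = 0 → h.h e f = 1 →
    ∀ φ : S, ‖φ‖ = 1 → (∀ m ∈ M, W.ρ m φ = φ) →
    (∀ g : ↥(Iso U h), (∀ v, v ∈ M ↔ (g : V ≃ₗ[E] V) v ∈ M) → W.ω g φ = φ) →
    ∀ a : ↥(Iso U h), (a : V ≃ₗ[E] V) e = U.ϖ⁻¹ • e → (a : V ≃ₗ[E] V) f = U.ϖ • f →
    (∀ v, h.h v e = 0 → h.h v f = 0 → (a : V ≃ₗ[E] V) v = v) →
    inner ℂ φ (W.ω a φ) = -((U.q : ℂ)⁻¹)

/-- chains of lattices -/
def SpecWD : Prop :=
  ∀ (E : Type) [NormedField E] (U : Unr E) (V : Type) [AddCommGroup V] [Module E V]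
    (h : SkF U V) (k : ℕ) (M : AddSubgroup V) (S : Type) [NormedAddCommGroup S]
    [InnerProductSpace ℂ S] [CompleteSpace S] (W : WD U h k M S) (φ : S), ‖φ‖ = 1 →
    (∀ m ∈ M, W.ρ m φ = φ) → ∀ g' g'' : ↥(Iso U h),
    (∀ x ∈ M, ∃ y z : V, (g' : V ≃ₗ[E] V) x = y + z ∧ y ∈ M ∧
      (∃ y' ∈ M, (g' : V ≃ₗ[E] V) y' = y) ∧ (∃ z' ∈ M, (g' : V ≃ₗ[E] V) z' = z) ∧
      (∃ z'' ∈ M, (g'' : V ≃ₗ[E] V) z'' = z)) →
    inner ℂ φ (W.ω g'' φ) = inner ℂ φ (W.ω g' φ) * inner ℂ (W.ω g' φ) (W.ω g'' φ)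

/-- the spherical matrix coefficient of the Weil representation -/
def SpecWE : Prop :=
  ∀ (E : Type) [NormedField E] (U : Unr E) (V : Type) [AddCommGroup V] [Module E V]
    (h : SkF U V) (k : ℕ) (M : AddSubgroup V) (S : Type) [NormedAddCommGroup S]
    [InnerProductSpace ℂ S] [CompleteSpace S] (W : WD U h k M S) (φ : S), ‖φ‖ = 1 →
    (∀ g : ↥(Iso U h), (∀ v, v ∈ M ↔ (g : V ≃ₗ[E] V) v ∈ M) → W.ω g φ = φ) →
    ∀ (b : Fin k → V) (Λ : Fin k → ℤ), SDB U h b → M = box U b 0 → Sym Λ → HypB U h b Λ →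
    ∀ g : ↥(Iso U h), (∀ v, v ∈ M ↔ (g : V ≃ₗ[E] V) v ∈ box U b Λ) →
    inner ℂ φ (W.ω g φ) = (-((U.q : ℂ)⁻¹)) ^ (len Λ)

/-! ## Part 5: `GL_n`, Hecke operators, Satake parameters, integration, fields -/

/-- coset representatives of `K diag(ϖ^r,1) K / K` -/
def SpecCos : Prop :=
  ∀ (E : Type) [NormedField E] (U : Unr E) (n : ℕ),
    ∃ T : Finset (Fin n) → (Fin n → Fin n → E) → GL (Fin n) E,
      (∀ S, ∀ c ∈ cS U S, (T S c : Matrix (Fin n) (Fin n) E) = tm U.ϖ S c) ∧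
      (∀ r ≤ n, ∀ g, g ∈ Dr U.w n r ↔
        ∃ S ∈ powersetCard r (univ : Finset (Fin n)), ∃ c ∈ cS U S, ∃ k ∈ KS E n, g = T S c * k) ∧
      (∀ S S', ∀ c ∈ cS U S, ∀ c' ∈ cS U S', ∀ k ∈ KS E n, ∀ k' ∈ KS E n,
        T S c * k = T S' c' * k' → S = S' ∧ c = c')

/-- Hecke eigenvector implies the spherical recursion -/
def SpecHeci : Prop :=
  ∀ (E : Type) [NormedField E] (U : Unr E) (n : ℕ) [MeasurableSpace (GL (Fin n) E)]
    [BorelSpace (GL (Fin n) E)] (ν : Measure (GL (Fin n) E)) [ν.IsHaarMeasure]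
    (H : Type) [NormedAddCommGroup H] [InnerProductSpace ℂ H] [CompleteSpace H]
    (π : GL (Fin n) E →* (H ≃ₗᵢ[ℂ] H)) (f : H) (x : Fin n → ℂ), ν (KS E n) = 1 →
    (∀ v, Continuous fun g => π g v) → ‖f‖ = 1 → (∀ g ∈ KS E n, π g f = f) →
    IsSatake U.w U.q π ν f x → IsSph U.q x (fun L => inner ℂ f (π (dg U.w L) f))

/-- Cartan decomposition -/
def SpecCartan : Prop :=
  ∀ (E : Type) [NormedField E] (U : Unr E) (n : ℕ) (g : GL (Fin n) E),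
    ∃ k₁ ∈ KS E n, ∃ k₂ ∈ KS E n, ∃ L : Fin n → ℤ, Antitone L ∧ g = k₁ * dg U.w L * k₂

/-- commutativity of the compressed operators (Gelfand's trick) -/
def SpecGelf : Prop :=
  ∀ (E : Type) [NormedField E] [LocallyCompactSpace E] (U : Unr E) (n : ℕ)
    (H : Type) [NormedAddCommGroup H] [InnerProductSpace ℂ H] [CompleteSpace H]
    (π : GL (Fin n) E →* (H ≃ₗᵢ[ℂ] H)) (P : H →L[ℂ] H), (∀ v, Continuous fun g => π g v) →
    (∀ v, ∀ k ∈ KS E n, π k (P v) = P v) →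
    (∀ v, (∀ k ∈ KS E n, π k v = v) → P v = v) →
    (∀ v w, inner ℂ (P v) w = inner ℂ v (P w)) →
    ∀ g h v, P (π g (P (π h (P v)))) = P (π h (P (π g (P v))))

/-- irreducible commuting self-adjoint families are one-dimensional -/
def SpecSch : Prop :=
  ∀ (V : Type) [NormedAddCommGroup V] [InnerProductSpace ℂ V] [CompleteSpace V]
    (T : Set (V →L[ℂ] V)), (∀ A ∈ T, ContinuousLinearMap.adjoint A ∈ T) →
    (∀ A ∈ T, ∀ B ∈ T, A * B = B * A) →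
    (∀ W : Submodule ℂ V, IsClosed (W : Set V) → (∀ A ∈ T, ∀ v ∈ W, A v ∈ W) →
      W = ⊥ ∨ W = ⊤) →
    ∀ v w : V, v ≠ 0 → ∃ c : ℂ, w = c • v

/-- existence of Satake parameters -/
def SpecSat : Prop :=
  ∀ (E : Type) [NormedField E] [LocallyCompactSpace E] (U : Unr E) (n : ℕ)
    [MeasurableSpace (GL (Fin n) E)] [BorelSpace (GL (Fin n) E)] (ν : Measure (GL (Fin n) E))
    [ν.IsHaarMeasure]
    (H : Type) [NormedAddCommGroup H] [InnerProductSpace ℂ H] [CompleteSpace H]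
    (π : GL (Fin n) E →* (H ≃ₗᵢ[ℂ] H)) (f : H), ν (KS E n) = 1 →
    (∀ v, Continuous fun g => π g v) →
    (∀ W : Submodule ℂ H, IsClosed (W : Set H) → (∀ g, ∀ v ∈ W, π g v ∈ W) → W = ⊥ ∨ W = ⊤) →
    ‖f‖ = 1 → (∀ g ∈ KS E n, π g f = f) →
    ∃ x : Fin n → ℂ, (∀ i, x i ≠ 0) ∧ IsSatake U.w U.q π ν f x

/-- integration over a group with a compact open subgroup of measure one -/
def SpecIntg : Prop :=
  ∀ (G : Type) [Group G] [TopologicalSpace G] [IsTopologicalGroup G] [MeasurableSpace G]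
    [BorelSpace G] (μ : Measure G) [μ.IsMulLeftInvariant] (K : Subgroup G),
    IsOpen (K : Set G) → μ (K : Set G) = 1 → Countable (G ⧸ K) → ∀ F : G → ℂ,
    (∀ g, ∀ k ∈ K, F (g * k) = F g) →
    (Integrable F μ ↔ Summable (fun c : G ⧸ K => ‖F c.out‖)) ∧
    (Summable (fun c : G ⧸ K => ‖F c.out‖) → ∫ g, F g ∂μ = ∑' c : G ⧸ K, F c.out)

/-- local fields give the data used above -/
def SpecFld : Prop :=
  ∀ (F : Type) [NontriviallyNormedField F] [IsUltrametricDist F] [LocallyCompactSpace F]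
    (ϖ : Fˣ) (E : Type) [NormedField E] [NormedAlgebra F E] (σ : E ≃ₐ[F] E),
    ‖(2 : F)‖ = 1 → (‖(ϖ : F)‖ < 1 ∧ ∀ x : F, ‖x‖ < 1 → ‖x‖ ≤ ‖(ϖ : F)‖) →
    Module.finrank F E = 2 → (∀ x : E, ∃ y : F, ‖y‖ = ‖x‖) → σ ≠ AlgEquiv.refl →
    LocallyCompactSpace E ∧ (∀ z : E, z * σ z ≠ algebraMap F E ϖ) ∧
    ∃ U : Unr E, (∀ x, U.σ x = σ x) ∧ U.ϖ = algebraMap F E ϖ ∧ U.q = resCard F ∧
      ∀ ψ : AddChar F Circle, (∀ x, ‖x‖ ≤ 1 → ψ x = 1) →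
        (∃ x, ‖x‖ ≤ ‖(ϖ : F)‖⁻¹ ∧ ψ x ≠ 1) →
        ∃ Ψ : AddChar E Circle, (∀ x, Ψ x = ψ (Algebra.trace F E x / 2)) ∧
          (∀ x, Ψ (U.σ x) = Ψ x) ∧ (∀ x, ‖x‖ ≤ 1 → Ψ x = 1) ∧
          ∃ x, U.σ x = x ∧ ‖x‖ ≤ ‖U.ϖ‖⁻¹ ∧ Ψ x ≠ 1

end MPtg
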